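import Pool.Agent.H94.BG.H31.PT.M01

/-! The parts of this file: H31.PT.M01_1, H31.PT.M01_2. -/

section

/-! The parts of this file: H89.Perc.Defs, H89.Perc.Path, H89.Perc.Z2, H89.Perc.Cross, H89.Perc.Sep. -/

section

/-!
# Bond percolation on the square lattice: basic definitions

Vertices are `ℤ × ℤ`.  The edge `(x, y, false)` joins `(x, y)` and `(x + 1, y)`, the edge
`(x, y, true)` joins `(x, y)` and `(x, y + 1)`.  A configuration is a function `Edge → Bool`
(`true` means open).  The dual vertex `(x, y)` is the unit square with lower left corner `(x, y)`,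
and `dual ω` is the dual configuration, in which a dual edge is open if and only if the primal edge
which it crosses is closed.
-/

open MeasureTheory ProbabilityTheory unitInterval

namespace Pool.Agent.H89.Perc

/-- Percolation probability. -/
noncomputable def theta (p : I) : ℝ := Pr p {ω | {v | Conn ω Set.univ 0 v}.Infinite}

end Pool.Agent.H89.Perc

end

section

/-!
# Basic lemmas on open paths
-/

open MeasureTheory ProbabilityTheory unitInterval

namespace Pool.Agent.H89.Perc

variable {ω ω' : Config} {S T : Set Vert} {u v w : Vert} {e : Edge}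

lemma conn_comm : Conn ω S u v ↔ Conn ω S v u := ⟨Conn.symm, Conn.symm⟩

lemma sphere_subset_ball {r : ℕ} : sphere v r ⊆ ball v r := fun _ h => h.1

end Pool.Agent.H89.Perc

end

section

/-!
# Parity arguments in the plane

Edge functions with values in `ZMod 2`. `fsum c F` is the sum around the face `F` (with lower left
corner `F`), `vsum c V` is the sum over the edges at the vertex `V`. On a rectangle, an edge function
whose face sums vanish is the coboundary of a vertex function (`integRect`); the consequence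
`cut_lemma` is the tool behind the duality statements.
-/

namespace Pool.Agent.H89.Perc

variable {ω ω' : Config} {S T : Set Vert} {u v w : Vert} {e : Edge}

lemma z2_one_of_ne {a : ZMod 2} (h : a ≠ 0) : a = 1 := by
  revert h; revert a; decide

lemma z2_add_eq_one {a b : ZMod 2} : a + b = 1 ↔ a ≠ b := by
  revert a b; decide

lemma src_eq_lowFace_crossed (e : Edge) : src e = lowFace (crossed e) := by
  rw [← src_uncross, uncross_crossed]

lemma tgt_eq_src_crossed (e : Edge) : tgt e = src (crossed e) := by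
  rw [← tgt_uncross, uncross_crossed]

lemma Step.of_dual (h : Step (dual ω) S u v) :
    u ∈ S ∧ v ∈ S ∧ ∃ e, ω e = false ∧
      ((u = lowFace e ∧ v = src e) ∨ (u = src e ∧ v = lowFace e)) := by
  obtain ⟨h1, h2, e, h3, h4⟩ := h
  refine ⟨h1, h2, crossed e, by simpa [dual] using h4, ?_⟩
  rw [← src_eq_lowFace_crossed, ← tgt_eq_src_crossed]
  exact h3

/-! ### Chains of paths -/

lemma fsum_add (c c' : Edge → ZMod 2) (F : Vert) :
    fsum (fun e => c e + c' e) F = fsum c F + fsum c' F := by
  unfold fsum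
  ring

/-! ### Reflection in the diagonal -/

end Pool.Agent.H89.Perc

end

section

/-!
# Topology, part 1: a left-right path and a bottom-top path of a rectangle meet
-/

namespace Pool.Agent.H89.Perc

/-- A path from the left side to the right side and a path from the bottom side to the top side of
a rectangle (for two arbitrary configurations, so arbitrary paths) have a common vertex. -/
theorem cross {ω ω' : Config} {a b c d : ℤ} {u v u' v' : Vert}
    (h : Conn ω (rect a b c d) u v) (hu : u.1 = a) (hv : v.1 = b)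
    (h' : Conn ω' (rect a b c d) u' v') (hu' : u'.2 = c) (hv' : v'.2 = d) :
    ∃ w, Conn ω (rect a b c d) u w ∧ Conn ω' (rect a b c d) u' w := by
  classical
  by_contra hno
  push Not at hno
  set ω₁ : Config := fun e => decide (¬ Conn ω' (rect a b c d) u' (src e)) with hω₁
  have hvm := h.mem_right
  have hum' := h'.mem_left
  have hab : a ≤ b := hvm.1.trans hvm.2.1
  -- the left-right path
  have h1 : Conn ω₁ (rect a (b + 1) c d) u v := by
    refine h.induction_right (P := fun x => Conn ω₁ (rect a (b + 1) c d) u x) (Conn.refl ?_) ?_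
    · exact ⟨h.mem_left.1, h.mem_left.2.1.trans (by omega), h.mem_left.2.2⟩
    · intro x y hx hs ih
      have hy := hx.tail hs
      obtain ⟨k1, k2, e, k3, k4⟩ := hs
      refine ih.tail ⟨ih.mem_right, ⟨k2.1, k2.2.1.trans (by omega), k2.2.2⟩, e, k3, ?_⟩
      simp only [hω₁, decide_eq_true_eq]
      rcases k3 with ⟨k5, _⟩ | ⟨_, k6⟩
      · rw [← k5]; exact hno _ hx
      · rw [← k6]; exact hno _ hy
  have h2 : HCross ω₁ a (b + 1) c d := by
    refine ⟨u, (v.1 + 1, v.2), hu, by simp [hv], h1.tail ⟨h1.mem_right, ?_, ?_⟩⟩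
    · exact ⟨by have := hvm.1; simp only; omega, by have := hvm.2.1; simp only; omega, hvm.2.2⟩
    · refine ⟨(v.1, v.2, false), Or.inl ⟨rfl, rfl⟩, ?_⟩
      simp only [hω₁, decide_eq_true_eq]
      exact hno _ h
  -- the bottom-top path, seen as a dual path
  have key : ∀ e : Edge, Conn ω' (rect a b c d) u' (src e) → ω₁ e = false := by
    intro e he
    simp [hω₁, he]
  have hsub : rect a b c d ⊆ rect a (b + 1 - 1) (c - 1) d := by
    rintro w ⟨k1, k2, k3, k4⟩
    exact ⟨k1, by omega, by omega, k4⟩
  have h3 : Conn (dual ω₁) (rect a (b + 1 - 1) (c - 1) d) u' v' := by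
    refine h'.induction_right (P := fun x => Conn (dual ω₁) (rect a (b + 1 - 1) (c - 1) d) u' x)
      (Conn.refl (hsub hum')) ?_
    intro x y hx hs ih
    have hy := hx.tail hs
    refine ih.trans ?_
    have hx1 := hsub hx.mem_right
    have hy1 := hsub hy.mem_right
    obtain ⟨_, _, e, k3, _⟩ := hs
    obtain ⟨ex, ey, t⟩ := e
    rcases k3 with ⟨k5, k6⟩ | ⟨k5, k6⟩
    · -- y = tgt e
      subst k5 k6
      cases t
      · have := dual_step (S := rect a (b + 1 - 1) (c - 1) d) (key (ex + 1, ey, true) hy)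
          (by simpa [lowFace, src] using hx1) (by simpa [src, tgt] using hy1)
        simpa [lowFace, src, tgt] using this.conn
      · have := dual_step (S := rect a (b + 1 - 1) (c - 1) d) (key (ex, ey + 1, false) hy)
          (by simpa [lowFace, src] using hx1) (by simpa [src, tgt] using hy1)
        simpa [lowFace, src, tgt] using this.conn
    · subst k5 k6
      cases t
      · have := dual_step (S := rect a (b + 1 - 1) (c - 1) d) (key (ex + 1, ey, true) hx)
          (by simpa [lowFace, src] using hy1) (by simpa [src, tgt] using hx1)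
        simpa [lowFace, src, tgt] using this.symm.conn
      · have := dual_step (S := rect a (b + 1 - 1) (c - 1) d) (key (ex, ey + 1, false) hx)
          (by simpa [lowFace, src] using hy1) (by simpa [src, tgt] using hx1)
        simpa [lowFace, src, tgt] using this.symm.conn
  have h4 : VCross (dual ω₁) a (b + 1 - 1) (c - 1) d := by
    refine ⟨(u'.1, u'.2 - 1), v', by simp [hu'], hv', ?_⟩
    have h5 := dual_step (S := rect a (b + 1 - 1) (c - 1) d) (key (u'.1, u'.2, false)
      (Conn.refl hum')) ?_ (by simpa [src] using hsub hum')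
    · exact (by simpa [lowFace, src] using h5.conn : Conn (dual ω₁) (rect a (b + 1 - 1) (c - 1) d)
        (u'.1, u'.2 - 1) u').trans h3
    · obtain ⟨k1, k2, k3, k4⟩ := hum'
      exact ⟨by simpa [lowFace] using k1, by simpa [lowFace] using k2,
        by simp [lowFace]; omega, by simp [lowFace]; omega⟩
  exact not_hcross_and_dual_vcross (by omega) h2 h4

end Pool.Agent.H89.Perc

end

section

/-!
# Topology, part 2: the boundary between two complementary connected sets is dual-connected
-/

namespace Pool.Agent.H89.Perc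

lemma cutConfig_false {K : Set Vert} {e : Edge} :
    cutConfig K e = false ↔ ¬ (src e ∈ K ↔ tgt e ∈ K) := by
  unfold cutConfig
  rw [decide_eq_false_iff_not]

/-- Let `D` be the rectangle `[a, b] × [c, d]` and `K ⊆ D` such that `K` and `D \ K` are connected.
Then the faces inside `D` adjacent to edges between `K` and `D \ K` are joined to each other by
dual paths inside `D` crossing only edges between `K` and `D \ K`. -/
theorem sep {a b c d : ℤ} {K : Set Vert} (hK : K ⊆ rect a b c d)
    (hKc : ∀ u ∈ K, ∀ v ∈ K, Conn allOpen K u v)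
    (hKc' : ∀ u ∈ rect a b c d \ K, ∀ v ∈ rect a b c d \ K, Conn allOpen (rect a b c d \ K) u v)
    {e e' : Edge} (he : src e ∈ rect a b c d ∧ tgt e ∈ rect a b c d)
    (he' : src e' ∈ rect a b c d ∧ tgt e' ∈ rect a b c d)
    (hcut : cutConfig K e = false) (hcut' : cutConfig K e' = false)
    {φ φ' : Vert} (hφ : IsFace φ e) (hφ' : IsFace φ' e')
    (hφD : φ ∈ rect a (b - 1) c (d - 1)) (hφD' : φ' ∈ rect a (b - 1) c (d - 1)) :
    Conn (dual (cutConfig K)) (rect a (b - 1) c (d - 1)) φ φ' := by
  classical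
  set χ : Vert → ZMod 2 := fun v => if v ∈ K then 1 else 0 with hχ
  have hχ1 : ∀ e, cutConfig K e = false ↔ χ (src e) ≠ χ (tgt e) := by
    intro e
    rw [cutConfig_false]
    simp only [hχ]
    by_cases h1 : src e ∈ K <;> by_cases h2 : tgt e ∈ K <;> simp [h1, h2]
  by_contra hno
  set T : Set Vert := {F | Conn (dual (cutConfig K)) (rect a (b - 1) c (d - 1)) φ F} with hT
  have hTc : ∀ e : Edge, src e ∈ rect a (b - 1) c (d - 1) → lowFace e ∈ rect a (b - 1) c (d - 1) →
      χ (src e) ≠ χ (tgt e) → (src e ∈ T ↔ lowFace e ∈ T) := by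
    intro e h1 h2 h3
    have h4 := dual_step ((hχ1 e).2 h3) h2 h1
    exact ⟨fun h => Conn.tail h h4.symm, fun h => Conn.tail h h4⟩
  obtain ⟨W, hW⟩ := cut_lemma (a := a) (b := b) (c := c) (d := d) χ T
    (fun F hF => Conn.mem_right hF) hTc
  have hWe : ∀ e, src e ∈ rect a b c d → tgt e ∈ rect a b c d → χ (src e) = χ (tgt e) →
      W (src e) = W (tgt e) := by
    intro e h1 h2 h3
    by_cases h4 : src e ∈ T ∨ lowFace e ∈ T
    · have := (hW e h1 h2).1 h4
      rwa [h3, z2_add_self, z2_add_eq_zero] at this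
    · push Not at h4
      exact (hW e h1 h2).2 h4.1 h4.2
  have hWK : ∀ u ∈ K, ∀ v ∈ K, W u = W v := by
    intro u hu v hv
    refine (hKc u hu v hv).const fun e h1 h2 _ => hWe e (hK h1) (hK h2) ?_
    simp [hχ, h1, h2]
  have hWK' : ∀ u ∈ rect a b c d \ K, ∀ v ∈ rect a b c d \ K, W u = W v := by
    intro u hu v hv
    refine (hKc' u hu v hv).const fun e h1 h2 _ => hWe e h1.1 h2.1 ?_
    simp [hχ, h1.2, h2.2]
  -- the edge `e`
  have h1 : W (src e) ≠ W (tgt e) := by
    have hφT : φ ∈ T := Conn.refl hφD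
    have h2 : src e ∈ T ∨ lowFace e ∈ T := by
      rcases hφ with h | h
      · exact Or.inl (h ▸ hφT)
      · rw [h] at hφT
        exact Or.inr hφT
    have h3 := (hW e he.1 he.2).1 h2
    intro h4
    rw [h4, z2_add_self] at h3
    exact (hχ1 e).1 hcut (z2_add_eq_zero.1 h3.symm)
  -- the edge `e'`
  have h2 : W (src e') = W (tgt e') := by
    have hne := (hχ1 e').1 hcut'
    have hφT : φ' ∉ T := hno
    have h3 : src e' ∉ T ∧ lowFace e' ∉ T := by
      rcases hφ' with h | h
      · have h4 : src e' ∉ T := h ▸ hφT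
        refine ⟨h4, fun h5 => h4 ((hTc e' (h ▸ hφD') (Conn.mem_right h5) hne).2 h5)⟩
      · have h4 : lowFace e' ∉ T := by
          rw [h] at hφT; exact hφT
        have h6 : lowFace e' ∈ rect a (b - 1) c (d - 1) := by
          rw [h] at hφD'; exact hφD'
        exact ⟨fun h5 => h4 ((hTc e' (Conn.mem_right h5) h6 hne).1 h5), h4⟩
    exact (hW e' he'.1 he'.2).2 h3.1 h3.2
  have hc1 := cutConfig_false.1 hcut
  have hc2 := cutConfig_false.1 hcut'
  by_cases k1 : src e ∈ K
  · have k2 : tgt e ∉ K := fun h => hc1 (by simp [k1, h])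
    by_cases k3 : src e' ∈ K
    · have k4 : tgt e' ∉ K := fun h => hc2 (by simp [k3, h])
      exact h1 ((hWK _ k1 _ k3).trans (h2.trans (hWK' _ ⟨he'.2, k4⟩ _ ⟨he.2, k2⟩)))
    · have k4 : tgt e' ∈ K := by
        by_contra h; exact hc2 (by simp [k3, h])
      exact h1 ((hWK _ k1 _ k4).trans (h2.symm.trans (hWK' _ ⟨he'.1, k3⟩ _ ⟨he.2, k2⟩)))
  · have k2 : tgt e ∈ K := by
      by_contra h; exact hc1 (by simp [k1, h])
    by_cases k3 : src e' ∈ K
    · have k4 : tgt e' ∉ K := fun h => hc2 (by simp [k3, h])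
      exact h1 ((hWK' _ ⟨he.1, k1⟩ _ ⟨he'.2, k4⟩).trans (h2.symm.trans (hWK _ k3 _ k2)))
    · have k4 : tgt e' ∈ K := by
        by_contra h; exact hc2 (by simp [k3, h])
      exact h1 ((hWK' _ ⟨he.1, k1⟩ _ ⟨he'.1, k3⟩).trans (h2.trans (hWK _ k4 _ k2)))

/-- If `C` is a connected nonempty subset of a rectangle `D` and `K` is a component of `D \ C`,
then `K` and `D \ K` are connected. -/
theorem comp_connected {D C : Set Vert} {v : Vert} :
    ∀ u ∈ comp D C v, ∀ w ∈ comp D C v, Conn allOpen (comp D C v) u w := by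
  have key : ∀ w ∈ comp D C v, Conn allOpen (comp D C v) v w := by
    intro w hw
    refine Conn.induction_right (P := fun x => Conn allOpen (comp D C v) v x) hw
      (Conn.refl (Conn.refl (Conn.mem_left hw))) ?_
    intro a b ha hab ih
    exact ih.tail ⟨ha, ha.tail hab, hab.2.2⟩
  intro u hu w hw
  exact (key u hu).symm.trans (key w hw)

/-- A straight horizontal path. -/
lemma conn_line_x {S : Set Vert} {x₁ x₂ y : ℤ} (hx : x₁ ≤ x₂)
    (h : ∀ x, x₁ ≤ x → x ≤ x₂ → (x, y) ∈ S) : Conn allOpen S (x₁, y) (x₂, y) := by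
  have key : ∀ n : ℕ, x₁ + n ≤ x₂ → Conn allOpen S (x₁, y) (x₁ + n, y) := by
    intro n
    induction n with
    | zero => intro _; simpa using Conn.refl (h x₁ le_rfl hx)
    | succ n ih =>
      intro hn
      push_cast at hn ⊢
      refine (ih (by omega)).tail ⟨h _ (by omega) (by omega), h _ (by omega) (by omega),
        (x₁ + n, y, false), Or.inl ⟨rfl, ?_⟩, rfl⟩
      simp [tgt, add_assoc]
  have := key (x₂ - x₁).toNat (by omega)
  have e1 : x₁ + ((x₂ - x₁).toNat : ℤ) = x₂ := by omega
  rwa [e1] at this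

/-- A straight vertical path. -/
lemma conn_line_y {S : Set Vert} {x y₁ y₂ : ℤ} (hy : y₁ ≤ y₂)
    (h : ∀ y, y₁ ≤ y → y ≤ y₂ → (x, y) ∈ S) : Conn allOpen S (x, y₁) (x, y₂) := by
  have key : ∀ n : ℕ, y₁ + n ≤ y₂ → Conn allOpen S (x, y₁) (x, y₁ + n) := by
    intro n
    induction n with
    | zero => intro _; simpa using Conn.refl (h y₁ le_rfl hy)
    | succ n ih =>
      intro hn
      push_cast at hn ⊢
      refine (ih (by omega)).tail ⟨h _ (by omega) (by omega), h _ (by omega) (by omega),
        (x, y₁ + n, true), Or.inl ⟨rfl, ?_⟩, rfl⟩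
      simp [tgt, add_assoc]
  have := key (y₂ - y₁).toNat (by omega)
  have e1 : y₁ + ((y₂ - y₁).toNat : ℤ) = y₂ := by omega
  rwa [e1] at this

/-- Rectangles are connected. -/
lemma conn_rect {a b c d : ℤ} {u v : Vert} (hu : u ∈ rect a b c d) (hv : v ∈ rect a b c d) :
    Conn allOpen (rect a b c d) u v := by
  obtain ⟨x, y⟩ := u
  obtain ⟨x', y'⟩ := v
  have h1 : Conn allOpen (rect a b c d) (x, y) (x', y) := by
    rcases le_total x x' with h | h
    · exact conn_line_x h fun z h1 h2 => ⟨hu.1.trans h1, h2.trans hv.2.1, hu.2.2⟩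
    · exact (conn_line_x (S := rect a b c d) h
        fun z h1 h2 => ⟨hv.1.trans h1, h2.trans hu.2.1, hu.2.2⟩).symm
  have h2 : Conn allOpen (rect a b c d) (x', y) (x', y') := by
    rcases le_total y y' with h | h
    · exact conn_line_y h fun z h1 h2 => ⟨hv.1, hv.2.1, hu.2.2.1.trans h1, h2.trans hv.2.2.2⟩
    · exact (conn_line_y (S := rect a b c d) h fun z h1 h2 =>
        ⟨hv.1, hv.2.1, hv.2.2.1.trans h1, h2.trans hu.2.2.2⟩).symm
  exact h1.trans h2

theorem compl_comp_connected {a b c d : ℤ} {C : Set Vert} {v c₀ : Vert}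
    (hC : C ⊆ rect a b c d) (hc₀ : c₀ ∈ C)
    (hCc : ∀ u ∈ C, ∀ w ∈ C, Conn allOpen C u w) :
    ∀ u ∈ rect a b c d \ comp (rect a b c d) C v, ∀ w ∈ rect a b c d \ comp (rect a b c d) C v,
      Conn allOpen (rect a b c d \ comp (rect a b c d) C v) u w := by
  set D := rect a b c d with hD
  set K := comp D C v with hK
  have hCK : C ⊆ D \ K := by
    intro w hw
    refine ⟨hC hw, fun h => ?_⟩
    exact (Conn.mem_right h).2 hw
  have hCC : ∀ u ∈ C, ∀ w ∈ C, Conn allOpen (D \ K) u w :=
    fun u hu w hw => (hCc u hu w hw).mono_set hCK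
  -- every vertex of `D \ K` is joined to `c₀` in `D \ K`
  have key : ∀ u ∈ D \ K, Conn allOpen (D \ K) c₀ u := by
    intro u hu
    by_cases huC : u ∈ C
    · exact hCC _ hc₀ _ huC
    have h1 : Conn allOpen D u c₀ := conn_rect hu.1 (hC hc₀)
    obtain ⟨x, x', h2, h3, h4, _⟩ := h1.exists_hit (T := C) huC hc₀
    -- the path from `u` to `x` avoids `C`, so it stays out of `K`
    have h5 : Conn allOpen (D \ K) u x := by
      refine h2.induction_right (P := fun z => Conn allOpen (D \ K) u z) (Conn.refl hu) ?_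
      intro z z' hz hzz' ih
      refine ih.tail ⟨ih.mem_right, ⟨hzz'.2.1.1, fun h => ?_⟩, hzz'.2.2⟩
      refine hu.2 ?_
      exact (Conn.tail h hzz'.symm).trans hz.symm
    have h6 : Conn allOpen (D \ K) u x' := h5.tail ⟨h5.mem_right, hCK h4, h3.2.2⟩
    exact (hCC _ hc₀ _ h4).trans h6.symm
  intro u hu w hw
  exact (key u hu).symm.trans (key w hw)

/-- An edge of `D` between the component `K` of `D \ C` and `D \ K` joins `C` to `K`. -/
theorem cut_comp {D C : Set Vert} {v : Vert} {e : Edge} (he : src e ∈ D ∧ tgt e ∈ D)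
    (hcut : cutConfig (comp D C v) e = false) :
    (src e ∈ C ∧ tgt e ∈ comp D C v) ∨ (tgt e ∈ C ∧ src e ∈ comp D C v) := by
  have h1 := cutConfig_false.1 hcut
  by_cases h2 : src e ∈ comp D C v
  · right
    refine ⟨?_, h2⟩
    by_contra h3
    apply h1
    refine ⟨fun _ => ?_, fun _ => h2⟩
    exact Conn.tail h2 ⟨Conn.mem_right h2, ⟨he.2, h3⟩, e, joins_src_tgt e, rfl⟩
  · left
    have h3 : tgt e ∈ comp D C v := by
      by_contra h; exact h1 (by simp [h2, h])
    refine ⟨?_, h3⟩
    by_contra h4
    apply h2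
    exact Conn.tail h3 ⟨Conn.mem_right h3, ⟨he.1, h4⟩, e, (joins_src_tgt e).symm, rfl⟩

end Pool.Agent.H89.Perc

end

end

section

/-! The parts of this file: H89.Perc.Defs, H89.Perc.Path, H89.Perc.Z2, H89.Perc.Cross, H89.Perc.Sep. -/

section

/-!
# Bond percolation on the square lattice: basic definitions

Vertices are `ℤ × ℤ`.  The edge `(x, y, false)` joins `(x, y)` and `(x + 1, y)`, the edge
`(x, y, true)` joins `(x, y)` and `(x, y + 1)`.  A configuration is a function `Edge → Bool`
(`true` means open).  The dual vertex `(x, y)` is the unit square with lower left corner `(x, y)`,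
and `dual ω` is the dual configuration, in which a dual edge is open if and only if the primal edge
which it crosses is closed.
-/

open MeasureTheory ProbabilityTheory unitInterval

namespace Pool.Agent.H89.Perc

/-- Annulus event: `ball v s` is joined to `sphere v r` inside `ball v r`. -/
def ArmBox (v : Vert) (s r : ℕ) : Set Config :=
  {ω | ∃ w ∈ ball v s, ∃ u ∈ sphere v r, Conn ω (ball v r) w u}

/-- Influence of the edge `e` on the event `A` (discrete derivative). -/
noncomputable def pivot (p : I) (A : Set Config) (e : Edge) : ℝ :=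
  Pr p {ω | Function.update ω e true ∈ A} - Pr p {ω | Function.update ω e false ∈ A}

end Pool.Agent.H89.Perc

end

section

/-!
# Basic lemmas on open paths
-/

open MeasureTheory ProbabilityTheory unitInterval

namespace Pool.Agent.H89.Perc

variable {ω ω' : Config} {S T : Set Vert} {u v w : Vert} {e : Edge}

lemma Step.snd_le (h : Step ω S u v) : v.2 ≤ u.2 + 1 ∧ u.2 ≤ v.2 + 1 := by
  obtain ⟨_, _, e, he, _⟩ := h
  rcases he with ⟨h1, h2⟩ | ⟨h1, h2⟩ <;>
  · subst h1 h2
    rcases he' : e.2.2 <;> simp [src, tgt, he']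
    all_goals try omega

/-- Extraction of a vertical crossing of the strip `a ≤ y ≤ b`. -/
lemma Conn.cross_y {a b : ℤ} (h : Conn ω S u v) (hu : u.2 ≤ a) (hv : b ≤ v.2) (hab : a ≤ b) :
    ∃ u' v' : Vert, u'.2 = a ∧ v'.2 = b ∧ Conn ω (S ∩ {w | a ≤ w.2 ∧ w.2 ≤ b}) u' v' ∧
      Conn ω S u u' ∧ Conn ω S v' v := by
  have h1 : ∃ v' : Vert, v'.2 = b ∧ Conn ω (S ∩ {w | w.2 ≤ b}) u v' ∧ Conn ω S v' v := by
    by_cases hub : u.2 = b
    · exact ⟨u, hub, Conn.refl ⟨h.mem_left, by simp [hub]⟩, h⟩
    have hub' : u.2 < b := lt_of_le_of_ne (hu.trans hab) hub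
    obtain ⟨w, w', h1, h2, h3, h4⟩ := h.exists_hit (T := {w | b ≤ w.2}) (by simpa using hub')
      (by simpa using hv)
    have h5 := h1.mem_right.2
    simp only [Set.mem_ofPred_eq, not_le] at h3 h5
    have h6 := h2.snd_le
    have h7 : w'.2 = b := by omega
    refine ⟨w', h7, ?_, h4⟩
    have h8 : Conn ω (S ∩ {w | w.2 ≤ b}) u w :=
      h1.mono_set fun x hx => ⟨hx.1, by have := hx.2; simp only [Set.mem_ofPred_eq, not_le] at this ⊢; omega⟩
    exact h8.tail ⟨h8.mem_right, ⟨h2.2.1, by simp [h7]⟩, h2.2.2⟩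
  obtain ⟨v', hv', hc, hv'v⟩ := h1
  by_cases hab' : a = b
  · subst hab'
    exact ⟨v', v', hv', hv', Conn.refl ⟨hc.mem_right.1, by simp [hv']⟩,
      hc.mono_set (fun x hx => hx.1), hv'v⟩
  have hlt : a < b := lt_of_le_of_ne hab hab'
  obtain ⟨w, w', h1, h2, h3, h4⟩ := hc.exists_last (T := {w | w.2 ≤ a}) (by simpa using hu)
    (by simp [hv']; omega)
  have h5 := h4.mem_left.2
  simp only [Set.mem_ofPred_eq, not_le] at h1 h5
  have h6 := h3.snd_le
  have h7 : w.2 = a := by omega
  refine ⟨w, v', h7, hv', ?_, h2.mono_set (fun x hx => hx.1), hv'v⟩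
  have h8 : Conn ω (S ∩ {w | a ≤ w.2 ∧ w.2 ≤ b}) w' v' :=
    h4.mono_set fun x hx => ⟨hx.1.1, by
      have := hx.2; have h9 := hx.1.2
      simp only [Set.mem_ofPred_eq, not_le] at this h9 ⊢; omega⟩
  have h9 : Step ω (S ∩ {w | a ≤ w.2 ∧ w.2 ≤ b}) w w' :=
    ⟨⟨h3.1.1, by simp only [Set.mem_ofPred_eq]; omega⟩, h8.mem_left, h3.2.2⟩
  exact h9.conn.trans h8

lemma self_mem_ball {r : ℕ} : v ∈ ball v r := by
  simp only [mem_ball]; omega

/-- A path from `w ∈ ball v r` to a point outside the ball or on its sphere contains a path inside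
the ball to the sphere. -/
lemma Conn.to_sphere {r : ℕ} (h : Conn ω S w u) (hw : w ∈ ball v r)
    (hu : u ∉ ball v r ∨ u ∈ sphere v r) :
    ∃ x ∈ sphere v r, Conn ω (S ∩ ball v r) w x := by
  by_cases hub : u ∈ ball v r
  · -- `u` is on the sphere; look for the first exit, or the whole path is inside
    have hus : u ∈ sphere v r := by
      rcases hu with h | h
      · exact absurd hub h
      · exact h
    by_contra hno
    push Not at hno
    -- all vertices joined to `w` stay inside the ball and off the sphere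
    have key : Conn ω (S ∩ ball v r) w u := by
      refine h.induction_right (P := fun x => Conn ω (S ∩ ball v r) w x)
        (Conn.refl ⟨h.mem_left, hw⟩) ?_
      intro a b hwa hab ha
      refine ha.tail ⟨ha.mem_right, ⟨hab.2.1, ?_⟩, hab.2.2⟩
      have h1 : a ∈ ball v r := ha.mem_right.2
      have h2 : a ∉ sphere v r := fun h => hno a h ha
      have h3 : ¬ (a.1 = v.1 - r ∨ a.1 = v.1 + r ∨ a.2 = v.2 - r ∨ a.2 = v.2 + r) :=
        fun h => h2 ⟨h1, h⟩
      have h4 := hab.fst_le
      have h5 := hab.snd_le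
      simp only [mem_ball] at h1 ⊢
      omega
    exact hno u hus key
  · obtain ⟨x, x', h1, h2, h3, _⟩ := h.exists_exit hw hub
    refine ⟨x, ⟨h1.mem_right.2, ?_⟩, h1⟩
    have h4 := h1.mem_right.2
    have h5 := h2.fst_le
    have h6 := h2.snd_le
    simp only [mem_ball] at h3 h4
    omega

/-- Far connection gives a one-arm event. -/
lemma Conn.mem_arm {r : ℕ} (h : Conn ω S v u)
    (hu : (r : ℤ) ≤ |u.1 - v.1| ∨ (r : ℤ) ≤ |u.2 - v.2|) : ω ∈ Arm v r := by
  obtain ⟨x, hx, hc⟩ := h.to_sphere (v := v) (r := r) self_mem_ball (by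
    by_cases h1 : u ∈ ball v r
    · right
      refine ⟨h1, ?_⟩
      simp only [mem_ball] at h1
      rcases hu with h2 | h2 <;> rcases abs_cases (u.1 - v.1) with h3 | h3 <;>
        rcases abs_cases (u.2 - v.2) with h4 | h4 <;> omega
    · exact Or.inl h1)
  exact ⟨x, hx, hc.mono_set Set.inter_subset_right⟩

end Pool.Agent.H89.Perc

end

section

/-!
# Parity arguments in the plane

Edge functions with values in `ZMod 2`. `fsum c F` is the sum around the face `F` (with lower left
corner `F`), `vsum c V` is the sum over the edges at the vertex `V`. On a rectangle, an edge function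
whose face sums vanish is the coboundary of a vertex function (`integRect`); the consequence
`cut_lemma` is the tool behind the duality statements.
-/

namespace Pool.Agent.H89.Perc

/-! ### Chains of paths -/

/-! ### Reflection in the diagonal -/

end Pool.Agent.H89.Perc

end

section

/-!
# Topology, part 1: a left-right path and a bottom-top path of a rectangle meet
-/

namespace Pool.Agent.H89.Perc

end Pool.Agent.H89.Perc

end

section

/-!
# Topology, part 2: the boundary between two complementary connected sets is dual-connected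
-/

namespace Pool.Agent.H89.Perc

end Pool.Agent.H89.Perc

end

end
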