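import Pool.Agent.H94.BG.H31.PT.M02
import Pool.Agent.H94.BG.H31.PT.M03
import Pool.Agent.H94.BG.H31.PT.M05
import Pool.Agent.H94.BG.M01

/-! The parts of this file: H31.PT.M03_5, H31.PT.M03_1, H31.PT.M05_2. -/

section

/-! The parts of this file: H61.NC.Second, H85.Kes.BlockOSSS, H89.Perc.RSWKey, H89.Perc.DualityA, H89.Perc.RSW, H89.Perc.DualityB, H89.Perc.Circuit, H89.Perc.Decay, H59.EX.Defs, H59.EX.Out0, H29.Sep.ExplA, H29.Sep.ExplB, H26.HP.Expl, H59.EX.S0, H59.EX.Corr, H59.EX.Seal. -/

section

/-!
# Second derivative of the probability of a local event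
-/

open MeasureTheory ProbabilityTheory unitInterval

namespace Pool.Agent.H61.NC

open Pool.Agent.H89.Perc

end Pool.Agent.H61.NC

end

section

/-!
# The OSSS inequality for explorations that reveal whole blocks of edges
-/

open MeasureTheory ProbabilityTheory unitInterval

namespace Pool.Agent.H85.Kes

open Pool.Agent.H89.Perc

variable {κ : Type*} [DecidableEq κ]

/-- A block exploration rule: given the set of revealed blocks and the set of open edges in these
blocks it says which block to reveal next (or stops). -/
abbrev BRule (κ : Type*) := Finset κ → Finset Edge → Option κ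

variable (s : Finset Edge) (β : Edge → κ) (R : BRule κ)

/-- The edges of a block. -/
def blk (b : κ) : Finset Edge := s.filter (fun e => β e = b)

variable {s β R}

omit [DecidableEq κ] in
lemma mem_blk [DecidableEq κ] {b : κ} {e : Edge} : e ∈ blk s β b ↔ e ∈ s ∧ β e = b := by
  simp [blk]

/-! ### Version for local events -/

end Pool.Agent.H85.Kes

end

section

/-!
# The Russo-Seymour-Welsh lemma (version of Bollobas and Riordan)
-/

open MeasureTheory ProbabilityTheory unitInterval

namespace Pool.Agent.H89.Perc

/-! ### The exploration from the left side of the square -/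

section good

end good

/-! ### The probability estimate -/

end Pool.Agent.H89.Perc

end

section

/-!
# Topology, part 3: rectangle duality
-/

namespace Pool.Agent.H89.Perc

end Pool.Agent.H89.Perc

end

section

/-!
# Russo-Seymour-Welsh at the self-dual point
-/

open MeasureTheory ProbabilityTheory unitInterval

namespace Pool.Agent.H89.Perc

/-! ### The mirror image of `XEvent` -/

end Pool.Agent.H89.Perc

end

section

/-!
# Topology, part 4: gluing and blocking
-/

namespace Pool.Agent.H89.Perc

variable {ω : Config}

/-- Horizontal segments. -/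
private lemma dualB_seg_x {S : Set Vert} (x y : ℤ) (n : ℕ)
    (h : ∀ z : ℤ, x ≤ z → z ≤ x + n → ((z, y) : Vert) ∈ S) :
    Conn allOpen S (x, y) (x + n, y) := by
  induction n with
  | zero => simpa using Conn.refl (h x le_rfl (by simp))
  | succ n ih =>
    have h1 := ih fun z hz hz' => h z hz (by push_cast; omega)
    refine h1.tail ⟨h1.mem_right, h _ (by push_cast; omega) (by push_cast; omega),
      (x + n, y, false), Or.inl ⟨rfl, ?_⟩, rfl⟩
    simp [tgt, add_assoc]

/-- Vertical segments. -/
private lemma dualB_seg_y {S : Set Vert} (x y : ℤ) (n : ℕ)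
    (h : ∀ z : ℤ, y ≤ z → z ≤ y + n → ((x, z) : Vert) ∈ S) :
    Conn allOpen S (x, y) (x, y + n) := by
  induction n with
  | zero => simpa using Conn.refl (h y le_rfl (by simp))
  | succ n ih =>
    have h1 := ih fun z hz hz' => h z hz (by push_cast; omega)
    refine h1.tail ⟨h1.mem_right, h _ (by push_cast; omega) (by push_cast; omega),
      (x, y + n, true), Or.inl ⟨rfl, ?_⟩, rfl⟩
    simp [tgt, add_assoc]

private lemma dualB_seg_x' {S : Set Vert} (x x' y : ℤ) (hx : x ≤ x')
    (h : ∀ z : ℤ, x ≤ z → z ≤ x' → ((z, y) : Vert) ∈ S) :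
    Conn allOpen S (x, y) (x', y) := by
  obtain ⟨n, hn⟩ := Int.eq_ofNat_of_zero_le (sub_nonneg.2 hx)
  have h1 : x' = x + n := by omega
  subst h1
  exact dualB_seg_x x y n h

private lemma dualB_seg_y' {S : Set Vert} (x y y' : ℤ) (hy : y ≤ y')
    (h : ∀ z : ℤ, y ≤ z → z ≤ y' → ((x, z) : Vert) ∈ S) :
    Conn allOpen S (x, y) (x, y') := by
  obtain ⟨n, hn⟩ := Int.eq_ofNat_of_zero_le (sub_nonneg.2 hy)
  have h1 : y' = y + n := by omega
  subst h1
  exact dualB_seg_y x y n h

/-- Squares are connected. -/
lemma dualB_ball {s : ℕ} {w : Vert} (hw : w ∈ ball 0 s) : Conn allOpen (ball 0 s) 0 w := by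
  obtain ⟨x, y⟩ := w
  simp only [mem_ball, Prod.fst_zero, Prod.snd_zero] at hw
  have h1 : Conn allOpen (ball 0 s) (0, 0) (x, 0) := by
    rcases le_total 0 x with h | h
    · exact dualB_seg_x' _ _ _ h fun z h1 h2 => by
        simp only [mem_ball, Prod.fst_zero, Prod.snd_zero]; omega
    · exact (dualB_seg_x' _ _ _ h fun z h1 h2 => by
        simp only [mem_ball, Prod.fst_zero, Prod.snd_zero]; omega).symm
  have h2 : Conn allOpen (ball 0 s) (x, 0) (x, y) := by
    rcases le_total 0 y with h | h
    · exact dualB_seg_y' _ _ _ h fun z h1 h2 => by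
        simp only [mem_ball, Prod.fst_zero, Prod.snd_zero]; omega
    · exact (dualB_seg_y' _ _ _ h fun z h1 h2 => by
        simp only [mem_ball, Prod.fst_zero, Prod.snd_zero]; omega).symm
  exact h1.trans h2

/-- Boundaries of squares are connected. -/
lemma dualB_sphere {r : ℕ} {w : Vert} (hw : w ∈ sphere 0 r) :
    Conn allOpen (sphere 0 r) (r, r) w := by
  obtain ⟨x, y⟩ := w
  simp only [sphere, mem_ball, Prod.fst_zero, Prod.snd_zero, Set.mem_ofPred_eq] at hw
  have top : ∀ x : ℤ, -r ≤ x → x ≤ r → Conn allOpen (sphere 0 r) (r, r) (x, r) := by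
    intro x h1 h2
    exact (dualB_seg_x' _ _ _ h2 fun z h3 h4 => by
      simp only [sphere, mem_ball, Prod.fst_zero, Prod.snd_zero, Set.mem_ofPred_eq]; omega).symm
  have right : ∀ y : ℤ, -r ≤ y → y ≤ r → Conn allOpen (sphere 0 r) (r, r) (r, y) := by
    intro x h1 h2
    exact (dualB_seg_y' _ _ _ h2 fun z h3 h4 => by
      simp only [sphere, mem_ball, Prod.fst_zero, Prod.snd_zero, Set.mem_ofPred_eq]; omega).symm
  obtain ⟨h1, h2 | h2 | h2 | h2⟩ := hw
  · have h3 : x = -r := by omega
    subst h3
    exact (top (-r) (by omega) (by omega)).trans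
      (dualB_seg_y' _ _ _ (by omega) fun z h3 h4 => by
        simp only [sphere, mem_ball, Prod.fst_zero, Prod.snd_zero, Set.mem_ofPred_eq]; omega).symm
  · have h3 : x = r := by omega
    subst h3
    exact right y (by omega) (by omega)
  · have h3 : y = -r := by omega
    subst h3
    exact (right (-r) (by omega) (by omega)).trans
      (dualB_seg_x' _ _ _ (by omega) fun z h3 h4 => by
        simp only [sphere, mem_ball, Prod.fst_zero, Prod.snd_zero, Set.mem_ofPred_eq]; omega).symm
  · have h3 : y = r := by omega
    subst h3
    exact top x (by omega) (by omega)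

/-- A step out of a set `K` is along a cut edge. -/
lemma dualB_cut {K S : Set Vert} {ω : Config} {u v : Vert} (h : Step ω S u v)
    (hu : u ∉ K) (hv : v ∈ K) :
    ∃ e, Joins e u v ∧ cutConfig K e = false ∧ src e ∈ S ∧ tgt e ∈ S := by
  obtain ⟨h1, h2, e, h3, h4⟩ := h
  refine ⟨e, h3, ?_, ?_⟩
  · rcases h3 with ⟨h5, h6⟩ | ⟨h5, h6⟩
    · subst h5 h6; simp [cutConfig, hu, hv]
    · subst h5 h6; simp [cutConfig, hu, hv]
  · rcases h3 with ⟨h5, h6⟩ | ⟨h5, h6⟩
    · subst h5 h6; exact ⟨h1, h2⟩
    · subst h5 h6; exact ⟨h2, h1⟩

/-- A boundary face next to an edge of the sphere. -/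
lemma dualB_face {r : ℕ} (hr : 1 ≤ r) {e : Edge} (h1 : src e ∈ sphere 0 r)
    (h2 : tgt e ∈ sphere 0 r) :
    ∃ φ : Vert, IsFace φ e ∧ φ ∈ rect (-r) (r - 1) (-r) (r - 1) ∧
      (φ.1 = -r ∨ φ.1 = r - 1 ∨ φ.2 = -r ∨ φ.2 = r - 1) := by
  obtain ⟨x, y, b⟩ := e
  cases b
  · simp only [sphere, mem_ball, Prod.fst_zero, Prod.snd_zero, Set.mem_ofPred_eq, src, tgt,
      Bool.false_eq_true, if_false] at h1 h2
    by_cases h : y = r
    · refine ⟨(x, y - 1), Or.inr (by simp), ?_, ?_⟩
      · simp only [rect, Set.mem_ofPred_eq]; omega
      · right; right; right; show y - 1 = r - 1; omega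
    · refine ⟨(x, y), Or.inl rfl, ?_, ?_⟩
      · simp only [rect, Set.mem_ofPred_eq]; omega
      · simp only; omega
  · simp only [sphere, mem_ball, Prod.fst_zero, Prod.snd_zero, Set.mem_ofPred_eq, src, tgt,
      if_true] at h1 h2
    by_cases h : x = r
    · refine ⟨(x - 1, y), Or.inr (by simp), ?_, ?_⟩
      · simp only [rect, Set.mem_ofPred_eq]; omega
      · right; left; show x - 1 = r - 1; omega
    · refine ⟨(x, y), Or.inl rfl, ?_, ?_⟩
      · simp only [rect, Set.mem_ofPred_eq]; omega
      · simp only; omega

end Pool.Agent.H89.Perc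

end

section

/-!
# Blocking circuits
-/

open MeasureTheory ProbabilityTheory unitInterval

namespace Pool.Agent.H89.Perc

end Pool.Agent.H89.Perc

end

section

/-!
# Decay of the one-arm probability at the self-dual point
-/

open MeasureTheory ProbabilityTheory unitInterval

namespace Pool.Agent.H89.Perc

lemma ann_subset_armBox (s r : ℕ) : Ann s r ⊆ ArmBox 0 (s + 1) r := by
  rintro ω ⟨w, hw, u, hu, hc⟩
  exact ⟨w, hw, u, hu, hc.mono_set Set.sdiff_subset⟩

end Pool.Agent.H89.Perc

end

section

/-!
# Separated four-arm events: definitions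

`Src` is a pair of points near the origin together with a set of closed edges (for instance the two
endpoints of an edge with the edge itself closed).  `Sep s d d' k` is the four-arm event to distance
`32 k` in which the cluster of `x` leaves the ball only through the mouth on side `d`, the cluster
of `y` only through the mouth on side `d'`, even if all edges in the two target rectangles
`T d k`, `T d' k` are opened, and both clusters contain a crossing of their target rectangle.
-/

open MeasureTheory ProbabilityTheory unitInterval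

namespace Pool.Agent.H59.EX

open Pool.Agent.H89.Perc

/-- Four-arm event of a source: both points are joined to the sphere of radius `r` and not to each
other, in `ball 0 r`. -/
def Four (s : Src) (r : ℕ) : Set Config :=
  {ω | (∃ u ∈ sphere 0 r, Conn (s.cut ω) (ball 0 r) s.x u) ∧
    (∃ u ∈ sphere 0 r, Conn (s.cut ω) (ball 0 r) s.y u) ∧
    ¬ Conn (s.cut ω) (ball 0 r) s.x s.y}

end Pool.Agent.H59.EX

end

section

/-!
# Outward separation: definitions for the stage scheme (abstract corridors)

`CorrData w ρ v d Z Nev`: a corridor `Z` starting at the boundary vertex `v` of `ball 0 (8 w)` and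
containing the target rectangle `T d (4 w)`; if the increasing event `Nev` of the edges inside `Z`
happens, every path coming out of `ball v ρ` is joined inside `Z` to a fence of the target.
-/

open MeasureTheory ProbabilityTheory unitInterval

namespace Pool.Agent.H59.EX

open Pool.Agent.H89.Perc

/-- Separation of the corridor `Zx` from the corridor `Zy` which starts at `v'`. -/
structure CorrSep (w ρ' : ℕ) (v' : Vert) (Zx Zy : Set Vert) : Prop where
  far : ∀ a ∈ Zx, ∀ b ∈ Zy, b ∉ ball a (8 * ρ')
  fringe : ∀ z ∈ Zy, ∀ a ∈ sphere 0 (8 * w), z ∈ ball a (4 * ρ') → a ∈ ball v' (7 * ρ')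

/-- Cluster of the second point in `ball 0 (8 w)`. -/
def SY (s : Src) (w : ℕ) (ω : Config) : Set Vert := clus (s.cut ω) (ball 0 (8 * w)) {s.y}

/-- Cluster of the first point in `ball 0 (8 w) ∪ Z`, with `Z` filled. -/
def S1 (s : Src) (w : ℕ) (Z : Set Vert) (ω : Config) : Set Vert :=
  clus (fillV Z (s.cut ω)) (ball 0 (8 * w) ∪ Z) {s.x}

/-- Cluster of the first point in `ball 0 (160 w)`, with `Z` filled. -/
def SH (s : Src) (w : ℕ) (Z : Set Vert) (ω : Config) : Set Vert :=
  clus (fillV Z (s.cut ω)) (ball 0 (160 * w)) {s.x}

/-- The cluster of `x` is confined, contains a fence, and misses `y`. -/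
def Conf (s : Src) (w ρ' : ℕ) (d : Side) (Z : Set Vert) : Set Config :=
  {ω | s.y ∉ SH s w Z ω ∧
    Fence d (4 * w) (s.cut ω) (SH s w Z ω ∩ (ball 0 (8 * w) ∪ Z)) s.x ∧
    ∀ z ∈ SH s w Z ω, z ∈ ball 0 (8 * w) ∨ (∃ a ∈ Z, z ∈ ball a (4 * ρ')) ∨
      ∃ a ∈ SH s w Z ω, a ∈ sphere 0 (8 * w) ∧ z ∈ ball a (4 * ρ')}

end Pool.Agent.H59.EX

end

section

/-!
# Exploration of full clusters and conditional FKG

`cl ω D X` is the open cluster of the vertex set `X` inside the vertex set `D`.  The event
`cl ω D X = S` only depends on the edges touching `S`; all other edges are fresh.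
-/

open MeasureTheory ProbabilityTheory unitInterval

namespace Pool.Agent.H29.Sep

open Pool.Agent.H89.Perc

variable {p : I}

/-- Open cluster of the vertex set `X` inside `D`. -/
def cl (ω : Config) (D X : Set Vert) : Set Vert := {v | ∃ u ∈ X, Conn ω D u v}

/-- The edges of `s` not touching the vertex set `S`. -/
noncomputable def off (s : Finset Edge) (S : Set Vert) : Finset Edge := by
  classical exact s.filter (fun e => src e ∉ S ∧ tgt e ∉ S)

/-- A vertex joined to a vertex of the cluster is in the cluster. -/
theorem cl_conn {ω : Config} {D X : Set Vert} {a b : Vert} (ha : a ∈ cl ω D X)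
    (h : Conn ω D a b) : b ∈ cl ω D X := by
  obtain ⟨u, hu, hua⟩ := ha
  exact ⟨u, hu, hua.trans h⟩

/-- Connections of vertices off the cluster stay off the cluster. -/
theorem conn_off {ω : Config} {D X : Set Vert} {a b : Vert} (ha : a ∉ cl ω D X)
    (h : Conn ω D a b) : Conn ω (D \ cl ω D X) a b := by
  refine h.induction_right (P := fun b => Conn ω (D \ cl ω D X) a b)
    (Conn.refl ⟨h.mem_left, ha⟩) ?_
  intro a' b' h1 h2 h3
  have h4 : a' ∉ cl ω D X := fun h5 => ha (cl_conn h5 h1.symm)
  have h5 : b' ∉ cl ω D X := fun h6 => ha (cl_conn h6 (h1.tail h2).symm)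
  exact h3.tail ⟨⟨h2.1, h4⟩, ⟨h2.2.1, h5⟩, h2.2.2⟩

/-- Closing the edges of a set. -/
noncomputable def shut (T : Finset Edge) (ω : Config) : Config := by
  classical exact fun e => if e ∈ T then false else ω e

theorem shut_mem {T : Finset Edge} {ω : Config} {e : Edge} (h : e ∈ T) :
    shut T ω e = false := by
  unfold shut
  exact if_pos h

theorem shut_not_mem {T : Finset Edge} {ω : Config} {e : Edge} (h : e ∉ T) :
    shut T ω e = ω e := by
  unfold shut
  exact if_neg h

theorem localOn_shut [DecidableEq Edge] {s T : Finset Edge} {A : Set Config} (h : LocalOn s A) :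
    LocalOn (s \ T) {ω | shut T ω ∈ A} := by
  intro ω ω' hω hA
  refine h _ _ (fun e he => ?_) hA
  by_cases hT : e ∈ T
  · rw [shut_mem hT, shut_mem hT]
  · rw [shut_not_mem hT, shut_not_mem hT]
    exact hω e (Finset.mem_sdiff.2 ⟨he, hT⟩)

theorem incr_shut {T : Finset Edge} {A : Set Config} (h : Incr A) : Incr {ω | shut T ω ∈ A} := by
  intro ω ω' hω hA
  refine h _ _ (fun e he => ?_) hA
  by_cases hT : e ∈ T
  · rw [shut_mem hT] at he
    exact absurd he Bool.false_ne_true
  · rw [shut_not_mem hT] at he ⊢
    exact hω e he

end Pool.Agent.H29.Sep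

end

section

/-!
# Conditional FKG and conditional independence after an exploration
-/

open MeasureTheory ProbabilityTheory unitInterval

namespace Pool.Agent.H29.Sep

open Pool.Agent.H89.Perc

variable {p : I}

end Pool.Agent.H29.Sep

end

section

/-!
# Exploration of clusters

`D` is a finite set of vertices, `clus ω D X` the union of the clusters in `D` of the vertices of
`X`.  Given this set, the edges of `D` which do not touch it are fresh.
-/

open MeasureTheory ProbabilityTheory unitInterval

namespace Pool.Agent.H26.HP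

open Pool.Agent.H89.Perc

variable {ω ω' : Config} {D X S : Set Vert} {R : ℕ} {q : I}

lemma exists_finset (hS : S ⊆ ball 0 R) : ∃ T ∈ (bF R).powerset, (↑T : Set Vert) = S := by
  classical
  refine ⟨(bF R).filter (fun v => v ∈ S), Finset.mem_powerset.2 (Finset.filter_subset _ _), ?_⟩
  ext v
  simp only [Finset.coe_filter, mem_bF, Set.mem_ofPred_eq]
  exact ⟨fun h => h.2, fun h => ⟨hS h, h⟩⟩

end Pool.Agent.H26.HP

end

section

/-!
# Probabilistic tools

Conditioning on the edges of a (possibly infinite) set `t`, and on the value of a random set.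
-/

open MeasureTheory ProbabilityTheory unitInterval

namespace Pool.Agent.H59.EX

open Pool.Agent.H89.Perc

end Pool.Agent.H59.EX

end

section

/-!
# The corridor lemma

`pb π ω` is the configuration `e ↦ ω (π e)`; `π = id` for the plane, the reduction modulo the
periods (and a translation) for the torus and for the cylinder.  Given a separated four-arm event,
increasing events inside the corridor `C` and arbitrary events `H` of the edges which are neither
inside `C` nor touch the two clusters (in the configuration with filled targets) can be added at the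
cost of constant factors.
-/

open MeasureTheory ProbabilityTheory unitInterval

namespace Pool.Agent.H59.EX

open Pool.Agent.H89.Perc

end Pool.Agent.H59.EX

end

section

/-!
# Seals: confinement of clusters by closed annuli (purely graph-theoretic)
-/

open MeasureTheory ProbabilityTheory unitInterval

namespace Pool.Agent.H59.EX

open Pool.Agent.H89.Perc

end Pool.Agent.H59.EX

end

end

section

/-! The parts of this file: H61.NC.Second, H85.Kes.BlockOSSS, H89.Perc.RSWKey, H89.Perc.DualityA, H89.Perc.RSW, H89.Perc.DualityB, H89.Perc.Circuit, H89.Perc.Decay, H59.EX.Defs, H59.EX.Out0, H29.Sep.ExplA, H29.Sep.ExplB, H26.HP.Expl, H59.EX.S0, H59.EX.Corr, H59.EX.Seal. -/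

section

/-!
# Second derivative of the probability of a local event
-/

open MeasureTheory ProbabilityTheory unitInterval

namespace Pool.Agent.H61.NC

open Pool.Agent.H89.Perc

variable {s : Finset Edge} {A : Set Config}

/-- The event `A` after giving the value `b` to the edge `e`. -/
def upd (A : Set Config) (e : Edge) (b : Bool) : Set Config := {ω | Function.update ω e b ∈ A}

/-- The second discrete derivative of the indicator of the increasing event `A` in the directions
`e` and `f` does not vanish. -/
def Joint (A : Set Config) (e f : Edge) : Set Config :=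
  (upd (upd A e true) f true \ (upd (upd A e true) f false ∪ upd (upd A e false) f true)) ∪
  ((upd (upd A e true) f false ∩ upd (upd A e false) f true) \ upd (upd A e false) f false)

/-- On `Joint A e f`, for some value of `f` the edge `e` is pivotal, and conversely. -/
theorem Joint_piv {A : Set Config} (iA : Incr A) {e f : Edge} (hef : e ≠ f) {ω : Config}
    (h : ω ∈ Joint A e f) :
    (∃ b, Function.update (Function.update ω f b) e true ∈ A ∧
      Function.update (Function.update ω f b) e false ∉ A) ∧
    (∃ b, Function.update (Function.update ω e b) f true ∈ A ∧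
      Function.update (Function.update ω e b) f false ∉ A) := by
  rcases h with ⟨h1, h2⟩ | ⟨⟨h1, h2⟩, h3⟩
  · rw [Set.mem_union, not_or] at h2
    obtain ⟨h2, h3⟩ := h2
    refine ⟨⟨true, h1, h3⟩, ⟨true, ?_, ?_⟩⟩
    · rw [Function.update_comm hef]; exact h1
    · rw [Function.update_comm hef]; exact h2
  · refine ⟨⟨false, h1, h3⟩, ⟨false, ?_, ?_⟩⟩
    · rw [Function.update_comm hef]; exact h2
    · rw [Function.update_comm hef]; exact h3

end Pool.Agent.H61.NC

end

section

/-!
# The OSSS inequality for explorations that reveal whole blocks of edges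
-/

open MeasureTheory ProbabilityTheory unitInterval

namespace Pool.Agent.H85.Kes

open Pool.Agent.H89.Perc
open Pool.Agent.Perc (Ex ind ind_of ind_of_not MonoOnF)

variable {κ : Type*} [DecidableEq κ]

variable (s : Finset Edge) (β : Edge → κ) (R : BRule κ)

/-- One step of the block exploration of `ω`. -/
def bStep (ω : Config) (x : Finset κ × Finset Edge) : Finset κ × Finset Edge :=
  match R x.1 x.2 with
  | none => x
  | some b => (insert b x.1, x.2 ∪ (blk s β b).filter (fun e => ω e = true))

/-- The revealed blocks when the exploration starts from a given state. -/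
def bFrom (ω : Config) (n : ℕ) (x : Finset κ × Finset Edge) : Finset κ :=
  ((bStep s β R ω)^[n] x).1

/-- The blocks revealed during the first `n` steps. -/
def revealed (ω : Config) (n : ℕ) : Finset κ := bFrom s β R ω n (∅, ∅)

variable {s β R}

lemma bStep_none {ω : Config} {x : Finset κ × Finset Edge} (h : R x.1 x.2 = none) :
    bStep s β R ω x = x := by
  unfold bStep; rw [h]

lemma bStep_some {ω : Config} {x : Finset κ × Finset Edge} {b : κ} (h : R x.1 x.2 = some b) :
    bStep s β R ω x = (insert b x.1, x.2 ∪ (blk s β b).filter (fun e => ω e = true)) := by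
  unfold bStep; rw [h]

lemma bFrom_succ (ω : Config) (n : ℕ) (x : Finset κ × Finset Edge) :
    bFrom s β R ω (n + 1) x = bFrom s β R ω n (bStep s β R ω x) := by
  unfold bFrom
  rw [Function.iterate_succ_apply]

lemma bStep_subset (ω : Config) (x : Finset κ × Finset Edge) : x.1 ⊆ (bStep s β R ω x).1 := by
  rcases h : R x.1 x.2 with _ | b
  · rw [bStep_none h]
  · rw [bStep_some h]
    exact Finset.subset_insert _ _

lemma subset_bFrom (ω : Config) (n : ℕ) (x : Finset κ × Finset Edge) :
    x.1 ⊆ bFrom s β R ω n x := by
  induction n generalizing x with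
  | zero => exact le_rfl
  | succ n ih =>
    rw [bFrom_succ]
    exact (bStep_subset ω x).trans (ih _)

lemma bFrom_none {ω : Config} {x : Finset κ × Finset Edge} (h : R x.1 x.2 = none) (n : ℕ) :
    bFrom s β R ω n x = x.1 := by
  induction n with
  | zero => rfl
  | succ n ih => rw [bFrom_succ, bStep_none h, ih]

/-- Influence of the block `b` on a function of the subsets of `F`. -/
noncomputable def bInf (p : ℝ) (F : Finset Edge) (B : Finset Edge) (g : Finset Edge → ℝ) : ℝ :=
  Ex p F (fun S => g (S ∪ B) - g (S \ B))

lemma bInf_nonneg {p : ℝ} (h0 : 0 ≤ p) (h1 : p ≤ 1) {F B : Finset Edge} (hB : B ⊆ F)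
    {g : Finset Edge → ℝ} (hg : MonoOnF F g) : 0 ≤ bInf p F B g := by
  refine Pool.Agent.Perc.Ex_nonneg h0 h1 fun S hS => sub_nonneg.2 ?_
  exact hg _ _ (Finset.sdiff_subset.trans Finset.subset_union_left)
    (Finset.union_subset hS hB)

/-- The covariance inequality for block explorations, by induction on the number of steps. -/
theorem block_cov {p : ℝ} (hp0 : 0 ≤ p) (hp1 : p ≤ 1) {K : Finset κ} (hK : ∀ e ∈ s, β e ∈ K)
    (hR : ∀ D O b, R D O = some b → b ∈ K ∧ b ∉ D) (n : ℕ) :
    ∀ (D : Finset κ) (O : Finset Edge), (K \ D).card ≤ n → (∀ e ∈ O, β e ∈ D) →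
    ∀ f g : Finset Edge → ℝ, (∀ S, S ⊆ s.filter (fun e => β e ∉ D) → 0 ≤ f S ∧ f S ≤ 1) →
    MonoOnF (s.filter (fun e => β e ∉ D)) g →
    (∀ S S', S ⊆ s.filter (fun e => β e ∉ D) → S' ⊆ s.filter (fun e => β e ∉ D) →
      (∀ e ∈ s.filter (fun e => β e ∉ D), β e ∈ bFrom s β R (ofS (O ∪ S)) n (D, O) →
        (e ∈ S ↔ e ∈ S')) → f S = f S') →
    |Ex p (s.filter (fun e => β e ∉ D)) (fun S => f S * g S) -
        Ex p (s.filter (fun e => β e ∉ D)) f * Ex p (s.filter (fun e => β e ∉ D)) g| ≤
      ∑ b ∈ K \ D, Ex p (s.filter (fun e => β e ∉ D))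
          (ind fun S => b ∈ bFrom s β R (ofS (O ∪ S)) n (D, O)) *
        bInf p (s.filter (fun e => β e ∉ D)) (blk s β b) g := by
  have hRHS : ∀ (D : Finset κ) (A : κ → Finset Edge → Prop) (g : Finset Edge → ℝ),
      MonoOnF (s.filter (fun e => β e ∉ D)) g →
      0 ≤ ∑ b ∈ K \ D, Ex p (s.filter (fun e => β e ∉ D)) (ind (A b)) *
        bInf p (s.filter (fun e => β e ∉ D)) (blk s β b) g := by
    intro D A g hg
    refine Finset.sum_nonneg fun b hb => mul_nonneg ?_ ?_
    · exact Pool.Agent.Perc.Ex_nonneg hp0 hp1 fun S _ => Pool.Agent.Perc.ind_nonneg _ _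
    · refine bInf_nonneg hp0 hp1 ?_ hg
      intro e he
      rw [mem_blk] at he
      rw [Finset.mem_filter]
      exact ⟨he.1, by rw [he.2]; exact (Finset.mem_sdiff.1 hb).2⟩
  induction n with
  | zero =>
    intro D O hD _ f g _ _ _
    have hKD : K \ D = ∅ := Finset.card_eq_zero.1 (Nat.le_zero.1 hD)
    have hF : s.filter (fun e => β e ∉ D) = ∅ := by
      rw [Finset.filter_eq_empty_iff]
      intro e he h
      have : β e ∈ K \ D := Finset.mem_sdiff.2 ⟨hK e he, h⟩
      rw [hKD] at this
      exact absurd this (Finset.notMem_empty _)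
    rw [hF, hKD]
    simp
  | succ n ih =>
    intro D O hD hO f g hf hg hdet
    rcases hNe : R D O with _ | b
    · -- the exploration has stopped: `f` is constant
      set F := s.filter (fun e => β e ∉ D) with hF
      have hconst : ∀ S, S ⊆ F → f S = f ∅ := by
        intro S hS
        refine hdet S ∅ hS (Finset.empty_subset _) fun e heF he => ?_
        rw [bFrom_none (x := (D, O)) hNe] at he
        exact absurd he (Finset.mem_filter.1 heF).2
      have h1 : Ex p F (fun S => f S * g S) = f ∅ * Ex p F g := by
        rw [← Pool.Agent.Perc.Ex_const_mul]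
        exact Pool.Agent.Perc.Ex_congr fun S hS => by rw [hconst S hS]
      have h2 : Ex p F f = f ∅ := by
        rw [Pool.Agent.Perc.Ex_congr hconst, Pool.Agent.Perc.Ex_const]
      rw [h1, h2, sub_self, abs_zero]
      exact hRHS D _ g hg
    · obtain ⟨hbK, hbD⟩ := hR D O b hNe
      set F := s.filter (fun e => β e ∉ D) with hF
      set B := blk s β b with hB
      set F' := s.filter (fun e => β e ∉ insert b D) with hF'
      have hBF : B ⊆ F := by
        intro e he
        rw [hB, mem_blk] at he
        rw [hF, Finset.mem_filter]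
        exact ⟨he.1, by rw [he.2]; exact hbD⟩
      have hF'F : F' ⊆ F := by
        intro e he
        rw [hF', Finset.mem_filter, Finset.mem_insert, not_or] at he
        rw [hF, Finset.mem_filter]
        exact ⟨he.1, he.2.2⟩
      have hBF' : Disjoint B F' := by
        rw [Finset.disjoint_left]
        intro e he he'
        rw [hB, mem_blk] at he
        rw [hF', Finset.mem_filter, Finset.mem_insert, not_or] at he'
        exact he'.2.1 he.2
      have hU : B ∪ F' = F := by
        ext e
        rw [Finset.mem_union, hB, mem_blk, hF', Finset.mem_filter, hF, Finset.mem_filter,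
          Finset.mem_insert]
        constructor
        · rintro (h | h)
          · exact ⟨h.1, by rw [h.2]; exact hbD⟩
          · exact ⟨h.1, fun h' => h.2 (Or.inr h')⟩
        · rintro ⟨h1, h2⟩
          by_cases h : β e = b
          · exact Or.inl ⟨h1, h⟩
          · exact Or.inr ⟨h1, fun h' => h'.elim h h2⟩
      have hcard : (K \ insert b D).card ≤ n := by
        have h1 : K \ insert b D = (K \ D).erase b := by
          ext x
          simp only [Finset.mem_sdiff, Finset.mem_insert, Finset.mem_erase, not_or]
          tauto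
        rw [h1, Finset.card_erase_of_mem (Finset.mem_sdiff.2 ⟨hbK, hbD⟩)]
        omega
      -- expectations over `F`
      have hE : ∀ h : Finset Edge → ℝ, Ex p F h =
          Ex p B (fun T => Ex p F' (fun S => h (T ∪ S))) := by
        intro h
        rw [← Pool.Agent.Perc.Ex_union hBF', hU]
      have hsub : ∀ T S, T ⊆ B → S ⊆ F' → T ∪ S ⊆ F := fun T S hT hS =>
        Finset.union_subset (hT.trans hBF) (hS.trans hF'F)
      -- the next state
      have hst : ∀ T S, T ⊆ B → S ⊆ F' → bFrom s β R (ofS (O ∪ (T ∪ S))) (n + 1) (D, O) =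
          bFrom s β R (ofS ((O ∪ T) ∪ S)) n (insert b D, O ∪ T) := by
        intro T S hT hS
        rw [bFrom_succ, bStep_some (x := (D, O)) hNe, ← Finset.union_assoc]
        congr 2
        congr 1
        ext e
        rw [Finset.mem_filter, ofS_eq_true, Finset.mem_union, Finset.mem_union]
        constructor
        · rintro ⟨h1, (h2 | h2) | h2⟩
          · exfalso
            have h3 := hO e h2
            rw [mem_blk] at h1
            rw [h1.2] at h3
            exact hbD h3
          · exact h2
          · exact absurd (hS h2) (Finset.disjoint_left.1 hBF' h1)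
        · intro h
          exact ⟨hT h, Or.inl (Or.inr h)⟩
      set gb : Finset Edge → ℝ := fun S => Ex p B (fun T => g (T ∪ S)) with hgb
      have hgbm : MonoOnF F' gb := by
        intro S S' h1 h2
        refine Pool.Agent.Perc.Ex_mono hp0 hp1 fun T hT => ?_
        exact hg _ _ (Finset.union_subset_union_right h1) (hsub T S' hT h2)
      -- induction hypothesis for every configuration `T` of the block
      have IH : ∀ T, T ⊆ B → |Ex p F' (fun S => f (T ∪ S) * gb S) -
          Ex p F' (fun S => f (T ∪ S)) * Ex p F' gb| ≤
          ∑ x ∈ K \ insert b D, Ex p F'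
            (ind fun S => x ∈ bFrom s β R (ofS ((O ∪ T) ∪ S)) n (insert b D, O ∪ T)) *
          bInf p F' (blk s β x) gb := by
        intro T hT
        refine ih (insert b D) (O ∪ T) hcard ?_ (fun S => f (T ∪ S)) gb ?_ hgbm ?_
        · intro e he
          rcases Finset.mem_union.1 he with h | h
          · exact Finset.mem_insert_of_mem (hO e h)
          · have := hT h
            rw [hB, mem_blk] at this
            rw [this.2]
            exact Finset.mem_insert_self _ _
        · intro S hS
          exact hf _ (hsub T S hT hS)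
        · intro S S' hS hS' h
          refine hdet _ _ (hsub T S hT hS) (hsub T S' hT hS') fun e heF he => ?_
          rw [hst T S hT hS] at he
          rw [Finset.mem_union, Finset.mem_union]
          by_cases heB : e ∈ B
          · have h1 : e ∉ S := fun h' => Finset.disjoint_left.1 hBF' heB (hS h')
            have h2 : e ∉ S' := fun h' => Finset.disjoint_left.1 hBF' heB (hS' h')
            tauto
          · have heF' : e ∈ F' := by
              rw [← hU, Finset.mem_union] at heF
              exact heF.resolve_left heB
            have := h e heF' he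
            tauto
      -- decomposition of the covariance
      have hEg : Ex p F g = Ex p F' gb := by
        rw [hE g, Pool.Agent.Perc.Ex_comm]
      set Rm : ℝ := Ex p B (fun T => Ex p F' (fun S => f (T ∪ S) * (g (T ∪ S) - gb S))) with hRm
      have hdec : Ex p F (fun S => f S * g S) - Ex p F f * Ex p F g =
          Ex p B (fun T => Ex p F' (fun S => f (T ∪ S) * gb S) -
            Ex p F' (fun S => f (T ∪ S)) * Ex p F' gb) + Rm := by
        rw [hE (fun S => f S * g S), hE f, hEg, hRm, Pool.Agent.Perc.Ex_sub,
          Pool.Agent.Perc.Ex_mul_const]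
        have : ∀ T, T ⊆ B → Ex p F' (fun S => f (T ∪ S) * g (T ∪ S)) =
            Ex p F' (fun S => f (T ∪ S) * gb S) +
              Ex p F' (fun S => f (T ∪ S) * (g (T ∪ S) - gb S)) := by
          intro T _
          rw [← Pool.Agent.Perc.Ex_add]
          exact Pool.Agent.Perc.Ex_congr fun S _ => by ring
        rw [Pool.Agent.Perc.Ex_congr this, Pool.Agent.Perc.Ex_add]
        ring
      -- the influence of the block `b`
      have hinfb : bInf p F B g = Ex p F' (fun S => g (B ∪ S) - g S) := by
        unfold bInf
        rw [hE]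
        have : ∀ T, T ⊆ B → Ex p F' (fun S => g (T ∪ S ∪ B) - g ((T ∪ S) \ B)) =
            Ex p F' (fun S => g (B ∪ S) - g S) := by
          intro T hT
          refine Pool.Agent.Perc.Ex_congr fun S hS => ?_
          have h1 : T ∪ S ∪ B = B ∪ S := by
            ext x
            have := @hT x
            simp only [Finset.mem_union]
            tauto
          have h2 : (T ∪ S) \ B = S := by
            ext x
            have h3 := @hT x
            have h4 : x ∈ S → x ∉ B := fun h h' => Finset.disjoint_left.1 hBF' h' (hS h)
            simp only [Finset.mem_union, Finset.mem_sdiff]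
            tauto
          rw [h1, h2]
        rw [Pool.Agent.Perc.Ex_congr this, Pool.Agent.Perc.Ex_const]
      have hRle : |Rm| ≤ bInf p F B g := by
        rw [hinfb, hRm]
        have h1 : |Ex p B (fun T => Ex p F' (fun S => f (T ∪ S) * (g (T ∪ S) - gb S)))| ≤
            Ex p B (fun _ => Ex p F' (fun S => g (B ∪ S) - g S)) := by
          refine (Pool.Agent.Perc.abs_Ex_le hp0 hp1 _).trans ?_
          refine Pool.Agent.Perc.Ex_mono hp0 hp1 fun T hT => ?_
          refine (Pool.Agent.Perc.abs_Ex_le hp0 hp1 _).trans ?_
          refine Pool.Agent.Perc.Ex_mono hp0 hp1 fun S hS => ?_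
          have hSF : B ∪ S ⊆ F := hsub B S le_rfl hS
          have b1 : g S ≤ g (T ∪ S) := hg _ _ Finset.subset_union_right (hsub T S hT hS)
          have b2 : g (T ∪ S) ≤ g (B ∪ S) := hg _ _ (Finset.union_subset_union_left hT) hSF
          have b3 : g S ≤ gb S := by
            have : Ex p B (fun _ => g S) ≤ gb S := Pool.Agent.Perc.Ex_mono hp0 hp1 fun T' hT' =>
              hg _ _ Finset.subset_union_right (hsub T' S hT' hS)
            rwa [Pool.Agent.Perc.Ex_const] at this
          have b4 : gb S ≤ g (B ∪ S) := by
            have : gb S ≤ Ex p B (fun _ => g (B ∪ S)) :=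
              Pool.Agent.Perc.Ex_mono hp0 hp1 fun T' hT' =>
                hg _ _ (Finset.union_subset_union_left hT') hSF
            rwa [Pool.Agent.Perc.Ex_const] at this
          have b5 := hf _ (hsub T S hT hS)
          rw [abs_mul, abs_of_nonneg b5.1]
          have b6 : |g (T ∪ S) - gb S| ≤ g (B ∪ S) - g S := by
            rw [abs_le]; constructor <;> linarith
          calc f (T ∪ S) * |g (T ∪ S) - gb S| ≤ 1 * |g (T ∪ S) - gb S| :=
                mul_le_mul_of_nonneg_right b5.2 (abs_nonneg _)
            _ ≤ _ := by rw [one_mul]; exact b6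
        rwa [Pool.Agent.Perc.Ex_const] at h1
      -- influences of the averaged function
      have hinf : ∀ x ∈ K \ insert b D, bInf p F' (blk s β x) gb = bInf p F (blk s β x) g := by
        intro x hx
        rw [Finset.mem_sdiff, Finset.mem_insert, not_or] at hx
        unfold bInf
        rw [hE, Pool.Agent.Perc.Ex_comm]
        refine Pool.Agent.Perc.Ex_congr fun S hS => ?_
        rw [hgb, ← Pool.Agent.Perc.Ex_sub]
        refine Pool.Agent.Perc.Ex_congr fun T hT => ?_
        have hTx : Disjoint T (blk s β x) := by
          rw [Finset.disjoint_left]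
          intro e he he'
          have h1 := hT he
          rw [hB, mem_blk] at h1
          rw [mem_blk] at he'
          exact hx.2.1 (he'.2.symm.trans h1.2)
        have h1 : T ∪ (S ∪ blk s β x) = T ∪ S ∪ blk s β x := by rw [Finset.union_assoc]
        have h2 : T ∪ (S \ blk s β x) = (T ∪ S) \ blk s β x := by
          rw [Finset.union_sdiff_distrib, Finset.sdiff_eq_self_of_disjoint hTx]
        simp only [h1, h2]
      -- probabilities of being revealed
      have hQ : ∀ x, Ex p F (ind fun S => x ∈ bFrom s β R (ofS (O ∪ S)) (n + 1) (D, O)) =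
          Ex p B (fun T => Ex p F' (ind fun S => x ∈ bFrom s β R (ofS ((O ∪ T) ∪ S)) n
            (insert b D, O ∪ T))) := by
        intro x
        rw [hE]
        refine Pool.Agent.Perc.Ex_congr fun T hT => Pool.Agent.Perc.Ex_congr fun S hS => ?_
        refine Pool.Agent.Perc.ind_congr ?_
        rw [hst T S hT hS]
      have hQb : Ex p F (ind fun S => b ∈ bFrom s β R (ofS (O ∪ S)) (n + 1) (D, O)) = 1 := by
        have : ∀ S, S ⊆ F → ind (fun S => b ∈ bFrom s β R (ofS (O ∪ S)) (n + 1) (D, O)) S = 1 := by
          intro S _
          refine Pool.Agent.Perc.ind_of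
            (A := fun S => b ∈ bFrom s β R (ofS (O ∪ S)) (n + 1) (D, O)) ?_
          rw [bFrom_succ, bStep_some (x := (D, O)) hNe]
          exact subset_bFrom _ _ _ (Finset.mem_insert_self _ _)
        rw [Pool.Agent.Perc.Ex_congr this, Pool.Agent.Perc.Ex_const]
      have hsplit : ∑ x ∈ K \ D, Ex p F (ind fun S => x ∈ bFrom s β R (ofS (O ∪ S)) (n + 1) (D, O)) *
            bInf p F (blk s β x) g =
          bInf p F B g + ∑ x ∈ K \ insert b D,
            Ex p F (ind fun S => x ∈ bFrom s β R (ofS (O ∪ S)) (n + 1) (D, O)) *
            bInf p F (blk s β x) g := by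
        have h1 : K \ D = insert b (K \ insert b D) := by
          ext x
          simp only [Finset.mem_sdiff, Finset.mem_insert, not_or]
          by_cases hx : x = b
          · subst hx; simp [hbK, hbD]
          · simp [hx]
        rw [h1, Finset.sum_insert (by simp), hQb, one_mul]
      rw [hsplit, hdec]
      refine (abs_add_le _ _).trans ?_
      rw [add_comm]
      refine add_le_add hRle ?_
      refine (Pool.Agent.Perc.abs_Ex_le hp0 hp1 _).trans ?_
      refine (Pool.Agent.Perc.Ex_mono hp0 hp1 IH).trans ?_
      rw [Pool.Agent.Perc.Ex_sum]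
      refine Finset.sum_le_sum fun x hx => ?_
      rw [Pool.Agent.Perc.Ex_mul_const, hinf x hx, hQ x]

/-! ### Version for local events -/

/-- The configuration with all edges of the finite set `B` set to `b`. -/
def setB (B : Finset Edge) (b : Bool) (ω : Config) : Config := fun e => if e ∈ B then b else ω e

/-- The set of edges `B` is pivotal for `A`. -/
def BPiv (B : Finset Edge) (A : Set Config) : Set Config :=
  {ω | setB B true ω ∈ A ∧ setB B false ω ∉ A}

lemma setB_ofS_true (B S : Finset Edge) : setB B true (ofS S) = ofS (S ∪ B) := by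
  funext e
  by_cases h : e ∈ B <;> simp [setB, ofS, h]

lemma setB_ofS_false (B S : Finset Edge) : setB B false (ofS S) = ofS (S \ B) := by
  funext e
  by_cases h : e ∈ B <;> simp [setB, ofS, h]

lemma localOn_BPiv {A : Set Config} (hA : LocalOn s A) (B : Finset Edge) :
    LocalOn s (BPiv B A) := by
  rintro ω ω' h ⟨h1, h2⟩
  have key : ∀ b : Bool, ∀ e ∈ s, setB B b ω e = setB B b ω' e := by
    intro b e he
    unfold setB
    split_ifs
    · rfl
    · exact h e he
  exact ⟨hA _ _ (key true) h1, fun h3 => h2 (hA _ _ (fun e he => (key false e he).symm) h3)⟩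

lemma Pr_BPiv {A : Set Config} (hA : LocalOn s A) (iA : Incr A) (p : I) (B : Finset Edge) :
    Pr p (BPiv B A) = bInf (p : ℝ) s B (ind fun S => ofS S ∈ A) := by
  rw [Pr_eq_Ex (localOn_BPiv hA B)]
  unfold bInf
  refine Pool.Agent.Perc.Ex_congr fun S _ => ?_
  by_cases h1 : ofS (S ∪ B) ∈ A
  · by_cases h2 : ofS (S \ B) ∈ A
    · rw [ind_of (A := fun S => ofS S ∈ A) h1, ind_of (A := fun S => ofS S ∈ A) h2, sub_self,
        ind_of_not]
      rintro ⟨_, h4⟩
      rw [setB_ofS_false] at h4
      exact h4 h2
    · rw [ind_of (A := fun S => ofS S ∈ A) h1, ind_of_not (A := fun S => ofS S ∈ A) h2, sub_zero,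
        ind_of]
      refine ⟨?_, ?_⟩
      · rw [setB_ofS_true]; exact h1
      · rw [setB_ofS_false]; exact h2
  · have h2 : ¬ ofS (S \ B) ∈ A := fun h => h1 (iA _ _ (ofS_mono
      (Finset.sdiff_subset.trans Finset.subset_union_left)) h)
    rw [ind_of_not (A := fun S => ofS S ∈ A) h1, ind_of_not (A := fun S => ofS S ∈ A) h2, sub_self,
      ind_of_not]
    rintro ⟨h3, _⟩
    rw [setB_ofS_true] at h3
    exact h1 h3

lemma bStep_congr {ω ω' : Config} {x : Finset κ × Finset Edge}
    (h : ∀ b, R x.1 x.2 = some b → ∀ e ∈ blk s β b, ω e = ω' e) :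
    bStep s β R ω x = bStep s β R ω' x := by
  rcases hN : R x.1 x.2 with _ | b
  · rw [bStep_none hN, bStep_none hN]
  · rw [bStep_some hN, bStep_some hN]
    congr 2
    refine Finset.filter_congr fun e he => ?_
    rw [h b hN e he]

lemma localOn_revealed (n : ℕ) (b : κ) : LocalOn s {ω | b ∈ revealed s β R ω n} := by
  intro ω ω' h hω
  have : bStep s β R ω = bStep s β R ω' := funext fun x =>
    bStep_congr fun b _ e he => h e (mem_blk.1 he).1
  simp only [Set.mem_ofPred_eq, revealed, bFrom] at hω ⊢
  rwa [← this]

/-- If two configurations agree on the blocks revealed by the first one, then they have the same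
exploration. -/
lemma bFrom_congr {ω ω' : Config} (n : ℕ) (x : Finset κ × Finset Edge)
    (h : ∀ e ∈ s, β e ∈ bFrom s β R ω n x → ω e = ω' e) :
    bFrom s β R ω' n x = bFrom s β R ω n x := by
  induction n generalizing x with
  | zero => rfl
  | succ n ih =>
    have hstep : bStep s β R ω x = bStep s β R ω' x := by
      refine bStep_congr fun b hb e he => ?_
      rw [mem_blk] at he
      refine h e he.1 ?_
      rw [bFrom_succ, he.2]
      refine subset_bFrom _ _ _ ?_
      rw [bStep_some hb]
      exact Finset.mem_insert_self _ _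
    rw [bFrom_succ, bFrom_succ, ← hstep]
    refine ih _ fun e he h' => h e he ?_
    rw [bFrom_succ]
    exact h'

/-- **Block OSSS inequality** for an increasing local event determined by a block exploration. -/
theorem block_osss {A : Set Config} (hA : LocalOn s A) (iA : Incr A) {K : Finset κ}
    (hK : ∀ e ∈ s, β e ∈ K) (hR : ∀ D O b, R D O = some b → b ∈ K ∧ b ∉ D)
    (hdet : ∀ ω ω' : Config, (∀ e ∈ s, β e ∈ revealed s β R ω K.card → ω e = ω' e) →
      ω ∈ A → ω' ∈ A) (p : I) :
    Pr p A * (1 - Pr p A) ≤
      ∑ b ∈ K, Pr p {ω | b ∈ revealed s β R ω K.card} * Pr p (BPiv (blk s β b) A) := by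
  have hp0 : 0 ≤ (p : ℝ) := p.2.1
  have hp1 : (p : ℝ) ≤ 1 := p.2.2
  have hs : s.filter (fun e => β e ∉ (∅ : Finset κ)) = s := by simp
  have hK' : K \ (∅ : Finset κ) = K := Finset.sdiff_empty
  have key := block_cov (s := s) (β := β) (R := R) hp0 hp1 hK hR K.card ∅ ∅ (by rw [hK'])
    (by simp) (ind fun S => ofS S ∈ A) (ind fun S => ofS S ∈ A)
    (fun S _ => ⟨Pool.Agent.Perc.ind_nonneg _ _, Pool.Agent.Perc.ind_le_one _ _⟩)
    (iA.monoOnF _)
    (by
      intro S S' hS hS' h
      rw [hs] at hS hS' h
      rw [Finset.empty_union] at h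
      have h1 : ∀ e ∈ s, β e ∈ revealed s β R (ofS S) K.card → ofS S e = ofS S' e := by
        intro e he hr
        rw [ofS_apply, ofS_apply, decide_eq_decide]
        exact h e he hr
      refine Pool.Agent.Perc.ind_congr ⟨hdet _ _ h1, fun h2 => ?_⟩
      refine hdet _ _ (fun e he hr => (h1 e he ?_).symm) h2
      unfold revealed at hr h1 ⊢
      rwa [bFrom_congr K.card (∅, ∅) h1] at hr)
  rw [hs, hK'] at key
  have hcov : Ex (p : ℝ) s (fun S => ind (fun S => ofS S ∈ A) S * ind (fun S => ofS S ∈ A) S) -
      Ex (p : ℝ) s (ind fun S => ofS S ∈ A) * Ex (p : ℝ) s (ind fun S => ofS S ∈ A) =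
      Pr p A * (1 - Pr p A) := by
    rw [Pr_eq_Ex hA p]
    have : Ex (p : ℝ) s (fun S => ind (fun S => ofS S ∈ A) S * ind (fun S => ofS S ∈ A) S) =
        Ex (p : ℝ) s (ind fun S => ofS S ∈ A) := by
      refine Pool.Agent.Perc.Ex_congr fun S _ => ?_
      rw [← pow_two, Pool.Agent.Perc.ind_sq]
    rw [this]
    ring
  rw [hcov] at key
  refine (le_abs_self _).trans (key.trans (le_of_eq ?_))
  refine Finset.sum_congr rfl fun b _ => ?_
  rw [Pr_BPiv hA iA, Pr_eq_Ex (localOn_revealed K.card b)]
  congr 1
  refine Pool.Agent.Perc.Ex_congr fun S _ => Pool.Agent.Perc.ind_congr ?_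
  rw [Finset.empty_union]
  rfl

end Pool.Agent.H85.Kes

end

section

/-!
# The Russo-Seymour-Welsh lemma (version of Bollobas and Riordan)
-/

open MeasureTheory ProbabilityTheory unitInterval

namespace Pool.Agent.H89.Perc

/-! ### The exploration from the left side of the square -/

section good

end good

/-! ### The probability estimate -/

end Pool.Agent.H89.Perc

end

section

/-!
# Topology, part 3: rectangle duality
-/

namespace Pool.Agent.H89.Perc

end Pool.Agent.H89.Perc

end

section

/-!
# Russo-Seymour-Welsh at the self-dual point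
-/

open MeasureTheory ProbabilityTheory unitInterval

namespace Pool.Agent.H89.Perc

/-! ### The mirror image of `XEvent` -/

end Pool.Agent.H89.Perc

end

section

/-!
# Topology, part 4: gluing and blocking
-/

namespace Pool.Agent.H89.Perc

end Pool.Agent.H89.Perc

end

section

/-!
# Blocking circuits
-/

open MeasureTheory ProbabilityTheory unitInterval

namespace Pool.Agent.H89.Perc

end Pool.Agent.H89.Perc

end

section

/-!
# Decay of the one-arm probability at the self-dual point
-/

open MeasureTheory ProbabilityTheory unitInterval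

namespace Pool.Agent.H89.Perc

end Pool.Agent.H89.Perc

end

section

/-!
# Separated four-arm events: definitions

`Src` is a pair of points near the origin together with a set of closed edges (for instance the two
endpoints of an edge with the edge itself closed).  `Sep s d d' k` is the four-arm event to distance
`32 k` in which the cluster of `x` leaves the ball only through the mouth on side `d`, the cluster
of `y` only through the mouth on side `d'`, even if all edges in the two target rectangles
`T d k`, `T d' k` are opened, and both clusters contain a crossing of their target rectangle.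
-/

open MeasureTheory ProbabilityTheory unitInterval

namespace Pool.Agent.H59.EX

open Pool.Agent.H89.Perc

end Pool.Agent.H59.EX

end

section

/-!
# Outward separation: definitions for the stage scheme (abstract corridors)

`CorrData w ρ v d Z Nev`: a corridor `Z` starting at the boundary vertex `v` of `ball 0 (8 w)` and
containing the target rectangle `T d (4 w)`; if the increasing event `Nev` of the edges inside `Z`
happens, every path coming out of `ball v ρ` is joined inside `Z` to a fence of the target.
-/

open MeasureTheory ProbabilityTheory unitInterval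

namespace Pool.Agent.H59.EX

open Pool.Agent.H89.Perc

end Pool.Agent.H59.EX

end

section

/-!
# Exploration of full clusters and conditional FKG

`cl ω D X` is the open cluster of the vertex set `X` inside the vertex set `D`.  The event
`cl ω D X = S` only depends on the edges touching `S`; all other edges are fresh.
-/

open MeasureTheory ProbabilityTheory unitInterval

namespace Pool.Agent.H29.Sep

open Pool.Agent.H89.Perc

variable {p : I}

theorem cl_sub {ω : Config} {D X : Set Vert} : cl ω D X ⊆ D := by
  rintro v ⟨u, _, h⟩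
  exact h.mem_right

/-- No open edge of `D` leaves a cluster. -/
theorem cl_step {ω : Config} {D X : Set Vert} {a b : Vert} (ha : a ∈ cl ω D X)
    (h : Step ω D a b) : b ∈ cl ω D X := by
  obtain ⟨u, hu, hua⟩ := ha
  exact ⟨u, hu, hua.tail h⟩

end Pool.Agent.H29.Sep

end

section

/-!
# Conditional FKG and conditional independence after an exploration
-/

open MeasureTheory ProbabilityTheory unitInterval

namespace Pool.Agent.H29.Sep

open Pool.Agent.H89.Perc

variable {p : I}

theorem ExplB_inter {ι : Type*} [DecidableEq Edge] (F : Finset ι) (A : ι → Set Config)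
    (t : ι → Finset Edge) (hA : ∀ i ∈ F, LocalOn (t i) (A i)) :
    LocalOn (F.biUnion t) (⋂ i ∈ F, A i) := by
  intro ω ω' hω h
  rw [Set.mem_iInter₂] at h ⊢
  intro i hi
  exact hA i hi ω ω' (fun e he => hω e (Finset.mem_biUnion.2 ⟨i, hi, he⟩)) (h i hi)

/-- Finite intersections of decreasing local events: Harris inequality. -/
theorem fkg_decr_many {ι : Type*} (F : Finset ι) (A : ι → Set Config) (t : ι → Finset Edge)
    {c : ℝ} (hc : 0 ≤ c) (hA : ∀ i ∈ F, LocalOn (t i) (A i)) (iA : ∀ i ∈ F, Incr (A i)ᶜ)
    (hP : ∀ i ∈ F, c ≤ Pr p (A i)) : c ^ F.card ≤ Pr p (⋂ i ∈ F, A i) := by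
  classical
  induction F using Finset.induction_on with
  | empty => simp [Pr_univ]
  | insert a F ha ih =>
    rw [Finset.card_insert_of_notMem ha, Finset.set_biInter_insert, pow_succ']
    have hF : ∀ i ∈ F, i ∈ insert a F := fun i hi => Finset.mem_insert_of_mem hi
    have haF : a ∈ insert a F := Finset.mem_insert_self _ _
    have h1 := ih (fun i hi => hA i (hF i hi)) (fun i hi => iA i (hF i hi))
      (fun i hi => hP i (hF i hi))
    have h2 : Incr (⋂ i ∈ F, A i)ᶜ := by
      intro ω ω' hω h h3
      apply h
      rw [Set.mem_iInter₂] at h3 ⊢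
      intro i hi
      by_contra h4
      exact iA i (hF i hi) ω ω' hω h4 (h3 i hi)
    refine le_trans ?_ (fkg_decr (hA a haF) (ExplB_inter F A t (fun i hi => hA i (hF i hi)))
      (iA a haF) h2)
    exact mul_le_mul (hP a haF) h1 (pow_nonneg hc _) Pr_nonneg

end Pool.Agent.H29.Sep

end

section

/-!
# Exploration of clusters

`D` is a finite set of vertices, `clus ω D X` the union of the clusters in `D` of the vertices of
`X`.  Given this set, the edges of `D` which do not touch it are fresh.
-/

open MeasureTheory ProbabilityTheory unitInterval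

namespace Pool.Agent.H26.HP

open Pool.Agent.H89.Perc

end Pool.Agent.H26.HP

end

section

/-!
# Probabilistic tools

Conditioning on the edges of a (possibly infinite) set `t`, and on the value of a random set.
-/

open MeasureTheory ProbabilityTheory unitInterval

namespace Pool.Agent.H59.EX

open Pool.Agent.H89.Perc

end Pool.Agent.H59.EX

end

section

/-!
# The corridor lemma

`pb π ω` is the configuration `e ↦ ω (π e)`; `π = id` for the plane, the reduction modulo the
periods (and a translation) for the torus and for the cylinder.  Given a separated four-arm event,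
increasing events inside the corridor `C` and arbitrary events `H` of the edges which are neither
inside `C` nor touch the two clusters (in the configuration with filled targets) can be added at the
cost of constant factors.
-/

open MeasureTheory ProbabilityTheory unitInterval

namespace Pool.Agent.H59.EX

open Pool.Agent.H89.Perc

end Pool.Agent.H59.EX

end

section

/-!
# Seals: confinement of clusters by closed annuli (purely graph-theoretic)
-/

open MeasureTheory ProbabilityTheory unitInterval

namespace Pool.Agent.H59.EX

open Pool.Agent.H89.Perc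

/-- The centres `(ρ i, ρ j)`, `|i|, |j| ≤ K`. -/
noncomputable def grid (ρ K : ℕ) : Finset Vert :=
  (Finset.Icc (-(K : ℤ)) K ×ˢ Finset.Icc (-(K : ℤ)) K).image fun z => ((ρ : ℤ) * z.1, (ρ : ℤ) * z.2)

end Pool.Agent.H59.EX

end

end

section

/-! The parts of this file: Perc.BK, H29.Sep.CircDef, H61.NC.Calc, H57.EX.GeoQ. -/

section

/-!
# The van den Berg–Kesten inequality for increasing events
-/

namespace Pool.Agent.Perc

open Finset

variable {ι : Type*} [DecidableEq ι] {p : ℝ} {F S : Finset ι}

theorem Pr_nonneg (h0 : 0 ≤ p) (h1 : p ≤ 1) (A : Finset ι → Prop) : 0 ≤ Pr p F A :=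
  Ex_nonneg h0 h1 fun S _ => ind_nonneg _ _

end Pool.Agent.Perc

end

section

/-!
# Open circuits made of four strip crossings: definitions
-/

open MeasureTheory ProbabilityTheory unitInterval

namespace Pool.Agent.H29.Sep

open Pool.Agent.H89.Perc

/-- The edges on which `Circ v s` depends. -/
noncomputable def eCirc (v : Vert) (s : ℕ) : Finset Edge :=
  haveI := Classical.decPred (fun e : Edge => src e ∈ ann v s (3 * s) ∧ tgt e ∈ ann v s (3 * s))
  (eRect (v.1 - 3 * s) (v.1 + 3 * s) (v.2 - 3 * s) (v.2 + 3 * s)).filter
    (fun e => src e ∈ ann v s (3 * s) ∧ tgt e ∈ ann v s (3 * s))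

end Pool.Agent.H29.Sep

end

section

/-!
# Two calculus lemmas
-/

namespace Pool.Agent.H61.NC

end Pool.Agent.H61.NC

end

section

/-!
# The boundary of the unit square of the sup norm, parametrised by arc length
-/

namespace Pool.Agent.H57.EX

end Pool.Agent.H57.EX

end

end
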