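import Pool.Agent.H94.BG.H31.PT.M02
import Pool.Agent.H94.BG.M01

/-! The parts of this file: H31.PT.H85.Strict.Corr, H31.PT.M04. -/

section

/-!
# Gluing of crossings, lists of crossings, long crossings
-/

open MeasureTheory ProbabilityTheory unitInterval

namespace Pool.Agent.H85.Strict

open Pool.Agent.H89.Perc

variable {ω : Config} {q : I}

/-- A horizontal path and a vertical path which cross the same rectangle meet. -/
theorem hv_meet {a₁ b₁ c₁ d₁ a₂ b₂ c₂ d₂ : ℤ} {u v u' v' : Vert}
    (h : Conn ω (rect a₁ b₁ c₁ d₁) u v) (hu : u.1 ≤ a₂) (hv : b₂ ≤ v.1)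
    (h' : Conn ω (rect a₂ b₂ c₂ d₂) u' v') (hu' : u'.2 ≤ c₁) (hv' : d₁ ≤ v'.2)
    (hab : a₂ ≤ b₂) (hcd : c₁ ≤ d₁) :
    ∃ z, Conn ω (rect a₁ b₁ c₁ d₁) u z ∧ Conn ω (rect a₂ b₂ c₂ d₂) u' z := by
  obtain ⟨x, y, hx, hy, h1, h2, -⟩ := h.cross_x hu hv hab
  obtain ⟨x', y', hx', hy', h1', h2', -⟩ := h'.cross_y hu' hv' hcd
  have hum := h.mem_left
  have hvm := h.mem_right
  have hum' := h'.mem_left
  have hvm' := h'.mem_right
  simp only [rect, Set.mem_ofPred_eq] at hum hvm hum' hvm'
  have k1 : Conn ω (rect a₂ b₂ c₁ d₁) x y := h1.mono_set (by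
    rintro w ⟨hw1, hw2⟩
    simp only [rect, Set.mem_ofPred_eq] at hw1 hw2 ⊢
    omega)
  have k2 : Conn ω (rect a₂ b₂ c₁ d₁) x' y' := h1'.mono_set (by
    rintro w ⟨hw1, hw2⟩
    simp only [rect, Set.mem_ofPred_eq] at hw1 hw2 ⊢
    omega)
  obtain ⟨w, hw1, hw2⟩ := cross k1 hx hy k2 hx' hy'
  refine ⟨w, h2.trans (hw1.mono_set ?_), h2'.trans (hw2.mono_set ?_)⟩
  · intro z hz
    simp only [rect, Set.mem_ofPred_eq] at hz ⊢
    omega
  · intro z hz
    simp only [rect, Set.mem_ofPred_eq] at hz ⊢
    omega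

/-- Two overlapping horizontal crossings and a vertical crossing of the overlap. -/
theorem hcross_glue {a a' b b' c d : ℤ} (haa : a ≤ a') (hab : a' ≤ b) (hbb : b ≤ b') (hcd : c ≤ d)
    (h1 : HCross ω a b c d) (h2 : VCross ω a' b c d) (h3 : HCross ω a' b' c d) :
    HCross ω a b' c d := by
  obtain ⟨u, v, hu, hv, h1⟩ := h1
  obtain ⟨u', v', hu', hv', h2⟩ := h2
  obtain ⟨x, y, hx, hy, h3⟩ := h3
  obtain ⟨z, k1, k2⟩ := hv_meet h1 (by omega) (by omega) h2 (by omega) (by omega) hab hcd
  obtain ⟨z', k3, k4⟩ := hv_meet h3 (by omega) (by omega) h2 (by omega) (by omega) hab hcd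
  have m1 : rect a b c d ⊆ rect a b' c d := by
    intro w hw
    simp only [rect, Set.mem_ofPred_eq] at hw ⊢
    omega
  have m2 : rect a' b c d ⊆ rect a b' c d := by
    intro w hw
    simp only [rect, Set.mem_ofPred_eq] at hw ⊢
    omega
  have m3 : rect a' b' c d ⊆ rect a b' c d := by
    intro w hw
    simp only [rect, Set.mem_ofPred_eq] at hw ⊢
    omega
  exact ⟨u, y, hu, hy, (((k1.mono_set m1).trans ((k2.mono_set m2).symm)).trans
    (k4.mono_set m2)).trans (((k3.mono_set m3).symm).trans (h3.mono_set m3))⟩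

/-- Long crossings. -/
theorem long_rsw {n : ℕ} {c₀ : ℝ} (hc : 0 ≤ c₀)
    (h : c₀ ≤ Pr q {ω | HCross ω 0 (4 * n) 0 n}) (j : ℕ) :
    c₀ ^ (2 * j + 1) ≤ Pr q {ω | HCross ω 0 ((4 + 3 * j) * n) 0 n} := by
  induction j with
  | zero => simpa using h
  | succ j ih =>
    have hn : (0 : ℤ) ≤ n := by positivity
    have hjn : (0 : ℤ) ≤ (j : ℤ) * n := by positivity
    have hV : c₀ ≤ Pr q {ω | VCross ω ((3 + 3 * j) * n) ((4 + 3 * j) * n) 0 n} := by
      rw [Pr_vcross_eq_hcross]
      have h1 := Pr_hcross_translate (p := q) (a := 0) (b := (n : ℤ)) (c := 0) (d := (n : ℤ)) 0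
        ((3 + 3 * j) * n)
      have e1 : (0 : ℤ) + (3 + 3 * j) * n = (3 + 3 * j) * n := by ring
      have e2 : (n : ℤ) + (3 + 3 * j) * n = (4 + 3 * j) * n := by ring
      rw [e1, e2, add_zero, add_zero] at h1
      rw [h1]
      refine h.trans (Pr_mono fun ω hω => ?_)
      exact HCross.mono hω le_rfl hn (by omega) le_rfl le_rfl
    have hH : c₀ ≤ Pr q {ω | HCross ω ((3 + 3 * j) * n) ((7 + 3 * j) * n) 0 n} := by
      have h1 := Pr_hcross_translate (p := q) (a := 0) (b := 4 * (n : ℤ)) (c := 0) (d := (n : ℤ))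
        ((3 + 3 * j) * n) 0
      have e1 : (0 : ℤ) + (3 + 3 * j) * n = (3 + 3 * j) * n := by ring
      have e2 : 4 * (n : ℤ) + (3 + 3 * j) * n = (7 + 3 * j) * n := by ring
      rw [e1, e2, add_zero, add_zero] at h1
      rw [h1]
      exact h
    have f1 := fkg (p := q) (localOn_hcross 0 ((4 + 3 * (j : ℤ)) * n) 0 n)
      (localOn_vcross ((3 + 3 * (j : ℤ)) * n) ((4 + 3 * (j : ℤ)) * n) 0 n)
      (incr_hcross _ _ _ _) (incr_vcross _ _ _ _)
    have f2 := fkg (p := q) ((localOn_hcross 0 ((4 + 3 * (j : ℤ)) * n) 0 n).inter'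
      (localOn_vcross ((3 + 3 * (j : ℤ)) * n) ((4 + 3 * (j : ℤ)) * n) 0 n))
      (localOn_hcross ((3 + 3 * (j : ℤ)) * n) ((7 + 3 * (j : ℤ)) * n) 0 n)
      ((incr_hcross _ _ _ _).inter (incr_vcross _ _ _ _)) (incr_hcross _ _ _ _)
    have e : c₀ ^ (2 * (j + 1) + 1) = c₀ ^ (2 * j + 1) * c₀ * c₀ := by ring
    rw [e]
    have g1 := (mul_le_mul ih hV hc Pr_nonneg).trans f1
    have g2 := (mul_le_mul g1 hH hc Pr_nonneg).trans f2
    refine g2.trans (Pr_mono ?_)
    rintro ω ⟨⟨w1, w2⟩, w3⟩
    have := hcross_glue (by nlinarith) (by nlinarith) (by nlinarith) hn w1 w2 w3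
    show HCross ω 0 ((4 + 3 * ((j + 1 : ℕ) : ℤ)) * n) 0 n
    have e : (4 + 3 * ((j + 1 : ℕ) : ℤ)) * n = (7 + 3 * (j : ℤ)) * n := by push_cast; ring
    rw [e]
    exact this

end Pool.Agent.H85.Strict

end

section

/-! The parts of this file: H89.Perc.OSSS, H89.Perc.TorusDefs, H61.NC.Defs, H29.Sep.Iface. -/

section

/-!
# The O'Donnell-Saks-Schramm-Servedio inequality for exploration algorithms
-/

open MeasureTheory ProbabilityTheory unitInterval

namespace Pool.Agent.H89.Perc

open Pool.Agent.Perc (Ex ind ind_of ind_of_not DD)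

end Pool.Agent.H89.Perc

end

section

/-!
# The torus: definitions of the winding event and of the exploration rule
-/

open MeasureTheory ProbabilityTheory unitInterval

namespace Pool.Agent.H89.Perc

/-- Periodic extension of the configuration on `[0, N)²`. -/
def per (N : ℕ) (ω : Config) : Config := fun e => ω (e.1 % N, e.2.1 % N, e.2.2)

/-- Edges of the torus. -/
noncomputable def tEdges (N : ℕ) : Finset Edge := Finset.Ico (0 : ℤ) N ×ˢ Finset.Ico (0 : ℤ) N ×ˢ Finset.univ

/-- There is an open path on the torus which winds around it horizontally. -/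
def Wind (N : ℕ) : Set Config :=
  {ω | ∃ (u : Vert) (a b : ℤ), a ≠ 0 ∧ Conn (per N ω) Set.univ u (u.1 + a * N, u.2 + b * N)}

end Pool.Agent.H89.Perc

end

section

/-!
# Near-critical percolation on the torus: definitions and interfaces

`q` is the density of open edges, `N` the side of the torus.  `Wind N` (horizontal winding) is the
increasing event whose probability is differentiated; all edges of the torus with the same
direction have the same influence on it, so there are no boundary edges.
-/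

open MeasureTheory ProbabilityTheory unitInterval

namespace Pool.Agent.H61.NC

open Pool.Agent.H89.Perc

/-- Close the edge `e`. -/
def close (e : Edge) (ω : Config) : Config := Function.update ω e false

/-- Four-arm event of the edge `e`: with `e` closed, its two endpoints are joined to the sphere of
radius `r` around `src e` and not joined to each other, all inside the ball. -/
def A4 (e : Edge) (r : ℕ) : Set Config :=
  {ω | (∃ u ∈ sphere (src e) r, Conn (close e ω) (ball (src e) r) (src e) u) ∧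
    (∃ u ∈ sphere (src e) r, Conn (close e ω) (ball (src e) r) (tgt e) u) ∧
    ¬ Conn (close e ω) (ball (src e) r) (src e) (tgt e)}

/-- Four-arm probability (for a horizontal edge; it is the same for all edges). -/
noncomputable def a4 (q : I) (r : ℕ) : ℝ := Pr q (A4 (0, 0, false) r)

/-- The middle of the fundamental square of the torus. -/
def mid (N : ℕ) : ℤ := (N : ℤ) / 2

/-- The edge with direction `d` in the middle of the torus. -/
def ctr (N : ℕ) (d : Bool) : Edge := (mid N, mid N, d)

/-- The influence of an edge of direction `d` on the winding event. -/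
noncomputable def sT (q : I) (N : ℕ) (d : Bool) : ℝ := pivot q (Wind N) (ctr N d)

/-- The block of radius `r` in the middle of the torus. -/
noncomputable def blk (N r : ℕ) : Finset Edge :=
  eRect (mid N - r) (mid N + r) (mid N - r) (mid N + r)

/-- Give all edges of `s` the value `b`. -/
noncomputable def fill (s : Finset Edge) (b : Bool) (ω : Config) : Config := by
  classical exact fun e => if e ∈ s then b else ω e

/-- Box-crossing regime: open and dual crossings of `4 : 1` rectangles of all scales up to `n`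
have probability at least `c`. -/
def RSWreg (c : ℝ) (n : ℕ) (q : I) : Prop :=
  ∀ m : ℕ, 1 ≤ m → m ≤ n → c ≤ Pr q {ω | HCross ω 0 (4 * m) 0 m} ∧
    c ≤ Pr (σ q) {ω | HCross ω 0 (4 * m) 0 m}

end Pool.Agent.H61.NC

end

section

/-!
# Interfaces of the separation part

Everything is for densities `q` with `RSWreg c n q`; constants depend only on `c`.
-/

open MeasureTheory ProbabilityTheory unitInterval

namespace Pool.Agent.H29.Sep

open Pool.Agent.H89.Perc Pool.Agent.H61.NC

end Pool.Agent.H29.Sep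

end

end
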