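import Pool.Agent.H94.BG.H31.PT.M03_2
import Pool.Agent.H94.BG.H31.PT.M04_1
import Pool.Agent.H94.BG.M02
import Pool.Agent.H94.BG.M04

/-! The parts of this file: H31.PT.H29.Sep.NoArm, H31.PT.M14. -/

section

/-!
# RSW regime: annuli which are not crossed, one-arm decay
-/

open MeasureTheory ProbabilityTheory unitInterval

namespace Pool.Agent.H29.Sep

open Pool.Agent.H89.Perc Pool.Agent.H61.NC

/-- Closed edges of a finite set. -/
lemma noarm_closed (q : I) (s : Finset Edge) :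
    (1 - (q : ℝ)) ^ s.card ≤ Pr q {ω | ∀ e ∈ s, ω e = false} := by
  classical
  induction s using Finset.induction_on with
  | empty => simp [Pr_univ]
  | insert a s ha ih =>
    have hloc : LocalOn (insert a s) {ω : Config | ∀ e ∈ insert a s, ω e = false} := by
      intro ω ω' h hA e he
      rw [← h e he]
      exact hA e he
    rw [Pr_eq_update hloc a]
    have h1 : {ω : Config | Function.update ω a false ∈
        {ω : Config | ∀ e ∈ insert a s, ω e = false}} = {ω : Config | ∀ e ∈ s, ω e = false} := by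
      ext ω
      simp only [Set.mem_ofPred_eq, Finset.mem_insert, forall_eq_or_imp, Function.update_self,
        true_and]
      refine forall₂_congr fun e he => ?_
      rw [Function.update_of_ne (by rintro rfl; exact ha he)]
    rw [h1, Finset.card_insert_of_notMem ha, pow_succ]
    have h2 : 0 ≤ (q : ℝ) * Pr q {ω : Config | Function.update ω a true ∈
        {ω : Config | ∀ e ∈ insert a s, ω e = false}} := mul_nonneg q.2.1 Pr_nonneg
    have h3 : 0 ≤ 1 - (q : ℝ) := by linarith [q.2.2]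
    nlinarith [mul_le_mul_of_nonneg_left ih h3]

lemma noarm_edge (q : I) (e : Edge) : Pr q {ω | ω e = true} = (q : ℝ) := by
  classical
  have hloc : LocalOn {e} {ω : Config | ω e = true} := by
    intro ω ω' h hA
    have : ω e = ω' e := h e (by simp)
    simp only [Set.mem_ofPred_eq] at hA ⊢
    rw [← this]
    exact hA
  rw [Pr_eq_update hloc e]
  have h1 : {ω : Config | Function.update ω e true ∈ {ω : Config | ω e = true}} = Set.univ := by
    ext ω
    simp
  have h2 : {ω : Config | Function.update ω e false ∈ {ω : Config | ω e = true}} = ∅ := by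
    ext ω
    simp
  rw [h1, h2, Pr_univ]
  have h3 : Pr q (∅ : Set Config) = 0 := by simp [Pr]
  rw [h3]
  ring

/-- In the regime closed edges have probability bounded below. -/
lemma noarm_param {c : ℝ} {n : ℕ} {q : I} (hn : 1 ≤ n) (h : RSWreg c n q) :
    c / 2 ≤ 1 - (q : ℝ) := by
  have h1 := (h 1 le_rfl hn).2
  have h2 : Pr (σ q) {ω | HCross ω 0 (4 * (1 : ℕ)) 0 (1 : ℕ)} ≤
      Pr (σ q) ({ω | ω ((0 : ℤ), (0 : ℤ), false) = true} ∪
        {ω | ω ((0 : ℤ), (1 : ℤ), false) = true}) := by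
    refine Pr_mono ?_
    rintro ω ⟨u, v, hu, hv, huv⟩
    obtain ⟨w, w', hw, -, hst, hl⟩ := huv.exists_last (T := {z : Vert | z.1 ≤ 0})
      (by simp only [Set.mem_ofPred_eq]; omega)
      (by simp only [Set.mem_ofPred_eq]; omega)
    have hw' := hl.mem_left.2
    simp only [Set.mem_ofPred_eq] at hw hw'
    obtain ⟨h1, h2, e, he, heo⟩ := hst
    simp only [rect, Set.mem_ofPred_eq] at h1 h2
    obtain ⟨x, y, b⟩ := e
    cases b
    · rcases he with ⟨ha, hb⟩ | ⟨ha, hb⟩
      · simp only [src, tgt, Bool.false_eq_true, if_false] at ha hb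
        subst ha hb
        simp only at h1 h2 hw hw'
        have hx : x = 0 := by omega
        have hy : y = 0 ∨ y = 1 := by omega
        subst hx
        rcases hy with rfl | rfl
        · exact Or.inl heo
        · exact Or.inr heo
      · simp only [src, tgt, Bool.false_eq_true, if_false] at ha hb
        subst ha hb
        simp only at h1 h2 hw hw'
        omega
    · rcases he with ⟨ha, hb⟩ | ⟨ha, hb⟩
      · simp only [src, tgt, if_true] at ha hb
        subst ha hb
        exact absurd hw hw'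
      · simp only [src, tgt, if_true] at ha hb
        subst ha hb
        exact absurd hw hw'
  have h3 := Pr_union_le (p := σ q) (A := {ω : Config | ω ((0 : ℤ), (0 : ℤ), false) = true})
    (B := {ω : Config | ω ((0 : ℤ), (1 : ℤ), false) = true})
  rw [noarm_edge, noarm_edge] at h3
  have h4 : ((σ q : I) : ℝ) = 1 - (q : ℝ) := rfl
  rw [h4] at h3
  linarith [h1.trans h2]

/-- The annulus `ball v (3 s)` minus `ball v s` is not crossed with positive probability. -/
theorem noarm_lower (c : ℝ) (hc : 0 < c) (K : ℕ) : ∃ c' : ℝ, 0 < c' ∧ ∀ (n : ℕ) (q : I), 1 ≤ n →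
    RSWreg c n q → ∀ (v : Vert) (s : ℕ), 1 ≤ s → s ≤ K * n →
      c' ≤ Pr q {ω | ¬ ∃ u ∈ ball v s, ∃ u' ∈ sphere v (3 * s), Conn ω (ball v (3 * s)) u u'} := by
  classical
  obtain ⟨c1, hc1, H⟩ := rect_lower c hc (6 + 2 * K)
  refine ⟨min (c1 ^ 4) ((c / 2) ^ (eBall 3).card), lt_min (by positivity) (by positivity), ?_⟩
  intro n q hn hreg v s hs hsK
  -- translate to the origin
  have hcompl : {ω : Config | ¬ ∃ u ∈ ball v s, ∃ u' ∈ sphere v (3 * s),
      Conn ω (ball v (3 * s)) u u'} = (ArmBox v s (3 * s))ᶜ := rfl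
  rw [hcompl, Pr_compl (localOn_armBox v s (3 * s)), Pr_armBox]
  rcases Nat.lt_or_ge 1 s with h2 | h1
  · -- large annuli
    refine (min_le_left _ _).trans ?_
    have hregs := rswreg_symm hreg
    have b1 : (-(3 * s : ℕ) : ℤ) ≤ (3 * s : ℕ) := by push_cast; omega
    have key : ∀ y z : ℤ, z - y = 2 * (s : ℤ) - 2 →
        c1 ≤ Pr (σ q) {ω | HCross ω (-(3 * s : ℕ)) (3 * s : ℕ) y z} ∧
          c1 ≤ Pr (σ q) {ω | VCross ω y z (-(3 * s : ℕ)) (3 * s : ℕ)} := by
      intro y z hyz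
      refine H n (σ q) hn hregs _ _ y z b1 (by omega) ?_ ?_
      · rw [hyz]
        push_cast
        have : (0 : ℤ) ≤ (K : ℤ) * (2 * (s : ℤ) - 2) :=
          mul_nonneg (Int.natCast_nonneg K) (by omega)
        nlinarith
      · rw [hyz]
        have : (s : ℤ) ≤ (K : ℤ) * n := by exact_mod_cast hsK
        push_cast
        nlinarith [Int.natCast_nonneg n]
    have k1 := (key (s + 1) ((3 * s : ℕ) - 1) (by push_cast; ring)).2
    have k2 := (key (-(3 * s : ℕ) + 1) (-s - 1) (by push_cast; ring)).2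
    have k3 := (key (s + 1) ((3 * s : ℕ) - 1) (by push_cast; ring)).1
    have k4 := (key (-(3 * s : ℕ) + 1) (-s - 1) (by push_cast; ring)).1
    have h12 := fkg (p := σ q) (localOn_vcross ((s : ℤ) + 1) ((3 * s : ℕ) - 1) (-(3 * s : ℕ)) (3 * s : ℕ))
      (localOn_vcross (-((3 * s : ℕ) : ℤ) + 1) (-s - 1) (-(3 * s : ℕ)) (3 * s : ℕ))
      (incr_vcross _ _ _ _) (incr_vcross _ _ _ _)
    have h34 := fkg (p := σ q) (localOn_hcross (-((3 * s : ℕ) : ℤ)) (3 * s : ℕ) (s + 1) ((3 * s : ℕ) - 1))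
      (localOn_hcross (-((3 * s : ℕ) : ℤ)) (3 * s : ℕ) (-(3 * s : ℕ) + 1) (-s - 1))
      (incr_hcross _ _ _ _) (incr_hcross _ _ _ _)
    have h1234 := fkg (p := σ q)
      ((localOn_vcross ((s : ℤ) + 1) ((3 * s : ℕ) - 1) (-(3 * s : ℕ)) (3 * s : ℕ)).inter'
        (localOn_vcross (-((3 * s : ℕ) : ℤ) + 1) (-s - 1) (-(3 * s : ℕ)) (3 * s : ℕ)))
      ((localOn_hcross (-((3 * s : ℕ) : ℤ)) (3 * s : ℕ) (s + 1) ((3 * s : ℕ) - 1)).inter'
        (localOn_hcross (-((3 * s : ℕ) : ℤ)) (3 * s : ℕ) (-(3 * s : ℕ) + 1) (-s - 1)))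
      ((incr_vcross _ _ _ _).inter (incr_vcross _ _ _ _))
      ((incr_hcross _ _ _ _).inter (incr_hcross _ _ _ _))
    have h12' := (mul_le_mul k1 k2 hc1.le Pr_nonneg).trans h12
    have h34' := (mul_le_mul k3 k4 hc1.le Pr_nonneg).trans h34
    have h' := (mul_le_mul h12' h34' (by positivity) Pr_nonneg).trans h1234
    have e : c1 ^ 4 = c1 * c1 * (c1 * c1) := by ring
    have h5 : c1 ^ 4 ≤ Pr (σ q) {ω | dual ω ∉ DArm s (3 * s)} := by
      rw [e]
      refine h'.trans (Pr_mono ?_)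
      rintro ω ⟨⟨w1, w2⟩, ⟨w3, w4⟩⟩
      exact block (by omega) w1 w2 w3 w4
    have h6 := Pr_compl (p := σ q) (localOn_dual_DArm s (3 * s))
    have h7 : {ω : Config | dual ω ∉ DArm s (3 * s)}ᶜ = {ω | dual ω ∈ DArm s (3 * s)} := by
      ext ω
      simp only [Set.mem_compl_iff, Set.mem_ofPred_eq, not_not]
    rw [h7, Pr_dual (decay_localOn_DArm s (3 * s)), unitInterval.symm_symm] at h6
    have h8 : Pr q (ArmBox 0 s (3 * s)) ≤ Pr q (DArm s (3 * s)) :=
      Pr_mono (armBox_subset_DArm (by omega))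
    linarith
  · -- the smallest annulus
    refine (min_le_right _ _).trans ?_
    have hs1 : s = 1 := by omega
    subst hs1
    have hq := noarm_param hn hreg
    have h3 := noarm_closed q (eBall 3)
    have h4 : (c / 2) ^ (eBall 3).card ≤ (1 - (q : ℝ)) ^ (eBall 3).card :=
      pow_le_pow_left₀ (by positivity) hq _
    have h5 : Pr q {ω | ∀ e ∈ eBall 3, ω e = false} ≤ Pr q (ArmBox 0 1 (3 * 1))ᶜ := by
      refine Pr_mono ?_
      rintro ω hω ⟨w, hw, u, hu, hc⟩
      have hwu : w ≠ u := by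
        rintro rfl
        obtain ⟨_, h⟩ := hu
        simp only [mem_ball, Prod.fst_zero, Prod.snd_zero] at hw h
        omega
      obtain ⟨a, b, ha, hb, hst, -⟩ := hc.exists_last (T := {w}) rfl (fun h => hwu h.symm)
      obtain ⟨ga, gb, e, he, heo⟩ := hst
      have hsrc : src e ∈ ball 0 3 := by
        rcases he with ⟨h1, h2⟩ | ⟨h1, h2⟩
        · rw [← h1]; exact ga
        · rw [← h2]; exact gb
      have := hω e (mem_eBall.2 hsrc)
      rw [this] at heo
      exact absurd heo (by simp)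
    rw [Pr_compl (localOn_armBox 0 1 (3 * 1))] at h5
    linarith

end Pool.Agent.H29.Sep

end

section

/-! The parts of this file: H57.EX.Det2, H57.EX.Det1, H57.EX.Stage2a, H57.EX.StdDet, H57.EX.StdBad, H57.EX.Near, H59.EX.SealProb, H59.EX.St2, H83.EX.CorrE, H26.ST.Defs, H26.ST.Cells, H26.ST.Open. -/

section

/-!
# The sealed cluster
-/

open MeasureTheory ProbabilityTheory unitInterval

namespace Pool.Agent.H57.EX

open Pool.Agent.H89.Perc Pool.Agent.H61.NC Pool.Agent.H29.Sep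

end Pool.Agent.H57.EX

end

section

/-!
# First landing
-/

open MeasureTheory ProbabilityTheory unitInterval

namespace Pool.Agent.H57.EX

open Pool.Agent.H89.Perc Pool.Agent.H61.NC Pool.Agent.H29.Sep

end Pool.Agent.H57.EX

end

section

/-!
# Sealing of the first cluster
-/

open MeasureTheory ProbabilityTheory unitInterval

namespace Pool.Agent.H57.EX

open Pool.Agent.H89.Perc Pool.Agent.H61.NC Pool.Agent.H29.Sep

end Pool.Agent.H57.EX

end

section

/-!
# The standard data: deterministic facts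
-/

open MeasureTheory ProbabilityTheory unitInterval

namespace Pool.Agent.H57.EX

open Pool.Agent.H89.Perc Pool.Agent.H61.NC Pool.Agent.H29.Sep

end Pool.Agent.H57.EX

end

section

/-!
# The standard data: probability of the bad events
-/

open MeasureTheory ProbabilityTheory unitInterval

namespace Pool.Agent.H57.EX

open Pool.Agent.H89.Perc Pool.Agent.H61.NC Pool.Agent.H29.Sep

end Pool.Agent.H57.EX

end

section

/-!
# Near clusters give two clusters of a local domain
-/

open MeasureTheory ProbabilityTheory unitInterval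

namespace Pool.Agent.H57.EX

open Pool.Agent.H89.Perc Pool.Agent.H61.NC Pool.Agent.H29.Sep

end Pool.Agent.H57.EX

end

section

/-!
# Probability of seals

`Seal G ρ t` contains the intersection over `g ∈ G` of the decreasing events no open path of the
full configuration from `ball g ρ` to `sphere g (3 ρ)` (close more edges), each of probability at
least `c'` by `noarm_lower`; use `fkg_decr_many`.  The cardinality of `G` is bounded by `M`.
-/

open MeasureTheory ProbabilityTheory unitInterval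

namespace Pool.Agent.H59.EX

open Pool.Agent.H89.Perc Pool.Agent.H61.NC

/-- Edges with both endpoints in `ball g r` (as a finite set). -/
noncomputable def bE (g : Vert) (r : ℕ) : Finset Edge := by
  classical exact (eRect (g.1 - r) (g.1 + r) (g.2 - r) (g.2 + r)).filter (fun e => e ∈ inE (ball g r))

theorem mem_bE {g : Vert} {r : ℕ} {e : Edge} : e ∈ bE g r ↔ e ∈ inE (ball g r) := by
  classical
  simp only [bE, Finset.mem_filter, and_iff_right_iff_imp]
  intro h
  exact mem_eRect.2 h.1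

theorem sealprob_localOn_arm (g : Vert) (k r : ℕ) : LocalOn (bE g r) (ArmBox g k r)ᶜ := by
  refine LocalOn.compl ?_
  rintro ω ω' h ⟨w, hw, u, hu, hc⟩
  exact ⟨w, hw, u, hu, Conn.congr (fun e he he' => h e (mem_bE.2 ⟨he, he'⟩)) hc⟩

theorem card_grid (ρ K : ℕ) : (grid ρ K).card ≤ (2 * K + 1) ^ 2 := by
  classical
  refine Finset.card_image_le.trans ?_
  rw [Finset.card_product, Int.card_Icc, sq]
  have h : ((K : ℤ) + 1 - -(K : ℤ)).toNat = 2 * K + 1 := by omega
  rw [h]

theorem compl_armBox_eq (v : Vert) (s : ℕ) :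
    {ω | ¬ ∃ u ∈ ball v s, ∃ u' ∈ sphere v (3 * s), Conn ω (ball v (3 * s)) u u'} =
      (ArmBox v s (3 * s))ᶜ := rfl

end Pool.Agent.H59.EX

end

section

/-!
# Outward separation: stage 2
-/

open MeasureTheory ProbabilityTheory unitInterval

namespace Pool.Agent.H59.EX

open Pool.Agent.H89.Perc Pool.Agent.H61.NC

end Pool.Agent.H59.EX

end

section

/-!
# The corridor lemma with an arbitrary finite edge set
-/

open MeasureTheory ProbabilityTheory unitInterval

namespace Pool.Agent.H59.EX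

open Pool.Agent.H89.Perc

/-- The determined edges. -/
def detE (π : Edge → Edge) (d d' : Side) (k : ℕ) (EC : Set Edge) (S : Set Vert) : Set Edge :=
  sat π (touch (dom d d' k) S ∪ EC)

end Pool.Agent.H59.EX

end

section

/-!
# Separated four arms on the torus: definitions

The torus of side `N` is `ℤ²` with the periodic configuration `per N ω = pb (modE N) ω`.  The source
edge is `(0, 0, d)`; the first point `(0, 0)` has its mouth in the west, the second point in the
east.  The corridor is the horizontal strip `[28 k, N - 28 k] × [-3 k, 3 k]` from the east target to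
the translate by `(N, 0)` of the west target.
-/

open MeasureTheory ProbabilityTheory unitInterval

namespace Pool.Agent.H26.ST

open Pool.Agent.H89.Perc Pool.Agent.H61.NC Pool.Agent.H59.EX

/-- `s` is the source given by the edge `(0, 0, d)`. -/
structure IsSrc (s : Src) (d : Bool) : Prop where
  x : s.x = (0, 0)
  y : s.y = tgt (0, 0, d)
  E : s.E0 = {(0, 0, d)}

/-- The corridor. -/
def Cor (N k : ℕ) : Set Vert := rect (28 * k) (N - 28 * k) (-(3 * k)) (3 * k)

/-- The edges of the corridor: those of the strip left of the translated west target, and those of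
the west target. -/
def EC (N k : ℕ) : Set Edge := {e | (e ∈ inE (Cor N k) ∧ e.1 < N - 36 * k) ∨ e ∈ inE (T .W k)}

/-- A vertical strip off the corridor is not crossed. -/
def NoX (N k : ℕ) : Set Config := {η | ¬ HCross η (40 * k) (50 * k) (3 * k + 1) (N - 3 * k - 1)}

end Pool.Agent.H26.ST

end

section

/-!
# The sausages `Y ∪ corridor ∪ (X + (N, 0))` and their translates are far apart
-/

open MeasureTheory ProbabilityTheory unitInterval

namespace Pool.Agent.H26.ST

open Pool.Agent.H89.Perc Pool.Agent.H61.NC Pool.Agent.H59.EX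

/-- Periodic configuration. -/
def PerInv (N : ℕ) (ζ : Config) : Prop :=
  ∀ (z : ℤ × ℤ) (e : Edge), ζ (shiftE (z.1 * N, z.2 * N) e) = ζ e

/-- Translation by `-z N`. -/
def sh (N : ℕ) (z : ℤ × ℤ) (v : Vert) : Vert := (v.1 - z.1 * N, v.2 - z.2 * N)

/-- The data of the deterministic argument. -/
structure TD (N k : ℕ) (ζ : Config) (X Y : Set Vert) : Prop where
  hk : 64 ≤ k
  hN : 128 * k ≤ N
  per : PerInv N ζ
  Xs : X ⊆ dom .W .E k
  Ys : Y ⊆ dom .W .E k
  TX : T .W k ⊆ X
  TY : T .E k ⊆ Y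
  disj : ∀ v ∈ X, v ∉ Y
  clX : ∀ a ∈ X, ∀ b ∈ dom .W .E k, ∀ e, Joins e a b → ζ e = true → b ∈ X
  clY : ∀ a ∈ Y, ∀ b ∈ dom .W .E k, ∀ e, Joins e a b → ζ e = true → b ∈ Y
  mX : ∀ v ∈ X, v ∈ sphere 0 (32 * k) → v ∈ Mouth .W k
  mY : ∀ v ∈ Y, v ∈ sphere 0 (32 * k) → v ∈ Mouth .E k

/-- Equal or joined by an open edge. -/
def Rel1 (ζ : Config) (a b : Vert) : Prop := a = b ∨ ∃ e, Joins e a b ∧ ζ e = true

/-- In the sausage with index `z`. -/
def In (N k : ℕ) (X Y : Set Vert) (z : ℤ × ℤ) (v : Vert) : Prop :=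
  sh N z v ∈ Y ∨ sh N z v ∈ Cor N k ∨ sh N (z.1 + 1, z.2) v ∈ X

theorem Rel1.symm {ζ : Config} {a b : Vert} (h : Rel1 ζ a b) : Rel1 ζ b a := by
  rcases h with h | ⟨e, he, ho⟩
  · exact Or.inl h.symm
  · exact Or.inr ⟨e, he.symm, ho⟩

theorem near_of_joins {e : Edge} {a b : Vert} (hj : Joins e a b) :
    b.1 ≤ a.1 + 1 ∧ a.1 ≤ b.1 + 1 ∧ b.2 ≤ a.2 + 1 ∧ a.2 ≤ b.2 + 1 := by
  have h : Step allOpen Set.univ a b := ⟨trivial, trivial, e, hj, rfl⟩
  exact ⟨h.fst_le.1, h.fst_le.2, h.snd_le.1, h.snd_le.2⟩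

theorem Rel1.near {ζ : Config} {a b : Vert} (h : Rel1 ζ a b) :
    b.1 ≤ a.1 + 1 ∧ a.1 ≤ b.1 + 1 ∧ b.2 ≤ a.2 + 1 ∧ a.2 ≤ b.2 + 1 := by
  rcases h with h | ⟨e, he, ho⟩
  · subst h; omega
  · exact near_of_joins he

theorem joins_sh {N : ℕ} (z : ℤ × ℤ) {e : Edge} {a b : Vert} (h : Joins e a b) :
    Joins (shiftE (-(z.1 * N), -(z.2 * N)) e) (sh N z a) (sh N z b) := by
  have := joins_shift (-(z.1 * N), -(z.2 * N)) h
  simpa [sh, sub_eq_add_neg] using this

theorem per_sh {N : ℕ} {ζ : Config} (h : PerInv N ζ) (z : ℤ × ℤ) (e : Edge) :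
    ζ (shiftE (-(z.1 * N), -(z.2 * N)) e) = ζ e := by
  have := h (-z.1, -z.2) e
  simpa using this

theorem Rel1.sh {N : ℕ} {ζ : Config} (hp : PerInv N ζ) (z : ℤ × ℤ) {a b : Vert}
    (h : Rel1 ζ a b) : Rel1 ζ (sh N z a) (sh N z b) := by
  rcases h with h | ⟨e, he, ho⟩
  · exact Or.inl (by rw [h])
  · exact Or.inr ⟨_, joins_sh z he, by rw [per_sh hp]; exact ho⟩

theorem mem_dom {k : ℕ} {v : Vert} : v ∈ dom .W .E k ↔
    (-(32 * k : ℤ) ≤ v.1 ∧ v.1 ≤ 32 * k ∧ -(32 * k : ℤ) ≤ v.2 ∧ v.2 ≤ 32 * k) ∨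
    (-(36 * k : ℤ) ≤ v.1 ∧ v.1 ≤ -(28 * k) ∧ -(3 * k : ℤ) ≤ v.2 ∧ v.2 ≤ 3 * k) ∨
    (28 * k ≤ v.1 ∧ v.1 ≤ 36 * k ∧ -(3 * k : ℤ) ≤ v.2 ∧ v.2 ≤ 3 * k) := by
  simp only [dom, Set.mem_union, mem_ball, T, rect, Set.mem_ofPred_eq, Prod.fst_zero, Prod.snd_zero,
    Nat.cast_mul, Nat.cast_ofNat, zero_sub, zero_add]

theorem mem_TW {k : ℕ} {v : Vert} : v ∈ T .W k ↔
    (-(36 * k : ℤ) ≤ v.1 ∧ v.1 ≤ -(28 * k) ∧ -(3 * k : ℤ) ≤ v.2 ∧ v.2 ≤ 3 * k) := Iff.rfl

theorem mem_TE {k : ℕ} {v : Vert} : v ∈ T .E k ↔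
    (28 * (k : ℤ) ≤ v.1 ∧ v.1 ≤ 36 * k ∧ -(3 * k : ℤ) ≤ v.2 ∧ v.2 ≤ 3 * k) := Iff.rfl

theorem mem_Cor {N k : ℕ} {v : Vert} : v ∈ Cor N k ↔
    (28 * (k : ℤ) ≤ v.1 ∧ v.1 ≤ N - 28 * k ∧ -(3 * k : ℤ) ≤ v.2 ∧ v.2 ≤ 3 * k) := Iff.rfl

end Pool.Agent.H26.ST

end

section

/-!
# With the source edge open there is a winding path
-/

open MeasureTheory ProbabilityTheory unitInterval

namespace Pool.Agent.H26.ST

open Pool.Agent.H89.Perc Pool.Agent.H61.NC Pool.Agent.H59.EX

end Pool.Agent.H26.ST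

end

end
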