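import Pool.Agent.H94.BG.H31.PT.M06
import Pool.Agent.H94.BG.H31.PT.M09
import Pool.Agent.H94.BG.H31.PT.M13
import Pool.Agent.H94.BG.M05

/-! The parts of this file: H31.PT.M13_3, H31.PT.M14_5. -/

section

/-! The parts of this file: H89.Perc.WindExcl, H31.EX.WindReg, H89.Perc.TorusDet, H31.EX.BlockRule, H31.EX.BlockReveal, H31.EX.BlockLow, H61.NC.BlockTwo, H29.Sep.A4Low, H29.Sep.OuterSplit, H59.EX.MoveDef, H59.EX.MoveTurn, H59.EX.MoveStr. -/

section

/-!
# An open horizontal winding path excludes a dual vertical winding path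
-/

open MeasureTheory ProbabilityTheory unitInterval

namespace Pool.Agent.H89.Perc

end Pool.Agent.H89.Perc

end

section

/-!
# The winding event is not degenerate in the box-crossing regime
-/

open MeasureTheory ProbabilityTheory unitInterval

namespace Pool.Agent.H31.EX

open Pool.Agent.H89.Perc Pool.Agent.H61.NC

/-- Reduction modulo `N`. -/
def modE (N : ℕ) (e : Edge) : Edge := (e.1 % N, e.2.1 % N, e.2.2)

end Pool.Agent.H31.EX

end

section

/-!
# The exploration determines the winding event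
-/

open MeasureTheory ProbabilityTheory unitInterval

namespace Pool.Agent.H89.Perc

/-! ### The exploration -/

/-! ### The boundary of the fundamental square is connected -/

/-! ### Periodicity -/

end Pool.Agent.H89.Perc

end

section

/-!
# Block OSSS inequality for an exploration that queries single edges

From an exploration rule for single edges we make a rule for blocks: run the edge exploration on
the revealed blocks; when it asks for an edge of a block that is not revealed, reveal this block.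
-/

open MeasureTheory ProbabilityTheory unitInterval

namespace Pool.Agent.H31.EX

open Pool.Agent.H89.Perc

end Pool.Agent.H31.EX

end

section

/-!
# Blocks of the torus: a revealed block has a primal arm and a dual arm
-/

open MeasureTheory ProbabilityTheory unitInterval

namespace Pool.Agent.H31.EX

open Pool.Agent.H89.Perc

end Pool.Agent.H31.EX

end

section

/-!
# Lower bound for the probability that a block is pivotal for the winding event
-/

open MeasureTheory ProbabilityTheory unitInterval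

namespace Pool.Agent.H31.EX

open Pool.Agent.H89.Perc Pool.Agent.H61.NC

/-! ### The sum over the blocks -/

end Pool.Agent.H31.EX

end

section

/-!
# A pivotal block of the torus has two distinct crossing clusters around it
-/

open MeasureTheory ProbabilityTheory unitInterval

namespace Pool.Agent.H61.NC

open Pool.Agent.H89.Perc

end Pool.Agent.H61.NC

end

section

/-!
# Small scales: finite energy
-/

open MeasureTheory ProbabilityTheory unitInterval

namespace Pool.Agent.H29.Sep

open Pool.Agent.H89.Perc Pool.Agent.H61.NC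

theorem a4_anti {q : I} {r r' : ℕ} (h1 : 1 ≤ r) (h : r ≤ r') : a4 q r' ≤ a4 q r :=
  Pr_mono (A4_anti h1 h)

end Pool.Agent.H29.Sep

end

section

/-!
# Outer decomposition of the annulus event into two-terminal events
-/

open MeasureTheory ProbabilityTheory unitInterval

namespace Pool.Agent.H29.Sep

open Pool.Agent.H89.Perc Pool.Agent.H61.NC

end Pool.Agent.H29.Sep

end

section

/-!
# Moves: extension of separated events from scale `k` to scale `4 k`, definitions
-/

open MeasureTheory ProbabilityTheory unitInterval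

namespace Pool.Agent.H59.EX

open Pool.Agent.H89.Perc

end Pool.Agent.H59.EX

end

section

/-!
# The turning corridor of the moves
-/

open MeasureTheory ProbabilityTheory unitInterval

namespace Pool.Agent.H59.EX

open Pool.Agent.H89.Perc
open Pool.Agent.H85.Strict (hv_meet)

end Pool.Agent.H59.EX

end

section

/-!
# The straight corridors of the moves, probabilities
-/

open MeasureTheory ProbabilityTheory unitInterval

namespace Pool.Agent.H59.EX

open Pool.Agent.H89.Perc Pool.Agent.H61.NC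
open Pool.Agent.H85.Strict (hv_meet)

theorem prob_move (c : ℝ) (hc : 0 < c) (K : ℕ) : ∃ c' : ℝ, 0 < c' ∧ ∀ (d : Side) (k n : ℕ)
    (q : I), 4 ≤ k → k ≤ K * n → RSWreg c n q → c' ≤ Pr q (NM d k) ∧ c' ≤ Pr q (NT k) := by
  classical
  obtain ⟨c₀, hc₀, h⟩ := Pool.Agent.H29.Sep.rect_lower c hc (32 * K + 20)
  refine ⟨min (c₀ * c₀) (c₀ * (c₀ * (c₀ * (c₀ * c₀)))), by positivity, ?_⟩
  intro d k n q hk hkn hreg
  have hn : 1 ≤ n := by
    rcases Nat.eq_zero_or_pos n with h0 | h0
    · subst h0
      omega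
    · exact h0
  have hknZ : (k : ℤ) ≤ K * n := by exact_mod_cast hkn
  have hK0 : (0 : ℤ) ≤ K := by positivity
  have hn0 : (0 : ℤ) ≤ n := by positivity
  have hl : ∀ a b y z : ℤ, a ≤ b → y < z → b - a ≤ 20 * (z - y) → z - y ≤ 32 * k →
      c₀ ≤ Pr q {ω | HCross ω a b y z} ∧ c₀ ≤ Pr q {ω | VCross ω y z a b} := by
    intro a b y z h1 h2 h3 h4
    refine h n q hn hreg a b y z h1 h2 ?_ ?_
    · push_cast
      nlinarith only [h3, hK0, h2, mul_nonneg hK0 (show (0 : ℤ) ≤ z - y by omega)]
    · push_cast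
      nlinarith only [hkn, hn, h4, mul_nonneg hK0 hn0]
  have hH : ∀ a b y z : ℤ, a ≤ b → y < z → b - a ≤ 20 * (z - y) → z - y ≤ 32 * k →
      LocalOn (eRect a b y z) {ω | HCross ω a b y z} ∧ Incr {ω | HCross ω a b y z} ∧
        c₀ ≤ Pr q {ω | HCross ω a b y z} :=
    fun a b y z h1 h2 h3 h4 => ⟨ms_local_h _ _ _ _, mt_incr_h, (hl a b y z h1 h2 h3 h4).1⟩
  have hV : ∀ y z a b : ℤ, a ≤ b → y < z → b - a ≤ 20 * (z - y) → z - y ≤ 32 * k →
      LocalOn (eRect y z a b) {ω | VCross ω y z a b} ∧ Incr {ω | VCross ω y z a b} ∧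
        c₀ ≤ Pr q {ω | VCross ω y z a b} :=
    fun y z a b h1 h2 h3 h4 => ⟨ms_local_v _ _ _ _, mt_incr_v, (hl a b y z h1 h2 h3 h4).2⟩
  have p2 : 0 ≤ c₀ * c₀ := by positivity
  have p3 : 0 ≤ c₀ * (c₀ * c₀) := by positivity
  have p4 : 0 ≤ c₀ * (c₀ * (c₀ * c₀)) := by positivity
  constructor
  · refine (min_le_left _ _).trans ?_
    cases d
    · exact (ms_and hc₀.le hc₀.le
        (hH (28 * k) (144 * k) (-(3 * k)) (3 * k) (by omega) (by omega) (by omega) (by omega))
        (hV (112 * k) (144 * k) (-(12 * k)) (12 * k) (by omega) (by omega) (by omega)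
          (by omega))).2.2
    · exact (ms_and hc₀.le hc₀.le
        (hV (-(3 * k)) (3 * k) (28 * k) (144 * k) (by omega) (by omega) (by omega) (by omega))
        (hH (-(12 * k)) (12 * k) (112 * k) (144 * k) (by omega) (by omega) (by omega)
          (by omega))).2.2
    · exact (ms_and hc₀.le hc₀.le
        (hH (-(144 * k)) (-(28 * k)) (-(3 * k)) (3 * k) (by omega) (by omega) (by omega)
          (by omega))
        (hV (-(144 * k)) (-(112 * k)) (-(12 * k)) (12 * k) (by omega) (by omega) (by omega)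
          (by omega))).2.2
    · exact (ms_and hc₀.le hc₀.le
        (hV (-(3 * k)) (3 * k) (-(144 * k)) (-(28 * k)) (by omega) (by omega) (by omega)
          (by omega))
        (hH (-(12 * k)) (12 * k) (-(144 * k)) (-(112 * k)) (by omega) (by omega) (by omega)
          (by omega))).2.2
  · refine (min_le_right _ _).trans ?_
    exact (ms_and hc₀.le p4
      (hH (28 * k) (64 * k) (-(3 * k)) (3 * k) (by omega) (by omega) (by omega) (by omega))
      (ms_and hc₀.le p3
        (hV (60 * k) (64 * k) (-(3 * k)) (64 * k) (by omega) (by omega) (by omega) (by omega))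
        (ms_and hc₀.le p2
          (hH (-(3 * k)) (64 * k) (60 * k) (64 * k) (by omega) (by omega) (by omega) (by omega))
          (ms_and hc₀.le hc₀.le
            (hV (-(3 * k)) (3 * k) (60 * k) (144 * k) (by omega) (by omega) (by omega) (by omega))
            (hH (-(12 * k)) (12 * k) (112 * k) (144 * k) (by omega) (by omega) (by omega)
              (by omega)))))).2.2

end Pool.Agent.H59.EX

end

end

section

/-! The parts of this file: H57.EX.Det2, H57.EX.Det1, H57.EX.Stage2a, H57.EX.StdDet, H57.EX.StdBad, H57.EX.Near, H59.EX.SealProb, H59.EX.St2, H83.EX.CorrE, H26.ST.Defs, H26.ST.Cells, H26.ST.Open. -/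

section

/-!
# The sealed cluster
-/

open MeasureTheory ProbabilityTheory unitInterval

namespace Pool.Agent.H57.EX

open Pool.Agent.H89.Perc Pool.Agent.H61.NC Pool.Agent.H29.Sep

/-- The hypotheses of this file. -/
structure H2 (Z : Dat) (s s' : ℕ) (γ : ℕ → Vert) (n : ℕ) (b b' : Vert) (V : Finset Vert)
    (ω : Config) : Prop where
  hs' : 1 ≤ s'
  hss : 40 * s' ≤ s
  hsm : 100 * s ≤ Z.m
  hb : b ∈ sphere 0 (4 * Z.m)
  hb' : b' ∈ sphere 0 (16 * Z.m)
  hg : ZGood Z.m s γ n b b'
  hV : ∀ u ∈ ball 0 (20 * Z.m), ∃ v ∈ V, u ∈ ball v s'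
  h1 : ω ∈ E1 Z s b b' (GG Z s γ n)
  h2 : ω ∈ NB Z (38 * s') (GG Z s γ n)
  h3 : ω ∈ Seal Z s' V (GG Z s γ n)

end Pool.Agent.H57.EX

end

section

/-!
# First landing
-/

open MeasureTheory ProbabilityTheory unitInterval

namespace Pool.Agent.H57.EX

open Pool.Agent.H89.Perc Pool.Agent.H61.NC Pool.Agent.H29.Sep

end Pool.Agent.H57.EX

end

section

/-!
# Sealing of the first cluster
-/

open MeasureTheory ProbabilityTheory unitInterval

namespace Pool.Agent.H57.EX

open Pool.Agent.H89.Perc Pool.Agent.H61.NC Pool.Agent.H29.Sep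

end Pool.Agent.H57.EX

end

section

/-!
# The standard data: deterministic facts
-/

open MeasureTheory ProbabilityTheory unitInterval

namespace Pool.Agent.H57.EX

open Pool.Agent.H89.Perc Pool.Agent.H61.NC Pool.Agent.H29.Sep

end Pool.Agent.H57.EX

end

section

/-!
# The standard data: probability of the bad events
-/

open MeasureTheory ProbabilityTheory unitInterval

namespace Pool.Agent.H57.EX

open Pool.Agent.H89.Perc Pool.Agent.H61.NC Pool.Agent.H29.Sep

end Pool.Agent.H57.EX

end

section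

/-!
# Near clusters give two clusters of a local domain
-/

open MeasureTheory ProbabilityTheory unitInterval

namespace Pool.Agent.H57.EX

open Pool.Agent.H89.Perc Pool.Agent.H61.NC Pool.Agent.H29.Sep

end Pool.Agent.H57.EX

end

section

/-!
# Probability of seals

`Seal G ρ t` contains the intersection over `g ∈ G` of the decreasing events no open path of the
full configuration from `ball g ρ` to `sphere g (3 ρ)` (close more edges), each of probability at
least `c'` by `noarm_lower`; use `fkg_decr_many`.  The cardinality of `G` is bounded by `M`.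
-/

open MeasureTheory ProbabilityTheory unitInterval

namespace Pool.Agent.H59.EX

open Pool.Agent.H89.Perc Pool.Agent.H61.NC

/-- A step out of a ball ends in the ball of radius one larger. -/
private theorem step_ball_succ {ω : Config} {S : Set Vert} {g a b : Vert} {r : ℕ}
    (ha : a ∈ ball g r) (h : Step ω S a b) : b ∈ ball g (r + 1) := by
  have h1 := h.fst_le
  have h2 := h.snd_le
  rw [mem_ball] at ha ⊢
  push_cast
  omega

/-- `Seal` is a local event. -/
theorem localOn_seal (G : Finset Vert) (ρ : ℕ) : ∃ Λ : Finset Edge, ∀ t : Set Edge,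
    LocalOn Λ (Seal G ρ t) := by
  classical
  refine ⟨G.biUnion fun g => bE g (3 * ρ + 1), fun t ω ω' h hω g hg u hu v hv hc => ?_⟩
  have hu' : u ∈ ball g (3 * ρ) := by
    rw [mem_ball] at hu ⊢
    push_cast
    omega
  obtain ⟨w, w', h1, h2, h3, -⟩ := hc.exists_exit hu' hv
  have hw : w ∈ ball g (3 * ρ) := h1.mem_right.2
  have hw1 : w ∈ ball g (3 * ρ + 1) := by
    rw [mem_ball] at hw ⊢
    push_cast at hw ⊢
    omega
  have hw' : w' ∈ ball g (3 * ρ + 1) := step_ball_succ hw h2
  have hsub : Set.univ ∩ ball g (3 * ρ) ⊆ ball g (3 * ρ + 1) := by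
    rintro z ⟨-, hz⟩
    rw [mem_ball] at hz ⊢
    push_cast at hz ⊢
    omega
  have hc2 : Conn (closeS t ω') (ball g (3 * ρ + 1)) u w' :=
    (h1.mono_set hsub).tail ⟨hw1, hw', h2.2.2⟩
  have hc3 : Conn (closeS t ω) (ball g (3 * ρ + 1)) u w' := by
    refine Conn.congr (fun e he he' => ?_) hc2
    have := h e (Finset.mem_biUnion.2 ⟨g, hg, mem_bE.2 ⟨he, he'⟩⟩)
    simp only [closeS, this]
  exact hω g hg u hu w' h3 (hc3.mono_set (Set.subset_univ _))

/-- The intersection of the no-arm events is contained in the seal. -/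
private theorem noarm_subset_seal (G : Finset Vert) (ρ : ℕ) (t : Set Edge) {ω : Config}
    (h : ∀ g ∈ G, ω ∈ (ArmBox g ρ (3 * ρ))ᶜ) : ω ∈ Seal G ρ t := by
  intro g hg u hu v hv hc
  have hu' : u ∈ ball g (3 * ρ) := by
    rw [mem_ball] at hu ⊢
    push_cast
    omega
  have hc' : Conn ω Set.univ u v := by
    refine hc.mono le_rfl fun e he => ?_
    simp only [closeS, Bool.and_eq_true] at he
    exact he.1
  obtain ⟨x, hx, hcx⟩ := hc'.to_sphere (v := g) (r := 3 * ρ) hu' (Or.inl hv)
  exact h g hg ⟨u, hu, x, hx, hcx.mono_set Set.inter_subset_right⟩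

/-- The same for a pulled back configuration, if `π` is injective on the edges of every
`ball g (3 ρ)`. -/
theorem seal_lower_pb (c : ℝ) (hc : 0 < c) (K M : ℕ) : ∃ c' : ℝ, 0 < c' ∧ ∀ (n ρ : ℕ) (q : I)
    (G : Finset Vert) (t : Set Edge) (π : Edge → Edge), 1 ≤ n → RSWreg c n q → 1 ≤ ρ →
      ρ ≤ K * n → G.card ≤ M → (∀ g ∈ G, Set.InjOn π (inE (ball g (3 * ρ)))) →
      c' ≤ Pr q {ω | pb π ω ∈ Seal G ρ t} := by
  classical
  obtain ⟨c₀, hc₀, h0⟩ := Pool.Agent.H29.Sep.noarm_lower c hc K
  refine ⟨(min c₀ 1) ^ M, pow_pos (lt_min hc₀ one_pos) _, ?_⟩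
  intro n ρ q G t π hn hr hρ hρK hG hinj
  have hm0 : 0 ≤ min c₀ 1 := (lt_min hc₀ one_pos).le
  have h1 : (min c₀ 1) ^ M ≤ (min c₀ 1) ^ G.card :=
    pow_le_pow_of_le_one hm0 (min_le_right _ _) hG
  have hloc : ∀ g ∈ G, LocalOn ((bE g (3 * ρ)).image π)
      {ω | pb π ω ∈ (ArmBox g ρ (3 * ρ))ᶜ} := by
    intro g _ ω ω' h hω
    exact sealprob_localOn_arm g ρ (3 * ρ) _ _
      (fun e he => h _ (Finset.mem_image_of_mem π he)) hω
  have hincr : ∀ g ∈ G, Incr ({ω | pb π ω ∈ (ArmBox g ρ (3 * ρ))ᶜ} : Set Config)ᶜ := by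
    intro g _ ω ω' h hω hω'
    have h2 : pb π ω ∈ ArmBox g ρ (3 * ρ) := by
      by_contra hcon
      exact hω hcon
    exact hω' (incr_armBox g ρ (3 * ρ) _ _ (fun e he => h _ he) h2)
  have hP : ∀ g ∈ G, min c₀ 1 ≤ Pr q {ω | pb π ω ∈ (ArmBox g ρ (3 * ρ))ᶜ} := by
    intro g hg
    have h2 : Pr q {ω | (fun e => ω (π e)) ∈ (ArmBox g ρ (3 * ρ))ᶜ} =
        Pr q (ArmBox g ρ (3 * ρ))ᶜ := by
      refine Pr_comp (sealprob_localOn_arm g ρ (3 * ρ)) ?_
      intro a ha b hb hab
      exact hinj g hg (mem_bE.1 (Finset.mem_coe.1 ha)) (mem_bE.1 (Finset.mem_coe.1 hb)) hab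
    have h3 := h0 n q hn hr g ρ hρ hρK
    rw [compl_armBox_eq] at h3
    rw [← h2] at h3
    exact (min_le_left _ _).trans h3
  have h4 := Pool.Agent.H29.Sep.fkg_decr_many (p := q) G
    (fun g => {ω | pb π ω ∈ (ArmBox g ρ (3 * ρ))ᶜ}) (fun g => (bE g (3 * ρ)).image π)
    hm0 hloc hincr hP
  refine (h1.trans h4).trans (Pr_mono ?_)
  intro ω hω
  simp only [Set.mem_iInter] at hω
  exact noarm_subset_seal G ρ t fun g hg => hω g hg

theorem seal_lower (c : ℝ) (hc : 0 < c) (K M : ℕ) : ∃ c' : ℝ, 0 < c' ∧ ∀ (n ρ : ℕ) (q : I)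
    (G : Finset Vert) (t : Set Edge), 1 ≤ n → RSWreg c n q → 1 ≤ ρ → ρ ≤ K * n → G.card ≤ M →
      c' ≤ Pr q (Seal G ρ t) := by
  obtain ⟨c', hc', h⟩ := seal_lower_pb c hc K M
  refine ⟨c', hc', fun n ρ q G t hn hr hρ hρK hG => ?_⟩
  exact h n ρ q G t id hn hr hρ hρK hG fun g _ => Set.injOn_id _

end Pool.Agent.H59.EX

end

section

/-!
# Outward separation: stage 2
-/

open MeasureTheory ProbabilityTheory unitInterval

namespace Pool.Agent.H59.EX

open Pool.Agent.H89.Perc Pool.Agent.H61.NC

end Pool.Agent.H59.EX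

end

section

/-!
# The corridor lemma with an arbitrary finite edge set
-/

open MeasureTheory ProbabilityTheory unitInterval

namespace Pool.Agent.H59.EX

open Pool.Agent.H89.Perc

end Pool.Agent.H59.EX

end

section

/-!
# Separated four arms on the torus: definitions

The torus of side `N` is `ℤ²` with the periodic configuration `per N ω = pb (modE N) ω`.  The source
edge is `(0, 0, d)`; the first point `(0, 0)` has its mouth in the west, the second point in the
east.  The corridor is the horizontal strip `[28 k, N - 28 k] × [-3 k, 3 k]` from the east target to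
the translate by `(N, 0)` of the west target.
-/

open MeasureTheory ProbabilityTheory unitInterval

namespace Pool.Agent.H26.ST

open Pool.Agent.H89.Perc Pool.Agent.H61.NC Pool.Agent.H59.EX

/-- Seals and a closed vertical strip. -/
def HT (N k ρ K : ℕ) (S : Set Vert) : Set Config :=
  Seal (grid ρ K) ρ (detE (modE N) .W .E k (EC N k) S) ∩ NoX N k

end Pool.Agent.H26.ST

end

section

/-!
# The sausages `Y ∪ corridor ∪ (X + (N, 0))` and their translates are far apart
-/

open MeasureTheory ProbabilityTheory unitInterval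

namespace Pool.Agent.H26.ST

open Pool.Agent.H89.Perc Pool.Agent.H61.NC Pool.Agent.H59.EX

theorem mulN (N : ℕ) (z : ℤ) : (z ≤ -1 ∧ z * N ≤ -N) ∨ (z = 0 ∧ z * N = 0) ∨
    (z = 1 ∧ z * N = N) ∨ (2 ≤ z ∧ 2 * N ≤ z * N) := by
  have h0 : (0 : ℤ) ≤ N := Int.natCast_nonneg N
  rcases lt_trichotomy z 0 with h | h | h
  · left
    exact ⟨by omega, by nlinarith⟩
  · right; left
    exact ⟨h, by rw [h]; ring⟩
  · rcases eq_or_lt_of_le (show 1 ≤ z by omega) with h1 | h1
    · right; right; left
      exact ⟨h1.symm, by rw [← h1]; ring⟩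
    · right; right; right
      exact ⟨by omega, by nlinarith⟩

variable {N k : ℕ} {ζ : Config} {X Y : Set Vert} {a b : Vert} {i j : ℤ × ℤ}

theorem TD.xy (h : TD N k ζ X Y) (ha : a ∈ X) (hb : b ∈ Y) (hr : Rel1 ζ a b) : False := by
  rcases hr with hr | ⟨e, he, ho⟩
  · exact h.disj a ha (hr ▸ hb)
  · exact h.disj b (h.clX a ha b (h.Ys hb) e he ho) hb

/-- Two translates of the domain which are close are equal. -/
theorem TD.domdom (h : TD N k ζ X Y) (ha : sh N i a ∈ dom .W .E k) (hb : sh N j b ∈ dom .W .E k)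
    (hr : Rel1 ζ a b) : i = j := by
  have hn := hr.near
  have hk := h.hk
  have hN : (128 * k : ℤ) ≤ N := by exact_mod_cast h.hN
  rw [mem_dom] at ha hb
  simp only [sh] at ha hb
  have e1 := mulN N (i.1 - j.1)
  have e2 := mulN N (i.2 - j.2)
  rw [sub_mul] at e1 e2
  obtain ⟨i1, i2⟩ := i
  obtain ⟨j1, j2⟩ := j
  simp only at *
  rw [Prod.mk.injEq]
  omega

theorem TD.cor (h : TD N k ζ X Y) (ha : sh N i a ∈ Cor N k) (hb : sh N j b ∈ Cor N k)
    (hr : Rel1 ζ a b) : i = j := by
  have hn := hr.near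
  have hk := h.hk
  have hN : (128 * k : ℤ) ≤ N := by exact_mod_cast h.hN
  rw [mem_Cor] at ha hb
  simp only [sh] at ha hb
  have e1 := mulN N (i.1 - j.1)
  have e2 := mulN N (i.2 - j.2)
  rw [sub_mul] at e1 e2
  obtain ⟨i1, i2⟩ := i
  obtain ⟨j1, j2⟩ := j
  simp only at *
  rw [Prod.mk.injEq]
  omega

theorem TD.XY (h : TD N k ζ X Y) (ha : sh N i a ∈ X) (hb : sh N j b ∈ Y)
    (hr : Rel1 ζ a b) : False := by
  have h1 := h.domdom (h.Xs ha) (h.Ys hb) hr
  subst h1
  exact h.xy ha hb (hr.sh h.per i)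

theorem TD.YC (h : TD N k ζ X Y) (ha : sh N i a ∈ Y) (hb : sh N j b ∈ Cor N k)
    (hr : Rel1 ζ a b) : i = j := by
  have hr' := hr.sh h.per i
  have hn := hr'.near
  have hk := h.hk
  have hN : (128 * k : ℤ) ≤ N := by exact_mod_cast h.hN
  have hd := h.Ys ha
  have hTW : sh N i a ∉ T .W k := fun h1 => h.disj _ (h.TX h1) ha
  have hbX : sh N i b ∉ T .W k := fun h1 => h.xy (h.TX h1) ha hr'.symm
  rw [mem_dom] at hd
  rw [mem_TW] at hTW hbX
  rw [mem_Cor] at hb
  have e1 := mulN N (i.1 - j.1)
  have e2 := mulN N (i.2 - j.2)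
  rw [sub_mul] at e1 e2
  simp only [sh] at *
  obtain ⟨i1, i2⟩ := i
  obtain ⟨j1, j2⟩ := j
  simp only at *
  rw [Prod.mk.injEq]
  omega

theorem TD.XC (h : TD N k ζ X Y) (ha : sh N i a ∈ X) (hb : sh N j b ∈ Cor N k)
    (hr : Rel1 ζ a b) : i = (j.1 + 1, j.2) := by
  have hr' := hr.sh h.per i
  have hn := hr'.near
  have hk := h.hk
  have hN : (128 * k : ℤ) ≤ N := by exact_mod_cast h.hN
  have hd := h.Xs ha
  have hTE : sh N i a ∉ T .E k := fun h1 => h.disj _ ha (h.TY h1)
  have hbY : sh N i b ∉ T .E k := fun h1 => h.xy ha (h.TY h1) hr'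
  rw [mem_dom] at hd
  rw [mem_TE] at hTE hbY
  rw [mem_Cor] at hb
  have e1 := mulN N (i.1 - j.1)
  have e2 := mulN N (i.2 - j.2)
  rw [sub_mul] at e1 e2
  simp only [sh] at *
  obtain ⟨i1, i2⟩ := i
  obtain ⟨j1, j2⟩ := j
  simp only at *
  rw [Prod.mk.injEq]
  omega

/-- Different sausages are neither joined by an open edge nor do they intersect. -/
theorem TD.sep (h : TD N k ζ X Y) (ha : In N k X Y i a) (hb : In N k X Y j b)
    (hr : Rel1 ζ a b) : i = j := by
  rcases ha with ha | ha | ha <;> rcases hb with hb | hb | hb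
  · exact h.domdom (h.Ys ha) (h.Ys hb) hr
  · exact h.YC ha hb hr
  · exact (h.XY hb ha hr.symm).elim
  · exact (h.YC hb ha hr.symm).symm
  · exact h.cor ha hb hr
  · have h1 := h.XC hb ha hr.symm
    rw [Prod.mk.injEq] at h1
    exact (Prod.ext (by omega) h1.2).symm
  · exact (h.XY ha hb hr).elim
  · have h1 := h.XC ha hb hr
    rw [Prod.mk.injEq] at h1
    exact Prod.ext (by omega) h1.2
  · have h1 := h.domdom (h.Xs ha) (h.Xs hb) hr
    rw [Prod.mk.injEq] at h1
    exact Prod.ext (by omega) h1.2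

/-- Open edges leave the sausage near the corridor. -/
theorem TD.exit (h : TD N k ζ X Y) (ha : In N k X Y (0, 0) a) (hb : ¬ In N k X Y (0, 0) b)
    {e : Edge} (he : Joins e a b) (ho : ζ e = true) :
    28 * (k : ℤ) ≤ a.1 ∧ a.1 ≤ N - 28 * k ∧ -(4 * k : ℤ) ≤ a.2 ∧ a.2 ≤ 4 * k := by
  have hn := near_of_joins he
  have hk := h.hk
  have hN : (128 * k : ℤ) ≤ N := by exact_mod_cast h.hN
  have s0 : ∀ v : Vert, sh N (0, 0) v = v := fun v => by simp [sh]
  unfold In at ha hb
  rw [s0] at ha hb
  push Not at hb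
  have hr : Rel1 ζ a b := Or.inr ⟨e, he, ho⟩
  rcases ha with ha | ha | ha
  · have hd := h.Ys ha
    have hbd : b ∉ dom .W .E k := fun h1 => hb.1 (h.clY a ha b h1 e he ho)
    have hTW : a ∉ T .W k := fun h1 => h.disj _ (h.TX h1) ha
    by_cases hTE : a ∈ T .E k
    · rw [mem_TE] at hTE; omega
    have hab : a ∈ ball 0 (32 * k) := by
      rcases hd with hd | hd | hd
      · exact hd
      · exact absurd hd hTW
      · exact absurd hd hTE
    have hbb : b ∉ ball 0 (32 * k) := fun h1 => hbd (Or.inl h1)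
    have := h.mY a ha (mem_sphere_of_joins he hab hbb)
    simp only [Mouth, rect, Set.mem_ofPred_eq] at this
    omega
  · rw [mem_Cor] at ha
    omega
  · have he' := joins_sh (N := N) (0 + 1, 0) he
    have ho' : ζ (shiftE (-(((0 : ℤ) + 1, (0 : ℤ)).1 * N), -(((0 : ℤ) + 1, (0 : ℤ)).2 * N)) e) = true := by
      rw [per_sh h.per]; exact ho
    have hd := h.Xs ha
    have hbd : sh N (0 + 1, 0) b ∉ dom .W .E k := fun h1 => hb.2.2 (h.clX _ ha _ h1 _ he' ho')
    have hTE : sh N (0 + 1, 0) a ∉ T .E k := fun h1 => h.disj _ ha (h.TY h1)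
    by_cases hTW : sh N (0 + 1, 0) a ∈ T .W k
    · rw [mem_TW] at hTW
      simp only [sh] at hTW
      omega
    have hab : sh N (0 + 1, 0) a ∈ ball 0 (32 * k) := by
      rcases hd with hd | hd | hd
      · exact hd
      · exact absurd hd hTW
      · exact absurd hd hTE
    have hbb : sh N (0 + 1, 0) b ∉ ball 0 (32 * k) := fun h1 => hbd (Or.inl h1)
    have := h.mX _ ha (mem_sphere_of_joins he' hab hbb)
    simp only [Mouth, rect, Set.mem_ofPred_eq, sh] at this
    omega

end Pool.Agent.H26.ST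

end

section

/-!
# With the source edge open there is a winding path
-/

open MeasureTheory ProbabilityTheory unitInterval

namespace Pool.Agent.H26.ST

open Pool.Agent.H89.Perc Pool.Agent.H61.NC Pool.Agent.H59.EX

end Pool.Agent.H26.ST

end

end
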