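import Pool.Agent.H94.BG.H31.PT.M13
import Pool.Agent.H94.BG.M02

/-! The parts of this file: H31.PT.M05_1, H31.PT.M13_4. -/

section

/-! The parts of this file: Perc.BK, H29.Sep.CircDef, H61.NC.Calc, H57.EX.GeoQ. -/

section

/-!
# The van den Berg–Kesten inequality for increasing events
-/

namespace Pool.Agent.Perc

open Finset

variable {ι : Type*} [DecidableEq ι] {p : ℝ} {F S : Finset ι}

end Pool.Agent.Perc

end

section

/-!
# Open circuits made of four strip crossings: definitions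
-/

open MeasureTheory ProbabilityTheory unitInterval

namespace Pool.Agent.H29.Sep

open Pool.Agent.H89.Perc

theorem mem_eCirc {v : Vert} {s : ℕ} {e : Edge} :
    e ∈ eCirc v s ↔ src e ∈ ann v s (3 * s) ∧ tgt e ∈ ann v s (3 * s) := by
  have hball : ∀ w : Vert, w ∈ ball v (3 * s) →
      w ∈ rect (v.1 - 3 * s) (v.1 + 3 * s) (v.2 - 3 * s) (v.2 + 3 * s) := by
    intro w h
    rw [mem_ball] at h
    push_cast at h
    exact h
  unfold eCirc
  rw [@Finset.mem_filter _ _ (Classical.decPred _)]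
  refine ⟨fun h => h.2, fun h => ⟨?_, h⟩⟩
  rw [mem_eRect]
  exact hball _ h.1.1

/-- The top strip is contained in the annulus. -/
theorem circDef_top (v : Vert) (s : ℕ) :
    rect (v.1 - 3 * s) (v.1 + 3 * s) (v.2 + s + 1) (v.2 + 3 * s) ⊆ ann v s (3 * s) := by
  rintro w ⟨h1, h2, h3, h4⟩
  refine ⟨?_, fun h => ?_⟩
  · rw [mem_ball]
    push_cast
    exact ⟨h1, h2, by omega, h4⟩
  · rw [mem_ball] at h
    omega

/-- The bottom strip is contained in the annulus. -/
theorem circDef_bot (v : Vert) (s : ℕ) :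
    rect (v.1 - 3 * s) (v.1 + 3 * s) (v.2 - 3 * s) (v.2 - s - 1) ⊆ ann v s (3 * s) := by
  rintro w ⟨h1, h2, h3, h4⟩
  refine ⟨?_, fun h => ?_⟩
  · rw [mem_ball]
    push_cast
    exact ⟨h1, h2, h3, by omega⟩
  · rw [mem_ball] at h
    omega

/-- The right strip is contained in the annulus. -/
theorem circDef_right (v : Vert) (s : ℕ) :
    rect (v.1 + s + 1) (v.1 + 3 * s) (v.2 - 3 * s) (v.2 + 3 * s) ⊆ ann v s (3 * s) := by
  rintro w ⟨h1, h2, h3, h4⟩
  refine ⟨?_, fun h => ?_⟩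
  · rw [mem_ball]
    push_cast
    exact ⟨by omega, h2, h3, h4⟩
  · rw [mem_ball] at h
    omega

/-- The left strip is contained in the annulus. -/
theorem circDef_left (v : Vert) (s : ℕ) :
    rect (v.1 - 3 * s) (v.1 - s - 1) (v.2 - 3 * s) (v.2 + 3 * s) ⊆ ann v s (3 * s) := by
  rintro w ⟨h1, h2, h3, h4⟩
  refine ⟨?_, fun h => ?_⟩
  · rw [mem_ball]
    push_cast
    exact ⟨h1, by omega, h3, h4⟩
  · rw [mem_ball] at h
    omega

theorem localOn_circ (v : Vert) (s : ℕ) : LocalOn (eCirc v s) (Circ v s) := by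
  intro ω ω' hω h
  have key : ∀ (S : Set Vert), S ⊆ ann v s (3 * s) → ∀ u u' : Vert, Conn ω S u u' →
      Conn ω' S u u' := by
    intro S hS u u' hc
    exact hc.congr fun e h1 h2 => hω e (mem_eCirc.2 ⟨hS h1, hS h2⟩)
  obtain ⟨⟨u1, v1, a1, b1, c1⟩, ⟨u2, v2, a2, b2, c2⟩, ⟨u3, v3, a3, b3, c3⟩,
    ⟨u4, v4, a4, b4, c4⟩⟩ := h
  exact ⟨⟨u1, v1, a1, b1, key _ (circDef_top v s) _ _ c1⟩,
    ⟨u2, v2, a2, b2, key _ (circDef_bot v s) _ _ c2⟩,
    ⟨u3, v3, a3, b3, key _ (circDef_right v s) _ _ c3⟩,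
    ⟨u4, v4, a4, b4, key _ (circDef_left v s) _ _ c4⟩⟩

theorem incr_circ (v : Vert) (s : ℕ) : Incr (Circ v s) := by
  intro ω ω' hω h
  obtain ⟨⟨u1, v1, a1, b1, c1⟩, ⟨u2, v2, a2, b2, c2⟩, ⟨u3, v3, a3, b3, c3⟩,
    ⟨u4, v4, a4, b4, c4⟩⟩ := h
  exact ⟨⟨u1, v1, a1, b1, c1.mono subset_rfl hω⟩,
    ⟨u2, v2, a2, b2, c2.mono subset_rfl hω⟩,
    ⟨u3, v3, a3, b3, c3.mono subset_rfl hω⟩,
    ⟨u4, v4, a4, b4, c4.mono subset_rfl hω⟩⟩

end Pool.Agent.H29.Sep

end

section

/-!
# Two calculus lemmas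
-/

namespace Pool.Agent.H61.NC

theorem Calc_aux {F F' G G' : ℝ → ℝ} {a b K : ℝ} (hab : a ≤ b)
    (hF : ∀ x ∈ Set.Icc a b, HasDerivAt F (F' x) x)
    (hG : ∀ x ∈ Set.Icc a b, HasDerivAt G (G' x) x)
    (hpos : ∀ x ∈ Set.Icc a b, 0 < G x)
    (hK : ∀ x ∈ Set.Icc a b, G' x ≤ K * G x * F' x) :
    Real.log (G b) - K * F b ≤ Real.log (G a) - K * F a := by
  have hd : ∀ x ∈ Set.Icc a b, HasDerivAt (fun x => Real.log (G x) - K * F x)
      (G' x / G x - K * F' x) x := by
    intro x hx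
    exact ((hG x hx).log (hpos x hx).ne').sub ((hF x hx).const_mul K)
  have hanti : AntitoneOn (fun x => Real.log (G x) - K * F x) (Set.Icc a b) := by
    refine antitoneOn_of_deriv_nonpos (convex_Icc a b) ?_ ?_ ?_
    · exact fun x hx => (hd x hx).continuousAt.continuousWithinAt
    · exact fun x hx => (hd x (interior_subset hx)).differentiableAt.differentiableWithinAt
    · intro x hx
      have hx' := interior_subset hx
      rw [(hd x hx').deriv]
      have h1 := hK x hx'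
      have h2 := hpos x hx'
      rw [sub_nonpos, div_le_iff₀ h2]
      linarith
  exact hanti ⟨le_rfl, hab⟩ ⟨hab, le_rfl⟩ hab

/-- If `|G'| ≤ K G F'`, `G > 0` and `0 ≤ F ≤ 1` on `[a, b]`, then `G` is constant on `[a, b]` up
to the factor `exp K`. -/
theorem Calc_log_stability {F F' G G' : ℝ → ℝ} {a b K : ℝ} (hab : a ≤ b) (hK0 : 0 ≤ K)
    (hF : ∀ x ∈ Set.Icc a b, HasDerivAt F (F' x) x)
    (hG : ∀ x ∈ Set.Icc a b, HasDerivAt G (G' x) x)
    (hpos : ∀ x ∈ Set.Icc a b, 0 < G x)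
    (hK : ∀ x ∈ Set.Icc a b, |G' x| ≤ K * G x * F' x)
    (h01 : ∀ x ∈ Set.Icc a b, 0 ≤ F x ∧ F x ≤ 1) :
    G b ≤ Real.exp K * G a ∧ G a ≤ Real.exp K * G b := by
  have ha : a ∈ Set.Icc a b := ⟨le_rfl, hab⟩
  have hb : b ∈ Set.Icc a b := ⟨hab, le_rfl⟩
  have hFa := h01 a ha
  have hFb := h01 b hb
  have h1 := Calc_aux hab hF hG hpos (fun x hx => (le_abs_self _).trans (hK x hx))
  have h3 : Real.log (G b) ≤ Real.log (G a) + K := by nlinarith
  have h4 : Real.log (G a) ≤ Real.log (G b) + K := by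
    have h5 := Calc_aux (K := K) hab (F := F) (F' := F') (G := fun x => (G x)⁻¹)
      (G' := fun x => -G' x / G x ^ 2) hF (fun x hx => (hG x hx).inv (hpos x hx).ne')
      (fun x hx => inv_pos.2 (hpos x hx)) (fun x hx => by
        have h6 := hK x hx
        have h7 := hpos x hx
        have h8 : -G' x ≤ K * G x * F' x := (neg_le_abs _).trans h6
        rw [div_le_iff₀ (by positivity)]
        have h9 : K * (G x)⁻¹ * F' x * G x ^ 2 = K * G x * F' x := by
          field_simp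
        rw [h9]
        exact h8)
    simp only [Real.log_inv] at h5
    nlinarith
  constructor
  · have h5 := Real.exp_le_exp.2 h3
    rwa [Real.exp_add, Real.exp_log (hpos b hb), Real.exp_log (hpos a ha), mul_comm] at h5
  · have h5 := Real.exp_le_exp.2 h4
    rwa [Real.exp_add, Real.exp_log (hpos b hb), Real.exp_log (hpos a ha), mul_comm] at h5

/-- If `|F''| ≤ K F' ^ 2`, `F' > 0` and `0 ≤ F ≤ 1` on `[a, b]`, then `F'` is constant on `[a, b]` up
to the factor `exp K`. -/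
theorem stability {F F' F'' : ℝ → ℝ} {a b K : ℝ} (hab : a ≤ b) (hK0 : 0 ≤ K)
    (hF : ∀ x ∈ Set.Icc a b, HasDerivAt F (F' x) x)
    (hF' : ∀ x ∈ Set.Icc a b, HasDerivAt F' (F'' x) x)
    (hpos : ∀ x ∈ Set.Icc a b, 0 < F' x)
    (hK : ∀ x ∈ Set.Icc a b, |F'' x| ≤ K * F' x ^ 2)
    (h01 : ∀ x ∈ Set.Icc a b, 0 ≤ F x ∧ F x ≤ 1) :
    F' b ≤ Real.exp K * F' a ∧ F' a ≤ Real.exp K * F' b := by
  refine Calc_log_stability hab hK0 hF hF' hpos (fun x hx => ?_) h01
  have := hK x hx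
  rw [pow_two, ← mul_assoc] at this
  exact this

/-- If `|G'| ≤ K G F'`, `G > 0` and `0 ≤ F ≤ 1` on `[a, b]`, then `G` is constant on `[a, b]` up
to the factor `exp K`. -/
theorem log_stability {F F' G G' : ℝ → ℝ} {a b K : ℝ} (hab : a ≤ b) (hK0 : 0 ≤ K)
    (hF : ∀ x ∈ Set.Icc a b, HasDerivAt F (F' x) x)
    (hG : ∀ x ∈ Set.Icc a b, HasDerivAt G (G' x) x)
    (hpos : ∀ x ∈ Set.Icc a b, 0 < G x)
    (hK : ∀ x ∈ Set.Icc a b, |G' x| ≤ K * G x * F' x)
    (h01 : ∀ x ∈ Set.Icc a b, 0 ≤ F x ∧ F x ≤ 1) :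
    G b ≤ Real.exp K * G a ∧ G a ≤ Real.exp K * G b :=
  Calc_log_stability hab hK0 hF hG hpos hK h01

end Pool.Agent.H61.NC

end

section

/-!
# The boundary of the unit square of the sup norm, parametrised by arc length
-/

namespace Pool.Agent.H57.EX

/-- The boundary of the unit square by arc length, on `[0, 8)`. -/
noncomputable def qz (τ : ℝ) : ℝ × ℝ :=
  if τ ≤ 1 then (1, τ) else if τ ≤ 3 then (2 - τ, 1) else if τ ≤ 5 then (-1, 4 - τ)
  else if τ ≤ 7 then (τ - 6, -1) else (1, τ - 8)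

/-- The boundary of the unit square by arc length, with period `8`. -/
noncomputable def qq (t : ℝ) : ℝ × ℝ := qz (t - 8 * ⌊t / 8⌋)

private lemma qz_cases {τ : ℝ} (_h0 : 0 ≤ τ) (_h1 : τ < 8) :
    ((qz τ).1 = 1 ∧ (qz τ).2 = τ ∧ τ ≤ 1) ∨
    ((qz τ).1 = 2 - τ ∧ (qz τ).2 = 1 ∧ 1 ≤ τ ∧ τ ≤ 3) ∨
    ((qz τ).1 = -1 ∧ (qz τ).2 = 4 - τ ∧ 3 ≤ τ ∧ τ ≤ 5) ∨
    ((qz τ).1 = τ - 6 ∧ (qz τ).2 = -1 ∧ 5 ≤ τ ∧ τ ≤ 7) ∨
    ((qz τ).1 = 1 ∧ (qz τ).2 = τ - 8 ∧ 7 ≤ τ) := by
  unfold qz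
  split_ifs with h2 h3 h4 h5
  · exact Or.inl ⟨rfl, rfl, h2⟩
  · exact Or.inr (Or.inl ⟨rfl, rfl, (not_le.1 h2).le, h3⟩)
  · exact Or.inr (Or.inr (Or.inl ⟨rfl, rfl, (not_le.1 h3).le, h4⟩))
  · exact Or.inr (Or.inr (Or.inr (Or.inl ⟨rfl, rfl, (not_le.1 h4).le, h5⟩)))
  · exact Or.inr (Or.inr (Or.inr (Or.inr ⟨rfl, rfl, (not_le.1 h5).le⟩)))

private lemma qq_fract (t : ℝ) : 0 ≤ t - 8 * ⌊t / 8⌋ ∧ t - 8 * ⌊t / 8⌋ < 8 := by
  have h1 := Int.floor_le (t / 8)
  have h2 := Int.lt_floor_add_one (t / 8)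
  constructor <;> linarith

private lemma qq_add_mul (t : ℝ) (i : ℤ) : qq (t + 8 * i) = qq t := by
  unfold qq
  have h : (t + 8 * i) / 8 = t / 8 + i := by ring
  rw [h, Int.floor_add_intCast]
  congr 1
  push_cast
  ring

private lemma qq_of_mem {τ : ℝ} (h0 : 0 ≤ τ) (h1 : τ < 8) : qq τ = qz τ := by
  unfold qq
  have h : ⌊τ / 8⌋ = 0 := by
    rw [Int.floor_eq_zero_iff]
    constructor <;> linarith
  rw [h]
  simp

private lemma qq_reduce (t : ℝ) : ∃ (i : ℤ) (τ : ℝ), 0 ≤ τ ∧ τ < 8 ∧ t = τ + 8 * i ∧ qq t = qz τ := by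
  obtain ⟨h1, h2⟩ := qq_fract t
  exact ⟨⌊t / 8⌋, t - 8 * ⌊t / 8⌋, h1, h2, by ring, rfl⟩

private lemma norm_le_iff2 {v : ℝ × ℝ} {r : ℝ} : ‖v‖ ≤ r ↔ |v.1| ≤ r ∧ |v.2| ≤ r := by
  rw [Prod.norm_def, max_le_iff, Real.norm_eq_abs, Real.norm_eq_abs]

private lemma le_norm_iff2 {v : ℝ × ℝ} {r : ℝ} : r ≤ ‖v‖ ↔ r ≤ |v.1| ∨ r ≤ |v.2| := by
  rw [Prod.norm_def, le_max_iff, Real.norm_eq_abs, Real.norm_eq_abs]

theorem qq_norm (t : ℝ) : ‖qq t‖ = 1 := by
  obtain ⟨i, τ, h0, h1, -, h2⟩ := qq_reduce t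
  rw [h2]
  refine le_antisymm (norm_le_iff2.2 ?_) (le_norm_iff2.2 ?_)
  · rcases qz_cases h0 h1 with ⟨a, b, c⟩ | ⟨a, b, c, d⟩ | ⟨a, b, c, d⟩ | ⟨a, b, c, d⟩ | ⟨a, b, c⟩ <;>
    · rw [a, b, abs_le, abs_le]
      refine ⟨⟨?_, ?_⟩, ?_, ?_⟩ <;> linarith
  · rcases qz_cases h0 h1 with ⟨a, b, c⟩ | ⟨a, b, c, d⟩ | ⟨a, b, c, d⟩ | ⟨a, b, c, d⟩ | ⟨a, b, c⟩
    · left; rw [a]; norm_num
    · right; rw [b]; norm_num
    · left; rw [a]; norm_num
    · right; rw [b]; norm_num
    · left; rw [a]; norm_num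

/-- Lipschitz bound for small differences, reduced to one period. -/
private lemma qq_lip_aux {t d : ℝ} (h0 : 0 ≤ t) (h1 : t < 8) (hd0 : 0 ≤ d) (hd : d < 2) :
    ‖qq t - qq (t + d)‖ ≤ d := by
  rw [norm_le_iff2]
  simp only [Prod.fst_sub, Prod.snd_sub]
  rcases lt_or_ge (t + d) 8 with h2 | h2
  · rw [qq_of_mem h0 h1, qq_of_mem (by linarith) h2]
    rcases qz_cases h0 h1 with ⟨a, b, c⟩ | ⟨a, b, c, e⟩ | ⟨a, b, c, e⟩ | ⟨a, b, c, e⟩ | ⟨a, b, c⟩ <;>
    rcases qz_cases (show 0 ≤ t + d by linarith) h2 with ⟨a', b', c'⟩ | ⟨a', b', c', e'⟩ |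
      ⟨a', b', c', e'⟩ | ⟨a', b', c', e'⟩ | ⟨a', b', c'⟩ <;>
    · rw [a, b, a', b', abs_le, abs_le]
      refine ⟨⟨?_, ?_⟩, ?_, ?_⟩ <;> linarith
  · have e1 : qq (t + d) = qq (t + d - 8) := by
      have := qq_add_mul (t + d - 8) 1
      rw [← this]
      congr 1
      push_cast
      ring
    rw [e1, qq_of_mem h0 h1, qq_of_mem (show 0 ≤ t + d - 8 by linarith) (by linarith)]
    rcases qz_cases h0 h1 with ⟨a, b, c⟩ | ⟨a, b, c, e⟩ | ⟨a, b, c, e⟩ | ⟨a, b, c, e⟩ | ⟨a, b, c⟩ <;>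
    rcases qz_cases (show 0 ≤ t + d - 8 by linarith) (by linarith) with ⟨a', b', c'⟩ |
      ⟨a', b', c', e'⟩ | ⟨a', b', c', e'⟩ | ⟨a', b', c', e'⟩ | ⟨a', b', c'⟩ <;>
    · rw [a, b, a', b', abs_le, abs_le]
      refine ⟨⟨?_, ?_⟩, ?_, ?_⟩ <;> linarith

private lemma qq_lip_le {t t' : ℝ} (h : t ≤ t') : ‖qq t - qq t'‖ ≤ t' - t := by
  rcases lt_or_ge (t' - t) 2 with h2 | h2
  · obtain ⟨i, τ, k0, k1, k2, -⟩ := qq_reduce t
    have e1 : qq t = qq τ := by rw [k2, qq_add_mul]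
    have e2 : qq t' = qq (τ + (t' - t)) := by
      have : t' = (τ + (t' - t)) + 8 * i := by rw [k2]; ring
      conv_lhs => rw [this]
      exact qq_add_mul _ _
    rw [e1, e2]
    exact qq_lip_aux k0 k1 (by linarith) h2
  · have h3 := norm_sub_le (qq t) (qq t')
    rw [qq_norm, qq_norm] at h3
    linarith

theorem qq_lip (t t' : ℝ) : ‖qq t - qq t'‖ ≤ |t - t'| := by
  rcases le_total t t' with h | h
  · rw [abs_of_nonpos (by linarith)]
    have := qq_lip_le h
    linarith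
  · rw [abs_of_nonneg (by linarith), norm_sub_rev]
    exact qq_lip_le h

private lemma qz_far {τ τ' δ : ℝ} (h0 : 0 ≤ τ) (h1 : τ < 8) (h0' : 0 ≤ τ') (h1' : τ' < 8)
    (k0 : δ ≤ τ' - τ) (k1 : τ' - τ ≤ 8 - δ) : δ / 2 ≤ ‖qz τ - qz τ'‖ := by
  by_contra hcon
  rw [le_norm_iff2, not_or] at hcon
  obtain ⟨h2, h3⟩ := hcon
  rw [not_le, abs_lt] at h2 h3
  simp only [Prod.fst_sub, Prod.snd_sub] at h2 h3
  rcases qz_cases h0 h1 with ⟨a, b, c⟩ | ⟨a, b, c, e⟩ | ⟨a, b, c, e⟩ | ⟨a, b, c, e⟩ | ⟨a, b, c⟩ <;>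
  rcases qz_cases h0' h1' with ⟨a', b', c'⟩ | ⟨a', b', c', e'⟩ |
    ⟨a', b', c', e'⟩ | ⟨a', b', c', e'⟩ | ⟨a', b', c'⟩ <;>
  · rw [a, a'] at h2
    rw [b, b'] at h3
    linarith [h2.1, h2.2, h3.1, h3.2]

private lemma qq_far_le {t t' δ : ℝ} (h0 : 0 ≤ δ) (h1 : δ ≤ t' - t) (h2 : t' - t ≤ 8 - δ) :
    δ / 2 ≤ ‖qq t - qq t'‖ := by
  obtain ⟨i, τ, k0, k1, k2, -⟩ := qq_reduce t
  have e1 : qq t = qq τ := by rw [k2, qq_add_mul]
  have e2 : qq t' = qq (τ + (t' - t)) := by
    have : t' = (τ + (t' - t)) + 8 * i := by rw [k2]; ring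
    conv_lhs => rw [this]
    exact qq_add_mul _ _
  rw [e1, e2]
  set d := t' - t with hd
  rcases lt_or_ge (τ + d) 8 with h3 | h3
  · rw [qq_of_mem k0 k1, qq_of_mem (by linarith) h3]
    exact qz_far k0 k1 (by linarith) h3 (by linarith) (by linarith)
  · have e3 : qq (τ + d) = qq (τ + d - 8) := by
      have := qq_add_mul (τ + d - 8) 1
      rw [← this]
      congr 1
      push_cast
      ring
    rw [e3, qq_of_mem k0 k1, qq_of_mem (show 0 ≤ τ + d - 8 by linarith) (by linarith),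
      norm_sub_rev]
    exact qz_far (by linarith) (by linarith) k0 k1 (by linarith) (by linarith)

theorem qq_far {t t' δ : ℝ} (h0 : 0 ≤ δ) (h1 : δ ≤ |t - t'|) (h2 : |t - t'| ≤ 8 - δ) :
    δ / 2 ≤ ‖qq t - qq t'‖ := by
  rcases le_total t t' with h | h
  · rw [abs_of_nonpos (by linarith)] at h1 h2
    exact qq_far_le h0 (by linarith) (by linarith)
  · rw [abs_of_nonneg (by linarith)] at h1 h2
    rw [norm_sub_rev]
    exact qq_far_le h0 (by linarith) (by linarith)

private lemma qz_surj (v : ℝ × ℝ) (hv : ‖v‖ = 1) : ∃ τ, 0 ≤ τ ∧ τ < 8 ∧ qz τ = v := by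
  obtain ⟨x, y⟩ := v
  have h1 := norm_le_iff2.1 hv.le
  have h2 := le_norm_iff2.1 hv.ge
  simp only [abs_le] at h1
  simp only at h2
  have key : x = 1 ∨ x = -1 ∨ y = 1 ∨ y = -1 := by
    rcases h2 with h2 | h2
    · rcases le_abs.1 h2 with h | h
      · left; linarith [h1.1.2]
      · right; left; linarith [h1.1.1]
    · rcases le_abs.1 h2 with h | h
      · right; right; left; linarith [h1.2.2]
      · right; right; right; linarith [h1.2.1]
  rcases key with h | h | h | h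
  · subst h
    rcases le_or_gt 0 y with hy | hy
    · exact ⟨y, hy, by linarith [h1.2.2], by unfold qz; rw [if_pos h1.2.2]⟩
    · rcases eq_or_lt_of_le h1.2.1 with hy1 | hy1
      · refine ⟨7, by norm_num, by norm_num, ?_⟩
        rw [← hy1]
        unfold qz
        norm_num
      · refine ⟨y + 8, by linarith, by linarith, ?_⟩
        unfold qz
        rw [if_neg (by linarith), if_neg (by linarith), if_neg (by linarith), if_neg (by linarith)]
        simp
  · subst h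
    rcases eq_or_lt_of_le h1.2.2 with hy1 | hy1
    · refine ⟨3, by norm_num, by norm_num, ?_⟩
      rw [hy1]
      unfold qz
      norm_num
    · refine ⟨4 - y, by linarith, by linarith [h1.2.1], ?_⟩
      unfold qz
      rw [if_neg (by linarith), if_neg (by linarith), if_pos (by linarith [h1.2.1])]
      simp
  · subst h
    rcases eq_or_lt_of_le h1.1.2 with hx1 | hx1
    · refine ⟨1, by norm_num, by norm_num, ?_⟩
      rw [hx1]
      unfold qz
      norm_num
    · refine ⟨2 - x, by linarith, by linarith [h1.1.1], ?_⟩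
      unfold qz
      rw [if_neg (by linarith), if_pos (by linarith [h1.1.1])]
      simp
  · subst h
    rcases eq_or_lt_of_le h1.1.1 with hx1 | hx1
    · refine ⟨5, by norm_num, by norm_num, ?_⟩
      rw [← hx1]
      unfold qz
      norm_num
    · refine ⟨x + 6, by linarith, by linarith [h1.1.2], ?_⟩
      unfold qz
      rw [if_neg (by linarith), if_neg (by linarith), if_neg (by linarith),
        if_pos (by linarith [h1.1.2])]
      simp

theorem qq_surj (v : ℝ × ℝ) {R : ℝ} (hR : 0 < R) (hv : ‖v‖ = R) (a : ℝ) :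
    ∃ t, a ≤ t ∧ t < a + 8 ∧ R • qq t = v := by
  have h1 : ‖R⁻¹ • v‖ = 1 := by
    rw [norm_smul, hv, Real.norm_eq_abs, abs_of_pos (inv_pos.2 hR), inv_mul_cancel₀ hR.ne']
  obtain ⟨τ, h2, h3, h4⟩ := qz_surj _ h1
  -- shift to the interval `[a, a + 8)`
  set i : ℤ := ⌈(a - τ) / 8⌉ with hi
  have k1 := Int.le_ceil ((a - τ) / 8)
  have k2 := Int.ceil_lt_add_one ((a - τ) / 8)
  refine ⟨τ + 8 * i, by rw [hi]; linarith, by rw [hi]; linarith, ?_⟩
  rw [qq_add_mul, qq_of_mem h2 h3, h4, smul_smul, mul_inv_cancel₀ hR.ne', one_smul]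

end Pool.Agent.H57.EX

end

end

section

/-! The parts of this file: H89.Perc.WindExcl, H31.EX.WindReg, H89.Perc.TorusDet, H31.EX.BlockRule, H31.EX.BlockReveal, H31.EX.BlockLow, H61.NC.BlockTwo, H29.Sep.A4Low, H29.Sep.OuterSplit, H59.EX.MoveDef, H59.EX.MoveTurn, H59.EX.MoveStr. -/

section

/-!
# An open horizontal winding path excludes a dual vertical winding path
-/

open MeasureTheory ProbabilityTheory unitInterval

namespace Pool.Agent.H89.Perc

end Pool.Agent.H89.Perc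

end

section

/-!
# The winding event is not degenerate in the box-crossing regime
-/

open MeasureTheory ProbabilityTheory unitInterval

namespace Pool.Agent.H31.EX

open Pool.Agent.H89.Perc Pool.Agent.H61.NC

end Pool.Agent.H31.EX

end

section

/-!
# The exploration determines the winding event
-/

open MeasureTheory ProbabilityTheory unitInterval

namespace Pool.Agent.H89.Perc

/-! ### The exploration -/

/-! ### The boundary of the fundamental square is connected -/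

/-! ### Periodicity -/

end Pool.Agent.H89.Perc

end

section

/-!
# Block OSSS inequality for an exploration that queries single edges

From an exploration rule for single edges we make a rule for blocks: run the edge exploration on
the revealed blocks; when it asks for an edge of a block that is not revealed, reveal this block.
-/

open MeasureTheory ProbabilityTheory unitInterval

namespace Pool.Agent.H31.EX

open Pool.Agent.H89.Perc Pool.Agent.H85.Kes

end Pool.Agent.H31.EX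

end

section

/-!
# Blocks of the torus: a revealed block has a primal arm and a dual arm
-/

open MeasureTheory ProbabilityTheory unitInterval

namespace Pool.Agent.H31.EX

open Pool.Agent.H89.Perc

end Pool.Agent.H31.EX

end

section

/-!
# Lower bound for the probability that a block is pivotal for the winding event
-/

open MeasureTheory ProbabilityTheory unitInterval

namespace Pool.Agent.H31.EX

open Pool.Agent.H89.Perc Pool.Agent.H61.NC
open Pool.Agent.H85.Kes (BPiv setB)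

lemma fill_eq_setB (s : Finset Edge) (b : Bool) (ω : Config) : fill s b ω = setB s b ω := by
  classical
  funext e
  by_cases h : e ∈ s <;> simp [fill, setB, h]

/-! ### The sum over the blocks -/

end Pool.Agent.H31.EX

end

section

/-!
# A pivotal block of the torus has two distinct crossing clusters around it
-/

open MeasureTheory ProbabilityTheory unitInterval

namespace Pool.Agent.H61.NC

open Pool.Agent.H89.Perc

end Pool.Agent.H61.NC

end

section

/-!
# Small scales: finite energy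
-/

open MeasureTheory ProbabilityTheory unitInterval

namespace Pool.Agent.H29.Sep

open Pool.Agent.H89.Perc Pool.Agent.H61.NC

end Pool.Agent.H29.Sep

end

section

/-!
# Outer decomposition of the annulus event into two-terminal events
-/

open MeasureTheory ProbabilityTheory unitInterval

namespace Pool.Agent.H29.Sep

open Pool.Agent.H89.Perc Pool.Agent.H61.NC

end Pool.Agent.H29.Sep

end

section

/-!
# Moves: extension of separated events from scale `k` to scale `4 k`, definitions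
-/

open MeasureTheory ProbabilityTheory unitInterval

namespace Pool.Agent.H59.EX

open Pool.Agent.H89.Perc

end Pool.Agent.H59.EX

end

section

/-!
# The turning corridor of the moves
-/

open MeasureTheory ProbabilityTheory unitInterval

namespace Pool.Agent.H59.EX

open Pool.Agent.H89.Perc
open Pool.Agent.H85.Strict (hv_meet)

theorem move_turn {k : ℕ} (hk : 4 ≤ k) : MoveData k .E .N (CT k) (NT k) := by
  have r1 : rect (28 * k) (64 * k) (-(3 * (k : ℤ))) (3 * k) ⊆ CT k := by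
    intro v hv
    simp only [CT, T, rect, Set.mem_union, Set.mem_ofPred_eq] at hv ⊢
    omega
  have r2 : rect (60 * k) (64 * k) (-(3 * (k : ℤ))) (64 * k) ⊆ CT k := by
    intro v hv
    simp only [CT, T, rect, Set.mem_union, Set.mem_ofPred_eq] at hv ⊢
    omega
  have r3 : rect (-(3 * (k : ℤ))) (64 * k) (60 * k) (64 * k) ⊆ CT k := by
    intro v hv
    simp only [CT, T, rect, Set.mem_union, Set.mem_ofPred_eq] at hv ⊢
    omega
  have r4 : rect (-(3 * (k : ℤ))) (3 * k) (60 * k) (144 * k) ⊆ CT k := by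
    intro v hv
    simp only [CT, T, rect, Set.mem_union, Set.mem_ofPred_eq] at hv ⊢
    omega
  have r5 : rect (-(12 * (k : ℤ))) (12 * k) (112 * k) (144 * k) ⊆ CT k := by
    intro v hv
    simp only [CT, T, rect, Set.mem_union, Set.mem_ofPred_eq] at hv ⊢
    omega
  have rT : T .E k ⊆ CT k := fun v hv => Or.inl (Or.inl (Or.inl (Or.inl hv)))
  refine ⟨rT, ?_, ?_, ?_, ?_, ?_, ?_, ?_⟩
  · intro v hv
    simp only [CT, T, rect, Set.mem_union, Set.mem_ofPred_eq] at hv ⊢
    push_cast at hv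
    omega
  · rintro v ⟨h1, h2⟩
    simp only [CT, T, rect, ball, Set.mem_union, Set.mem_ofPred_eq, Prod.fst_zero,
      Prod.snd_zero] at h1 h2 ⊢
    push_cast at h2
    omega
  · intro v h1
    simp only [CT, T, rect, ball, Set.mem_union, Set.mem_ofPred_eq, Prod.fst_zero,
      Prod.snd_zero] at h1 ⊢
    push_cast
    omega
  · rintro ω ω' h ⟨h1, h2, h3, h4, h5⟩
    exact ⟨mt_incr_h ω ω' h h1, mt_incr_v ω ω' h h2, mt_incr_h ω ω' h h3, mt_incr_v ω ω' h h4,
      mt_incr_h ω ω' h h5⟩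
  · rintro ω ω' h ⟨h1, h2, h3, h4, h5⟩
    exact ⟨mt_locS_h r1 ω ω' h h1, mt_locS_v r2 ω ω' h h2, mt_locS_h r3 ω ω' h h3,
      mt_locS_v r4 ω ω' h h4, mt_locS_h r5 ω ω' h h5⟩
  · rintro ω ⟨⟨p1, q1, hp1, hq1, h1⟩, ⟨p2, q2, hp2, hq2, h2⟩, ⟨p3, q3, hp3, hq3, h3⟩,
      ⟨p4, q4, hp4, hq4, h4⟩, ⟨p5, q5, hp5, hq5, h5⟩⟩ η D x hη ⟨u, v, hu, hv, hf, hxu⟩
    have g1 := mt_lift hη r1 h1
    have g2 := mt_lift hη r2 h2
    have g3 := mt_lift hη r3 h3
    have g4 := mt_lift hη r4 h4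
    have g5 := mt_lift hη r5 h5
    obtain ⟨z1, m1, m1'⟩ := hv_meet (a₂ := 28 * k) (b₂ := 36 * k) g1 (by omega) (by omega) hf
      (by omega) (by omega) (by omega) (by omega)
    obtain ⟨z2, m2, m2'⟩ := hv_meet g1 (by omega) (by omega) g2 (by omega) (by omega) (by omega)
      (by omega)
    obtain ⟨z3, m3, m3'⟩ := hv_meet g3 (by omega) (by omega) g2 (by omega) (by omega) (by omega)
      (by omega)
    obtain ⟨z4, m4, m4'⟩ := hv_meet g3 (by omega) (by omega) g4 (by omega) (by omega) (by omega)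
      (by omega)
    obtain ⟨z5, m5, m5'⟩ := hv_meet g5 (by omega) (by omega) g4 (by omega) (by omega) (by omega)
      (by omega)
    have tr : ∀ {R : Set Vert} {a b : Vert}, R ⊆ CT k → Conn η R a b → Conn η (D ∪ CT k) a b :=
      fun hR h => h.mono_set (hR.trans Set.subset_union_right)
    refine ⟨p5, q5, by rw [hp5]; push_cast; ring, by rw [hq5]; push_cast; ring, ?_, ?_⟩
    · refine g5.mono_set ?_
      intro v hv
      simp only [T, rect, Set.mem_ofPred_eq] at hv ⊢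
      push_cast
      omega
    · have c1 : Conn η (D ∪ CT k) x u := hxu.mono_set Set.subset_union_left
      have c2 := c1.trans (tr rT m1')
      have c3 := c2.trans (tr r1 m1).symm
      have c4 := c3.trans (tr r1 m2)
      have c5 := c4.trans (tr r2 m2').symm
      have c6 := c5.trans (tr r2 m3')
      have c7 := c6.trans (tr r3 m3).symm
      have c8 := c7.trans (tr r3 m4)
      have c9 := c8.trans (tr r4 m4').symm
      have c10 := c9.trans (tr r4 m5')
      exact c10.trans (tr r5 m5).symm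
  · intro z hz a ha hza
    simp only [CT, T, rect, sphere, ball, Set.mem_union, Set.mem_ofPred_eq, Prod.fst_zero,
      Prod.snd_zero, Mouth] at hz ha hza ⊢
    push_cast at hz ⊢
    omega

end Pool.Agent.H59.EX

end

section

/-!
# The straight corridors of the moves, probabilities
-/

open MeasureTheory ProbabilityTheory unitInterval

namespace Pool.Agent.H59.EX

open Pool.Agent.H89.Perc Pool.Agent.H61.NC
open Pool.Agent.H85.Strict (hv_meet)

theorem move_str_E {k : ℕ} (hk : 4 ≤ k) : MoveData k .E .E (CM .E k) (NM .E k) := by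
  have r1 : rect (28 * k) (144 * k) (-(3 * (k : ℤ))) (3 * k) ⊆ CM .E k := by
    intro v hv
    simp only [CM, T, rect, Set.mem_union, Set.mem_ofPred_eq] at hv ⊢
    omega
  have r2 : rect (112 * k) (144 * k) (-(12 * (k : ℤ))) (12 * k) ⊆ CM .E k := by
    intro v hv
    simp only [CM, T, rect, Set.mem_union, Set.mem_ofPred_eq] at hv ⊢
    omega
  have rT : T .E k ⊆ CM .E k := fun v hv => Or.inl hv
  refine ⟨rT, ?_, ?_, ?_, ?_, ?_, ?_, ?_⟩
  · intro v hv
    simp only [CM, T, rect, Set.mem_union, Set.mem_ofPred_eq] at hv ⊢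
    push_cast at hv
    omega
  · rintro v ⟨h1, h2⟩
    simp only [CM, T, rect, ball, Set.mem_union, Set.mem_ofPred_eq, Prod.fst_zero,
      Prod.snd_zero] at h1 h2 ⊢
    push_cast at h2
    omega
  · intro v h1
    simp only [CM, T, rect, ball, Set.mem_union, Set.mem_ofPred_eq, Prod.fst_zero,
      Prod.snd_zero] at h1 ⊢
    push_cast
    omega
  · rintro ω ω' h ⟨h1, h2⟩
    exact ⟨mt_incr_h ω ω' h h1, mt_incr_v ω ω' h h2⟩
  · rintro ω ω' h ⟨h1, h2⟩
    exact ⟨mt_locS_h r1 ω ω' h h1, mt_locS_v r2 ω ω' h h2⟩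
  · rintro ω ⟨⟨p1, q1, hp1, hq1, h1⟩, ⟨p2, q2, hp2, hq2, h2⟩⟩ η D x hη ⟨u, v, hu, hv, hf, hxu⟩
    have g1 := mt_lift hη r1 h1
    have g2 := mt_lift hη r2 h2
    obtain ⟨z1, m1, m1'⟩ := hv_meet (a₂ := 28 * k) (b₂ := 36 * k) g1 (by omega) (by omega) hf
      (by omega) (by omega) (by omega) (by omega)
    obtain ⟨z2, m2, m2'⟩ := hv_meet g1 (by omega) (by omega) g2 (by omega) (by omega) (by omega)
      (by omega)
    have tr : ∀ {R : Set Vert} {a b : Vert}, R ⊆ CM .E k → Conn η R a b →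
        Conn η (D ∪ CM .E k) a b :=
      fun hR h => h.mono_set (hR.trans Set.subset_union_right)
    refine ⟨p2, q2, by rw [hp2]; push_cast; ring, by rw [hq2]; push_cast; ring, ?_, ?_⟩
    · refine g2.mono_set ?_
      intro v hv
      simp only [T, rect, Set.mem_ofPred_eq] at hv ⊢
      push_cast
      omega
    · have c1 : Conn η (D ∪ CM .E k) x u := hxu.mono_set Set.subset_union_left
      have c2 := c1.trans (tr rT m1')
      have c3 := c2.trans (tr r1 m1).symm
      have c4 := c3.trans (tr r1 m2)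
      exact c4.trans (tr r2 m2').symm
  · intro z hz a ha hza
    simp only [CM, T, rect, sphere, ball, Set.mem_union, Set.mem_ofPred_eq, Prod.fst_zero,
      Prod.snd_zero, Mouth] at hz ha hza ⊢
    push_cast at hz ⊢
    omega

theorem move_str_N {k : ℕ} (hk : 4 ≤ k) : MoveData k .N .N (CM .N k) (NM .N k) := by
  have r1 : rect (-(3 * (k : ℤ))) (3 * k) (28 * k) (144 * k) ⊆ CM .N k := by
    intro v hv
    simp only [CM, T, rect, Set.mem_union, Set.mem_ofPred_eq] at hv ⊢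
    omega
  have r2 : rect (-(12 * (k : ℤ))) (12 * k) (112 * k) (144 * k) ⊆ CM .N k := by
    intro v hv
    simp only [CM, T, rect, Set.mem_union, Set.mem_ofPred_eq] at hv ⊢
    omega
  have rT : T .N k ⊆ CM .N k := fun v hv => Or.inl hv
  refine ⟨rT, ?_, ?_, ?_, ?_, ?_, ?_, ?_⟩
  · intro v hv
    simp only [CM, T, rect, Set.mem_union, Set.mem_ofPred_eq] at hv ⊢
    push_cast at hv
    omega
  · rintro v ⟨h1, h2⟩
    simp only [CM, T, rect, ball, Set.mem_union, Set.mem_ofPred_eq, Prod.fst_zero,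
      Prod.snd_zero] at h1 h2 ⊢
    push_cast at h2
    omega
  · intro v h1
    simp only [CM, T, rect, ball, Set.mem_union, Set.mem_ofPred_eq, Prod.fst_zero,
      Prod.snd_zero] at h1 ⊢
    push_cast
    omega
  · rintro ω ω' h ⟨h1, h2⟩
    exact ⟨mt_incr_v ω ω' h h1, mt_incr_h ω ω' h h2⟩
  · rintro ω ω' h ⟨h1, h2⟩
    exact ⟨mt_locS_v r1 ω ω' h h1, mt_locS_h r2 ω ω' h h2⟩
  · rintro ω ⟨⟨p1, q1, hp1, hq1, h1⟩, ⟨p2, q2, hp2, hq2, h2⟩⟩ η D x hη ⟨u, v, hu, hv, hf, hxu⟩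
    have g1 := mt_lift hη r1 h1
    have g2 := mt_lift hη r2 h2
    obtain ⟨z1, m1', m1⟩ := hv_meet (c₁ := 28 * k) (d₁ := 36 * k) (a₁ := -(3 * (k : ℤ))) (b₁ := 3 * k) hf (by omega) (by omega) g1
      (by omega) (by omega) (by omega) (by omega)
    obtain ⟨z2, m2', m2⟩ := hv_meet g2 (by omega) (by omega) g1 (by omega) (by omega) (by omega)
      (by omega)
    have tr : ∀ {R : Set Vert} {a b : Vert}, R ⊆ CM .N k → Conn η R a b →
        Conn η (D ∪ CM .N k) a b :=
      fun hR h => h.mono_set (hR.trans Set.subset_union_right)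
    refine ⟨p2, q2, by rw [hp2]; push_cast; ring, by rw [hq2]; push_cast; ring, ?_, ?_⟩
    · refine g2.mono_set ?_
      intro v hv
      simp only [T, rect, Set.mem_ofPred_eq] at hv ⊢
      push_cast
      omega
    · have c1 : Conn η (D ∪ CM .N k) x u := hxu.mono_set Set.subset_union_left
      have c2 := c1.trans (tr rT m1')
      have c3 := c2.trans (tr r1 m1).symm
      have c4 := c3.trans (tr r1 m2)
      exact c4.trans (tr r2 m2').symm
  · intro z hz a ha hza
    simp only [CM, T, rect, sphere, ball, Set.mem_union, Set.mem_ofPred_eq, Prod.fst_zero,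
      Prod.snd_zero, Mouth] at hz ha hza ⊢
    push_cast at hz ⊢
    omega

theorem move_str_W {k : ℕ} (hk : 4 ≤ k) : MoveData k .W .W (CM .W k) (NM .W k) := by
  have r1 : rect (-(144 * (k : ℤ))) (-(28 * k)) (-(3 * (k : ℤ))) (3 * k) ⊆ CM .W k := by
    intro v hv
    simp only [CM, T, rect, Set.mem_union, Set.mem_ofPred_eq] at hv ⊢
    omega
  have r2 : rect (-(144 * (k : ℤ))) (-(112 * k)) (-(12 * (k : ℤ))) (12 * k) ⊆ CM .W k := by
    intro v hv
    simp only [CM, T, rect, Set.mem_union, Set.mem_ofPred_eq] at hv ⊢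
    omega
  have rT : T .W k ⊆ CM .W k := fun v hv => Or.inl hv
  refine ⟨rT, ?_, ?_, ?_, ?_, ?_, ?_, ?_⟩
  · intro v hv
    simp only [CM, T, rect, Set.mem_union, Set.mem_ofPred_eq] at hv ⊢
    push_cast at hv
    omega
  · rintro v ⟨h1, h2⟩
    simp only [CM, T, rect, ball, Set.mem_union, Set.mem_ofPred_eq, Prod.fst_zero,
      Prod.snd_zero] at h1 h2 ⊢
    push_cast at h2
    omega
  · intro v h1
    simp only [CM, T, rect, ball, Set.mem_union, Set.mem_ofPred_eq, Prod.fst_zero,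
      Prod.snd_zero] at h1 ⊢
    push_cast
    omega
  · rintro ω ω' h ⟨h1, h2⟩
    exact ⟨mt_incr_h ω ω' h h1, mt_incr_v ω ω' h h2⟩
  · rintro ω ω' h ⟨h1, h2⟩
    exact ⟨mt_locS_h r1 ω ω' h h1, mt_locS_v r2 ω ω' h h2⟩
  · rintro ω ⟨⟨p1, q1, hp1, hq1, h1⟩, ⟨p2, q2, hp2, hq2, h2⟩⟩ η D x hη ⟨u, v, hu, hv, hf, hxu⟩
    have g1 := mt_lift hη r1 h1
    have g2 := mt_lift hη r2 h2
    obtain ⟨z1, m1, m1'⟩ := hv_meet (a₂ := -(36 * k)) (b₂ := -(28 * k)) g1 (by omega) (by omega) hf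
      (by omega) (by omega) (by omega) (by omega)
    obtain ⟨z2, m2, m2'⟩ := hv_meet g1 (by omega) (by omega) g2 (by omega) (by omega) (by omega)
      (by omega)
    have tr : ∀ {R : Set Vert} {a b : Vert}, R ⊆ CM .W k → Conn η R a b →
        Conn η (D ∪ CM .W k) a b :=
      fun hR h => h.mono_set (hR.trans Set.subset_union_right)
    refine ⟨p2, q2, by rw [hp2]; push_cast; ring, by rw [hq2]; push_cast; ring, ?_, ?_⟩
    · refine g2.mono_set ?_
      intro v hv
      simp only [T, rect, Set.mem_ofPred_eq] at hv ⊢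
      push_cast
      omega
    · have c1 : Conn η (D ∪ CM .W k) x u := hxu.mono_set Set.subset_union_left
      have c2 := c1.trans (tr rT m1')
      have c3 := c2.trans (tr r1 m1).symm
      have c4 := c3.trans (tr r1 m2)
      exact c4.trans (tr r2 m2').symm
  · intro z hz a ha hza
    simp only [CM, T, rect, sphere, ball, Set.mem_union, Set.mem_ofPred_eq, Prod.fst_zero,
      Prod.snd_zero, Mouth] at hz ha hza ⊢
    push_cast at hz ⊢
    omega

theorem move_str_S {k : ℕ} (hk : 4 ≤ k) : MoveData k .S .S (CM .S k) (NM .S k) := by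
  have r1 : rect (-(3 * (k : ℤ))) (3 * k) (-(144 * (k : ℤ))) (-(28 * k)) ⊆ CM .S k := by
    intro v hv
    simp only [CM, T, rect, Set.mem_union, Set.mem_ofPred_eq] at hv ⊢
    omega
  have r2 : rect (-(12 * (k : ℤ))) (12 * k) (-(144 * (k : ℤ))) (-(112 * k)) ⊆ CM .S k := by
    intro v hv
    simp only [CM, T, rect, Set.mem_union, Set.mem_ofPred_eq] at hv ⊢
    omega
  have rT : T .S k ⊆ CM .S k := fun v hv => Or.inl hv
  refine ⟨rT, ?_, ?_, ?_, ?_, ?_, ?_, ?_⟩
  · intro v hv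
    simp only [CM, T, rect, Set.mem_union, Set.mem_ofPred_eq] at hv ⊢
    push_cast at hv
    omega
  · rintro v ⟨h1, h2⟩
    simp only [CM, T, rect, ball, Set.mem_union, Set.mem_ofPred_eq, Prod.fst_zero,
      Prod.snd_zero] at h1 h2 ⊢
    push_cast at h2
    omega
  · intro v h1
    simp only [CM, T, rect, ball, Set.mem_union, Set.mem_ofPred_eq, Prod.fst_zero,
      Prod.snd_zero] at h1 ⊢
    push_cast
    omega
  · rintro ω ω' h ⟨h1, h2⟩
    exact ⟨mt_incr_v ω ω' h h1, mt_incr_h ω ω' h h2⟩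
  · rintro ω ω' h ⟨h1, h2⟩
    exact ⟨mt_locS_v r1 ω ω' h h1, mt_locS_h r2 ω ω' h h2⟩
  · rintro ω ⟨⟨p1, q1, hp1, hq1, h1⟩, ⟨p2, q2, hp2, hq2, h2⟩⟩ η D x hη ⟨u, v, hu, hv, hf, hxu⟩
    have g1 := mt_lift hη r1 h1
    have g2 := mt_lift hη r2 h2
    obtain ⟨z1, m1', m1⟩ := hv_meet (c₁ := -(36 * k)) (d₁ := -(28 * k)) (a₁ := -(3 * (k : ℤ))) (b₁ := 3 * k) hf (by omega) (by omega) g1
      (by omega) (by omega) (by omega) (by omega)
    obtain ⟨z2, m2', m2⟩ := hv_meet g2 (by omega) (by omega) g1 (by omega) (by omega) (by omega)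
      (by omega)
    have tr : ∀ {R : Set Vert} {a b : Vert}, R ⊆ CM .S k → Conn η R a b →
        Conn η (D ∪ CM .S k) a b :=
      fun hR h => h.mono_set (hR.trans Set.subset_union_right)
    refine ⟨p2, q2, by rw [hp2]; push_cast; ring, by rw [hq2]; push_cast; ring, ?_, ?_⟩
    · refine g2.mono_set ?_
      intro v hv
      simp only [T, rect, Set.mem_ofPred_eq] at hv ⊢
      push_cast
      omega
    · have c1 : Conn η (D ∪ CM .S k) x u := hxu.mono_set Set.subset_union_left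
      have c2 := c1.trans (tr rT m1')
      have c3 := c2.trans (tr r1 m1).symm
      have c4 := c3.trans (tr r1 m2)
      exact c4.trans (tr r2 m2').symm
  · intro z hz a ha hza
    simp only [CM, T, rect, sphere, ball, Set.mem_union, Set.mem_ofPred_eq, Prod.fst_zero,
      Prod.snd_zero, Mouth] at hz ha hza ⊢
    push_cast at hz ⊢
    omega

theorem move_straight {k : ℕ} (hk : 4 ≤ k) (d : Side) : MoveData k d d (CM d k) (NM d k) := by
  cases d
  · exact move_str_E hk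
  · exact move_str_N hk
  · exact move_str_W hk
  · exact move_str_S hk

end Pool.Agent.H59.EX

end

end
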