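import Pool.Agent.H94.BG.H31.PT.M03_3
import Pool.Agent.H94.BG.H31.PT.M06_3
import Pool.Agent.H94.BG.M05
import Pool.Agent.H94.BG.M08

/-! The parts of this file: H31.PT.H57.EX.Chain, H31.PT.H57.EX.Stage1, H31.PT.H57.EX.Stage2b. -/

section

/-!
# Chains of circuits
-/

open MeasureTheory ProbabilityTheory unitInterval

namespace Pool.Agent.H57.EX

open Pool.Agent.H89.Perc Pool.Agent.H61.NC Pool.Agent.H29.Sep

theorem mem_eZone {γ : ℕ → Vert} {n s : ℕ} {e : Edge} (h : e ∈ eZone γ n s) :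
    src e ∈ zone γ n s ∧ tgt e ∈ zone γ n s := by
  classical
  unfold eZone at h
  rw [Finset.mem_biUnion] at h
  obtain ⟨i, hi, he⟩ := h
  rw [mem_eCirc] at he
  have hi' : i ≤ n := by
    have := Finset.mem_range.mp hi
    omega
  exact ⟨⟨i, hi', he.1.1⟩, ⟨i, hi', he.2.1⟩⟩

theorem localOn_allCirc (γ : ℕ → Vert) (n s : ℕ) : LocalOn (eZone γ n s) (AllCirc γ n s) := by
  classical
  intro ω ω' hω h i hi
  refine localOn_circ (γ i) s ω ω' (fun e he => hω e ?_) (h i hi)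
  unfold eZone
  exact Finset.mem_biUnion.mpr ⟨i, Finset.mem_range.mpr (by omega), he⟩

theorem incr_allCirc (γ : ℕ → Vert) (n s : ℕ) : Incr (AllCirc γ n s) := by
  intro ω ω' hω h i hi
  exact incr_circ (γ i) s ω ω' hω (h i hi)

/-- Probability of a chain of circuits (from `circ_lower` and `fkg_many`). -/
theorem allCirc_lower (c : ℝ) (hc : 0 < c) : ∃ c' : ℝ, 0 < c' ∧ c' ≤ 1 ∧ ∀ (m : ℕ) (q : I),
    1 ≤ m → RSWreg c m q → ∀ (γ : ℕ → Vert) (n s : ℕ), 1 ≤ s → s ≤ m →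
      c' ^ (n + 1) ≤ Pr q (AllCirc γ n s) := by
  classical
  obtain ⟨c1, hc1, H⟩ := circ_lower c hc 1
  refine ⟨min c1 1, lt_min hc1 one_pos, min_le_right _ _, ?_⟩
  intro m q hm hq γ n s hs hsm
  have h1 := fkg_many (p := q) (Finset.range (n + 1)) (fun i => Circ (γ i) s)
    (fun i => eCirc (γ i) s) (c := min c1 1) (le_min hc1.le zero_le_one)
    (fun i _ => localOn_circ _ _) (fun i _ => incr_circ _ _)
    (fun i _ => (min_le_left _ _).trans (H m q hm hq (γ i) s hs (by omega)))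
  rw [Finset.card_range] at h1
  have h2 : (⋂ i ∈ Finset.range (n + 1), Circ (γ i) s) = AllCirc γ n s := by
    ext ω
    rw [Set.mem_iInter₂]
    constructor
    · intro h i hi
      exact h i (Finset.mem_range.mpr (by omega))
    · intro h i hi
      exact h i (by have := Finset.mem_range.mp hi; omega)
  rwa [h2] at h1

/-- The rings of a chain are connected to each other inside the zone. -/
theorem rings_conn {ω : Config} {γ : ℕ → Vert} {n s : ℕ} {b b' : Vert} (hs : 1 ≤ s)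
    (hc : Chain γ n s b b') (h : ω ∈ AllCirc γ n s) : ∀ j, j ≤ n →
    ∀ p ∈ ring ω (γ 0) s, ∀ r ∈ ring ω (γ j) s, Conn ω (zone γ n s) p r := by
  have hz : ∀ i, i ≤ n → ann (γ i) s (3 * s) ⊆ zone γ n s := fun i hi w hw => ⟨i, hi, hw.1⟩
  have hr : ∀ i, i ≤ n → ∀ p ∈ ring ω (γ i) s, ∀ r ∈ ring ω (γ i) s,
      Conn ω (zone γ n s) p r := by
    intro i hi p hp r hr
    exact ((circ_ring hs (h i hi)).2.1 p hp r hr).mono_set (hz i hi)
  intro j
  induction j with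
  | zero =>
    intro _ p hp r hr'
    exact hr 0 (Nat.zero_le _) p hp r hr'
  | succ j ih =>
    intro hj p hp r hr'
    have hst := hc.step j (by omega)
    rw [mem_ball] at hst
    push_cast at hst
    obtain ⟨w, hw1, hw2⟩ := circ_meet hs (h j (by omega)) (h (j + 1) hj)
      (by rw [abs_le]; omega) (by rw [abs_le]; omega)
    exact (ih (by omega) p hp w hw1).trans (hr (j + 1) hj w hw2 r hr')

/-- The chain of circuits joins two paths which cross the first and the last annulus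
(from `circ_ring` and `circ_meet`). -/
theorem chain_glue {ω : Config} {γ : ℕ → Vert} {n s : ℕ} {b b' : Vert} (hs : 1 ≤ s)
    (hc : Chain γ n s b b') (h : ω ∈ AllCirc γ n s) {S T : Set Vert} {u w u' w' : Vert}
    (h1 : Conn ω S u w) (hu : u ∉ ball b (3 * s)) (hw : w ∈ ball b s)
    (h2 : Conn ω T u' w') (hu' : u' ∉ ball b' (3 * s)) (hw' : w' ∈ ball b' s) :
    Conn ω (S ∪ T ∪ zone γ n s) u u' := by
  have r0 := circ_ring hs (h 0 (Nat.zero_le _))
  have rn := circ_ring hs (h n le_rfl)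
  rw [hc.h0] at r0
  rw [hc.hn] at rn
  obtain ⟨p, hp, hpc⟩ := r0.2.2 ω S w u h1.symm hw (Or.inr hu)
  obtain ⟨p', hp', hpc'⟩ := rn.2.2 ω T w' u' h2.symm hw' (Or.inr hu')
  have h3 : Conn ω (zone γ n s) p p' := by
    refine rings_conn hs hc h n le_rfl p ?_ p' ?_
    · rw [hc.h0]; exact hp
    · rw [hc.hn]; exact hp'
  have a1 : Conn ω (S ∪ T ∪ zone γ n s) u p :=
    (h1.trans hpc).mono_set fun x hx => Or.inl (Or.inl hx)
  have a2 : Conn ω (S ∪ T ∪ zone γ n s) p p' := h3.mono_set fun x hx => Or.inr hx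
  have a3 : Conn ω (S ∪ T ∪ zone γ n s) u' p' :=
    (h2.trans hpc').mono_set fun x hx => Or.inl (Or.inr hx)
  exact (a1.trans a2).trans a3.symm

/-- Probability of the sealing event (from `noarm_lower` and `fkg_decr_many`). -/
theorem seal_lower (c : ℝ) (hc : 0 < c) : ∃ c' : ℝ, 0 < c' ∧ c' ≤ 1 ∧ ∀ (m : ℕ) (q : I),
    1 ≤ m → RSWreg c m q → ∀ (V : Finset Vert) (s : ℕ), 1 ≤ s → s ≤ m →
      c' ^ V.card ≤ Pr q {ω | ∀ v ∈ V, ω ∉ ArmBox v s (3 * s)} := by
  classical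
  obtain ⟨c1, hc1, H⟩ := noarm_lower c hc 1
  refine ⟨min c1 1, lt_min hc1 one_pos, min_le_right _ _, ?_⟩
  intro m q hm hq V s hs hsm
  have hcompl : ∀ v : Vert, {ω | ¬ ∃ u ∈ ball v s, ∃ u' ∈ sphere v (3 * s),
      Conn ω (ball v (3 * s)) u u'} = (ArmBox v s (3 * s))ᶜ := fun v => rfl
  have h1 := fkg_decr_many (p := q) V (fun v => (ArmBox v s (3 * s))ᶜ)
    (fun v => eRect (v.1 - ((3 * s : ℕ) : ℤ)) (v.1 + ((3 * s : ℕ) : ℤ))
      (v.2 - ((3 * s : ℕ) : ℤ)) (v.2 + ((3 * s : ℕ) : ℤ)))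
    (c := min c1 1) (le_min hc1.le zero_le_one)
    (fun v _ => (localOn_armBox v s (3 * s)).compl)
    (fun v _ => by rw [compl_compl]; exact incr_armBox _ _ _)
    (fun v _ => by
      rw [← hcompl]
      exact (min_le_left _ _).trans (H m q hm hq v s hs (by omega)))
  have h2 : (⋂ v ∈ V, (ArmBox v s (3 * s))ᶜ) = {ω | ∀ v ∈ V, ω ∉ ArmBox v s (3 * s)} := by
    ext ω
    rw [Set.mem_iInter₂]
    rfl
  rwa [h2] at h1

end Pool.Agent.H57.EX

end

section

/-!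
# First gluing: `x` is glued to `L`
-/

open MeasureTheory ProbabilityTheory unitInterval

namespace Pool.Agent.H57.EX

open Pool.Agent.H89.Perc Pool.Agent.H61.NC Pool.Agent.H29.Sep

private theorem nrm_joins {e : Edge} {v w : Vert} (h : Joins e v w) :
    nrm w ≤ nrm v + 1 ∧ nrm v - 1 ≤ nrm w :=
  ⟨by simpa using nrm_le_of_mem_ball (joins_ball h), by
    simpa using le_nrm_of_mem_ball (joins_ball h)⟩

private theorem not_mem_of_disj {A B : Set Vert} (h : Disjoint A B) {v : Vert} (hv : v ∈ A) :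
    v ∉ B := fun hv' => Set.disjoint_left.1 h hv hv'

private theorem cl_y_eq {Z : Dat} {s n : ℕ} {γ : ℕ → Vert} {b b' : Vert} (hs : 1 ≤ s)
    (hg : ZGood Z.m s γ n b b') {ω : Config} (h : Disjoint (cl ω Z.B {Z.y}) (ball b (38 * s))) :
    cl ω (GG Z s γ n) {Z.y} = cl ω Z.B {Z.y} := by
  have hm := Z.hm
  refine cl_eq_cl (fun v hv => Or.inl (Or.inl hv)) ?_ ?_
  · rintro v rfl -
    have h1 := mem_ball_zero.1 Z.hy
    exact mem_ball_zero.2 (by push_cast at h1 ⊢; omega)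
  · intro v hv e w he hw
    have hvB : nrm v ≤ 4 * Z.m := by
      have := mem_ball_zero.1 (cl_sub hv)
      push_cast at this
      exact this
    obtain ⟨h1, h2⟩ := nrm_joins he
    rcases hw with (hw | hw) | hw
    · exact hw
    · have := Z.hD w hw
      omega
    · exfalso
      have h3 := hg.inner w hw (by omega)
      have h4 : v ∈ ball b (38 * s) := by
        have h5 := ball_trans h3 (joins_ball (joins_symm he))
        exact ball_mono (by omega) h5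
      exact not_mem_of_disj h hv h4

private theorem cl_T_eq {Z : Dat} {s n : ℕ} {γ : ℕ → Vert} {b b' : Vert} (hs : 1 ≤ s)
    (hg : ZGood Z.m s γ n b b') {ω : Config} (h : Disjoint (cl ω Z.D Z.T) (ball b' (38 * s))) :
    cl ω (GG Z s γ n) Z.T = cl ω Z.D Z.T := by
  have hm := Z.hm
  refine cl_eq_cl (fun v hv => Or.inl (Or.inr hv)) (fun v hv _ => (Z.hT v hv).1) ?_
  intro v hv e w he hw
  have hvD : 16 * (Z.m : ℤ) ≤ nrm v := Z.hD v (cl_sub hv)
  obtain ⟨h1, h2⟩ := nrm_joins he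
  rcases hw with (hw | hw) | hw
  · have := mem_ball_zero.1 hw
    push_cast at this
    omega
  · exact hw
  · exfalso
    have h3 := hg.outer w hw (by omega)
    have h4 : v ∈ ball b' (38 * s) := by
      have h5 := ball_trans h3 (joins_ball (joins_symm he))
      exact ball_mono (by omega) h5
    exact not_mem_of_disj h hv h4

/-- Deterministic part of the first gluing. -/
theorem stage1_det {Z : Dat} {s n : ℕ} {γ : ℕ → Vert} {b b' : Vert} (hs : 1 ≤ s)
    (hsm : 100 * s ≤ Z.m) (hb : b ∈ sphere 0 (4 * Z.m)) (hb' : b' ∈ sphere 0 (16 * Z.m))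
    (hg : ZGood Z.m s γ n b b') {ω : Config} (h : ω ∈ E0 Z s b b') (ho : ω ∈ AllCirc γ n s) :
    ω ∈ E1 Z s b b' (GG Z s γ n) := by
  obtain ⟨⟨u, hu, hxu⟩, hxy, ⟨a, haL, haT, w, hw, haw⟩, hy4, hT16, hd, hd'⟩ := h
  have hm := Z.hm
  have ey := cl_y_eq hs hg hd
  have eT := cl_T_eq hs hg hd'
  have hnb : nrm b = 4 * Z.m := by
    have := mem_sphere_zero.1 hb
    push_cast at this
    exact this
  have hnb' : nrm b' = 16 * Z.m := by
    have := mem_sphere_zero.1 hb'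
    push_cast at this
    exact this
  have hx2 : nrm Z.x ≤ 2 := by
    have := mem_ball_zero.1 Z.hx
    push_cast at this
    exact this
  have hxb : Z.x ∉ ball b (3 * s) := fun hx => by
    have := le_nrm_of_mem_ball hx
    push_cast at this
    omega
  have hab : a ∉ ball b' (3 * s) := fun hx => by
    have h1 := nrm_le_of_mem_ball hx
    have h2 := (Z.hL a haL).2
    push_cast at h1
    omega
  have hglue := chain_glue hs hg.chain ho hxu hxb hu haw hab hw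
  show P1 Z s b b' (cl ω (GG Z s γ n) {Z.x}) (cl ω (GG Z s γ n) {Z.y}) (cl ω (GG Z s γ n) Z.T)
  refine ⟨⟨a, mem_cl_iff.2 hglue, haL⟩, ?_, ?_, ?_, ?_, ?_, ?_, ?_, ?_⟩
  · rw [ey]; exact hy4
  · rw [eT]; exact hT16
  · rw [ey]; exact cl_sub
  · rw [eT]; exact cl_sub
  · rw [ey]; exact hd
  · rw [eT]; exact hd'
  · exact cl_disjoint (by rw [ey]; exact hxy)
  · refine cl_disjoint ?_
    rw [eT]
    intro hx
    have := Z.hD _ (cl_sub hx)
    omega

private theorem disj_BD {Z : Dat} {v : Vert} (hB : v ∈ Z.B) (hD : v ∈ Z.D) : False := by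
  have h1 := mem_ball_zero.1 hB
  have h2 := Z.hD v hD
  have hm := Z.hm
  push_cast at h1
  omega

private theorem B_sub_R (Z : Dat) : Z.B ⊆ ball 0 Z.R := fun v hv => by
  refine Z.hWR (Z.hBW ?_)
  exact ball_mono (by omega) hv

private theorem ball_finite (v : Vert) (r : ℕ) : (ball v r).Finite := by
  refine Set.Finite.subset ((Set.finite_Icc (v.1 - r) (v.1 + r)).prod
    (Set.finite_Icc (v.2 - r) (v.2 + r))) ?_
  rintro ⟨a, b⟩ ⟨h1, h2, h3, h4⟩
  exact ⟨⟨h1, h2⟩, ⟨h3, h4⟩⟩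

/-- First gluing. -/
theorem stage1 {Z : Dat} {s n : ℕ} {γ : ℕ → Vert} {b b' : Vert} (hs : 1 ≤ s)
    (hsm : 100 * s ≤ Z.m) (hb : b ∈ sphere 0 (4 * Z.m)) (hb' : b' ∈ sphere 0 (16 * Z.m))
    (hg : ZGood Z.m s γ n b b') {q : I} {c : ℝ} (hc : 0 ≤ c)
    (hP : c ≤ Pr q (AllCirc γ n s)) :
    c * PrE q Z.E (E0 Z s b b') ≤ PrE q Z.E (E1 Z s b b' (GG Z s γ n)) := by
  classical
  have hm := Z.hm
  have hBR := B_sub_R Z
  have hDR : Z.D ⊆ ball 0 Z.R := Z.hDW.trans Z.hWR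
  have hBf : Z.B.Finite := (ball_finite 0 Z.R).subset hBR
  have hDf : Z.D.Finite := (ball_finite 0 Z.R).subset hDR
  have hsB : ∀ e, src e ∈ Z.B → tgt e ∈ Z.B → e ∈ eIn Z.R Z.B :=
    fun e h1 h2 => (mem_eIn hBR).2 ⟨h1, h2⟩
  have hsD : ∀ e, src e ∈ Z.D → tgt e ∈ Z.D → e ∈ eIn Z.R Z.D :=
    fun e h1 h2 => (mem_eIn hDR).2 ⟨h1, h2⟩
  -- the index set
  let F : Finset (Set Vert × Set Vert) :=
    (hBf.finite_subsets.toFinset ×ˢ hDf.finite_subsets.toFinset).filter (fun i =>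
      Z.x ∉ i.1 ∧ (i.1 ∩ sphere 0 (4 * Z.m)).Nonempty ∧ (i.2 ∩ sphere 0 (16 * Z.m)).Nonempty ∧
        Disjoint i.1 (ball b (38 * s)) ∧ Disjoint i.2 (ball b' (38 * s)))
  let X : Set Vert × Set Vert → Set Config := fun i =>
    {ω | cl ω Z.B {Z.y} = i.1} ∩ {ω | cl ω Z.D Z.T = i.2}
  let A : Set Vert × Set Vert → Set Config := fun i =>
    {ω | (∃ u ∈ ball b s, Conn ω (Z.B \ i.1) Z.x u) ∧
      ∃ u ∈ Z.L, u ∉ i.2 ∧ ∃ w ∈ ball b' s, Conn ω (Z.D \ i.2) u w}
  have hF : ∀ i ∈ F, Z.x ∉ i.1 ∧ (i.1 ∩ sphere 0 (4 * Z.m)).Nonempty ∧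
      (i.2 ∩ sphere 0 (16 * Z.m)).Nonempty ∧ Disjoint i.1 (ball b (38 * s)) ∧
      Disjoint i.2 (ball b' (38 * s)) := fun i hi => (Finset.mem_filter.1 hi).2
  have key := cond_fkgE (q := q) (E := Z.E) F X A (fun _ => AllCirc γ n s)
    (fun i => touch (eIn Z.R Z.B) i.1 ∪ touch (eIn Z.R Z.D) i.2)
    (fun i => off (eIn Z.R Z.B) i.1 ∪ off (eIn Z.R Z.D) i.2)
    (fun _ => eZone γ n s) hc ?_ ?_ ?_ ?_ ?_ ?_ ?_ ?_ ?_
  · refine le_trans (mul_le_mul_of_nonneg_left (PrE_mono ?_) hc) (key.trans (PrE_mono ?_))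
    · rintro ω ⟨⟨u, hu, hxu⟩, hxy, ⟨a, haL, haT, w, hw, haw⟩, hy4, hT16, hd, hd'⟩
      refine Set.mem_biUnion (x := (cl ω Z.B {Z.y}, cl ω Z.D Z.T)) ?_
        ⟨⟨rfl, rfl⟩, ⟨u, hu, conn_off hxy hxu⟩, a, haL, haT, w, hw, conn_off haT haw⟩
      refine Finset.mem_filter.2 ⟨Finset.mem_product.2 ⟨?_, ?_⟩, hxy, hy4, hT16, hd, hd'⟩
      · exact (Set.Finite.mem_toFinset _).2 cl_sub
      · exact (Set.Finite.mem_toFinset _).2 cl_sub
    · intro ω hω
      simp only [Set.mem_iUnion] at hω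
      obtain ⟨i, hi, ⟨hX1, hX2⟩, ⟨⟨u, hu, hxu⟩, a, haL, haT, w, hw, haw⟩, hO⟩ := hω
      simp only [Set.mem_ofPred_eq] at hX1 hX2
      obtain ⟨k1, k2, k3, k4, k5⟩ := hF i hi
      refine stage1_det hs hsm hb hb' hg ?_ hO
      refine ⟨⟨u, hu, hxu.mono_set Set.sdiff_subset⟩, by rw [hX1]; exact k1,
        ⟨a, haL, by rw [hX2]; exact haT, w, hw, haw.mono_set Set.sdiff_subset⟩, ?_, ?_, ?_, ?_⟩
      · rw [hX1]; exact k2
      · rw [hX2]; exact k3
      · rw [hX1]; exact k4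
      · rw [hX2]; exact k5
  · -- disjointness of the values
    intro i _ j _ hij
    rw [Set.disjoint_left]
    rintro ω ⟨h1, h2⟩ ⟨h3, h4⟩
    simp only [Set.mem_ofPred_eq] at h1 h2 h3 h4
    exact hij (Prod.ext (h1.symm.trans h3) (h2.symm.trans h4))
  · intro i _
    exact LocalOn.inter ((localOn_cl hsB).mono Finset.subset_union_left)
      ((localOn_cl hsD).mono Finset.subset_union_right)
  · rintro i - ω ω' h ⟨⟨u, hu, hxu⟩, a, haL, haT, w, hw, haw⟩
    exact ⟨⟨u, hu, localOn_conn_off hsB ω ω' (fun e he => h e (Finset.mem_union_left _ he)) hxu⟩,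
      a, haL, haT, w, hw,
      localOn_conn_off hsD ω ω' (fun e he => h e (Finset.mem_union_right _ he)) haw⟩
  · intro i _
    exact localOn_allCirc γ n s
  · rintro i - ω ω' h ⟨⟨u, hu, hxu⟩, a, haL, haT, w, hw, haw⟩
    exact ⟨⟨u, hu, hxu.mono le_rfl h⟩, a, haL, haT, w, hw, haw.mono le_rfl h⟩
  · intro i _
    exact incr_allCirc γ n s
  · intro i _
    rw [Finset.disjoint_union_left, Finset.disjoint_union_right, Finset.disjoint_union_right]
    refine ⟨⟨touch_disj _ _ _, ?_⟩, ?_, touch_disj _ _ _⟩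
    · rw [Finset.disjoint_left]
      intro e h1 h2
      have h3 := ((mem_eIn hBR).1 (mem_touch.1 h1).1).1
      have h4 := ((mem_eIn hDR).1 (mem_off.1 h2).1).1
      exact disj_BD h3 h4
    · rw [Finset.disjoint_left]
      intro e h1 h2
      have h3 := ((mem_eIn hDR).1 (mem_touch.1 h1).1).1
      have h4 := ((mem_eIn hBR).1 (mem_off.1 h2).1).1
      exact disj_BD h4 h3
  · intro i hi
    obtain ⟨k1, k2, k3, k4, k5⟩ := hF i hi
    rw [Finset.disjoint_union_left]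
    constructor
    · rw [Finset.disjoint_left]
      intro e h1 h2
      obtain ⟨h3, h4⟩ := mem_touch.1 h1
      obtain ⟨h5, h6⟩ := (mem_eIn hBR).1 h3
      obtain ⟨h7, h8⟩ := mem_eZone h2
      have aux : ∀ v ∈ Z.B, v ∈ zone γ n s → v ∉ i.1 := by
        intro v hv hz hvi
        have h9 := mem_ball_zero.1 hv
        push_cast at h9
        have h10 := hg.inner v hz (by omega)
        exact not_mem_of_disj k4 hvi (ball_mono (by omega) h10)
      rcases h4 with h4 | h4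
      · exact aux _ h5 h7 h4
      · exact aux _ h6 h8 h4
    · rw [Finset.disjoint_left]
      intro e h1 h2
      obtain ⟨h3, h4⟩ := mem_touch.1 h1
      obtain ⟨h5, h6⟩ := (mem_eIn hDR).1 h3
      obtain ⟨h7, h8⟩ := mem_eZone h2
      have aux : ∀ v ∈ Z.D, v ∈ zone γ n s → v ∉ i.2 := by
        intro v hv hz hvi
        have h9 := Z.hD v hv
        have h10 := hg.outer v hz (by omega)
        exact not_mem_of_disj k5 hvi (ball_mono (by omega) h10)
      rcases h4 with h4 | h4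
      · exact aux _ h5 h7 h4
      · exact aux _ h6 h8 h4
  · intro i _
    have hd : Disjoint (eZone γ n s) Z.E := by
      rw [Finset.disjoint_left]
      intro e h1 h2
      have h3 := hg.low _ (mem_eZone h1).1
      have h4 := mem_ball_zero.1 (Z.hE e h2).1
      push_cast at h4
      omega
    rw [PrE_eq (localOn_allCirc γ n s) hd]
    exact hP

end Pool.Agent.H57.EX

end

section

/-!
# Second gluing: `y` is glued to `T`
-/

open MeasureTheory ProbabilityTheory unitInterval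

namespace Pool.Agent.H57.EX

open Pool.Agent.H89.Perc Pool.Agent.H61.NC Pool.Agent.H29.Sep

private theorem s2b_ball_finite (v : Vert) (r : ℕ) : (ball v r).Finite := by
  refine Set.Finite.subset ((Set.finite_Icc (v.1 - r) (v.1 + r)).prod
    (Set.finite_Icc (v.2 - r) (v.2 + r))) ?_
  rintro ⟨a, b⟩ ⟨h1, h2, h3, h4⟩
  exact ⟨⟨h1, h2⟩, ⟨h3, h4⟩⟩

private theorem s2b_B_sub_W (Z : Dat) : Z.B ⊆ Z.W := fun v hv => by
  refine Z.hBW ?_
  exact ball_mono (by omega) hv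

/-- Deterministic part of the second gluing. -/
private theorem stage2b_det {Z : Dat} {s n : ℕ} {γ : ℕ → Vert} {β β' : Vert} (hs : 1 ≤ s)
    (hsm : 100 * s ≤ Z.m) (hβ : β ∈ sphere 0 (4 * Z.m)) (hβ' : β' ∈ sphere 0 (16 * Z.m))
    (hg : ZGood Z.m s γ n β β') {ω : Config} {S : Set Vert}
    (hS : Disjoint S (zone γ n s)) (ho : ω ∈ AllCirc γ n s) {u w v : Vert}
    (hu : u ∈ ball β s) (hyu : Conn ω (Z.B \ S) Z.y u) (hw : w ∈ Z.T)
    (hv : v ∈ ball β' s) (hwv : Conn ω (Z.D \ S) w v) :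
    Conn ω (GG Z s γ n \ S) Z.y w := by
  have hm := Z.hm
  have hnb : nrm β = 4 * Z.m := by
    have := mem_sphere_zero.1 hβ
    push_cast at this
    exact this
  have hnb' : nrm β' = 16 * Z.m := by
    have := mem_sphere_zero.1 hβ'
    push_cast at this
    exact this
  have hy2 : nrm Z.y ≤ 2 := by
    have := mem_ball_zero.1 Z.hy
    push_cast at this
    exact this
  have hyb : Z.y ∉ ball β (3 * s) := fun hx => by
    have := le_nrm_of_mem_ball hx
    push_cast at this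
    omega
  have hwb : w ∉ ball β' (3 * s) := fun hx => by
    have h1 := nrm_le_of_mem_ball hx
    have h2 := (Z.hT w hw).2
    push_cast at h1
    omega
  refine (chain_glue hs hg.chain ho hyu hyb hu hwv hwb hv).mono_set ?_
  rintro p ((hp | hp) | hp)
  · exact ⟨Or.inl (Or.inl hp.1), hp.2⟩
  · exact ⟨Or.inl (Or.inr hp.1), hp.2⟩
  · exact ⟨Or.inr hp, fun h => Set.disjoint_left.1 hS h hp⟩

/-- Second gluing. -/
theorem stage2b {Z : Dat} {s n : ℕ} {γ : ℕ → Vert} {β β' : Vert} (hs : 1 ≤ s)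
    (hsm : 100 * s ≤ Z.m) (hβ : β ∈ sphere 0 (4 * Z.m)) (hβ' : β' ∈ sphere 0 (16 * Z.m))
    (hg : ZGood Z.m s γ n β β') {q : I} {c : ℝ} (hc : 0 ≤ c)
    (hP : c ≤ Pr q (AllCirc γ n s)) :
    c * PrE q Z.E (E2 Z s γ n β β') ≤ PrE q Z.E (Fin Z s γ n) := by
  classical
  have hm := Z.hm
  have hWf : Z.W.Finite := (s2b_ball_finite 0 Z.R).subset Z.hWR
  have hsB : ∀ e, src e ∈ Z.B → tgt e ∈ Z.B → e ∈ eIn Z.R Z.W :=
    fun e h1 h2 => (mem_eIn Z.hWR).2 ⟨s2b_B_sub_W Z h1, s2b_B_sub_W Z h2⟩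
  have hsD : ∀ e, src e ∈ Z.D → tgt e ∈ Z.D → e ∈ eIn Z.R Z.W :=
    fun e h1 h2 => (mem_eIn Z.hWR).2 ⟨Z.hDW h1, Z.hDW h2⟩
  have hsW : ∀ e, src e ∈ Z.W → tgt e ∈ Z.W → e ∈ eIn Z.R Z.W :=
    fun e h1 h2 => (mem_eIn Z.hWR).2 ⟨h1, h2⟩
  let F : Finset (Set Vert) :=
    hWf.finite_subsets.toFinset.filter (fun S =>
      (S ∩ Z.L).Nonempty ∧ Disjoint S (zone γ n s))
  let X : Set Vert → Set Config := fun S => {ω | cl ω Z.W {Z.x} = S}
  let A : Set Vert → Set Config := fun S =>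
    {ω | (∃ u ∈ ball β s, Conn ω (Z.B \ S) Z.y u) ∧
      ∃ w ∈ Z.T, ∃ v ∈ ball β' s, Conn ω (Z.D \ S) w v}
  have hF : ∀ S ∈ F, (S ∩ Z.L).Nonempty ∧ Disjoint S (zone γ n s) :=
    fun S hS => (Finset.mem_filter.1 hS).2
  have key := cond_fkgE (q := q) (E := Z.E) F X A (fun _ => AllCirc γ n s)
    (fun S => touch (eIn Z.R Z.W) S) (fun S => off (eIn Z.R Z.W) S)
    (fun _ => eZone γ n s) hc ?_ ?_ ?_ ?_ ?_ ?_ ?_ ?_ ?_
  · refine le_trans (mul_le_mul_of_nonneg_left (PrE_mono ?_) hc) (key.trans (PrE_mono ?_))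
    · rintro ω ⟨hL, hd, hy, hT⟩
      refine Set.mem_biUnion (x := cl ω Z.W {Z.x}) ?_ ⟨rfl, hy, hT⟩
      exact Finset.mem_filter.2 ⟨(Set.Finite.mem_toFinset _).2 cl_sub, hL, hd⟩
    · intro ω hω
      simp only [Set.mem_iUnion] at hω
      obtain ⟨S, hS, hX, ⟨⟨u, hu, hyu⟩, w, hw, v, hv, hwv⟩, hO⟩ := hω
      obtain ⟨k1, k2⟩ := hF S hS
      have hX' : cl ω Z.W {Z.x} = S := hX
      refine ⟨?_, w, hw, ?_⟩
      · rw [hX']; exact k1
      · rw [hX']
        exact stage2b_det hs hsm hβ hβ' hg k2 hO hu hyu hw hv hwv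
  · intro i _ j _ hij
    rw [Set.disjoint_left]
    intro ω h1 h2
    have h1' : cl ω Z.W {Z.x} = i := h1
    have h2' : cl ω Z.W {Z.x} = j := h2
    exact hij (h1'.symm.trans h2')
  · intro i _
    exact localOn_cl hsW
  · rintro i - ω ω' h ⟨⟨u, hu, hyu⟩, w, hw, v, hv, hwv⟩
    exact ⟨⟨u, hu, localOn_conn_off hsB ω ω' h hyu⟩, w, hw, v, hv,
      localOn_conn_off hsD ω ω' h hwv⟩
  · intro i _
    exact localOn_allCirc γ n s
  · rintro i - ω ω' h ⟨⟨u, hu, hyu⟩, w, hw, v, hv, hwv⟩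
    exact ⟨⟨u, hu, hyu.mono le_rfl h⟩, w, hw, v, hv, hwv.mono le_rfl h⟩
  · intro i _
    exact incr_allCirc γ n s
  · intro i _
    exact touch_disj _ _ _
  · intro i hi
    obtain ⟨k1, k2⟩ := hF i hi
    rw [Finset.disjoint_left]
    intro e h1 h2
    obtain ⟨h3, h4⟩ := mem_touch.1 h1
    obtain ⟨h7, h8⟩ := mem_eZone h2
    rcases h4 with h4 | h4
    · exact Set.disjoint_left.1 k2 h4 h7
    · exact Set.disjoint_left.1 k2 h4 h8
  · intro i _
    have hd : Disjoint (eZone γ n s) Z.E := by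
      rw [Finset.disjoint_left]
      intro e h1 h2
      have h3 := hg.low _ (mem_eZone h1).1
      have h4 := mem_ball_zero.1 (Z.hE e h2).1
      push_cast at h4
      omega
    rw [PrE_eq (localOn_allCirc γ n s) hd]
    exact hP

end Pool.Agent.H57.EX

end
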