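import Pool.Agent.H94.BG.H31.PT.M06_3
import Pool.Agent.H94.BG.M06

/-! The parts of this file: H31.PT.M14_1, H31.PT.M15. -/

section

/-! The parts of this file: H57.EX.Det2, H57.EX.Det1, H57.EX.Stage2a, H57.EX.StdDet, H57.EX.StdBad, H57.EX.Near, H59.EX.SealProb, H59.EX.St2, H83.EX.CorrE, H26.ST.Defs, H26.ST.Cells, H26.ST.Open. -/

section

/-!
# The sealed cluster
-/

open MeasureTheory ProbabilityTheory unitInterval

namespace Pool.Agent.H57.EX

open Pool.Agent.H89.Perc Pool.Agent.H61.NC Pool.Agent.H29.Sep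

end Pool.Agent.H57.EX

end

section

/-!
# First landing
-/

open MeasureTheory ProbabilityTheory unitInterval

namespace Pool.Agent.H57.EX

open Pool.Agent.H89.Perc Pool.Agent.H61.NC Pool.Agent.H29.Sep

end Pool.Agent.H57.EX

end

section

/-!
# Sealing of the first cluster
-/

open MeasureTheory ProbabilityTheory unitInterval

namespace Pool.Agent.H57.EX

open Pool.Agent.H89.Perc Pool.Agent.H61.NC Pool.Agent.H29.Sep

end Pool.Agent.H57.EX

end

section

/-!
# The standard data: deterministic facts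
-/

open MeasureTheory ProbabilityTheory unitInterval

namespace Pool.Agent.H57.EX

open Pool.Agent.H89.Perc Pool.Agent.H61.NC Pool.Agent.H29.Sep

end Pool.Agent.H57.EX

end

section

/-!
# The standard data: probability of the bad events
-/

open MeasureTheory ProbabilityTheory unitInterval

namespace Pool.Agent.H57.EX

open Pool.Agent.H89.Perc Pool.Agent.H61.NC Pool.Agent.H29.Sep

end Pool.Agent.H57.EX

end

section

/-!
# Near clusters give two clusters of a local domain
-/

open MeasureTheory ProbabilityTheory unitInterval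

namespace Pool.Agent.H57.EX

open Pool.Agent.H89.Perc Pool.Agent.H61.NC Pool.Agent.H29.Sep

end Pool.Agent.H57.EX

end

section

/-!
# Probability of seals

`Seal G ρ t` contains the intersection over `g ∈ G` of the decreasing events no open path of the
full configuration from `ball g ρ` to `sphere g (3 ρ)` (close more edges), each of probability at
least `c'` by `noarm_lower`; use `fkg_decr_many`.  The cardinality of `G` is bounded by `M`.
-/

open MeasureTheory ProbabilityTheory unitInterval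

namespace Pool.Agent.H59.EX

open Pool.Agent.H89.Perc Pool.Agent.H61.NC

end Pool.Agent.H59.EX

end

section

/-!
# Outward separation: stage 2
-/

open MeasureTheory ProbabilityTheory unitInterval

namespace Pool.Agent.H59.EX

open Pool.Agent.H89.Perc Pool.Agent.H61.NC

end Pool.Agent.H59.EX

end

section

/-!
# The corridor lemma with an arbitrary finite edge set
-/

open MeasureTheory ProbabilityTheory unitInterval

namespace Pool.Agent.H59.EX

open Pool.Agent.H89.Perc

private theorem LocS.mono' {t t' : Set Edge} {A : Set Config} (h : LocS t A) (ht : t ⊆ t') :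
    LocS t' A := fun _ _ hω => h _ _ fun e he => hω e (ht he)

private theorem LocS.inter' {t : Set Edge} {A B : Set Config} (h : LocS t A) (h' : LocS t B) :
    LocS t (A ∩ B) := fun ω ω' hω hm => ⟨h ω ω' hω hm.1, h' ω ω' hω hm.2⟩

private theorem LocS.localOn' {t : Set Edge} {Λ : Finset Edge} {A : Set Config} (h : LocS t A)
    (ht : t ⊆ ↑Λ) : LocalOn Λ A := fun ω ω' hω => h ω ω' fun e he => hω e (by exact_mod_cast ht he)

private theorem locS_pb {π : Edge → Edge} {t : Set Edge} {A : Set Config} (h : LocS t A) :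
    LocS (π '' t) {ω | pb π ω ∈ A} := fun _ _ hω hm =>
  h _ _ (fun e he => hω (π e) ⟨e, he, rfl⟩) hm

private theorem incr_pb {π : Edge → Edge} {A : Set Config} (h : Incr A) :
    Incr {ω | pb π ω ∈ A} := fun _ _ hω hm => h _ _ (fun e he => hω (π e) he) hm

private theorem inE_finite {S : Set Vert} (hS : S.Finite) : (inE S).Finite := by
  refine ((hS.prod (Set.finite_univ (α := Bool))).image
    (fun z : Vert × Bool => ((z.1.1, z.1.2, z.2) : Edge))).subset ?_
  rintro ⟨a, b, t⟩ ⟨h1, -⟩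
  exact ⟨((a, b), t), ⟨h1, trivial⟩, rfl⟩

private theorem rect_finite (a b c d : ℤ) : (rect a b c d).Finite := by
  refine Set.Finite.subset ((Set.finite_Icc a b).prod (Set.finite_Icc c d)) ?_
  rintro ⟨x, y⟩ ⟨h1, h2, h3, h4⟩
  exact ⟨⟨h1, h2⟩, ⟨h3, h4⟩⟩

private theorem T_finite (d : Side) (k : ℕ) : (T d k).Finite := by
  cases d <;> exact rect_finite _ _ _ _

private theorem dom_finite (d d' : Side) (k : ℕ) : (dom d d' k).Finite :=
  (rect_finite _ _ _ _).union ((T_finite d k).union (T_finite d' k))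

private theorem touch_mono {D S S' : Set Vert} (h : S ⊆ S') : touch D S ⊆ touch D S' :=
  fun _ he => ⟨he.1, he.2.imp (fun x => h x) fun x => h x⟩

/-- Configurations which agree on the edges touching the cluster of `x` have the same cluster. -/
private theorem clus_congr {ω ω' : Config} {D X : Set Vert}
    (h : ∀ e ∈ touch D (clus ω D X), ω e = ω' e) : clus ω' D X = clus ω D X :=
  locS_clus D X (clus ω D X) ω ω' h rfl

private theorem conn_congr {ω ω' : Config} {D : Set Vert} {x v : Vert}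
    (h : ∀ e ∈ touch D (clus ω D {x}), ω e = ω' e) (hc : Conn ω D x v) : Conn ω' D x v := by
  have h1 : v ∈ clus ω D {x} := ⟨x, rfl, hc⟩
  rw [← clus_congr h] at h1
  obtain ⟨y, hy, h2⟩ := h1
  rw [Set.mem_singleton_iff.1 hy] at h2
  exact h2

private theorem conn_congr' {ω ω' : Config} {D : Set Vert} {x v : Vert}
    (h : ∀ e ∈ inE D, ω e = ω' e) (hc : Conn ω D x v) : Conn ω' D x v :=
  conn_congr (fun e he => h e he.1) hc

private theorem cut_congr (s : Src) {ω ω' : Config} {e : Edge} (h : ω e = ω' e) :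
    s.cut ω e = s.cut ω' e := by
  simp only [Src.cut, closeS, h]

private theorem fill_congr {Z : Set Vert} {ω ω' : Config} {e : Edge}
    (h : e ∉ inE Z → ω e = ω' e) : fillV Z ω e = fillV Z ω' e := by
  by_cases he : e ∈ inE Z
  · simp [fillV, he]
  · simp [fillV, he, h he]

private theorem cut_mono (s : Src) {ω ω' : Config} (h : ∀ e, ω e = true → ω' e = true) (e : Edge)
    (he : s.cut ω e = true) : s.cut ω' e = true := by
  simp only [Src.cut, closeS, Bool.and_eq_true, decide_eq_true_eq] at he ⊢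
  exact ⟨h e he.1, he.2⟩

private theorem le_fill {Z : Set Vert} {ω : Config} (e : Edge) (he : ω e = true) :
    fillV Z ω e = true := by
  simp [fillV, he]

/-- A fence only looks at the edges of its target and at the edges touching the cluster. -/
private theorem fence_congrCE {d : Side} {k : ℕ} {ω ω' : Config} {D : Set Vert} {x : Vert}
    (h1 : ∀ e ∈ inE (T d k), ω e = ω' e) (h2 : ∀ e ∈ touch D (clus ω D {x}), ω e = ω' e)
    (h : Fence d k ω D x) : Fence d k ω' D x := by
  cases d <;> obtain ⟨u, v, hu, hv, k1, k2⟩ := h <;>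
    exact ⟨u, v, hu, hv, conn_congr' h1 k1, conn_congr h2 k2⟩

private theorem fence_monoCE {d : Side} {k : ℕ} {ω ω' : Config} {D : Set Vert} {x : Vert}
    (h1 : ∀ e, ω e = true → ω' e = true) (h : Fence d k ω D x) : Fence d k ω' D x := by
  cases d <;> obtain ⟨u, v, hu, hv, k1, k2⟩ := h <;>
    exact ⟨u, v, hu, hv, k1.mono le_rfl h1, k2.mono le_rfl h1⟩

/-- The part of `Sep` about the filled configuration. -/
private def SepA (s : Src) (d d' : Side) (k : ℕ) : Set Config :=
  {ω | ¬ Conn (fillV (T d k ∪ T d' k) (s.cut ω)) (dom d d' k) s.x s.y ∧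
    (∀ v ∈ sphere 0 (32 * k),
      Conn (fillV (T d k ∪ T d' k) (s.cut ω)) (dom d d' k) s.x v → v ∈ Mouth d k) ∧
    (∀ v ∈ sphere 0 (32 * k),
      Conn (fillV (T d k ∪ T d' k) (s.cut ω)) (dom d d' k) s.y v → v ∈ Mouth d' k)}

/-- The increasing part of `Sep`. -/
private def SepG (s : Src) (d d' : Side) (k : ℕ) : Set Config :=
  {ω | Fence d k (s.cut ω) (dom d d' k) s.x ∧ Fence d' k (s.cut ω) (dom d d' k) s.y}

private theorem sep_eq (s : Src) (d d' : Side) (k : ℕ) : Sep s d d' k = SepA s d d' k ∩ SepG s d d' k := by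
  ext ω
  simp only [Sep, SepA, SepG, Set.mem_ofPred_eq, Set.mem_inter_iff]
  tauto

private theorem T_sub_dom (d d' : Side) (k : ℕ) : T d k ⊆ dom d d' k := fun _ h => Or.inr (Or.inl h)

private theorem T_sub_dom' (d d' : Side) (k : ℕ) : T d' k ⊆ dom d d' k :=
  fun _ h => Or.inr (Or.inr h)

private theorem inE_mono {S S' : Set Vert} (h : S ⊆ S') : inE S ⊆ inE S' :=
  fun _ he => ⟨h he.1, h he.2⟩

private theorem locS_sepA (s : Src) (d d' : Side) (k : ℕ) :
    LocS (inE (dom d d' k) \ inE (T d k ∪ T d' k)) (SepA s d d' k) := by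
  rintro ω ω' h ⟨h1, h2, h3⟩
  have key : ∀ e ∈ inE (dom d d' k), fillV (T d k ∪ T d' k) (s.cut ω') e =
      fillV (T d k ∪ T d' k) (s.cut ω) e := fun e he =>
    fill_congr fun hne => (cut_congr s (h e ⟨he, hne⟩)).symm
  exact ⟨fun hc => h1 (conn_congr' key hc), fun v hv hc => h2 v hv (conn_congr' key hc),
    fun v hv hc => h3 v hv (conn_congr' key hc)⟩

private theorem locS_sepG (s : Src) (d d' : Side) (k : ℕ) :
    LocS (inE (dom d d' k)) (SepG s d d' k) := by
  rintro ω ω' h ⟨h1, h2⟩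
  have key : ∀ e ∈ inE (dom d d' k), s.cut ω e = s.cut ω' e := fun e he => cut_congr s (h e he)
  exact ⟨fence_congrCE (fun e he => key e (inE_mono (T_sub_dom d d' k) he))
      (fun e he => key e he.1) h1,
    fence_congrCE (fun e he => key e (inE_mono (T_sub_dom' d d' k) he)) (fun e he => key e he.1) h2⟩

private theorem incr_sepG (s : Src) (d d' : Side) (k : ℕ) : Incr (SepG s d d' k) := by
  rintro ω ω' h ⟨h1, h2⟩
  exact ⟨fence_monoCE (cut_mono s h) h1, fence_monoCE (cut_mono s h) h2⟩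

private theorem locS_FX (s : Src) (d d' : Side) (k : ℕ) (S : Set Vert) :
    LocS (touch (dom d d' k) S) {ω | FX s d d' k ω = S} := by
  intro ω ω' h hω
  exact locS_clus _ _ S _ _ (fun e he => fill_congr fun _ => cut_congr s (h e he)) hω

private theorem locS_FY (s : Src) (d d' : Side) (k : ℕ) (S : Set Vert) :
    LocS (touch (dom d d' k) S) {ω | FY s d d' k ω = S} := by
  intro ω ω' h hω
  exact locS_clus _ _ S _ _ (fun e he => fill_congr fun _ => cut_congr s (h e he)) hω

private theorem clus_cut_sub {s : Src} {ω : Config} {Z D X : Set Vert} :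
    clus (s.cut ω) D X ⊆ clus (fillV Z (s.cut ω)) D X := by
  rintro v ⟨x, hx, hc⟩
  exact ⟨x, hx, hc.mono le_rfl fun e he => le_fill e he⟩

private theorem mem_FX {s : Src} {d d' : Side} {k : ℕ} {ω : Config} {v : Vert} :
    v ∈ FX s d d' k ω ↔ Conn (fillV (T d k ∪ T d' k) (s.cut ω)) (dom d d' k) s.x v := by
  simp [FX, clus]

private theorem mem_FY {s : Src} {d d' : Side} {k : ℕ} {ω : Config} {v : Vert} :
    v ∈ FY s d d' k ω ↔ Conn (fillV (T d k ∪ T d' k) (s.cut ω)) (dom d d' k) s.y v := by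
  simp [FY, clus]

/-- Once the two clusters are known, `Sep` is decided by the edges touching them and the edges in the
targets. -/
private theorem locS_sep_val (s : Src) (d d' : Side) (k : ℕ) {EC : Set Edge}
    (hT : inE (T d k) ⊆ EC) (hT' : inE (T d' k) ⊆ EC) (S S' : Set Vert) :
    LocS (touch (dom d d' k) (S ∪ S') ∪ EC)
      {ω | ω ∈ Sep s d d' k ∧ FX s d d' k ω = S ∧ FY s d d' k ω = S'} := by
  rintro ω ω' h ⟨⟨h1, h2, h3, h4, h5⟩, hX, hY⟩
  have hX' : FX s d d' k ω' = S := locS_FX s d d' k S ω ω'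
    (fun e he => h e (Or.inl (touch_mono Set.subset_union_left he))) hX
  have hY' : FY s d d' k ω' = S' := locS_FY s d d' k S' ω ω'
    (fun e he => h e (Or.inl (touch_mono Set.subset_union_right he))) hY
  have cX : ∀ v, Conn (fillV (T d k ∪ T d' k) (s.cut ω')) (dom d d' k) s.x v →
      Conn (fillV (T d k ∪ T d' k) (s.cut ω)) (dom d d' k) s.x v := fun v hv => by
    rw [← mem_FX] at hv ⊢
    rw [hX]
    rw [hX'] at hv
    exact hv
  have cY : ∀ v, Conn (fillV (T d k ∪ T d' k) (s.cut ω')) (dom d d' k) s.y v →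
      Conn (fillV (T d k ∪ T d' k) (s.cut ω)) (dom d d' k) s.y v := fun v hv => by
    rw [← mem_FY] at hv ⊢
    rw [hY]
    rw [hY'] at hv
    exact hv
  refine ⟨⟨?_, ?_, fun hc => h3 (cX _ hc), fun v hv hc => h4 v hv (cX _ hc),
    fun v hv hc => h5 v hv (cY _ hc)⟩, hX', hY'⟩
  · refine fence_congrCE (fun e he => cut_congr s (h e (Or.inr ?_))) (fun e he => cut_congr s
      (h e (Or.inl ?_))) h1
    · exact hT he
    · refine touch_mono (fun v hv => Or.inl ?_) he
      rw [← hX]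
      exact clus_cut_sub hv
  · refine fence_congrCE (fun e he => cut_congr s (h e (Or.inr ?_))) (fun e he => cut_congr s
      (h e (Or.inl ?_))) h2
    · exact hT' he
    · refine touch_mono (fun v hv => Or.inr ?_) he
      rw [← hY]
      exact clus_cut_sub hv

/-- Corridor lemma with an arbitrary finite edge set `EC`. -/
theorem corridor_probE {q : I} {π : Edge → Edge} {s : Src} {d d' : Side} {k : ℕ}
    {EC : Set Edge} {Np : Set Config} {H : Set Vert → Set Config} {c₁ c₂ : ℝ}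
    (hc₂ : 0 ≤ c₂) (hinj : Set.InjOn π (inE (dom d d' k) ∪ EC))
    (hT : inE (T d k) ⊆ EC) (hT' : inE (T d' k) ⊆ EC)
    (hC : EC ∩ inE (dom d d' k) ⊆ inE (T d k ∪ T d' k)) (hCf : EC.Finite)
    (hN : LocS EC Np) (iN : Incr Np) (hN1 : c₁ ≤ Pr q {ω | pb π ω ∈ Np})
    (hH : ∀ S, LocS (detE π d d' k EC S)ᶜ (H S))
    (hHΛ : ∃ Λ : Finset Edge, ∀ S, LocalOn Λ (H S))
    (hH1 : ∀ S, c₂ ≤ Pr q {ω | pb π ω ∈ H S}) :
    c₁ * c₂ * Pr q (Sep s d d' k) ≤
      Pr q {ω | pb π ω ∈ Sep s d d' k ∧ pb π ω ∈ Np ∧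
        pb π ω ∈ H (FX s d d' k (pb π ω) ∪ FY s d d' k (pb π ω))} := by
  classical
  obtain ⟨ΛH, hΛH⟩ := hHΛ
  have hfin : (inE (dom d d' k) ∪ EC).Finite := (inE_finite (dom_finite d d' k)).union hCf
  obtain ⟨Λ, hΛ⟩ : ∃ Λ : Finset Edge, Λ = (hfin.toFinset ∪ ΛH).image π := ⟨_, rfl⟩
  have hsub : ∀ t : Set Edge, t ⊆ inE (dom d d' k) ∪ EC → π '' t ⊆ ↑Λ := by
    rintro t ht _ ⟨e, he, rfl⟩
    rw [hΛ, Finset.mem_coe]
    exact Finset.mem_image_of_mem _ (Finset.mem_union_left _ (hfin.mem_toFinset.2 (ht he)))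
  have hloc : ∀ {t : Set Edge} {A : Set Config}, LocS t A → t ⊆ inE (dom d d' k) ∪ EC →
      LocalOn Λ {ω | pb π ω ∈ A} := fun h ht => (locS_pb h).localOn' (hsub _ ht)
  have hdomsub : inE (dom d d' k) ⊆ inE (dom d d' k) ∪ EC := Set.subset_union_left
  have hCsub : EC ⊆ inE (dom d d' k) ∪ EC := Set.subset_union_right
  have hZdom : inE (dom d d' k) \ inE (T d k ∪ T d' k) ⊆ inE (dom d d' k) ∪ EC :=
    fun e he => hdomsub he.1
  -- Step A
  have hA : c₁ * Pr q (Sep s d d' k) ≤
      Pr q {ω | pb π ω ∈ Sep s d d' k ∧ pb π ω ∈ Np} := by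
    have hdisj : π '' EC ⊆ (π '' (inE (dom d d' k) \ inE (T d k ∪ T d' k)))ᶜ := by
      rintro _ ⟨e, he, rfl⟩ ⟨e', he', heq⟩
      have h1 : e' = e := hinj (hdomsub he'.1) (hCsub he) heq
      subst h1
      exact he'.2 (hC ⟨he, he'.1⟩)
    have h1 := fkg_cond (q := q) (Λ := Λ)
      (t := π '' (inE (dom d d' k) \ inE (T d k ∪ T d' k)))
      (A := {ω | pb π ω ∈ SepA s d d' k}) (G := {ω | pb π ω ∈ SepG s d d' k})
      (H := {ω | pb π ω ∈ Np})
      (hloc (locS_sepA s d d' k) hZdom) (locS_pb (locS_sepA s d d' k))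
      (hloc (locS_sepG s d d' k) hdomsub) (incr_pb (incr_sepG s d d' k))
      (hloc hN hCsub) ((locS_pb hN).mono' hdisj) (incr_pb iN)
    have h2 : {ω | pb π ω ∈ SepA s d d' k} ∩ {ω | pb π ω ∈ SepG s d d' k} =
        {ω | pb π ω ∈ Sep s d d' k} := by
      rw [sep_eq]; rfl
    have h3 : Pr q {ω | pb π ω ∈ Sep s d d' k} = Pr q (Sep s d d' k) := by
      have hl : LocalOn (inE_finite (dom_finite d d' k)).toFinset (Sep s d d' k) := by
        rw [sep_eq]
        refine LocS.localOn' (t := inE (dom d d' k)) ?_ (by simp)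
        exact ((locS_sepA s d d' k).mono' Set.sdiff_subset).inter' (locS_sepG s d d' k)
      refine Pr_comp hl ?_
      intro e he e' he' heq
      rw [Set.Finite.coe_toFinset] at he he'
      exact hinj (hdomsub he) (hdomsub he') heq
    rw [h2, h3] at h1
    calc c₁ * Pr q (Sep s d d' k) ≤ Pr q (Sep s d d' k) * Pr q {ω | pb π ω ∈ Np} := by
          rw [mul_comm]
          exact mul_le_mul_of_nonneg_left hN1 Pr_nonneg
      _ ≤ _ := h1
      _ ≤ _ := Pr_mono fun ω hω => hω
  -- Step B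
  have hB := markov_indep (q := q) (Λ := Λ) (c := c₂)
    (fun ω => (FX s d d' k (pb π ω), FY s d d' k (pb π ω))) (fun _ => True)
    (fun i => π '' (touch (dom d d' k) (i.1 ∪ i.2) ∪ EC))
    (fun i => {ω | pb π ω ∈ {η | η ∈ Sep s d d' k ∧ FX s d d' k η = i.1 ∧ FY s d d' k η = i.2} ∩ Np})
    (fun i => {ω | pb π ω ∈ H (i.1 ∪ i.2)}) ?_ ?_ ?_ ?_ ?_ ?_ ?_ hc₂
  · refine le_trans ?_ (hB.trans (Pr_mono ?_))
    · have e : c₁ * c₂ * Pr q (Sep s d d' k) = c₂ * (c₁ * Pr q (Sep s d d' k)) := by ring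
      rw [e]
      refine (mul_le_mul_of_nonneg_left hA hc₂).trans
        (mul_le_mul_of_nonneg_left (Pr_mono ?_) hc₂)
      intro ω hω
      exact ⟨trivial, ⟨hω.1, rfl, rfl⟩, hω.2⟩
    · intro ω hω
      exact ⟨hω.2.1.1.1, hω.2.1.2, hω.2.2⟩
  · -- the values are local
    rintro ⟨S, S'⟩
    have h1 : LocS (inE (dom d d' k)) {η | FX s d d' k η = S ∧ FY s d d' k η = S'} :=
      fun ω ω' h hω => ⟨locS_FX s d d' k S ω ω' (fun e he => h e he.1) hω.1,
        locS_FY s d d' k S' ω ω' (fun e he => h e he.1) hω.2⟩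
    have h2 := hloc h1 hdomsub
    have h3 : {ω | (FX s d d' k (pb π ω), FY s d d' k (pb π ω)) = (S, S')} =
        {ω | pb π ω ∈ {η | FX s d d' k η = S ∧ FY s d d' k η = S'}} := by
      ext ω
      simp only [Set.mem_ofPred_eq, Prod.mk.injEq]
    rw [h3]
    exact h2
  · rintro ⟨S, S'⟩ -
    have h1 : LocS (touch (dom d d' k) (S ∪ S') ∪ EC)
        {η | FX s d d' k η = S ∧ FY s d d' k η = S'} :=
      fun ω ω' h hω => ⟨locS_FX s d d' k S ω ω'
          (fun e he => h e (Or.inl (touch_mono Set.subset_union_left he))) hω.1,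
        locS_FY s d d' k S' ω ω'
          (fun e he => h e (Or.inl (touch_mono Set.subset_union_right he))) hω.2⟩
    have h2 := locS_pb (π := π) h1
    have h3 : {ω | (FX s d d' k (pb π ω), FY s d d' k (pb π ω)) = (S, S')} =
        {ω | pb π ω ∈ {η | FX s d d' k η = S ∧ FY s d d' k η = S'}} := by
      ext ω
      simp only [Set.mem_ofPred_eq, Prod.mk.injEq]
    rw [h3]
    exact h2
  · rintro ⟨S, S'⟩
    refine hloc (t := touch (dom d d' k) (S ∪ S') ∪ EC) ?_ ?_
    · exact (locS_sep_val s d d' k hT hT' S S').inter' (hN.mono' Set.subset_union_right)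
    · rintro e (he | he)
      · exact hdomsub he.1
      · exact hCsub he
  · rintro ⟨S, S'⟩ -
    exact locS_pb ((locS_sep_val s d d' k hT hT' S S').inter' (hN.mono' Set.subset_union_right))
  · rintro ⟨S, S'⟩ ω ω' h hω
    refine hΛH (S ∪ S') _ _ (fun e he => h (π e) ?_) hω
    rw [hΛ]
    exact Finset.mem_image_of_mem _ (Finset.mem_union_right _ he)
  · rintro ⟨S, S'⟩ - ω ω' h hω
    refine hH (S ∪ S') _ _ (fun e he => h (π e) ?_) hω
    rintro ⟨e', he', heq⟩
    exact he ⟨e', he', heq.symm⟩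
  · rintro ⟨S, S'⟩ -
    exact hH1 (S ∪ S')

end Pool.Agent.H59.EX

end

section

/-!
# Separated four arms on the torus: definitions

The torus of side `N` is `ℤ²` with the periodic configuration `per N ω = pb (modE N) ω`.  The source
edge is `(0, 0, d)`; the first point `(0, 0)` has its mouth in the west, the second point in the
east.  The corridor is the horizontal strip `[28 k, N - 28 k] × [-3 k, 3 k]` from the east target to
the translate by `(N, 0)` of the west target.
-/

open MeasureTheory ProbabilityTheory unitInterval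

namespace Pool.Agent.H26.ST

open Pool.Agent.H89.Perc Pool.Agent.H61.NC Pool.Agent.H59.EX

/-- Read the edges with `x ≥ N - 36 k` at the place shifted by `(-N, 0)`. -/
noncomputable def glu (N k : ℕ) (η : Config) : Config :=
  fun e => if e.1 < N - 36 * k then η e else η (e.1 - N, e.2.1, e.2.2)

/-- The corridor is crossed. -/
def NpT (N k : ℕ) : Set Config := {η | HCross (glu N k η) (28 * k) (N - 28 * k) (-(3 * k)) (3 * k)}

end Pool.Agent.H26.ST

end

section

/-!
# The sausages `Y ∪ corridor ∪ (X + (N, 0))` and their translates are far apart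
-/

open MeasureTheory ProbabilityTheory unitInterval

namespace Pool.Agent.H26.ST

open Pool.Agent.H89.Perc Pool.Agent.H61.NC Pool.Agent.H59.EX

end Pool.Agent.H26.ST

end

section

/-!
# With the source edge open there is a winding path
-/

open MeasureTheory ProbabilityTheory unitInterval

namespace Pool.Agent.H26.ST

open Pool.Agent.H89.Perc Pool.Agent.H61.NC Pool.Agent.H59.EX

theorem glu_per (N k : ℕ) (ω : Config) : glu N k (per N ω) = per N ω := by
  funext e
  unfold glu
  split_ifs with h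
  · rfl
  · simp only [per, Int.sub_emod_right]

end Pool.Agent.H26.ST

end

end

section

/-! The parts of this file: H61.NC.Sum, H59.EX.MoveCore, H59.EX.Moves, H59.EX.Iter0, H26.ST.Closed. -/

section

/-!
# Sums over edges: the second derivative is bounded by the square of the first
-/

open MeasureTheory ProbabilityTheory unitInterval

namespace Pool.Agent.H61.NC

open Pool.Agent.H89.Perc

theorem Sum_card_eRect (m : ℤ) (s : ℕ) :
    (eRect (m - s) (m + s) (m - s) (m + s)).card = 2 * (2 * s + 1) ^ 2 := by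
  unfold eRect
  rw [Finset.card_product, Finset.card_product, Int.card_Icc, Finset.card_univ, Fintype.card_bool]
  have h : (m + (s : ℤ) + 1 - (m - s)).toNat = 2 * s + 1 := by omega
  rw [h]
  ring

/-- The influences at scale `N` are comparable to the four-arm probability at scale `N / 64`. -/
theorem a4_le_sT (hGL : GLTorus) (hBL : BlockLow) : ∀ c : ℝ, 0 < c → ∃ C : ℝ, 0 < C ∧
    ∀ (N : ℕ) (q : I) (d : Bool), 64 ≤ N → RSWreg c N q → a4 q (N / 64) ≤ C * sT q N d := by
  intro c hc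
  obtain ⟨C1, hC1, h1⟩ := hGL c hc
  obtain ⟨C2, δ, hC2, hδ, h2⟩ := hBL c hc
  refine ⟨64 * C1 * C2, by positivity, fun N q d hN hR => ?_⟩
  obtain ⟨r, hr⟩ : ∃ r, r = N / 64 := ⟨_, rfl⟩
  rw [← hr]
  have hr1 : 1 ≤ r := by omega
  have hrN : 64 * r ≤ N := by omega
  have hrN' : N ≤ 128 * r := by omega
  have k1 := h1 N r q d hr1 hrN hR
  have k2 := h2 N (16 * r) q (by omega) (by omega) hR
  have hNpos : (0 : ℝ) < N := by exact_mod_cast (by omega : 0 < N)
  have hx1 : (1 / 8 : ℝ) ≤ ((16 * r : ℕ) : ℝ) / N := by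
    rw [le_div_iff₀ hNpos]
    have : (N : ℝ) ≤ 128 * r := by exact_mod_cast hrN'
    push_cast
    linarith only [this]
  have hx2 : ((16 * r : ℕ) : ℝ) / N ≤ 1 := by
    rw [div_le_one hNpos]
    exact_mod_cast (by omega : 16 * r ≤ N)
  have hx0 : 0 < ((16 * r : ℕ) : ℝ) / N := by linarith only [hx1]
  have k3 : (1 / 64 : ℝ) ≤ (((16 * r : ℕ) : ℝ) / N) ^ (2 - δ) := by
    calc (1 / 64 : ℝ) = (1 / 8 : ℝ) ^ 2 := by norm_num
      _ ≤ (((16 * r : ℕ) : ℝ) / N) ^ 2 := by gcongr
      _ = (((16 * r : ℕ) : ℝ) / N) ^ (2 : ℝ) := (Real.rpow_two _).symm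
      _ ≤ _ := Real.rpow_le_rpow_of_exponent_ge hx0 hx2 (by linarith only [hδ])
  have k4 : 1 ≤ 64 * C2 * Pr q (BlockPiv N (16 * r)) := by linarith only [k2, k3]
  have ha := a4_nonneg q r
  calc a4 q r = a4 q r * 1 := (mul_one _).symm
    _ ≤ a4 q r * (64 * C2 * Pr q (BlockPiv N (16 * r))) := mul_le_mul_of_nonneg_left k4 ha
    _ = 64 * C2 * (a4 q r * Pr q (BlockPiv N (16 * r))) := by ring
    _ ≤ 64 * C2 * (C1 * sT q N d) := mul_le_mul_of_nonneg_left k1 (by positivity)
    _ = _ := by ring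

theorem Sum_rpow (δ : ℝ) (h0 : 0 < δ) (h1 : δ ≤ 1) (n : ℕ) :
    ∑ t ∈ Finset.Icc 1 n, (t : ℝ) ^ (δ - 1) ≤ (n : ℝ) ^ δ / δ := by
  induction n with
  | zero =>
    rw [Finset.Icc_eq_empty (by omega), Finset.sum_empty]
    positivity
  | succ n ih =>
    rw [Finset.sum_Icc_succ_top (by omega)]
    have hn : (0 : ℝ) < ((n + 1 : ℕ) : ℝ) := by positivity
    have k1 : (n : ℝ) ^ δ ≤ ((n + 1 : ℕ) : ℝ) ^ δ * (1 + δ * (-(1 / ((n + 1 : ℕ) : ℝ)))) := by
      have e : (n : ℝ) = ((n + 1 : ℕ) : ℝ) * (1 + -(1 / ((n + 1 : ℕ) : ℝ))) := by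
        field_simp
        push_cast
        ring
      have hs : -1 ≤ -(1 / ((n + 1 : ℕ) : ℝ)) := by
        rw [neg_le_neg_iff, div_le_one hn]
        push_cast
        linarith only [Nat.cast_nonneg (α := ℝ) n]
      conv_lhs => rw [e]
      rw [Real.mul_rpow hn.le (by linarith only [hs])]
      exact mul_le_mul_of_nonneg_left (rpow_one_add_le_one_add_mul_self hs h0.le h1)
        (by positivity)
    have k2 : ((n + 1 : ℕ) : ℝ) ^ (δ - 1) = ((n + 1 : ℕ) : ℝ) ^ δ / ((n + 1 : ℕ) : ℝ) := by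
      rw [Real.rpow_sub hn, Real.rpow_one]
    have k3 : (n : ℝ) ^ δ + δ * ((n + 1 : ℕ) : ℝ) ^ (δ - 1) ≤ ((n + 1 : ℕ) : ℝ) ^ δ := by
      rw [k2]
      have e : ((n + 1 : ℕ) : ℝ) ^ δ * (1 + δ * (-(1 / ((n + 1 : ℕ) : ℝ)))) =
        ((n + 1 : ℕ) : ℝ) ^ δ - δ * (((n + 1 : ℕ) : ℝ) ^ δ / ((n + 1 : ℕ) : ℝ)) := by ring
      rw [e] at k1
      linarith only [k1]
    rw [le_div_iff₀ h0] at ih ⊢
    nlinarith only [ih, k3]

theorem Sum_card_tEdges (N : ℕ) : ((tEdges N).card : ℝ) = 2 * (N : ℝ) ^ 2 := by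
  unfold tEdges
  rw [Finset.card_product, Finset.card_product, Int.card_Ico, Finset.card_univ, Fintype.card_bool]
  have h : ((N : ℤ) - 0).toNat = N := by omega
  rw [h]
  push_cast
  ring

theorem Sum_eight (N : ℕ) (h : ℕ → ℝ) (hh : ∀ t, 0 ≤ h t) :
    ∑ t ∈ Finset.Icc 8 N, (t : ℝ) * h (t / 8) ≤ 120 * ∑ r ∈ Finset.Icc 1 N, (r : ℝ) * h r := by
  classical
  have hmaps : ∀ t ∈ Finset.Icc 8 N, t / 8 ∈ Finset.Icc 1 N := by
    intro t ht
    rw [Finset.mem_Icc] at ht ⊢
    omega
  rw [← Finset.sum_fiberwise_of_maps_to hmaps, Finset.mul_sum]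
  refine Finset.sum_le_sum fun r hr => ?_
  rw [Finset.mem_Icc] at hr
  have h1 : ∀ t ∈ (Finset.Icc 8 N).filter (fun t => t / 8 = r), (t : ℝ) * h (t / 8) ≤
      15 * r * h r := by
    intro t ht
    rw [Finset.mem_filter] at ht
    rw [ht.2]
    refine mul_le_mul_of_nonneg_right ?_ (hh r)
    have : t ≤ 15 * r := by omega
    exact_mod_cast this
  have h2 : ((Finset.Icc 8 N).filter (fun t => t / 8 = r)).card ≤ 8 := by
    have hsub : (Finset.Icc 8 N).filter (fun t => t / 8 = r) ⊆ Finset.Icc (8 * r) (8 * r + 7) := by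
      intro t ht
      rw [Finset.mem_filter] at ht
      rw [Finset.mem_Icc]
      omega
    have h3 := Finset.card_le_card hsub
    rw [Nat.card_Icc] at h3
    omega
  calc ∑ t ∈ (Finset.Icc 8 N).filter (fun t => t / 8 = r), (t : ℝ) * h (t / 8)
      ≤ ∑ t ∈ (Finset.Icc 8 N).filter (fun t => t / 8 = r), 15 * r * h r := Finset.sum_le_sum h1
    _ = ((Finset.Icc 8 N).filter (fun t => t / 8 = r)).card * (15 * r * h r) := by
        rw [Finset.sum_const, nsmul_eq_mul]
    _ ≤ 8 * (15 * r * h r) := by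
        refine mul_le_mul_of_nonneg_right (by exact_mod_cast h2) ?_
        have := hh r
        positivity
    _ = _ := by ring

end Pool.Agent.H61.NC

end

section

/-!
# Extension of separated events along abstract corridors
-/

open MeasureTheory ProbabilityTheory unitInterval

namespace Pool.Agent.H59.EX

open Pool.Agent.H89.Perc Pool.Agent.H61.NC

/-! ### Rectangles are connected -/

/-! ### Elementary geometry -/

end Pool.Agent.H59.EX

end

section

/-!
# All moves between pairs of sides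
-/

open MeasureTheory ProbabilityTheory unitInterval

namespace Pool.Agent.H59.EX

open Pool.Agent.H89.Perc Pool.Agent.H61.NC

end Pool.Agent.H59.EX

end

section

/-!
# Finite energy, explicit separated configurations
-/

open MeasureTheory ProbabilityTheory unitInterval

namespace Pool.Agent.H59.EX

open Pool.Agent.H89.Perc Pool.Agent.H61.NC

/-! ### Explicit configurations -/

end Pool.Agent.H59.EX

end

section

/-!
# With the source edge closed there is no winding path
-/

open MeasureTheory ProbabilityTheory unitInterval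

namespace Pool.Agent.H26.ST

open Pool.Agent.H89.Perc Pool.Agent.H61.NC Pool.Agent.H59.EX

variable {N k : ℕ} {ζ η : Config} {X Y : Set Vert} {a b : Vert} {i j : ℤ × ℤ}

/-- Open determined edges have both endpoints in the same sausage. -/
theorem TD.det (h : TD N k ζ X Y) {e : Edge} (he : Joins e a b) (ho : ζ e = true)
    (ht : e ∈ Pool.Agent.H59.EX.detE (modE N) .W .E k (EC N k) (X ∪ Y)) :
    ∃ i, In N k X Y i a ∧ In N k X Y i b := by
  obtain ⟨e', he', hm⟩ := ht
  have hz : ∃ z : ℤ × ℤ, e' = shiftE (-(z.1 * N), -(z.2 * N)) e := by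
    obtain ⟨x, y, t⟩ := e
    obtain ⟨x', y', t'⟩ := e'
    simp only [modE, Prod.mk.injEq] at hm
    obtain ⟨h1, h2, h3⟩ := hm
    obtain ⟨m1, hm1⟩ : (N : ℤ) ∣ x - x' := Int.ModEq.dvd (Int.ModEq.symm h1)
    obtain ⟨m2, hm2⟩ : (N : ℤ) ∣ y - y' := Int.ModEq.dvd (Int.ModEq.symm h2)
    refine ⟨(m1, m2), ?_⟩
    simp only [shiftE, Prod.mk.injEq]
    refine ⟨?_, ?_, h3.symm⟩
    · rw [mul_comm] at hm1; omega
    · rw [mul_comm] at hm2; omega
  obtain ⟨z, hz⟩ := hz
  subst hz
  have hj := joins_sh (N := N) z he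
  have ho' : ζ (shiftE (-(z.1 * N), -(z.2 * N)) e) = true := by rw [per_sh h.per]; exact ho
  have hX : sh N z a ∈ X → sh N z b ∈ X → ∃ i, In N k X Y i a ∧ In N k X Y i b := by
    intro h1 h2
    refine ⟨(z.1 - 1, z.2), Or.inr (Or.inr ?_), Or.inr (Or.inr ?_)⟩
    · simpa using h1
    · simpa using h2
  rcases he' with he' | he' | he'
  · rw [touch_of_joins hj] at he'
    obtain ⟨⟨h1, h2⟩, h3⟩ := he'
    rcases h3 with (h3 | h3) | (h3 | h3)
    · exact hX h3 (h.clX _ h3 _ h2 _ hj ho')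
    · exact ⟨z, Or.inl h3, Or.inl (h.clY _ h3 _ h2 _ hj ho')⟩
    · exact hX (h.clX _ h3 _ h1 _ hj.symm ho') h3
    · exact ⟨z, Or.inl (h.clY _ h3 _ h1 _ hj.symm ho'), Or.inl h3⟩
  · have h1 := (inE_of_joins hj).1 he'.1
    exact ⟨z, Or.inr (Or.inl h1.1), Or.inr (Or.inl h1.2)⟩
  · have h1 := (inE_of_joins hj).1 he'
    exact hX (h.TX h1.1) (h.TX h1.2)

theorem conn_sh {ζ : Config} (hp : PerInv N ζ) (j : ℤ × ℤ) {S : Set Vert} {T : Set Vert}
    (hST : ∀ v ∈ S, sh N j v ∈ T) {a b : Vert} (h : Conn ζ S a b) :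
    Conn ζ T (sh N j a) (sh N j b) := by
  refine h.map (sh N j) hST ?_
  intro e a b he ho
  exact ⟨_, joins_sh j he, by rw [per_sh hp]; exact ho⟩

/-- A winding path avoiding all the sausages crosses the strip. -/
theorem TD.strip (h : TD N k ζ X Y) {u v : Vert} (hc : Conn ζ {w | ∀ i, ¬ In N k X Y i w} u v)
    (huv : u.1 + 2 * N ≤ v.1) : HCross ζ (40 * k) (50 * k) (3 * k + 1) (N - 3 * k - 1) := by
  have hk := h.hk
  have hN : (128 * k : ℤ) ≤ N := by exact_mod_cast h.hN
  have hN0 : (0 : ℤ) < N := by omega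
  -- the horizontal position
  obtain ⟨m, hm⟩ : ∃ m : ℤ, m = (u.1 - 40 * k) / N + 1 := ⟨_, rfl⟩
  have hm1 : u.1 ≤ 40 * k + m * N := by
    have := Int.lt_ediv_add_one_mul_self (u.1 - 40 * k) hN0
    rw [← hm] at this
    omega
  have hm2 : 40 * k + m * N ≤ u.1 + N := by
    have := Int.ediv_mul_le (u.1 - 40 * k) hN0.ne'
    have e : m * N = (u.1 - 40 * k) / N * N + N := by rw [hm]; ring
    omega
  obtain ⟨u₁, v₁, hu₁, hv₁, hc₁, -, -⟩ := hc.cross_x (a := 40 * k + m * N) (b := 50 * k + m * N)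
    hm1 (by omega) (by omega)
  -- the vertical position
  have hC : ∀ (l : ℤ) (w : Vert), (∀ i, ¬ In N k X Y i w) → 40 * k + m * N ≤ w.1 →
      w.1 ≤ 50 * k + m * N → w.2 < l * N - 3 * k ∨ l * N + 3 * k < w.2 := by
    intro l w hw h1 h2
    by_contra hcon
    push Not at hcon
    refine hw (m, l) (Or.inr (Or.inl ?_))
    rw [mem_Cor]
    simp only [sh]
    omega
  obtain ⟨l, hl⟩ : ∃ l : ℤ, l = u₁.2 / N := ⟨_, rfl⟩
  have hl1 : l * N ≤ u₁.2 := by
    rw [hl]; exact Int.ediv_mul_le _ hN0.ne'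
  have hl2 : u₁.2 < (l + 1) * N := by
    rw [hl]; exact Int.lt_ediv_add_one_mul_self _ hN0
  have hl3 : (l + 1) * N = l * N + N := by ring
  have key : Conn ζ ({w | ∀ i, ¬ In N k X Y i w} ∩ {w | 40 * k + m * N ≤ w.1 ∧ w.1 ≤ 50 * k + m * N} ∩
      {w | l * N + 3 * k + 1 ≤ w.2 ∧ w.2 ≤ l * N + N - 3 * k - 1}) u₁ v₁ := by
    have h0 := hc₁.mem_left
    have a1 := hC l u₁ h0.1 h0.2.1 h0.2.2
    have a2 := hC (l + 1) u₁ h0.1 h0.2.1 h0.2.2
    refine hc₁.induction_right (P := fun w => Conn ζ _ u₁ w) (Conn.refl ⟨h0, ?_, ?_⟩) ?_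
    · omega
    · omega
    · intro p q h1 h2 h3
      have hp := h3.mem_right.2
      have hq := h2.2.1
      have hn := h2.snd_le
      have a3 := hC l q hq.1 hq.2.1 hq.2.2
      have a4 := hC (l + 1) q hq.1 hq.2.1 hq.2.2
      simp only [Set.mem_ofPred_eq] at hp
      refine h3.tail ⟨h3.mem_right, ⟨hq, ?_⟩, h2.2.2⟩
      simp only [Set.mem_ofPred_eq]
      omega
  refine ⟨sh N (m, l) u₁, sh N (m, l) v₁, ?_, ?_, ?_⟩
  · simp only [sh]; omega
  · simp only [sh]; omega
  · refine conn_sh h.per (m, l) ?_ key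
    rintro w ⟨⟨-, h1, h2⟩, h3, h4⟩
    simp only [sh, rect, Set.mem_ofPred_eq]
    omega

end Pool.Agent.H26.ST

end

end
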