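import Pool.Agent.H94.BG.H31.PT.M06_2
import Pool.Agent.H94.BG.H31.PT.M10
import Pool.Agent.H94.BG.H31.PT.M15_1
import Pool.Agent.H94.BG.M11

/-! The parts of this file: H31.PT.M14_3, H31.PT.H59.EX.Iter. -/

section

/-! The parts of this file: H57.EX.Det2, H57.EX.Det1, H57.EX.Stage2a, H57.EX.StdDet, H57.EX.StdBad, H57.EX.Near, H59.EX.SealProb, H59.EX.St2, H83.EX.CorrE, H26.ST.Defs, H26.ST.Cells, H26.ST.Open. -/

section

/-!
# The sealed cluster
-/

open MeasureTheory ProbabilityTheory unitInterval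

namespace Pool.Agent.H57.EX

open Pool.Agent.H89.Perc Pool.Agent.H61.NC Pool.Agent.H29.Sep

end Pool.Agent.H57.EX

end

section

/-!
# First landing
-/

open MeasureTheory ProbabilityTheory unitInterval

namespace Pool.Agent.H57.EX

open Pool.Agent.H89.Perc Pool.Agent.H61.NC Pool.Agent.H29.Sep

end Pool.Agent.H57.EX

end

section

/-!
# Sealing of the first cluster
-/

open MeasureTheory ProbabilityTheory unitInterval

namespace Pool.Agent.H57.EX

open Pool.Agent.H89.Perc Pool.Agent.H61.NC Pool.Agent.H29.Sep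

end Pool.Agent.H57.EX

end

section

/-!
# The standard data: deterministic facts
-/

open MeasureTheory ProbabilityTheory unitInterval

namespace Pool.Agent.H57.EX

open Pool.Agent.H89.Perc Pool.Agent.H61.NC Pool.Agent.H29.Sep

variable {m R : ℕ} {L T : Set Vert} {hm : 10 ≤ m} {hR : 64 * m ≤ R} {hL : L ⊆ sphere 0 R}
  {hT : T ⊆ sphere 0 R}

private theorem sd_mem_dom {v : Vert} {t R : ℕ} (ht : 1 ≤ t) :
    v ∈ dom t R ↔ nrm v ≤ R ∧ (t : ℤ) ≤ nrm v := by
  rw [dom, Set.mem_sdiff, mem_ball_zero, mem_ball_zero]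
  constructor
  · rintro ⟨h1, h2⟩
    exact ⟨h1, by omega⟩
  · rintro ⟨h1, h2⟩
    exact ⟨h1, by omega⟩

private theorem sd_dom_anti {t t' R : ℕ} (ht : 1 ≤ t) (h : t ≤ t') : dom t' R ⊆ dom t R := by
  intro v hv
  rw [sd_mem_dom (by omega)] at hv
  rw [sd_mem_dom ht]
  exact ⟨hv.1, by omega⟩

private theorem sd_diff_sub {t' R : ℕ} {G : Set Vert} (hG : G ⊆ ball 0 R) :
    G \ ball 0 (t' - 1) ⊆ dom t' R := fun _ hv => ⟨hG hv.1, hv.2⟩

theorem bd_std : (std m R L T hm hR hL hT).Bd = sphere 0 (16 * m) := by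
  ext v
  constructor
  · rintro (h | ⟨hv, e, w, he, hw, hwD⟩)
    · exact h
    · change v ∈ dom (16 * m) R at hv
      change w ∈ ball 0 R at hw
      change w ∉ dom (16 * m) R at hwD
      have hw' : w ∈ ball 0 (16 * m - 1) := by
        by_contra hc
        exact hwD ⟨hw, hc⟩
      rw [sd_mem_dom (by omega)] at hv
      rw [mem_ball_zero] at hw'
      have h1 := nrm_le_of_mem_ball (joins_ball (joins_symm he))
      rw [mem_sphere_zero]
      have h2 := hv.2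
      push_cast at h1 h2 ⊢
      omega
  · intro h
    exact Or.inl h

theorem out_eq_BT (t : ℕ) : Out (dom t R) L T t = BT t R L T := rfl

private theorem sd_reach {ω : Config} {G : Set Vert} {t' R : ℕ} {p u : Vert} (ht : 1 ≤ t')
    (hG : G ⊆ ball 0 R) (hc : Conn ω G p u) (hp : nrm p ≤ t') (hu : (t' : ℤ) ≤ nrm u) :
    ∃ v ∈ sphere 0 t', Conn ω (dom t' R) u v := by
  have hu' : u ∉ ball 0 (t' - 1) := by
    rw [mem_ball_zero]
    omega
  obtain ⟨v, hv, hc'⟩ := leave_sphere ht hc (mem_ball_zero.2 hp) hu'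
  exact ⟨v, hv, (hc'.mono_set (sd_diff_sub hG)).symm⟩

theorem BT_mono {t t' : ℕ} (h1 : 1 ≤ t) (h : t ≤ t') (h' : t' ≤ R) (hL : L ⊆ sphere 0 R)
    (hT : T ⊆ sphere 0 R) : BT t R L T ⊆ BT t' R L T := by
  rintro ω ⟨⟨u, huL, v, hv, hc, hn⟩, w, hwT, v', hv', hc'⟩
  have hsub : dom t R ⊆ ball 0 R := fun _ hx => hx.1
  rw [mem_sphere_zero] at hv hv'
  refine ⟨?_, ?_⟩
  · have hu := mem_sphere_zero.1 (hL huL)
    obtain ⟨v1, hv1, hc1⟩ := sd_reach (t' := t') (by omega) hsub hc.symm (by omega) (by omega)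
    exact ⟨u, huL, v1, hv1, hc1, fun x hx hcx => hn x hx (hcx.mono_set (sd_dom_anti h1 h))⟩
  · have hw := mem_sphere_zero.1 (hT hwT)
    obtain ⟨v1, hv1, hc1⟩ := sd_reach (t' := t') (by omega) hsub hc'.symm (by omega) (by omega)
    exact ⟨w, hwT, v1, hv1, hc1⟩

private theorem sd_GG_sub {s n : ℕ} {γ : ℕ → Vert} (hz : zone γ n s ⊆ ball 0 (17 * m)) :
    GG (std m R L T hm hR hL hT) s γ n ⊆ ball 0 R := by
  rintro v ((hv | hv) | hv)
  · change v ∈ ball 0 (4 * m) at hv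
    rw [mem_ball_zero] at hv ⊢
    push_cast at hv
    omega
  · exact hv.1
  · have := hz hv
    rw [mem_ball_zero] at this ⊢
    push_cast at this
    omega

private theorem sd_dom_GG {s n : ℕ} {γ : ℕ → Vert} :
    dom (64 * m) R ⊆ GG (std m R L T hm hR hL hT) s γ n := by
  intro v hv
  refine Or.inl (Or.inr ?_)
  exact sd_dom_anti (t := 16 * m) (t' := 64 * m) (by omega) (by omega) hv

theorem e1_BT {s n : ℕ} {γ : ℕ → Vert} {b b' : Vert} (hz : zone γ n s ⊆ ball 0 (17 * m)) :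
    E1 (std m R L T hm hR hL hT) s b b' (GG (std m R L T hm hR hL hT) s γ n) ⊆
      BT (64 * m) R L T := by
  rintro ω ⟨⟨u, hu1, huL⟩, _, ⟨p, hp3, hp⟩, _, _, _, _, _, hd⟩
  have hGs := sd_GG_sub (m := m) (R := R) (L := L) (T := T) (hm := hm) (hR := hR) (hL := hL)
    (hT := hT) (γ := γ) (n := n) (s := s) hz
  set G := GG (std m R L T hm hR hL hT) s γ n with hG
  change u ∈ L at huL
  change p ∈ sphere 0 (16 * m) at hp
  have huR := mem_sphere_zero.1 (hL huL)
  rw [mem_sphere_zero] at hp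
  have hxu : Conn ω G 0 u := mem_cl_iff.1 hu1
  obtain ⟨w, hwT, hwp⟩ := hp3
  change w ∈ T at hwT
  have hwR := mem_sphere_zero.1 (hT hwT)
  refine ⟨?_, ?_⟩
  · obtain ⟨v, hv, hc⟩ := sd_reach (t' := 64 * m) (by omega) hGs hxu
      (by simp [nrm]) (by push_cast; omega)
    refine ⟨u, huL, v, hv, hc, ?_⟩
    intro x hx hcx
    have h1 : Conn ω G x u := (hcx.mono_set sd_dom_GG).symm
    have h2 : u ∈ cl ω G T := ⟨x, hx, h1⟩
    exact Set.disjoint_left.1 hd hu1 h2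
  · obtain ⟨v, hv, hc⟩ := sd_reach (t' := 64 * m) (by omega) hGs hwp.symm
      (by push_cast at hp ⊢; omega) (by push_cast; omega)
    exact ⟨w, hwT, v, hv, hc⟩

theorem fin_sub {s n : ℕ} {γ : ℕ → Vert} (hz : zone γ n s ⊆ ball 0 (17 * m)) :
    Fin (std m R L T hm hR hL hT) s γ n ⊆ Four 0 (1, 0) R := by
  rintro ω ⟨⟨u, hu, huL⟩, w, hwT, hc⟩
  have hGs := sd_GG_sub (m := m) (R := R) (L := L) (T := T) (hm := hm) (hR := hR) (hL := hL)
    (hT := hT) (γ := γ) (n := n) (s := s) hz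
  refine ⟨⟨u, hL huL, mem_cl_iff.1 hu⟩, ⟨w, hT hwT, hc.mono_set (fun v hv => hGs hv.1)⟩, ?_⟩
  intro h
  exact hc.mem_left.2 (mem_cl_iff.2 h)

/-- The four-arm probability. -/
theorem a4_eq (q : I) (r : ℕ) : a4 q r = PrE q {(0, 0, false)} (Four 0 (1, 0) r) := by
  have hs : src (0, 0, false) = 0 := rfl
  have ht : tgt (0, 0, false) = (1, 0) := rfl
  have hcl : ∀ ω : Config, close (0, 0, false) ω = shut {(0, 0, false)} ω := by
    intro ω
    funext e
    unfold close shut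
    by_cases h : e = (0, 0, false)
    · rw [h, Function.update_self]
      simp
    · rw [Function.update_of_ne h]
      simp [h]
  unfold a4 PrE
  congr 1
  ext ω
  simp only [A4, Four, Set.mem_ofPred_eq, hs, ht, hcl]

/-- The terminals are far from the outer sphere. -/
theorem far_std {z v : Vert} {ρ : ℕ} (hρ : ρ ≤ 2 * m) (hR : 64 * m ≤ R) (hm : 10 ≤ m)
    (hz : z ∈ sphere 0 (16 * m)) (hv : v ∈ sphere 0 R) : v ∉ ball z ρ := by
  intro h
  have h1 := nrm_le_of_mem_ball h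
  rw [mem_sphere_zero] at hz hv
  push_cast at hz
  omega

end Pool.Agent.H57.EX

end

section

/-!
# The standard data: probability of the bad events
-/

open MeasureTheory ProbabilityTheory unitInterval

namespace Pool.Agent.H57.EX

open Pool.Agent.H89.Perc Pool.Agent.H61.NC Pool.Agent.H29.Sep

/-- Connections inside `S` only look at the edges inside `S`. -/
private theorem conn_iff_of_local {s : Finset Edge} {S : Set Vert} {ω ω' : Config}
    (hs : ∀ e, src e ∈ S → tgt e ∈ S → e ∈ s) (h : ∀ e ∈ s, ω e = ω' e) (u v : Vert) :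
    Conn ω S u v ↔ Conn ω' S u v :=
  ⟨Conn.congr fun e h1 h2 => h e (hs e h1 h2),
    Conn.congr fun e h1 h2 => (h e (hs e h1 h2)).symm⟩

private theorem localOn_locTwo_aux {s : Finset Edge} {Z D : Set Vert} {t ρ : ℕ}
    (hs : ∀ z ∈ Z, ∀ e, src e ∈ D ∩ ball z ρ → tgt e ∈ D ∩ ball z ρ → e ∈ s) :
    LocalOn s {ω | ∃ z ∈ Z, ω ∈ LocTwo D z t ρ} := by
  rintro ω ω' h ⟨z, hz, u, hu, u', hu', v, hv, v', hv', h1, h2, h3⟩
  refine ⟨z, hz, u, hu, u', hu', v, hv, v', hv', ?_, ?_, ?_⟩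
  · exact (conn_iff_of_local (hs z hz) h _ _).1 h1
  · exact (conn_iff_of_local (hs z hz) h _ _).1 h2
  · exact fun h4 => h3 ((conn_iff_of_local (hs z hz) h _ _).2 h4)

private theorem dom_subset {t R : ℕ} : dom t R ⊆ ball 0 R := fun _ h => h.1

theorem localOn_four {x y : Vert} {r : ℕ} : LocalOn (eIn r (ball 0 r)) (Four x y r) := by
  have hs : ∀ e, src e ∈ ball 0 r → tgt e ∈ ball 0 r → e ∈ eIn r (ball 0 r) :=
    fun e h1 h2 => (mem_eIn subset_rfl).2 ⟨h1, h2⟩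
  rintro ω ω' h ⟨⟨u, hu, h1⟩, ⟨u', hu', h2⟩, h3⟩
  refine ⟨⟨u, hu, ?_⟩, ⟨u', hu', ?_⟩, ?_⟩
  · exact (conn_iff_of_local hs h _ _).1 h1
  · exact (conn_iff_of_local hs h _ _).1 h2
  · exact fun h4 => h3 ((conn_iff_of_local hs h _ _).2 h4)

theorem localOn_BT {t R : ℕ} {L T : Set Vert} : LocalOn (eIn R (dom t R)) (BT t R L T) := by
  have hs : ∀ e, src e ∈ dom t R → tgt e ∈ dom t R → e ∈ eIn R (dom t R) :=
    fun e h1 h2 => (mem_eIn dom_subset).2 ⟨h1, h2⟩
  rintro ω ω' h ⟨⟨u, hu, v, hv, h1, h2⟩, w, hw, v', hv', h3⟩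
  refine ⟨⟨u, hu, v, hv, (conn_iff_of_local hs h _ _).1 h1, ?_⟩, w, hw, v', hv',
    (conn_iff_of_local hs h _ _).1 h3⟩
  exact fun w hw h4 => h2 w hw ((conn_iff_of_local hs h _ _).2 h4)

theorem localOn_locTwo_in {m t ρ : ℕ} (hρ : ρ ≤ 2 * m) :
    LocalOn (eIn (4 * m) (dom (2 * m) (4 * m)))
      {ω | ∃ z ∈ sphere 0 (4 * m), ω ∈ LocTwo (ball 0 (4 * m)) z t ρ} := by
  apply localOn_locTwo_aux
  rintro z hz e ⟨h1, h2⟩ ⟨h3, h4⟩
  rw [mem_eIn dom_subset]
  rw [mem_sphere_zero] at hz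
  rcases Nat.eq_zero_or_pos m with hm | hm
  · exfalso
    subst hm
    simp only [mem_ball, Prod.fst_zero, Prod.snd_zero, Nat.mul_zero, Nat.cast_zero] at h1 h3
    have h5 : (src e).1 = (tgt e).1 := by omega
    have h6 : (src e).2 = (tgt e).2 := by omega
    unfold src tgt at h5 h6
    split_ifs at h5 h6 <;> simp at h5 h6
  · have key : ∀ v, v ∈ ball 0 (4 * m) → v ∈ ball z ρ → v ∈ dom (2 * m) (4 * m) := by
      intro v hv hv'
      refine ⟨hv, fun h => ?_⟩
      have h5 := le_nrm_of_mem_ball hv'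
      rw [mem_ball_zero] at h
      push_cast at hz h
      omega
    exact ⟨key _ h1 h2, key _ h3 h4⟩

theorem localOn_locTwo_out {m R t ρ : ℕ} (hρ : ρ ≤ 2 * m) :
    LocalOn (eIn (18 * m) (dom (16 * m) (18 * m)))
      {ω | ∃ z ∈ sphere 0 (16 * m), ω ∈ LocTwo (dom (16 * m) R) z t ρ} := by
  apply localOn_locTwo_aux
  rintro z hz e ⟨h1, h2⟩ ⟨h3, h4⟩
  rw [mem_eIn dom_subset]
  rw [mem_sphere_zero] at hz
  have key : ∀ v, v ∈ dom (16 * m) R → v ∈ ball z ρ → v ∈ dom (16 * m) (18 * m) := by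
    intro v hv hv'
    refine ⟨?_, hv.2⟩
    have h5 := nrm_le_of_mem_ball hv'
    rw [mem_ball_zero]
    push_cast at hz ⊢
    omega
  exact ⟨key _ h1 h2, key _ h3 h4⟩

/-- The two local events in the domains of `BadOut` and of the standard data are the same. -/
theorem locTwo_out_eq {m R t ρ : ℕ} (hR : 64 * m ≤ R) (hρ : ρ ≤ 2 * m) {z : Vert}
    (hz : z ∈ sphere 0 (16 * m)) :
    LocTwo (dom (16 * m) R) z t ρ = LocTwo (ball 0 (16 * m - 1))ᶜ z t ρ := by
  have key : dom (16 * m) R ∩ ball z ρ = (ball 0 (16 * m - 1))ᶜ ∩ ball z ρ := by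
    ext v
    constructor
    · rintro ⟨h1, h2⟩
      exact ⟨h1.2, h2⟩
    · rintro ⟨h1, h2⟩
      refine ⟨⟨?_, h1⟩, h2⟩
      have h5 := nrm_le_of_mem_ball h2
      rw [mem_sphere_zero] at hz
      rw [mem_ball_zero]
      push_cast at hz
      omega
  unfold LocTwo
  rw [key]

/-- Edges of two domains at different distances. -/
private theorem eIn_disjoint {R R' : ℕ} {D D' : Set Vert} (h : D ⊆ ball 0 R) (h' : D' ⊆ ball 0 R')
    (hd : ∀ v, v ∈ D → v ∉ D') : Disjoint (eIn R D) (eIn R' D') := by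
  rw [Finset.disjoint_left]
  intro e he he'
  rw [mem_eIn h] at he
  rw [mem_eIn h'] at he'
  exact hd _ he.1 he'.1

private theorem eIn_disjoint_edge {R : ℕ} {D : Set Vert} (h : D ⊆ ball 0 R)
    (hd : (0 : Vert) ∉ D) : Disjoint (eIn R D) {(0, 0, false)} := by
  rw [Finset.disjoint_singleton_right]
  intro he
  rw [mem_eIn h] at he
  exact hd he.1

private theorem zero_notMem_dom {t R : ℕ} : (0 : Vert) ∉ dom t R := by
  intro h
  apply h.2
  simp only [mem_ball, Prod.fst_zero, Prod.snd_zero]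
  omega

private theorem four_bt_bad {m R r₁ t₁ : ℕ} {L T : Set Vert} {q : I} {A : Set Config} (hm : 10 ≤ m)
    (h1 : m < t₁) (h2 : r₁ < 64 * m)
    (hA : LocalOn (eIn r₁ (dom t₁ r₁)) A) :
    PrE q {(0, 0, false)} (Four 0 (1, 0) m ∩ BT (64 * m) R L T ∩ A) =
      a4 q m * Pr q (BT (64 * m) R L T) * Pr q A := by
  classical
  have d1 : Disjoint (eIn m (ball 0 m)) (eIn r₁ (dom t₁ r₁)) := by
    apply eIn_disjoint subset_rfl dom_subset
    intro v hv hv'
    apply hv'.2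
    exact ball_mono (by omega) hv
  have d2 : Disjoint (eIn m (ball 0 m)) (eIn R (dom (64 * m) R)) := by
    apply eIn_disjoint subset_rfl dom_subset
    intro v hv hv'
    apply hv'.2
    exact ball_mono (by omega) hv
  have d3 : Disjoint (eIn R (dom (64 * m) R)) (eIn r₁ (dom t₁ r₁)) := by
    apply eIn_disjoint dom_subset dom_subset
    intro v hv hv'
    apply hv.2
    exact ball_mono (by omega) hv'.1
  have hFB : LocalOn (eIn m (ball 0 m) ∪ eIn R (dom (64 * m) R))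
      (Four 0 (1, 0) m ∩ BT (64 * m) R L T) := localOn_four.inter' localOn_BT
  rw [PrE_inter hFB hA (Finset.disjoint_union_left.2 ⟨d1, d3⟩),
    PrE_inter localOn_four localOn_BT d2, a4_eq,
    PrE_eq localOn_BT (eIn_disjoint_edge dom_subset zero_notMem_dom),
    PrE_eq hA (eIn_disjoint_edge dom_subset zero_notMem_dom)]

/-- Probability of the bad events together with four arms inside and outside. -/
theorem bad_std (hI : BadIn) (hO : BadOut) : ∀ c : ℝ, 0 < c → ∃ C κ : ℝ, 0 < C ∧ 0 < κ ∧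
    ∀ (m R n t ρ : ℕ) (q : I) (L T : Set Vert), 10 ≤ m → 64 * m ≤ R → R ≤ n →
      RSWreg c n q → 1 ≤ t → t ≤ ρ → ρ ≤ 2 * m →
      PrE q {(0, 0, false)} (Four 0 (1, 0) m ∩ BT (64 * m) R L T ∩
          ({ω | ∃ z ∈ sphere 0 (4 * m), ω ∈ LocTwo (ball 0 (4 * m)) z t ρ} ∪
            {ω | ∃ z ∈ sphere 0 (16 * m), ω ∈ LocTwo (dom (16 * m) R) z t ρ})) ≤
        C * ((m : ℝ) / ρ) * ((t : ℝ) / ρ) ^ κ * (a4 q m * Pr q (BT (64 * m) R L T)) := by
  intro c hc
  obtain ⟨C₁, κ₁, hC₁, hκ₁, H₁⟩ := hI c hc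
  obtain ⟨C₂, κ₂, hC₂, hκ₂, H₂⟩ := hO c hc
  refine ⟨4 * C₁ + 16 * C₂, min κ₁ κ₂, by positivity, lt_min hκ₁ hκ₂, ?_⟩
  intro m R n t ρ q L T hm hR hn hreg ht htρ hρ
  have hρ0 : (0 : ℝ) < ρ := by
    have : 0 < ρ := by omega
    exact_mod_cast this
  have ht0 : (0 : ℝ) < t := by
    have : 0 < t := by omega
    exact_mod_cast this
  have hx0 : (0 : ℝ) < (t : ℝ) / ρ := div_pos ht0 hρ0
  have hx1 : (t : ℝ) / ρ ≤ 1 := by
    rw [div_le_one hρ0]
    exact_mod_cast htρ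
  have ha4 : 0 ≤ a4 q m * Pr q (BT (64 * m) R L T) := mul_nonneg Pr_nonneg Pr_nonneg
  have hpw₁ : ((t : ℝ) / ρ) ^ κ₁ ≤ ((t : ℝ) / ρ) ^ (min κ₁ κ₂) :=
    Real.rpow_le_rpow_of_exponent_ge hx0 hx1 (min_le_left _ _)
  have hpw₂ : ((t : ℝ) / ρ) ^ κ₂ ≤ ((t : ℝ) / ρ) ^ (min κ₁ κ₂) :=
    Real.rpow_le_rpow_of_exponent_ge hx0 hx1 (min_le_right _ _)
  have e1 : Pr q {ω | ∃ z ∈ sphere 0 (4 * m), ω ∈ LocTwo (ball 0 (4 * m)) z t ρ} ≤
      4 * C₁ * ((m : ℝ) / ρ) * ((t : ℝ) / ρ) ^ (min κ₁ κ₂) := by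
    have h := H₁ n t ρ (4 * m) q ht htρ (by omega) (by omega) hreg
    refine h.trans ?_
    have h2 : C₁ * (((4 * m : ℕ) : ℝ) / ρ) = 4 * C₁ * ((m : ℝ) / ρ) := by
      push_cast
      ring
    rw [h2]
    exact mul_le_mul_of_nonneg_left hpw₁ (by positivity)
  have e2 : Pr q {ω | ∃ z ∈ sphere 0 (16 * m), ω ∈ LocTwo (dom (16 * m) R) z t ρ} ≤
      16 * C₂ * ((m : ℝ) / ρ) * ((t : ℝ) / ρ) ^ (min κ₁ κ₂) := by
    have h := H₂ n t ρ (16 * m) q ht htρ (by omega) (by omega) hreg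
    have h3 : {ω | ∃ z ∈ sphere 0 (16 * m), ω ∈ LocTwo (dom (16 * m) R) z t ρ} =
        {ω | ∃ z ∈ sphere 0 (16 * m), ω ∈ LocTwo (ball 0 (16 * m - 1))ᶜ z t ρ} := by
      ext ω
      constructor
      · rintro ⟨z, hz, h⟩
        exact ⟨z, hz, locTwo_out_eq hR hρ hz ▸ h⟩
      · rintro ⟨z, hz, h⟩
        exact ⟨z, hz, (locTwo_out_eq hR hρ hz).symm ▸ h⟩
    rw [h3]
    refine h.trans ?_
    have h2 : C₂ * (((16 * m : ℕ) : ℝ) / ρ) = 16 * C₂ * ((m : ℝ) / ρ) := by
      push_cast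
      ring
    rw [h2]
    exact mul_le_mul_of_nonneg_left hpw₂ (by positivity)
  rw [Set.inter_union_distrib_left]
  refine PrE_union_le.trans ?_
  rw [four_bt_bad hm (by omega) (by omega) (localOn_locTwo_in hρ),
    four_bt_bad hm (by omega) (by omega) (localOn_locTwo_out hρ)]
  have := mul_le_mul_of_nonneg_left e1 ha4
  have := mul_le_mul_of_nonneg_left e2 ha4
  nlinarith

end Pool.Agent.H57.EX

end

section

/-!
# Near clusters give two clusters of a local domain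
-/

open MeasureTheory ProbabilityTheory unitInterval

namespace Pool.Agent.H57.EX

open Pool.Agent.H89.Perc Pool.Agent.H61.NC Pool.Agent.H29.Sep

private lemma near_norm_center {v : Vert} {r : ℕ} (h : v ∈ ball 0 r) : nrm v ≤ r :=
  mem_ball_zero.mp h

private lemma not_mem_of_far {x z : Vert} {ρ : ℕ} (h : nrm x + ρ < nrm z) : x ∉ ball z ρ := by
  intro hx
  have := le_nrm_of_mem_ball hx
  omega

/-- The common part of the three inclusions. -/
private lemma locTwo_of {ω : Config} {D : Set Vert} {z : Vert} {t ρ : ℕ} (ht : t ≤ ρ)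
    {G : Set Vert} (hG : G ∩ ball z ρ ⊆ D) (hDG : D ⊆ G) {p p' a a' : Vert} (hp : p ∈ ball z t)
    (hp' : p' ∈ ball z t) (h1 : Conn ω G p a) (h2 : Conn ω G p' a') (ha : a ∉ ball z ρ)
    (ha' : a' ∉ ball z ρ) (hn : ¬ Conn ω G p p') : ω ∈ LocTwo D z t ρ := by
  obtain ⟨v, hv, h3⟩ := reach_sphere h1 (ball_mono ht hp) (Or.inl ha)
  obtain ⟨v', hv', h4⟩ := reach_sphere h2 (ball_mono ht hp') (Or.inl ha')
  have hsub : G ∩ ball z ρ ⊆ D ∩ ball z ρ := fun w hw => ⟨hG hw, hw.2⟩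
  refine ⟨p, hp, p', hp', v, hv, v', hv', h3.mono_set hsub, h4.mono_set hsub, fun h => hn ?_⟩
  exact h.mono_set fun w hw => hDG hw.1

theorem nearIn_sub {Z : Dat} {t ρ : ℕ} (ht : t ≤ ρ) (hρ : ρ ≤ 2 * Z.m) :
    Four Z.x Z.y (4 * Z.m) ∩ NearIn Z t ⊆
      {ω | ∃ z ∈ sphere 0 (4 * Z.m), ω ∈ LocTwo (ball 0 (4 * Z.m)) z t ρ} := by
  rintro ω ⟨⟨-, -, hxy⟩, z, hz, ⟨p, hp, hpz⟩, ⟨p', hp', hpz'⟩⟩
  rw [mem_cl_iff] at hp hp'
  have hnz := mem_sphere_zero.mp hz
  have hx := near_norm_center Z.hx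
  have hy := near_norm_center Z.hy
  have hm := Z.hm
  push_cast at hnz hx hy
  refine ⟨z, hz, locTwo_of ht (G := Z.B) (fun w hw => hw.1) (fun w hw => hw) hpz hpz' hp.symm
    hp'.symm (not_mem_of_far (by omega)) (not_mem_of_far (by omega)) fun h => hxy ?_⟩
  exact (hp.trans h).trans hp'.symm

theorem nearOut_sub {Z : Dat} {t ρ : ℕ} (ht : t ≤ ρ)
    (hfar : ∀ z ∈ sphere 0 (16 * Z.m), ∀ v, v ∈ Z.L ∨ v ∈ Z.T → v ∉ ball z ρ) :
    NearOut Z t ⊆ {ω | ∃ z ∈ sphere 0 (16 * Z.m), ω ∈ LocTwo Z.D z t ρ} := by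
  rintro ω ⟨z, hz, u, hu, huT, ⟨p, hp, hpz⟩, ⟨p', ⟨w, hw, hp'⟩, hpz'⟩⟩
  rw [mem_cl_iff] at hp
  refine ⟨z, hz, locTwo_of ht (G := Z.D) (fun w hw => hw.1) (fun w hw => hw) hpz hpz' hp.symm
    hp'.symm (hfar z hz u (Or.inl hu)) (hfar z hz w (Or.inr hw)) fun h => huT ?_⟩
  exact ⟨w, hw, (hp'.trans h.symm).trans hp.symm⟩

theorem e1_nb_sub {Z : Dat} {s n : ℕ} {γ : ℕ → Vert} {b b' : Vert} {t ρ : ℕ}
    (hsm : 100 * s ≤ Z.m) (hg : ZGood Z.m s γ n b b') (ht : t ≤ ρ) (hρ : ρ ≤ 5 * s)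
    (hfar : ∀ z ∈ Z.Bd, ∀ v ∈ Z.T, v ∉ ball z ρ) :
    E1 Z s b b' (GG Z s γ n) \ NB Z t (GG Z s γ n) ⊆
      {ω | ∃ z ∈ sphere 0 (4 * Z.m), ω ∈ LocTwo (ball 0 (4 * Z.m)) z t ρ} ∪
        {ω | ∃ z ∈ Z.Bd, ω ∈ LocTwo Z.D z t ρ} := by
  rintro ω ⟨⟨-, -, -, -, -, h2b, h3b, h12, h13⟩, hnb⟩
  have hx := near_norm_center Z.hx
  have hm := Z.hm
  push_cast at hx
  have hnb' : ¬ ((∀ z ∈ sphere 0 (4 * Z.m), (cl ω (GG Z s γ n) {Z.x} ∩ ball z t).Nonempty →
      ¬ (cl ω (GG Z s γ n) {Z.y} ∩ ball z t).Nonempty) ∧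
    ∀ z ∈ Z.Bd, (cl ω (GG Z s γ n) {Z.x} ∩ ball z t).Nonempty →
      ¬ (cl ω (GG Z s γ n) Z.T ∩ ball z t).Nonempty) := hnb
  rw [not_and_or] at hnb'
  push Not at hnb'
  -- a vertex of the zone near a point of the clusters contradicts `P1`
  have hclose : ∀ {a p' z c : Vert}, a ∈ ball z ρ → p' ∈ ball z t → a ∈ ball c (20 * s) →
      p' ∈ ball c (38 * s) := by
    intro a p' z c h1 h2 h3
    have h4 := ball_trans (ball_trans h3 (mem_ball_comm.mp h1)) h2
    exact ball_mono (by omega) h4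
  rcases hnb' with ⟨z, hz, ⟨p, hp, hpz⟩, ⟨p', hp', hpz'⟩⟩ | ⟨z, hz, ⟨p, hp, hpz⟩, ⟨p', hp', hpz'⟩⟩
  · left
    have hnz := mem_sphere_zero.mp hz
    push_cast at hnz
    have e1 := mem_cl_iff.mp hp
    have e2 := mem_cl_iff.mp hp'
    have hy := near_norm_center Z.hy
    push_cast at hy
    refine ⟨z, hz, locTwo_of ht (G := GG Z s γ n) ?_ ?_ hpz hpz' e1.symm e2.symm
      (not_mem_of_far (by omega)) (not_mem_of_far (by omega)) fun h => ?_⟩
    · rintro a ⟨(ha | ha) | ha, haz⟩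
      · exact ha
      · exfalso
        have h1 := Z.hD a ha
        have h2 := nrm_le_of_mem_ball haz
        omega
      · exfalso
        have h2 := nrm_le_of_mem_ball haz
        have h3 := hg.inner a ha (by omega)
        exact Set.disjoint_left.mp h2b hp' (hclose haz hpz' h3)
    · exact fun w hw => Or.inl (Or.inl hw)
    · exact Set.disjoint_left.mp h12 (mem_cl_iff.mpr (e1.trans h)) hp'
  · right
    have hnz : 16 * (Z.m : ℤ) ≤ nrm z := by
      rcases hz with hz | hz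
      · have := mem_sphere_zero.mp hz
        push_cast at this
        omega
      · exact Z.hD z hz.1
    have e1 := mem_cl_iff.mp hp
    obtain ⟨w, hw, e2⟩ := hp'
    refine ⟨z, hz, locTwo_of ht (G := GG Z s γ n) ?_ ?_ hpz hpz' e1.symm e2.symm
      (not_mem_of_far (by omega)) (hfar z hz w hw) fun h => ?_⟩
    · rintro a ⟨(ha | ha) | ha, haz⟩
      · exfalso
        have h1 := mem_ball_zero.mp ha
        have h2 := le_nrm_of_mem_ball haz
        push_cast at h1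
        omega
      · exact ha
      · exfalso
        have h2 := le_nrm_of_mem_ball haz
        have h3 := hg.outer a ha (by omega)
        exact Set.disjoint_left.mp h3b ⟨w, hw, e2⟩ (hclose haz hpz' h3)
    · exact fun w hw => Or.inl (Or.inr hw)
    · exact Set.disjoint_left.mp h13 (mem_cl_iff.mpr (e1.trans h)) ⟨w, hw, e2⟩

theorem e1_four {Z : Dat} {s n : ℕ} {γ : ℕ → Vert} {b b' : Vert} :
    E1 Z s b b' (GG Z s γ n) ⊆ Four Z.x Z.y Z.m := by
  rintro ω ⟨⟨u, hu, huL⟩, ⟨u', hu', huS⟩, -, -, -, -, -, h12, -⟩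
  have hm := Z.hm
  have hsub : ball 0 Z.m ⊆ GG Z s γ n := fun w hw => Or.inl (Or.inl (ball_mono (by omega) hw))
  have hx : Z.x ∈ ball 0 Z.m := ball_mono (by omega) Z.hx
  have hy : Z.y ∈ ball 0 Z.m := ball_mono (by omega) Z.hy
  have hu1 : u ∉ ball 0 Z.m := by
    intro h
    have h1 := mem_ball_zero.mp h
    have h2 := (Z.hL u huL).2
    omega
  have hu2 : u' ∉ ball 0 Z.m := by
    intro h
    have h1 := mem_ball_zero.mp h
    have h2 := mem_sphere_zero.mp huS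
    push_cast at h2
    omega
  obtain ⟨v, hv, h1⟩ := reach_sphere (mem_cl_iff.mp hu) hx (Or.inl hu1)
  obtain ⟨v', hv', h2⟩ := reach_sphere (mem_cl_iff.mp hu') hy (Or.inl hu2)
  refine ⟨⟨v, hv, h1.mono_set Set.inter_subset_right⟩, ⟨v', hv', h2.mono_set Set.inter_subset_right⟩,
    fun h => ?_⟩
  exact Set.disjoint_left.mp h12 (mem_cl_iff.mpr (h.mono_set hsub)) (mem_cl_self (hsub hy))

theorem four_mono {x y : Vert} {r r' : ℕ} (hx : x ∈ ball 0 r) (hy : y ∈ ball 0 r) (h : r ≤ r') :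
    Four x y r' ⊆ Four x y r := by
  rintro ω ⟨⟨u, hu, h1⟩, ⟨u', hu', h2⟩, h3⟩
  have key : ∀ u : Vert, u ∈ sphere 0 r' → u ∉ ball 0 r ∨ u ∈ sphere 0 r := by
    intro u hu
    have h4 := mem_sphere_zero.mp hu
    rcases h.eq_or_lt with h5 | h5
    · right
      rw [h5]
      exact hu
    · left
      intro h6
      have := mem_ball_zero.mp h6
      omega
  obtain ⟨v, hv, h4⟩ := reach_sphere h1 hx (key u hu)
  obtain ⟨v', hv', h5⟩ := reach_sphere h2 hy (key u' hu')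
  exact ⟨⟨v, hv, h4.mono_set Set.inter_subset_right⟩, ⟨v', hv', h5.mono_set Set.inter_subset_right⟩,
    fun h6 => h3 (h6.mono_set (ball_mono h))⟩

end Pool.Agent.H57.EX

end

section

/-!
# Probability of seals

`Seal G ρ t` contains the intersection over `g ∈ G` of the decreasing events no open path of the
full configuration from `ball g ρ` to `sphere g (3 ρ)` (close more edges), each of probability at
least `c'` by `noarm_lower`; use `fkg_decr_many`.  The cardinality of `G` is bounded by `M`.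
-/

open MeasureTheory ProbabilityTheory unitInterval

namespace Pool.Agent.H59.EX

open Pool.Agent.H89.Perc Pool.Agent.H61.NC

end Pool.Agent.H59.EX

end

section

/-!
# Outward separation: stage 2
-/

open MeasureTheory ProbabilityTheory unitInterval

namespace Pool.Agent.H59.EX

open Pool.Agent.H89.Perc Pool.Agent.H61.NC

end Pool.Agent.H59.EX

end

section

/-!
# The corridor lemma with an arbitrary finite edge set
-/

open MeasureTheory ProbabilityTheory unitInterval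

namespace Pool.Agent.H59.EX

open Pool.Agent.H89.Perc

end Pool.Agent.H59.EX

end

section

/-!
# Separated four arms on the torus: definitions

The torus of side `N` is `ℤ²` with the periodic configuration `per N ω = pb (modE N) ω`.  The source
edge is `(0, 0, d)`; the first point `(0, 0)` has its mouth in the west, the second point in the
east.  The corridor is the horizontal strip `[28 k, N - 28 k] × [-3 k, 3 k]` from the east target to
the translate by `(N, 0)` of the west target.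
-/

open MeasureTheory ProbabilityTheory unitInterval

namespace Pool.Agent.H26.ST

open Pool.Agent.H89.Perc Pool.Agent.H61.NC Pool.Agent.H59.EX

end Pool.Agent.H26.ST

end

section

/-!
# The sausages `Y ∪ corridor ∪ (X + (N, 0))` and their translates are far apart
-/

open MeasureTheory ProbabilityTheory unitInterval

namespace Pool.Agent.H26.ST

open Pool.Agent.H89.Perc Pool.Agent.H61.NC Pool.Agent.H59.EX

end Pool.Agent.H26.ST

end

section

/-!
# With the source edge open there is a winding path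
-/

open MeasureTheory ProbabilityTheory unitInterval

namespace Pool.Agent.H26.ST

open Pool.Agent.H89.Perc Pool.Agent.H61.NC Pool.Agent.H59.EX

private theorem per_x (N : ℕ) (ω : Config) (e : Edge) :
    per N ω (shiftE ((N : ℤ), 0) e) = per N ω e := by
  obtain ⟨a, b, t⟩ := e
  simp only [per, shiftE, Int.add_emod_right, add_zero]

private theorem conn_x {N : ℕ} {ω : Config} {S S' : Set Vert}
    (hS : ∀ w ∈ S, ((w.1 + N, w.2) : Vert) ∈ S') {u v : Vert} (h : Conn (per N ω) S u v) :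
    Conn (per N ω) S' (u.1 + N, u.2) (v.1 + N, v.2) := by
  refine h.map (fun w => (w.1 + N, w.2)) hS ?_
  intro e a b hj ho
  refine ⟨shiftE ((N : ℤ), 0) e, ?_, ?_⟩
  · have := joins_shift ((N : ℤ), 0) hj
    simpa using this
  · rw [per_x]
    exact ho

/-- The path `x - y - T E - corridor - T W + (N, 0) - x + (N, 0)`. -/
theorem open_wind {N k : ℕ} {d : Bool} {s : Src} (hs : IsSrc s d) (hk : 64 ≤ k)
    (hN : 128 * k ≤ N) {ω : Config} (h1 : per N ω ∈ Pool.Agent.H59.EX.Sep s .W .E k)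
    (h2 : per N ω ∈ NpT N k) : Function.update ω (0, 0, d) true ∈ Wind N := by
  obtain ⟨ω', hω'⟩ : ∃ ω' : Config, ω' = Function.update ω (0, 0, d) true := ⟨_, rfl⟩
  rw [← hω']
  have hk' : (64 : ℤ) ≤ k := by exact_mod_cast hk
  have hN' : 128 * (k : ℤ) ≤ N := by exact_mod_cast hN
  have hle0 : ∀ e, ω e = true → ω' e = true := by
    intro e he
    rw [hω', Function.update_apply]
    split_ifs
    · rfl
    · exact he
  have hle : ∀ e, per N ω e = true → per N ω' e = true := fun e he => hle0 _ he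
  have hcut : ∀ e, s.cut (per N ω) e = true → per N ω' e = true := fun e he => hle e (cut_le he)
  obtain ⟨⟨uW, vW, pW, qW, cW, dW⟩, ⟨uE, vE, pE, qE, cE, dE⟩, -⟩ := h1
  obtain ⟨u, v, p, q, c⟩ : HCross (glu N k (per N ω)) (28 * k) (N - 28 * k) (-(3 * k)) (3 * k) := h2
  rw [glu_per] at c
  have c1 := c.mono le_rfl hle
  have cE1 : Conn (per N ω') (rect (28 * k) (36 * k) (-(3 * k)) (3 * k)) uE vE :=
    Conn.mono le_rfl hcut cE
  have cW1 : Conn (per N ω') (rect (-(36 * k)) (-(28 * k)) (-(3 * k)) (3 * k)) uW vW :=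
    Conn.mono le_rfl hcut cW
  have cW2 := conn_x (S' := rect (N - 36 * k) (N - 28 * k) (-(3 * k)) (3 * k)) (fun w hw => by
    simp only [rect, Set.mem_ofPred_eq] at hw ⊢
    omega) cW1
  obtain ⟨z1, a1, b1⟩ := Pool.Agent.H85.Strict.hv_meet c1 (by omega) (by omega) cE1 (by omega)
    (by omega) (by omega) (by omega)
  obtain ⟨z2, a2, b2⟩ := Pool.Agent.H85.Strict.hv_meet c1 (by omega) (by omega) cW2
    (by simp only; omega) (by simp only; omega) (by omega) (by omega)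
  have sub : ∀ S : Set Vert, S ⊆ Set.univ := fun S => Set.subset_univ S
  -- the source edge
  have hxy : Conn (per N ω') Set.univ s.x s.y := by
    refine Step.conn ⟨trivial, trivial, (0, 0, d), ?_, ?_⟩
    · rw [hs.x, hs.y]
      exact Or.inl ⟨rfl, rfl⟩
    · simp only [per, Int.zero_emod]
      rw [hω', Function.update_self]
  have k1 : Conn (per N ω') Set.univ s.y uE := Conn.mono (sub _) hcut dE
  have k2 : Conn (per N ω') Set.univ uE (uW.1 + N, uW.2) :=
    (((b1.mono_set (sub _)).trans (a1.mono_set (sub _)).symm).trans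
      (a2.mono_set (sub _))).trans (b2.mono_set (sub _)).symm
  have k3 : Conn (per N ω') Set.univ s.x uW := Conn.mono (sub _) hcut dW
  have k4 := conn_x (S' := Set.univ) (fun _ _ => trivial) k3
  refine ⟨s.x, 1, 0, one_ne_zero, ?_⟩
  have e1 : ((s.x.1 + 1 * (N : ℤ), s.x.2 + 0 * (N : ℤ)) : Vert) = (s.x.1 + N, s.x.2) := by
    rw [one_mul, zero_mul, add_zero]
  rw [e1]
  exact ((hxy.trans k1).trans k2).trans k4.symm

end Pool.Agent.H26.ST

end

end

section

/-!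
# Four-arm events are comparable to separated four-arm events; regularity
-/

open MeasureTheory ProbabilityTheory unitInterval

namespace Pool.Agent.H59.EX

open Pool.Agent.H89.Perc Pool.Agent.H61.NC
open Pool.Agent.H29.Sep (BadIn RegA4)

theorem itr_bS_ge (q : I) (s : Src) (d d' : Side) (k : ℕ) : Pr q (Sep s d d' k) ≤ bS q s k := by
  unfold bS
  have h1 : Pr q (Sep s d d' k) ≤ ∑ e' : Side, Pr q (Sep s d e' k) :=
    Finset.single_le_sum (f := fun e' => Pr q (Sep s d e' k)) (fun _ _ => Pr_nonneg)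
      (Finset.mem_univ d')
  refine h1.trans ?_
  exact Finset.single_le_sum (f := fun e => ∑ e' : Side, Pr q (Sep s e e' k))
    (fun _ _ => Finset.sum_nonneg fun _ _ => Pr_nonneg) (Finset.mem_univ d)

/-- Uniform lower bound for finitely many local nonempty events. -/
theorem itr_fin (A : ℕ → Set Config) (hA : ∀ k, ∃ Λ : Finset Edge, LocalOn Λ (A k))
    (c : ℝ) (hc : 0 < c) (W : ℕ) (hne : ∀ k, 1 ≤ k → k < W → (A k).Nonempty) :
    ∃ M : ℝ, 0 < M ∧ ∀ (k n : ℕ) (q : I), 1 ≤ k → k < W → 1 ≤ n → RSWreg c n q →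
      1 ≤ M * Pr q (A k) := by
  obtain ⟨δ, hδ, hden⟩ := density_bound c hc
  choose Λ hΛ using hA
  refine ⟨1 + ∑ k ∈ Finset.range W, (δ ^ (Λ k).card)⁻¹, by positivity, ?_⟩
  intro k n q hk hkW hn hreg
  have h1 := fin_energy (hΛ k) (hne k hk hkW) hδ (hden n q hn hreg)
  have h2 : (δ ^ (Λ k).card)⁻¹ ≤ 1 + ∑ k ∈ Finset.range W, (δ ^ (Λ k).card)⁻¹ := by
    have := Finset.single_le_sum (f := fun k => (δ ^ (Λ k).card)⁻¹) (s := Finset.range W)
      (fun _ _ => by positivity) (Finset.mem_range.2 hkW)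
    linarith
  have h3 : (0 : ℝ) < δ ^ (Λ k).card := by positivity
  calc (1 : ℝ) = (δ ^ (Λ k).card)⁻¹ * δ ^ (Λ k).card := by field_simp
    _ ≤ (1 + ∑ k ∈ Finset.range W, (δ ^ (Λ k).card)⁻¹) * Pr q (A k) :=
      mul_le_mul h2 h1 h3.le (by positivity)

/-- Dyadic (base 4) reduction. -/
theorem itr_base {W R : ℕ} (hW : 1 ≤ W) (hR : W ≤ R) :
    ∃ i m : ℕ, W ≤ m ∧ m < 4 * W ∧ 4 ^ i * m ≤ R ∧ R < 2 * (4 ^ i * m) := by
  have hpos : R / W ≠ 0 := by
    have := Nat.div_pos hR (by omega)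
    omega
  have h1 : 4 ^ Nat.log 4 (R / W) ≤ R / W := Nat.pow_log_le_self 4 hpos
  have h2 : R / W < 4 ^ (Nat.log 4 (R / W) + 1) := Nat.lt_pow_succ_log_self (by norm_num) _
  set i := Nat.log 4 (R / W) with hi
  have h4 : 0 < 4 ^ i := by positivity
  have h3 : W * 4 ^ i ≤ R := by
    have := (Nat.le_div_iff_mul_le (by omega : 0 < W)).1 h1
    linarith [Nat.mul_comm W (4 ^ i)]
  have h5 : R < 4 ^ (i + 1) * W := by
    rw [Nat.div_lt_iff_lt_mul (by omega)] at h2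
    exact h2
  refine ⟨i, R / 4 ^ i, (Nat.le_div_iff_mul_le h4).2 h3, ?_, Nat.mul_div_le R _, ?_⟩
  · rw [Nat.div_lt_iff_lt_mul h4]
    rw [pow_succ] at h5
    nlinarith
  · have h6 : W ≤ R / 4 ^ i := (Nat.le_div_iff_mul_le h4).2 h3
    have h7 : R < 4 ^ i * (R / 4 ^ i) + 4 ^ i := by
      have := Nat.div_add_mod R (4 ^ i)
      have h8 := Nat.mod_lt R h4
      omega
    have h9 : 4 ^ i * 1 ≤ 4 ^ i * (R / 4 ^ i) := Nat.mul_le_mul_left _ (by omega)
    omega

end Pool.Agent.H59.EX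

end
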