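import Pool.Agent.H94.BG.H31.PT.M04_1
import Pool.Agent.H94.BG.H31.PT.M06
import Pool.Agent.H94.BG.H31.PT.M07_5

/-! The parts of this file: H31.PT.M07_1, H31.PT.M08, H31.PT.M11. -/

section

/-! The parts of this file: H83.Site.Defs, H83.Site.TProb, H83.Site.DualN, H83.Site.Glue, H83.Site.Circ, H83.Site.DualE, H83.Site.Low, H83.Site.Expl, H83.Site.Renorm, H83.Site.ABLower, H83.Site.Transfer, H83.SK.Base, H92.SN.Defs, H83.SK.P29.Rect, H83.SK.P29.CircProb, H13.SK.BlockL1, H13.SK.BlockEv, H83.SK.Tor, H83.SK.Iface, H83.SK.PHP.Expl, H83.SK.P29.ExplB. -/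

section

/-!
# Site percolation on the centred square lattice

The vertices of the centred lattice `T` are the sites `(x, y, false)` of `ℤ²` and the centres
`(x, y, true)` of the unit squares `[x, x + 1] × [y, y + 1]`. Sites are adjacent to their four
nearest neighbours and every centre is adjacent to the four corners of its square. This is a
triangulation of the plane. A configuration is a function `Edge → Bool` (`Edge = ℤ × ℤ × Bool`
is used here as the set of vertices of `T`); `full r ω` is the configuration in which all centres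
have the state `r`. Open paths of `full false ω` are nearest neighbour paths of open sites, open
paths of `full true ω` are paths of open sites with diagonal steps.
-/

set_option autoImplicit false

open MeasureTheory ProbabilityTheory unitInterval

namespace Pool.Agent.H83.Site

open Pool.Agent.H89.Perc

/-! ### Geometry -/

/-! ### Paths -/

end Pool.Agent.H83.Site

end

section

/-!
# Probability of events of site percolation on the centred lattice
-/

set_option autoImplicit false

open MeasureTheory ProbabilityTheory unitInterval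

namespace Pool.Agent.H83.Site

open Pool.Agent.H89.Perc

/-! ### Local and increasing events -/

/-! ### Elementary properties of `PT` -/

/-! ### Symmetries -/

/-! ### Paths and squares -/

/-! ### Square root trick -/

end Pool.Agent.H83.Site

end

section

/-! # Duality: open horizontal and closed vertical crossings do not coexist

The centred lattice `T` is drawn in the square lattice `ℤ²`, scaled by 3: the site `(x, y)` at
`(3 x, 3 y)` and the centre `(x, y)` at `(3 x + 1, 3 y + 1)`. Every vertex of the fine lattice has a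
label, a vertex of `T`, such that every edge `u v` of `T` is drawn as a path of vertices with the
labels `u` and `v`. An open horizontal and a closed vertical crossing give two paths in the fine
lattice which cross (`Pool.Agent.H89.Perc.cross`), in a vertex whose label is both open and closed.
-/

set_option autoImplicit false

namespace Pool.Agent.H83.Site

open Pool.Agent.H89.Perc

end Pool.Agent.H83.Site

end

section

/-! # Paths which cross a rectangle in different directions meet -/

set_option autoImplicit false

namespace Pool.Agent.H83.Site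

open Pool.Agent.H89.Perc

/-! ### Indicator of a cluster -/

/-! ### The extension by one column -/

/-! ### The mirror image -/

end Pool.Agent.H83.Site

end

section

/-! # Circuits in annuli -/

set_option autoImplicit false

open MeasureTheory ProbabilityTheory unitInterval

namespace Pool.Agent.H83.Site

open Pool.Agent.H89.Perc

end Pool.Agent.H83.Site

end

section

/-! # Duality: an open horizontal or a closed vertical crossing exists -/

set_option autoImplicit false

namespace Pool.Agent.H83.Site

open Pool.Agent.H89.Perc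

end Pool.Agent.H83.Site

end

section

/-! # The lowest crossing of a rectangle -/

set_option autoImplicit false

namespace Pool.Agent.H83.Site

open Pool.Agent.H89.Perc

/-! ### Auxiliary facts -/

end Pool.Agent.H83.Site

end

section

/-! # Conditioning on the lowest crossing -/

set_option autoImplicit false

open MeasureTheory ProbabilityTheory unitInterval

namespace Pool.Agent.H83.Site

open Pool.Agent.H89.Perc

/-! ### Auxiliary facts -/

end Pool.Agent.H83.Site

end

section

/-! # Renormalisation of crossing probabilities -/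

set_option autoImplicit false

open MeasureTheory ProbabilityTheory unitInterval

namespace Pool.Agent.H83.Site

open Pool.Agent.H89.Perc

end Pool.Agent.H83.Site

end

section

/-! # Lower bound for arm probabilities by the van den Berg-Kesten inequality -/

set_option autoImplicit false

open MeasureTheory ProbabilityTheory unitInterval

namespace Pool.Agent.H83.Site

open Pool.Agent.H89.Perc

/-! ### Disjoint occurrence -/

/-! ### Splitting of a self-avoiding path -/

/-! ### The configuration of the sites of a set -/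

end Pool.Agent.H83.Site

end

section

/-!
# Transfer to site percolation on `ℤ × ℤ`
-/

set_option autoImplicit false

open MeasureTheory ProbabilityTheory unitInterval

namespace Pool.Agent.H83.Site

open Pool.Agent.H89.Perc

/-- Adjacency of the square lattice (`r = false`) and of its matching lattice (`r = true`). -/
def SA (r : Bool) (u v : ℤ × ℤ) : Prop :=
  u ≠ v ∧ |u.1 - v.1| ≤ 1 ∧ |u.2 - v.2| ≤ 1 ∧ (r = true ∨ u.1 = v.1 ∨ u.2 = v.2)

/-- The configuration on the centred lattice given by a configuration of the sites. -/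
def extS (ω : ℤ × ℤ → Bool) : Config := fun v => ω (v.1, v.2.1)

/-- Restriction to the sites. -/
def resS (ω : Config) : ℤ × ℤ → Bool := fun v => ω (v.1, v.2, false)

theorem full_extS_resS (r : Bool) (ω : Config) : full r (extS (resS ω)) = full r ω := by
  funext v
  obtain ⟨x, y, b⟩ := v
  cases b <;> simp [full, extS, resS]

theorem full_site (r : Bool) (ω : Config) (x y : ℤ) : full r ω (x, y, false) = ω (x, y, false) := by
  simp [full]

theorem full_cen (r : Bool) (ω : Config) (x y : ℤ) : full r ω (x, y, true) = r := by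
  simp [full]

variable {r : Bool} {ω : ℤ × ℤ → Bool}

/-- Neighbours are joined in the centred lattice. -/
theorem tconn_of_SA {u v : ℤ × ℤ} (hu : ω u = true) (hv : ω v = true) (h : SA r u v) :
    TConn (full r (extS ω)) Set.univ (u.1, u.2, false) (v.1, v.2, false) := by
  obtain ⟨a, b⟩ := u
  obtain ⟨c, d⟩ := v
  obtain ⟨h1, h2, h3, h4⟩ := h
  simp only [abs_le] at h2 h3
  simp only at h4
  have hu' : full r (extS ω) (a, b, false) = true := by rw [full_site]; exact hu
  have hv' : full r (extS ω) (c, d, false) = true := by rw [full_site]; exact hv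
  have hne : a ≠ c ∨ b ≠ d := by
    by_contra hcon
    push Not at hcon
    exact h1 (by rw [hcon.1, hcon.2])
  by_cases h5 : a = c ∨ b = d
  · refine TStep.conn ⟨trivial, trivial, Or.inl ⟨rfl, rfl, ?_⟩, hu', hv'⟩
    simp only
    omega
  · push Not at h5
    have hr : r = true := by
      rcases h4 with h | h | h
      · exact h
      · exact absurd h h5.1
      · exact absurd h h5.2
    subst hr
    have hc : full true (extS ω) (min a c, min b d, true) = true := full_cen _ _ _ _
    have s1 : TStep (full true (extS ω)) Set.univ (a, b, false) (min a c, min b d, true) :=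
      ⟨trivial, trivial, Or.inr (Or.inl ⟨rfl, rfl, by simp only; omega, by simp only; omega⟩),
        hu', hc⟩
    have s2 : TStep (full true (extS ω)) Set.univ (min a c, min b d, true) (c, d, false) :=
      ⟨trivial, trivial, Or.inr (Or.inr ⟨rfl, rfl, by simp only; omega, by simp only; omega⟩),
        hc, hv'⟩
    exact s1.conn.tail s2

section graph

variable {G : SimpleGraph (ℤ × ℤ)}

theorem tconn_of_reachable (hG : ∀ u v, G.Adj u v ↔ ω u = true ∧ ω v = true ∧ SA r u v)
    {u v : ℤ × ℤ} (hu : ω u = true) (h : G.Reachable u v) :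
    TConn (full r (extS ω)) Set.univ (u.1, u.2, false) (v.1, v.2, false) := by
  rw [SimpleGraph.reachable_iff_reflTransGen] at h
  induction h with
  | refl => exact TConn.refl trivial (by rw [full_site]; exact hu)
  | tail _ hbc ih =>
    obtain ⟨h1, h2, h3⟩ := (hG _ _).1 hbc
    exact ih.trans (tconn_of_SA h1 h2 h3)

/-- The corners of a centre. -/
def crn (v : TV) (c : ℤ × ℤ) : Prop :=
  if v.2.2 then (c.1 = v.1 ∨ c.1 = v.1 + 1) ∧ (c.2 = v.2.1 ∨ c.2 = v.2.1 + 1)
  else c = (v.1, v.2.1)

theorem reachable_of_tconn (hG : ∀ u v, G.Adj u v ↔ ω u = true ∧ ω v = true ∧ SA r u v)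
    {S : Set TV} {u : ℤ × ℤ} {v : TV} (h : TConn (full r (extS ω)) S (u.1, u.2, false) v) :
    ∀ c : ℤ × ℤ, crn v c → ω c = true → G.Reachable u c := by
  refine h.induction_right (P := fun v => ∀ c : ℤ × ℤ, crn v c → ω c = true → G.Reachable u c)
    ?_ ?_
  · intro c hc _
    simp only [crn, Bool.false_eq_true, if_false] at hc
    rw [hc]
  · intro a b _ hab ih c hc ho
    obtain ⟨-, -, hadj, ha, hb⟩ := hab
    have key : ∀ a' c' : ℤ × ℤ, ω a' = true → ω c' = true → G.Reachable u a' →
        |a'.1 - c'.1| ≤ 1 → |a'.2 - c'.2| ≤ 1 → (r = true ∨ a'.1 = c'.1 ∨ a'.2 = c'.2) →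
        G.Reachable u c' := by
      intro a' c' h1 h2 h3 h4 h5 h6
      by_cases h7 : a' = c'
      · rw [← h7]; exact h3
      · exact h3.trans ((hG _ _).2 ⟨h1, h2, h7, h4, h5, h6⟩).reachable
    obtain ⟨a1, a2, a3⟩ := a
    obtain ⟨b1, b2, b3⟩ := b
    unfold TAdj at hadj
    rcases hadj with ⟨h1, h2, h3⟩ | ⟨h1, h2, h3⟩ | ⟨h1, h2, h3⟩
    · simp only at h1 h2 h3
      subst h1 h2
      simp only [crn, Bool.false_eq_true, if_false] at hc ih
      rw [full_site] at ha hb
      have h4 := ih (a1, a2) rfl ha
      rw [hc]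
      refine key (a1, a2) (b1, b2) ha hb h4 ?_ ?_ ?_
      · simp only [abs_le]; omega
      · simp only [abs_le]; omega
      · right; simp only; omega
    · simp only at h1 h2 h3
      subst h1 h2
      simp only [crn, Bool.false_eq_true, if_false, if_true] at hc ih
      rw [full_site] at ha
      rw [full_cen] at hb
      have h4 := ih (a1, a2) rfl ha
      refine key (a1, a2) c ha ho h4 ?_ ?_ (Or.inl hb)
      · simp only [abs_le]; omega
      · simp only [abs_le]; omega
    · simp only at h1 h2 h3
      subst h1 h2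
      simp only [crn, Bool.false_eq_true, if_false, if_true] at hc ih
      rw [full_site] at hb
      rw [hc]
      exact ih (b1, b2) h3 hb

end graph

theorem map_resS (p : I) :
    (μ p).map resS = Measure.infinitePi (fun _ : ℤ × ℤ => bernoulliMeasure true false p) := by
  classical
  have hres : Measurable resS := by
    refine measurable_pi_lambda _ fun v => ?_
    exact measurable_pi_apply (v.1, v.2, false)
  apply Measure.eq_infinitePi
  intro s t ht
  have hmeas : MeasurableSet (Set.pi (s : Set (ℤ × ℤ)) t) :=
    MeasurableSet.pi s.countable_toSet fun i _ => ht i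
  rw [Measure.map_apply hres hmeas]
  have hinj : Function.Injective (fun v : ℤ × ℤ => ((v.1, v.2, false) : Edge)) := by
    rintro ⟨a, b⟩ ⟨c, d⟩ h
    simpa using h
  have hpre : resS ⁻¹' (Set.pi (s : Set (ℤ × ℤ)) t) =
      Set.pi ((s.image fun v : ℤ × ℤ => ((v.1, v.2, false) : Edge) : Finset Edge) : Set Edge)
        (fun e => t (e.1, e.2.1)) := by
    ext ω
    simp only [Set.mem_preimage, Set.mem_pi, Finset.mem_coe, Finset.mem_image]
    constructor
    · rintro h e ⟨v, hv, rfl⟩
      exact h v hv
    · intro h v hv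
      exact h (v.1, v.2, false) ⟨v, hv, rfl⟩
  rw [hpre, μ, Measure.infinitePi_pi _ (fun e _ => ht _), Finset.prod_image hinj.injOn]

end Pool.Agent.H83.Site

end

section

/-!
# Site percolation through the induced bond configuration

Site configurations are stored at the edges `(x, y, false)` of the lattice. `sit ω` is the induced
bond configuration: an edge is open if both endpoints are open sites. `Pr p A` is the probability
that the induced configuration is in `A`, when the sites are open with probability `p`.
-/

set_option autoImplicit false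

open MeasureTheory ProbabilityTheory unitInterval

namespace Pool.Agent.H83.SK

open Pool.Agent.H89.Perc

variable {s t : Finset Edge} {A B : Set Config} {p q : I}

theorem Pr_union_le : Pr p (A ∪ B) ≤ Pr p A + Pr p B := by
  unfold Pr
  exact Pool.Agent.H89.Perc.Pr_union_le (A := {ω | sit ω ∈ A}) (B := {ω | sit ω ∈ B})

theorem Pr_univ : Pr p Set.univ = 1 := by
  unfold Pr
  have : {ω : Config | sit ω ∈ (Set.univ : Set Config)} = Set.univ := by ext ω; simp
  rw [this, Pool.Agent.H89.Perc.Pr_univ]

/-- The probability of an increasing local event is nondecreasing in the density. -/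
theorem Pr_mono_param (hA : LocalOn s A) (iA : Incr A) (hpq : p ≤ q) : Pr p A ≤ Pr q A := by
  unfold Pr
  exact Pool.Agent.H89.Perc.Pr_mono_param (localOn_sit hA) (incr_sit iA) hpq

/-! ### Symmetries -/

theorem isAut_reflX (z : ℤ) : IsAut (reflX z) := by
  refine ⟨fun w => (z - w.1, w.2), ?_, ?_⟩
  · rintro ⟨a, b⟩ ⟨c, d⟩ h
    simp only [Prod.mk.injEq] at h ⊢
    exact ⟨by omega, h.2⟩
  · rintro ⟨x, y, t⟩
    cases t
    · right
      refine ⟨?_, ?_⟩ <;> ext <;> simp [reflX, src, tgt] <;> ring
    · left
      refine ⟨?_, ?_⟩ <;> ext <;> simp [reflX, src, tgt]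

theorem isAut_reflY (z : ℤ) : IsAut (reflY z) := by
  refine ⟨fun w => (w.1, z - w.2), ?_, ?_⟩
  · rintro ⟨a, b⟩ ⟨c, d⟩ h
    simp only [Prod.mk.injEq] at h ⊢
    exact ⟨h.1, by omega⟩
  · rintro ⟨x, y, t⟩
    cases t
    · left
      refine ⟨?_, ?_⟩ <;> ext <;> simp [reflY, src, tgt]
    · right
      refine ⟨?_, ?_⟩ <;> ext <;> simp [reflY, src, tgt] <;> ring

/-! ### One-arm events -/

/-! ### The box-crossing regime -/

end Pool.Agent.H83.SK

end

section

/-!
# Near-critical site percolation: definitions and interfaces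

Four-arm events are sets of bond configurations (used for `sit w`), torus events are sets of site
configurations. `a4 q r` is the probability that the origin has two neighbours which are joined to
distance `r` by open paths avoiding the origin and which are not joined to each other by such a
path.
-/

set_option autoImplicit false

open MeasureTheory ProbabilityTheory unitInterval

namespace Pool.Agent.H92.SN

open Pool.Agent.H89.Perc Pool.Agent.H61.NC
open Pool.Agent.H83.SK (sv sit)

/-- The site `v` is closed. -/
def shut (v : Vert) (w : Config) : Config := Function.update w (sv v) false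

/-- Sites of the torus. -/
noncomputable def tSites (N : ℕ) : Finset Edge :=
  Finset.Ico (0 : ℤ) N ×ˢ Finset.Ico (0 : ℤ) N ×ˢ {false}

/-- There is an open path on the torus which winds around it horizontally (site percolation). -/
def WindS (N : ℕ) : Set Config :=
  {w | ∃ (u : Vert) (a b : ℤ), a ≠ 0 ∧ Conn (sit (per N w)) Set.univ u (u.1 + a * N, u.2 + b * N)}

/-- The site in the middle of the torus, as a vertex. -/
def cV (N : ℕ) : Vert := (mid N, mid N)

/-- The site in the middle of the torus. -/
def cE (N : ℕ) : Edge := (mid N, mid N, false)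

/-- The influence of a site on the winding event. -/
noncomputable def sT (q : I) (N : ℕ) : ℝ := pivot q (WindS N) (cE N)

/-- The block of radius `r` in the middle of the torus. -/
noncomputable def blkS (N r : ℕ) : Finset Edge :=
  Finset.Icc (mid N - r) (mid N + r) ×ˢ Finset.Icc (mid N - r) (mid N + r) ×ˢ {false}

/-- The block of radius `r` is pivotal for the winding event. -/
def BlockPiv (N r : ℕ) : Set Config :=
  {w | fill (blkS N r) true w ∈ WindS N ∧ fill (blkS N r) false w ∉ WindS N}

/-! ### Interfaces -/

/-! ### The connection of the neighbours of a site -/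

/-- The neighbours of `v`. -/
def nb (v : Vert) : ℕ → Vert
  | 0 => (v.1 + 1, v.2)
  | 1 => (v.1, v.2 + 1)
  | 2 => (v.1 - 1, v.2)
  | _ => (v.1, v.2 - 1)

/-- The `i`-th neighbour of `v` is joined to an earlier one off `v`, in `S` (bond
configurations). -/
def Dn (S : Set Vert) (v : Vert) (i : ℕ) : Set Config :=
  {ω | ∃ j < i, Conn (closeV v ω) S (nb v j) (nb v i)}

/-- `E(N₀) = 4 p - tau p` is the expected number of open clusters adjacent to the origin (off the
origin). -/
noncomputable def tau (p : I) : ℝ := ∑ i ∈ Finset.Icc 1 3, Pool.Agent.H83.SK.Pr p (Dn Set.univ 0 i)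

/-- The same event on the torus, for the site in the middle: in the periodic extension the `i`-th
neighbour is joined to a translate of an earlier one, off the translates of the middle site. -/
def DT (N i : ℕ) : Set Config :=
  {w | ∃ j < i, ∃ a b : ℤ, Conn (sit (per N (shut (cV N) w))) Set.univ (nb (cV N) j)
    ((nb (cV N) i).1 + a * N, (nb (cV N) i).2 + b * N)}

end Pool.Agent.H92.SN

end

section

/-!
# Site percolation, RSW regime: crossings of all rectangles of bounded aspect ratio, both colours
-/

open MeasureTheory ProbabilityTheory unitInterval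

namespace Pool.Agent.H83.SK

open Pool.Agent.H89.Perc

end Pool.Agent.H83.SK

end

section

/-!
# RSW regime: probability of open circuits
-/

open MeasureTheory ProbabilityTheory unitInterval

namespace Pool.Agent.H83.SK

open Pool.Agent.H29.Sep

open Pool.Agent.H89.Perc

end Pool.Agent.H83.SK

end

section

/-!
# Level-one inequality for block explorations
-/

set_option autoImplicit false

open MeasureTheory ProbabilityTheory unitInterval

namespace Pool.Agent.H13.SK

open Pool.Agent.H89.Perc Pool.Agent.H85.Kes
open Pool.Agent.Perc (Ex ind ind_of ind_of_not)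

end Pool.Agent.H13.SK

end

section

/-!
# Level-one inequality for block explorations: events
-/

set_option autoImplicit false

open MeasureTheory ProbabilityTheory unitInterval

namespace Pool.Agent.H13.SK

open Pool.Agent.H89.Perc Pool.Agent.H85.Kes
open Pool.Agent.Perc (Ex ind ind_of ind_of_not)

end Pool.Agent.H13.SK

end

section

/-!
# Site percolation on the torus: definitions

The sites of the torus of side `N` are the sites of the plane modulo `N`.  `sitT N ω` is the induced
periodic bond configuration.
-/

open MeasureTheory ProbabilityTheory unitInterval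

namespace Pool.Agent.H83.SK

open Pool.Agent.H89.Perc Pool.Agent.H61.NC

variable {N : ℕ} {q : I} {A B : Set Config} {s t : Finset Edge}

/-- The induced bond configuration of the torus. -/
def sitT (N : ℕ) (ω : Config) : Config := sit (per N ω)

theorem per_sitT (N : ℕ) (ω : Config) : per N (sitT N ω) = sitT N ω := by
  funext ⟨x, y, b⟩
  have hx : ∀ z : ℤ, (z % N + 1) % (N : ℤ) = (z + 1) % N := fun z => by
    rw [Int.emod_add_emod]
  cases b
  · simp only [sitT, per, sit, sv, src, tgt, Bool.false_eq_true, if_false, Int.emod_emod, hx]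
  · simp only [sitT, per, sit, sv, src, tgt, if_true, Int.emod_emod, hx]

/-- The influence of a site on the winding event. -/
noncomputable def sT (q : I) (N : ℕ) : ℝ := pivot q {ω | sitT N ω ∈ Wind N} (ctr N false)

/-- The sites of the block of radius `r` in the middle of the torus. -/
noncomputable def blkS (N r : ℕ) : Finset Edge := by
  classical exact (blk N r).filter (fun e => e.2.2 = false)

/-- The block of radius `r` is pivotal for the winding event (an event of the sites). -/
def BlockPiv (N r : ℕ) : Set Config :=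
  {ω | sitT N (fill (blkS N r) true ω) ∈ Wind N ∧ sitT N (fill (blkS N r) false ω) ∉ Wind N}

end Pool.Agent.H83.SK

end

section

/-!
# Site percolation: interfaces of the separation part

Everything is for densities `q` with `RSWreg c n q`; constants depend only on `c`.
-/

open MeasureTheory ProbabilityTheory unitInterval

namespace Pool.Agent.H83.SK

open Pool.Agent.H89.Perc Pool.Agent.H29.Sep
open Pool.Agent.H59.EX (Src Four)

end Pool.Agent.H83.SK

end

section

/-!
# Site percolation: exploration of clusters

`clus (sit w) D X` is the union of the clusters in `D` of the vertices of `X`; `Ucl w D X` is the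
set of the sites which are needed to determine it. The sites off `Ucl w D X` are fresh.
-/

open MeasureTheory ProbabilityTheory unitInterval

namespace Pool.Agent.H83.SK

open Pool.Agent.H26.HP

open Pool.Agent.H89.Perc

variable {ω ω' : Config} {D X S U : Set Vert} {R : ℕ} {q : I}

/-- The closed neighbourhood in `D`. -/
def nb (D S : Set Vert) : Set Vert := {v | v ∈ S ∨ (v ∈ D ∧ ∃ a ∈ S, Adj a v)}

end Pool.Agent.H83.SK

end

section

/-!
# Conditional FKG and conditional independence after an exploration
-/

open MeasureTheory ProbabilityTheory unitInterval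

namespace Pool.Agent.H83.SK

open Pool.Agent.H89.Perc

variable {p : I}

end Pool.Agent.H83.SK

end

end

section

/-! The parts of this file: H13.SK.SigmaUp, H13.SK.BddLoc, H83.SK.P29.NoArm, H38.SK.N59.Defs, H38.SK.N59.Stage. -/

section

/-!
# Upper bound for the mean cluster size of site percolation at a scale where the other colour is
good
-/

set_option autoImplicit false

open MeasureTheory ProbabilityTheory unitInterval

namespace Pool.Agent.H13.SK

open Pool.Agent.H89.Perc Pool.Agent.H83.Site

/-- The site with coordinates `v`. -/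
def sit0 (v : ℤ × ℤ) : TV := (v.1, v.2, false)

/-- The origin is joined to `v`. -/
def C0 (v : ℤ × ℤ) : Set Config := {η | TConn η Set.univ (0, 0, false) (sit0 v)}

end Pool.Agent.H13.SK

end

section

/-! # Russo-Seymour-Welsh for probabilities bounded away from zero, up to a given scale -/

set_option autoImplicit false

open MeasureTheory ProbabilityTheory unitInterval

namespace Pool.Agent.H13.SK

open Pool.Agent.H89.Perc Pool.Agent.H83.Site

end Pool.Agent.H13.SK

end

section

/-!
# Site percolation, RSW regime: annuli which are not crossed, one-arm decay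
-/

open MeasureTheory ProbabilityTheory unitInterval

namespace Pool.Agent.H83.SK

open Pool.Agent.H89.Perc Pool.Agent.H61.NC Pool.Agent.H31.EX

/-- An annulus is not crossed if four rectangles are not crossed in the short direction. -/
lemma noarm_det {ω : Config} {v : Vert} {s r : ℕ} (hsr : s ≤ r)
    (h1 : ¬ HCross ω (v.1 + s) (v.1 + r) (v.2 - r) (v.2 + r))
    (h2 : ¬ HCross ω (v.1 - r) (v.1 - s) (v.2 - r) (v.2 + r))
    (h3 : ¬ VCross ω (v.1 - r) (v.1 + r) (v.2 + s) (v.2 + r))
    (h4 : ¬ VCross ω (v.1 - r) (v.1 + r) (v.2 - r) (v.2 - s)) : ω ∉ ArmBox v s r := by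
  rintro ⟨u, hu, w, hw, hc⟩
  obtain ⟨hb, hw⟩ := hw
  simp only [mem_ball] at hu hb
  have hsr' : (s : ℤ) ≤ r := by exact_mod_cast hsr
  rcases hw with h | h | h | h
  · obtain ⟨x, y, hx, hy, hxy, -, -⟩ := hc.symm.cross_x (a := v.1 - r) (b := v.1 - s)
      (by omega) (by omega) (by omega)
    refine h2 ⟨x, y, hx, hy, hxy.mono_set ?_⟩
    rintro t ⟨ht, ht'⟩
    simp only [mem_ball, rect, Set.mem_ofPred_eq] at ht ht' ⊢
    omega
  · obtain ⟨x, y, hx, hy, hxy, -, -⟩ := hc.cross_x (a := v.1 + s) (b := v.1 + r)
      (by omega) (by omega) (by omega)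
    refine h1 ⟨x, y, hx, hy, hxy.mono_set ?_⟩
    rintro t ⟨ht, ht'⟩
    simp only [mem_ball, rect, Set.mem_ofPred_eq] at ht ht' ⊢
    omega
  · obtain ⟨x, y, hx, hy, hxy, -, -⟩ := hc.symm.cross_y (a := v.2 - r) (b := v.2 - s)
      (by omega) (by omega) (by omega)
    refine h4 ⟨x, y, hx, hy, hxy.mono_set ?_⟩
    rintro t ⟨ht, ht'⟩
    simp only [mem_ball, rect, Set.mem_ofPred_eq] at ht ht' ⊢
    omega
  · obtain ⟨x, y, hx, hy, hxy, -, -⟩ := hc.cross_y (a := v.2 + s) (b := v.2 + r)
      (by omega) (by omega) (by omega)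
    refine h3 ⟨x, y, hx, hy, hxy.mono_set ?_⟩
    rintro t ⟨ht, ht'⟩
    simp only [mem_ball, rect, Set.mem_ofPred_eq] at ht ht' ⊢
    omega

end Pool.Agent.H83.SK

end

section

/-!
# Separated four-arm events for site percolation: definitions

Everything is at the level of the sites: a configuration `w` gives the states of the sites, stored
at the coordinates `sv v`; `sit w` is the induced bond configuration.  Filling a set `Z` means
opening the sites of `Z`.
-/

set_option autoImplicit false

open MeasureTheory ProbabilityTheory unitInterval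

namespace Pool.Agent.H38.N59

open Pool.Agent.H89.Perc
open Pool.Agent.H83.SK (sv sit sit_true)
open Pool.Agent.H59.EX (LocS inE touch clus closeS Side T Mouth Fence dom)

/-- The coordinates of the sites of `S`. -/
def vE (S : Set Vert) : Set Edge := {g | g.2.2 = false ∧ src g ∈ S}

/-- The coordinates of the end points of the edges of `t`. -/
def en (t : Set Edge) : Set Edge := {g | ∃ e ∈ t, g = sv (src e) ∨ g = sv (tgt e)}

/-- The sites which are determined when the cluster `S` in the domain `D` is known. -/
def rv (D S : Set Vert) : Set Edge := en (touch D S)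

/-- A source: two points near the origin and a finite set of closed sites near the origin. -/
structure Src where
  /-- first point -/
  x : Vert
  /-- second point -/
  y : Vert
  /-- closed sites -/
  V0 : Finset Vert
  hx : x ∈ ball 0 2
  hy : y ∈ ball 0 2
  hV : ∀ v ∈ V0, v ∈ ball 0 2

/-- The configuration with the sites of the source closed. -/
noncomputable def Src.cut (s : Src) (w : Config) : Config := closeS (vE (s.V0 : Set Vert)) w

/-- Four-arm event of a source: both points are joined to the sphere of radius `r` and not to each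
other, in `ball 0 r`. -/
def Four (s : Src) (r : ℕ) : Set Config :=
  {w | (∃ u ∈ sphere 0 r, Conn (sit (s.cut w)) (ball 0 r) s.x u) ∧
    (∃ u ∈ sphere 0 r, Conn (sit (s.cut w)) (ball 0 r) s.y u) ∧
    ¬ Conn (sit (s.cut w)) (ball 0 r) s.x s.y}

/-- The determined sites. -/
def det (π : Edge → Edge) (d d' : Side) (k : ℕ) (C S : Set Vert) : Set Edge :=
  Pool.Agent.H59.EX.sat π (rv (dom d d' k) S ∪ vE C)

/-- With the sites of `t` closed, no path leads from `ball g ρ` out of `ball g (3 ρ)`, for all
centres `g ∈ G`. -/
def Seal (G : Finset Vert) (ρ : ℕ) (t : Set Edge) : Set Config :=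
  {w | ∀ g ∈ G, ∀ u ∈ ball g ρ, ∀ v, v ∉ ball g (3 * ρ) → ¬ Conn (sit (closeS t w)) Set.univ u v}

/-! ### Elementary facts -/

variable {w w' η : Config} {D X S Z V : Set Vert} {t t' : Set Edge} {a b x : Vert} {e g : Edge}

@[simp] theorem sv_mem_vE : sv a ∈ vE S ↔ a ∈ S := by
  simp [vE, sv, src]

theorem sit_joins (hj : Joins e a b) : sit w e = true ↔ w (sv a) = true ∧ w (sv b) = true := by
  rw [sit_true]
  rcases hj with ⟨h1, h2⟩ | ⟨h1, h2⟩ <;> rw [h1, h2]
  exact and_comm

theorem closeS_true : closeS t w g = true ↔ w g = true ∧ g ∉ t :=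
  Pool.Agent.H59.EX.closeS_true

theorem sit_congr' (h : ∀ g ∈ vE S, w g = w' g) (h1 : src e ∈ S) (h2 : tgt e ∈ S) :
    sit w e = sit w' e := by
  unfold sit
  rw [h _ (sv_mem_vE.2 h1), h _ (sv_mem_vE.2 h2)]

theorem sit_mono (h : ∀ g, w g = true → w' g = true) (e : Edge) (he : sit w e = true) :
    sit w' e = true := Pool.Agent.H83.SK.sit_mono h e he

theorem conn_congr (h : ∀ g ∈ vE D, w g = w' g) (hc : Conn (sit w) D a b) :
    Conn (sit w') D a b :=
  hc.congr fun _ h1 h2 => sit_congr' h h1 h2

theorem conn_mono {D' : Set Vert} (hD : D ⊆ D') (h : ∀ g, w g = true → w' g = true)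
    (hc : Conn (sit w) D a b) : Conn (sit w') D' a b :=
  hc.mono hD (sit_mono h)

end Pool.Agent.H38.N59

end

section

/-!
# Outward separation for sites: definitions and elementary facts for the stages

The corridors and their crossing events are those of the bond setting, evaluated at the induced
configuration.
-/

set_option autoImplicit false

open MeasureTheory ProbabilityTheory unitInterval

namespace Pool.Agent.H38.N59

open Pool.Agent.H89.Perc
open Pool.Agent.H83.SK (sv sit sit_true)
open Pool.Agent.H59.EX (LocS inE touch clus closeS Side T Mouth Fence dom CorrData CorrSep fence_mem mem_sphere_of_joins)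

end Pool.Agent.H38.N59

end

end

section

/-! The parts of this file: H83.Site.Near, H83.Site.Chain, H83.Site.Bdd, H83.Site.Crit, H83.Site.ArmT, H83.SK.P57.Base, H83.SK.P57.Stage2a, H83.SK.P57.Det2. -/

section

/-! # Russo-Seymour-Welsh for probabilities close to one -/

set_option autoImplicit false

open MeasureTheory ProbabilityTheory unitInterval

namespace Pool.Agent.H83.Site

open Pool.Agent.H89.Perc

/-- The event `E` fails with probability at most `q`. -/
def NearG (p : I) (r : Bool) (q : ℝ) (E : Set Config) : Prop :=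
  (∃ s : Finset Edge, LocalOn s E) ∧ 1 - q ≤ PT p r E

lemma near_localOn_comp {s : Finset Edge} {E : Set Config} (hE : LocalOn s E)
    (φ : TV → TV) : ∃ t : Finset Edge, LocalOn t {η | (fun v => η (φ v)) ∈ E} := by
  classical
  refine ⟨s.image φ, fun ω ω' hω h => hE _ _ (fun e he => hω _ (Finset.mem_image_of_mem _ he)) h⟩

/-- Horizontal crossings whose end points satisfy a condition. -/
def NearSt (P : ℤ → ℤ → Prop) (a b l : ℤ) : Set Config :=
  {η | ∃ y y' : ℤ, P y y' ∧ TConn η (TR a b 0 (2 * l)) (a, y, false) (b, y', false)}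

lemma near_localOn_st (P : ℤ → ℤ → Prop) (a b l : ℤ) :
    LocalOn (eRect a b 0 (2 * l)) (NearSt P a b l) := by
  rintro η η' h ⟨y, y', hP, hc⟩
  exact ⟨y, y', hP, localOn_tconn _ _ _ _ _ _ η η' h hc⟩

lemma near_incr_st (P : ℤ → ℤ → Prop) (a b l : ℤ) : Incr (NearSt P a b l) := by
  rintro η η' h ⟨y, y', hP, hc⟩
  exact ⟨y, y', hP, incr_tconn _ _ _ η η' h hc⟩

end Pool.Agent.H83.Site

end

section

/-! # Finite size criterion: connections to infinity, absence of percolation -/

set_option autoImplicit false

open MeasureTheory ProbabilityTheory unitInterval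

namespace Pool.Agent.H83.Site

open Pool.Agent.H89.Perc

/-- The events of the chain. -/
def chainE (m k : ℕ) : Set Config :=
  if k % 2 = 0 then {η | HC η 0 (4 * ((2 ^ k * m : ℕ) : ℤ)) 1 ((2 ^ k * m : ℕ) : ℤ)}
  else {η | VC η 1 ((2 ^ k * m : ℕ) : ℤ) 0 (4 * ((2 ^ k * m : ℕ) : ℤ))}

theorem sum_sq_le (K : ℕ) :
    ∑ k ∈ Finset.range K, (1 / 121 : ℝ) * (1 / 2) ^ (2 ^ k) ≤ 1 / 2 := by
  have h1 : ∀ k : ℕ, (1 / 2 : ℝ) ^ (2 ^ k) ≤ (1 / 2) ^ k := by
    intro k
    exact pow_le_pow_of_le_one (by norm_num) (by norm_num) (Nat.lt_two_pow_self).le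
  have h2 : ∑ k ∈ Finset.range K, (1 / 2 : ℝ) ^ k ≤ 2 := by
    have := geom_sum_eq (x := (1 / 2 : ℝ)) (by norm_num) K
    rw [this]
    have h3 : (0 : ℝ) ≤ (1 / 2) ^ K := by positivity
    rw [div_le_iff_of_neg (by norm_num)]
    linarith
  rw [← Finset.mul_sum]
  have h3 : ∑ k ∈ Finset.range K, (1 / 2 : ℝ) ^ (2 ^ k) ≤ 2 :=
    (Finset.sum_le_sum fun k _ => h1 k).trans h2
  linarith

theorem chain_thT_antitone (r : Bool) :
    Antitone (fun n : ℕ => {ω : Config | full r ω ∈ AB 0 0 0 n}) := by
  intro n n' hn ω hω
  exact AB_mono (x := 0) (y := 0) le_rfl hn (Nat.zero_le _) hω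

theorem chain_thT_set (r : Bool) :
    {ω : Config | full r ω ∈ {η | ∀ n, η ∈ AB 0 0 0 n}} =
      ⋂ n : ℕ, {ω : Config | full r ω ∈ AB 0 0 0 n} := by
  ext ω
  simp

end Pool.Agent.H83.Site

end

section

/-! # Russo-Seymour-Welsh for probabilities bounded away from zero -/

set_option autoImplicit false

open MeasureTheory ProbabilityTheory unitInterval

namespace Pool.Agent.H83.Site

open Pool.Agent.H89.Perc

end Pool.Agent.H83.Site

end

section

/-! # The critical point -/

set_option autoImplicit false

open MeasureTheory ProbabilityTheory unitInterval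

namespace Pool.Agent.H83.Site

open Pool.Agent.H89.Perc

/-- Box crossing property. -/
def BXP (p : I) (r : Bool) : Prop :=
  ∀ K : ℕ, ∃ c > (0 : ℝ), ∀ m : ℕ, 1 ≤ m → c ≤ PT p r {η | HC η 0 (K * m) 0 m}

end Pool.Agent.H83.Site

end

section

/-! # Extension of arms, averages -/

set_option autoImplicit false

open MeasureTheory ProbabilityTheory unitInterval

namespace Pool.Agent.H83.Site

open Pool.Agent.H89.Perc

/-! ### Open sites -/

end Pool.Agent.H83.Site

end

section

/-!
# Site percolation: probability with some closed sites, exploration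
-/

open MeasureTheory ProbabilityTheory unitInterval

namespace Pool.Agent.H83.SK

open Pool.Agent.H57.EX

open Pool.Agent.H89.Perc Pool.Agent.H61.NC Pool.Agent.H29.Sep

variable {q : I} {V0 : Finset Edge}

/-! ### Exploration -/

variable {D D' X S U : Set Vert} {w : Config}

/-- An open site among the determining sites is in the cluster or trivial. -/
lemma open_Ucl {v : Vert} (h : v ∈ Ucl w D X) (hv : w (sv v) = true) : v ∈ cl (sit w) D X := by
  rcases h with h | ⟨h0, a, h1, h2, h3⟩
  · exact h
  · exact cl_step h1 (step_sit.2 ⟨cl_sub h1, h0, h3, h2, hv⟩)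

end Pool.Agent.H83.SK

end

section

/-!
# Site percolation: sealing of the first cluster
-/

open MeasureTheory ProbabilityTheory unitInterval

namespace Pool.Agent.H83.SK

open Pool.Agent.H57.EX

open Pool.Agent.H89.Perc Pool.Agent.H61.NC Pool.Agent.H29.Sep

/-- The sealing event for given values: for some values of the determined sites, no ball
containing an exit well inside is joined to distance `3 s`. -/
def SealU (Z : Dat) (s : ℕ) (V : Finset Vert) (G S1 U : Set Vert) : Set Config :=
  {w | ∃ w' : Config, (∀ g ∉ siteF Z.R U, w' g = w g) ∧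
    ∀ v ∈ V, (Exits Z.W G S1 ∩ ball v (s - 1)).Nonempty → sit w' ∉ ArmBox v s (3 * s)}

/-- The sealing event. -/
def SealS (Z : Dat) (s : ℕ) (V : Finset Vert) (G : Set Vert) : Set Config :=
  {w | w ∈ SealU Z s V G (cl (sit w) G {Z.x})
    (Ucl w G {Z.x} ∪ Ucl w G {Z.y} ∪ Ucl w G Z.T)}

end Pool.Agent.H83.SK

end

section

/-!
# Site percolation: the sealed cluster
-/

open MeasureTheory ProbabilityTheory unitInterval

namespace Pool.Agent.H83.SK

open Pool.Agent.H57.EX

open Pool.Agent.H89.Perc Pool.Agent.H61.NC Pool.Agent.H29.Sep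

/-- The hypotheses of this file. -/
structure H2S (Z : Dat) (s s' : ℕ) (γ : ℕ → Vert) (n : ℕ) (b b' : Vert) (V : Finset Vert)
    (w : Config) : Prop where
  hs' : 2 ≤ s'
  hss : 40 * s' ≤ s
  hsm : 100 * s ≤ Z.m
  hb : b ∈ sphere 0 (4 * Z.m)
  hb' : b' ∈ sphere 0 (16 * Z.m)
  hg : ZGood Z.m s γ n b b'
  hV : ∀ u ∈ ball 0 (20 * Z.m), ∃ v ∈ V, u ∈ ball v (s' - 1)
  h1 : sit w ∈ E1 Z s b b' (GG Z s γ n)
  h2 : sit w ∈ NB Z (38 * s') (GG Z s γ n)
  h3 : w ∈ SealS Z s' V (GG Z s γ n)

/-- The three parts of the glued domain. -/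
theorem mem_GG {Z : Dat} {s n : ℕ} {γ : ℕ → Vert} {v : Vert} :
    v ∈ GG Z s γ n ↔ v ∈ Z.B ∨ v ∈ Z.D ∨ v ∈ zone γ n s := by
  unfold GG
  rw [Set.mem_union, Set.mem_union, or_assoc]

theorem mem_B {Z : Dat} {v : Vert} : v ∈ Z.B ↔ nrm v ≤ 4 * (Z.m : ℤ) := by
  unfold Dat.B
  rw [mem_ball_zero]
  push_cast
  rfl

private theorem x_mem_GG (Z : Dat) (s n : ℕ) (γ : ℕ → Vert) : Z.x ∈ GG Z s γ n := by
  rw [mem_GG]
  left
  rw [mem_B]
  have h1 := Z.hx
  rw [mem_ball_zero] at h1
  have h2 := Z.hm
  push_cast at h1
  omega

theorem nrm_sphere {t : ℕ} {v : Vert} (h : v ∈ sphere 0 t) : nrm v = t :=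
  mem_sphere_zero.1 h

/-- Places of the exits. -/
theorem exit_cases {Z : Dat} {s s' : ℕ} {γ : ℕ → Vert} {n : ℕ} {b b' : Vert} {V : Finset Vert}
    {w : Config} (h : H2S Z s s' γ n b b' V w) {v : Vert}
    (hv : v ∈ Exits Z.W (GG Z s γ n) (cl (sit w) (GG Z s γ n) {Z.x})) :
    v ∈ ball 0 (20 * Z.m) ∧ (v ∈ zone γ n s ∨ v ∈ sphere 0 (4 * Z.m) ∨ (v ∈ Z.D ∧ v ∈ Z.Bd)) := by
  obtain ⟨hv1, e, w, he, hwW, hwG⟩ := hv
  have hvG : v ∈ GG Z s γ n := cl_sub hv1
  have hm := Z.hm
  have hwB : w ∉ Z.B := fun hw => hwG (mem_GG.2 (Or.inl hw))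
  have hwD : w ∉ Z.D := fun hw => hwG (mem_GG.2 (Or.inr (Or.inl hw)))
  have hw19 : w ∈ ball 0 (19 * Z.m) := by
    by_contra hcon
    exact hwD (Z.hWD w hwW hcon)
  have hvw : v ∈ ball w 1 := joins_ball (joins_symm he)
  have hwv : w ∈ ball v 1 := joins_ball he
  have h1 := nrm_le_of_mem_ball hvw
  have h2 := nrm_le_of_mem_ball hwv
  rw [mem_ball_zero] at hw19
  push_cast at hw19 h1 h2
  refine ⟨?_, ?_⟩
  · rw [mem_ball_zero]
    push_cast
    omega
  · rw [mem_GG] at hvG
    rcases hvG with hB | hD | hzn
    · right
      left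
      rw [mem_B] at hB hwB
      rw [mem_sphere_zero]
      push_cast
      omega
    · right
      right
      exact ⟨hD, Or.inr ⟨hD, e, w, he, hwW, hwD⟩⟩
    · left
      exact hzn

/-- Near the exits there are no vertices of the clusters of `y` and `T`. -/
theorem exit_far {Z : Dat} {s s' : ℕ} {γ : ℕ → Vert} {n : ℕ} {b b' : Vert} {V : Finset Vert}
    {w : Config} (h : H2S Z s s' γ n b b' V w) {v p : Vert}
    (hv : v ∈ Exits Z.W (GG Z s γ n) (cl (sit w) (GG Z s γ n) {Z.x}))
    (hp : p ∈ ball v (4 * s')) :
    p ∉ cl (sit w) (GG Z s γ n) {Z.y} ∧ p ∉ cl (sit w) (GG Z s γ n) Z.T := by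
  obtain ⟨-, hc⟩ := exit_cases h hv
  obtain ⟨-, -, -, hS2, hS3, hd2, hd3, -, -⟩ := h.h1
  obtain ⟨hn1, hn2⟩ := h.h2
  have hs' := h.hs'
  have hss := h.hss
  have hsm := h.hsm
  have hp1 := nrm_le_of_mem_ball hp
  have hp2 := le_nrm_of_mem_ball hp
  push_cast at hp1 hp2
  have h38 : 4 * s' ≤ 38 * s' := by omega
  have hvS1 : v ∈ cl (sit w) (GG Z s γ n) {Z.x} := hv.1
  rcases hc with hzn | hsp | ⟨hD, hBd⟩
  · constructor
    · intro hpS
      have hpB := hS2 hpS
      rw [mem_B] at hpB
      have hvb := h.hg.inner v hzn (by omega)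
      have hpb := ball_mono (show 20 * s + 4 * s' ≤ 38 * s by omega) (ball_trans hvb hp)
      exact Set.disjoint_left.1 hd2 hpS hpb
    · intro hpS
      have hpD := Z.hD p (hS3 hpS)
      have hvb := h.hg.outer v hzn (by omega)
      have hpb := ball_mono (show 20 * s + 4 * s' ≤ 38 * s by omega) (ball_trans hvb hp)
      exact Set.disjoint_left.1 hd3 hpS hpb
  · have hnv := nrm_sphere hsp
    push_cast at hnv
    constructor
    · intro hpS
      exact hn1 v hsp ⟨v, hvS1, mem_ball_self v _⟩ ⟨p, hpS, ball_mono h38 hp⟩
    · intro hpS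
      have hpD := Z.hD p (hS3 hpS)
      have hm := Z.hm
      omega
  · have hnv := Z.hD v hD
    constructor
    · intro hpS
      have hpB := hS2 hpS
      rw [mem_B] at hpB
      have hm := Z.hm
      omega
    · intro hpS
      exact hn2 v hBd ⟨v, hvS1, mem_ball_self v _⟩ ⟨p, hpS, ball_mono h38 hp⟩

/-- The cluster of `x` in the universe. -/
theorem sealed {Z : Dat} {s s' : ℕ} {γ : ℕ → Vert} {n : ℕ} {b b' : Vert} {V : Finset Vert}
    {w : Config} (h : H2S Z s s' γ n b b' V w) {p : Vert} (hp : p ∈ cl (sit w) Z.W {Z.x}) :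
    p ∈ cl (sit w) (GG Z s γ n) {Z.x} ∨
      ∃ v ∈ Exits Z.W (GG Z s γ n) (cl (sit w) (GG Z s γ n) {Z.x}), p ∈ ball v (4 * s') := by
  by_cases hp1 : p ∈ cl (sit w) (GG Z s γ n) {Z.x}
  · exact Or.inl hp1
  right
  have hxG := x_mem_GG Z s n γ
  have hxS : Z.x ∈ cl (sit w) (GG Z s γ n) {Z.x} := mem_cl_self hxG
  rw [mem_cl_iff] at hp
  obtain ⟨v, hv, x, hx, hvW, hxW, ⟨e, he, heo⟩, hxp⟩ := last_exit hp hxS hp1
  have hvG : v ∈ GG Z s γ n := cl_sub hv
  have hxGn : x ∉ GG Z s γ n := by
    intro hwG
    exact hx (cl_step hv ⟨hvG, hwG, e, he, heo⟩)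
  have hvE : v ∈ Exits Z.W (GG Z s γ n) (cl (sit w) (GG Z s γ n) {Z.x}) :=
    ⟨hv, e, x, he, hxW, hxGn⟩
  refine ⟨v, hvE, ?_⟩
  by_contra hpv
  have hs' := h.hs'
  obtain ⟨hv20, -⟩ := exit_cases h hvE
  obtain ⟨c, hcV, hvc⟩ := h.hV v hv20
  have hpc : p ∉ ball c (3 * s') := by
    intro hpc
    apply hpv
    have h1 := ball_trans (mem_ball_comm.1 hvc) hpc
    exact ball_mono (by omega) h1
  have hxc : x ∈ ball c s' := ball_mono (by omega) (ball_trans hvc (joins_ball he))
  obtain ⟨u, hu, hxu⟩ := reach_sphere hxp (ball_mono (by omega) hxc) (Or.inl hpc)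
  obtain ⟨w', hw', hseal⟩ := h.h3
  refine hseal c hcV ⟨v, hvE, hvc⟩ ⟨x, hxc, u, hu, ?_⟩
  have hkey : ∀ a, a ∈ (Z.W \ cl (sit w) (GG Z s γ n) {Z.x}) ∩ ball c (3 * s') →
      w (sv a) = true → w' (sv a) = true := by
    rintro a ⟨⟨haW, haS⟩, hac⟩ hwa
    rw [hw' (sv a)]
    · exact hwa
    intro hmem
    obtain ⟨a', _, haU, hae⟩ := mem_siteF.1 hmem
    rw [sv_injective hae] at haU
    have hav : a ∈ ball v (4 * s') := by
      have h1 := ball_trans (mem_ball_comm.1 hvc) hac
      exact ball_mono (by omega) h1
    rcases haU with (haU | haU) | haU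
    · exact haS (open_Ucl haU hwa)
    · exact (exit_far h hvE hav).1 (open_Ucl haU hwa)
    · exact (exit_far h hvE hav).2 (open_Ucl haU hwa)
  refine conn_congr hxu (fun a ha => ha.2) ?_
  intro f hf1 hf2 hfo
  rw [sit_true] at hfo ⊢
  exact ⟨hkey _ hf1 hfo.1, hkey _ hf2 hfo.2⟩

end Pool.Agent.H83.SK

end

end
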