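import Pool.Agent.H94.BG.H31.PT.M03_3
import Pool.Agent.H94.BG.H31.PT.M06_3
import Pool.Agent.H94.BG.M19

/-! The parts of this file: H31.PT.M07_7, H31.PT.M11_4. -/

section

/-! The parts of this file: H83.Site.Defs, H83.Site.TProb, H83.Site.DualN, H83.Site.Glue, H83.Site.Circ, H83.Site.DualE, H83.Site.Low, H83.Site.Expl, H83.Site.Renorm, H83.Site.ABLower, H83.Site.Transfer, H83.SK.Base, H92.SN.Defs, H83.SK.P29.Rect, H83.SK.P29.CircProb, H13.SK.BlockL1, H13.SK.BlockEv, H83.SK.Tor, H83.SK.Iface, H83.SK.PHP.Expl, H83.SK.P29.ExplB. -/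

section

/-!
# Site percolation on the centred square lattice

The vertices of the centred lattice `T` are the sites `(x, y, false)` of `ℤ²` and the centres
`(x, y, true)` of the unit squares `[x, x + 1] × [y, y + 1]`. Sites are adjacent to their four
nearest neighbours and every centre is adjacent to the four corners of its square. This is a
triangulation of the plane. A configuration is a function `Edge → Bool` (`Edge = ℤ × ℤ × Bool`
is used here as the set of vertices of `T`); `full r ω` is the configuration in which all centres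
have the state `r`. Open paths of `full false ω` are nearest neighbour paths of open sites, open
paths of `full true ω` are paths of open sites with diagonal steps.
-/

set_option autoImplicit false

open MeasureTheory ProbabilityTheory unitInterval

namespace Pool.Agent.H83.Site

open Pool.Agent.H89.Perc

/-! ### Geometry -/

/-! ### Paths -/

end Pool.Agent.H83.Site

end

section

/-!
# Probability of events of site percolation on the centred lattice
-/

set_option autoImplicit false

open MeasureTheory ProbabilityTheory unitInterval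

namespace Pool.Agent.H83.Site

open Pool.Agent.H89.Perc

/-! ### Local and increasing events -/

/-! ### Elementary properties of `PT` -/

/-! ### Symmetries -/

/-! ### Paths and squares -/

/-! ### Square root trick -/

end Pool.Agent.H83.Site

end

section

/-! # Duality: open horizontal and closed vertical crossings do not coexist

The centred lattice `T` is drawn in the square lattice `ℤ²`, scaled by 3: the site `(x, y)` at
`(3 x, 3 y)` and the centre `(x, y)` at `(3 x + 1, 3 y + 1)`. Every vertex of the fine lattice has a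
label, a vertex of `T`, such that every edge `u v` of `T` is drawn as a path of vertices with the
labels `u` and `v`. An open horizontal and a closed vertical crossing give two paths in the fine
lattice which cross (`Pool.Agent.H89.Perc.cross`), in a vertex whose label is both open and closed.
-/

set_option autoImplicit false

namespace Pool.Agent.H83.Site

open Pool.Agent.H89.Perc

end Pool.Agent.H83.Site

end

section

/-! # Paths which cross a rectangle in different directions meet -/

set_option autoImplicit false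

namespace Pool.Agent.H83.Site

open Pool.Agent.H89.Perc

/-! ### Indicator of a cluster -/

/-! ### The extension by one column -/

/-! ### The mirror image -/

end Pool.Agent.H83.Site

end

section

/-! # Circuits in annuli -/

set_option autoImplicit false

open MeasureTheory ProbabilityTheory unitInterval

namespace Pool.Agent.H83.Site

open Pool.Agent.H89.Perc

end Pool.Agent.H83.Site

end

section

/-! # Duality: an open horizontal or a closed vertical crossing exists -/

set_option autoImplicit false

namespace Pool.Agent.H83.Site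

open Pool.Agent.H89.Perc

end Pool.Agent.H83.Site

end

section

/-! # The lowest crossing of a rectangle -/

set_option autoImplicit false

namespace Pool.Agent.H83.Site

open Pool.Agent.H89.Perc

/-! ### Auxiliary facts -/

end Pool.Agent.H83.Site

end

section

/-! # Conditioning on the lowest crossing -/

set_option autoImplicit false

open MeasureTheory ProbabilityTheory unitInterval

namespace Pool.Agent.H83.Site

open Pool.Agent.H89.Perc

/-! ### Auxiliary facts -/

end Pool.Agent.H83.Site

end

section

/-! # Renormalisation of crossing probabilities -/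

set_option autoImplicit false

open MeasureTheory ProbabilityTheory unitInterval

namespace Pool.Agent.H83.Site

open Pool.Agent.H89.Perc

end Pool.Agent.H83.Site

end

section

/-! # Lower bound for arm probabilities by the van den Berg-Kesten inequality -/

set_option autoImplicit false

open MeasureTheory ProbabilityTheory unitInterval

namespace Pool.Agent.H83.Site

open Pool.Agent.H89.Perc

/-! ### Disjoint occurrence -/

/-! ### Splitting of a self-avoiding path -/

/-! ### The configuration of the sites of a set -/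

end Pool.Agent.H83.Site

end

section

/-!
# Transfer to site percolation on `ℤ × ℤ`
-/

set_option autoImplicit false

open MeasureTheory ProbabilityTheory unitInterval

namespace Pool.Agent.H83.Site

open Pool.Agent.H89.Perc

variable {r : Bool} {ω : ℤ × ℤ → Bool}

section graph

variable {G : SimpleGraph (ℤ × ℤ)}

end graph

end Pool.Agent.H83.Site

end

section

/-!
# Site percolation through the induced bond configuration

Site configurations are stored at the edges `(x, y, false)` of the lattice. `sit ω` is the induced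
bond configuration: an edge is open if both endpoints are open sites. `Pr p A` is the probability
that the induced configuration is in `A`, when the sites are open with probability `p`.
-/

set_option autoImplicit false

open MeasureTheory ProbabilityTheory unitInterval

namespace Pool.Agent.H83.SK

open Pool.Agent.H89.Perc

/-! ### Symmetries -/

/-! ### One-arm events -/

/-! ### The box-crossing regime -/

end Pool.Agent.H83.SK

end

section

/-!
# Near-critical site percolation: definitions and interfaces

Four-arm events are sets of bond configurations (used for `sit w`), torus events are sets of site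
configurations. `a4 q r` is the probability that the origin has two neighbours which are joined to
distance `r` by open paths avoiding the origin and which are not joined to each other by such a
path.
-/

set_option autoImplicit false

open MeasureTheory ProbabilityTheory unitInterval

namespace Pool.Agent.H92.SN

open Pool.Agent.H89.Perc Pool.Agent.H61.NC
open Pool.Agent.H83.SK (sv sit)

/-- The derivative of the winding probability. -/
noncomputable def FT' (N : ℕ) (q : I) : ℝ := PrR' (tSites N) (WindS N) (q : ℝ)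

/-! ### Interfaces -/

/-! ### The connection of the neighbours of a site -/

end Pool.Agent.H92.SN

end

section

/-!
# Site percolation, RSW regime: crossings of all rectangles of bounded aspect ratio, both colours
-/

open MeasureTheory ProbabilityTheory unitInterval

namespace Pool.Agent.H83.SK

open Pool.Agent.H89.Perc

end Pool.Agent.H83.SK

end

section

/-!
# RSW regime: probability of open circuits
-/

open MeasureTheory ProbabilityTheory unitInterval

namespace Pool.Agent.H83.SK

open Pool.Agent.H29.Sep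

open Pool.Agent.H89.Perc

end Pool.Agent.H83.SK

end

section

/-!
# Level-one inequality for block explorations
-/

set_option autoImplicit false

open MeasureTheory ProbabilityTheory unitInterval

namespace Pool.Agent.H13.SK

open Pool.Agent.H89.Perc Pool.Agent.H85.Kes
open Pool.Agent.Perc (Ex ind ind_of ind_of_not)

end Pool.Agent.H13.SK

end

section

/-!
# Level-one inequality for block explorations: events
-/

set_option autoImplicit false

open MeasureTheory ProbabilityTheory unitInterval

namespace Pool.Agent.H13.SK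

open Pool.Agent.H89.Perc Pool.Agent.H85.Kes
open Pool.Agent.Perc (Ex ind ind_of ind_of_not)

end Pool.Agent.H13.SK

end

section

/-!
# Site percolation on the torus: definitions

The sites of the torus of side `N` are the sites of the plane modulo `N`.  `sitT N ω` is the induced
periodic bond configuration.
-/

open MeasureTheory ProbabilityTheory unitInterval

namespace Pool.Agent.H83.SK

open Pool.Agent.H89.Perc Pool.Agent.H61.NC

end Pool.Agent.H83.SK

end

section

/-!
# Site percolation: interfaces of the separation part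

Everything is for densities `q` with `RSWreg c n q`; constants depend only on `c`.
-/

open MeasureTheory ProbabilityTheory unitInterval

namespace Pool.Agent.H83.SK

open Pool.Agent.H89.Perc Pool.Agent.H29.Sep
open Pool.Agent.H59.EX (Src Four)

end Pool.Agent.H83.SK

end

section

/-!
# Site percolation: exploration of clusters

`clus (sit w) D X` is the union of the clusters in `D` of the vertices of `X`; `Ucl w D X` is the
set of the sites which are needed to determine it. The sites off `Ucl w D X` are fresh.
-/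

open MeasureTheory ProbabilityTheory unitInterval

namespace Pool.Agent.H83.SK

open Pool.Agent.H26.HP

open Pool.Agent.H89.Perc

end Pool.Agent.H83.SK

end

section

/-!
# Conditional FKG and conditional independence after an exploration
-/

open MeasureTheory ProbabilityTheory unitInterval

namespace Pool.Agent.H83.SK

open Pool.Agent.H89.Perc

variable {p : I}

end Pool.Agent.H83.SK

end

end

section

/-! The parts of this file: H83.Site.Near, H83.Site.Chain, H83.Site.Bdd, H83.Site.Crit, H83.Site.ArmT, H83.SK.P57.Base, H83.SK.P57.Stage2a, H83.SK.P57.Det2. -/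

section

/-! # Russo-Seymour-Welsh for probabilities close to one -/

set_option autoImplicit false

open MeasureTheory ProbabilityTheory unitInterval

namespace Pool.Agent.H83.Site

open Pool.Agent.H89.Perc

end Pool.Agent.H83.Site

end

section

/-! # Finite size criterion: connections to infinity, absence of percolation -/

set_option autoImplicit false

open MeasureTheory ProbabilityTheory unitInterval

namespace Pool.Agent.H83.Site

open Pool.Agent.H89.Perc

end Pool.Agent.H83.Site

end

section

/-! # Russo-Seymour-Welsh for probabilities bounded away from zero -/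

set_option autoImplicit false

open MeasureTheory ProbabilityTheory unitInterval

namespace Pool.Agent.H83.Site

open Pool.Agent.H89.Perc

end Pool.Agent.H83.Site

end

section

/-! # The critical point -/

set_option autoImplicit false

open MeasureTheory ProbabilityTheory unitInterval

namespace Pool.Agent.H83.Site

open Pool.Agent.H89.Perc

end Pool.Agent.H83.Site

end

section

/-! # Extension of arms, averages -/

set_option autoImplicit false

open MeasureTheory ProbabilityTheory unitInterval

namespace Pool.Agent.H83.Site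

open Pool.Agent.H89.Perc

/-! ### Open sites -/

end Pool.Agent.H83.Site

end

section

/-!
# Site percolation: probability with some closed sites, exploration
-/

open MeasureTheory ProbabilityTheory unitInterval

namespace Pool.Agent.H83.SK

open Pool.Agent.H57.EX

open Pool.Agent.H89.Perc Pool.Agent.H61.NC Pool.Agent.H29.Sep

variable {q : I} {V0 : Finset Edge}

/-- Probability of an event of the induced configuration when the sites of `V0` are closed. -/
noncomputable def PS (q : I) (V0 : Finset Edge) (A : Set Config) : ℝ :=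
  Pool.Agent.H57.EX.PrE q V0 {w | sit w ∈ A}

theorem PS_nonneg {A : Set Config} : 0 ≤ PS q V0 A := PrE_nonneg

theorem PS_mono {A B : Set Config} (h : A ⊆ B) : PS q V0 A ≤ PS q V0 B :=
  PrE_mono fun _ hω => h hω

theorem PS_union_le {A B : Set Config} : PS q V0 (A ∪ B) ≤ PS q V0 A + PS q V0 B :=
  PrE_union_le (A := {w | sit w ∈ A}) (B := {w | sit w ∈ B})

theorem PS_biUnion_le {ι : Type*} (F : Finset ι) (A : ι → Set Config) :
    PS q V0 (⋃ i ∈ F, A i) ≤ ∑ i ∈ F, PS q V0 (A i) := by
  unfold PS
  have h : {w | sit w ∈ ⋃ i ∈ F, A i} = ⋃ i ∈ F, {w | sit w ∈ A i} := by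
    ext ω
    simp
  rw [h]
  exact PrE_biUnion_le F _

/-- Events which do not look at the closed sites. -/
theorem PS_eq {t : Finset Edge} {A : Set Config} (h : LocalOn t A) (hd : Disjoint (hull t) V0) :
    PS q V0 A = Pr q A :=
  PrE_eq (localOn_sit h) hd

theorem PS_inter {s t : Finset Edge} {A B : Set Config} (hA : LocalOn s A) (hB : LocalOn t B)
    (hd : Disjoint (hull s) (hull t)) : PS q V0 (A ∩ B) = PS q V0 A * PS q V0 B :=
  PrE_inter (A := {w | sit w ∈ A}) (B := {w | sit w ∈ B}) (localOn_sit hA) (localOn_sit hB) hd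

/-- Closing sites makes a decreasing event more likely. -/
theorem le_PS_of_decr {t : Finset Edge} {A : Set Config} (h : LocalOn t A) (iA : Incr Aᶜ) :
    Pr q A ≤ PS q V0 A :=
  le_PrE_of_decr (localOn_sit h) (incr_sit_compl iA)

/-! ### Exploration -/

variable {D D' X S U : Set Vert} {w : Config}

/-- The determining sites: the cluster and the neighbours of its open sites. -/
lemma mem_Ucl_near {v : Vert} (h : v ∈ Ucl w D X) :
    v ∈ cl (sit w) D X ∨ ∃ a ∈ cl (sit w) D X, v ∈ ball a 1 := by
  rcases h with h | ⟨_, a, h1, _, h2⟩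
  · exact Or.inl h
  · exact Or.inr ⟨a, h1, adj_ball h2⟩

/-- A path off the cluster stays off the determining sites. -/
lemma conn_avoid {a b : Vert} (hab : a ≠ b) (h : Conn (sit w) D' a b)
    (hd : ∀ v ∈ D', v ∉ cl (sit w) D X) : Conn (sit w) (D' \ Ucl w D X) a b := by
  obtain ⟨ha, hb⟩ := conn_sit_open h hab
  have h0 : a ∈ D' \ Ucl w D X := ⟨h.mem_left, fun k => hd a h.mem_left (open_Ucl k ha)⟩
  refine h.induction_right (P := fun x => Conn (sit w) (D' \ Ucl w D X) a x) (Conn.refl h0) ?_
  intro x y _ hxy ih
  have hs := step_sit.1 hxy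
  refine ih.tail (step_sit.2 ⟨ih.mem_right, ⟨hs.2.1, fun k => ?_⟩, hs.2.2⟩)
  exact hd y hs.2.1 (open_Ucl k hs.2.2.2.2)

/-- The same in the domain itself. -/
lemma conn_offU' {a b : Vert} (hab : a ≠ b) (ha : a ∉ cl (sit w) D X)
    (h : Conn (sit w) D a b) : Conn (sit w) (D \ Ucl w D X) a b := by
  have h1 : Conn (sit w) (D \ cl (sit w) D X) a b := Pool.Agent.H29.Sep.conn_off ha h
  exact (conn_avoid hab h1 fun v hv => hv.2).mono_set fun v hv => ⟨hv.1.1, hv.2⟩

/-- Disjointness of sets of sites. -/
lemma siteF_disj_hull {R : ℕ} {t : Finset Edge} (h : ∀ e ∈ t, src e ∉ U ∧ tgt e ∉ U) :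
    Disjoint (siteF R U) (hull t) := by
  rw [Finset.disjoint_left]
  intro g h1 h2
  obtain ⟨v, _, hv, rfl⟩ := mem_siteF.1 h1
  obtain ⟨e, he, h3 | h3⟩ := mem_hull.1 h2
  · exact (h e he).1 (sv_injective h3 ▸ hv)
  · exact (h e he).2 (sv_injective h3 ▸ hv)

end Pool.Agent.H83.SK

end

section

/-!
# Site percolation: sealing of the first cluster
-/

open MeasureTheory ProbabilityTheory unitInterval

namespace Pool.Agent.H83.SK

open Pool.Agent.H57.EX

open Pool.Agent.H89.Perc Pool.Agent.H61.NC Pool.Agent.H29.Sep

private lemma sealU_sub {Z : Dat} {s : ℕ} {V : Finset Vert} {G S1 U : Set Vert} :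
    {w | sit w ∈ {ω | ∀ v ∈ V, ω ∉ ArmBox v s (3 * s)}} ⊆ SealU Z s V G S1 U :=
  fun w hω => ⟨w, fun _ _ => rfl, fun v hv _ => hω v hv⟩

private lemma sealU_local {Z : Dat} {s : ℕ} {V : Finset Vert} {G S1 U : Set Vert}
    [DecidableEq Edge] :
    LocalOn (hull (V.biUnion fun v => eRect (v.1 - (3 * s : ℕ)) (v.1 + (3 * s : ℕ))
      (v.2 - (3 * s : ℕ)) (v.2 + (3 * s : ℕ))) \ siteF Z.R U)
      (SealU Z s V G S1 U) := by
  classical
  intro w w₂ hω hA
  obtain ⟨w', h1, h2⟩ := hA
  refine ⟨fun g => if g ∈ siteF Z.R U then w' g else w₂ g, ?_, ?_⟩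
  · intro g hg
    simp only [if_neg hg]
  · intro v hv hne hcon
    refine h2 v hv hne ?_
    refine localOn_sit (localOn_armBox v s (3 * s)) _ _ (fun g hg => ?_) hcon
    split_ifs with hg'
    · rfl
    · rw [h1 g hg', hω g]
      refine Finset.mem_sdiff.2 ⟨hull_mono (fun e he => ?_) hg, hg'⟩
      exact Finset.mem_biUnion.2 ⟨v, hv, he⟩

theorem noarm_local {s : ℕ} {V : Finset Vert} [DecidableEq Edge] :
    LocalOn (V.biUnion fun v => eRect (v.1 - (3 * s : ℕ)) (v.1 + (3 * s : ℕ))
      (v.2 - (3 * s : ℕ)) (v.2 + (3 * s : ℕ))) {ω | ∀ v ∈ V, ω ∉ ArmBox v s (3 * s)} := by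
  intro ω ω' hω hA v hv hcon
  refine hA v hv (localOn_armBox v s (3 * s) _ _ (fun e he => ?_) hcon)
  exact (hω e (Finset.mem_biUnion.2 ⟨v, hv, he⟩)).symm

theorem noarm_incr {s : ℕ} {V : Finset Vert} :
    Incr {ω | ∀ v ∈ V, ω ∉ ArmBox v s (3 * s)}ᶜ := by
  intro ω ω' hω hA hB
  refine hA fun v hv hcon => hB v hv (incr_armBox v s (3 * s) ω ω' hω hcon)

/-- Sealing, for any condition `P` on the values of the three clusters. -/
theorem stage2a {Z : Dat} {V0 : Finset Edge} {s : ℕ} {V : Finset Vert} {G : Set Vert}
    (hG : G ⊆ Z.W) (P : Set Vert → Set Vert → Set Vert → Prop) {q : I} {c : ℝ} (hc : 0 ≤ c)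
    (hP : c ≤ Pr q {ω | ∀ v ∈ V, ω ∉ ArmBox v s (3 * s)}) :
    c * Pool.Agent.H57.EX.PrE q V0
        {w | P (cl (sit w) G {Z.x}) (cl (sit w) G {Z.y}) (cl (sit w) G Z.T)} ≤
      Pool.Agent.H57.EX.PrE q V0
        ({w | P (cl (sit w) G {Z.x}) (cl (sit w) G {Z.y}) (cl (sit w) G Z.T)} ∩
          SealS Z s V G) := by
  classical
  have hGR : G ⊆ ball 0 Z.R := hG.trans Z.hWR
  let Q : Finset (Finset Vert) := (Pool.Agent.H26.HP.bF Z.R).powerset
  let F : Finset ((Finset Vert × Finset Vert) × (Finset Vert × Finset Vert) ×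
      (Finset Vert × Finset Vert)) :=
    ((Q ×ˢ Q) ×ˢ (Q ×ˢ Q) ×ˢ (Q ×ˢ Q)).filter (fun i => P i.1.1 i.2.1.1 i.2.2.1)
  let X : (Finset Vert × Finset Vert) × (Finset Vert × Finset Vert) ×
      (Finset Vert × Finset Vert) → Set Config :=
    fun i => FullU G {Z.x} i.1.1 i.1.2 ∩ (FullU G {Z.y} i.2.1.1 i.2.1.2 ∩
      FullU G Z.T i.2.2.1 i.2.2.2)
  let tX : (Finset Vert × Finset Vert) × (Finset Vert × Finset Vert) ×
      (Finset Vert × Finset Vert) → Finset Edge :=
    fun i => siteF Z.R ((i.1.2 : Set Vert) ∪ i.2.1.2 ∪ i.2.2.2)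
  let tO : (Finset Vert × Finset Vert) × (Finset Vert × Finset Vert) ×
      (Finset Vert × Finset Vert) → Finset Edge :=
    fun i => hull (V.biUnion fun v => eRect (v.1 - (3 * s : ℕ)) (v.1 + (3 * s : ℕ))
      (v.2 - (3 * s : ℕ)) (v.2 + (3 * s : ℕ))) \ tX i
  let O : (Finset Vert × Finset Vert) × (Finset Vert × Finset Vert) ×
      (Finset Vert × Finset Vert) → Set Config :=
    fun i => SealU Z s V G i.1.1 ((i.1.2 : Set Vert) ∪ i.2.1.2 ∪ i.2.2.2)
  have hsite : ∀ S S' : Set Vert, S ⊆ S' → siteF Z.R S ⊆ siteF Z.R S' := by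
    intro S S' hSS g hg
    rw [mem_siteF] at hg ⊢
    obtain ⟨v, h1, h2, h3⟩ := hg
    exact ⟨v, h1, hSS h2, h3⟩
  have key := Pool.Agent.H57.EX.cond_indepE (q := q) (E := V0) F X O tX tO hc
    (by
      intro i _ j _ hij
      rw [Set.disjoint_left]
      rintro w ⟨⟨h1, h2⟩, ⟨h3, h4⟩, h5, h6⟩ ⟨⟨g1, g2⟩, ⟨g3, g4⟩, g5, g6⟩
      refine hij (Prod.ext (Prod.ext ?_ ?_) (Prod.ext (Prod.ext ?_ ?_) (Prod.ext ?_ ?_)))
      · exact_mod_cast (h1.symm.trans g1)
      · exact_mod_cast (h2.symm.trans g2)
      · exact_mod_cast (h3.symm.trans g3)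
      · exact_mod_cast (h4.symm.trans g4)
      · exact_mod_cast (h5.symm.trans g5)
      · exact_mod_cast (h6.symm.trans g6))
    (by
      intro i _
      refine LocalOn.inter ?_ (LocalOn.inter ?_ ?_)
      · exact (localOn_fullU hGR).mono (hsite _ _ fun v hv => Or.inl (Or.inl hv))
      · exact (localOn_fullU hGR).mono (hsite _ _ fun v hv => Or.inl (Or.inr hv))
      · exact (localOn_fullU hGR).mono (hsite _ _ fun v hv => Or.inr hv))
    (by
      intro i _
      exact sealU_local)
    (by
      intro i _
      exact Finset.disjoint_sdiff)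
    (by
      intro i _
      exact hP.trans ((le_PS_of_decr noarm_local noarm_incr).trans (PrE_mono sealU_sub)))
  refine (mul_le_mul_of_nonneg_left (PrE_mono ?_) hc).trans (key.trans (PrE_mono ?_))
  · intro w hω
    have hfin : ∀ Y : Set Vert, ∃ T1 ∈ Q, ∃ T2 ∈ Q, (T1 : Set Vert) = cl (sit w) G Y ∧
        (T2 : Set Vert) = Ucl w G Y := by
      intro Y
      obtain ⟨F1, hF1, e1⟩ := Pool.Agent.H26.HP.exists_finset (S := cl (sit w) G Y)
        (R := Z.R) (cl_sub.trans hGR)
      obtain ⟨F2, hF2, e2⟩ := Pool.Agent.H26.HP.exists_finset (S := Ucl w G Y)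
        (R := Z.R) (Ucl_subset.trans hGR)
      exact ⟨F1, hF1, F2, hF2, e1, e2⟩
    obtain ⟨F1, hF1, F2, hF2, e1, e2⟩ := hfin {Z.x}
    obtain ⟨F3, hF3, F4, hF4, e3, e4⟩ := hfin {Z.y}
    obtain ⟨F5, hF5, F6, hF6, e5, e6⟩ := hfin Z.T
    simp only [Set.mem_iUnion]
    refine ⟨((F1, F2), (F3, F4), (F5, F6)), ?_, ⟨e1.symm, e2.symm⟩, ⟨e3.symm, e4.symm⟩,
      ⟨e5.symm, e6.symm⟩⟩
    refine Finset.mem_filter.2 ⟨?_, ?_⟩
    · exact Finset.mem_product.2 ⟨Finset.mem_product.2 ⟨hF1, hF2⟩, Finset.mem_product.2
        ⟨Finset.mem_product.2 ⟨hF3, hF4⟩, Finset.mem_product.2 ⟨hF5, hF6⟩⟩⟩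
    · show P F1 F3 F5
      rw [e1, e3, e5]
      exact hω
  · intro w hω
    simp only [Set.mem_iUnion] at hω
    obtain ⟨i, hi, ⟨⟨h1, h2⟩, ⟨h3, h4⟩, h5, h6⟩, h7⟩ := hω
    have hi' := (Finset.mem_filter.1 hi).2
    have h1' : cl (sit w) G {Z.x} = ↑i.1.1 := h1
    have h3' : cl (sit w) G {Z.y} = ↑i.2.1.1 := h3
    have h5' : cl (sit w) G Z.T = ↑i.2.2.1 := h5
    refine ⟨?_, ?_⟩
    · change P (cl (sit w) G {Z.x}) (cl (sit w) G {Z.y}) (cl (sit w) G Z.T)
      rw [h1', h3', h5']
      exact hi'
    · change w ∈ SealU Z s V G (cl (sit w) G {Z.x})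
        (Ucl w G {Z.x} ∪ Ucl w G {Z.y} ∪ Ucl w G Z.T)
      rw [h1', h2, h4, h6]
      exact h7

end Pool.Agent.H83.SK

end

section

/-!
# Site percolation: the sealed cluster
-/

open MeasureTheory ProbabilityTheory unitInterval

namespace Pool.Agent.H83.SK

open Pool.Agent.H57.EX

open Pool.Agent.H89.Perc Pool.Agent.H61.NC Pool.Agent.H29.Sep

private theorem B_sub_W (Z : Dat) : Z.B ⊆ Z.W := by
  intro v hv
  apply Z.hBW
  rw [mem_B] at hv
  rw [mem_ball_zero]
  push_cast
  omega

private theorem GG_sub_W {Z : Dat} {s n : ℕ} {γ : ℕ → Vert} {b b' : Vert}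
    (hg : ZGood Z.m s γ n b b') : GG Z s γ n ⊆ Z.W := by
  intro v hv
  rw [mem_GG] at hv
  rcases hv with hv | hv | hv
  · exact B_sub_W Z hv
  · exact Z.hDW hv
  · apply Z.hBW
    rw [mem_ball_zero]
    have := hg.bdd v hv
    push_cast
    omega

private theorem y_mem_GG (Z : Dat) (s n : ℕ) (γ : ℕ → Vert) : Z.y ∈ GG Z s γ n := by
  rw [mem_GG]
  left
  rw [mem_B]
  have h1 := Z.hy
  rw [mem_ball_zero] at h1
  have h2 := Z.hm
  push_cast at h1
  omega

/-- Third event: the cluster of `x` in the universe meets `L`, is not next to the zone of the chain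
`γ'`, and off this cluster `y` and `T` reach the ends of the chain. -/
def E2S (Z : Dat) (s : ℕ) (γ' : ℕ → Vert) (n : ℕ) (β β' : Vert) : Set Config :=
  {ω | (cl ω Z.W {Z.x} ∩ Z.L).Nonempty ∧
    (∀ a ∈ cl ω Z.W {Z.x}, ∀ z ∈ zone γ' n s, a ∉ ball z 1) ∧
    (∃ u ∈ ball β s, Conn ω (Z.B \ cl ω Z.W {Z.x}) Z.y u) ∧
    ∃ w ∈ Z.T, ∃ v ∈ ball β' s, Conn ω (Z.D \ cl ω Z.W {Z.x}) w v}

/-- The second landing. -/
theorem det2 {Z : Dat} {s s' : ℕ} {γ : ℕ → Vert} {n : ℕ} {b b' : Vert} {V : Finset Vert}
    {ω : Config} (h : H2S Z s s' γ n b b' V ω) {N N' : Finset Vert} (hN : IsNet N (4 * Z.m) s')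
    (hN' : IsNet N' (16 * Z.m) s') :
    ∃ β ∈ N, ∃ β' ∈ N', β ∉ ball b (30 * s) ∧ β' ∉ ball b' (30 * s) ∧
      ∀ (γ' : ℕ → Vert) (n' : ℕ), ZGood Z.m s' γ' n' β β' →
        (∀ w ∈ zone γ' n' s', ∀ z ∈ zone γ n s, w ∉ ball z (8 * s')) →
        sit ω ∈ E2S Z s' γ' n' β β' := by
  obtain ⟨hL, ⟨u0, hu0S, hu0⟩, ⟨v0, hv0S, hv0⟩, hS2, hS3, hd2, hd3, hd12, hd13⟩ := h.h1
  obtain ⟨hn1, hn2⟩ := h.h2
  have hs' := h.hs'
  have hss := h.hss
  have hsm := h.hsm
  obtain ⟨β, hβ, hu0β⟩ := hN.cov u0 hu0
  obtain ⟨β', hβ', hv0β⟩ := hN'.cov v0 hv0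
  refine ⟨β, hβ, β', hβ', ?_, ?_, ?_⟩
  · intro hcon
    exact Set.disjoint_left.1 hd2 hu0S
      (ball_mono (show 30 * s + s' ≤ 38 * s by omega) (ball_trans hcon hu0β))
  · intro hcon
    exact Set.disjoint_left.1 hd3 hv0S
      (ball_mono (show 30 * s + s' ≤ 38 * s by omega) (ball_trans hcon hv0β))
  intro γ' n' hg' hsep
  have hβs := hN.sub β hβ
  have hβs' : β' ∈ Z.Bd := Or.inl (hN'.sub β' hβ')
  -- the two contradictions
  have hin : ∀ a ∈ cl (sit ω) (GG Z s γ n) {Z.x}, a ∉ ball β (38 * s') := by
    intro a ha hab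
    exact hn1 β hβs ⟨a, ha, hab⟩ ⟨u0, hu0S, ball_mono (by omega) hu0β⟩
  have hout : ∀ a ∈ cl (sit ω) (GG Z s γ n) {Z.x}, a ∉ ball β' (38 * s') := by
    intro a ha hab
    exact hn2 β' hβs' ⟨a, ha, hab⟩ ⟨v0, hv0S, ball_mono (by omega) hv0β⟩
  -- the cluster in the universe misses the clusters of `y` and `T`
  have hmiss2 : ∀ a ∈ cl (sit ω) (GG Z s γ n) {Z.y}, a ∉ cl (sit ω) Z.W {Z.x} := by
    intro a ha hax
    rcases sealed h hax with h1 | ⟨v, hv, hav⟩
    · exact Set.disjoint_left.1 hd12 h1 ha
    · exact (exit_far h hv hav).1 ha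
  have hmiss3 : ∀ a ∈ cl (sit ω) (GG Z s γ n) Z.T, a ∉ cl (sit ω) Z.W {Z.x} := by
    intro a ha hax
    rcases sealed h hax with h1 | ⟨v, hv, hav⟩
    · exact Set.disjoint_left.1 hd13 h1 ha
    · exact (exit_far h hv hav).2 ha
  refine ⟨?_, ?_, ?_, ?_⟩
  · obtain ⟨a, ha, haL⟩ := hL
    exact ⟨a, cl_mono (GG_sub_W h.hg) ha, haL⟩
  · intro p hp z hz hpz
    have hz1 := nrm_le_of_mem_ball hpz
    have hz2 := le_nrm_of_mem_ball hpz
    push_cast at hz1 hz2
    rcases sealed h hp with hp1 | ⟨v, hv, hpv⟩
    · have hpG : p ∈ GG Z s γ n := cl_sub hp1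
      rw [mem_GG] at hpG
      rcases hpG with hB | hD | hzn
      · rw [mem_B] at hB
        have h1 := hg'.inner z hz (by omega)
        exact hin p hp1 (ball_mono (by omega) (ball_trans h1 hpz))
      · have hD' := Z.hD p hD
        have h1 := hg'.outer z hz (by omega)
        exact hout p hp1 (ball_mono (by omega) (ball_trans h1 hpz))
      · exact hsep z hz p hzn (ball_mono (by omega) (mem_ball_comm.1 hpz))
    · obtain ⟨-, hc⟩ := exit_cases h hv
      have hzv : z ∈ ball v (4 * s' + 1) := ball_trans hpv (mem_ball_comm.1 hpz)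
      have hp1 := nrm_le_of_mem_ball hzv
      have hp2 := le_nrm_of_mem_ball hzv
      push_cast at hp1 hp2
      rcases hc with hzn | hsp | ⟨hD, -⟩
      · exact hsep z hz v hzn (ball_mono (by omega) hzv)
      · have hnv := nrm_sphere hsp
        push_cast at hnv
        have h1 := hg'.inner z hz (by omega)
        have h2 := ball_trans h1 (mem_ball_comm.1 hzv)
        exact hin v hv.1 (ball_mono (by omega) h2)
      · have hD' := Z.hD v hD
        have h1 := hg'.outer z hz (by omega)
        have h2 := ball_trans h1 (mem_ball_comm.1 hzv)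
        exact hout v hv.1 (ball_mono (by omega) h2)
  · refine ⟨u0, hu0β, ?_⟩
    have h1 := conn_in_cl (mem_cl_iff.1 hu0S) (mem_cl_self (ω := sit ω) (y_mem_GG Z s n γ))
    exact h1.mono_set fun a ha => ⟨hS2 ha, hmiss2 a ha⟩
  · obtain ⟨w, hw, hwv⟩ := hv0S
    refine ⟨w, hw, v0, hv0β, ?_⟩
    have hwS : w ∈ cl (sit ω) (GG Z s γ n) Z.T := ⟨w, hw, Conn.refl hwv.mem_left⟩
    have h1 := conn_in_cl hwv hwS
    exact h1.mono_set fun a ha => ⟨hS3 ha, hmiss3 a ha⟩

end Pool.Agent.H83.SK

end

end
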