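import Pool.Agent.H94.BG.H31.PT.M06_3
import Pool.Agent.H94.BG.H31.PT.M07_3
import Pool.Agent.H94.BG.H31.PT.M18
import Pool.Agent.H94.BG.M08
import Pool.Agent.H94.BG.M19

/-! The parts of this file: H31.PT.M08_3, H31.PT.M08_5, H31.PT.M18_2. -/

section

/-! The parts of this file: H13.SK.SigmaUp, H13.SK.BddLoc, H83.SK.P29.NoArm, H38.SK.N59.Defs, H38.SK.N59.Stage. -/

section

/-!
# Upper bound for the mean cluster size of site percolation at a scale where the other colour is
good
-/

set_option autoImplicit false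

open MeasureTheory ProbabilityTheory unitInterval

namespace Pool.Agent.H13.SK

open Pool.Agent.H89.Perc Pool.Agent.H83.Site

/-- Supremum norm. -/
def nrm (v : ℤ × ℤ) : ℕ := max v.1.natAbs v.2.natAbs

/-- Box of half side `n`. -/
noncomputable def bx (n : ℕ) : Finset (ℤ × ℤ) :=
  Finset.Icc (-(n : ℤ)) n ×ˢ Finset.Icc (-(n : ℤ)) n

theorem mem_bx {n : ℕ} {v : ℤ × ℤ} : v ∈ bx n ↔ nrm v ≤ n := by
  obtain ⟨x, y⟩ := v
  simp only [bx, Finset.mem_product, Finset.mem_Icc, nrm]
  omega

theorem card_bx (n : ℕ) : (bx n).card = (2 * n + 1) ^ 2 := by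
  rw [bx, Finset.card_product, Int.card_Icc, sq]
  have : ((n : ℤ) + 1 - -(n : ℤ)).toNat = 2 * n + 1 := by omega
  rw [this]

/-- Crossing of one of the four rectangles which form the annulus between half sides `n` and
`2 n`. -/
def F4 (n : ℕ) : Set Config :=
  (({η | VC η (-(2 * n)) (2 * n) (n + 1) (2 * n)} ∪
    {η | VC η (-(2 * n)) (2 * n) (-(2 * n)) (-n - 1)}) ∪
    {η | HC η (n + 1) (2 * n) (-(2 * n)) (2 * n)}) ∪
    {η | HC η (-(2 * n)) (-n - 1) (-(2 * n)) (2 * n)}

/-- The coordinates of the annulus. -/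
noncomputable def rg (n : ℕ) : Finset Edge :=
  (eRect (-(2 * n)) (2 * n) (-(2 * n)) (2 * n)) \ eRect (-n) n (-n) n

theorem localOn_F4 (n : ℕ) : LocalOn (rg n) (F4 n) := by
  classical
  have key : ∀ (a b c d : ℤ), -(2 * (n : ℤ)) ≤ a → b ≤ 2 * n → -(2 * (n : ℤ)) ≤ c → d ≤ 2 * n →
      (b < -n ∨ (n : ℤ) < a ∨ d < -n ∨ (n : ℤ) < c) → eRect a b c d ⊆ rg n := by
    intro a b c d h1 h2 h3 h4 h5 e he
    rw [rg, Finset.mem_sdiff, mem_eRect, mem_eRect]
    rw [mem_eRect] at he
    simp only [rect, Set.mem_ofPred_eq, src] at he ⊢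
    omega
  intro η η' h hη
  rcases hη with ((hη | hη) | hη) | hη
  · exact Or.inl (Or.inl (Or.inl ((localOn_VC _ _ _ _).mono
      (key _ _ _ _ le_rfl le_rfl (by omega) le_rfl (by omega)) η η' h hη)))
  · exact Or.inl (Or.inl (Or.inr ((localOn_VC _ _ _ _).mono
      (key _ _ _ _ le_rfl le_rfl le_rfl (by omega) (by omega)) η η' h hη)))
  · exact Or.inl (Or.inr ((localOn_HC _ _ _ _).mono
      (key _ _ _ _ (by omega) le_rfl le_rfl le_rfl (by omega)) η η' h hη))
  · exact Or.inr ((localOn_HC _ _ _ _).mono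
      (key _ _ _ _ le_rfl (by omega) le_rfl le_rfl (by omega)) η η' h hη)

theorem PT_F4 {p : I} {r : Bool} {n : ℕ} (hn : 1 ≤ n) : PT p r (F4 n) ≤ 4 * qc (σ p) (!r) n := by
  have hq : qc (σ p) (!r) n = PT p r {η | VC η 0 (4 * n) 1 n} := by
    unfold qc
    have := PT_neg (p := σ p) (r := !r) (localOn_VC 0 (4 * (n : ℤ)) 1 n)
    rw [σσ, Bool.not_not] at this
    exact this
  have h1 : PT p r {η | VC η (-(2 * n)) (2 * n) (n + 1) (2 * n)} =
      PT p r {η | VC η 0 (4 * n) 1 n} := by
    rw [← PT_VC_shf p r 0 (4 * n) 1 n (-(2 * n)) n]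
    congr 1
    ext η
    simp only [Set.mem_ofPred_eq]
    rw [show 0 + -(2 * (n : ℤ)) = -(2 * n) by ring, show 4 * (n : ℤ) + -(2 * n) = 2 * n by ring,
      show 1 + (n : ℤ) = n + 1 by ring, show (n : ℤ) + n = 2 * n by ring]
  have h2 : PT p r {η | VC η (-(2 * n)) (2 * n) (-(2 * n)) (-n - 1)} =
      PT p r {η | VC η 0 (4 * n) 1 n} := by
    rw [← PT_VC_shf p r 0 (4 * n) 1 n (-(2 * n)) (-(2 * n) - 1)]
    congr 1
    ext η
    simp only [Set.mem_ofPred_eq]
    rw [show 0 + -(2 * (n : ℤ)) = -(2 * n) by ring, show 4 * (n : ℤ) + -(2 * n) = 2 * n by ring,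
      show 1 + (-(2 * (n : ℤ)) - 1) = -(2 * n) by ring,
      show (n : ℤ) + (-(2 * n) - 1) = -n - 1 by ring]
  have h3 : PT p r {η | HC η (n + 1) (2 * n) (-(2 * n)) (2 * n)} =
      PT p r {η | VC η 0 (4 * n) 1 n} := by
    rw [← PT_VC_eq_HC]; exact h1
  have h4 : PT p r {η | HC η (-(2 * n)) (-n - 1) (-(2 * n)) (2 * n)} =
      PT p r {η | VC η 0 (4 * n) 1 n} := by
    rw [← PT_VC_eq_HC]; exact h2
  have e1 := PT_union_le (p := p) (r := r)
    (E := ({η | VC η (-(2 * n)) (2 * n) (n + 1) (2 * n)} ∪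
      {η | VC η (-(2 * n)) (2 * n) (-(2 * n)) (-n - 1)}) ∪
      {η : Config | HC η (n + 1) (2 * n) (-(2 * n)) (2 * n)})
    (F := {η | HC η (-(2 * n)) (-n - 1) (-(2 * n)) (2 * n)})
  have e2 := PT_union_le (p := p) (r := r)
    (E := ({η : Config | VC η (-(2 * n)) (2 * n) (n + 1) (2 * n)} ∪
      {η | VC η (-(2 * n)) (2 * n) (-(2 * n)) (-n - 1)}))
    (F := {η : Config | HC η (n + 1) (2 * n) (-(2 * n)) (2 * n)})
  have e3 := PT_union_le (p := p) (r := r)
    (E := {η : Config | VC η (-(2 * n)) (2 * n) (n + 1) (2 * n)})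
    (F := {η : Config | VC η (-(2 * n)) (2 * n) (-(2 * n)) (-n - 1)})
  unfold F4
  rw [hq]
  linarith

/-- A path from the origin to a far point has an arm. -/
theorem arm_of_conn {η : Config} {x y : ℤ} {s : ℕ} {u v : TV} (hu : u = (x, y, false))
    (hv : v ∉ TR (x - s) (x + s) (y - s) (y + s))
    (h : TConn η Set.univ u v) : η ∈ AB x y 0 s := by
  subst hu
  have hu : ((x, y, false) : TV) ∈ TR (x - s) (x + s) (y - s) (y + s) := by
    rw [mem_TR_site]; omega
  obtain ⟨w, w', h1, h2, h3, -⟩ := h.exists_exit hu hv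
  rw [Set.univ_inter] at h1
  have hw := h1.mem_right
  have hw0 := hw
  rw [mem_TR] at hw h3
  have hw' : fx w = 2 * (x + s) ∨ fx w = 2 * (x - s) ∨ fy w = 2 * (y + s) ∨
      fy w = 2 * (y - s) := by
    by_contra hcon
    push Not at hcon
    obtain ⟨a1, a2, a3, a4⟩ := hcon
    have b1 := h2.2.2.1.fx_le (a := x + s) (by omega)
    have b2 := h2.2.2.1.le_fx (a := x - s) (by omega)
    have b3 := h2.2.2.1.fy_le (a := y + s) (by omega)
    have b4 := h2.2.2.1.le_fy (a := y - s) (by omega)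
    exact h3 ⟨b2, b1, b4, b3⟩
  refine ⟨(x, y, false), by rw [mem_TR_site]; simp, w, ⟨hw0, ?_, ?_⟩, h1⟩
  · rcases hw' with h4 | h4 | h4 | h4
    · exact (site_of_fx h4).1
    · exact (site_of_fx h4).1
    · exact (site_of_fy h4).1
    · exact (site_of_fy h4).1
  · rcases hw' with h4 | h4 | h4 | h4
    · exact Or.inr (Or.inl (site_of_fx h4).2)
    · exact Or.inl (site_of_fx h4).2
    · exact Or.inr (Or.inr (Or.inr (site_of_fy h4).2))
    · exact Or.inr (Or.inr (Or.inl (site_of_fy h4).2))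

/-- Sum of `1 / (|v| + 1)` over a box. -/
theorem sum_box (N : ℕ) : ∑ v ∈ bx N, 1 / ((nrm v : ℝ) + 1) ≤ 8 * N + 1 := by
  classical
  induction N with
  | zero =>
    have h : bx 0 = {(0, 0)} := by
      ext v
      rw [mem_bx, Finset.mem_singleton]
      obtain ⟨x, y⟩ := v
      simp only [nrm, Prod.mk.injEq]
      omega
    rw [h, Finset.sum_singleton]
    simp [nrm]
  | succ N ih =>
    have hsub : bx N ⊆ bx (N + 1) := by
      intro v hv
      rw [mem_bx] at hv ⊢
      omega
    rw [← Finset.sum_sdiff hsub]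
    have h1 : ∑ v ∈ bx (N + 1) \ bx N, 1 / ((nrm v : ℝ) + 1) ≤ 8 := by
      have h2 : ∀ v ∈ bx (N + 1) \ bx N, 1 / ((nrm v : ℝ) + 1) ≤ 1 / ((N : ℝ) + 1) := by
        intro v hv
        rw [Finset.mem_sdiff, mem_bx, mem_bx] at hv
        have : (N : ℝ) ≤ nrm v := by exact_mod_cast (by omega)
        apply one_div_le_one_div_of_le (by positivity)
        linarith
      refine (Finset.sum_le_card_nsmul _ _ _ h2).trans ?_
      rw [nsmul_eq_mul, Finset.cast_card_sdiff hsub, card_bx, card_bx]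
      have : (0 : ℝ) < (N : ℝ) + 1 := by positivity
      rw [mul_one_div, div_le_iff₀ this]
      push_cast
      nlinarith
    push_cast
    linarith

theorem pow_dbl (k : ℕ) : (4 : ℝ) ^ k * (1 / 2) ^ (2 ^ k) ≤ 4 * (1 / 2) ^ k := by
  have h : 3 * k ≤ 2 + 2 ^ k := by
    induction k with
    | zero => norm_num
    | succ k ih =>
      rcases Nat.lt_or_ge k 2 with h | h
      · interval_cases k <;> norm_num
      · have h3 : 3 ≤ 2 ^ k := by
          calc 3 ≤ 2 ^ 2 := by norm_num
            _ ≤ 2 ^ k := Nat.pow_le_pow_right (by norm_num) h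
        rw [pow_succ]
        omega
  have h1 : (8 : ℝ) ^ k ≤ 4 * 2 ^ (2 ^ k) := by
    have h2 : (2 : ℝ) ^ (3 * k) ≤ 2 ^ (2 + 2 ^ k) := pow_le_pow_right₀ (by norm_num) h
    have h3 : (2 : ℝ) ^ (3 * k) = 8 ^ k := by
      rw [pow_mul]; norm_num
    rw [h3, pow_add] at h2
    linarith
  have h4 : (8 : ℝ) ^ k = 4 ^ k * 2 ^ k := by rw [← mul_pow]; norm_num
  rw [one_div, inv_pow, inv_pow]
  rw [← div_eq_mul_inv, ← div_eq_mul_inv, div_le_div_iff₀ (by positivity) (by positivity)]
  rw [h4] at h1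
  linarith

end Pool.Agent.H13.SK

end

section

/-! # Russo-Seymour-Welsh for probabilities bounded away from zero, up to a given scale -/

set_option autoImplicit false

open MeasureTheory ProbabilityTheory unitInterval

namespace Pool.Agent.H13.SK

open Pool.Agent.H89.Perc Pool.Agent.H83.Site

end Pool.Agent.H13.SK

end

section

/-!
# Site percolation, RSW regime: annuli which are not crossed, one-arm decay
-/

open MeasureTheory ProbabilityTheory unitInterval

namespace Pool.Agent.H83.SK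

open Pool.Agent.H89.Perc Pool.Agent.H61.NC

end Pool.Agent.H83.SK

end

section

/-!
# Separated four-arm events for site percolation: definitions

Everything is at the level of the sites: a configuration `w` gives the states of the sites, stored
at the coordinates `sv v`; `sit w` is the induced bond configuration.  Filling a set `Z` means
opening the sites of `Z`.
-/

set_option autoImplicit false

open MeasureTheory ProbabilityTheory unitInterval

namespace Pool.Agent.H38.N59

open Pool.Agent.H89.Perc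
open Pool.Agent.H83.SK (sv sit sit_true)
open Pool.Agent.H59.EX (LocS inE touch clus closeS Side T Mouth Fence dom)

/-! ### Elementary facts -/

end Pool.Agent.H38.N59

end

section

/-!
# Outward separation for sites: definitions and elementary facts for the stages

The corridors and their crossing events are those of the bond setting, evaluated at the induced
configuration.
-/

set_option autoImplicit false

open MeasureTheory ProbabilityTheory unitInterval

namespace Pool.Agent.H38.N59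

open Pool.Agent.H89.Perc
open Pool.Agent.H83.SK (sv sit sit_true RSWreg)
open Pool.Agent.H59.EX (LocS inE touch clus closeS Side T Mouth Fence dom CorrData CorrSep)

end Pool.Agent.H38.N59

end

end

section

/-! The parts of this file: H13.SK.SigmaUp, H13.SK.BddLoc, H83.SK.P29.NoArm, H38.SK.N59.Defs, H38.SK.N59.Stage. -/

section

/-!
# Upper bound for the mean cluster size of site percolation at a scale where the other colour is
good
-/

set_option autoImplicit false

open MeasureTheory ProbabilityTheory unitInterval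

namespace Pool.Agent.H13.SK

open Pool.Agent.H89.Perc Pool.Agent.H83.Site

theorem F4_of_conn {η : Config} {n : ℕ} (hn : 1 ≤ n) {v : ℤ × ℤ} (hv : 2 * n < nrm v)
    (h : η ∈ C0 v) : η ∈ F4 n := by
  have hc : TConn η Set.univ (0, 0, false) (sit0 v) := h
  have hu : ((0, 0, false) : TV) ∈ TR (-(2 * n)) (2 * n) (-(2 * n)) (2 * n) := by
    rw [mem_TR_site]; omega
  have hv' : sit0 v ∉ TR (-(2 * n)) (2 * n) (-(2 * n)) (2 * n) := by
    unfold sit0
    rw [mem_TR_site]
    unfold nrm at hv
    omega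
  obtain ⟨w, w', h1, h2, h3, -⟩ := hc.exists_exit hu hv'
  rw [Set.univ_inter] at h1
  have hw := h1.mem_right
  rw [mem_TR] at hw h3
  have hn' : (1 : ℤ) ≤ n := by exact_mod_cast hn
  have hw' : fx w = 2 * (2 * n) ∨ fx w = 2 * (-(2 * n)) ∨ fy w = 2 * (2 * n) ∨
      fy w = 2 * (-(2 * n)) := by
    by_contra hcon
    push Not at hcon
    obtain ⟨a1, a2, a3, a4⟩ := hcon
    have b1 := h2.2.2.1.fx_le (a := 2 * n) (by omega)
    have b2 := h2.2.2.1.le_fx (a := -(2 * n)) (by omega)
    have b3 := h2.2.2.1.fy_le (a := 2 * n) (by omega)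
    have b4 := h2.2.2.1.le_fy (a := -(2 * n)) (by omega)
    exact h3 ⟨b2, b1, b4, b3⟩
  rcases hw' with h4 | h4 | h4 | h4
  · left; right
    obtain ⟨y, y', h5, -, -⟩ := h1.cross_x (a := n + 1) (b := 2 * n)
      (by rw [fx_site]; omega) (by omega) (by omega)
    rw [TR_inter_x (by omega) (by omega)] at h5
    exact ⟨y, y', h5⟩
  · right
    obtain ⟨y, y', h5, -, -⟩ := h1.symm.cross_x (a := -(2 * n)) (b := -n - 1)
      (by omega) (by rw [fx_site]; omega) (by omega)
    rw [TR_inter_x (by omega) (by omega)] at h5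
    exact ⟨y, y', h5⟩
  · left; left; left
    obtain ⟨y, y', h5, -, -⟩ := h1.cross_y (c := n + 1) (d := 2 * n)
      (by rw [fy_site]; omega) (by omega) (by omega)
    rw [TR_inter_y (by omega) (by omega)] at h5
    exact ⟨y, y', h5⟩
  · left; left; right
    obtain ⟨y, y', h5, -, -⟩ := h1.symm.cross_y (c := -(2 * n)) (d := -n - 1)
      (by omega) (by rw [fy_site]; omega) (by omega)
    rw [TR_inter_y (by omega) (by omega)] at h5
    exact ⟨y, y', h5⟩

theorem two_arms (p : I) (r : Bool) {v : ℤ × ℤ} {s : ℕ} (hs : 2 * s < nrm v) :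
    PT p r (C0 v) ≤ ab p r 0 s ^ 2 := by
  have hsub : C0 v ⊆ AB 0 0 0 s ∩ AB v.1 v.2 0 s := by
    intro η hη
    have hc : TConn η Set.univ (0, 0, false) (sit0 v) := hη
    refine ⟨arm_of_conn rfl ?_ hc, arm_of_conn rfl ?_ hc.symm⟩
    · unfold sit0
      rw [mem_TR_site]
      unfold nrm at hs
      omega
    · rw [mem_TR_site]
      unfold nrm at hs
      omega
  have hd : Disjoint (eRect (0 - s) (0 + s) (0 - s) (0 + s))
      (eRect (v.1 - s) (v.1 + s) (v.2 - s) (v.2 + s)) := by
    apply eRect_disjoint_x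
    unfold nrm at hs
    omega
  calc PT p r (C0 v) ≤ PT p r (AB 0 0 0 s ∩ AB v.1 v.2 0 s) := PT_mono hsub
    _ = PT p r (AB 0 0 0 s) * PT p r (AB v.1 v.2 0 s) :=
        PT_indep (localOn_AB _ _ _ _) (localOn_AB _ _ _ _) hd
    _ = ab p r 0 s ^ 2 := by rw [PT_AB, PT_AB, sq]

/-- Far points: three events on disjoint sets of sites. -/
theorem far_le (p : I) (r : Bool) {m n : ℕ} (hm : 1 ≤ m) (hmn : m ≤ n) {v : ℤ × ℤ}
    (hv : 4 * n < nrm v) : PT p r (C0 v) ≤ ab p r 0 (m - 1) ^ 2 * (4 * qc (σ p) (!r) n) := by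
  classical
  set s := m - 1 with hs
  have hsub : C0 v ⊆ (AB 0 0 0 s ∩ F4 n) ∩ AB v.1 v.2 0 s := by
    intro η hη
    have hc : TConn η Set.univ (0, 0, false) (sit0 v) := hη
    refine ⟨⟨arm_of_conn rfl ?_ hc, F4_of_conn (by omega) (by omega) hη⟩,
      arm_of_conn rfl ?_ hc.symm⟩
    · unfold sit0
      rw [mem_TR_site]
      unfold nrm at hv
      omega
    · rw [mem_TR_site]
      unfold nrm at hv
      omega
  have hl1 : LocalOn (eRect (-(n : ℤ)) n (-(n : ℤ)) n) (AB 0 0 0 s) := by
    refine (localOn_AB 0 0 0 s).mono ?_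
    intro e he
    rw [mem_eRect] at he ⊢
    simp only [rect, Set.mem_ofPred_eq, src] at he ⊢
    omega
  have hl2 := localOn_F4 n
  have hl12 : LocalOn (eRect (-(2 * n : ℤ)) (2 * n) (-(2 * n)) (2 * n)) (AB 0 0 0 s ∩ F4 n) := by
    refine (hl1.mono ?_).inter (hl2.mono Finset.sdiff_subset)
    intro e he
    rw [mem_eRect] at he ⊢
    simp only [rect, Set.mem_ofPred_eq, src] at he ⊢
    omega
  have hd1 : Disjoint (eRect (-(n : ℤ)) n (-(n : ℤ)) n) (rg n) := Finset.disjoint_sdiff
  have hd2 : Disjoint (eRect (-(2 * n : ℤ)) (2 * n) (-(2 * n)) (2 * n))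
      (eRect (v.1 - s) (v.1 + s) (v.2 - s) (v.2 + s)) := by
    apply eRect_disjoint_x
    unfold nrm at hv
    omega
  have h3 := PT_F4 (p := p) (r := r) (n := n) (by omega)
  have h4 : 0 ≤ ab p r 0 s := ab_nonneg
  calc PT p r (C0 v) ≤ PT p r ((AB 0 0 0 s ∩ F4 n) ∩ AB v.1 v.2 0 s) := PT_mono hsub
    _ = PT p r (AB 0 0 0 s) * PT p r (F4 n) * PT p r (AB v.1 v.2 0 s) := by
        rw [PT_indep hl12 (localOn_AB _ _ _ _) hd2, PT_indep hl1 hl2 hd1]
    _ = ab p r 0 s ^ 2 * PT p r (F4 n) := by rw [PT_AB, PT_AB]; ring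
    _ ≤ _ := by gcongr

end Pool.Agent.H13.SK

end

section

/-! # Russo-Seymour-Welsh for probabilities bounded away from zero, up to a given scale -/

set_option autoImplicit false

open MeasureTheory ProbabilityTheory unitInterval

namespace Pool.Agent.H13.SK

open Pool.Agent.H89.Perc Pool.Agent.H83.Site

end Pool.Agent.H13.SK

end

section

/-!
# Site percolation, RSW regime: annuli which are not crossed, one-arm decay
-/

open MeasureTheory ProbabilityTheory unitInterval

namespace Pool.Agent.H83.SK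

open Pool.Agent.H89.Perc Pool.Agent.H61.NC Pool.Agent.H31.EX

end Pool.Agent.H83.SK

end

section

/-!
# Separated four-arm events for site percolation: definitions

Everything is at the level of the sites: a configuration `w` gives the states of the sites, stored
at the coordinates `sv v`; `sit w` is the induced bond configuration.  Filling a set `Z` means
opening the sites of `Z`.
-/

set_option autoImplicit false

open MeasureTheory ProbabilityTheory unitInterval

namespace Pool.Agent.H38.N59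

open Pool.Agent.H89.Perc
open Pool.Agent.H83.SK (sv sit sit_true)
open Pool.Agent.H59.EX (LocS inE touch clus closeS Side T Mouth Fence dom)

/-! ### Elementary facts -/

end Pool.Agent.H38.N59

end

section

/-!
# Outward separation for sites: definitions and elementary facts for the stages

The corridors and their crossing events are those of the bond setting, evaluated at the induced
configuration.
-/

set_option autoImplicit false

open MeasureTheory ProbabilityTheory unitInterval

namespace Pool.Agent.H38.N59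

open Pool.Agent.H89.Perc
open Pool.Agent.H83.SK (sv sit sit_true RSWreg)
open Pool.Agent.H59.EX (LocS inE touch clus closeS Side T Mouth Fence dom CorrData CorrSep fence_mem mem_sphere_of_joins)

end Pool.Agent.H38.N59

end

end

section

/-! The parts of this file: H83.Site.PcRange, H92.SN.A4B, H38.SK.Dict, H38.SK.WindT, H38.SK.WindP, H92.SN.TSym, H83.SK.P29.A4Low, H38.SK.N59.Seal, H38.SK.N59.St4, H38.SK.N59.St2, H38.SK.N59.GeoP, H38.SK.N59.GeoAll, H38.SK.N59.MoveStr, H83.SK.PST.Defs. -/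

section

/-!
# The critical density is neither zero nor one
-/

set_option autoImplicit false

open MeasureTheory ProbabilityTheory unitInterval

namespace Pool.Agent.H83.Site

open Pool.Agent.H89.Perc

end Pool.Agent.H83.Site

end

section

/-!
# Basic properties of the four-arm event of a site, in the plane and on the torus
-/

set_option autoImplicit false

open MeasureTheory ProbabilityTheory unitInterval

namespace Pool.Agent.H92.SN

open Pool.Agent.H89.Perc
open Pool.Agent.H61.NC (modE fill mid)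
open Pool.Agent.H83.SK (sv sit)

end Pool.Agent.H92.SN

end

section

/-!
# Dictionary between the centred lattice and the induced bond configuration
-/

set_option autoImplicit false

open MeasureTheory ProbabilityTheory unitInterval

namespace Pool.Agent.H83.SK.Dict

open Pool.Agent.H89.Perc Pool.Agent.H83.Site

variable {ω : Config} {S : Set Vert} {T : Set TV} {a b c d : ℤ} {p q : I}

theorem sv_mem_TR {v : Vert} : sv v ∈ TR a b c d ↔ v ∈ rect a b c d := by
  obtain ⟨x, y⟩ := v
  simp only [sv, mem_TR_site, rect, Set.mem_ofPred_eq]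

theorem full_sv (r : Bool) (ω : Config) (v : Vert) : full r ω (sv v) = ω (sv v) := rfl

/-- The end points of an edge are adjacent in the centred lattice. -/
theorem tadj_of_joins {e : Edge} {u v : Vert} (h : Joins e u v) : TAdj (sv u) (sv v) := by
  obtain ⟨x, y, t⟩ := e
  left
  refine ⟨rfl, rfl, ?_⟩
  cases t <;> rcases h with ⟨h1, h2⟩ | ⟨h1, h2⟩ <;> subst h1 <;> subst h2 <;>
    simp [sv, src, tgt]

/-- Adjacent sites are joined by an edge. -/
theorem joins_of_tadj {u v : Vert} (h : TAdj (sv u) (sv v)) : ∃ e, Joins e u v := by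
  obtain ⟨x, y⟩ := u
  obtain ⟨x', y'⟩ := v
  simp only [TAdj, sv, true_and, Bool.false_eq_true, false_and, and_false, or_false] at h
  rcases h with ⟨h1, h2⟩ | ⟨h1, h2⟩
  · rcases h2 with h2 | h2
    · exact ⟨(x', y', true), Or.inr ⟨by simp [tgt, h1, h2], rfl⟩⟩
    · exact ⟨(x, y, true), Or.inl ⟨rfl, by simp [tgt, h1, h2]⟩⟩
  · rcases h2 with h2 | h2
    · exact ⟨(x', y', false), Or.inr ⟨by simp [tgt, h1, h2], rfl⟩⟩
    · exact ⟨(x, y, false), Or.inl ⟨rfl, by simp [tgt, h1, h2]⟩⟩

/-! ### Crossings -/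

/-- There is no open vertical crossing if and only if there is a closed horizontal one. -/
theorem not_vc_iff (hab : a ≤ b) (hcd : c ≤ d) (η : Config) :
    ¬ VC η a b c d ↔ HC (neg η) a b c d := by
  constructor
  · intro h
    rcases hc_or_vc hab hcd (neg η) with h1 | h1
    · exact h1
    · rw [neg_neg'] at h1
      exact absurd h1 h
  · intro h h'
    have := not_hc_and_vc h
    rw [neg_neg'] at this
    exact this h'

/-! ### Probabilities -/

/-! ### The box-crossing regime -/

/-! ### Arms -/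

end Pool.Agent.H83.SK.Dict

end

section

/-!
# Winding paths of site percolation on the torus
-/

set_option autoImplicit false

open MeasureTheory ProbabilityTheory unitInterval

namespace Pool.Agent.H83.SK.WG

open Pool.Agent.H89.Perc Pool.Agent.H83.Site Pool.Agent.H83.SK.Dict

/-! ### Periodic configurations -/

theorem per_shf (N : ℕ) (ω : Config) (i j : ℤ) (v : TV) :
    per N ω (shf (i * N) (j * N) v) = per N ω v := by
  simp only [per, shf]
  congr 2
  · exact Int.add_mul_emod_self_right _ _ _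
  · congr 1
    exact Int.add_mul_emod_self_right _ _ _

theorem full_per_shf (r : Bool) (N : ℕ) (ω : Config) (i j : ℤ) (v : TV) :
    full r (per N ω) (shf (i * N) (j * N) v) = full r (per N ω) v := by
  have h := per_shf N ω i j v
  simp only [full]
  rw [h]
  rfl

theorem tconn_shift {η : Config} {x y : ℤ} (hη : ∀ v, η (shf x y v) = η v) {S T : Set TV}
    (hST : ∀ v ∈ S, shf x y v ∈ T) {u v : TV} (h : TConn η S u v) :
    TConn η T (shf x y u) (shf x y v) := by
  refine h.map (shf x y) hST (fun z _ hz => by rw [hη]; exact hz) ?_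
  intro a b _ _ hab
  exact Or.inl (hab.shf x y)

/-- Repeating a periodic path `K` times. -/
theorem tconn_repeat {η : Config} {x y : ℤ} (hη : ∀ v, η (shf x y v) = η v) {S : Set TV}
    (hS : ∀ v ∈ S, shf x y v ∈ S) {u : TV} (hc : TConn η S u (shf x y u)) (K : ℕ) :
    TConn η S u (shf (K * x) (K * y) u) := by
  induction K with
  | zero =>
    have : shf ((0 : ℕ) * x) ((0 : ℕ) * y) u = u := by
      obtain ⟨a, b, t⟩ := u
      simp [shf]
    rw [this]
    exact TConn.refl hc.mem_left hc.open_left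
  | succ K ih =>
    have h1 := tconn_shift hη hS ih
    have h2 := hc.trans h1
    have : shf x y (shf (K * x) (K * y) u) = shf ((K + 1 : ℕ) * x) ((K + 1 : ℕ) * y) u := by
      obtain ⟨a, b, t⟩ := u
      simp only [shf, Prod.mk.injEq]
      refine ⟨?_, ?_, trivial⟩ <;> push_cast <;> ring
    rwa [this] at h2

theorem shf_neg_eq (η : Config) {x y : ℤ} (hη : ∀ v, η (shf x y v) = η v) (v : TV) :
    η (shf (-x) (-y) v) = η v := by
  have := hη (shf (-x) (-y) v)
  rw [shf_shf] at this
  exact this.symm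

/-- Repeating a periodic path in both directions. -/
theorem tconn_repeat2 {η : Config} {x y : ℤ} (hη : ∀ v, η (shf x y v) = η v) {S : Set TV}
    (hS : ∀ v ∈ S, shf x y v ∈ S) (hS' : ∀ v ∈ S, shf (-x) (-y) v ∈ S) {u : TV}
    (hc : TConn η S u (shf x y u)) (K : ℕ) :
    TConn η S (shf (-(K * x)) (-(K * y)) u) (shf (K * x) (K * y) u) := by
  have h1 := tconn_repeat hη hS hc K
  have h2 : TConn η S u (shf (-x) (-y) u) := by
    have h3 := (tconn_shift (shf_neg_eq η hη) hS' hc).symm
    rwa [shf_shf'] at h3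
  have h3 := tconn_repeat (shf_neg_eq η hη) hS' h2 K
  have e1 : (K : ℤ) * -x = -(K * x) := by ring
  have e2 : (K : ℤ) * -y = -(K * y) := by ring
  rw [e1, e2] at h3
  exact h3.symm.trans h1

/-- A path is contained in a square. -/
theorem tconn_bounded {η : Config} {S : Set TV} {u v : TV} (hc : TConn η S u v) :
    ∃ M : ℕ, TConn η (S ∩ TR (-M) M (-M) M) u v := by
  have key : ∀ v : TV, ∃ M : ℕ, v ∈ TR (-M) M (-M) M := by
    intro v
    refine ⟨(|fx v| + |fy v|).toNat, ?_⟩
    rw [mem_TR]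
    have h1 := abs_nonneg (fx v)
    have h2 := abs_nonneg (fy v)
    have h3 := le_abs_self (fx v)
    have h4 := neg_abs_le (fx v)
    have h5 := le_abs_self (fy v)
    have h6 := neg_abs_le (fy v)
    omega
  have mono : ∀ {M M' : ℕ}, M ≤ M' → (TR (-M) M (-M) M : Set TV) ⊆ TR (-M') M' (-M') M' :=
    fun h => TR_mono (by omega) (by omega) (by omega) (by omega)
  refine hc.induction_right (P := fun v => ∃ M : ℕ, TConn η (S ∩ TR (-M) M (-M) M) u v) ?_ ?_
  · obtain ⟨M, hM⟩ := key u
    exact ⟨M, TConn.refl ⟨hc.mem_left, hM⟩ hc.open_left⟩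
  · rintro a b _ hab ⟨M, hM⟩
    obtain ⟨M', hM'⟩ := key b
    refine ⟨max M M', ?_⟩
    have h1 : TConn η (S ∩ TR (-(max M M' : ℕ)) (max M M' : ℕ) (-(max M M' : ℕ))
        (max M M' : ℕ)) u a :=
      hM.mono_set (Set.inter_subset_inter le_rfl (mono (le_max_left _ _)))
    exact h1.tail ⟨h1.mem_right, ⟨hab.2.1, mono (le_max_right _ _) hM'⟩, hab.2.2⟩

private theorem excl_pos {N : ℕ} (hN : 1 ≤ N) {η : Config}
    (h01 : ∀ v, η (shf 0 N v) = η v) {u : TV} {a b : ℤ}
    (ha : 0 < a) (hab : ∀ v, η (shf (a * N) (b * N) v) = η v)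
    (h : TConn η Set.univ u (shf (a * N) (b * N) u)) (w : TV) :
    ¬ TConn (neg η) Set.univ w (shf 0 N w) := by
  intro hd
  have hN' : (1 : ℤ) ≤ N := by exact_mod_cast hN
  obtain ⟨L, hL⟩ := tconn_bounded hd
  set S : Set TV := {v | 2 * (-(L : ℤ)) ≤ fx v ∧ fx v ≤ 2 * L} with hS
  have hd1 : TConn (neg η) S w (shf 0 N w) := hL.mono_set (by
    rintro x ⟨-, hx⟩
    rw [mem_TR] at hx
    exact ⟨hx.1, hx.2.1⟩)
  have hinv : ∀ v, neg η (shf 0 N v) = neg η v := fun v => by simp only [neg, h01]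
  have hdK := tconn_repeat2 hinv (S := S) (by
    intro v hv
    simp only [hS, Set.mem_ofPred_eq, fx_shf] at hv ⊢
    omega) (by
    intro v hv
    simp only [hS, Set.mem_ofPred_eq, fx_shf] at hv ⊢
    omega) hd1
  have hpK := tconn_repeat2 hab (S := Set.univ) (fun _ _ => trivial) (fun _ _ => trivial) h
  obtain ⟨K, hK1, hK2⟩ : ∃ K : ℕ, fx u - 2 * (K * (a * N)) ≤ 2 * (-(L : ℤ)) ∧
      2 * (L : ℤ) ≤ fx u + 2 * (K * (a * N)) := by
    refine ⟨(|fx u| + L + 1).toNat, ?_⟩
    have h1 := abs_nonneg (fx u)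
    have h2 := le_abs_self (fx u)
    have h3 := neg_abs_le (fx u)
    have h4 : (((|fx u| + L + 1).toNat : ℕ) : ℤ) = |fx u| + L + 1 := by
      apply Int.toNat_of_nonneg
      omega
    rw [h4]
    have h5 : 1 ≤ a * N := by nlinarith only [hN, ha]
    have h6 : |fx u| + L + 1 ≤ (|fx u| + L + 1) * (a * N) := by nlinarith only [h5, h1]
    constructor <;> omega
  obtain ⟨M, hM⟩ := tconn_bounded (hpK K)
  obtain ⟨y, y', hc, -, -⟩ := hM.cross_x (a := -(L : ℤ)) (b := L)
    (by rw [fx_shf]; omega) (by rw [fx_shf]; omega) (by omega)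
  have hH : HC η (-(L : ℤ)) L (-M) M := by
    refine ⟨y, y', hc.mono_set ?_⟩
    rintro x ⟨⟨-, hx⟩, hx'⟩
    rw [mem_TR] at hx ⊢
    exact ⟨hx'.1, hx'.2, hx.2.2⟩
  obtain ⟨K', hK1', hK2'⟩ : ∃ K' : ℕ, fy w - 2 * (K' * (N : ℤ)) ≤ 2 * (-(M : ℤ)) ∧
      2 * (M : ℤ) ≤ fy w + 2 * (K' * N) := by
    refine ⟨(|fy w| + M + 1).toNat, ?_⟩
    have h1 := abs_nonneg (fy w)
    have h2 := le_abs_self (fy w)
    have h3 := neg_abs_le (fy w)
    have h4 : (((|fy w| + M + 1).toNat : ℕ) : ℤ) = |fy w| + M + 1 := by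
      apply Int.toNat_of_nonneg
      omega
    rw [h4]
    have h6 : |fy w| + M + 1 ≤ (|fy w| + M + 1) * (N : ℤ) := by nlinarith only [h4, hN]
    constructor <;> omega
  obtain ⟨z, z', hc', -, -⟩ := (hdK K').cross_y (c := -(M : ℤ)) (d := M)
    (by rw [fy_shf]; omega) (by rw [fy_shf]; omega) (by omega)
  have hV : VC (neg η) (-(L : ℤ)) L (-M) M := by
    refine ⟨z, z', hc'.mono_set ?_⟩
    rintro x ⟨hx, hx'⟩
    rw [mem_TR]
    exact ⟨hx.1, hx.2, hx'⟩
  exact not_hc_and_vc hH hV

/-- An open horizontal winding path excludes a closed vertical winding path. -/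
theorem wind_excl {N : ℕ} (hN : 1 ≤ N) {η : Config}
    (hη : ∀ (i j : ℤ) (v : TV), η (shf (i * N) (j * N) v) = η v) {u : TV} {a b : ℤ}
    (ha : a ≠ 0) (h : TConn η Set.univ u (shf (a * N) (b * N) u)) (w : TV) :
    ¬ TConn (neg η) Set.univ w (shf 0 N w) := by
  have h01 : ∀ v, η (shf 0 N v) = η v := fun v => by simpa using hη 0 1 v
  rcases lt_or_gt_of_ne ha with ha | ha
  · refine excl_pos hN h01 (u := shf (a * N) (b * N) u) (a := -a) (b := -b) (by omega)
      (hη (-a) (-b)) ?_ w
    have h1 := h.symm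
    have e : shf (-a * N) (-b * N) (shf (a * N) (b * N) u) = u := by
      have e1 : -a * (N : ℤ) = -(a * N) := by ring
      have e2 : -b * (N : ℤ) = -(b * N) := by ring
      rw [e1, e2, shf_shf']
    rwa [e]
  · exact excl_pos hN h01 ha (hη a b) h w

/-! ### Winding paths from crossings -/

/-- Four crossings of a configuration with horizontal period `N` make a horizontal winding. -/
theorem wind_of_crossings {N h m : ℤ} {η : Config} (hper : ∀ v, η (shf N 0 v) = η v)
    (hm : 0 ≤ m) (hh : 0 ≤ h) (hhN : h ≤ N) (h1 : HC η 0 (h + m) 0 m)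
    (h2 : HC η h (N + m) 0 m) (h3 : VC η h (h + m) 0 m) (h4 : VC η 0 m 0 m) :
    ∃ w : TV, TConn η Set.univ w (shf N 0 w) := by
  obtain ⟨y1, y1', c1⟩ := h1
  obtain ⟨y2, y2', c2⟩ := h2
  obtain ⟨x1, x1', d1⟩ := h3
  obtain ⟨x2, x2', d2⟩ := h4
  have d2' : TConn η (TR N (N + m) 0 m) (x2 + N, 0, false) (x2' + N, m, false) := by
    have h5 := tconn_shift hper (T := TR N (N + m) 0 m) (by
      intro v hv
      rw [mem_TR] at hv ⊢
      rw [fx_shf, fy_shf]
      omega) d2
    simpa [shf] using h5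
  have k1 := (circ_hv (le_refl 0) hm (by omega) le_rfl hm le_rfl c1 d2).mono_set
    (Set.subset_univ _)
  have k2 := (circ_hv hh (by omega) le_rfl le_rfl hm le_rfl c1 d1).mono_set (Set.subset_univ _)
  have k3 := (circ_hv (le_refl h) (by omega) (by omega) le_rfl hm le_rfl c2 d1).mono_set
    (Set.subset_univ _)
  have k4 := (circ_hv hhN (by omega) le_rfl le_rfl hm le_rfl c2 d2').mono_set
    (Set.subset_univ _)
  refine ⟨(x2, 0, false), ?_⟩
  have e : shf N 0 (x2, 0, false) = (x2 + N, 0, false) := by simp [shf]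
  rw [e]
  exact ((k1.symm.trans k2).trans k3.symm).trans k4

theorem VC_swp {η : Config} {a b c d : ℤ} :
    VC (fun v => η (swp v)) a b c d ↔ HC η c d a b := by
  have h := HC_swp (η := fun v => η (swp v)) (a := c) (b := d) (c := a) (d := b)
  simp only [swp_swp] at h
  exact h.symm

/-- Four crossings of a configuration with vertical period `N` make a vertical winding. -/
theorem wind_of_crossings' {N h m : ℤ} {η : Config} (hper : ∀ v, η (shf 0 N v) = η v)
    (hm : 0 ≤ m) (hh : 0 ≤ h) (hhN : h ≤ N) (h1 : VC η 0 m 0 (h + m))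
    (h2 : VC η 0 m h (N + m)) (h3 : HC η 0 m h (h + m)) (h4 : HC η 0 m 0 m) :
    ∃ w : TV, TConn η Set.univ w (shf 0 N w) := by
  obtain ⟨w, hw⟩ := wind_of_crossings (N := N) (h := h) (m := m) (η := fun v => η (swp v))
    (fun v => by
      have := hper (swp v)
      simpa [shf, swp] using this) hm hh hhN (HC_swp.2 h1) (HC_swp.2 h2)
    (VC_swp.2 h3) (VC_swp.2 h4)
  refine ⟨swp w, ?_⟩
  have h5 := hw.map (η' := η) (T := Set.univ) swp (fun _ _ => trivial) (fun _ _ h => h)
    (fun a b _ _ hab => Or.inl hab.swp)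
  have e : swp (shf N 0 w) = shf 0 N (swp w) := by
    obtain ⟨x, y, t⟩ := w
    simp [shf, swp]
  rwa [e] at h5

end Pool.Agent.H83.SK.WG

end

section

/-!
# The probability of winding for site percolation on the torus
-/

set_option autoImplicit false

open MeasureTheory ProbabilityTheory unitInterval

namespace Pool.Agent.H83.SK.WG

open Pool.Agent.H89.Perc Pool.Agent.H83.Site Pool.Agent.H83.SK.Dict

/-- Reduction modulo `N`. -/
def modS (N : ℕ) (v : TV) : TV := (v.1 % N, v.2.1 % N, v.2.2)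

theorem mod_eq {N : ℕ} {x y a b : ℤ} (hab : b - a < N) (hx : a ≤ x ∧ x ≤ b)
    (hy : a ≤ y ∧ y ≤ b) (h : x % N = y % N) : x = y := by
  have hd : (N : ℤ) ∣ x - y := Int.ModEq.dvd (Int.ModEq.symm h)
  have : x - y = 0 := by
    apply Int.eq_zero_of_abs_lt_dvd hd
    rw [abs_lt]
    omega
  omega

theorem modS_injOn {N : ℕ} {a b c d : ℤ} (hab : b - a < N) (hcd : d - c < N) :
    Set.InjOn (modS N) (eRect a b c d : Set Edge) := by
  rintro ⟨x, y, t⟩ h1 ⟨x', y', t'⟩ h2 h
  rw [Finset.mem_coe, mem_eRect] at h1 h2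
  simp only [src, rect, Set.mem_ofPred_eq] at h1 h2
  simp only [modS, Prod.mk.injEq] at h
  obtain ⟨h3, h4, h5⟩ := h
  rw [mod_eq hab ⟨h1.1, h1.2.1⟩ ⟨h2.1, h2.2.1⟩ h3,
    mod_eq hcd ⟨h1.2.2.1, h1.2.2.2⟩ ⟨h2.2.2.1, h2.2.2.2⟩ h4, h5]

variable {q : I} {N : ℕ} {a b c d : ℤ}

/-- Local events which fit into the torus. -/
theorem raw_per (hab : b - a < N) (hcd : d - c < N) {E : Set Config}
    (hE : LocalOn (eRect a b c d) E) :
    Pool.Agent.H89.Perc.Pr q {ω | full false (per N ω) ∈ E} = PT q false E := by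
  rw [← PT_comp (p := q) (r := false) hE (φ := modS N) (modS_injOn hab hcd) (fun _ => rfl), PT]
  rfl

theorem raw_neg_per (hab : b - a < N) (hcd : d - c < N) {E : Set Config}
    (hE : LocalOn (eRect a b c d) E) :
    Pool.Agent.H89.Perc.Pr q {ω | neg (full false (per N ω)) ∈ E} = PT (σ q) true E := by
  have h1 := raw_per (q := q) hab hcd (Pool.Agent.H83.Site.LocalOn.neg hE)
  have h2 := PT_neg (p := q) (r := false) hE
  rw [Bool.not_false] at h2
  rw [← h2, ← h1]
  rfl

theorem local_per {s : Finset Edge} {E : Set Config} (hE : LocalOn s E) :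
    LocalOn (s.image (modS N)) {ω | full false (per N ω) ∈ E} := by
  intro ω ω' h h'
  refine hE _ _ (fun v hv => ?_) h'
  have h1 := h _ (Finset.mem_image_of_mem _ hv)
  have h2 : per N ω v = per N ω' v := h1
  simp only [full]
  rw [h2]

theorem local_neg_per {s : Finset Edge} {E : Set Config} (hE : LocalOn s E) :
    LocalOn (s.image (modS N)) {ω | neg (full false (per N ω)) ∈ E} :=
  local_per (Pool.Agent.H83.Site.LocalOn.neg hE)

theorem incr_per {E : Set Config} (hE : Incr E) : Incr {ω | full false (per N ω) ∈ E} := by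
  intro ω ω' h h'
  exact incr_full false hE _ _ (fun e he => h _ he) h'

theorem pow4_le {x a b c d : ℝ} (hx : 0 ≤ x) (ha : x ≤ a) (hb : x ≤ b) (hc : x ≤ c)
    (hd : x ≤ d) : x ^ 4 ≤ (a * b) * (c * d) := by
  have h1 : x * x ≤ a * b := mul_le_mul ha hb hx (hx.trans ha)
  have h2 : x * x ≤ c * d := mul_le_mul hc hd hx (hx.trans hc)
  calc x ^ 4 = (x * x) * (x * x) := by ring
    _ ≤ (a * b) * (c * d) := mul_le_mul h1 h2 (mul_nonneg hx hx) ((mul_nonneg hx hx).trans h1)

theorem fkg4 {s1 s2 s3 s4 : Finset Edge} {A B C D : Set Config}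
    (lA : LocalOn s1 A) (lB : LocalOn s2 B) (lC : LocalOn s3 C) (lD : LocalOn s4 D)
    (iA : Incr A) (iB : Incr B) (iC : Incr C) (iD : Incr D) :
    (Pool.Agent.H89.Perc.Pr q A * Pool.Agent.H89.Perc.Pr q B) *
      (Pool.Agent.H89.Perc.Pr q C * Pool.Agent.H89.Perc.Pr q D) ≤
      Pool.Agent.H89.Perc.Pr q ((A ∩ B) ∩ (C ∩ D)) := by
  classical
  have h1 := Pool.Agent.H89.Perc.fkg (p := q) lA lB iA iB
  have h2 := Pool.Agent.H89.Perc.fkg (p := q) lC lD iC iD
  have h3 := Pool.Agent.H89.Perc.fkg (p := q) (lA.inter' lB) (lC.inter' lD) (iA.inter iB)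
    (iC.inter iD)
  exact (mul_le_mul h1 h2 (mul_nonneg Pool.Agent.H89.Perc.Pr_nonneg
    Pool.Agent.H89.Perc.Pr_nonneg) Pool.Agent.H89.Perc.Pr_nonneg).trans h3

theorem decr_inter {A B : Set Config} (iA : Incr Aᶜ) (iB : Incr Bᶜ) : Incr (A ∩ B)ᶜ := by
  rw [Set.compl_inter]
  exact iA.union iB

theorem fkg4_decr {s1 s2 s3 s4 : Finset Edge} {A B C D : Set Config}
    (lA : LocalOn s1 A) (lB : LocalOn s2 B) (lC : LocalOn s3 C) (lD : LocalOn s4 D)
    (iA : Incr Aᶜ) (iB : Incr Bᶜ) (iC : Incr Cᶜ) (iD : Incr Dᶜ) :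
    (Pool.Agent.H89.Perc.Pr q A * Pool.Agent.H89.Perc.Pr q B) *
      (Pool.Agent.H89.Perc.Pr q C * Pool.Agent.H89.Perc.Pr q D) ≤
      Pool.Agent.H89.Perc.Pr q ((A ∩ B) ∩ (C ∩ D)) := by
  classical
  have h1 := Pool.Agent.H89.Perc.fkg_decr (p := q) lA lB iA iB
  have h2 := Pool.Agent.H89.Perc.fkg_decr (p := q) lC lD iC iD
  have h3 := Pool.Agent.H89.Perc.fkg_decr (p := q) (lA.inter' lB) (lC.inter' lD)
    (decr_inter iA iB) (decr_inter iC iD)
  exact (mul_le_mul h1 h2 (mul_nonneg Pool.Agent.H89.Perc.Pr_nonneg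
    Pool.Agent.H89.Perc.Pr_nonneg) Pool.Agent.H89.Perc.Pr_nonneg).trans h3

/-- Union bound for four local events. -/
theorem near4 {s2 s3 s4 : Finset Edge} {A B C D : Set Config} {e : ℝ}
    (lB : LocalOn s2 B) (lC : LocalOn s3 C) (lD : LocalOn s4 D)
    (hA : 1 - e ≤ Pool.Agent.H89.Perc.Pr q A) (hB : 1 - e ≤ Pool.Agent.H89.Perc.Pr q B)
    (hC : 1 - e ≤ Pool.Agent.H89.Perc.Pr q C) (hD : 1 - e ≤ Pool.Agent.H89.Perc.Pr q D) :
    1 - 4 * e ≤ Pool.Agent.H89.Perc.Pr q ((A ∩ B) ∩ (C ∩ D)) := by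
  have key : A ⊆ (A ∩ B) ∩ (C ∩ D) ∪ (Bᶜ ∪ (Cᶜ ∪ Dᶜ)) := by
    intro ω hω
    by_cases hb : ω ∈ B
    · by_cases hc : ω ∈ C
      · by_cases hd : ω ∈ D
        · exact Or.inl ⟨⟨hω, hb⟩, hc, hd⟩
        · exact Or.inr (Or.inr (Or.inr hd))
      · exact Or.inr (Or.inr (Or.inl hc))
    · exact Or.inr (Or.inl hb)
  have h1 := (Pool.Agent.H89.Perc.Pr_mono (p := q) key).trans
    Pool.Agent.H89.Perc.Pr_union_le
  have h2 : Pool.Agent.H89.Perc.Pr q (Bᶜ ∪ (Cᶜ ∪ Dᶜ)) ≤ _ := Pool.Agent.H89.Perc.Pr_union_le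
  have h3 : Pool.Agent.H89.Perc.Pr q (Cᶜ ∪ Dᶜ) ≤ _ := Pool.Agent.H89.Perc.Pr_union_le
  rw [Pool.Agent.H89.Perc.Pr_compl lB] at h2
  rw [Pool.Agent.H89.Perc.Pr_compl lC, Pool.Agent.H89.Perc.Pr_compl lD] at h3
  linarith only [hA, hB, hC, hD, h1, h2, h3]

/-! ### Crossings at all places -/

theorem tcross {c : ℝ} {r : Bool} {L m : ℤ} (h : c ≤ PT q r {η | HC η 0 L 0 m})
    {x x' y y' : ℤ} (hx : x ≤ x') (hL : x' - x ≤ L) (hy : m ≤ y' - y) :
    c ≤ PT q r {η | HC η x x' y y'} := by
  rw [← PT_HC_shf q r 0 L 0 m x y] at h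
  refine h.trans (PT_mono fun η hη => ?_)
  exact HC.mono hη (by omega) hx (by omega) (by omega) (by omega)

theorem tcross' {c : ℝ} {r : Bool} {L m : ℤ} (h : c ≤ PT q r {η | HC η 0 L 0 m})
    {x x' y y' : ℤ} (hy : y ≤ y') (hL : y' - y ≤ L) (hx : m ≤ x' - x) :
    c ≤ PT q r {η | VC η x x' y y'} := by
  rw [PT_VC_eq_HC]
  exact tcross h hy hL hx

/-! ### The four crossings -/

/-- The four closed crossings. -/
def four' (N : ℕ) (h m : ℤ) : Set Config :=
  ({ω | neg (full false (per N ω)) ∈ {η | VC η 0 m 0 (h + m)}} ∩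
    {ω | neg (full false (per N ω)) ∈ {η | VC η 0 m h (N + m)}}) ∩
  ({ω | neg (full false (per N ω)) ∈ {η | HC η 0 m h (h + m)}} ∩
    {ω | neg (full false (per N ω)) ∈ {η | HC η 0 m 0 m}})

section
variable {e : ℝ} {h m L : ℤ}

end

/-! ### The box-crossing regime -/

/-! ### Good scales -/

end Pool.Agent.H83.SK.WG

end

section

/-!
# The winding event of the torus and its translation invariance
-/

set_option autoImplicit false

open MeasureTheory ProbabilityTheory unitInterval

namespace Pool.Agent.H92.SN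

open Pool.Agent.H89.Perc
open Pool.Agent.H61.NC (fill mid upd Joint)
open Pool.Agent.H83.SK (sv sit)

end Pool.Agent.H92.SN

end

section

/-!
# Site percolation, small scales: finite energy
-/

open MeasureTheory ProbabilityTheory unitInterval

namespace Pool.Agent.H83.SK

open Pool.Agent.H89.Perc Pool.Agent.H29.Sep
open Pool.Agent.H59.EX (Src Four closeS_true)

end Pool.Agent.H83.SK

end

section

/-!
# Seals for site percolation
-/

set_option autoImplicit false

open MeasureTheory ProbabilityTheory unitInterval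

namespace Pool.Agent.H38.N59

open Pool.Agent.H89.Perc
open Pool.Agent.H83.SK (sv sit sit_true RSWreg)
open Pool.Agent.H59.EX (LocS inE touch clus closeS Side T Mouth Fence dom pb grid)

end Pool.Agent.H38.N59

end

section

/-!
# Outward separation for sites: stage 4
-/

set_option autoImplicit false

open MeasureTheory ProbabilityTheory unitInterval

namespace Pool.Agent.H38.N59

open Pool.Agent.H89.Perc
open Pool.Agent.H61.NC hiding RSWreg
open Pool.Agent.H83.SK (sv sit sit_true RSWreg)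
open Pool.Agent.H59.EX (LocS inE touch clus closeS Side T Mouth Fence dom CorrData CorrSep clus_sub clus_step clus_conn mem_clus_single fence_mono corr_inter corr_sub160 mem_sphere_of_joins markov_indep grid card_grid)

variable {s : Src} {w ρ ρ' : ℕ} {v v' : Vert} {d d' : Side} {Z Zy : Set Vert} {Nev Ny : Set Config}
  {q : I}

/-- The determined sites. -/
def st4_t (w : ℕ) (Zy : Set Vert) (i : Set Vert × Set Vert) : Set Edge :=
  (rv (ball 0 (160 * w)) i.1 ∪ vE i.1) ∪ (rv ((ball 0 (8 * w) ∪ Zy) \ i.1) i.2 ∪ vE i.2)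

end Pool.Agent.H38.N59

end

section

/-!
# Outward separation for sites: stage 2
-/

set_option autoImplicit false

open MeasureTheory ProbabilityTheory unitInterval

namespace Pool.Agent.H38.N59

open Pool.Agent.H89.Perc
open Pool.Agent.H61.NC hiding RSWreg
open Pool.Agent.H83.SK (sv sit sit_true RSWreg)
open Pool.Agent.H59.EX (LocS inE touch clus closeS Side T Mouth Fence dom CorrData CorrSep clus_sub clus_step clus_conn mem_clus_single fence_mono corr_inter corr_sub160 mem_sphere_of_joins markov_indep grid card_grid)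

end Pool.Agent.H38.N59

end

section

/-!
# Probability of the crossing events of the corridors
-/

open MeasureTheory ProbabilityTheory unitInterval

namespace Pool.Agent.H83.SK.NG

open Pool.Agent.H59.EX

open Pool.Agent.H89.Perc
open Pool.Agent.H29.Sep (Circ incr_circ localOn_circ)

namespace GeoQ

/-- A local increasing event of probability at least `c`. -/
def Gd (q : I) (c : ℝ) (A : Set Config) : Prop :=
  0 ≤ c ∧ (∃ s : Finset Edge, LocalOn s A) ∧ Incr A ∧ c ≤ Pr q A

theorem Gd.inter {q : I} {c c' : ℝ} {A B : Set Config} (hA : Gd q c A) (hB : Gd q c' B) :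
    Gd q (c * c') (A ∩ B) := by
  classical
  obtain ⟨h0, ⟨s, hs⟩, iA, hp⟩ := hA
  obtain ⟨h0', ⟨t, ht⟩, iB, hp'⟩ := hB
  refine ⟨mul_nonneg h0 h0', ⟨s ∪ t, hs.inter' ht⟩, ?_, ?_⟩
  · exact fun ω ω' hω h => ⟨iA ω ω' hω h.1, iB ω ω' hω h.2⟩
  · exact (mul_le_mul hp hp' h0' (h0.trans hp)).trans (fkg hs ht iA iB)

theorem gd_c {q : I} {c : ℝ} {v : Vert} {ρ : ℕ} (hc : 0 ≤ c) (h : c ≤ Pr q (Circ v ρ)) :
    Gd q c (Circ v ρ) :=
  ⟨hc, ⟨_, localOn_circ v ρ⟩, incr_circ v ρ, h⟩

end GeoQ

open GeoQ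

end Pool.Agent.H83.SK.NG

end

section

/-!
# Corridors for the second point
-/

open MeasureTheory ProbabilityTheory unitInterval

namespace Pool.Agent.H83.SK.NG

open Pool.Agent.H59.EX

open Pool.Agent.H89.Perc

end Pool.Agent.H83.SK.NG

end

section

/-!
# The straight corridors of the moves, probabilities
-/

open MeasureTheory ProbabilityTheory unitInterval

namespace Pool.Agent.H83.SK.NG

open Pool.Agent.H59.EX

open Pool.Agent.H89.Perc Pool.Agent.H61.NC
open Pool.Agent.H85.Strict (hv_meet)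

end Pool.Agent.H83.SK.NG

end

section

/-!
# Site percolation on the torus: separated four arms, definitions

The torus of side `N` is `ℤ²` with the periodic configuration `per N ω = pb (modE N) ω` of sites. The
source is the closed site `0` with two of its neighbours; the first neighbour has its mouth in the
west, the second one in the east. The corridor is the horizontal strip `[28 k, N - 28 k] × [-3 k,
3 k]` from the east target to the translate by `(N, 0)` of the west target.
-/

set_option autoImplicit false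

open MeasureTheory ProbabilityTheory unitInterval

namespace Pool.Agent.H83.PST

open Pool.Agent.H89.Perc
open Pool.Agent.H61.NC (modE)
open Pool.Agent.H83.SK (sv sit sit_true RSWreg)
open Pool.Agent.H59.EX (LocS inE touch clus closeS Side T Mouth Fence dom pb grid)
open Pool.Agent.H38.N59 (vE rv Src det Seal Four)
open Pool.Agent.H26.ST (Cor PerInv sh TD Rel1 In)

/-- The source `s` consists of the site `0` and two of its neighbours. -/
structure IsSrc (s : Src) : Prop where
  x : ∃ e, Joins e s.x (0, 0)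
  y : ∃ e, Joins e (0, 0) s.y
  V : s.V0 = {0}

theorem perInv_sit {N : ℕ} {w : Config} (h : PerInv N w) : PerInv N (sit w) := by
  intro z e
  have h1 : (fun f => w (shiftE (z.1 * N, z.2 * N) f)) = w := by
    funext f
    exact h z f
  have h2 := congrFun (Pool.Agent.H92.SN.sit_shiftE (z.1 * N, z.2 * N) w) e
  rw [h1] at h2
  exact h2.symm

theorem per_sv_sh {N : ℕ} {w : Config} (h : PerInv N w) (z : ℤ × ℤ) (v : Vert) :
    w (sv (sh N z v)) = w (sv v) := by
  have h1 := Pool.Agent.H26.ST.per_sh h z (sv v)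
  have h2 : shiftE (-(z.1 * N), -(z.2 * N)) (sv v) = sv (sh N z v) := by
    simp only [shiftE, sv, sh, Prod.mk.injEq]
    exact ⟨by ring, by ring, trivial⟩
  rw [h2] at h1
  exact h1

end Pool.Agent.H83.PST

end

end
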