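import Pool.Agent.H94.BG.H31.PT.M06_3
import Pool.Agent.H94.BG.H31.PT.M08_6

/-! The parts of this file: H31.PT.M08_1, H31.PT.M08_4. -/

section

/-! The parts of this file: H13.SK.SigmaUp, H13.SK.BddLoc, H83.SK.P29.NoArm, H38.SK.N59.Defs, H38.SK.N59.Stage. -/

section

/-!
# Upper bound for the mean cluster size of site percolation at a scale where the other colour is
good
-/

set_option autoImplicit false

open MeasureTheory ProbabilityTheory unitInterval

namespace Pool.Agent.H13.SK

open Pool.Agent.H89.Perc Pool.Agent.H83.Site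

end Pool.Agent.H13.SK

end

section

/-! # Russo-Seymour-Welsh for probabilities bounded away from zero, up to a given scale -/

set_option autoImplicit false

open MeasureTheory ProbabilityTheory unitInterval

namespace Pool.Agent.H13.SK

open Pool.Agent.H89.Perc Pool.Agent.H83.Site

end Pool.Agent.H13.SK

end

section

/-!
# Site percolation, RSW regime: annuli which are not crossed, one-arm decay
-/

open MeasureTheory ProbabilityTheory unitInterval

namespace Pool.Agent.H83.SK

open Pool.Agent.H89.Perc Pool.Agent.H61.NC Pool.Agent.H31.EX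

lemma noarm_ext {c : ℝ} (hc : 0 < c) (K : ℕ) : ∃ c' : ℝ, 0 < c' ∧ ∀ (n : ℕ) (q : I), 1 ≤ n →
    RSWreg c n q → RSWreg c' (K * n) q := by
  obtain ⟨c', hc', H⟩ := rect_lower c hc (4 + K)
  obtain ⟨c'', hc'', H'⟩ := rect_closed c hc (4 + K)
  refine ⟨min c' c'', lt_min hc' hc'', fun n q hn h m hm1 hm2 => ?_⟩
  have e1 : ((0 : ℤ)) ≤ 4 * (m : ℤ) := by positivity
  have e2 : (0 : ℤ) < m := by exact_mod_cast hm1
  have e3 : 4 * (m : ℤ) - 0 ≤ ((4 + K : ℕ) : ℤ) * ((m : ℤ) - 0) := by
    push_cast
    nlinarith [mul_nonneg (Int.natCast_nonneg K) (Int.natCast_nonneg m)]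
  have e4 : (m : ℤ) - 0 ≤ ((4 + K : ℕ) : ℤ) * (n : ℤ) := by
    have : (m : ℤ) ≤ (K : ℤ) * n := by exact_mod_cast hm2
    push_cast
    nlinarith [Int.natCast_nonneg n]
  exact ⟨(min_le_left _ _).trans (H n q hn h 0 (4 * m) 0 m e1 e2 e3 e4).1,
    (min_le_right _ _).trans (H' n q hn h 0 (4 * m) 0 m e1 e2 e3 e4).1⟩

/-- Rectangles of all places. -/
lemma reg_closed {c : ℝ} {n : ℕ} {q : I} (h : RSWreg c n q) {m : ℕ} (hm : 1 ≤ m) (hmn : m ≤ n)
    {x y x' y' : ℤ} (hx : x' - x ≤ 4 * m) (hx0 : x ≤ x') (hy : (m : ℤ) ≤ y' - y) :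
    c ≤ Pr q {ω | ¬ VCross ω x x' y y'} ∧ c ≤ Pr q {ω | ¬ HCross ω y y' x x'} := by
  have h0 := (h m hm hmn).2
  have h1 : c ≤ Pr q {ω | ¬ VCross ω 0 (x' - x) 0 (y' - y)} :=
    h0.trans (Pr_mono fun ω h hv => h (VCross.mono hv le_rfl hx le_rfl (by omega) hy))
  have h3 := Pr_novcross_translate (p := q) (a := 0) (b := x' - x) (c := 0) (d := y' - y) x y
  have e1 : (0 : ℤ) + x = x := by ring
  have e2 : x' - x + x = x' := by ring
  have e3 : (0 : ℤ) + y = y := by ring
  have e4 : y' - y + y = y' := by ring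
  rw [e1, e2, e3, e4] at h3
  refine ⟨?_, ?_⟩
  · rw [h3]
    exact h1
  · rw [← Pr_novcross_eq, h3]
    exact h1

lemma reg_mono_c {c c' : ℝ} {n : ℕ} {q : I} (h : RSWreg c n q) (hc : c' ≤ c) :
    RSWreg c' n q := fun m h1 h2 => ⟨hc.trans (h m h1 h2).1, hc.trans (h m h1 h2).2⟩

/-- Intersections of the annulus events at scales `s 16 ^ j`. -/
def AnnT (s : ℕ) : ℕ → Set Config
  | 0 => Set.univ
  | n + 1 => AnnT s n ∩ Ann (s * 16 ^ n + 2) (s * 16 ^ (n + 1))

lemma localOn_annT (s n : ℕ) : LocalOn (eBall (s * 16 ^ n)) (AnnT s n) := by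
  classical
  induction n with
  | zero => exact fun _ _ _ _ => Set.mem_univ _
  | succ n ih =>
    have h1 : s * 16 ^ n ≤ s * 16 ^ (n + 1) :=
      Nat.mul_le_mul_left s (Nat.pow_le_pow_right (by norm_num) (Nat.le_succ n))
    exact (ih.mono (eBall_subset h1)).inter ((localOn_ann _ _).mono Finset.sdiff_subset)

lemma armBox_subset_annT {s R : ℕ} (hs : 1 ≤ s) (n : ℕ) (h : s * 16 ^ n ≤ R) :
    ArmBox 0 s R ⊆ AnnT s n := by
  induction n with
  | zero => exact Set.subset_univ _
  | succ n ih =>
    have h1 : s * 16 ^ n < s * 16 ^ (n + 1) :=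
      Nat.mul_lt_mul_of_pos_left (Nat.pow_lt_pow_right (by norm_num) (Nat.lt_succ_self n)) hs
    have h2 : s * 16 ^ (n + 1) = 16 * (s * 16 ^ n) := by ring
    have h3 : 1 ≤ s * 16 ^ n := Nat.one_le_iff_ne_zero.2 (by positivity)
    have h4 : s ≤ s * 16 ^ n := Nat.le_mul_of_pos_right s (by positivity)
    exact Set.subset_inter (ih (h1.le.trans h)) (armBox_subset_ann (by omega) (by omega) h)

/-- The sites of the edges of a ball and of the edges off a larger ball. -/
lemma disj_eBall [DecidableEq Edge] (s r : ℕ) :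
    Disjoint (hull (eBall s)) (hull (eBall r \ eBall (s + 2))) := by
  refine disj_hull_of (S := ball 0 (s + 1)) ?_ ?_
  · intro e he
    rw [mem_eBall] at he
    obtain ⟨x, y, b⟩ := e
    cases b <;> simp only [src, tgt, mem_ball, Prod.fst_zero, Prod.snd_zero, if_true,
      Bool.false_eq_true, if_false] at he ⊢ <;> push_cast <;> omega
  · intro e he
    rw [Finset.mem_sdiff, mem_eBall, mem_eBall] at he
    obtain ⟨-, he⟩ := he
    obtain ⟨x, y, b⟩ := e
    cases b <;> simp only [src, tgt, mem_ball, Prod.fst_zero, Prod.snd_zero, if_true,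
      Bool.false_eq_true, if_false] at he ⊢ <;> push_cast at he ⊢ <;> omega

end Pool.Agent.H83.SK

end

section

/-!
# Separated four-arm events for site percolation: definitions

Everything is at the level of the sites: a configuration `w` gives the states of the sites, stored
at the coordinates `sv v`; `sit w` is the induced bond configuration.  Filling a set `Z` means
opening the sites of `Z`.
-/

set_option autoImplicit false

open MeasureTheory ProbabilityTheory unitInterval

namespace Pool.Agent.H38.N59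

open Pool.Agent.H89.Perc
open Pool.Agent.H83.SK (sv sit sit_true)
open Pool.Agent.H59.EX (LocS inE touch clus closeS Side T Mouth Fence dom)

/-! ### Elementary facts -/

end Pool.Agent.H38.N59

end

section

/-!
# Outward separation for sites: definitions and elementary facts for the stages

The corridors and their crossing events are those of the bond setting, evaluated at the induced
configuration.
-/

set_option autoImplicit false

open MeasureTheory ProbabilityTheory unitInterval

namespace Pool.Agent.H38.N59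

open Pool.Agent.H89.Perc
open Pool.Agent.H83.SK (sv sit sit_true RSWreg)
open Pool.Agent.H59.EX (LocS inE touch clus closeS Side T Mouth Fence dom CorrData CorrSep fence_mem mem_sphere_of_joins)

end Pool.Agent.H38.N59

end

end

section

/-! The parts of this file: H13.SK.SigmaUp, H13.SK.BddLoc, H83.SK.P29.NoArm, H38.SK.N59.Defs, H38.SK.N59.Stage. -/

section

/-!
# Upper bound for the mean cluster size of site percolation at a scale where the other colour is
good
-/

set_option autoImplicit false

open MeasureTheory ProbabilityTheory unitInterval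

namespace Pool.Agent.H13.SK

open Pool.Agent.H89.Perc Pool.Agent.H83.Site

end Pool.Agent.H13.SK

end

section

/-! # Russo-Seymour-Welsh for probabilities bounded away from zero, up to a given scale -/

set_option autoImplicit false

open MeasureTheory ProbabilityTheory unitInterval

namespace Pool.Agent.H13.SK

open Pool.Agent.H89.Perc Pool.Agent.H83.Site

end Pool.Agent.H13.SK

end

section

/-!
# Site percolation, RSW regime: annuli which are not crossed, one-arm decay
-/

open MeasureTheory ProbabilityTheory unitInterval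

namespace Pool.Agent.H83.SK

open Pool.Agent.H89.Perc Pool.Agent.H61.NC Pool.Agent.H31.EX

/-- Annulus crossings have probability bounded away from one. -/
theorem armBox_reg_le {c : ℝ} (hc : 0 < c) {n : ℕ} {q : I} (h : RSWreg c n q) {s r : ℕ}
    (hr : 2 * s ≤ r) (hr1 : 1 ≤ r) (hrn : r ≤ n) : Pr q (ArmBox 0 s r) ≤ 1 - c ^ 4 := by
  obtain ⟨m, hm⟩ : ∃ m : ℕ, m = r - s := ⟨_, rfl⟩
  have hm1 : 1 ≤ m := by omega
  have hmn : m ≤ n := by omega
  have hd : (m : ℤ) = r - s := by omega
  have k : ∀ a b y z : ℤ, b - a = 2 * r → z - y = m →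
      c ≤ Pr q {ω | ¬ VCross ω a b y z} ∧ c ≤ Pr q {ω | ¬ HCross ω y z a b} := by
    intro a b y z h1 h2
    exact reg_closed h hm1 hmn (by omega) (by omega) (by omega)
  have h4 := noarm_four (v := 0) (s := s) (r := r) hc.le (q := q)
    (k _ _ _ _ (by ring) (by rw [hd]; ring)).2 (k _ _ _ _ (by ring) (by rw [hd]; ring)).2
    (k _ _ _ _ (by ring) (by rw [hd]; ring)).1 (k _ _ _ _ (by ring) (by rw [hd]; ring)).1
    (by omega)
  rw [Pr_compl (localOn_armBox 0 s r)] at h4
  linarith

/-- Decay of annulus crossings in the box-crossing regime. -/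
theorem armBox_decay0 {c : ℝ} (hc : 0 < c) : ∃ C a : ℝ, 0 < C ∧ 0 < a ∧ a ≤ 1 / 4 ∧
    ∀ (n s R : ℕ) (q : I), RSWreg c n q → 1 ≤ s → s ≤ R → R ≤ n →
      Pr q (ArmBox 0 s R) ≤ C * ((s : ℝ) / R) ^ a := by
  classical
  set c' := min c 1 with hc'
  have hc0 : 0 < c' := lt_min hc one_pos
  have hc1 : c' ≤ 1 := min_le_right _ _
  have hc4 : 0 < c' ^ 4 := by positivity
  have hc41 : c' ^ 4 ≤ 1 := pow_le_one₀ hc0.le hc1
  set t : ℝ := 1 - c' ^ 4 / 2 with ht
  have ht0 : 0 < t := by linarith
  have ht1 : t < 1 := by linarith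
  have hlog : Real.log t < 0 := Real.log_neg ht0 ht1
  have hlog16 : 0 < Real.log 16 := Real.log_pos (by norm_num)
  set a0 : ℝ := - Real.log t / Real.log 16 with ha0
  have ha0p : 0 < a0 := div_pos (neg_pos.2 hlog) hlog16
  refine ⟨1 / t, min a0 (1 / 4), by positivity, lt_min ha0p (by norm_num), min_le_right _ _, ?_⟩
  intro n s R q hreg hs hsR hRn
  have hreg' : RSWreg c' n q := reg_mono_c hreg (min_le_left _ _)
  -- the probability of the intersection of the annulus events
  have key : ∀ k : ℕ, s * 16 ^ k ≤ n → Pr q (AnnT s k) ≤ t ^ k := by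
    intro k
    induction k with
    | zero => intro _; rw [pow_zero]; exact Pr_le_one
    | succ k ih =>
      intro hk
      have hle : s * 16 ^ k ≤ s * 16 ^ (k + 1) :=
        Nat.mul_le_mul_left s (Nat.pow_le_pow_right (by norm_num) (Nat.le_succ k))
      have h1 : Pr q (AnnT s (k + 1)) =
          Pr q (AnnT s k) * Pr q (Ann (s * 16 ^ k + 2) (s * 16 ^ (k + 1))) :=
        Pr_inter_of_disjoint (localOn_annT s k) (localOn_ann _ _) (disj_eBall _ _)
      have h2 : Pr q (Ann (s * 16 ^ k + 2) (s * 16 ^ (k + 1))) ≤ t := by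
        have h6 : 1 ≤ 16 ^ k := Nat.one_le_pow _ _ (by norm_num)
        have h5 : 1 ≤ s * 16 ^ k := Nat.one_le_iff_ne_zero.2 (by positivity)
        have h7 : s * 16 ^ (k + 1) = 16 * (s * 16 ^ k) := by ring
        have h3 : 2 * (s * 16 ^ k + 2 + 1) ≤ s * 16 ^ (k + 1) := by omega
        have h4 := armBox_reg_le hc0 hreg' h3 (by omega) hk
        have h5 : Pr q (Ann (s * 16 ^ k + 2) (s * 16 ^ (k + 1))) ≤
            Pr q (ArmBox 0 (s * 16 ^ k + 2 + 1) (s * 16 ^ (k + 1))) :=
          Pr_mono (ann_subset_armBox _ _)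
        linarith
      rw [h1, pow_succ]
      exact mul_le_mul (ih (hle.trans hk)) h2 Pr_nonneg (pow_nonneg ht0.le k)
  set k := Nat.log 16 (R / s) with hk
  have hRs : R / s ≠ 0 := by
    have : 0 < R / s := Nat.div_pos hsR hs
    omega
  have hk1 : s * 16 ^ k ≤ R := by
    have h1 : 16 ^ k ≤ R / s := Nat.pow_log_le_self 16 hRs
    calc s * 16 ^ k ≤ s * (R / s) := Nat.mul_le_mul_left s h1
      _ ≤ R := Nat.mul_div_le R s
  have hk2 : R < s * 16 ^ (k + 1) := by
    have h1 : R / s < 16 ^ (k + 1) := Nat.lt_pow_succ_log_self (by norm_num) (R / s)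
    rw [mul_comm]
    exact (Nat.div_lt_iff_lt_mul hs).1 h1
  have h1 : Pr q (ArmBox 0 s R) ≤ t ^ k :=
    (Pr_mono (armBox_subset_annT hs k hk1)).trans (key k (hk1.trans hRn))
  have hs0 : (0 : ℝ) < s := by exact_mod_cast hs
  have hR0 : (0 : ℝ) < R := by exact_mod_cast (by omega : 0 < R)
  have hx0 : 0 < (s : ℝ) / R := by positivity
  have hx1 : (s : ℝ) / R ≤ 1 := by
    rw [div_le_one hR0]
    exact_mod_cast hsR
  have hx2 : ((16 : ℝ) ^ (k + 1))⁻¹ ≤ (s : ℝ) / R := by
    rw [inv_eq_one_div, div_le_div_iff₀ (by positivity) hR0, one_mul]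
    exact_mod_cast hk2.le
  have h2 : t ^ (k + 1) ≤ ((s : ℝ) / R) ^ a0 := by
    have h3 : (((16 : ℝ) ^ (k + 1))⁻¹) ^ a0 = t ^ (k + 1) := by
      rw [Real.inv_rpow (by positivity), ← Real.rpow_natCast (16 : ℝ) (k + 1),
        ← Real.rpow_mul (by norm_num), mul_comm, Real.rpow_mul (by norm_num), Real.rpow_natCast,
        ← inv_pow]
      congr 1
      rw [Real.rpow_def_of_pos (by norm_num)]
      have : Real.log 16 * a0 = - Real.log t := by
        rw [ha0]; field_simp
      rw [this, Real.exp_neg, Real.exp_log ht0, inv_inv]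
    rw [← h3]
    exact Real.rpow_le_rpow (by positivity) hx2 ha0p.le
  have h3 : ((s : ℝ) / R) ^ a0 ≤ ((s : ℝ) / R) ^ (min a0 (1 / 4)) :=
    Real.rpow_le_rpow_of_exponent_ge hx0 hx1 (min_le_left _ _)
  calc Pr q (ArmBox 0 s R) ≤ t ^ k := h1
    _ = 1 / t * t ^ (k + 1) := by rw [pow_succ]; field_simp
    _ ≤ _ := mul_le_mul_of_nonneg_left (h2.trans h3) (by positivity)

/-- One-arm decay in the regime. -/
theorem armBox_decay (c : ℝ) (hc : 0 < c) (K : ℕ) : ∃ C κ : ℝ, 0 < C ∧ 0 < κ ∧
    ∀ (n : ℕ) (q : I), 1 ≤ n → RSWreg c n q → ∀ (v : Vert) (s r : ℕ), 1 ≤ s → s ≤ r → r ≤ K * n →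
      Pr q (ArmBox v s r) ≤ C * ((s : ℝ) / r) ^ κ := by
  obtain ⟨c', hc', H⟩ := noarm_ext hc K
  obtain ⟨C, κ, hC, hκ, -, H2⟩ := armBox_decay0 hc'
  refine ⟨C, κ, hC, hκ, fun n q hn h v s r hs hsr hr => ?_⟩
  rw [Pr_armBox]
  exact H2 (K * n) s r q (H n q hn h) hs hsr hr

end Pool.Agent.H83.SK

end

section

/-!
# Separated four-arm events for site percolation: definitions

Everything is at the level of the sites: a configuration `w` gives the states of the sites, stored
at the coordinates `sv v`; `sit w` is the induced bond configuration.  Filling a set `Z` means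
opening the sites of `Z`.
-/

set_option autoImplicit false

open MeasureTheory ProbabilityTheory unitInterval

namespace Pool.Agent.H38.N59

open Pool.Agent.H89.Perc
open Pool.Agent.H83.SK (sv sit sit_true)
open Pool.Agent.H59.EX (LocS inE touch clus closeS Side T Mouth Fence dom)

/-! ### Elementary facts -/

end Pool.Agent.H38.N59

end

section

/-!
# Outward separation for sites: definitions and elementary facts for the stages

The corridors and their crossing events are those of the bond setting, evaluated at the induced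
configuration.
-/

set_option autoImplicit false

open MeasureTheory ProbabilityTheory unitInterval

namespace Pool.Agent.H38.N59

open Pool.Agent.H89.Perc
open Pool.Agent.H83.SK (sv sit sit_true RSWreg)
open Pool.Agent.H59.EX (LocS inE touch clus closeS Side T Mouth Fence dom CorrData CorrSep clus_sub clus_step clus_conn mem_clus_single fence_mem corr_inter corr_far corr_sub160 mem_sphere_of_joins)

end Pool.Agent.H38.N59

end

end
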