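import Pool.Agent.H94.BG.H31.PT.M06_2
import Pool.Agent.H94.BG.H31.PT.M07_2
import Pool.Agent.H94.BG.H31.PT.M07_6
import Pool.Agent.H94.BG.H31.PT.M08_7
import Pool.Agent.H94.BG.H31.PT.M11_5
import Pool.Agent.H94.BG.H31.PT.M12
import Pool.Agent.H94.BG.M22
import Pool.Agent.H94.BG.M23

/-! The parts of this file: H31.PT.M12_1, H31.PT.M12_3, H31.PT.M25_6. -/

section

/-! The parts of this file: H13.SK.SigmaSum, H83.Site.FSstrong, H13.SK.Good, H83.SK.P57.Chain, H83.SK.PHP.Reg, H83.SK.PHP.One, H38.SK.N59.Corr, H38.SK.N59.Sym, H38.SK.N59.Bad, H38.SK.N59.St3, H38.SK.N59.St1. -/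

section

/-!
# Upper bound for the mean cluster size: summation
-/

set_option autoImplicit false

open MeasureTheory ProbabilityTheory unitInterval

namespace Pool.Agent.H13.SK

open Pool.Agent.H89.Perc Pool.Agent.H83.Site

end Pool.Agent.H13.SK

end

section

/-! # Finite size criterion with arms -/

set_option autoImplicit false

open MeasureTheory ProbabilityTheory unitInterval

namespace Pool.Agent.H83.Site

open Pool.Agent.H89.Perc

theorem fs_strong {p₀ : I} {r : Bool} (h : BXP p₀ r) : ∃ ε > (0 : ℝ), ∃ c > (0 : ℝ),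
    ∀ p : I, p₀ ≤ p → ∀ m : ℕ, 1 ≤ m →
      1 - ε ≤ PT p r {η | HC η m (25 * m) (-m) (4 * m)} → c * ab p r 0 m ≤ thT p r := by
  obtain ⟨c₀, hc₀, hB⟩ := h 4
  obtain ⟨c₁, hc₁, hA⟩ := arm_extT h
  refine ⟨1 / 242, by norm_num, c₀ ^ 4 * (1 / 2) * (c₁ * Real.sqrt (1 / 48)), by positivity, ?_⟩
  intro p hp m hm hHC
  set M : ℕ := 5 * m + 1 with hM
  have hM1 : 1 ≤ M := by omega
  -- the failure probability
  have hq : qc p r M ≤ 1 / 242 := by
    rw [qc_eq p r hM1]
    have h1 : PT p r {η | HC η m (25 * m) (-m) (4 * m)} ≤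
        PT p r {η | HC η 0 (4 * (M : ℕ)) 1 (M : ℕ)} := by
      rw [← PT_HC_shf p r 0 (4 * (M : ℕ)) 1 (M : ℕ) m (-m - 1)]
      refine PT_mono fun η hη => ?_
      simp only [Set.mem_ofPred_eq] at hη ⊢
      refine hη.mono (by omega) (by omega) (by rw [hM]; push_cast; omega) (by omega)
        (by rw [hM]; push_cast; omega)
    have h2 : PT p r {η | HC η 0 (4 * (M : ℕ)) 1 (M : ℕ)} = PT p r {η | HC η 0 (4 * M) 1 M} := rfl
    linarith only [hHC, h1]
  -- connection to distance `N`
  refine le_thT (n₀ := 8 * M) ?_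
  intro N hN
  have h1 : 1 / 2 ≤ ab p r (4 * M) N := fs_chain hM1 hq (by omega)
  have h2 : c₀ ^ 4 ≤ PT p r (CircE (4 * M)) := circ_prob hc₀ hB hp (by omega)
  have h3 : c₁ * Real.sqrt ((m : ℝ) / (8 * M : ℕ)) * ab p r 0 m ≤ ab p r 0 (8 * M) :=
    hA p hp m (8 * M) hm (by omega)
  have h4 : Real.sqrt (1 / 48) ≤ Real.sqrt ((m : ℝ) / (8 * M : ℕ)) := by
    apply Real.sqrt_le_sqrt
    have hm0 : (1 : ℝ) ≤ m := by exact_mod_cast hm
    rw [div_le_div_iff₀ (by norm_num) (by positivity)]
    rw [hM]; push_cast; nlinarith only [hm0]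
  have hloc1 := localOn_AB 0 0 0 (8 * M)
  have hloc2 := localOn_CircE (4 * M)
  have hloc3 := localOn_AB 0 0 (4 * M) N
  have h5 : PT p r (AB 0 0 0 (8 * M)) * PT p r (CircE (4 * M)) ≤
      PT p r (AB 0 0 0 (8 * M) ∩ CircE (4 * M)) :=
    PT_fkg hloc1 hloc2 (incr_AB _ _ _ _) (incr_CircE _)
  have hloc12 : LocalOn (eRect (0 - (8 * M : ℕ)) (0 + (8 * M : ℕ)) (0 - (8 * M : ℕ))
      (0 + (8 * M : ℕ)) ∪ eRect (-(2 * (4 * M : ℕ))) (2 * (4 * M : ℕ)) (-(2 * (4 * M : ℕ)))
      (2 * (4 * M : ℕ))) (AB 0 0 0 (8 * M) ∩ CircE (4 * M)) := by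
    classical
    exact (hloc1.mono Finset.subset_union_left).inter (hloc2.mono Finset.subset_union_right)
  have h6 : PT p r (AB 0 0 0 (8 * M) ∩ CircE (4 * M)) * PT p r (AB 0 0 (4 * M) N) ≤
      PT p r ((AB 0 0 0 (8 * M) ∩ CircE (4 * M)) ∩ AB 0 0 (4 * M) N) :=
    PT_fkg hloc12 hloc3 ((incr_AB _ _ _ _).inter (incr_CircE _)) (incr_AB _ _ _ _)
  have h7 : PT p r ((AB 0 0 0 (8 * M) ∩ CircE (4 * M)) ∩ AB 0 0 (4 * M) N) ≤ ab p r 0 N := by
    refine PT_mono ?_
    rintro η ⟨⟨ha, hb⟩, hc⟩
    refine arm_glue (s := 4 * M) (by omega) (by omega) (by omega) hb ?_ hc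
    have : 2 * (4 * M) = 8 * M := by ring
    rw [this]; exact ha
  have hab0 : 0 ≤ ab p r 0 m := ab_nonneg
  have hab1 : 0 ≤ ab p r 0 (8 * M) := ab_nonneg
  have h8 : (c₁ * Real.sqrt (1 / 48)) * ab p r 0 m ≤ PT p r (AB 0 0 0 (8 * M)) := by
    refine le_trans ?_ h3
    gcongr
  have hx0 : 0 ≤ (c₁ * Real.sqrt (1 / 48)) * ab p r 0 m := by positivity
  calc c₀ ^ 4 * (1 / 2) * (c₁ * Real.sqrt (1 / 48)) * ab p r 0 m
      = ((c₁ * Real.sqrt (1 / 48)) * ab p r 0 m) * c₀ ^ 4 * (1 / 2) := by ring
    _ ≤ PT p r (AB 0 0 0 (8 * M)) * PT p r (CircE (4 * M)) * PT p r (AB 0 0 (4 * M) N) := by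
        have h9 : ((c₁ * Real.sqrt (1 / 48)) * ab p r 0 m) * c₀ ^ 4 ≤
            PT p r (AB 0 0 0 (8 * M)) * PT p r (CircE (4 * M)) :=
          mul_le_mul h8 h2 (by positivity) PT_nonneg
        exact mul_le_mul h9 h1 (by norm_num) (mul_nonneg PT_nonneg PT_nonneg)
    _ ≤ PT p r (AB 0 0 0 (8 * M) ∩ CircE (4 * M)) * PT p r (AB 0 0 (4 * M) N) :=
        mul_le_mul_of_nonneg_right h5 PT_nonneg
    _ ≤ _ := h6.trans h7

end Pool.Agent.H83.Site

end

section

/-!
# Good scales of site percolation

`Good δ p r m`: the square of side `4 m` is crossed with probability at least `1 - δ` by paths of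
the colour `r` (`r = false`: open sites of the square lattice, `r = true`: sites of the matching
lattice).
-/

set_option autoImplicit false

open MeasureTheory ProbabilityTheory unitInterval

namespace Pool.Agent.H13.SK

open Pool.Agent.H89.Perc Pool.Agent.H83.Site

/-- At a good scale the percolation probability is comparable to the one-arm probability. -/
theorem theta_low {p₀ : I} {r : Bool} (h : BXP p₀ r) : ∃ δ > (0 : ℝ), ∃ c > (0 : ℝ),
    ∀ p : I, p₀ ≤ p → ∀ m : ℕ, 1 ≤ m → Good δ p r m → c * ab p r 0 m ≤ thT p r := by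
  obtain ⟨ε, hε, c, hc, H⟩ := fs_strong h
  refine ⟨(ε / 100) ^ 2, by positivity, c, hc, fun p hp m hm hg => H p hp m hm ?_⟩
  have h1 := good_long (by positivity) hm hg
  rw [Real.sqrt_sq (by positivity)] at h1
  have h2 : PT p r {η | HC η 0 (24 * m) 0 (4 * m)} ≤
      PT p r {η | HC η m (25 * m) (-m) (4 * m)} := by
    rw [← PT_HC_shf p r 0 (24 * m) 0 (4 * m) m 0]
    refine PT_mono fun η hη => ?_
    simp only [Set.mem_ofPred_eq] at hη ⊢
    exact hη.mono (by omega) (by omega) (by omega) (by omega) (by omega)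
  linarith only [h1, h2]

end Pool.Agent.H13.SK

end

section

/-!
# Chains of circuits
-/

open MeasureTheory ProbabilityTheory unitInterval

namespace Pool.Agent.H83.SK

open Pool.Agent.H57.EX

open Pool.Agent.H89.Perc Pool.Agent.H61.NC Pool.Agent.H29.Sep

end Pool.Agent.H83.SK

end

section

/-!
# Site percolation, box-crossing regime: blocking, decay, half circuits
-/

open MeasureTheory ProbabilityTheory unitInterval

namespace Pool.Agent.H83.SK

open Pool.Agent.H26.HP

open Pool.Agent.H89.Perc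

variable {ω ω' : Config} {D X S : Set Vert} {R n : ℕ} {q : I} {c : ℝ}

lemma hreg_le_one (h : RSWreg c n q) (hn : 1 ≤ n) : c ≤ 1 :=
  ((h 1 le_rfl hn).1).trans Pr_le_one

/-- The complement has probability at least `c⁴`. -/
theorem hnoCross_reg (hc : 0 < c) (h : RSWreg c n q) {s r : ℕ} (hr : 2 * s ≤ r) (hr1 : 1 ≤ r)
    (hrn : r ≤ n) : c ^ 4 ≤ Pr q (ArmBox 0 s r)ᶜ := by
  rw [Pr_compl (localOn_armBox 0 s r)]
  linarith only [hc, h, hr, hr1, hrn, armBox_reg_le hc h hr hr1 hrn]

/-- Polynomial decay of annulus crossings in the box-crossing regime. -/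
theorem hdecay (c : ℝ) (hc : 0 < c) : ∃ C κ : ℝ, 0 < C ∧ 0 < κ ∧ κ ≤ 1 ∧
    ∀ (n : ℕ) (q : I), RSWreg c n q → ∀ s r : ℕ, 1 ≤ s → s ≤ r → r ≤ n →
      Pr q (ArmBox 0 s r) ≤ C * ((s : ℝ) / r) ^ κ := by
  obtain ⟨C, a, hC, ha, ha4, h⟩ := armBox_decay0 hc
  exact ⟨C, a, hC, ha, by linarith, fun n q hreg s r hs hsr hrn => h n s r q hreg hs hsr hrn⟩

theorem hHC_ge (hc : 0 < c) {s : ℕ} (hs : 1 ≤ s) (h : RSWreg c s q) : c ^ 3 ≤ Pr q (HC s) := by
  classical
  have k2 : c ≤ Pr q {ω | HCross ω (-(2 * (s : ℤ))) (2 * s) s (2 * s)} :=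
    reg_hcross h hs le_rfl (by omega) (by omega) (by omega)
  have k1 : c ≤ Pr q {ω | VCross ω (-(2 * (s : ℤ))) (-s) 0 (2 * s)} :=
    reg_vcross h hs le_rfl (by omega) (by omega) (by omega)
  have k3 : c ≤ Pr q {ω | VCross ω (s : ℤ) (2 * s) 0 (2 * s)} :=
    reg_vcross h hs le_rfl (by omega) (by omega) (by omega)
  have h12 := fkg (p := q) (localOn_vcross (-(2 * (s : ℤ))) (-s) 0 (2 * s))
    (localOn_hcross (-(2 * (s : ℤ))) (2 * s) s (2 * s)) (incr_vcross _ _ _ _) (incr_hcross _ _ _ _)
  have h123 := fkg (p := q) ((localOn_vcross (-(2 * (s : ℤ))) (-s) 0 (2 * s)).inter'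
    (localOn_hcross (-(2 * (s : ℤ))) (2 * s) s (2 * s))) (localOn_vcross (s : ℤ) (2 * s) 0 (2 * s))
    ((incr_vcross _ _ _ _).inter (incr_hcross _ _ _ _)) (incr_vcross _ _ _ _)
  have h12' := (mul_le_mul k1 k2 hc.le Pr_nonneg).trans h12
  have h' := (mul_le_mul h12' k3 hc.le Pr_nonneg).trans h123
  have e : c ^ 3 = c * c * c := by ring
  rw [e]
  exact h'

end Pool.Agent.H83.SK

end

section

/-!
# Half plane, one arm with a free side: the exponent is one

`E1 R z`: the cluster of `(z, 0)` in the half ball of radius `R` reaches distance `R` and does not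
touch the base to the right of `(z, 0)`.  Its probability is at most `C / R`.
-/

open MeasureTheory ProbabilityTheory unitInterval

namespace Pool.Agent.H83.SK

open Pool.Agent.H26.HP

open Pool.Agent.H89.Perc

variable {ω ω' : Config} {D X S : Set Vert} {R n : ℕ} {q : I} {c : ℝ}

lemma Pr_E1 (R : ℕ) (z : ℤ) : Pr q (E1 R z) = Pr q (E1 R 0) := by
  rw [← E1_shift R z, Pr_comp (localOn_E1 R) (isAut_shift _)]

/-- The main bound at scale `9 n`. -/
theorem E1_scale (hc : 0 < c) (hn : 1 ≤ n) (hreg : RSWreg c (8 * n) q) :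
    (2 * (n : ℝ) + 1) * (c ^ 4 * Pr q (E1 (9 * n) 0)) ≤ 1 := by
  classical
  set D : Set Vert := hb 0 (8 * n) with hD
  have hDR : D ⊆ ball 0 (8 * n) := hb_subset_ball (by simp)
  -- the events
  set A : ℤ → Set Config := fun z => {ω | (∃ w ∈ sphere 0 (8 * n), Conn ω D (z, 0) w) ∧
    ∀ x : ℤ, z < x → x ≤ n → ¬ Conn ω D (z, 0) (x, 0)} with hA
  set B : ℤ → Set Config := fun z => {ω | (∃ w ∈ sphere 0 (8 * n), Conn ω D (z, 0) w) ∧
    ∀ x : ℤ, z < x → x ≤ n → ¬ ∃ w ∈ sphere 0 (8 * n), Conn ω D (x, 0) w} with hB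
  have h0 : ∀ z : ℤ, -(n : ℤ) ≤ z → z ≤ n → c ^ 4 * Pr q (A z) ≤ Pr q (B z) := by
    intro z hz1 hz2
    set Φ : Set Vert → Prop := fun S => (∃ w ∈ sphere 0 (8 * n), w ∈ S) ∧
      ∀ x : ℤ, z < x → x ≤ n → ((x, 0) : Vert) ∉ S with hΦ
    refine explore (X := {(z, 0)}) (A' := fun S _ => {ω | Φ S})
      (G := fun S U => {ω | Φ S ∧ ∀ x : ℤ, z < x → x ≤ n →
        ¬ ∃ w ∈ sphere 0 (8 * n), Conn ω (D \ U) (x, 0) w}) hDR (by positivity) ?_ ?_ ?_ ?_ ?_
    · rintro ω ⟨⟨w, hw, h1⟩, h2⟩
      refine ⟨⟨w, hw, (z, 0), rfl, h1⟩, ?_⟩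
      rintro x h3 h4 ⟨_, rfl, h5⟩
      exact h2 x h3 h4 h5
    · intro S U ω ω' _ h
      exact h
    · rintro S U ω ω' hω ⟨h1, h2⟩
      refine ⟨h1, fun x h3 h4 => ?_⟩
      rintro ⟨w, hw, h5⟩
      refine h2 x h3 h4 ⟨w, hw, ?_⟩
      exact localOn_conn_in (Set.sdiff_subset.trans hDR) _ _ ω' ω (fun e he => (hω e he).symm) h5
    · intro S U _
      by_cases hS : Φ S
      · have e1 : {ω : Config | Φ S} = Set.univ := by
          ext ω; simp [hS]
        rw [e1, Pr_univ, mul_one]
        refine (hnoCross_reg hc hreg (s := n) (r := 8 * n) (by omega) (by omega) le_rfl).trans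
          (Pr_mono ?_)
        intro ω hω
        refine ⟨hS, fun x h3 h4 => ?_⟩
        rintro ⟨w, hw, h5⟩
        apply hω
        refine ⟨(x, 0), ?_, w, hw, h5.mono_set (Set.sdiff_subset.trans hDR)⟩
        simp only [mem_ball, Prod.fst_zero, Prod.snd_zero]
        omega
      · have e1 : {ω : Config | Φ S} = ∅ := by
          ext ω; simp [hS]
        rw [e1]
        rw [Pr_empty, mul_zero]
        exact Pr_nonneg
    · rintro ω ⟨⟨⟨w, hw, _, rfl, h1⟩, h2⟩, h3⟩
      refine ⟨⟨w, hw, h1⟩, fun x h4 h5 => ?_⟩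
      rintro ⟨w', hw', h6⟩
      refine h3 x h4 h5 ⟨w', hw', conn_offU (h2 x h4 h5) ?_ h6⟩
      rintro rfl
      have k := hw'.2
      simp only [Prod.fst_zero, Prod.snd_zero] at k
      push_cast at k
      omega
  -- disjointness
  have hsum : ∑ z ∈ Finset.Icc (-(n : ℤ)) n, Pr q (B z) ≤ 1 := by
    have hd : Set.PairwiseDisjoint (↑(Finset.Icc (-(n : ℤ)) n)) B := by
      intro z hz z' hz' hne
      rw [Finset.coe_Icc, Set.mem_Icc] at hz hz'
      rw [Function.onFun, Set.disjoint_left]
      rintro ω ⟨h1, h2⟩ ⟨h3, h4⟩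
      rcases lt_or_gt_of_ne hne with h | h
      · exact h2 z' h hz'.2 h3
      · exact h4 z h hz.2 h1
    have hm : ∀ z ∈ Finset.Icc (-(n : ℤ)) n, LocalOn (eIn (8 * n) D) (B z) := by
      intro z _
      have : LocalOn (eIn (8 * n) D) (B z) := by
        rintro ω ω' hω ⟨⟨w, hw, h1⟩, h2⟩
        refine ⟨⟨w, hw, localOn_conn_in hDR _ _ ω ω' hω h1⟩, fun x h3 h4 => ?_⟩
        rintro ⟨w', hw', h6⟩
        exact h2 x h3 h4 ⟨w', hw', localOn_conn_in hDR _ _ ω' ω (fun e he => (hω e he).symm) h6⟩
      exact this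
    rw [← Pr_biUnion (p := q) _ B _ hm fun i hi j hj hij =>
      hd (Finset.mem_coe.2 hi) (Finset.mem_coe.2 hj) hij]
    exact Pr_le_one
  -- comparison
  have hle : ∀ z ∈ Finset.Icc (-(n : ℤ)) n, c ^ 4 * Pr q (E1 (9 * n) 0) ≤ Pr q (B z) := by
    intro z hz
    rw [Finset.mem_Icc] at hz
    refine le_trans ?_ (h0 z hz.1 hz.2)
    refine mul_le_mul_of_nonneg_left ?_ (by positivity)
    rw [← Pr_E1 (9 * n) z]
    refine Pr_mono ?_
    rintro ω ⟨⟨w, hw, h1⟩, h2⟩
    have habs : |z - 0| + ((8 * n : ℕ) : ℤ) ≤ ((9 * n : ℕ) : ℤ) := by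
      push_cast
      rcases abs_cases (z - 0) with ⟨h4, h5⟩ | ⟨h4, h5⟩ <;> rw [h4] <;> omega
    refine ⟨?_, fun x h3 h4 h5 => ?_⟩
    · refine reach_restrict habs ?_ hw h1
      simp only [mem_ball]
      push_cast
      omega
    · exact h2 x h3 (by push_cast; omega) (h5.mono_set (hb_subset_hb habs))
  calc (2 * (n : ℝ) + 1) * (c ^ 4 * Pr q (E1 (9 * n) 0))
      = ∑ _z ∈ Finset.Icc (-(n : ℤ)) n, c ^ 4 * Pr q (E1 (9 * n) 0) := by
        rw [Finset.sum_const, Int.card_Icc, nsmul_eq_mul]
        congr 1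
        have : ((n : ℤ) + 1 - -(n : ℤ)).toNat = 2 * n + 1 := by omega
        rw [this]
        push_cast
        ring
    _ ≤ ∑ z ∈ Finset.Icc (-(n : ℤ)) n, Pr q (B z) := Finset.sum_le_sum hle
    _ ≤ 1 := hsum

/-- **(H1)** The one-arm event with a free side has probability at most `C / R`. -/
theorem E1_le (hc : 0 < c) (hR : 1 ≤ R) (hreg : RSWreg c R q) (z : ℤ) :
    Pr q (E1 R z) ≤ 9 / (c ^ 4 * R) := by
  rw [Pr_E1]
  have hc1 : c ≤ 1 := hreg_le_one hreg hR
  have hc4 : c ^ 4 ≤ 1 := pow_le_one₀ hc.le hc1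
  have hc40 : 0 < c ^ 4 := by positivity
  have hR0 : (0 : ℝ) < R := by exact_mod_cast hR
  rw [le_div_iff₀ (by positivity)]
  by_cases h9 : R < 9
  · have h1 : (R : ℝ) ≤ 9 := by exact_mod_cast h9.le
    calc Pr q (E1 R 0) * (c ^ 4 * R) ≤ 1 * (1 * 9) := by
          refine mul_le_mul Pr_le_one (mul_le_mul hc4 h1 hR0.le zero_le_one) (by positivity)
            zero_le_one
      _ = 9 := by norm_num
  · set n := R / 9 with hn
    have hn1 : 1 ≤ n := by omega
    have hnR : 9 * n ≤ R := by omega
    have h1 := E1_scale (q := q) hc hn1 (rswreg_mono hreg (by omega))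
    have h2 : Pr q (E1 R 0) ≤ Pr q (E1 (9 * n) 0) := Pr_mono (E1_anti hnR 0)
    have h3 : (R : ℝ) ≤ 9 * (2 * (n : ℝ) + 1) := by
      have : R ≤ 9 * (2 * n + 1) := by omega
      exact_mod_cast this
    calc Pr q (E1 R 0) * (c ^ 4 * R) ≤ Pr q (E1 (9 * n) 0) * (c ^ 4 * (9 * (2 * (n : ℝ) + 1))) := by
          refine mul_le_mul h2 (mul_le_mul_of_nonneg_left h3 hc40.le) (by positivity) Pr_nonneg
      _ = 9 * ((2 * (n : ℝ) + 1) * (c ^ 4 * Pr q (E1 (9 * n) 0))) := by ring
      _ ≤ 9 * 1 := by linarith only [h1]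
      _ = 9 := by norm_num

end Pool.Agent.H83.SK

end

section

/-!
# The corridor lemma for site percolation

`pb π w` is the configuration `g ↦ w (π g)`.  Given a separated four-arm event, increasing events of
the sites of the corridor `C` and arbitrary events `H` of the sites which are neither in `C` nor in
or adjacent (in the domain) to the two clusters (with filled targets) can be added at the cost of
constant factors.
-/

set_option autoImplicit false

open MeasureTheory ProbabilityTheory unitInterval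

namespace Pool.Agent.H38.N59

open Pool.Agent.H89.Perc
open Pool.Agent.H83.SK (sv sit sit_true RSWreg)
open Pool.Agent.H59.EX (LocS inE touch clus closeS Side T Mouth Fence dom pb sat fkg_cond markov_indep)

end Pool.Agent.H38.N59

end

section

/-!
# Symmetries of the separated events for sites, sum over sides
-/

set_option autoImplicit false

open MeasureTheory ProbabilityTheory unitInterval

namespace Pool.Agent.H38.N59

open Pool.Agent.H89.Perc
open Pool.Agent.H61.NC hiding RSWreg
open Pool.Agent.H83.SK (sv sit sit_true RSWreg)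
open Pool.Agent.H59.EX (LocS inE touch clus closeS Side T Mouth Fence dom OnSide fence_mem)

/-! ### The action on the constructions -/

end Pool.Agent.H38.N59

end

section

/-!
# Bad events for sites: two clusters close to the same vertex of the sphere
-/

set_option autoImplicit false

open MeasureTheory ProbabilityTheory unitInterval

namespace Pool.Agent.H38.N59

open Pool.Agent.H89.Perc
open Pool.Agent.H61.NC hiding RSWreg
open Pool.Agent.H83.SK (sv sit sit_true RSWreg)
open Pool.Agent.H59.EX (LocS inE touch clus closeS Side T Mouth Fence dom CorrData CorrSep mem_clus_single clus_conn)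
open Pool.Agent.H29.Sep (LocTwo)

end Pool.Agent.H38.N59

end

section

/-!
# Outward separation for sites: stage 3
-/

set_option autoImplicit false

open MeasureTheory ProbabilityTheory unitInterval

namespace Pool.Agent.H38.N59

open Pool.Agent.H89.Perc
open Pool.Agent.H83.SK (sv sit sit_true RSWreg)
open Pool.Agent.H59.EX (LocS inE touch clus closeS Side T Mouth Fence dom CorrData CorrSep mem_clus_single corr_inter corr_sub160 markov_incr clus_sub)

end Pool.Agent.H38.N59

end

section

/-!
# Outward separation for sites: stage 1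
-/

set_option autoImplicit false

open MeasureTheory ProbabilityTheory unitInterval

namespace Pool.Agent.H38.N59

open Pool.Agent.H89.Perc
open Pool.Agent.H83.SK (sv sit sit_true RSWreg)
open Pool.Agent.H59.EX (LocS inE touch clus closeS Side T Mouth Fence dom CorrData CorrSep mem_clus_single corr_inter corr_sub160 markov_incr)

end Pool.Agent.H38.N59

end

end

section

/-! The parts of this file: H13.SK.SigmaSum, H83.Site.FSstrong, H13.SK.Good, H83.SK.P57.Chain, H83.SK.PHP.Reg, H83.SK.PHP.One, H38.SK.N59.Corr, H38.SK.N59.Sym, H38.SK.N59.Bad, H38.SK.N59.St3, H38.SK.N59.St1. -/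

section

/-!
# Upper bound for the mean cluster size: summation
-/

set_option autoImplicit false

open MeasureTheory ProbabilityTheory unitInterval

namespace Pool.Agent.H13.SK

open Pool.Agent.H89.Perc Pool.Agent.H83.Site

theorem bx_mono {n m : ℕ} (h : n ≤ m) : bx n ⊆ bx m := by
  intro v hv
  rw [mem_bx] at hv ⊢
  omega

/-- Near points. -/
theorem near_sum {p₀ : I} {r : Bool} (h : BXP p₀ r) : ∃ C > (0 : ℝ), ∀ p : I, p ≤ p₀ →
    ∀ m : ℕ, 1 ≤ m → ∑ v ∈ bx (4 * m), PT p r (C0 v) ≤ C * (m : ℝ) ^ 2 * ab p₀ r 0 m ^ 2 := by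
  classical
  obtain ⟨C₀, hC₀, hreg⟩ := arm_reg h
  obtain ⟨C₁, hC₁, hlow⟩ := arm_low h
  obtain ⟨C, hC⟩ : ∃ C, C = C₀ + C₁ := ⟨_, rfl⟩
  have hCp : 0 < C := by rw [hC]; positivity
  refine ⟨132 * C, by positivity, fun p hp m hm => ?_⟩
  have hmp : (1 : ℝ) ≤ m := by exact_mod_cast hm
  set π := ab p₀ r 0 m with hπ
  have hπ0 : 0 ≤ π := ab_nonneg
  have h1 : ∀ v ∈ bx (4 * m), PT p r (C0 v) ≤ 4 * C * m * π ^ 2 * (1 / ((nrm v : ℝ) + 1)) := by
    intro v hv
    rw [mem_bx] at hv
    set n := nrm v with hn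
    set s := min ((n - 1) / 2) m with hs
    have h2 : PT p r (C0 v) ≤ C * (m / (s + 1)) * π ^ 2 := by
      rcases Nat.eq_zero_or_pos n with h0 | h0
      · have hs0 : s = 0 := by rw [hs, h0]; simp
        rw [hs0]
        have h3 := hlow m hm
        have h4 : PT p r (C0 v) ≤ 1 := PT_le_one
        have h5 : 0 ≤ C₀ * m * π ^ 2 := by positivity
        rw [hC]
        push_cast
        rw [zero_add, div_one]
        nlinarith only [h3, h4, h5]
      · refine (two_arms p r (by omega)).trans ((hreg p hp m s hm (min_le_right _ _)).trans ?_)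
        gcongr
        linarith only [hC₁, hC]
    have h3 : n + 1 ≤ 4 * (s + 1) := by omega
    have h4 : (n : ℝ) + 1 ≤ 4 * ((s : ℝ) + 1) := by exact_mod_cast h3
    have h5 : (m : ℝ) / (s + 1) ≤ 4 * m * (1 / ((n : ℝ) + 1)) := by
      rw [mul_one_div, div_le_div_iff₀ (by positivity) (by positivity)]
      nlinarith only [h4]
    calc PT p r (C0 v) ≤ C * (m / (s + 1)) * π ^ 2 := h2
      _ ≤ C * (4 * m * (1 / ((n : ℝ) + 1))) * π ^ 2 := by gcongr
      _ = _ := by ring
  refine (Finset.sum_le_sum h1).trans ?_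
  rw [← Finset.mul_sum]
  have h6 := sum_box (4 * m)
  push_cast at h6
  have h7 : 8 * (4 * (m : ℝ)) + 1 ≤ 33 * m := by linarith only [hmp]
  calc 4 * C * m * π ^ 2 * ∑ v ∈ bx (4 * m), 1 / ((nrm v : ℝ) + 1)
      ≤ 4 * C * m * π ^ 2 * (33 * m) := by
        gcongr
        exact h6.trans h7
    _ = 132 * C * m ^ 2 * π ^ 2 := by ring

/-- **Upper bound for the sum of the two-point function.** -/
theorem sum_upper {p₀ : I} {r : Bool} (h : BXP p₀ r) : ∃ C > (0 : ℝ), ∀ p : I, p ≤ p₀ →
    ∀ m : ℕ, 1 ≤ m → qc (σ p) (!r) m ≤ 1 / 242 → ∀ F : Finset (ℤ × ℤ),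
      ∑ v ∈ F, PT p r (C0 v) ≤ C * (m : ℝ) ^ 2 * ab p₀ r 0 m ^ 2 := by
  classical
  obtain ⟨C, hC, hnear⟩ := near_sum h
  obtain ⟨C₁, hC₁, hreg⟩ := arm_reg h
  refine ⟨C + 200 * C₁, by positivity, fun p hp m hm hq F => ?_⟩
  have hmp : (1 : ℝ) ≤ m := by exact_mod_cast hm
  set π := ab p₀ r 0 m with hπ
  have hπ0 : 0 ≤ π := ab_nonneg
  have hP0 : ∀ v, 0 ≤ PT p r (C0 v) := fun v => PT_nonneg
  have ha : ab p r 0 (m - 1) ^ 2 ≤ C₁ * π ^ 2 := by
    have h1 := hreg p hp m (m - 1) hm (Nat.sub_le _ _)
    have h2 : (((m - 1 : ℕ) : ℝ) + 1) = m := by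
      have : m - 1 + 1 = m := by omega
      exact_mod_cast this
    rw [h2, div_self (by positivity), mul_one] at h1
    exact h1
  -- all boxes
  have hall : ∀ K : ℕ, ∑ v ∈ bx (4 * (2 ^ K * m)), PT p r (C0 v) ≤
      (C + 100 * C₁ * (2 - 2 * (1 / 2) ^ K)) * m ^ 2 * π ^ 2 := by
    intro K
    induction K with
    | zero =>
      simp only [pow_zero, one_mul]
      refine (hnear p hp m hm).trans (le_of_eq ?_)
      ring
    | succ K ih =>
      have hn1 : 1 ≤ 2 ^ K * m := Nat.one_le_iff_ne_zero.2 (by positivity)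
      have hsub : bx (4 * (2 ^ K * m)) ⊆ bx (4 * (2 ^ (K + 1) * m)) := by
        apply bx_mono
        rw [pow_succ]
        nlinarith only [hn1]
      rw [← Finset.sum_sdiff hsub]
      have hit := qc_iter hm hq K
      have h1 : ∀ v ∈ bx (4 * (2 ^ (K + 1) * m)) \ bx (4 * (2 ^ K * m)),
          PT p r (C0 v) ≤ (C₁ * π ^ 2) * (4 * (1 / 121 * (1 / 2) ^ (2 ^ K))) := by
        intro v hv
        rw [Finset.mem_sdiff, mem_bx, mem_bx] at hv
        have h2 := far_le p r (m := m) (n := 2 ^ K * m) hm
          (Nat.le_mul_of_pos_left _ (by positivity)) (v := v) (by omega)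
        refine h2.trans ?_
        have h3 : 0 ≤ qc (σ p) (!r) (2 ^ K * m) := PT_nonneg
        gcongr
      have h2 : ∑ v ∈ bx (4 * (2 ^ (K + 1) * m)) \ bx (4 * (2 ^ K * m)), PT p r (C0 v) ≤
          (100 * C₁ * (1 / 2) ^ K) * m ^ 2 * π ^ 2 := by
        refine (Finset.sum_le_card_nsmul _ _ _ h1).trans ?_
        rw [nsmul_eq_mul]
        have h3 : ((bx (4 * (2 ^ (K + 1) * m)) \ bx (4 * (2 ^ K * m))).card : ℝ) ≤
            289 * 4 ^ K * m ^ 2 := by
          refine (Nat.cast_le.2 (Finset.card_le_card Finset.sdiff_subset)).trans ?_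
          rw [card_bx]
          push_cast
          have h5 : (1 : ℝ) ≤ 2 ^ K * m := by
            have : (1 : ℝ) ≤ 2 ^ K := one_le_pow₀ (by norm_num)
            nlinarith only [hmp, this]
          have h9 : (4 : ℝ) ^ K = ((2 : ℝ) ^ K) ^ 2 := by
            rw [← pow_mul, mul_comm, pow_mul]
            norm_num
          calc ((2 : ℝ) * (4 * ((2 : ℝ) ^ (K + 1) * (m : ℝ))) + 1) ^ 2
              ≤ (17 * ((2 : ℝ) ^ K * (m : ℝ))) ^ 2 := by
                gcongr
                rw [pow_succ]
                linarith only [h5]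
            _ = 289 * 4 ^ K * (m : ℝ) ^ 2 := by
                rw [h9]
                ring
        have h6 := pow_dbl K
        calc ((bx (4 * (2 ^ (K + 1) * m)) \ bx (4 * (2 ^ K * m))).card : ℝ) *
              ((C₁ * π ^ 2) * (4 * (1 / 121 * (1 / 2) ^ (2 ^ K))))
            ≤ (289 * 4 ^ K * m ^ 2) * ((C₁ * π ^ 2) * (4 * (1 / 121 * (1 / 2) ^ (2 ^ K)))) := by
              gcongr
          _ = 289 * 4 / 121 * (4 ^ K * (1 / 2) ^ (2 ^ K)) * C₁ * m ^ 2 * π ^ 2 := by ring
          _ ≤ 289 * 4 / 121 * (4 * (1 / 2) ^ K) * C₁ * m ^ 2 * π ^ 2 := by gcongr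
          _ = (289 * 16 / 121) * C₁ * (1 / 2) ^ K * m ^ 2 * π ^ 2 := by ring
          _ ≤ 100 * C₁ * (1 / 2) ^ K * m ^ 2 * π ^ 2 := by
              gcongr
              norm_num
      calc _ ≤ (100 * C₁ * (1 / 2) ^ K) * m ^ 2 * π ^ 2 +
            (C + 100 * C₁ * (2 - 2 * (1 / 2) ^ K)) * m ^ 2 * π ^ 2 := add_le_add h2 ih
        _ = _ := by rw [pow_succ]; ring
  obtain ⟨K, hK⟩ : ∃ K : ℕ, F ⊆ bx (4 * (2 ^ K * m)) := by
    refine ⟨F.sup nrm, fun v hv => ?_⟩
    rw [mem_bx]
    have h1 : nrm v ≤ F.sup nrm := Finset.le_sup hv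
    have h2 : F.sup nrm < 2 ^ (F.sup nrm) := Nat.lt_pow_self (by norm_num)
    have h3 : 2 ^ (F.sup nrm) ≤ 2 ^ (F.sup nrm) * m := Nat.le_mul_of_pos_right _ hm
    omega
  calc ∑ v ∈ F, PT p r (C0 v) ≤ ∑ v ∈ bx (4 * (2 ^ K * m)), PT p r (C0 v) :=
        Finset.sum_le_sum_of_subset_of_nonneg hK fun v _ _ => hP0 v
    _ ≤ (C + 100 * C₁ * (2 - 2 * (1 / 2) ^ K)) * m ^ 2 * π ^ 2 := hall K
    _ ≤ (C + 200 * C₁) * m ^ 2 * π ^ 2 := by
        have h5 : (0 : ℝ) ≤ (1 / 2) ^ K := by positivity
        have h6 : 100 * C₁ * (2 - 2 * (1 / 2) ^ K) ≤ 200 * C₁ := by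
          nlinarith only [hC₁, h5, mul_nonneg hC₁.le h5]
        have h7 : (0 : ℝ) ≤ m ^ 2 * π ^ 2 := by positivity
        nlinarith only [h6, h7, mul_nonneg (sub_nonneg.2 h6) h7]

end Pool.Agent.H13.SK

end

section

/-! # Finite size criterion with arms -/

set_option autoImplicit false

open MeasureTheory ProbabilityTheory unitInterval

namespace Pool.Agent.H83.Site

open Pool.Agent.H89.Perc

end Pool.Agent.H83.Site

end

section

/-!
# Good scales of site percolation

`Good δ p r m`: the square of side `4 m` is crossed with probability at least `1 - δ` by paths of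
the colour `r` (`r = false`: open sites of the square lattice, `r = true`: sites of the matching
lattice).
-/

set_option autoImplicit false

open MeasureTheory ProbabilityTheory unitInterval

namespace Pool.Agent.H13.SK

open Pool.Agent.H89.Perc Pool.Agent.H83.Site

end Pool.Agent.H13.SK

end

section

/-!
# Chains of circuits
-/

open MeasureTheory ProbabilityTheory unitInterval

namespace Pool.Agent.H83.SK

open Pool.Agent.H57.EX

open Pool.Agent.H89.Perc Pool.Agent.H61.NC Pool.Agent.H29.Sep

end Pool.Agent.H83.SK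

end

section

/-!
# Site percolation, box-crossing regime: blocking, decay, half circuits
-/

open MeasureTheory ProbabilityTheory unitInterval

namespace Pool.Agent.H83.SK

open Pool.Agent.H26.HP

open Pool.Agent.H89.Perc

end Pool.Agent.H83.SK

end

section

/-!
# Half plane, one arm with a free side: the exponent is one

`E1 R z`: the cluster of `(z, 0)` in the half ball of radius `R` reaches distance `R` and does not
touch the base to the right of `(z, 0)`.  Its probability is at most `C / R`.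
-/

open MeasureTheory ProbabilityTheory unitInterval

namespace Pool.Agent.H83.SK

open Pool.Agent.H26.HP

open Pool.Agent.H89.Perc

end Pool.Agent.H83.SK

end

section

/-!
# The corridor lemma for site percolation

`pb π w` is the configuration `g ↦ w (π g)`.  Given a separated four-arm event, increasing events of
the sites of the corridor `C` and arbitrary events `H` of the sites which are neither in `C` nor in
or adjacent (in the domain) to the two clusters (with filled targets) can be added at the cost of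
constant factors.
-/

set_option autoImplicit false

open MeasureTheory ProbabilityTheory unitInterval

namespace Pool.Agent.H38.N59

open Pool.Agent.H89.Perc
open Pool.Agent.H83.SK (sv sit sit_true RSWreg)
open Pool.Agent.H59.EX (LocS inE touch clus closeS Side T Mouth Fence dom pb sat fkg_cond markov_indep)

end Pool.Agent.H38.N59

end

section

/-!
# Symmetries of the separated events for sites, sum over sides
-/

set_option autoImplicit false

open MeasureTheory ProbabilityTheory unitInterval

namespace Pool.Agent.H38.N59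

open Pool.Agent.H89.Perc
open Pool.Agent.H61.NC hiding RSWreg
open Pool.Agent.H83.SK (sv sit sit_true RSWreg)
open Pool.Agent.H59.EX (LocS inE touch clus closeS Side T Mouth Fence dom fence_mem)

/-! ### The action on the constructions -/

end Pool.Agent.H38.N59

end

section

/-!
# Bad events for sites: two clusters close to the same vertex of the sphere
-/

set_option autoImplicit false

open MeasureTheory ProbabilityTheory unitInterval

namespace Pool.Agent.H38.N59

open Pool.Agent.H89.Perc
open Pool.Agent.H61.NC hiding RSWreg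
open Pool.Agent.H83.SK (sv sit sit_true RSWreg)
open Pool.Agent.H59.EX (LocS inE touch clus closeS Side T Mouth Fence dom CorrData CorrSep mem_clus_single clus_conn)
open Pool.Agent.H29.Sep (LocTwo)

end Pool.Agent.H38.N59

end

section

/-!
# Outward separation for sites: stage 3
-/

set_option autoImplicit false

open MeasureTheory ProbabilityTheory unitInterval

namespace Pool.Agent.H38.N59

open Pool.Agent.H89.Perc
open Pool.Agent.H83.SK (sv sit sit_true RSWreg)
open Pool.Agent.H59.EX (LocS inE touch clus closeS Side T Mouth Fence dom CorrData CorrSep mem_clus_single corr_inter corr_sub160 clus_sub)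

end Pool.Agent.H38.N59

end

section

/-!
# Outward separation for sites: stage 1
-/

set_option autoImplicit false

open MeasureTheory ProbabilityTheory unitInterval

namespace Pool.Agent.H38.N59

open Pool.Agent.H89.Perc
open Pool.Agent.H83.SK (sv sit sit_true RSWreg)
open Pool.Agent.H59.EX (LocS inE touch clus closeS Side T Mouth Fence dom CorrData CorrSep mem_clus_single corr_inter corr_sub160)

end Pool.Agent.H38.N59

end

end

section

/-! The parts of this file: H13.SK.SigmaTr, H13.SK.SigmaMono, H13.SK.Regime, H13.SK.LenOne, H92.SN.Tau, H92.SN.KCnt, H13.SK.TBlock, H13.SK.TTwo, H92.SN.Ret, H92.SN.Det, H92.SN.Pair, H92.SN.Sum, H92.SN.Main, H92.SN.Fin, H92.SN.Unif, H92.SN.Piv, H83.SK.PST.Prob, H83.SK.PST.Piv, H38.SK.Conv. -/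

section

/-!
# The mean cluster size as a sum of the two-point function
-/

set_option autoImplicit false

open MeasureTheory ProbabilityTheory unitInterval
open scoped ENNReal

namespace Pool.Agent.H13.SK

open Pool.Agent.H89.Perc Pool.Agent.H83.Site

/-- Upper bound for the sums of the two-point function at a good scale of the other colour. -/
theorem sum_good {p₀ : I} {r : Bool} (h : BXP p₀ r) :
    ∃ δ > (0 : ℝ), ∃ C > (0 : ℝ), ∀ p : I, p ≤ p₀ → ∀ m : ℕ, 1 ≤ m → Good δ (σ p) (!r) m →
      ∀ F : Finset (ℤ × ℤ), ∑ v ∈ F, PT p r (C0 v) ≤ C * (m : ℝ) ^ 2 * ab p₀ r 0 m ^ 2 := by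
  obtain ⟨C, hC, H⟩ := sum_upper h
  refine ⟨1 / 10 ^ 10, by positivity, 25 * C, by positivity, fun p hp m hm hg F => ?_⟩
  refine (H p hp (4 * m + 1) (by omega) (good_qc hm hg) F).trans ?_
  have h1 : ab p₀ r 0 (4 * m + 1) ≤ ab p₀ r 0 m := ab_mono le_rfl (by omega) (by omega)
  have h2 : 0 ≤ ab p₀ r 0 (4 * m + 1) := ab_nonneg
  have h3 : (((4 * m + 1 : ℕ) : ℝ)) ≤ 5 * m := by
    have : (1 : ℝ) ≤ m := by exact_mod_cast hm
    push_cast
    linarith only [this]
  calc C * (((4 * m + 1 : ℕ) : ℝ)) ^ 2 * ab p₀ r 0 (4 * m + 1) ^ 2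
      ≤ C * (5 * m) ^ 2 * ab p₀ r 0 m ^ 2 := by gcongr
    _ = _ := by ring

end Pool.Agent.H13.SK

end

section

/-!
# The mean cluster size is nondecreasing in the density
-/

set_option autoImplicit false

open MeasureTheory ProbabilityTheory unitInterval
open scoped ENNReal

namespace Pool.Agent.H13.SK

open Pool.Agent.H89.Perc Pool.Agent.H83.Site

end Pool.Agent.H13.SK

end

section

/-!
# The box-crossing regime of site percolation and the characteristic length
-/

set_option autoImplicit false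

open MeasureTheory ProbabilityTheory unitInterval Filter Topology

namespace Pool.Agent.H13.SK

open Pool.Agent.H89.Perc Pool.Agent.H83.Site

end Pool.Agent.H13.SK

end

section

/-!
# The characteristic lengths on the two sides of the critical density

`NC a4 Wp Reg` collects the results of near-critical percolation on the torus which are used:
`a4` is the four-arm probability, `Wp` the winding probability and `Reg` the box-crossing regime.
-/

set_option autoImplicit false

open MeasureTheory ProbabilityTheory unitInterval Filter Topology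

namespace Pool.Agent.H13.SK

open Pool.Agent.H89.Perc Pool.Agent.H83.Site

end Pool.Agent.H13.SK

end

section

/-!
# The connection of the neighbours of a site
-/

set_option autoImplicit false

open MeasureTheory ProbabilityTheory unitInterval Filter Topology

namespace Pool.Agent.H92.SN

open Pool.Agent.H89.Perc
open Pool.Agent.H83.SK (sv sit)

end Pool.Agent.H92.SN

end

section

/-!
# The number of open clusters
-/

set_option autoImplicit false

open MeasureTheory ProbabilityTheory unitInterval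

namespace Pool.Agent.H92.SN

open Pool.Agent.H89.Perc
open Pool.Agent.H83.SK (sv sit)

end Pool.Agent.H92.SN

end

section

/-!
# Exploration of the clusters of the cutting lines of the torus, block by block (sites)
-/

open MeasureTheory ProbabilityTheory unitInterval

namespace Pool.Agent.H13.SK

open Pool.Agent.H89.Perc Pool.Agent.H85.Kes
open Pool.Agent.H83.SK (sit sv sit_true)

section state

variable {κ : Type*} [DecidableEq κ]

end state

/-! ### The clusters of the cutting lines -/

/-! ### The rule -/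

section rule

variable {κ : Type*} [DecidableEq κ]

end rule

end Pool.Agent.H13.SK

end

section

/-!
# Pivotal blocks of the torus (sites): translations, two distinct crossing clusters
-/

open MeasureTheory ProbabilityTheory unitInterval

namespace Pool.Agent.H13.SK

open Pool.Agent.H89.Perc Pool.Agent.H85.Kes
open Pool.Agent.H83.SK (sit sv)
open Pool.Agent.H61.NC (mid)

/-! ### Translations -/

/-! ### A pivotal block has two distinct crossing clusters around it -/

end Pool.Agent.H13.SK

end

section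

/-!
# Opening a closed site of a periodic configuration
-/

set_option autoImplicit false

open MeasureTheory ProbabilityTheory unitInterval

namespace Pool.Agent.H92.SN

open Pool.Agent.H89.Perc
open Pool.Agent.H83.SK (sv sit)

end Pool.Agent.H92.SN

end

section

/-!
# A pivotal site for the winding event has four arms
-/

set_option autoImplicit false

open MeasureTheory ProbabilityTheory unitInterval

namespace Pool.Agent.H92.SN

open Pool.Agent.H89.Perc
open Pool.Agent.H83.SK (sv sit)

end Pool.Agent.H92.SN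

end

section

/-!
# Pairs of sites of the torus
-/

set_option autoImplicit false

open MeasureTheory ProbabilityTheory unitInterval

namespace Pool.Agent.H92.SN

open Pool.Agent.H89.Perc
open Pool.Agent.H61.NC (fill mid upd Joint Joint_piv)
open Pool.Agent.H83.SK (sv sit)

end Pool.Agent.H92.SN

end

section

/-!
# The sum over pairs of sites
-/

set_option autoImplicit false

open MeasureTheory ProbabilityTheory unitInterval

namespace Pool.Agent.H92.SN

open Pool.Agent.H89.Perc
open Pool.Agent.H61.NC (fill mid upd Joint)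
open Pool.Agent.H83.SK (sv sit)

end Pool.Agent.H92.SN

end

section

/-!
# Near-critical stability of the influences
-/

set_option autoImplicit false

open MeasureTheory ProbabilityTheory unitInterval

namespace Pool.Agent.H92.SN

open Pool.Agent.H89.Perc
open Pool.Agent.H61.NC (fill mid upd Joint)
open Pool.Agent.H83.SK (sv sit)

end Pool.Agent.H92.SN

end

section

/-!
# Scaling relations for the four-arm probability
-/

set_option autoImplicit false

open MeasureTheory ProbabilityTheory unitInterval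

namespace Pool.Agent.H92.SN

open Pool.Agent.H89.Perc
open Pool.Agent.H61.NC (fill mid upd Joint)
open Pool.Agent.H83.SK (sv sit)

end Pool.Agent.H92.SN

end

section

/-!
# Uniform decay of the four-arm probability
-/

set_option autoImplicit false

open MeasureTheory ProbabilityTheory unitInterval Filter Topology

namespace Pool.Agent.H92.SN

open Pool.Agent.H89.Perc
open Pool.Agent.H29.Sep (Circ eCirc circ_ring ann)
open Pool.Agent.H83.SK (sv sit)

end Pool.Agent.H92.SN

end

section

/-!
# Pivotal sites of the connection event on the torus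
-/

set_option autoImplicit false

open MeasureTheory ProbabilityTheory unitInterval

namespace Pool.Agent.H92.SN

open Pool.Agent.H89.Perc
open Pool.Agent.H61.NC (mid)
open Pool.Agent.H83.SK (sv sit)

/-! ### Events of annuli -/

/-! ### Pivotal sites -/

end Pool.Agent.H92.SN

end

section

/-!
# Probabilities of the corridor event and of the seals; locality
-/

set_option autoImplicit false

open MeasureTheory ProbabilityTheory unitInterval

namespace Pool.Agent.H83.PST

open Pool.Agent.H89.Perc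
open Pool.Agent.H83.SK (sv sit sit_true RSWreg)
open Pool.Agent.H59.EX (LocS inE touch clus closeS Side T Mouth Fence dom pb grid)
open Pool.Agent.H38.N59 (vE rv Src det Seal Four sv_mem_vE)

end Pool.Agent.H83.PST

end

section

/-!
# Lower bounds for the influence of a site of the torus; small tori
-/

set_option autoImplicit false

open MeasureTheory ProbabilityTheory unitInterval

namespace Pool.Agent.H83.PST

open Pool.Agent.H89.Perc
open Pool.Agent.H61.NC (ctr mid)
open Pool.Agent.H83.SK (sv sit sit_true RSWreg)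

/-! ### Small tori -/

end Pool.Agent.H83.PST

end

section

/-!
# The two forms of the four-arm probability of a site

`SK.a4` sums over two kinds of pairs of neighbours of the origin, `SN.a4` is the probability of the
union over all pairs.
-/

set_option autoImplicit false

open MeasureTheory ProbabilityTheory unitInterval

namespace Pool.Agent.H38.SKConv

open Pool.Agent.H89.Perc
open Pool.Agent.H59.EX (closeS Four)
open Pool.Agent.H83.SK (s4 star0 IsAut isAut_swap)
open Pool.Agent.H92.SN (closeV A4 Nb)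
open Pool.Agent.H61.NC (fill blk mid)

variable {q : I} {r : ℕ}

end Pool.Agent.H38.SKConv

end

end
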