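import Pool.Agent.H94.BG.H31.PT.M07_3
import Pool.Agent.H94.BG.H31.PT.M10
import Pool.Agent.H94.BG.H31.PT.M16_1
import Pool.Agent.H94.BG.H31.PT.M18_3
import Pool.Agent.H94.BG.H31.PT.M25
import Pool.Agent.H94.BG.M11

/-! The parts of this file: H31.PT.M18_7, H31.PT.M25_5. -/

section

/-! The parts of this file: H83.Site.PcRange, H92.SN.A4B, H38.SK.Dict, H38.SK.WindT, H38.SK.WindP, H92.SN.TSym, H83.SK.P29.A4Low, H38.SK.N59.Seal, H38.SK.N59.St4, H38.SK.N59.St2, H38.SK.N59.GeoP, H38.SK.N59.GeoAll, H38.SK.N59.MoveStr, H83.SK.PST.Defs. -/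

section

/-!
# The critical density is neither zero nor one
-/

set_option autoImplicit false

open MeasureTheory ProbabilityTheory unitInterval

namespace Pool.Agent.H83.Site

open Pool.Agent.H89.Perc

end Pool.Agent.H83.Site

end

section

/-!
# Basic properties of the four-arm event of a site, in the plane and on the torus
-/

set_option autoImplicit false

open MeasureTheory ProbabilityTheory unitInterval

namespace Pool.Agent.H92.SN

open Pool.Agent.H89.Perc
open Pool.Agent.H61.NC (modE fill mid)
open Pool.Agent.H83.SK (sv sit)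

theorem pow_le_closed (q : I) {m : ℝ} (hm : 0 ≤ m) (h : m ≤ 1 - (q : ℝ)) (s : Finset Edge) :
    m ^ s.card ≤ Pr q {w | ∀ e ∈ s, w e = false} := by
  classical
  induction s using Finset.induction_on with
  | empty =>
    have : {w : Config | ∀ e ∈ (∅ : Finset Edge), w e = false} = Set.univ := by
      ext w; simp
    rw [this, Pr_univ]
    simp
  | @insert a s ha ih =>
    have hloc : LocalOn (insert a s) {w : Config | ∀ e ∈ insert a s, w e = false} := by
      intro w w' h' hw e he
      rw [← h' e he]
      exact hw e he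
    have hne : ∀ e ∈ s, e ≠ a := fun e he hea => ha (hea ▸ he)
    have hup : {w : Config | Function.update w a false ∈
        {w : Config | ∀ e ∈ insert a s, w e = false}} = {w | ∀ e ∈ s, w e = false} := by
      ext w
      simp only [Set.mem_ofPred_eq, Finset.mem_insert, forall_eq_or_imp, Function.update_self,
        true_and]
      constructor
      · intro h' e he
        have := h' e he
        rwa [Function.update_of_ne (hne e he)] at this
      · intro h' e he
        rw [Function.update_of_ne (hne e he)]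
        exact h' e he
    rw [Pr_eq_update hloc a, Finset.card_insert_of_notMem ha, pow_succ, hup]
    have h3 : 0 ≤ Pr q {w | Function.update w a true ∈
        {w : Config | ∀ e ∈ insert a s, w e = false}} := Pr_nonneg
    have h4 : 0 ≤ (q : ℝ) * Pr q {w | Function.update w a true ∈
        {w : Config | ∀ e ∈ insert a s, w e = false}} := mul_nonneg q.2.1 h3
    have h5 : m * m ^ s.card ≤ (1 - (q : ℝ)) * Pr q {w | ∀ e ∈ s, w e = false} :=
      mul_le_mul h ih (by positivity) (by linarith only [hm, h, q.2.2])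
    linarith only [h4, h5]

/-- All sites of the square of half side `1` are closed. -/
theorem a4_one (q : I) {m : ℝ} (hm : 0 ≤ m) (h : m ≤ 1 - (q : ℝ)) : m ^ 9 ≤ a4 q 1 := by
  have hcard : (sBall 0 1).card = 9 := by
    simp [sBall]
  have hle := pow_le_closed q hm h (sBall 0 1)
  rw [hcard] at hle
  refine hle.trans (Pr_mono ?_)
  intro w hw
  have hno : ∀ x y, ¬ Step (closeV 0 (sit w)) (ball (0 : Vert) 1) x y := by
    rintro x y ⟨h1, h2, e, he, ho⟩
    have ho' := closeV_le e ho
    have hs : src e ∈ ball (0 : Vert) 1 := by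
      rcases he with ⟨h3, _⟩ | ⟨_, h3⟩
      · rw [← h3]; exact h1
      · rw [← h3]; exact h2
    rw [Pool.Agent.H83.SK.sit_true] at ho'
    have := hw (sv (src e)) (mem_sBall.2 ⟨by rw [src_sv]; exact hs, rfl⟩)
    rw [ho'.1] at this
    exact absurd this (by decide)
  have hball : ∀ x : Vert, x ∈ ball (0 : Vert) 1 ↔
      (-1 ≤ x.1 ∧ x.1 ≤ 1 ∧ -1 ≤ x.2 ∧ x.2 ≤ 1) := by
    intro x
    simp only [Pool.Agent.H89.Perc.mem_ball, Prod.fst_zero, Prod.snd_zero, Nat.cast_one, zero_sub,
      zero_add]
  refine ⟨(1, 0), (0, 1), ⟨(0, 0, false), Or.inl ⟨rfl, by simp [tgt]⟩⟩,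
    ⟨(0, 0, true), Or.inl ⟨rfl, by simp [tgt]⟩⟩, ⟨(1, 0), ?_, ?_⟩, ⟨(0, 1), ?_, ?_⟩, ?_⟩
  · exact ⟨(hball _).2 (by norm_num), Or.inr (Or.inl (by simp))⟩
  · exact Conn.refl ((hball _).2 (by norm_num))
  · exact ⟨(hball _).2 (by norm_num), Or.inr (Or.inr (Or.inr (by simp)))⟩
  · exact Conn.refl ((hball _).2 (by norm_num))
  · intro hc
    have : ((0 : ℤ), (1 : ℤ)) = ((1 : ℤ), (0 : ℤ)) :=
      hc.induction_right (P := fun x => x = ((1 : ℤ), (0 : ℤ))) rfl
        fun a b _ hab _ => absurd hab (hno a b)
    simp at this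

end Pool.Agent.H92.SN

end

section

/-!
# Dictionary between the centred lattice and the induced bond configuration
-/

set_option autoImplicit false

open MeasureTheory ProbabilityTheory unitInterval

namespace Pool.Agent.H83.SK.Dict

open Pool.Agent.H89.Perc Pool.Agent.H83.Site

/-! ### Crossings -/

/-! ### Probabilities -/

/-! ### The box-crossing regime -/

/-! ### Arms -/

end Pool.Agent.H83.SK.Dict

end

section

/-!
# Winding paths of site percolation on the torus
-/

set_option autoImplicit false

open MeasureTheory ProbabilityTheory unitInterval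

namespace Pool.Agent.H83.SK.WG

open Pool.Agent.H89.Perc Pool.Agent.H83.Site
open Pool.Agent.H92.SN (WindS tSites)

theorem localOn_windS {N : ℕ} (hN : 1 ≤ N) : LocalOn (tSites N) (WindS N) := by
  intro ω ω' h hω
  simp only [WindS, Set.mem_ofPred_eq] at hω ⊢
  rwa [← sit_per_congr hN h]

/-! ### Periodic configurations -/

/-! ### Winding paths from crossings -/

end Pool.Agent.H83.SK.WG

end

section

/-!
# The probability of winding for site percolation on the torus
-/

set_option autoImplicit false

open MeasureTheory ProbabilityTheory unitInterval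

namespace Pool.Agent.H83.SK.WG

open Pool.Agent.H89.Perc Pool.Agent.H83.Site
open Pool.Agent.H92.SN (WindS tSites)

variable {q : I} {N : ℕ} {a b c d : ℤ}

/-! ### Crossings at all places -/

/-! ### The four crossings -/

section
variable {e : ℝ} {h m L : ℤ}

end

/-! ### The box-crossing regime -/

/-! ### Good scales -/

end Pool.Agent.H83.SK.WG

end

section

/-!
# The winding event of the torus and its translation invariance
-/

set_option autoImplicit false

open MeasureTheory ProbabilityTheory unitInterval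

namespace Pool.Agent.H92.SN

open Pool.Agent.H89.Perc
open Pool.Agent.H61.NC (fill mid upd Joint PrR')
open Pool.Agent.H83.SK (sv sit)

theorem sv_cV (N : ℕ) : sv (cV N) = cE N := rfl

end Pool.Agent.H92.SN

end

section

/-!
# Site percolation, small scales: finite energy
-/

open MeasureTheory ProbabilityTheory unitInterval

namespace Pool.Agent.H83.SK

open Pool.Agent.H89.Perc Pool.Agent.H29.Sep
open Pool.Agent.H59.EX (Src Four closeS_true)

end Pool.Agent.H83.SK

end

section

/-!
# Seals for site percolation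
-/

set_option autoImplicit false

open MeasureTheory ProbabilityTheory unitInterval

namespace Pool.Agent.H38.N59

open Pool.Agent.H89.Perc
open Pool.Agent.H83.SK (sv sit sit_true RSWreg)
open Pool.Agent.H59.EX (LocS inE touch clus closeS Side T Mouth Fence dom pb grid)

end Pool.Agent.H38.N59

end

section

/-!
# Outward separation for sites: stage 4
-/

set_option autoImplicit false

open MeasureTheory ProbabilityTheory unitInterval

namespace Pool.Agent.H38.N59

open Pool.Agent.H89.Perc
open Pool.Agent.H61.NC hiding RSWreg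
open Pool.Agent.H83.SK (sv sit sit_true RSWreg)
open Pool.Agent.H59.EX (LocS inE touch clus closeS Side T Mouth Fence dom CorrData CorrSep clus_sub clus_step clus_conn mem_clus_single fence_mono corr_inter corr_sub160 mem_sphere_of_joins markov_indep grid exists_grid card_grid)

end Pool.Agent.H38.N59

end

section

/-!
# Outward separation for sites: stage 2
-/

set_option autoImplicit false

open MeasureTheory ProbabilityTheory unitInterval

namespace Pool.Agent.H38.N59

open Pool.Agent.H89.Perc
open Pool.Agent.H61.NC hiding RSWreg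
open Pool.Agent.H83.SK (sv sit sit_true RSWreg)
open Pool.Agent.H59.EX (LocS inE touch clus closeS Side T Mouth Fence dom CorrData CorrSep clus_sub clus_step clus_conn mem_clus_single fence_mono corr_inter corr_sub160 mem_sphere_of_joins markov_indep grid exists_grid card_grid)

end Pool.Agent.H38.N59

end

section

/-!
# Probability of the crossing events of the corridors
-/

open MeasureTheory ProbabilityTheory unitInterval

namespace Pool.Agent.H83.SK.NG

open Pool.Agent.H59.EX

open Pool.Agent.H89.Perc
open Pool.Agent.H29.Sep (Circ)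

namespace GeoQ

end GeoQ

open GeoQ

end Pool.Agent.H83.SK.NG

end

section

/-!
# Corridors for the second point
-/

open MeasureTheory ProbabilityTheory unitInterval

namespace Pool.Agent.H83.SK.NG

open Pool.Agent.H59.EX

open Pool.Agent.H89.Perc

end Pool.Agent.H83.SK.NG

end

section

/-!
# The straight corridors of the moves, probabilities
-/

open MeasureTheory ProbabilityTheory unitInterval

namespace Pool.Agent.H83.SK.NG

open Pool.Agent.H59.EX

open Pool.Agent.H89.Perc Pool.Agent.H61.NC
open Pool.Agent.H85.Strict (hv_meet)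

end Pool.Agent.H83.SK.NG

end

section

/-!
# Site percolation on the torus: separated four arms, definitions

The torus of side `N` is `ℤ²` with the periodic configuration `per N ω = pb (modE N) ω` of sites. The
source is the closed site `0` with two of its neighbours; the first neighbour has its mouth in the
west, the second one in the east. The corridor is the horizontal strip `[28 k, N - 28 k] × [-3 k,
3 k]` from the east target to the translate by `(N, 0)` of the west target.
-/

set_option autoImplicit false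

open MeasureTheory ProbabilityTheory unitInterval

namespace Pool.Agent.H83.PST

open Pool.Agent.H89.Perc
open Pool.Agent.H61.NC (modE)
open Pool.Agent.H83.SK (sv sit sit_true RSWreg)
open Pool.Agent.H59.EX (LocS inE touch clus closeS Side T Mouth Fence dom pb grid)
open Pool.Agent.H26.ST (Cor glu PerInv sh TD Rel1 In)
open Pool.Agent.H92.SN (WindS tSites)

/-- The corridor is crossed. -/
def NpT (N k : ℕ) : Set Config :=
  {η | HCross (sit (glu N k η)) (28 * k) (N - 28 * k) (-(3 * k)) (3 * k)}

end Pool.Agent.H83.PST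

end

end

section

/-! The parts of this file: H13.SK.SigmaTr, H13.SK.SigmaMono, H13.SK.Regime, H13.SK.LenOne, H92.SN.Tau, H92.SN.KCnt, H13.SK.TBlock, H13.SK.TTwo, H92.SN.Ret, H92.SN.Det, H92.SN.Pair, H92.SN.Sum, H92.SN.Main, H92.SN.Fin, H92.SN.Unif, H92.SN.Piv, H83.SK.PST.Prob, H83.SK.PST.Piv, H38.SK.Conv. -/

section

/-!
# The mean cluster size as a sum of the two-point function
-/

set_option autoImplicit false

open MeasureTheory ProbabilityTheory unitInterval
open scoped ENNReal

namespace Pool.Agent.H13.SK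

open Pool.Agent.H89.Perc Pool.Agent.H83.Site

theorem meas_C0 (r : Bool) (v : ℤ × ℤ) : MeasurableSet {ω : Config | full r ω ∈ C0 v} := by
  have h : {ω : Config | full r ω ∈ C0 v} = ⋃ R : ℕ,
      {ω | full r ω ∈ {η | TConn η (TR (-R) R (-R) R) (0, 0, false) (sit0 v)}} := by
    ext ω
    simp only [Set.mem_ofPred_eq, Set.mem_iUnion]
    constructor
    · intro h
      exact tconn_box h
    · rintro ⟨R, hR⟩
      exact hR.mono_set (Set.subset_univ _)
  rw [h]
  exact MeasurableSet.iUnion fun R =>
    (localOn_full r (localOn_tconn _ _ _ _ (0, 0, false) (sit0 v))).measurableSet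

/-- The mean cluster size is bounded by bounds for the finite sums of the two-point function. -/
theorem sigma_le_of (p : I) (r : Bool) (G : (ℤ × ℤ → Bool) → SimpleGraph (ℤ × ℤ))
    (hG : ∀ ω u v, (G ω).Adj u v ↔ ω u = true ∧ ω v = true ∧ SA r u v) {B : ℝ}
    (hB : ∀ F : Finset (ℤ × ℤ), ∑ v ∈ F, PT p r (C0 v) ≤ B) :
    ∫⁻ ω, (({v | ω (0, 0) = true ∧ (G ω).Reachable (0, 0) v}.encard : ℕ∞) : ℝ≥0∞)
        ∂(Measure.infinitePi (fun _ : ℤ × ℤ => bernoulliMeasure true false p)) ≤
      ENNReal.ofReal B := by
  classical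
  set ν := Measure.infinitePi (fun _ : ℤ × ℤ => bernoulliMeasure true false p) with hν
  have hext : Measurable extS := by
    refine measurable_pi_lambda _ fun v => ?_
    exact measurable_pi_apply (v.1, v.2.1)
  have hres : Measurable resS := by
    refine measurable_pi_lambda _ fun v => ?_
    exact measurable_pi_apply (v.1, v.2, false)
  set T : ℤ × ℤ → Set (ℤ × ℤ → Bool) := fun v => {w | full r (extS w) ∈ C0 v} with hT
  have hmeas : ∀ v, MeasurableSet (T v) := fun v => hext (meas_C0 r v)
  have hiff : ∀ (w : ℤ × ℤ → Bool) (v : ℤ × ℤ),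
      (w (0, 0) = true ∧ (G w).Reachable (0, 0) v) ↔ w ∈ T v := by
    intro w v
    constructor
    · rintro ⟨h1, h2⟩
      exact tconn_of_reachable (hG w) h1 h2
    · intro h
      have h0 : TConn (full r (extS w)) Set.univ (0, 0, false) (v.1, v.2, false) := h
      have h1 := h0.open_left
      have h2 := h0.open_right
      rw [full_site] at h1 h2
      exact ⟨h1, reachable_of_tconn (u := (0, 0)) (hG w) h0 v (by simp [crn]) h2⟩
  have h1 : ∀ w : ℤ × ℤ → Bool,
      (({v | w (0, 0) = true ∧ (G w).Reachable (0, 0) v}.encard : ℕ∞) : ℝ≥0∞) =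
      ∑' v : ℤ × ℤ, Set.indicator (T v) (fun _ => (1 : ℝ≥0∞)) w := by
    intro w
    rw [← ENNReal.tsum_set_one,
      tsum_subtype {v | w (0, 0) = true ∧ (G w).Reachable (0, 0) v} (fun _ => (1 : ℝ≥0∞))]
    refine tsum_congr fun v => ?_
    by_cases h : w ∈ T v
    · rw [Set.indicator_of_mem (show v ∈ {v | w (0, 0) = true ∧ (G w).Reachable (0, 0) v} from
        (hiff w v).2 h), Set.indicator_of_mem h]
    · rw [Set.indicator_of_notMem (show v ∉ {v | w (0, 0) = true ∧ (G w).Reachable (0, 0) v} from
        fun h' => h ((hiff w v).1 h')), Set.indicator_of_notMem h]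
  simp_rw [h1]
  rw [lintegral_tsum fun v => (measurable_const.indicator (hmeas v)).aemeasurable]
  have h2 : ∀ v : ℤ × ℤ, ∫⁻ w, Set.indicator (T v) (fun _ => (1 : ℝ≥0∞)) w ∂ν =
      ENNReal.ofReal (PT p r (C0 v)) := by
    intro v
    rw [lintegral_indicator (hmeas v), lintegral_const, Measure.restrict_apply_univ, one_mul,
      hν, ← map_resS, Measure.map_apply hres (hmeas v)]
    unfold PT Pr
    rw [ofReal_measureReal]
    congr 1
    ext ω
    simp only [hT, Set.mem_preimage, Set.mem_ofPred_eq, full_extS_resS]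
  simp_rw [h2]
  rw [ENNReal.tsum_eq_iSup_sum]
  refine iSup_le fun F => ?_
  rw [← ENNReal.ofReal_sum_of_nonneg fun v _ => PT_nonneg]
  exact ENNReal.ofReal_le_ofReal (hB F)

end Pool.Agent.H13.SK

end

section

/-!
# The mean cluster size is nondecreasing in the density
-/

set_option autoImplicit false

open MeasureTheory ProbabilityTheory unitInterval
open scoped ENNReal

namespace Pool.Agent.H13.SK

open Pool.Agent.H89.Perc Pool.Agent.H83.Site

/-- The mean cluster size as the sum of the two-point function. -/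
theorem sigma_eq_tsum (p : I) (r : Bool) (G : (ℤ × ℤ → Bool) → SimpleGraph (ℤ × ℤ))
    (hG : ∀ ω u v, (G ω).Adj u v ↔ ω u = true ∧ ω v = true ∧ SA r u v) :
    ∫⁻ ω, (({v | ω (0, 0) = true ∧ (G ω).Reachable (0, 0) v}.encard : ℕ∞) : ℝ≥0∞)
        ∂(Measure.infinitePi (fun _ : ℤ × ℤ => bernoulliMeasure true false p)) =
      ∑' v : ℤ × ℤ, ENNReal.ofReal (PT p r (C0 v)) := by
  classical
  set ν := Measure.infinitePi (fun _ : ℤ × ℤ => bernoulliMeasure true false p) with hν
  have hext : Measurable extS := by
    refine measurable_pi_lambda _ fun v => ?_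
    exact measurable_pi_apply (v.1, v.2.1)
  have hres : Measurable resS := by
    refine measurable_pi_lambda _ fun v => ?_
    exact measurable_pi_apply (v.1, v.2, false)
  set T : ℤ × ℤ → Set (ℤ × ℤ → Bool) := fun v => {w | full r (extS w) ∈ C0 v} with hT
  have hmeas : ∀ v, MeasurableSet (T v) := fun v => hext (meas_C0 r v)
  have hiff : ∀ (w : ℤ × ℤ → Bool) (v : ℤ × ℤ),
      (w (0, 0) = true ∧ (G w).Reachable (0, 0) v) ↔ w ∈ T v := by
    intro w v
    constructor
    · rintro ⟨h1, h2⟩
      exact tconn_of_reachable (hG w) h1 h2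
    · intro h
      have h0 : TConn (full r (extS w)) Set.univ (0, 0, false) (v.1, v.2, false) := h
      have h1 := h0.open_left
      have h2 := h0.open_right
      rw [full_site] at h1 h2
      exact ⟨h1, reachable_of_tconn (u := (0, 0)) (hG w) h0 v (by simp [crn]) h2⟩
  have h1 : ∀ w : ℤ × ℤ → Bool,
      (({v | w (0, 0) = true ∧ (G w).Reachable (0, 0) v}.encard : ℕ∞) : ℝ≥0∞) =
      ∑' v : ℤ × ℤ, Set.indicator (T v) (fun _ => (1 : ℝ≥0∞)) w := by
    intro w
    rw [← ENNReal.tsum_set_one,
      tsum_subtype {v | w (0, 0) = true ∧ (G w).Reachable (0, 0) v} (fun _ => (1 : ℝ≥0∞))]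
    refine tsum_congr fun v => ?_
    by_cases h : w ∈ T v
    · rw [Set.indicator_of_mem (show v ∈ {v | w (0, 0) = true ∧ (G w).Reachable (0, 0) v} from
        (hiff w v).2 h), Set.indicator_of_mem h]
    · rw [Set.indicator_of_notMem (show v ∉ {v | w (0, 0) = true ∧ (G w).Reachable (0, 0) v} from
        fun h' => h ((hiff w v).1 h')), Set.indicator_of_notMem h]
  simp_rw [h1]
  rw [lintegral_tsum fun v => (measurable_const.indicator (hmeas v)).aemeasurable]
  refine tsum_congr fun v => ?_
  rw [lintegral_indicator (hmeas v), lintegral_const, Measure.restrict_apply_univ, one_mul,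
    hν, ← map_resS, Measure.map_apply hres (hmeas v)]
  unfold PT Pr
  rw [ofReal_measureReal]
  congr 1
  ext ω
  simp only [hT, Set.mem_preimage, Set.mem_ofPred_eq, full_extS_resS]

/-- The two-point function is nondecreasing in the density. -/
theorem PT_C0_mono {p q : I} (h : p ≤ q) (r : Bool) (v : ℤ × ℤ) :
    PT p r (C0 v) ≤ PT q r (C0 v) := by
  have hU : {ω : Config | full r ω ∈ C0 v} = ⋃ R : ℕ,
      {ω | full r ω ∈ {η | TConn η (TR (-R) R (-R) R) (0, 0, false) (sit0 v)}} := by
    ext ω
    simp only [Set.mem_ofPred_eq, Set.mem_iUnion]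
    constructor
    · intro h
      exact tconn_box h
    · rintro ⟨R, hR⟩
      exact hR.mono_set (Set.subset_univ _)
  have hmono : Monotone fun R : ℕ =>
      {ω : Config | full r ω ∈ {η | TConn η (TR (-R) R (-R) R) (0, 0, false) (sit0 v)}} := by
    intro R R' hRR ω hω
    simp only [Set.mem_ofPred_eq] at hω ⊢
    exact hω.mono_set (TR_mono (by omega) (by omega) (by omega) (by omega))
  have hle : μ p {ω : Config | full r ω ∈ C0 v} ≤ μ q {ω : Config | full r ω ∈ C0 v} := by
    rw [hU, hmono.measure_iUnion, hmono.measure_iUnion]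
    refine iSup_mono fun R => ?_
    have h1 := PT_mono_param (r := r) (localOn_tconn (-R) R (-R) R (0, 0, false) (sit0 v))
      (fun η η' hη hc => TConn.mono subset_rfl (fun x _ hx => hη x hx) hc) h
    unfold PT Pr at h1
    rw [measureReal_def, measureReal_def, ENNReal.toReal_le_toReal (measure_ne_top _ _)
      (measure_ne_top _ _)] at h1
    exact h1
  unfold PT Pr
  rw [measureReal_def, measureReal_def]
  exact ENNReal.toReal_mono (measure_ne_top _ _) hle

/-- The mean cluster size is nondecreasing in the density. -/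
theorem sigma_mono {p q : I} (h : p ≤ q) (r : Bool) (G : (ℤ × ℤ → Bool) → SimpleGraph (ℤ × ℤ))
    (hG : ∀ ω u v, (G ω).Adj u v ↔ ω u = true ∧ ω v = true ∧ SA r u v) :
    ∫⁻ ω, (({v | ω (0, 0) = true ∧ (G ω).Reachable (0, 0) v}.encard : ℕ∞) : ℝ≥0∞)
        ∂(Measure.infinitePi (fun _ : ℤ × ℤ => bernoulliMeasure true false p)) ≤
      ∫⁻ ω, (({v | ω (0, 0) = true ∧ (G ω).Reachable (0, 0) v}.encard : ℕ∞) : ℝ≥0∞)
        ∂(Measure.infinitePi (fun _ : ℤ × ℤ => bernoulliMeasure true false q)) := by
  rw [sigma_eq_tsum p r G hG, sigma_eq_tsum q r G hG]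
  exact ENNReal.tsum_le_tsum fun v => ENNReal.ofReal_le_ofReal (PT_C0_mono h r v)

end Pool.Agent.H13.SK

end

section

/-!
# The box-crossing regime of site percolation and the characteristic length
-/

set_option autoImplicit false

open MeasureTheory ProbabilityTheory unitInterval Filter Topology

namespace Pool.Agent.H13.SK

open Pool.Agent.H89.Perc Pool.Agent.H83.Site

end Pool.Agent.H13.SK

end

section

/-!
# The characteristic lengths on the two sides of the critical density

`NC a4 Wp Reg` collects the results of near-critical percolation on the torus which are used: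
`a4` is the four-arm probability, `Wp` the winding probability and `Reg` the box-crossing regime.
-/

set_option autoImplicit false

open MeasureTheory ProbabilityTheory unitInterval Filter Topology

namespace Pool.Agent.H13.SK

open Pool.Agent.H89.Perc Pool.Agent.H83.Site

end Pool.Agent.H13.SK

end

section

/-!
# The connection of the neighbours of a site
-/

set_option autoImplicit false

open MeasureTheory ProbabilityTheory unitInterval Filter Topology

namespace Pool.Agent.H92.SN

open Pool.Agent.H89.Perc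
open Pool.Agent.H61.NC (modE PrR' hasDerivAt_PrR_eq)
open Pool.Agent.H83.SK (sv sit)

theorem tau_nonneg (q : I) : 0 ≤ tau q :=
  Finset.sum_nonneg fun _ _ => Pool.Agent.H83.SK.Pr_nonneg

end Pool.Agent.H92.SN

end

section

/-!
# The number of open clusters
-/

set_option autoImplicit false

open MeasureTheory ProbabilityTheory unitInterval

namespace Pool.Agent.H92.SN

open Pool.Agent.H89.Perc
open Pool.Agent.H83.SK (sv sit)

end Pool.Agent.H92.SN

end

section

/-!
# Exploration of the clusters of the cutting lines of the torus, block by block (sites)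
-/

open MeasureTheory ProbabilityTheory unitInterval

namespace Pool.Agent.H13.SK

open Pool.Agent.H89.Perc Pool.Agent.H85.Kes
open Pool.Agent.H83.SK (sit sv sit_true)
open Pool.Agent.H92.SN (tSites WindS)

section state

variable {κ : Type*} [DecidableEq κ]

end state

/-! ### The clusters of the cutting lines -/

/-! ### The rule -/

section rule

variable {κ : Type*} [DecidableEq κ]

end rule

end Pool.Agent.H13.SK

end

section

/-!
# Pivotal blocks of the torus (sites): translations, two distinct crossing clusters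
-/

open MeasureTheory ProbabilityTheory unitInterval

namespace Pool.Agent.H13.SK

open Pool.Agent.H89.Perc Pool.Agent.H85.Kes
open Pool.Agent.H83.SK (sit sv)
open Pool.Agent.H92.SN (tSites WindS blkS BlockPiv)
open Pool.Agent.H61.NC (Two Ring mid)

/-! ### Translations -/

/-! ### A pivotal block has two distinct crossing clusters around it -/

end Pool.Agent.H13.SK

end

section

/-!
# Opening a closed site of a periodic configuration
-/

set_option autoImplicit false

open MeasureTheory ProbabilityTheory unitInterval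

namespace Pool.Agent.H92.SN

open Pool.Agent.H89.Perc
open Pool.Agent.H61.NC (modE)
open Pool.Agent.H83.SK (sv sit)
open Pool.Agent.H90.AL (IsPer)

/-- `v` is isolated in the periodic configuration `η0`; the steps of the periodic configuration
`η1` are steps of `η0`, or start or end at a translate of `v`. -/
structure AddSite (N : ℕ) (v : Vert) (η0 η1 : Config) : Prop where
  per0 : IsPer N η0
  per1 : IsPer N η1
  iso : ∀ x, ¬ Step η0 Set.univ v x
  mono : ∀ e, η0 e = true → η1 e = true
  step : ∀ x y, Step η1 Set.univ x y → Step η0 Set.univ x y ∨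
    ∃ a b : ℤ, x = (v.1 + a * N, v.2 + b * N) ∨ y = (v.1 + a * N, v.2 + b * N)

theorem step_per {N : ℕ} {η : Config} (hη : IsPer N η) (a b : ℤ) {u v : Vert}
    (h : Step η Set.univ u v) :
    Step η Set.univ (u.1 + a * N, u.2 + b * N) (v.1 + a * N, v.2 + b * N) := by
  obtain ⟨-, -, e, he, ho⟩ := h
  exact ⟨Set.mem_univ _, Set.mem_univ _, shiftE (a * N, b * N) e, joins_shift (a * N, b * N) he,
    by rw [hη a b e]; exact ho⟩

theorem step_per' {N : ℕ} {η : Config} (hη : IsPer N η) (a b : ℤ) {u v : Vert}
    (h : Step η Set.univ (u.1 + a * N, u.2 + b * N) v) :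
    Step η Set.univ u (v.1 - a * N, v.2 - b * N) := by
  have h1 := step_per hη (-a) (-b) h
  have e1 : ((u.1 + a * N + -a * N, u.2 + b * N + -b * N) : Vert) = u := by
    ext <;> (simp only; ring)
  have e2 : ((v.1 + -a * N, v.2 + -b * N) : Vert) = (v.1 - a * N, v.2 - b * N) := by
    ext <;> (simp only; ring)
  simp only at h1
  rw [e1, e2] at h1
  exact h1

theorem AddSite.iso' {N : ℕ} {v : Vert} {η0 η1 : Config} (h : AddSite N v η0 η1) (a b : ℤ)
    (z : Vert) : ¬ Step η0 Set.univ (v.1 + a * N, v.2 + b * N) z := fun h1 =>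
  h.iso _ (step_per' h.per0 a b h1)

/-- A neighbour of `v` which is joined to the outside of the ball reaches the sphere. -/
theorem reach_of_conn {N r : ℕ} {v : Vert} {η0 : Config} (hper : IsPer N η0)
    {p : Vert} (hp : p ∈ ball v r) (a b : ℤ) {Y : Vert}
    (hY : Y ∉ ball (v.1 + a * N, v.2 + b * N) r)
    (hc : Conn η0 Set.univ (p.1 + a * N, p.2 + b * N) Y) :
    ∃ u ∈ sphere v r, Conn η0 (ball v r) p u := by
  have h1 := Pool.Agent.H90.AL.conn_per hper (-a) (-b) hc
  have e1 : ((p.1 + a * N + -a * N, p.2 + b * N + -b * N) : Vert) = p := by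
    ext <;> (simp only; ring)
  simp only at h1
  rw [e1] at h1
  obtain ⟨x, hx, hcx⟩ := h1.to_sphere (v := v) (r := r) hp (Or.inl (by
    intro hm
    apply hY
    rw [mem_ball] at hm ⊢
    simp only at hm ⊢
    have e3 : -a * (N : ℤ) = -(a * N) := by ring
    have e4 : -b * (N : ℤ) = -(b * N) := by ring
    rw [e3, e4] at hm
    omega))
  exact ⟨x, hx, hcx.mono_set Set.inter_subset_right⟩

/-- One step of a path of `η1` which is not at a translate of `v`. -/
theorem AddSite.step' {N : ℕ} {v : Vert} {η0 η1 : Config} (h : AddSite N v η0 η1) {x y : Vert}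
    (hx : ∀ a b : ℤ, x ≠ (v.1 + a * N, v.2 + b * N)) (hs : Step η1 Set.univ x y) :
    Step η0 Set.univ x y ∨ ∃ (a b : ℤ) (q : Vert), y = (v.1 + a * N, v.2 + b * N) ∧
      Step η1 Set.univ v q ∧ x = (q.1 + a * N, q.2 + b * N) := by
  rcases h.step x y hs with h1 | ⟨a, b, h1 | h1⟩
  · exact Or.inl h1
  · exact absurd h1 (hx a b)
  · refine Or.inr ⟨a, b, (x.1 - a * N, x.2 - b * N), h1, ?_, ?_⟩
    · rw [h1] at hs
      exact step_per' h.per1 a b hs.symm
    · ext <;> (simp only; ring)

/-- A vertex joined in `η0` to a vertex off the translates is off the translates. -/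
theorem AddSite.off {N : ℕ} {v : Vert} {η0 η1 : Config} (h : AddSite N v η0 η1) {x y : Vert}
    (hx : ∀ a b : ℤ, x ≠ (v.1 + a * N, v.2 + b * N)) (hc : Conn η0 Set.univ x y) (a b : ℤ) :
    y ≠ (v.1 + a * N, v.2 + b * N) := by
  intro hy
  rw [hy] at hc
  exact hx a b (conn_iso (h.iso' a b) hc.symm)

end Pool.Agent.H92.SN

end

section

/-!
# A pivotal site for the winding event has four arms
-/

set_option autoImplicit false

open MeasureTheory ProbabilityTheory unitInterval

namespace Pool.Agent.H92.SN

open Pool.Agent.H89.Perc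
open Pool.Agent.H83.SK (sv sit)

end Pool.Agent.H92.SN

end

section

/-!
# Pairs of sites of the torus
-/

set_option autoImplicit false

open MeasureTheory ProbabilityTheory unitInterval

namespace Pool.Agent.H92.SN

open Pool.Agent.H89.Perc
open Pool.Agent.H61.NC (fill mid upd Joint PrR' dist0 Joint_piv localOn_upd modE)
open Pool.Agent.H83.SK (sv sit)

/-- Comparison with the influence of one site (finite energy). -/
theorem Pr_Joint_le {s : Finset Edge} {A : Set Config} (hA : LocalOn s A) (iA : Incr A)
    {e f : Edge} (hef : e ≠ f) (q : I) {m : ℝ} (hm : 0 < m) (h1 : m ≤ (q : ℝ))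
    (h2 : m ≤ 1 - (q : ℝ)) : Pr q (Joint A e f) ≤ 1 / m * pivot q A e := by
  have upd_mono : ∀ (A : Set Config), Incr A → ∀ e, upd A e false ⊆ upd A e true := by
    intro A iA e ω hω
    refine iA _ _ (fun x hx => ?_) hω
    by_cases hxe : x = e
    · subst hxe; simp
    · rw [Function.update_of_ne hxe] at hx ⊢; exact hx
  have upd_sub : ∀ {A B : Set Config}, A ⊆ B → ∀ (f : Edge) (b : Bool),
      upd A f b ⊆ upd B f b := fun h f b _ hω => h hω
  set TT := upd (upd A e true) f true with hTT
  set TF := upd (upd A e true) f false with hTF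
  set FT := upd (upd A e false) f true with hFT
  set FF := upd (upd A e false) f false with hFF
  have lFT : MeasurableSet FT := (localOn_upd (localOn_upd hA e false) f true).measurableSet
  have lFF : MeasurableSet FF := (localOn_upd (localOn_upd hA e false) f false).measurableSet
  have s2 : FT ⊆ TT := upd_sub (upd_mono A iA e) f true
  have s3 : FF ⊆ TF := upd_sub (upd_mono A iA e) f false
  have e2 : Pr q (TT \ FT) = Pr q TT - Pr q FT := measureReal_sdiff s2 lFT
  have e3 : Pr q (TF \ FF) = Pr q TF - Pr q FF := measureReal_sdiff s3 lFF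
  have p1 : 0 ≤ Pr q (TT \ FT) := Pr_nonneg
  have p2 : 0 ≤ Pr q (TF \ FF) := Pr_nonneg
  have e4 : Pr q (Joint A e f) ≤ Pr q (TT \ FT) + Pr q (TF \ FF) := by
    refine (Pr_mono ?_).trans Pr_union_le
    rintro ω (⟨a1, a2⟩ | ⟨⟨a1, a2⟩, a3⟩)
    · left
      rw [Set.mem_union, not_or] at a2
      exact ⟨a1, a2.2⟩
    · right
      exact ⟨a1, a3⟩
  have f1 : Pr q (upd A e true) = q * Pr q TT + (1 - q) * Pr q TF :=
    Pr_eq_update (localOn_upd hA e true) f
  have f2 : Pr q (upd A e false) = q * Pr q FT + (1 - q) * Pr q FF :=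
    Pr_eq_update (localOn_upd hA e false) f
  have f0 : pivot q A e = Pr q (upd A e true) - Pr q (upd A e false) := rfl
  have f3 : pivot q A e = q * Pr q (TT \ FT) + (1 - q) * Pr q (TF \ FF) := by
    rw [f0, f1, f2, e2, e3]
    ring
  have f4 : m * Pr q (Joint A e f) ≤ pivot q A e := by
    rw [f3]
    nlinarith only [h1, p1, h2, p2, e4, hm, mul_nonneg (sub_nonneg.2 h1) p1, mul_nonneg (sub_nonneg.2 h2) p2,
      mul_le_mul_of_nonneg_left e4 hm.le]
  rw [one_div, ← div_eq_inv_mul, le_div_iff₀ hm]
  linarith only [f4]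

lemma Pair_one_dim {N ρ : ℕ} {x u v : ℤ} (hx0 : 0 ≤ x) (hxN : x < N)
    (hu : (N : ℤ) / 2 - ρ ≤ u ∧ u ≤ (N : ℤ) / 2 + ρ) (hv : x - ρ ≤ v ∧ v ≤ x + ρ)
    (h : u % (N : ℤ) = v % N) : (x - (N : ℤ) / 2).natAbs ≤ 2 * ρ := by
  have h1 : (N : ℤ) ∣ v - u := by
    have h2 : u ≡ v [ZMOD N] := h
    exact h2.dvd
  obtain ⟨k, hk⟩ := h1
  rcases lt_trichotomy k 0 with h3 | h3 | h3
  · have h4 : (N : ℤ) * k ≤ -N := by nlinarith only [h3, Int.natCast_nonneg N]
    omega
  · subst h3
    rw [mul_zero] at hk
    omega
  · have h4 : (N : ℤ) ≤ N * k := by nlinarith only [h3, Int.natCast_nonneg N]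
    omega

lemma Pair_dist_ctr (N : ℕ) : dist0 N (cE N) = 0 := by
  simp [dist0, cE]

lemma Pair_ne {N ρ : ℕ} {f : Edge} (h2 : 2 * ρ < dist0 N f) : cE N ≠ f := by
  rintro rfl
  rw [Pair_dist_ctr] at h2
  omega

end Pool.Agent.H92.SN

end

section

/-!
# The sum over pairs of sites
-/

set_option autoImplicit false

open MeasureTheory ProbabilityTheory unitInterval

namespace Pool.Agent.H92.SN

open Pool.Agent.H89.Perc
open Pool.Agent.H61.NC (fill mid upd Joint PrR' dist0)
open Pool.Agent.H83.SK (sv sit)

end Pool.Agent.H92.SN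

end

section

/-!
# Near-critical stability of the influences
-/

set_option autoImplicit false

open MeasureTheory ProbabilityTheory unitInterval

namespace Pool.Agent.H92.SN

open Pool.Agent.H89.Perc
open Pool.Agent.H61.NC (fill mid upd Joint PrR' dist0 PrR'_eq hasDerivAt_PrR_eq hasDerivAt_PrR' abs_second_le)
open Pool.Agent.H83.SK (sv sit)

end Pool.Agent.H92.SN

end

section

/-!
# Scaling relations for the four-arm probability
-/

set_option autoImplicit false

open MeasureTheory ProbabilityTheory unitInterval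

namespace Pool.Agent.H92.SN

open Pool.Agent.H89.Perc
open Pool.Agent.H61.NC (fill mid upd Joint PrR' dist0)
open Pool.Agent.H83.SK (sv sit)

end Pool.Agent.H92.SN

end

section

/-!
# Uniform decay of the four-arm probability
-/

set_option autoImplicit false

open MeasureTheory ProbabilityTheory unitInterval Filter Topology

namespace Pool.Agent.H92.SN

open Pool.Agent.H89.Perc
open Pool.Agent.H29.Sep (Circ eCirc circ_ring ann)
open Pool.Agent.H83.SK (sv sit)

end Pool.Agent.H92.SN

end

section

/-!
# Pivotal sites of the connection event on the torus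
-/

set_option autoImplicit false

open MeasureTheory ProbabilityTheory unitInterval

namespace Pool.Agent.H92.SN

open Pool.Agent.H89.Perc
open Pool.Agent.H61.NC (modE mid)
open Pool.Agent.H83.SK (sv sit)
open Pool.Agent.H90.AL (IsPer dT dT_self dT_comm dT_tri dT_le_half dT_le_of exists_of_dT_le notMem_of_lt mem_tEdges_iff conn_per isPer_per mem_SR)

/-! ### Events of annuli -/

/-- The sites of the torus at distance between `t` and `R` from `c`. -/
noncomputable def SRS (N : ℕ) (c : Vert) (t R : ℕ) : Finset Edge :=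
  (tSites N).filter fun g => t ≤ dT N (src g) c ∧ dT N (src g) c ≤ R

lemma mem_SRS {N : ℕ} {c : Vert} {t R : ℕ} {g : Edge} :
    g ∈ SRS N c t R ↔ g ∈ tSites N ∧ t ≤ dT N (src g) c ∧ dT N (src g) c ≤ R := by
  simp only [SRS, Finset.mem_filter]

/-! ### Pivotal sites -/

lemma dT_shift {N : ℕ} (hN : 1 ≤ N) (u v : Vert) (a b : ℤ) :
    dT N (u.1 + a * N, u.2 + b * N) v = dT N u v := by
  apply le_antisymm
  · obtain ⟨k, l, h⟩ := exists_of_dT_le (N := N) (u := u) (v := v) le_rfl
    refine dT_le_of hN (k + a) (l + b) ?_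
    have e : (((u.1 + a * N) - (k + a) * N, (u.2 + b * N) - (l + b) * N) : Vert) =
        (u.1 - k * N, u.2 - l * N) := by
      ext <;> (simp only; ring)
    simp only
    rw [e]
    exact h
  · obtain ⟨k, l, h⟩ := exists_of_dT_le (N := N)
      (u := (u.1 + a * N, u.2 + b * N)) (v := v) le_rfl
    refine dT_le_of hN (k - a) (l - b) ?_
    have e : (((u.1 + a * N) - k * N, (u.2 + b * N) - l * N) : Vert) =
        (u.1 - (k - a) * N, u.2 - (l - b) * N) := by
      ext <;> (simp only; ring)
    simp only at h
    rw [e] at h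
    exact h

lemma ne_of_dT {N : ℕ} (hN : 1 ≤ N) {u x : Vert} (h : 0 < dT N u x) (a b : ℤ) :
    u ≠ (x.1 + a * N, x.2 + b * N) := by
  rintro rfl
  rw [dT_shift hN, dT_self] at h
  omega

end Pool.Agent.H92.SN

end

section

/-!
# Probabilities of the corridor event and of the seals; locality
-/

set_option autoImplicit false

open MeasureTheory ProbabilityTheory unitInterval

namespace Pool.Agent.H83.PST

open Pool.Agent.H89.Perc
open Pool.Agent.H61.NC (modE)
open Pool.Agent.H83.SK (sv sit sit_true RSWreg)
open Pool.Agent.H59.EX (LocS inE touch clus closeS Side T Mouth Fence dom pb grid)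
open Pool.Agent.H38.N59 (vE rv Src det Seal Four sv_mem_vE)
open Pool.Agent.H26.ST (Cor PerInv sh TD Rel1 In)
open Pool.Agent.H92.SN (WindS tSites)

lemma hcross_congr {w w' : Config} {a b c d : ℤ}
    (h : ∀ g ∈ vE (rect a b c d), w g = true → w' g = true) (hc : HCross (sit w) a b c d) :
    HCross (sit w') a b c d := by
  obtain ⟨u, v, hu, hv, hc⟩ := hc
  refine ⟨u, v, hu, hv, hc.1, Relation.ReflTransGen.mono ?_ _ _ hc.2⟩
  rintro x y ⟨hx, hy, e, hj, ho⟩
  rw [Pool.Agent.H38.N59.sit_joins hj] at ho
  exact ⟨hx, hy, e, hj, (Pool.Agent.H38.N59.sit_joins hj).2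
    ⟨h _ (sv_mem_vE.2 hx) ho.1, h _ (sv_mem_vE.2 hy) ho.2⟩⟩

theorem mem_sR {a b c d : ℤ} {e : Edge} : e ∈ sR a b c d ↔ e ∈ vE (rect a b c d) := by
  classical
  simp only [sR, Finset.mem_filter, mem_eRect]
  exact and_comm

theorem modE_injOn_vE {N : ℕ} {a b c d : ℤ} (hab : b - a < N) (hcd : d - c < N) :
    Set.InjOn (modE N) (vE (rect a b c d)) := by
  rintro ⟨x, y, t⟩ h1 ⟨x', y', t'⟩ h2 h
  have k1 := h1.2
  have k2 := h2.2
  simp only [src, rect, Set.mem_ofPred_eq] at k1 k2
  simp only [modE, Prod.mk.injEq] at h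
  obtain ⟨h3, h4, h5⟩ := h
  rw [mod_eq' (by omega) (by omega) h3, mod_eq' (by omega) (by omega) h4, h5]

/-- Probabilities of local events of the sites of a rectangle on the torus. -/
theorem Pr_pb {N : ℕ} {q : I} {a b c d : ℤ} {A : Set Config} (hA : LocalOn (sR a b c d) A)
    (hab : b - a < N) (hcd : d - c < N) : Pr q {ω | pb (modE N) ω ∈ A} = Pr q A := by
  refine Pr_comp hA ?_
  intro e he e' he' h
  exact modE_injOn_vE hab hcd (mem_sR.1 (Finset.mem_coe.1 he)) (mem_sR.1 (Finset.mem_coe.1 he')) h

lemma localOn_cross (a b c d : ℤ) : LocalOn (sR a b c d) {w | HCross (sit w) a b c d} := by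
  intro w w' h hw
  refine hcross_congr (fun g hg ho => ?_) hw
  rw [← h g (mem_sR.2 hg)]
  exact ho

end Pool.Agent.H83.PST

end

section

/-!
# Lower bounds for the influence of a site of the torus; small tori
-/

set_option autoImplicit false

open MeasureTheory ProbabilityTheory unitInterval

namespace Pool.Agent.H83.PST

open Pool.Agent.H89.Perc
open Pool.Agent.H61.NC (modE ctr mid)
open Pool.Agent.H83.SK (sv sit sit_true RSWreg sT sitT)
open Pool.Agent.H92.SN (WindS tSites cE)

/-! ### Small tori -/

end Pool.Agent.H83.PST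

end

section

/-!
# The two forms of the four-arm probability of a site

`SK.a4` sums over two kinds of pairs of neighbours of the origin, `SN.a4` is the probability of the
union over all pairs.
-/

set_option autoImplicit false

open MeasureTheory ProbabilityTheory unitInterval

namespace Pool.Agent.H38.SKConv

open Pool.Agent.H89.Perc
open Pool.Agent.H59.EX (Gen closeS Four)
open Pool.Agent.H83.SK (s4 star0 IsAut isAut_swap isAut_reflX isAut_reflY sitT blkS)
open Pool.Agent.H92.SN (closeV A4 Nb WindS)
open Pool.Agent.H61.NC (fill blk mid)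

variable {q : I} {r : ℕ}

theorem four_eq (b : Bool) : Four (s4 b) r = F (1, 0) (if b then (0, 1) else (-1, 0)) r := by
  ext ω
  unfold Four F
  rw [Set.mem_ofPred_eq, Set.mem_ofPred_eq, cut_eq]
  rfl

private theorem conv_joins (g : Gen) (e : Edge) (a b : Vert) (h : Joins e a b) :
    Joins (g.e e) (g.v a) (g.v b) := by
  cases g
  · exact joins_swap e a b h
  · have := joins_reflX 0 e a b h
    rw [zero_sub, zero_sub] at this
    exact this
  · have := joins_reflY 0 e a b h
    rw [zero_sub, zero_sub] at this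
    exact this

private theorem conv_ends (g : Gen) (e : Edge) :
    (src (g.e e) = g.v (src e) ∧ tgt (g.e e) = g.v (tgt e)) ∨
      (src (g.e e) = g.v (tgt e) ∧ tgt (g.e e) = g.v (src e)) := by
  rcases conv_joins g e _ _ (joins_src_tgt e) with ⟨h1, h2⟩ | ⟨h1, h2⟩
  · exact Or.inl ⟨h1.symm, h2.symm⟩
  · exact Or.inr ⟨h2.symm, h1.symm⟩

private theorem conv_aut (g : Gen) : IsAut g.e := by
  cases g
  · exact isAut_swap
  · exact isAut_reflX 0
  · exact isAut_reflY 0

private theorem v_zero (g : Gen) (a : Vert) : g.v a = 0 ↔ a = 0 := by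
  have h0 : g.v 0 = 0 := by cases g <;> simp [Gen.v]
  constructor
  · intro h
    have := congrArg g.v h
    rwa [g.v_v, h0] at this
  · rintro rfl
    exact h0

private theorem closeV_comp (g : Gen) (ω : Config) :
    closeV 0 (fun e => ω (g.e e)) = fun e => closeV 0 ω (g.e e) := by
  funext e
  rw [Bool.eq_iff_iff]
  unfold closeV
  simp only [Bool.and_eq_true, decide_eq_true_eq, ne_eq]
  rcases conv_ends g e with ⟨h1, h2⟩ | ⟨h1, h2⟩
  · rw [h1, h2, v_zero, v_zero]
  · rw [h1, h2, v_zero, v_zero]
    tauto

private theorem conv_sphere (g : Gen) (r : ℕ) (a : Vert) : g.v a ∈ sphere 0 r ↔ a ∈ sphere 0 r := by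
  have h := g.mem_ball r a
  unfold sphere
  simp only [Set.mem_ofPred_eq]
  rw [h]
  cases g <;> simp only [Gen.v, Prod.fst_zero, Prod.snd_zero] <;>
    constructor <;> rintro ⟨h1, h2⟩ <;> refine ⟨h1, ?_⟩ <;>
    rcases abs_cases (a.1 - 0) with h3 | h3 <;> rcases abs_cases (a.2 - 0) with h4 | h4 <;>
    (try rcases abs_cases (-a.1 - 0) with h5 | h5) <;>
    (try rcases abs_cases (-a.2 - 0) with h6 | h6) <;> omega

private theorem conv_conn (g : Gen) (ω : Config) (u v : Vert) :
    Conn (closeV 0 (fun e => ω (g.e e))) (ball 0 r) u v ↔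
      Conn (closeV 0 ω) (ball 0 r) (g.v u) (g.v v) := by
  rw [closeV_comp]
  have h := conn_invol (ω := closeV 0 ω) g.e_e g.v_v (conv_joins g) (ball 0 r) u v
  have h2 : {w | g.v w ∈ ball 0 r} = ball 0 r := by
    ext w
    exact g.mem_ball r w
  rw [h2] at h
  exact h

private theorem F_comp (g : Gen) (a b : Vert) :
    {ω : Config | (fun e => ω (g.e e)) ∈ F a b r} = F (g.v a) (g.v b) r := by
  ext ω
  simp only [F, Set.mem_ofPred_eq, conv_conn]
  have key : ∀ c : Vert, (∃ u ∈ sphere 0 r, Conn (closeV 0 ω) (ball 0 r) (g.v c) (g.v u)) ↔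
      ∃ u ∈ sphere 0 r, Conn (closeV 0 ω) (ball 0 r) (g.v c) u := by
    intro c
    constructor
    · rintro ⟨u, hu, h⟩
      exact ⟨g.v u, (conv_sphere g r u).2 hu, h⟩
    · rintro ⟨u, hu, h⟩
      refine ⟨g.v u, (conv_sphere g r u).2 hu, ?_⟩
      rwa [g.v_v]
  rw [key, key]

theorem Pr_F_map (g : Gen) (a b : Vert) :
    Pool.Agent.H83.SK.Pr q (F (g.v a) (g.v b) r) = Pool.Agent.H83.SK.Pr q (F a b r) := by
  rw [← F_comp, Pool.Agent.H83.SK.Pr_comp (localOn_F a b r) (conv_aut g)]

theorem pr_WE : Pool.Agent.H83.SK.Pr q (F (0, 1) (0, -1) r) =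
    Pool.Agent.H83.SK.Pr q (F (1, 0) (-1, 0) r) := Pr_F_map .sw (1, 0) (-1, 0)

theorem pr_WN : Pool.Agent.H83.SK.Pr q (F (-1, 0) (0, 1) r) =
    Pool.Agent.H83.SK.Pr q (F (1, 0) (0, 1) r) := by
  have h := Pr_F_map (q := q) (r := r) .rx (1, 0) (0, 1)
  simpa [Gen.v] using h

theorem pr_ES : Pool.Agent.H83.SK.Pr q (F (1, 0) (0, -1) r) =
    Pool.Agent.H83.SK.Pr q (F (1, 0) (0, 1) r) := by
  have h := Pr_F_map (q := q) (r := r) .ry (1, 0) (0, 1)
  simpa [Gen.v] using h

theorem pr_WS : Pool.Agent.H83.SK.Pr q (F (-1, 0) (0, -1) r) =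
    Pool.Agent.H83.SK.Pr q (F (1, 0) (0, 1) r) := by
  have h := Pr_F_map (q := q) (r := r) .ry (-1, 0) (0, 1)
  rw [pr_WN] at h
  simpa [Gen.v] using h

end Pool.Agent.H38.SKConv

end

end
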