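import Pool.Agent.H94.BG.H31.PT.M12_5
import Pool.Agent.H94.BG.H31.PT.M15_3
import Pool.Agent.H94.BG.H31.PT.M25_1
import Pool.Agent.H94.BG.H31.PT.M25_2
import Pool.Agent.H94.BG.M17
import Pool.Agent.H94.BG.M22

/-! The parts of this file: H31.PT.M26_1, H31.PT.M29_2. -/

section

/-! The parts of this file: H13.SK.BlockUpS, H13.SK.BlockLowS, H38.SK.Gap, H13.SK.Inst, H83.SK.PST.Closed, H83.SK.PST.Open, H83.SK.PST.Ext. -/

section

/-!
# Upper bound for the probability that a block is pivotal (sites, level-one inequality)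
-/

open MeasureTheory ProbabilityTheory unitInterval

namespace Pool.Agent.H13.SK

open Pool.Agent.H89.Perc Pool.Agent.H85.Kes
open Pool.Agent.H83.SK (sit sv sit_mono)
open Pool.Agent.H92.SN (tSites WindS blkS BlockPiv SReg)
open Pool.Agent.H83.SK.WG (mem_tSites localOn_windS incr_windS)
open Pool.Agent.H61.NC (Two Ring mid)
open Pool.Agent.H29.Sep (Circ circ_ring IsRing ann ring)

/-! ### Circuits and cuts around a block -/

/-! ### Locality -/

/-! ### Blocks -/

end Pool.Agent.H13.SK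

end

section

/-!
# Lower bound for the probability that a block is pivotal (sites, block OSSS)
-/

open MeasureTheory ProbabilityTheory unitInterval

namespace Pool.Agent.H13.SK

open Pool.Agent.H89.Perc Pool.Agent.H85.Kes
open Pool.Agent.H83.SK (sit sv sit_mono)
open Pool.Agent.H92.SN (tSites WindS blkS BlockPiv SReg)
open Pool.Agent.H83.SK.WG (mem_tSites localOn_windS incr_windS)
open Pool.Agent.H61.NC (Two Ring mid)

end Pool.Agent.H13.SK

end

section

/-!
# The winding probability changes by a constant above the characteristic length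
-/

set_option autoImplicit false

open MeasureTheory ProbabilityTheory unitInterval

namespace Pool.Agent.H83.SK.WG

open Pool.Agent.H89.Perc Pool.Agent.H83.Site Pool.Agent.H83.SK.Dict Pool.Agent.H13.SK
open Pool.Agent.H92.SN (WindS tSites)

end Pool.Agent.H83.SK.WG

end

section

/-!
# The near-critical facts of site percolation on the square lattice, from gluing on the torus
-/

set_option autoImplicit false

open MeasureTheory ProbabilityTheory unitInterval

namespace Pool.Agent.H13.SK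

open Pool.Agent.H89.Perc Pool.Agent.H83.Site
open Pool.Agent.H92.SN (SReg WindS GLTorus)

end Pool.Agent.H13.SK

end

section

/-!
# With the source closed there is no winding path
-/

set_option autoImplicit false

open MeasureTheory ProbabilityTheory unitInterval

namespace Pool.Agent.H83.PST

open Pool.Agent.H89.Perc
open Pool.Agent.H61.NC (modE)
open Pool.Agent.H83.SK (sv sit sit_true RSWreg)
open Pool.Agent.H59.EX (LocS inE touch clus closeS Side T Mouth Fence dom pb grid)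
open Pool.Agent.H38.N59 (vE rv fillS Src Sep FX FY det Seal Four sv_mem_vE sit_joins)
open Pool.Agent.H26.ST (Cor glu PerInv sh TD Rel1 In joins_sh mulN mem_Cor in_sh in_sh0 conn_sh perInv_per)
open Pool.Agent.H92.SN (WindS tSites)

variable {N k : ℕ} {w η : Config} {X Y : Set Vert} {a b : Vert} {i j : ℤ × ℤ}

/-- The data of the deterministic argument. -/
structure TS (N k : ℕ) (w : Config) (X Y : Set Vert) : Prop where
  td : TD N k (sit w) X Y
  pw : PerInv N w
  cX : ∀ a ∈ X, ∀ b ∈ dom .W .E k, ∀ e, Joins e a b → w (sv b) = true → b ∈ X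
  cY : ∀ a ∈ Y, ∀ b ∈ dom .W .E k, ∀ e, Joins e a b → w (sv b) = true → b ∈ Y

/-- Open determined sites belong to a sausage. -/
theorem TS.det (h : TS N k w X Y) (hb : w (sv b) = true)
    (ht : sv b ∈ Pool.Agent.H38.N59.det (modE N) .W .E k (CC N k) (X ∪ Y)) :
    ∃ i, In N k X Y i b := by
  obtain ⟨e', he', hm⟩ := ht
  have hz : ∃ z : ℤ × ℤ, e' = sv (sh N z b) := by
    obtain ⟨x, y⟩ := b
    obtain ⟨x', y', t'⟩ := e'
    simp only [sv, modE, Prod.mk.injEq] at hm
    obtain ⟨h1, h2, h3⟩ := hm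
    obtain ⟨m1, hm1⟩ : (N : ℤ) ∣ x - x' := Int.ModEq.dvd (Int.ModEq.symm h1)
    obtain ⟨m2, hm2⟩ : (N : ℤ) ∣ y - y' := Int.ModEq.dvd (Int.ModEq.symm h2)
    refine ⟨(m1, m2), ?_⟩
    simp only [sv, sh, Prod.mk.injEq]
    refine ⟨?_, ?_, h3.symm⟩
    · rw [mul_comm] at hm1; omega
    · rw [mul_comm] at hm2; omega
  obtain ⟨z, rfl⟩ := hz
  have hb' : w (sv (sh N z b)) = true := by rw [per_sv_sh h.pw]; exact hb
  have hX : sh N z b ∈ X → ∃ i, In N k X Y i b := by
    intro h1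
    refine ⟨(z.1 - 1, z.2), Or.inr (Or.inr ?_)⟩
    simpa using h1
  have hY : sh N z b ∈ Y → ∃ i, In N k X Y i b := fun h1 => ⟨z, Or.inl h1⟩
  rcases he' with he' | he'
  · obtain ⟨a', e, hj, ha', hbD, hS⟩ := Pool.Agent.H38.N59.of_mem_rv he'
    rcases hS with (hS | hS) | (hS | hS)
    · exact hX (h.cX a' hS _ hbD e hj hb')
    · exact hY (h.cY a' hS _ hbD e hj hb')
    · exact hX hS
    · exact hY hS
  · rw [sv_mem_vE] at he'
    rcases he' with he' | he'
    · exact ⟨z, Or.inr (Or.inl he'.1)⟩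
    · exact hX (h.td.TX he')

/-- The cluster of a sausage does not reach other sausages. -/
theorem TS.confine (h : TS N k w X Y) {ρ K : ℕ} (hρ : 1 ≤ ρ) (hρk : 8 * ρ ≤ k) (hK : N ≤ K * ρ)
    (hle : ∀ e, w e = true → η e = true)
    (hseal : η ∈ Seal (grid ρ K) ρ (Pool.Agent.H38.N59.det (modE N) .W .E k (CC N k) (X ∪ Y)))
    {x z : Vert} (hx : In N k X Y (0, 0) x) (hc : Conn (sit w) Set.univ x z)
    (hz : In N k X Y j z) : j = (0, 0) := by
  have hk := h.td.hk
  have hN : (128 * k : ℤ) ≤ N := by exact_mod_cast h.td.hN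
  have hρk' : (8 * ρ : ℤ) ≤ k := by exact_mod_cast hρk
  by_contra hj
  have key := Pool.Agent.H38.N59.seal_confine (η := w) (w := η) (W := Set.univ)
    (S := {v | In N k X Y (0, 0) v})
    (F := {v | ∃ j : ℤ × ℤ, j ≠ (0, 0) ∧ In N k X Y j v})
    (Ex := {a | 28 * (k : ℤ) ≤ a.1 ∧ a.1 ≤ N - 28 * k ∧ -(4 * k : ℤ) ≤ a.2 ∧ a.2 ≤ 4 * k})
    (t := Pool.Agent.H38.N59.det (modE N) .W .E k (CC N k) (X ∪ Y)) (G := grid ρ K) (ρ := ρ)
    (fun e _ => hle _) hseal ?_ ?_ ?_ ?_ (x := x) (z := z) hx hc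
  · rcases key with h1 | ⟨h1, -⟩
    · exact hj (h.td.sep hz h1 (Or.inl rfl))
    · exact h1 ⟨j, hj, hz⟩
  · rintro a ⟨h1, h2, h3, h4⟩ b hab
    have hK' : (N : ℤ) ≤ ((K * ρ : ℕ) : ℤ) := by exact_mod_cast hK
    refine Pool.Agent.H59.EX.exists_grid hρ ?_
    rw [mem_ball] at hab
    rw [mem_ball, Prod.fst_zero, Prod.snd_zero]
    push_cast at hab
    omega
  · intro a b e he ho ho' _ _ ha hb
    have hoe : sit w e = true := (sit_joins he).2 ⟨ho, ho'⟩
    refine ⟨h.td.exit ha hb he hoe, ?_, ?_⟩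
    · rintro ⟨j', hj', hb'⟩
      exact hj' (h.td.sep hb' ha (Or.inr ⟨e, he.symm, hoe⟩))
    · intro ht
      obtain ⟨i, hi⟩ := h.det ho' ht
      have h1 := h.td.sep ha hi (Or.inr ⟨e, he, hoe⟩)
      subst h1
      exact hb hi
  · rintro a b e he ho ho' - - ha ha' ⟨j', hj', hb⟩ x ⟨h1, h2, h3, h4⟩ hbx
    have hoe : sit w e = true := (sit_joins he).2 ⟨ho, ho'⟩
    have ha2 : ¬ In N k X Y (0, 0) (sh N j' a) := by
      rw [in_sh0]
      exact fun h5 => ha' ⟨j', hj', h5⟩
    have hb2 : In N k X Y (0, 0) (sh N j' b) := in_sh0.2 hb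
    have h5 := h.td.exit hb2 ha2 (joins_sh j' he.symm)
      (by rw [Pool.Agent.H26.ST.per_sh h.td.per]; exact hoe)
    have e1 := mulN N j'.1
    have e2 := mulN N j'.2
    obtain ⟨j1, j2⟩ := j'
    have hj3 : j1 ≠ 0 ∨ j2 ≠ 0 := by
      by_contra hcon
      push Not at hcon
      exact hj' (by rw [hcon.1, hcon.2])
    simp only [sh] at h5
    rw [mem_ball] at hbx
    push_cast at hbx
    simp only at e1 e2
    omega
  · intro a b e he ho ho' _ _ ha ha' hb hb' ht
    obtain ⟨i, hi⟩ := h.det ho' ht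
    by_cases h0 : i = (0, 0)
    · subst h0
      exact hb hi
    · exact hb' ⟨i, h0, hi⟩

/-- No winding path. -/
theorem TS.not_wind (h : TS N k w X Y) {ρ K : ℕ} (hρ : 1 ≤ ρ) (hρk : 8 * ρ ≤ k) (hK : N ≤ K * ρ)
    (hle : ∀ e, w e = true → η e = true)
    (hH : η ∈ HT N k ρ K (X ∪ Y)) {u : Vert} {p q : ℤ} (hp : p ≠ 0) :
    ¬ Conn (sit w) Set.univ u (u.1 + p * N, u.2 + q * N) := by
  intro hc
  have hk := h.td.hk
  have hN : (128 * k : ℤ) ≤ N := by exact_mod_cast h.td.hN
  have hsh : ∀ w : Vert, sh N (-p, -q) w = (w.1 + p * N, w.2 + q * N) := by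
    intro w
    simp only [sh, Prod.mk.injEq]
    constructor <;> ring
  by_cases hU : ∃ v, Conn (sit w) Set.univ u v ∧ ∃ i, In N k X Y i v
  · obtain ⟨v, hv, i, hi⟩ := hU
    have h1 : Conn (sit w) Set.univ (sh N (-p, -q) u) (sh N (-p, -q) v) :=
      conn_sh h.td.per (-p, -q) (T := Set.univ) (fun _ _ => trivial) hv
    rw [hsh] at h1
    have h2 : Conn (sit w) Set.univ v (sh N (-p, -q) v) := (hv.symm.trans hc).trans h1
    have h3 := conn_sh h.td.per i (T := Set.univ) (fun _ _ => trivial) h2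
    have h4 : In N k X Y (p, q) (sh N i (sh N (-p, -q) v)) := by
      rw [in_sh, in_sh]
      have e : (p + i.1 + (-p, -q).1, q + i.2 + (-p, -q).2) = i :=
        Prod.ext (by simp only; ring) (by simp only; ring)
      simp only at e ⊢
      rw [e]
      exact hi
    have h5 := h.confine hρ hρk hK hle hH.1 (in_sh0.2 hi) h3 h4
    rw [Prod.mk.injEq] at h5
    exact hp h5.1
  · push Not at hU
    have h1 : Conn (sit w) {v | ∀ i, ¬ In N k X Y i v} u (u.1 + p * N, u.2 + q * N) := by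
      refine hc.induction_right (P := fun v => Conn (sit w) {v | ∀ i, ¬ In N k X Y i v} u v)
        (Conn.refl (hU u (Conn.refl trivial))) ?_
      intro v v' hv hs ih
      exact ih.tail ⟨ih.mem_right, hU v' (hv.tail hs), hs.2.2⟩
    have hinv : ∀ (j : ℤ × ℤ), ∀ v ∈ {v | ∀ i, ¬ In N k X Y i v},
        sh N j v ∈ {v | ∀ i, ¬ In N k X Y i v} := by
      intro j v hv i hi
      rw [in_sh] at hi
      exact hv _ hi
    have h2 := conn_sh h.td.per (-p, -q) (hinv _) h1
    have h3 := h1.trans (by rw [← hsh u] at h2 ⊢; exact h2)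
    have hX : ¬ HCross (sit w) (40 * k) (50 * k) (3 * k + 1) (N - 3 * k - 1) := by
      rintro ⟨a, b, h4, h5, h6⟩
      exact hH.2 ⟨a, b, h4, h5, h6.mono le_rfl (Pool.Agent.H83.SK.sit_mono hle)⟩
    have e1 := mulN N p
    rcases lt_or_gt_of_ne hp with h0 | h0
    · refine hX (h.td.strip h3.symm ?_)
      simp only [sh]
      have e2 : -p * (N : ℤ) = -(p * N) := by ring
      rw [e2]
      omega
    · refine hX (h.td.strip h3 ?_)
      simp only [sh]
      have e2 : -p * (N : ℤ) = -(p * N) := by ring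
      rw [e2]
      omega

/-- With the site `0` closed. -/
theorem zeta_cut {N : ℕ} {s : Src} (hs : IsSrc s) {ω : Config} {v : Vert}
    (h : per N (Function.update ω (sv 0) false) (sv v) = true) :
    s.cut (per N ω) (sv v) = true := by
  have h2 : per N (Function.update ω (sv 0) false) (sv v) =
      Function.update ω (sv 0) false (modE N (sv v)) := rfl
  have hne : modE N (sv v) ≠ sv 0 := by
    intro h1
    rw [h2, h1, Function.update_self] at h
    exact absurd h (by simp)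
  have h3 : per N ω (sv v) = true := by
    rw [h2, Function.update_of_ne hne] at h
    exact h
  rw [Pool.Agent.H38.N59.cut_sv]
  refine ⟨h3, ?_⟩
  rw [hs.V]
  intro h4
  rw [Finset.mem_singleton] at h4
  refine hne ?_
  rw [h4]
  simp [modE, sv]

/-- A point of a mouth is not near the origin. -/
theorem open_x {d : Side} {k : ℕ} (hk : 1 ≤ k) {w : Config} {D : Set Vert} {x : Vert}
    (hx : x ∈ ball 0 2) (h : Fence d k (sit w) D x) : w (sv x) = true := by
  rw [mem_ball, Prod.fst_zero, Prod.snd_zero] at hx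
  push_cast at hx
  obtain ⟨u, hu, hc⟩ := Pool.Agent.H59.EX.fence_mem h
  refine Pool.Agent.H38.N59.open_of_conn hc ?_
  rintro rfl
  cases d <;> simp only [T, rect, Set.mem_ofPred_eq] at hu <;> omega

theorem ts_of_sep {s : Src} (hs : IsSrc s) (hk : 64 ≤ k) (hN : 128 * k ≤ N)
    {ω : Config} (h1 : per N ω ∈ Sep s .W .E k) :
    TS N k (per N (Function.update ω (sv 0) false)) (FX s .W .E k (per N ω))
      (FY s .W .E k (per N ω)) := by
  obtain ⟨hx, hy, hxy, hmx, hmy⟩ := h1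
  have hox : s.ful .W .E k (per N ω) (sv s.x) = true :=
    Pool.Agent.H38.N59.le_fillS (open_x (by omega) s.hx hx)
  have hoy : s.ful .W .E k (per N ω) (sv s.y) = true :=
    Pool.Agent.H38.N59.le_fillS (open_x (by omega) s.hy hy)
  have hcX : ∀ a ∈ FX s .W .E k (per N ω), ∀ b ∈ dom .W .E k, ∀ e, Joins e a b →
      per N (Function.update ω (sv 0) false) (sv b) = true → b ∈ FX s .W .E k (per N ω) := by
    intro a ha b hb e he ho
    exact Pool.Agent.H38.N59.clus_adj ha (Pool.Agent.H38.N59.open_of_clus hox ha)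
      (Pool.Agent.H38.N59.le_fillS (zeta_cut hs ho)) he hb
  have hcY : ∀ a ∈ FY s .W .E k (per N ω), ∀ b ∈ dom .W .E k, ∀ e, Joins e a b →
      per N (Function.update ω (sv 0) false) (sv b) = true → b ∈ FY s .W .E k (per N ω) := by
    intro a ha b hb e he ho
    exact Pool.Agent.H38.N59.clus_adj ha (Pool.Agent.H38.N59.open_of_clus hoy ha)
      (Pool.Agent.H38.N59.le_fillS (zeta_cut hs ho)) he hb
  have hfill : ∀ (x : Vert) (Tt : Set Vert), Tt ⊆ T .W k ∪ T .E k →
      (∀ u ∈ Tt, ∀ v ∈ Tt, Conn allOpen Tt u v) →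
      (∃ u ∈ Tt, Conn (sit (s.cut (per N ω))) (dom .W .E k) x u) →
      Tt ⊆ clus (sit (s.ful .W .E k (per N ω))) (dom .W .E k) {x} := by
    rintro x Tt hT hcon ⟨u, hu, hc⟩ v hv
    rw [Pool.Agent.H59.EX.mem_clus_single]
    refine (Pool.Agent.H38.N59.conn_mono le_rfl (fun e he => Pool.Agent.H38.N59.le_fillS he)
      hc).trans ?_
    exact Pool.Agent.H38.N59.conn_fillS (fun w hw => Or.inr hw) ((hcon u hu v hv).mono_set hT)
  refine ⟨⟨hk, hN, perInv_sit (perInv_per _ _), Pool.Agent.H59.EX.clus_sub,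
    Pool.Agent.H59.EX.clus_sub, ?_, ?_, ?_, ?_, ?_, ?_, ?_⟩, perInv_per _ _, hcX, hcY⟩
  · exact hfill s.x _ Set.subset_union_left
      (fun u hu v hv => conn_rect hu hv) (Pool.Agent.H59.EX.fence_mem hx)
  · exact hfill s.y _ Set.subset_union_right
      (fun u hu v hv => conn_rect hu hv) (Pool.Agent.H59.EX.fence_mem hy)
  · intro v hv hv'
    rw [Pool.Agent.H38.N59.mem_FX] at hv
    rw [Pool.Agent.H38.N59.mem_FY] at hv'
    exact hxy (hv.trans hv'.symm)
  · intro a ha b hb e he ho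
    exact hcX a ha b hb e he ((sit_joins he).1 ho).2
  · intro a ha b hb e he ho
    exact hcY a ha b hb e he ((sit_joins he).1 ho).2
  · intro v hv hv'
    exact hmx v hv' (Pool.Agent.H38.N59.mem_FX.1 hv)
  · intro v hv hv'
    exact hmy v hv' (Pool.Agent.H38.N59.mem_FY.1 hv)

theorem closed_not_wind {ρ K : ℕ} {s : Src} (hs : IsSrc s) (hk : 64 ≤ k)
    (hN : 128 * k ≤ N) (hρ : 1 ≤ ρ) (hρk : 8 * ρ ≤ k) (hK : N ≤ K * ρ) {ω : Config}
    (h1 : per N ω ∈ Sep s .W .E k)
    (h3 : per N ω ∈ HT N k ρ K (FX s .W .E k (per N ω) ∪ FY s .W .E k (per N ω))) :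
    Function.update ω (sv 0) false ∉ WindS N := by
  rintro ⟨u, p, q, hp, hc⟩
  refine (ts_of_sep hs hk hN h1).not_wind hρ hρk hK (fun e he => ?_) h3 hp hc
  have h2 : per N (Function.update ω (sv 0) false) e =
      Function.update ω (sv 0) false (modE N e) := rfl
  rw [h2, Function.update_apply] at he
  split_ifs at he
  exact he

end Pool.Agent.H83.PST

end

section

/-!
# With the source open there is a winding path
-/

set_option autoImplicit false

open MeasureTheory ProbabilityTheory unitInterval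

namespace Pool.Agent.H83.PST

open Pool.Agent.H89.Perc
open Pool.Agent.H61.NC (modE)
open Pool.Agent.H83.SK (sv sit sit_true RSWreg)
open Pool.Agent.H59.EX (LocS inE touch clus closeS Side T Mouth Fence dom pb grid)
open Pool.Agent.H38.N59 (vE rv fillS Src Sep FX FY det Seal Four)
open Pool.Agent.H26.ST (Cor glu PerInv sh TD Rel1 In)
open Pool.Agent.H92.SN (WindS tSites)

private theorem conn_x {N : ℕ} {ζ : Config} (hp : PerInv N ζ) {S S' : Set Vert}
    (hS : ∀ w ∈ S, ((w.1 + N, w.2) : Vert) ∈ S') {u v : Vert} (h : Conn ζ S u v) :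
    Conn ζ S' (u.1 + N, u.2) (v.1 + N, v.2) := by
  refine h.map (fun w => (w.1 + N, w.2)) hS ?_
  intro e a b hj ho
  refine ⟨shiftE ((N : ℤ), 0) e, ?_, ?_⟩
  · have := joins_shift ((N : ℤ), 0) hj
    simpa using this
  · have := hp (1, 0) e
    rw [one_mul, zero_mul] at this
    rw [this]
    exact ho

/-- The path `x - 0 - y - T E - corridor - T W + (N, 0) - x + (N, 0)`. -/
theorem open_wind {N k : ℕ} {s : Src} (hs : IsSrc s) (hk : 64 ≤ k)
    (hN : 128 * k ≤ N) {ω : Config} (h1 : per N ω ∈ Sep s .W .E k)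
    (h2 : per N ω ∈ NpT N k) : Function.update ω (sv 0) true ∈ WindS N := by
  obtain ⟨ω', hω'⟩ : ∃ ω' : Config, ω' = Function.update ω (sv 0) true := ⟨_, rfl⟩
  rw [← hω']
  have hk' : (64 : ℤ) ≤ k := by exact_mod_cast hk
  have hN' : 128 * (k : ℤ) ≤ N := by exact_mod_cast hN
  have hle0 : ∀ e, ω e = true → ω' e = true := by
    intro e he
    rw [hω', Function.update_apply]
    split_ifs
    · rfl
    · exact he
  have hle : ∀ e, per N ω e = true → per N ω' e = true := fun e he => hle0 _ he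
  have hcut0 : ∀ e, s.cut (per N ω) e = true → per N ω' e = true := fun e he =>
    hle e (Pool.Agent.H38.N59.cut_le he)
  have hcut := Pool.Agent.H83.SK.sit_mono hcut0
  have hsle := Pool.Agent.H83.SK.sit_mono hle
  have hper : PerInv N (sit (per N ω')) := perInv_sit (Pool.Agent.H26.ST.perInv_per N ω')
  obtain ⟨⟨uW, vW, pW, qW, cW, dW⟩, ⟨uE, vE, pE, qE, cE, dE⟩, -⟩ := h1
  obtain ⟨u, v, p, q, c⟩ :
    HCross (sit (glu N k (per N ω))) (28 * k) (N - 28 * k) (-(3 * k)) (3 * k) := h2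
  rw [Pool.Agent.H26.ST.glu_per] at c
  have c1 := c.mono le_rfl hsle
  have cE1 : Conn (sit (per N ω')) (rect (28 * k) (36 * k) (-(3 * k)) (3 * k)) uE vE :=
    Conn.mono le_rfl hcut cE
  have cW1 : Conn (sit (per N ω')) (rect (-(36 * k)) (-(28 * k)) (-(3 * k)) (3 * k)) uW vW :=
    Conn.mono le_rfl hcut cW
  have cW2 := conn_x hper (S' := rect (N - 36 * k) (N - 28 * k) (-(3 * k)) (3 * k)) (fun w hw => by
    simp only [rect, Set.mem_ofPred_eq] at hw ⊢
    omega) cW1
  obtain ⟨z1, a1, b1⟩ := Pool.Agent.H85.Strict.hv_meet c1 (by omega) (by omega) cE1 (by omega)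
    (by omega) (by omega) (by omega)
  obtain ⟨z2, a2, b2⟩ := Pool.Agent.H85.Strict.hv_meet c1 (by omega) (by omega) cW2
    (by simp only; omega) (by simp only; omega) (by omega) (by omega)
  have sub : ∀ S : Set Vert, S ⊆ Set.univ := fun S => Set.subset_univ S
  have huW := cW1.mem_left
  have huE := cE1.mem_left
  simp only [rect, Set.mem_ofPred_eq] at huW huE
  have hx2 := s.hx
  have hy2 := s.hy
  simp only [mem_ball, Prod.fst_zero, Prod.snd_zero, Nat.cast_ofNat] at hx2 hy2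
  have hox : per N ω' (sv s.x) = true := by
    refine hcut0 _ (Pool.Agent.H38.N59.open_of_conn dW ?_)
    intro h
    rw [h] at hx2
    omega
  have hoy : per N ω' (sv s.y) = true := by
    refine hcut0 _ (Pool.Agent.H38.N59.open_of_conn dE ?_)
    intro h
    rw [h] at hy2
    omega
  have ho0 : per N ω' (sv (0, 0)) = true := by
    simp only [per, sv, Int.zero_emod]
    rw [hω']
    exact Function.update_self (f := ω) (sv 0) true
  -- the source
  have hxy : Conn (sit (per N ω')) Set.univ s.x s.y := by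
    obtain ⟨e, he⟩ := hs.x
    obtain ⟨e', he'⟩ := hs.y
    have t1 : Step (sit (per N ω')) Set.univ s.x (0, 0) := ⟨trivial, trivial, e, he,
      (Pool.Agent.H38.N59.sit_joins he).2 ⟨hox, ho0⟩⟩
    have t2 : Step (sit (per N ω')) Set.univ (0, 0) s.y := ⟨trivial, trivial, e', he',
      (Pool.Agent.H38.N59.sit_joins he').2 ⟨ho0, hoy⟩⟩
    exact t1.conn.trans t2.conn
  have k1 : Conn (sit (per N ω')) Set.univ s.y uE := Conn.mono (sub _) hcut dE
  have k2 : Conn (sit (per N ω')) Set.univ uE (uW.1 + N, uW.2) :=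
    (((b1.mono_set (sub _)).trans (a1.mono_set (sub _)).symm).trans
      (a2.mono_set (sub _))).trans (b2.mono_set (sub _)).symm
  have k3 : Conn (sit (per N ω')) Set.univ s.x uW := Conn.mono (sub _) hcut dW
  have k4 := conn_x hper (S' := Set.univ) (fun _ _ => trivial) k3
  refine ⟨s.x, 1, 0, one_ne_zero, ?_⟩
  have e1 : ((s.x.1 + 1 * (N : ℤ), s.x.2 + 0 * (N : ℤ)) : Vert) = (s.x.1 + N, s.x.2) := by
    rw [one_mul, zero_mul, add_zero]
  rw [e1]
  exact ((hxy.trans k1).trans k2).trans k4.symm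

end Pool.Agent.H83.PST

end

section

/-!
# A separated four-arm event costs at most a pivotal site of the torus
-/

set_option autoImplicit false

open MeasureTheory ProbabilityTheory unitInterval

namespace Pool.Agent.H83.PST

open Pool.Agent.H89.Perc
open Pool.Agent.H61.NC (modE)
open Pool.Agent.H83.SK (sv sit sit_true RSWreg sT)
open Pool.Agent.H59.EX (pb)
open Pool.Agent.H38.N59 (Src Sep FX FY det Seal)

/-- `K₁` is any constant. -/
theorem torus_ext (c : ℝ) (hc : 0 < c) (K₁ : ℕ) : ∃ C : ℝ, 0 < C ∧ ∀ (N k : ℕ) (q : I)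
    (s : Src), IsSrc s → 64 ≤ k → 128 * k ≤ N → N ≤ K₁ * k → RSWreg c N q →
      Pr q (Sep s .W .E k) ≤ C * sT q N := by
  obtain ⟨c₁, hc₁, H1⟩ := NpT_lower c hc K₁
  obtain ⟨c₂, hc₂, H2⟩ := HT_lower c hc K₁ (16 * K₁)
  refine ⟨1 / (c₁ * c₂), by positivity, ?_⟩
  intro N k q s hs hk hN hN₁ hreg
  obtain ⟨ρ, hρ⟩ : ∃ ρ : ℕ, ρ = k / 8 := ⟨_, rfl⟩
  have hρ1 : 1 ≤ ρ := by omega
  have hρk : 8 * ρ ≤ k := by omega
  have hkρ : k ≤ 16 * ρ := by omega
  have hK : N ≤ 16 * K₁ * ρ := by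
    calc N ≤ K₁ * k := hN₁
      _ ≤ K₁ * (16 * ρ) := Nat.mul_le_mul_left _ hkρ
      _ = 16 * K₁ * ρ := by ring
  have key := Pool.Agent.H38.N59.corridor_prob (q := q) (π := modE N) (s := s) (d := .W)
    (d' := .E) (k := k)
    (C := CC N k) (Np := NpT N k) (H := HT N k ρ (16 * K₁)) (c₁ := c₁) (c₂ := c₂) hc₂.le
    (injOn_modE hk hN) (T_sub_CC hk hN) (CC_inter hk hN) (CC_finite N k)
    (locS_NpT hN) (incr_NpT N k) (H1 N k q hk hN hN₁ hreg) (locS_HT hk hN)
    (localOn_HT N k ρ (16 * K₁)) (fun S => H2 N k ρ q S hk hN hN₁ hρ1 hρk hreg)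
  have h3 : Pr q {ω | pb (modE N) ω ∈ Sep s .W .E k ∧ pb (modE N) ω ∈ NpT N k ∧
      pb (modE N) ω ∈ HT N k ρ (16 * K₁) (FX s .W .E k (pb (modE N) ω) ∪
        FY s .W .E k (pb (modE N) ω))} ≤ sT q N := by
    refine le_sT (by omega) ?_
    rintro ω ⟨h4, h5, h6⟩
    exact ⟨open_wind hs hk hN h4 h5, closed_not_wind hs hk hN hρ1 hρk hK h4 h6⟩
  have h7 := key.trans h3
  rw [div_mul_eq_mul_div, one_mul, le_div_iff₀ (by positivity)]
  calc Pr q (Sep s .W .E k) * (c₁ * c₂) = c₁ * c₂ * Pr q (Sep s .W .E k) := by ring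
    _ ≤ _ := h7

end Pool.Agent.H83.PST

end

end

section

/-! The parts of this file: H13.SK.LenTwo, H13.SK.LenThree. -/

section

/-!
# The characteristic length of site percolation
-/

set_option autoImplicit false

open MeasureTheory ProbabilityTheory unitInterval Filter Topology

namespace Pool.Agent.H13.SK

open Pool.Agent.H89.Perc Pool.Agent.H83.Site

end Pool.Agent.H13.SK

end

section

/-!
# The regime in the window around the critical density
-/

set_option autoImplicit false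

open MeasureTheory ProbabilityTheory unitInterval Filter Topology

namespace Pool.Agent.H13.SK

open Pool.Agent.H89.Perc Pool.Agent.H83.Site

variable {a4 : I → ℕ → ℝ} {Wp : I → ℕ → ℝ} {Reg : ℝ → ℕ → I → Prop}

/-- Upper bound for `n ^ 2 a4(n)`. -/
theorem NC.sq_up (H : NC a4 Wp Reg) : ∃ C > (0 : ℝ), ∃ δ > (0 : ℝ), δ < 1 ∧
    ∀ n : ℕ, 1 ≤ n → (n : ℝ) ^ 2 * a4 pc n ≤ C * (n : ℝ) ^ (1 - δ) := by
  obtain ⟨c, hc, hreg⟩ := H.reg_pc
  obtain ⟨C, hC, δ₀, hδ₀, hδ₁, hg⟩ := H.high c hc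
  refine ⟨C * a4 pc 1, mul_pos hC H.pos, δ₀ / 2, by positivity, by linarith, fun n hn => ?_⟩
  have hn1 : (1 : ℝ) ≤ n := by exact_mod_cast hn
  have hn0 : (0 : ℝ) < n := by linarith
  have h1 := hg 1 n pc le_rfl hn (hreg _)
  have h2 : (((1 : ℕ) : ℝ) / n) ^ (1 + δ₀) = (n : ℝ) ^ (-(1 + δ₀)) := by
    rw [Nat.cast_one, one_div, Real.inv_rpow hn0.le, Real.rpow_neg hn0.le]
  rw [h2] at h1
  have h3 : (n : ℝ) ^ 2 * (n : ℝ) ^ (-(1 + δ₀)) = (n : ℝ) ^ (1 - δ₀) := by
    rw [← Real.rpow_two, ← Real.rpow_add hn0]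
    congr 1
    ring
  have h4 : (n : ℝ) ^ (1 - δ₀) ≤ (n : ℝ) ^ (1 - δ₀ / 2) :=
    Real.rpow_le_rpow_of_exponent_le hn1 (by linarith)
  have hp := H.pos
  calc (n : ℝ) ^ 2 * a4 pc n ≤ (n : ℝ) ^ 2 * (C * (n : ℝ) ^ (-(1 + δ₀)) * a4 pc 1) :=
        mul_le_mul_of_nonneg_left h1 (by positivity)
    _ = C * a4 pc 1 * ((n : ℝ) ^ 2 * (n : ℝ) ^ (-(1 + δ₀))) := by ring
    _ = C * a4 pc 1 * (n : ℝ) ^ (1 - δ₀) := by rw [h3]
    _ ≤ C * a4 pc 1 * (n : ℝ) ^ (1 - δ₀ / 2) := mul_le_mul_of_nonneg_left h4 (by positivity)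

end Pool.Agent.H13.SK

end

end
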