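import Pool.Agent.H94.BG.H31.PT.M11_3
import Pool.Agent.H94.BG.H31.PT.M18
import Pool.Agent.H94.BG.H31.PT.M25

/-! The parts of this file: H31.PT.M18_1, H31.PT.M29. -/

section

/-! The parts of this file: H83.Site.PcRange, H92.SN.A4B, H38.SK.Dict, H38.SK.WindT, H38.SK.WindP, H92.SN.TSym, H83.SK.P29.A4Low, H38.SK.N59.Seal, H38.SK.N59.St4, H38.SK.N59.St2, H38.SK.N59.GeoP, H38.SK.N59.GeoAll, H38.SK.N59.MoveStr, H83.SK.PST.Defs. -/

section

/-!
# The critical density is neither zero nor one
-/

set_option autoImplicit false

open MeasureTheory ProbabilityTheory unitInterval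

namespace Pool.Agent.H83.Site

open Pool.Agent.H89.Perc

theorem BXP.pos {p : I} {r : Bool} (h : BXP p r) : (0 : ℝ) < p := by
  obtain ⟨c, hc, h1⟩ := h 1
  have h2 := h1 1 le_rfl
  have h3 : PT p r {η | HC η 0 ((1 : ℕ) * (1 : ℕ)) 0 (1 : ℕ)} ≤
      Pr p {ω : Config | ω (0, 0, false) = true} + Pr p {ω : Config | ω (0, 1, false) = true} := by
    refine le_trans ?_ Pr_union_le
    unfold PT
    refine Pr_mono ?_
    rintro ω ⟨y, y', hc⟩
    have hm := hc.mem_left
    have ho := hc.open_left
    rw [mem_TR_site] at hm
    have hy : y = 0 ∨ y = 1 := by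
      have h1 := hm.2.2.1
      have h2 := hm.2.2.2
      have : ((1 : ℕ) : ℤ) = 1 := rfl
      omega
    simp only [full, Bool.false_eq_true, if_false] at ho
    rcases hy with rfl | rfl
    · exact Or.inl ho
    · exact Or.inr ho
  rw [Pr_open, Pr_open] at h3
  have h4 := h2.trans h3
  linarith

theorem pc_pos : (0 : ℝ) < pc := bxp_pc.1.pos

theorem pc_lt_one : (pc : ℝ) < 1 := by
  have h := bxp_pc.2.pos
  have : ((σ pc : I) : ℝ) = 1 - pc := rfl
  rw [this] at h
  linarith only [h]

end Pool.Agent.H83.Site

end

section

/-!
# Basic properties of the four-arm event of a site, in the plane and on the torus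
-/

set_option autoImplicit false

open MeasureTheory ProbabilityTheory unitInterval

namespace Pool.Agent.H92.SN

open Pool.Agent.H89.Perc
open Pool.Agent.H61.NC (modE fill mid)
open Pool.Agent.H83.SK (sv sit)

end Pool.Agent.H92.SN

end

section

/-!
# Dictionary between the centred lattice and the induced bond configuration
-/

set_option autoImplicit false

open MeasureTheory ProbabilityTheory unitInterval

namespace Pool.Agent.H83.SK.Dict

open Pool.Agent.H89.Perc Pool.Agent.H83.Site

/-! ### Crossings -/

/-! ### Probabilities -/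

/-! ### The box-crossing regime -/

/-! ### Arms -/

end Pool.Agent.H83.SK.Dict

end

section

/-!
# Winding paths of site percolation on the torus
-/

set_option autoImplicit false

open MeasureTheory ProbabilityTheory unitInterval

namespace Pool.Agent.H83.SK.WG

open Pool.Agent.H89.Perc Pool.Agent.H83.Site
open Pool.Agent.H92.SN (WindS tSites)

/-! ### Periodic configurations -/

/-! ### Winding paths from crossings -/

end Pool.Agent.H83.SK.WG

end

section

/-!
# The probability of winding for site percolation on the torus
-/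

set_option autoImplicit false

open MeasureTheory ProbabilityTheory unitInterval

namespace Pool.Agent.H83.SK.WG

open Pool.Agent.H89.Perc Pool.Agent.H83.Site
open Pool.Agent.H92.SN (WindS tSites)

variable {q : I} {N : ℕ} {a b c d : ℤ}

/-! ### Crossings at all places -/

/-! ### The four crossings -/

section
variable {e : ℝ} {h m L : ℤ}

end

/-! ### The box-crossing regime -/

/-! ### Good scales -/

end Pool.Agent.H83.SK.WG

end

section

/-!
# The winding event of the torus and its translation invariance
-/

set_option autoImplicit false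

open MeasureTheory ProbabilityTheory unitInterval

namespace Pool.Agent.H92.SN

open Pool.Agent.H89.Perc
open Pool.Agent.H61.NC (fill mid upd Joint)
open Pool.Agent.H83.SK (sv sit)

end Pool.Agent.H92.SN

end

section

/-!
# Site percolation, small scales: finite energy
-/

open MeasureTheory ProbabilityTheory unitInterval

namespace Pool.Agent.H83.SK

open Pool.Agent.H89.Perc Pool.Agent.H29.Sep
open Pool.Agent.H59.EX (Src Four closeS_true)

end Pool.Agent.H83.SK

end

section

/-!
# Seals for site percolation
-/

set_option autoImplicit false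

open MeasureTheory ProbabilityTheory unitInterval

namespace Pool.Agent.H38.N59

open Pool.Agent.H89.Perc
open Pool.Agent.H83.SK (sv sit sit_true RSWreg)
open Pool.Agent.H59.EX (LocS inE touch clus closeS Side T Mouth Fence dom pb grid)

end Pool.Agent.H38.N59

end

section

/-!
# Outward separation for sites: stage 4
-/

set_option autoImplicit false

open MeasureTheory ProbabilityTheory unitInterval

namespace Pool.Agent.H38.N59

open Pool.Agent.H89.Perc
open Pool.Agent.H61.NC hiding RSWreg
open Pool.Agent.H83.SK (sv sit sit_true RSWreg)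
open Pool.Agent.H59.EX (LocS inE touch clus closeS Side T Mouth Fence dom CorrData CorrSep mem_sphere_of_joins markov_indep grid card_grid)

end Pool.Agent.H38.N59

end

section

/-!
# Outward separation for sites: stage 2
-/

set_option autoImplicit false

open MeasureTheory ProbabilityTheory unitInterval

namespace Pool.Agent.H38.N59

open Pool.Agent.H89.Perc
open Pool.Agent.H61.NC hiding RSWreg
open Pool.Agent.H83.SK (sv sit sit_true RSWreg)
open Pool.Agent.H59.EX (LocS inE touch clus closeS Side T Mouth Fence dom CorrData CorrSep mem_sphere_of_joins markov_indep grid card_grid)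

end Pool.Agent.H38.N59

end

section

/-!
# Probability of the crossing events of the corridors
-/

open MeasureTheory ProbabilityTheory unitInterval

namespace Pool.Agent.H83.SK.NG

open Pool.Agent.H59.EX

open Pool.Agent.H89.Perc
open Pool.Agent.H29.Sep (Circ)

namespace GeoQ

end GeoQ

open GeoQ

end Pool.Agent.H83.SK.NG

end

section

/-!
# Corridors for the second point
-/

open MeasureTheory ProbabilityTheory unitInterval

namespace Pool.Agent.H83.SK.NG

open Pool.Agent.H59.EX

open Pool.Agent.H89.Perc

end Pool.Agent.H83.SK.NG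

end

section

/-!
# The straight corridors of the moves, probabilities
-/

open MeasureTheory ProbabilityTheory unitInterval

namespace Pool.Agent.H83.SK.NG

open Pool.Agent.H59.EX

open Pool.Agent.H89.Perc Pool.Agent.H61.NC
open Pool.Agent.H85.Strict (hv_meet)

end Pool.Agent.H83.SK.NG

end

section

/-!
# Site percolation on the torus: separated four arms, definitions

The torus of side `N` is `ℤ²` with the periodic configuration `per N ω = pb (modE N) ω` of sites. The
source is the closed site `0` with two of its neighbours; the first neighbour has its mouth in the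
west, the second one in the east. The corridor is the horizontal strip `[28 k, N - 28 k] × [-3 k,
3 k]` from the east target to the translate by `(N, 0)` of the west target.
-/

set_option autoImplicit false

open MeasureTheory ProbabilityTheory unitInterval

namespace Pool.Agent.H83.PST

open Pool.Agent.H89.Perc
open Pool.Agent.H61.NC (modE)
open Pool.Agent.H83.SK (sv sit sit_true RSWreg)
open Pool.Agent.H59.EX (LocS inE touch clus closeS Side T Mouth Fence dom pb grid)
open Pool.Agent.H26.ST (Cor PerInv sh TD Rel1 In)
open Pool.Agent.H92.SN (WindS tSites)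

end Pool.Agent.H83.PST

end

end

section

/-! The parts of this file: H13.SK.LenTwo, H13.SK.LenThree. -/

section

/-!
# The characteristic length of site percolation
-/

set_option autoImplicit false

open MeasureTheory ProbabilityTheory unitInterval Filter Topology

namespace Pool.Agent.H13.SK

open Pool.Agent.H89.Perc Pool.Agent.H83.Site

/-- The point of the unit interval closest to `x`. -/
noncomputable def pI (x : ℝ) : I := Set.projIcc 0 1 zero_le_one x

theorem pI_eq {x : ℝ} {p : I} (h : (p : ℝ) = x) : pI x = p := by
  unfold pI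
  rw [← h]
  exact Set.projIcc_val zero_le_one p

theorem pI_val {x : ℝ} (h0 : 0 ≤ x) (h1 : x ≤ 1) : ((pI x : I) : ℝ) = x := by
  have : pI x = ⟨x, h0, h1⟩ := pI_eq rfl
  rw [this]

/-- Properties of the characteristic length `L(h)` of site percolation on the square lattice. -/
structure LenFacts (a4 : I → ℕ → ℝ) (L : ℝ → ℕ) : Prop where
  large : ∀ n : ℕ, ∃ η > (0 : ℝ), ∀ h : ℝ, 0 < h → h < η → n ≤ L h
  reg : ∀ K : ℕ, ∃ c > (0 : ℝ), ∃ η > (0 : ℝ), ∀ h : ℝ, 0 < h → h < η → ∀ q : I,
    |(q : ℝ) - pc| ≤ h → RegT 8 c (K * L h) q
  scale : ∃ c > (0 : ℝ), ∃ C > (0 : ℝ), ∃ η > (0 : ℝ), ∀ h : ℝ, 0 < h → h < η →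
    c ≤ h * ((L h : ℝ) ^ 2 * a4 pc (L h)) ∧ h * ((L h : ℝ) ^ 2 * a4 pc (L h)) ≤ C
  theta : ∃ c > (0 : ℝ), ∃ η > (0 : ℝ), ∀ h : ℝ, 0 < h → h < η → ∀ p : I, (p : ℝ) = pc + h →
    c * ab pc false 0 (L h) ≤ thT p false
  sigma : ∃ C > (0 : ℝ), ∃ η > (0 : ℝ), ∀ h : ℝ, 0 < h → h < η → ∀ p : I, (p : ℝ) = pc - h →
    ∀ F : Finset (ℤ × ℤ), ∑ v ∈ F, PT p false (C0 v) ≤
      C * (L h : ℝ) ^ 2 * ab pc false 0 (L h) ^ 2

end Pool.Agent.H13.SK

end

section

/-!
# The regime in the window around the critical density
-/

set_option autoImplicit false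

open MeasureTheory ProbabilityTheory unitInterval Filter Topology

namespace Pool.Agent.H13.SK

open Pool.Agent.H89.Perc Pool.Agent.H83.Site

variable {a4 : I → ℕ → ℝ} {Wp : I → ℕ → ℝ} {Reg : ℝ → ℕ → I → Prop}

/-- The critical density is in the regime of crossings at all scales. -/
theorem regT_pc (K : ℕ) : ∃ c > (0 : ℝ), ∀ n : ℕ, RegT K c n pc := by
  obtain ⟨c, hc, h1⟩ := bxp_pc.1 K
  obtain ⟨c', hc', h2⟩ := bxp_pc.2 K
  exact ⟨min c c', lt_min hc hc', fun n m hm _ =>
    ⟨(min_le_left _ _).trans (h1 m hm), (min_le_right _ _).trans (h2 m hm)⟩⟩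

end Pool.Agent.H13.SK

end

end
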