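import Pool.Agent.H94.BG.H31.PT.M07_4
import Pool.Agent.H94.BG.H31.PT.M13_2
import Pool.Agent.H94.BG.H31.PT.M18_6
import Pool.Agent.H94.BG.H31.PT.M25_1
import Pool.Agent.H94.BG.H31.PT.M25_2
import Pool.Agent.H94.BG.H31.PT.M25_7
import Pool.Agent.H94.BG.M24

/-! The parts of this file: H31.PT.M18_8, H31.PT.M25_3, H31.PT.M26. -/

section

/-! The parts of this file: H83.Site.PcRange, H92.SN.A4B, H38.SK.Dict, H38.SK.WindT, H38.SK.WindP, H92.SN.TSym, H83.SK.P29.A4Low, H38.SK.N59.Seal, H38.SK.N59.St4, H38.SK.N59.St2, H38.SK.N59.GeoP, H38.SK.N59.GeoAll, H38.SK.N59.MoveStr, H83.SK.PST.Defs. -/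

section

/-!
# The critical density is neither zero nor one
-/

set_option autoImplicit false

open MeasureTheory ProbabilityTheory unitInterval

namespace Pool.Agent.H83.Site

open Pool.Agent.H89.Perc

end Pool.Agent.H83.Site

end

section

/-!
# Basic properties of the four-arm event of a site, in the plane and on the torus
-/

set_option autoImplicit false

open MeasureTheory ProbabilityTheory unitInterval

namespace Pool.Agent.H92.SN

open Pool.Agent.H89.Perc
open Pool.Agent.H61.NC (modE fill mid)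
open Pool.Agent.H83.SK (sv sit)
open Pool.Agent.H90.AL (dT)

end Pool.Agent.H92.SN

end

section

/-!
# Dictionary between the centred lattice and the induced bond configuration
-/

set_option autoImplicit false

open MeasureTheory ProbabilityTheory unitInterval

namespace Pool.Agent.H83.SK.Dict

open Pool.Agent.H89.Perc Pool.Agent.H83.Site

variable {ω : Config} {S : Set Vert} {T : Set TV} {a b c d : ℤ} {p q : I}

/-- A step of the induced configuration is a step of the centred lattice. -/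
theorem tstep_of_step (hST : ∀ v ∈ S, sv v ∈ T) {u v : Vert} (h : Step (sit ω) S u v)
    (r : Bool) : TStep (full r ω) T (sv u) (sv v) := by
  obtain ⟨h1, h2, e, he, ho⟩ := h
  have h3 := (sit_joins he).1 ho
  exact ⟨hST _ h1, hST _ h2, tadj_of_joins he, by rw [full_sv]; exact h3.1,
    by rw [full_sv]; exact h3.2⟩

theorem tconn_of_conn (hST : ∀ v ∈ S, sv v ∈ T) {u v : Vert} (h : Conn (sit ω) S u v)
    (hu : ω (sv u) = true) (r : Bool) : TConn (full r ω) T (sv u) (sv v) := by
  refine h.induction_right (P := fun v => TConn (full r ω) T (sv u) (sv v))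
    (TConn.refl (hST _ h.mem_left) (by rw [full_sv]; exact hu)) ?_
  intro a b _ hab ih
  exact ih.tail (tstep_of_step hST hab r)

/-- Open paths of the centred lattice with closed centres are open paths of sites. -/
theorem conn_of_tconn (hTS : ∀ v, sv v ∈ T → v ∈ S) {u : Vert} {w : TV}
    (h : TConn (full false ω) T (sv u) w) :
    w = sv (w.1, w.2.1) ∧ Conn (sit ω) S u (w.1, w.2.1) := by
  have key : ∀ w : TV, full false ω w = true → w = sv (w.1, w.2.1) := by
    rintro ⟨x, y, t⟩ hw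
    cases t
    · rfl
    · simp [full] at hw
  refine ⟨key w h.open_right, ?_⟩
  refine h.induction_right (P := fun w => Conn (sit ω) S u (w.1, w.2.1))
    (Conn.refl (hTS _ h.mem_left)) ?_
  intro a b _ hab ih
  obtain ⟨h1, h2, h3, h4, h5⟩ := hab
  have ha := key a h4
  have hb := key b h5
  rw [ha] at h1 h4
  rw [hb] at h2 h5
  rw [ha, hb] at h3
  obtain ⟨e, he⟩ := joins_of_tadj h3
  exact ih.tail ⟨hTS _ h1, hTS _ h2, e, he, (sit_joins he).2 ⟨h4, h5⟩⟩

/-! ### Crossings -/

theorem hcross_iff (hab : a < b) : HCross (sit ω) a b c d ↔ HC (full false ω) a b c d := by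
  constructor
  · rintro ⟨u, v, hu, hv, h⟩
    have huv : u ≠ v := by rintro rfl; omega
    have h1 := tconn_of_conn (T := TR a b c d) (fun v hv => sv_mem_TR.2 hv) h
      (open_of_conn h huv) false
    refine ⟨u.2, v.2, ?_⟩
    have e1 : sv u = (a, u.2, false) := by rw [← hu]; rfl
    have e2 : sv v = (b, v.2, false) := by rw [← hv]; rfl
    rwa [e1, e2] at h1
  · rintro ⟨y, y', h⟩
    have h1 := conn_of_tconn (S := rect a b c d) (u := (a, y)) (fun v hv => sv_mem_TR.1 hv) h
    exact ⟨(a, y), (b, y'), rfl, rfl, h1.2⟩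

theorem vcross_iff (hcd : c < d) : VCross (sit ω) a b c d ↔ VC (full false ω) a b c d := by
  constructor
  · rintro ⟨u, v, hu, hv, h⟩
    have huv : u ≠ v := by rintro rfl; omega
    have h1 := tconn_of_conn (T := TR a b c d) (fun v hv => sv_mem_TR.2 hv) h
      (open_of_conn h huv) false
    refine ⟨u.1, v.1, ?_⟩
    have e1 : sv u = (u.1, c, false) := by rw [← hu]; rfl
    have e2 : sv v = (v.1, d, false) := by rw [← hv]; rfl
    rwa [e1, e2] at h1
  · rintro ⟨x, x', h⟩
    have h1 := conn_of_tconn (S := rect a b c d) (u := (x, c)) (fun v hv => sv_mem_TR.1 hv) h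
    exact ⟨(x, c), (x', d), rfl, rfl, h1.2⟩

theorem not_vcross_iff (hab : a ≤ b) (hcd : c < d) :
    ¬ VCross (sit ω) a b c d ↔ HC (full true (neg ω)) a b c d := by
  rw [vcross_iff hcd, not_vc_iff hab hcd.le, neg_full]
  rfl

/-! ### Probabilities -/

theorem Pr_hcross (hab : a < b) :
    Pr p {ω | HCross ω a b c d} = PT p false {η | HC η a b c d} := by
  have e : {ω : Config | sit ω ∈ {ω | HCross ω a b c d}} =
      {ω | full false ω ∈ {η | HC η a b c d}} := by
    ext ω
    exact hcross_iff hab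
  rw [Pr, PT, e]

/-- The law of the configuration with open and closed exchanged. -/
theorem raw_neg {s : Finset Edge} {E : Set Config} (h : LocalOn s E) (r : Bool) :
    Pool.Agent.H89.Perc.Pr p {ω | full r (neg ω) ∈ E} = PT (σ p) r E := by
  have h1 := PT_neg (p := p) (r := !r) h
  rw [Bool.not_not] at h1
  rw [← h1, PT]
  congr 1
  ext ω
  simp only [Set.mem_ofPred_eq]
  rw [neg_full, Bool.not_not]

theorem Pr_not_vcross (hab : a ≤ b) (hcd : c < d) :
    Pr p {ω | ¬ VCross ω a b c d} = PT (σ p) true {η | HC η a b c d} := by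
  rw [← raw_neg (localOn_HC a b c d) true, Pr]
  congr 1
  ext ω
  exact not_vcross_iff hab hcd

/-! ### The box-crossing regime -/

/-- The box-crossing regime in terms of crossings of the centred lattice. -/
theorem rswreg_iff {c : ℝ} {n : ℕ} : RSWreg c n q ↔ ∀ m : ℕ, 1 ≤ m → m ≤ n →
    c ≤ PT q false {η | HC η 0 (4 * m) 0 m} ∧ c ≤ PT (σ q) true {η | HC η 0 (4 * m) 0 m} := by
  constructor
  · intro h m hm hn
    have h1 := h m hm hn
    rw [Pr_hcross (by omega), Pr_not_vcross (by omega) (by omega)] at h1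
    exact h1
  · intro h m hm hn
    have h1 := h m hm hn
    rw [Pr_hcross (by omega), Pr_not_vcross (by omega) (by omega)]
    exact h1

/-- The box-crossing regime at the critical point. -/
theorem rswreg_pc : ∃ c > (0 : ℝ), ∀ n : ℕ, RSWreg c n pc := by
  obtain ⟨c1, hc1, h1⟩ := bxp_pc.1 4
  obtain ⟨c2, hc2, h2⟩ := bxp_pc.2 4
  refine ⟨min c1 c2, lt_min hc1 hc2, fun n => rswreg_iff.2 fun m hm _ => ?_⟩
  exact ⟨(min_le_left _ _).trans (h1 m hm), (min_le_right _ _).trans (h2 m hm)⟩

/-! ### Arms -/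

end Pool.Agent.H83.SK.Dict

end

section

/-!
# Winding paths of site percolation on the torus
-/

set_option autoImplicit false

open MeasureTheory ProbabilityTheory unitInterval

namespace Pool.Agent.H83.SK.WG

open Pool.Agent.H89.Perc Pool.Agent.H83.Site Pool.Agent.H83.SK.Dict
open Pool.Agent.H92.SN (WindS tSites)

theorem windS_iff {N : ℕ} (hN : 1 ≤ N) {ω : Config} : ω ∈ WindS N ↔
    ∃ (u : TV) (a b : ℤ), a ≠ 0 ∧ TConn (full false (per N ω)) Set.univ u
      (shf (a * N) (b * N) u) := by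
  have hN' : (0 : ℤ) < N := by exact_mod_cast hN
  constructor
  · rintro ⟨u, a, b, ha, hc⟩
    refine ⟨sv u, a, b, ha, ?_⟩
    refine tconn_of_conn (T := Set.univ) (fun _ _ => trivial) hc (open_of_conn hc ?_) false
    intro h
    have h1 := congrArg Prod.fst h
    simp only at h1
    have h2 : a * N = 0 := by omega
    rcases mul_eq_zero.1 h2 with h3 | h3
    · exact ha h3
    · omega
  · rintro ⟨u, a, b, ha, hc⟩
    have e : u = sv (u.1, u.2.1) := by
      obtain ⟨x, y, t⟩ := u
      cases t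
      · rfl
      · have := hc.open_left
        simp [full] at this
    rw [e] at hc
    have h1 := conn_of_tconn (S := Set.univ) (fun _ _ => trivial) hc
    exact ⟨(u.1, u.2.1), a, b, ha, h1.2⟩

/-! ### Periodic configurations -/

/-! ### Winding paths from crossings -/

end Pool.Agent.H83.SK.WG

end

section

/-!
# The probability of winding for site percolation on the torus
-/

set_option autoImplicit false

open MeasureTheory ProbabilityTheory unitInterval

namespace Pool.Agent.H83.SK.WG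

open Pool.Agent.H89.Perc Pool.Agent.H83.Site Pool.Agent.H83.SK.Dict
open Pool.Agent.H92.SN (WindS tSites)

variable {q : I} {N : ℕ} {a b c d : ℤ}

theorem decr_neg_per {E : Set Config} (hE : Incr E) :
    Incr {ω | neg (full false (per N ω)) ∈ E}ᶜ :=
  incr_per (Pool.Agent.H83.Site.Incr.neg_compl hE)

/-! ### Crossings at all places -/

/-! ### The four crossings -/

theorem four_subset {h m : ℤ} (hN : 1 ≤ N) (hm : 0 ≤ m) (hh : 0 ≤ h) (hhN : h ≤ N) :
    four N h m ⊆ WindS N := by
  rintro ω ⟨⟨h1, h2⟩, h3, h4⟩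
  have hper : ∀ v, full false (per N ω) (shf N 0 v) = full false (per N ω) v := fun v => by
    simpa using full_per_shf false N ω 1 0 v
  obtain ⟨w, hw⟩ := wind_of_crossings hper hm hh hhN h1 h2 h3 h4
  exact (windS_iff hN).2 ⟨w, 1, 0, one_ne_zero, by simpa using hw⟩

theorem four_subset' {h m : ℤ} (hN : 1 ≤ N) (hm : 0 ≤ m) (hh : 0 ≤ h) (hhN : h ≤ N) :
    four' N h m ⊆ (WindS N)ᶜ := by
  rintro ω ⟨⟨h1, h2⟩, h3, h4⟩ hω
  have hper0 : ∀ (i j : ℤ) (v : TV), full false (per N ω) (shf (i * N) (j * N) v) =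
      full false (per N ω) v := full_per_shf false N ω
  have hper : ∀ v, neg (full false (per N ω)) (shf 0 N v) = neg (full false (per N ω)) v := by
    intro v
    have := hper0 0 1 v
    simp only [zero_mul, one_mul] at this
    simp only [neg, this]
  obtain ⟨w, hw⟩ := wind_of_crossings' hper hm hh hhN h1 h2 h3 h4
  obtain ⟨u, a, b, ha, hu⟩ := (windS_iff hN).1 hω
  exact wind_excl hN hper0 ha hu w hw

section
variable {e : ℝ} {h m L : ℤ}

theorem four_lower (hN : 1 ≤ N) (he : 0 ≤ e) (hm : 0 ≤ m) (hh : 0 ≤ h) (h1 : h + m < N)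
    (h2 : m + (N - h) < N) (hL : h + m ≤ L) (hL' : m + (N - h) ≤ L)
    (H : e ≤ PT q false {η | HC η 0 L 0 m}) :
    e ^ 4 ≤ Pool.Agent.H89.Perc.Pr q (WindS N) := by
  have p1 : e ≤ Pool.Agent.H89.Perc.Pr q
      {ω | full false (per N ω) ∈ {η | HC η 0 (h + m) 0 m}} := by
    rw [raw_per (a := 0) (b := h + m) (c := 0) (d := m) (by omega) (by omega)
      (localOn_HC _ _ _ _)]
    exact tcross H (by omega) (by omega) (by omega)
  have p2 : e ≤ Pool.Agent.H89.Perc.Pr q
      {ω | full false (per N ω) ∈ {η | HC η h (N + m) 0 m}} := by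
    rw [raw_per (a := h) (b := N + m) (c := 0) (d := m) (by omega) (by omega)
      (localOn_HC _ _ _ _)]
    exact tcross H (by omega) (by omega) (by omega)
  have p3 : e ≤ Pool.Agent.H89.Perc.Pr q
      {ω | full false (per N ω) ∈ {η | VC η h (h + m) 0 m}} := by
    rw [raw_per (a := h) (b := h + m) (c := 0) (d := m) (by omega) (by omega)
      (localOn_VC _ _ _ _)]
    exact tcross' H (by omega) (by omega) (by omega)
  have p4 : e ≤ Pool.Agent.H89.Perc.Pr q
      {ω | full false (per N ω) ∈ {η | VC η 0 m 0 m}} := by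
    rw [raw_per (a := 0) (b := m) (c := 0) (d := m) (by omega) (by omega)
      (localOn_VC _ _ _ _)]
    exact tcross' H (by omega) (by omega) (by omega)
  refine (pow4_le he p1 p2 p3 p4).trans ((fkg4 (local_per (localOn_HC _ _ _ _))
    (local_per (localOn_HC _ _ _ _)) (local_per (localOn_VC _ _ _ _))
    (local_per (localOn_VC _ _ _ _)) (incr_per (incr_HC _ _ _ _)) (incr_per (incr_HC _ _ _ _))
    (incr_per (incr_VC _ _ _ _)) (incr_per (incr_VC _ _ _ _))).trans
    (Pool.Agent.H89.Perc.Pr_mono (four_subset hN hm hh (by omega))))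

theorem four_near (hN : 1 ≤ N) (hm : 0 ≤ m) (hh : 0 ≤ h) (h1 : h + m < N)
    (h2 : m + (N - h) < N) (hL : h + m ≤ L) (hL' : m + (N - h) ≤ L)
    (H : 1 - e ≤ PT q false {η | HC η 0 L 0 m}) :
    1 - 4 * e ≤ Pool.Agent.H89.Perc.Pr q (WindS N) := by
  have p1 : 1 - e ≤ Pool.Agent.H89.Perc.Pr q
      {ω | full false (per N ω) ∈ {η | HC η 0 (h + m) 0 m}} := by
    rw [raw_per (a := 0) (b := h + m) (c := 0) (d := m) (by omega) (by omega)
      (localOn_HC _ _ _ _)]
    exact tcross H (by omega) (by omega) (by omega)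
  have p2 : 1 - e ≤ Pool.Agent.H89.Perc.Pr q
      {ω | full false (per N ω) ∈ {η | HC η h (N + m) 0 m}} := by
    rw [raw_per (a := h) (b := N + m) (c := 0) (d := m) (by omega) (by omega)
      (localOn_HC _ _ _ _)]
    exact tcross H (by omega) (by omega) (by omega)
  have p3 : 1 - e ≤ Pool.Agent.H89.Perc.Pr q
      {ω | full false (per N ω) ∈ {η | VC η h (h + m) 0 m}} := by
    rw [raw_per (a := h) (b := h + m) (c := 0) (d := m) (by omega) (by omega)
      (localOn_VC _ _ _ _)]
    exact tcross' H (by omega) (by omega) (by omega)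
  have p4 : 1 - e ≤ Pool.Agent.H89.Perc.Pr q
      {ω | full false (per N ω) ∈ {η | VC η 0 m 0 m}} := by
    rw [raw_per (a := 0) (b := m) (c := 0) (d := m) (by omega) (by omega)
      (localOn_VC _ _ _ _)]
    exact tcross' H (by omega) (by omega) (by omega)
  exact (near4 (local_per (localOn_HC _ _ _ _)) (local_per (localOn_VC _ _ _ _))
    (local_per (localOn_VC _ _ _ _)) p1 p2 p3 p4).trans
    (Pool.Agent.H89.Perc.Pr_mono (four_subset hN hm hh (by omega)))

theorem four_lower' (hN : 1 ≤ N) (he : 0 ≤ e) (hm : 0 ≤ m) (hh : 0 ≤ h) (h1 : h + m < N)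
    (h2 : m + (N - h) < N) (hL : h + m ≤ L) (hL' : m + (N - h) ≤ L)
    (H : e ≤ PT (σ q) true {η | HC η 0 L 0 m}) :
    e ^ 4 ≤ 1 - Pool.Agent.H89.Perc.Pr q (WindS N) := by
  have p1 : e ≤ Pool.Agent.H89.Perc.Pr q
      {ω | neg (full false (per N ω)) ∈ {η | VC η 0 m 0 (h + m)}} := by
    rw [raw_neg_per (a := 0) (b := m) (c := 0) (d := h + m) (by omega) (by omega)
      (localOn_VC _ _ _ _)]
    exact tcross' H (by omega) (by omega) (by omega)
  have p2 : e ≤ Pool.Agent.H89.Perc.Pr q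
      {ω | neg (full false (per N ω)) ∈ {η | VC η 0 m h (N + m)}} := by
    rw [raw_neg_per (a := 0) (b := m) (c := h) (d := N + m) (by omega) (by omega)
      (localOn_VC _ _ _ _)]
    exact tcross' H (by omega) (by omega) (by omega)
  have p3 : e ≤ Pool.Agent.H89.Perc.Pr q
      {ω | neg (full false (per N ω)) ∈ {η | HC η 0 m h (h + m)}} := by
    rw [raw_neg_per (a := 0) (b := m) (c := h) (d := h + m) (by omega) (by omega)
      (localOn_HC _ _ _ _)]
    exact tcross H (by omega) (by omega) (by omega)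
  have p4 : e ≤ Pool.Agent.H89.Perc.Pr q
      {ω | neg (full false (per N ω)) ∈ {η | HC η 0 m 0 m}} := by
    rw [raw_neg_per (a := 0) (b := m) (c := 0) (d := m) (by omega) (by omega)
      (localOn_HC _ _ _ _)]
    exact tcross H (by omega) (by omega) (by omega)
  rw [← Pool.Agent.H89.Perc.Pr_compl (localOn_windS hN)]
  refine (pow4_le he p1 p2 p3 p4).trans ((fkg4_decr (local_neg_per (localOn_VC _ _ _ _))
    (local_neg_per (localOn_VC _ _ _ _)) (local_neg_per (localOn_HC _ _ _ _))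
    (local_neg_per (localOn_HC _ _ _ _)) (decr_neg_per (incr_VC _ _ _ _))
    (decr_neg_per (incr_VC _ _ _ _)) (decr_neg_per (incr_HC _ _ _ _))
    (decr_neg_per (incr_HC _ _ _ _))).trans
    (Pool.Agent.H89.Perc.Pr_mono (four_subset' hN hm hh (by omega))))

theorem four_near' (hN : 1 ≤ N) (hm : 0 ≤ m) (hh : 0 ≤ h) (h1 : h + m < N)
    (h2 : m + (N - h) < N) (hL : h + m ≤ L) (hL' : m + (N - h) ≤ L)
    (H : 1 - e ≤ PT (σ q) true {η | HC η 0 L 0 m}) :
    Pool.Agent.H89.Perc.Pr q (WindS N) ≤ 4 * e := by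
  have p1 : 1 - e ≤ Pool.Agent.H89.Perc.Pr q
      {ω | neg (full false (per N ω)) ∈ {η | VC η 0 m 0 (h + m)}} := by
    rw [raw_neg_per (a := 0) (b := m) (c := 0) (d := h + m) (by omega) (by omega)
      (localOn_VC _ _ _ _)]
    exact tcross' H (by omega) (by omega) (by omega)
  have p2 : 1 - e ≤ Pool.Agent.H89.Perc.Pr q
      {ω | neg (full false (per N ω)) ∈ {η | VC η 0 m h (N + m)}} := by
    rw [raw_neg_per (a := 0) (b := m) (c := h) (d := N + m) (by omega) (by omega)
      (localOn_VC _ _ _ _)]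
    exact tcross' H (by omega) (by omega) (by omega)
  have p3 : 1 - e ≤ Pool.Agent.H89.Perc.Pr q
      {ω | neg (full false (per N ω)) ∈ {η | HC η 0 m h (h + m)}} := by
    rw [raw_neg_per (a := 0) (b := m) (c := h) (d := h + m) (by omega) (by omega)
      (localOn_HC _ _ _ _)]
    exact tcross H (by omega) (by omega) (by omega)
  have p4 : 1 - e ≤ Pool.Agent.H89.Perc.Pr q
      {ω | neg (full false (per N ω)) ∈ {η | HC η 0 m 0 m}} := by
    rw [raw_neg_per (a := 0) (b := m) (c := 0) (d := m) (by omega) (by omega)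
      (localOn_HC _ _ _ _)]
    exact tcross H (by omega) (by omega) (by omega)
  have h3 := (near4 (local_neg_per (localOn_VC _ _ _ _)) (local_neg_per (localOn_HC _ _ _ _))
    (local_neg_per (localOn_HC _ _ _ _)) p1 p2 p3 p4).trans
    (Pool.Agent.H89.Perc.Pr_mono (four_subset' hN hm hh (by omega)))
  rw [Pool.Agent.H89.Perc.Pr_compl (localOn_windS hN)] at h3
  linarith only [h3]

end

/-! ### The box-crossing regime -/

/-- Winding has probability bounded below in the box-crossing regime. -/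
theorem wind_reg_lower {c : ℝ} (hc : 0 < c) {N : ℕ} {q : I} (h : RSWreg c N q) (hN : 4 ≤ N) :
    c ^ 4 ≤ Pool.Agent.H89.Perc.Pr q (WindS N) := by
  obtain ⟨m, hm⟩ : ∃ m : ℕ, N / 2 = m + 1 := ⟨N / 2 - 1, by omega⟩
  have H := ((rswreg_iff.1 h) m (by omega) (by omega)).1
  exact four_lower (by omega) hc.le (h := m + 1) (by omega) (by omega) (by omega) (by omega)
    (by omega) (by omega) H

/-- Not winding has probability bounded below in the box-crossing regime. -/
theorem wind_reg_upper {c : ℝ} (hc : 0 < c) {N : ℕ} {q : I} (h : RSWreg c N q) (hN : 4 ≤ N) :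
    c ^ 4 ≤ 1 - Pool.Agent.H89.Perc.Pr q (WindS N) := by
  obtain ⟨m, hm⟩ : ∃ m : ℕ, N / 2 = m + 1 := ⟨N / 2 - 1, by omega⟩
  have H := ((rswreg_iff.1 h) m (by omega) (by omega)).2
  exact four_lower' (by omega) hc.le (h := m + 1) (by omega) (by omega) (by omega) (by omega)
    (by omega) (by omega) H

/-! ### Good scales -/

/-- Winding is likely above a good scale of the open sites. -/
theorem wind_near : ∀ η > (0 : ℝ), ∃ δ > (0 : ℝ), ∀ (p : I) (m N : ℕ), 1 ≤ m → 10 * m ≤ N →
    N ≤ 40 * m → 1 - δ ≤ PT p false {η | HC η 0 (4 * m) 0 (4 * m)} →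
    1 - η ≤ Pool.Agent.H89.Perc.Pr p (WindS N) := by
  intro η hη
  refine ⟨(η / 400) ^ 2, by positivity, fun p m N hm h1 h2 h => ?_⟩
  have h3 := near_rsw p false (l := 2 * m) (by omega) (δ := (η / 400) ^ 2) (by positivity)
    (by push_cast; ring_nf at h ⊢; exact h)
  rw [Real.sqrt_sq (by positivity)] at h3
  obtain ⟨k, hk⟩ : ∃ k : ℕ, k = N / 2 := ⟨_, rfl⟩
  have h4 := four_near (q := p) (N := N) (e := 100 * (η / 400)) (h := k)
    (m := 2 * ((2 * m : ℕ) : ℤ)) (L := 12 * ((2 * m : ℕ) : ℤ)) (by omega) (by omega) (by omega)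
    (by push_cast; omega) (by push_cast; omega) (by push_cast; omega) (by push_cast; omega) h3
  linarith only [h4]

/-- Winding is unlikely above a good scale of the closed sites. -/
theorem wind_near' : ∀ η > (0 : ℝ), ∃ δ > (0 : ℝ), ∀ (p : I) (m N : ℕ), 1 ≤ m → 10 * m ≤ N →
    N ≤ 40 * m → 1 - δ ≤ PT (σ p) true {η | HC η 0 (4 * m) 0 (4 * m)} →
    Pool.Agent.H89.Perc.Pr p (WindS N) ≤ η := by
  intro η hη
  refine ⟨(η / 400) ^ 2, by positivity, fun p m N hm h1 h2 h => ?_⟩
  have h3 := near_rsw (σ p) true (l := 2 * m) (by omega) (δ := (η / 400) ^ 2) (by positivity)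
    (by push_cast; ring_nf at h ⊢; exact h)
  rw [Real.sqrt_sq (by positivity)] at h3
  obtain ⟨k, hk⟩ : ∃ k : ℕ, k = N / 2 := ⟨_, rfl⟩
  have h4 := four_near' (q := p) (N := N) (e := 100 * (η / 400)) (h := k)
    (m := 2 * ((2 * m : ℕ) : ℤ)) (L := 12 * ((2 * m : ℕ) : ℤ)) (by omega) (by omega) (by omega)
    (by push_cast; omega) (by push_cast; omega) (by push_cast; omega) (by push_cast; omega) h3
  linarith only [h4]

/-- The winding probability has increased by a constant above a good scale of the open sites. -/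
theorem wind_gap_plus : ∃ δ > (0 : ℝ), ∃ c > (0 : ℝ), ∀ (p : I) (m N : ℕ), 1 ≤ m →
    10 * m ≤ N → N ≤ 40 * m → 1 - δ ≤ PT p false {η | HC η 0 (4 * m) 0 (4 * m)} →
    c ≤ Pool.Agent.H89.Perc.Pr p (WindS N) - Pool.Agent.H89.Perc.Pr pc (WindS N) := by
  obtain ⟨c, hc, hreg⟩ := rswreg_pc
  obtain ⟨δ, hδ, h1⟩ := wind_near (c ^ 4 / 2) (by positivity)
  refine ⟨δ, hδ, c ^ 4 / 2, by positivity, fun p m N hm h2 h3 h => ?_⟩
  have h4 := h1 p m N hm h2 h3 h
  have h5 := wind_reg_upper hc (hreg N) (by omega)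
  linarith only [h4, h5]

/-- The winding probability has decreased by a constant above a good scale of the closed sites. -/
theorem wind_gap_minus : ∃ δ > (0 : ℝ), ∃ c > (0 : ℝ), ∀ (p : I) (m N : ℕ), 1 ≤ m →
    10 * m ≤ N → N ≤ 40 * m → 1 - δ ≤ PT (σ p) true {η | HC η 0 (4 * m) 0 (4 * m)} →
    c ≤ Pool.Agent.H89.Perc.Pr pc (WindS N) - Pool.Agent.H89.Perc.Pr p (WindS N) := by
  obtain ⟨c, hc, hreg⟩ := rswreg_pc
  obtain ⟨δ, hδ, h1⟩ := wind_near' (c ^ 4 / 2) (by positivity)
  refine ⟨δ, hδ, c ^ 4 / 2, by positivity, fun p m N hm h2 h3 h => ?_⟩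
  have h4 := h1 p m N hm h2 h3 h
  have h5 := wind_reg_lower hc (hreg N) (by omega)
  linarith only [h4, h5]

end Pool.Agent.H83.SK.WG

end

section

/-!
# The winding event of the torus and its translation invariance
-/

set_option autoImplicit false

open MeasureTheory ProbabilityTheory unitInterval

namespace Pool.Agent.H92.SN

open Pool.Agent.H89.Perc
open Pool.Agent.H61.NC (fill mid upd Joint PrR' dist0)
open Pool.Agent.H83.SK (sv sit)

end Pool.Agent.H92.SN

end

section

/-!
# Site percolation, small scales: finite energy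
-/

open MeasureTheory ProbabilityTheory unitInterval

namespace Pool.Agent.H83.SK

open Pool.Agent.H89.Perc Pool.Agent.H29.Sep
open Pool.Agent.H59.EX (Src Four closeS_true)

end Pool.Agent.H83.SK

end

section

/-!
# Seals for site percolation
-/

set_option autoImplicit false

open MeasureTheory ProbabilityTheory unitInterval

namespace Pool.Agent.H38.N59

open Pool.Agent.H89.Perc
open Pool.Agent.H83.SK (sv sit sit_true RSWreg)
open Pool.Agent.H59.EX (LocS inE touch clus closeS Side T Mouth Fence dom pb grid)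

end Pool.Agent.H38.N59

end

section

/-!
# Outward separation for sites: stage 4
-/

set_option autoImplicit false

open MeasureTheory ProbabilityTheory unitInterval

namespace Pool.Agent.H38.N59

open Pool.Agent.H89.Perc
open Pool.Agent.H61.NC hiding RSWreg
open Pool.Agent.H83.SK (sv sit sit_true RSWreg)
open Pool.Agent.H59.EX (LocS inE touch clus closeS Side T Mouth Fence dom CorrData CorrSep clus_sub clus_step clus_conn mem_clus mem_clus_single conn_in_clus fence_trans fence_mono corr_inter corr_sub160 mem_sphere_of_joins markov_indep grid exists_grid card_grid)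

end Pool.Agent.H38.N59

end

section

/-!
# Outward separation for sites: stage 2
-/

set_option autoImplicit false

open MeasureTheory ProbabilityTheory unitInterval

namespace Pool.Agent.H38.N59

open Pool.Agent.H89.Perc
open Pool.Agent.H61.NC hiding RSWreg
open Pool.Agent.H83.SK (sv sit sit_true RSWreg)
open Pool.Agent.H59.EX (LocS inE touch clus closeS Side T Mouth Fence dom CorrData CorrSep clus_sub clus_step clus_conn mem_clus mem_clus_single conn_in_clus fence_trans fence_mono corr_inter corr_sub160 mem_sphere_of_joins markov_indep grid exists_grid card_grid)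

end Pool.Agent.H38.N59

end

section

/-!
# Probability of the crossing events of the corridors
-/

open MeasureTheory ProbabilityTheory unitInterval

namespace Pool.Agent.H83.SK.NG

open Pool.Agent.H59.EX

open Pool.Agent.H89.Perc
open Pool.Agent.H29.Sep (Circ incr_circ localOn_circ)

namespace GeoQ

end GeoQ

open GeoQ

end Pool.Agent.H83.SK.NG

end

section

/-!
# Corridors for the second point
-/

open MeasureTheory ProbabilityTheory unitInterval

namespace Pool.Agent.H83.SK.NG

open Pool.Agent.H59.EX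

open Pool.Agent.H89.Perc

end Pool.Agent.H83.SK.NG

end

section

/-!
# The straight corridors of the moves, probabilities
-/

open MeasureTheory ProbabilityTheory unitInterval

namespace Pool.Agent.H83.SK.NG

open Pool.Agent.H59.EX

open Pool.Agent.H89.Perc Pool.Agent.H61.NC
open Pool.Agent.H85.Strict (hv_meet)

end Pool.Agent.H83.SK.NG

end

section

/-!
# Site percolation on the torus: separated four arms, definitions

The torus of side `N` is `ℤ²` with the periodic configuration `per N ω = pb (modE N) ω` of sites. The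
source is the closed site `0` with two of its neighbours; the first neighbour has its mouth in the
west, the second one in the east. The corridor is the horizontal strip `[28 k, N - 28 k] × [-3 k,
3 k]` from the east target to the translate by `(N, 0)` of the west target.
-/

set_option autoImplicit false

open MeasureTheory ProbabilityTheory unitInterval

namespace Pool.Agent.H83.PST

open Pool.Agent.H89.Perc
open Pool.Agent.H61.NC (modE)
open Pool.Agent.H83.SK (sv sit sit_true RSWreg)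
open Pool.Agent.H59.EX (LocS inE touch clus closeS Side T Mouth Fence dom pb grid)
open Pool.Agent.H38.N59 (vE rv fillS Src Sep FX FY det Seal Four)
open Pool.Agent.H26.ST (Cor glu PerInv sh TD Rel1 In)
open Pool.Agent.H92.SN (WindS tSites)

end Pool.Agent.H83.PST

end

end

section

/-! The parts of this file: H13.SK.SigmaTr, H13.SK.SigmaMono, H13.SK.Regime, H13.SK.LenOne, H92.SN.Tau, H92.SN.KCnt, H13.SK.TBlock, H13.SK.TTwo, H92.SN.Ret, H92.SN.Det, H92.SN.Pair, H92.SN.Sum, H92.SN.Main, H92.SN.Fin, H92.SN.Unif, H92.SN.Piv, H83.SK.PST.Prob, H83.SK.PST.Piv, H38.SK.Conv. -/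

section

/-!
# The mean cluster size as a sum of the two-point function
-/

set_option autoImplicit false

open MeasureTheory ProbabilityTheory unitInterval
open scoped ENNReal

namespace Pool.Agent.H13.SK

open Pool.Agent.H89.Perc Pool.Agent.H83.Site

end Pool.Agent.H13.SK

end

section

/-!
# The mean cluster size is nondecreasing in the density
-/

set_option autoImplicit false

open MeasureTheory ProbabilityTheory unitInterval
open scoped ENNReal

namespace Pool.Agent.H13.SK

open Pool.Agent.H89.Perc Pool.Agent.H83.Site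

theorem PT_C0_zero (p : I) (r : Bool) : PT p r (C0 (0, 0)) = p := by
  have h : {ω : Config | full r ω ∈ C0 (0, 0)} = {ω : Config | ω (0, 0, false) = true} := by
    ext ω
    simp only [Set.mem_ofPred_eq, C0, sit0]
    constructor
    · intro h
      have := h.open_left
      rwa [full_site] at this
    · intro h
      refine TConn.refl (Set.mem_univ _) ?_
      rw [full_site]
      exact h
  unfold PT
  rw [h]
  exact Pr_open p _

/-- The mean cluster size is at least the density. -/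
theorem le_sigma (p : I) (r : Bool) (G : (ℤ × ℤ → Bool) → SimpleGraph (ℤ × ℤ))
    (hG : ∀ ω u v, (G ω).Adj u v ↔ ω u = true ∧ ω v = true ∧ SA r u v) :
    ENNReal.ofReal p ≤
    ∫⁻ ω, (({v | ω (0, 0) = true ∧ (G ω).Reachable (0, 0) v}.encard : ℕ∞) : ℝ≥0∞)
        ∂(Measure.infinitePi (fun _ : ℤ × ℤ => bernoulliMeasure true false p)) := by
  rw [sigma_eq_tsum p r G hG]
  refine le_trans ?_ (ENNReal.le_tsum (0, 0))
  rw [PT_C0_zero]

end Pool.Agent.H13.SK

end

section

/-!
# The box-crossing regime of site percolation and the characteristic length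
-/

set_option autoImplicit false

open MeasureTheory ProbabilityTheory unitInterval Filter Topology

namespace Pool.Agent.H13.SK

open Pool.Agent.H89.Perc Pool.Agent.H83.Site

end Pool.Agent.H13.SK

end

section

/-!
# The characteristic lengths on the two sides of the critical density

`NC a4 Wp Reg` collects the results of near-critical percolation on the torus which are used:
`a4` is the four-arm probability, `Wp` the winding probability and `Reg` the box-crossing regime.
-/

set_option autoImplicit false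

open MeasureTheory ProbabilityTheory unitInterval Filter Topology

namespace Pool.Agent.H13.SK

open Pool.Agent.H89.Perc Pool.Agent.H83.Site

end Pool.Agent.H13.SK

end

section

/-!
# The connection of the neighbours of a site
-/

set_option autoImplicit false

open MeasureTheory ProbabilityTheory unitInterval Filter Topology

namespace Pool.Agent.H92.SN

open Pool.Agent.H89.Perc
open Pool.Agent.H61.NC (modE PrR' hasDerivAt_PrR_eq)
open Pool.Agent.H83.SK (sv sit)

theorem tl_continuous (i m : ℕ) : Continuous (tl i m) := by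
  have hloc := localOn_sitDn 0 m i
  have h1 : tl i m = fun q : I => PrR (sBall 0 m) {w | sit w ∈ Dn (ball 0 m) 0 i} (q : ℝ) := by
    funext q
    rw [← Pr_eq_PrR hloc]
    rfl
  rw [h1]
  rw [continuous_iff_continuousAt]
  intro q
  exact (hasDerivAt_PrR_eq hloc q).continuousAt.comp continuous_subtype_val.continuousAt

/-- Continuity of `tau` from the uniform decay of the four-arm probability. -/
theorem tau_continuous (hU : ∀ ε : ℝ, 0 < ε → ∃ r : ℕ, 1 ≤ r ∧ ∀ q : I, a4 q r ≤ ε) :
    Continuous tau := by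
  refine continuous_finsetSum _ fun i _ => ?_
  refine continuous_of_uniform_approx_of_continuous (fun u hu => ?_)
  obtain ⟨ε, hε, hεu⟩ := Metric.mem_uniformity_dist.1 hu
  obtain ⟨r, hr, h⟩ := hU (ε / 2) (half_pos hε)
  refine ⟨tl i r, tl_continuous i r, fun q => hεu ?_⟩
  have h1 := tl_near q hr i
  have h2 := tl_le i r q
  have h3 := h q
  rw [Real.dist_eq, abs_lt]
  constructor <;> linarith only [hε, h2, h1, h3]

end Pool.Agent.H92.SN

end

section

/-!
# The number of open clusters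
-/

set_option autoImplicit false

open MeasureTheory ProbabilityTheory unitInterval

namespace Pool.Agent.H92.SN

open Pool.Agent.H89.Perc
open Pool.Agent.H83.SK (sv sit)

end Pool.Agent.H92.SN

end

section

/-!
# Exploration of the clusters of the cutting lines of the torus, block by block (sites)
-/

open MeasureTheory ProbabilityTheory unitInterval

namespace Pool.Agent.H13.SK

open Pool.Agent.H89.Perc Pool.Agent.H85.Kes
open Pool.Agent.H83.SK (sit sv sit_true)
open Pool.Agent.H92.SN (tSites WindS)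
open Pool.Agent.H83.SK.WG (mem_tSites localOn_windS incr_windS)

section state

variable {κ : Type*} [DecidableEq κ]

end state

/-! ### The clusters of the cutting lines -/

/-! ### The rule -/

section rule

variable {κ : Type*} [DecidableEq κ]

end rule

end Pool.Agent.H13.SK

end

section

/-!
# Pivotal blocks of the torus (sites): translations, two distinct crossing clusters
-/

open MeasureTheory ProbabilityTheory unitInterval

namespace Pool.Agent.H13.SK

open Pool.Agent.H89.Perc Pool.Agent.H85.Kes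
open Pool.Agent.H83.SK (sit sv)
open Pool.Agent.H92.SN (tSites WindS blkS BlockPiv)
open Pool.Agent.H83.SK.WG (mem_tSites localOn_windS incr_windS)
open Pool.Agent.H61.NC (Two Ring mid)

/-! ### Translations -/

theorem windS_tau (N : ℕ) (z : Vert) (ω : Config) :
    (fun f => ω (torusSym_tau N z f)) ∈ WindS N ↔ ω ∈ WindS N := by
  have h0 : sit (per N (fun f => ω (torusSym_tau N z f))) =
      fun f => sit (per N ω) (shiftE z f) := by
    rw [torusSym_per, sit_shiftE]
  unfold Pool.Agent.H92.SN.WindS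
  simp only [Set.mem_ofPred_eq, h0, conn_shift]
  constructor
  · rintro ⟨u, a, b, ha, h⟩
    refine ⟨(u.1 + z.1, u.2 + z.2), a, b, ha, ?_⟩
    rw [show u.1 + a * (N : ℤ) + z.1 = u.1 + z.1 + a * N by ring,
      show u.2 + b * (N : ℤ) + z.2 = u.2 + z.2 + b * N by ring] at h
    exact h.mono_set (Set.subset_univ _)
  · rintro ⟨u, a, b, ha, h⟩
    refine ⟨(u.1 - z.1, u.2 - z.2), a, b, ha, ?_⟩
    simp only
    rw [show u.1 - z.1 + a * (N : ℤ) + z.1 = u.1 + a * N by ring,
      show u.2 - z.2 + b * (N : ℤ) + z.2 = u.2 + b * N by ring,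
      show u.1 - z.1 + z.1 = u.1 by ring, show u.2 - z.2 + z.2 = u.2 by ring]
    refine h.mono_set fun w _ => Set.mem_univ _

/-- All translates of a block have the same probability of being pivotal. -/
theorem Pr_bpiv_tau {N : ℕ} (hN : 1 ≤ N) (q : I) {B : Finset Edge} (hB : B ⊆ tSites N)
    (z : Vert) : Pr q (BPiv (B.image (torusSym_tau N z)) (WindS N)) = Pr q (BPiv B (WindS N)) := by
  rw [← Pr_comp (localOn_BPiv (localOn_windS hN) B)
    ((torusSym_tau_injOn N z).mono (by exact_mod_cast tSites_subset N))]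
  congr 1
  ext ω
  have key : ∀ b : Bool, setB (B.image (torusSym_tau N z)) b ω ∈ WindS N ↔
      setB B b (fun e => ω (torusSym_tau N z e)) ∈ WindS N := by
    intro b
    rw [← windS_tau N z (setB (B.image (torusSym_tau N z)) b ω)]
    have key2 : ∀ f ∈ tSites N, setB (B.image (torusSym_tau N z)) b ω (torusSym_tau N z f) =
        setB B b (fun e => ω (torusSym_tau N z e)) f := by
      intro f hf
      have h1 : torusSym_tau N z f ∈ B.image (torusSym_tau N z) ↔ f ∈ B := by
        rw [Finset.mem_image]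
        constructor
        · rintro ⟨g, hg, hgf⟩
          rwa [← torusSym_tau_injOn N z (tSites_subset N (hB hg)) (tSites_subset N hf) hgf]
        · intro h; exact ⟨f, h, rfl⟩
      unfold setB
      by_cases hfB : f ∈ B
      · rw [if_pos (h1.2 hfB), if_pos hfB]
      · rw [if_neg (fun h => hfB (h1.1 h)), if_neg hfB]
    exact ⟨fun h1 => localOn_windS hN _ _ key2 h1,
      fun h1 => localOn_windS hN _ _ (fun f hf => (key2 f hf).symm) h1⟩
  simp only [BPiv, Set.mem_ofPred_eq, key]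

/-- The block of radius `r` around `z` is pivotal with the same probability as the one in the
middle. -/
theorem Pr_bpiv_zB {N r : ℕ} (hr : 1 ≤ r) (h : 4 * r ≤ N) (q : I) {z : Vert}
    (h1 : (r : ℤ) ≤ z.1 ∧ z.1 + r < N) (h2 : (r : ℤ) ≤ z.2 ∧ z.2 + r < N) :
    Pr q (BPiv (zB z r) (WindS N)) = Pr q (BlockPiv N r) := by
  classical
  rw [blockPiv_eq, ← Pr_bpiv_tau (by omega) q (blkS_subset hr h) (z.1 - mid N, z.2 - mid N)]
  congr 2
  ext e
  rw [← zB_mid, Finset.mem_image, mem_zB]
  constructor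
  · rintro ⟨h3, h4, h5⟩
    refine ⟨(e.1 - (z.1 - mid N), e.2.1 - (z.2 - mid N), e.2.2), ?_, ?_⟩
    · rw [mem_zB]
      simp only
      exact ⟨h3, by omega, by omega⟩
    · simp only [torusSym_tau, sub_add_cancel]
      rw [Int.emod_eq_of_lt (by omega) (by omega), Int.emod_eq_of_lt (by omega) (by omega)]
  · rintro ⟨f, hf, rfl⟩
    rw [mem_zB] at hf
    obtain ⟨h3, h4, h5⟩ := hf
    simp only at h4 h5
    simp only [torusSym_tau]
    rw [Int.emod_eq_of_lt (by omega) (by omega), Int.emod_eq_of_lt (by omega) (by omega)]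
    exact ⟨h3, by omega, by omega⟩

/-! ### A pivotal block has two distinct crossing clusters around it -/

end Pool.Agent.H13.SK

end

section

/-!
# Opening a closed site of a periodic configuration
-/

set_option autoImplicit false

open MeasureTheory ProbabilityTheory unitInterval

namespace Pool.Agent.H92.SN

open Pool.Agent.H89.Perc
open Pool.Agent.H61.NC (modE)
open Pool.Agent.H83.SK (sv sit)
open Pool.Agent.H90.AL (IsPer)

end Pool.Agent.H92.SN

end

section

/-!
# A pivotal site for the winding event has four arms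
-/

set_option autoImplicit false

open MeasureTheory ProbabilityTheory unitInterval

namespace Pool.Agent.H92.SN

open Pool.Agent.H89.Perc
open Pool.Agent.H83.SK (sv sit)

end Pool.Agent.H92.SN

end

section

/-!
# Pairs of sites of the torus
-/

set_option autoImplicit false

open MeasureTheory ProbabilityTheory unitInterval

namespace Pool.Agent.H92.SN

open Pool.Agent.H89.Perc
open Pool.Agent.H61.NC (fill mid upd Joint PrR' dist0 Joint_piv localOn_upd modE)
open Pool.Agent.H83.SK (sv sit)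

/-- The influence of the middle site is bounded by the four-arm probability times the influence of
the block. -/
theorem sT_le_block (q : I) {N r : ℕ} (hr : 1 ≤ r) (hN : 2 * r + 2 ≤ N) :
    sT q N ≤ a4 q r * Pr q (BlockPiv N r) := by
  have hc : cE N ∈ tSites N := cE_mem (by omega)
  have s2 : PairS N (cE N) r ⊆ blkS N r := Pair_sub (by rw [Pair_dist_ctr]; omega) hN
  have hce : cE N ∈ blkS N r := s2 (Pair_self hc r)
  unfold sT
  rw [pivot_eq_sdiff (localOn_WindS (by omega)) (incr_WindS N),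
    ← Pr_A4T q (src (cE N)) (show 2 * r < N by omega),
    ← Pr_inter_of_disjoint (Pair_localS N (cE N) r) (localOn_BlockPiv (by omega) r) ?_]
  · refine Pr_mono fun w hw => ⟨A4T_of_pivot' hc hr hN hw.1 hw.2, ?_⟩
    have key : ∀ c : Bool, ∀ x, x ∉ blkS N r → Function.update w (cE N) c x = w x := by
      intro c x hx
      rw [Function.update_of_ne]
      rintro rfl
      exact hx hce
    exact BlockPiv_of_fill hw.1 hw.2 (key true) (key false)
  · rw [Finset.disjoint_left]
    intro x hx hx'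
    rw [Finset.mem_sdiff] at hx'
    exact hx'.2 (s2 hx)

end Pool.Agent.H92.SN

end

section

/-!
# The sum over pairs of sites
-/

set_option autoImplicit false

open MeasureTheory ProbabilityTheory unitInterval

namespace Pool.Agent.H92.SN

open Pool.Agent.H89.Perc
open Pool.Agent.H61.NC (fill mid upd Joint PrR' dist0 Sum_rpow Sum_eight)
open Pool.Agent.H83.SK (sv sit)

end Pool.Agent.H92.SN

end

section

/-!
# Near-critical stability of the influences
-/

set_option autoImplicit false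

open MeasureTheory ProbabilityTheory unitInterval

namespace Pool.Agent.H92.SN

open Pool.Agent.H89.Perc
open Pool.Agent.H61.NC (fill mid upd Joint PrR' dist0 PrR'_eq hasDerivAt_PrR_eq hasDerivAt_PrR' abs_second_le stability)
open Pool.Agent.H83.SK (sv sit)

theorem FT'_le {N r : ℕ} (q : I) (hr : 1 ≤ r) (h : 2 * r + 2 ≤ N) :
    FT' N q ≤ (N : ℝ) ^ 2 * a4 q r := by
  rw [FT'_eq (by omega)]
  exact mul_le_mul_of_nonneg_left (pivot_le_a4 q (cE_mem (by omega)) hr h) (by positivity)

theorem le_FT' (hGL : GLTorus) (hBL : BlockLow) : ∀ c : ℝ, 0 < c → ∃ C : ℝ, 0 < C ∧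
    ∀ (N : ℕ) (q : I), 64 ≤ N → SReg c N q → (N : ℝ) ^ 2 * a4 q (N / 64) ≤ C * FT' N q := by
  intro c hc
  obtain ⟨C, hC, H⟩ := a4_le_sT hGL hBL c hc
  refine ⟨C, hC, fun N q hN hR => ?_⟩
  rw [FT'_eq (by omega)]
  calc (N : ℝ) ^ 2 * a4 q (N / 64) ≤ (N : ℝ) ^ 2 * (C * sT q N) :=
        mul_le_mul_of_nonneg_left (H N q hN hR) (by positivity)
    _ = _ := by ring

end Pool.Agent.H92.SN

end

section

/-!
# Scaling relations for the four-arm probability
-/

set_option autoImplicit false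

open MeasureTheory ProbabilityTheory unitInterval

namespace Pool.Agent.H92.SN

open Pool.Agent.H89.Perc
open Pool.Agent.H61.NC (fill mid upd Joint PrR' dist0)
open Pool.Agent.H83.SK (sv sit)

/-- Scale relation, upper bound, at all densities of the interval. -/
theorem scale_upper' (hGL : GLTorus) (hBL : BlockLow) : ∀ c : ℝ, 0 < c → ∃ C : ℝ, 0 < C ∧
    ∀ (N : ℕ) (q₀ q₁ q : I), 64 ≤ N → q₀ ≤ q → q ≤ q₁ →
      (∀ q : I, q₀ ≤ q → q ≤ q₁ → SReg c N q) →
      ((q₁ : ℝ) - q₀) * ((N : ℝ) ^ 2 * a4 q (N / 64)) ≤ C := by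
  intro c hc
  obtain ⟨C, hC, H⟩ := le_FT' hGL hBL c hc
  obtain ⟨K, hK, HK⟩ := window hGL hBL c hc
  obtain ⟨L, hL, HL⟩ := near_critical hGL hBL c hc
  refine ⟨C * L * K, by positivity, fun N q₀ q₁ q hN h0 h1 hR => ?_⟩
  have h2 := H N q hN (hR q h0 h1)
  have h3 := (HK N q₀ q₁ hN (h0.trans h1) hR).1
  have h6 := (HL N q₀ q hN h0 fun q' h7 h8 => hR q' h7 (h8.trans h1)).1
  have h4 : Pr q₁ (WindS N) - Pr q₀ (WindS N) ≤ 1 := by
    have ha : Pr q₁ (WindS N) ≤ 1 := Pr_le_one
    have hb : 0 ≤ Pr q₀ (WindS N) := Pr_nonneg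
    linarith only [ha, hb]
  have h5 : (0 : ℝ) ≤ (q₁ : ℝ) - q₀ := sub_nonneg.2 (h0.trans h1)
  calc ((q₁ : ℝ) - q₀) * ((N : ℝ) ^ 2 * a4 q (N / 64))
      ≤ ((q₁ : ℝ) - q₀) * (C * (L * FT' N q₀)) :=
        mul_le_mul_of_nonneg_left (h2.trans (mul_le_mul_of_nonneg_left h6 hC.le)) h5
    _ = C * L * (((q₁ : ℝ) - q₀) * FT' N q₀) := by ring
    _ ≤ C * L * (K * (Pr q₁ (WindS N) - Pr q₀ (WindS N))) :=
        mul_le_mul_of_nonneg_left h3 (by positivity)
    _ ≤ C * L * (K * 1) := by gcongr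
    _ = C * L * K := by ring

/-- Scale relation, lower bound, at all densities of the interval. -/
theorem scale_lower' (hGL : GLTorus) (hBL : BlockLow) : ∀ c : ℝ, 0 < c → ∃ C : ℝ, 0 < C ∧
    ∀ (N r : ℕ) (q₀ q₁ q : I), 64 ≤ N → 1 ≤ r → 2 * r + 2 ≤ N → q₀ ≤ q → q ≤ q₁ →
      (∀ q : I, q₀ ≤ q → q ≤ q₁ → SReg c N q) →
      Pr q₁ (WindS N) - Pr q₀ (WindS N) ≤ C * (((q₁ : ℝ) - q₀) * ((N : ℝ) ^ 2 * a4 q r)) := by
  intro c hc
  obtain ⟨K, hK, HK⟩ := window hGL hBL c hc
  obtain ⟨L, hL, HL⟩ := near_critical hGL hBL c hc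
  refine ⟨K * L, by positivity, fun N r q₀ q₁ q hN hr hrN h0 h1 hR => ?_⟩
  have h2 := FT'_le (N := N) (r := r) q hr hrN
  have h3 := (HK N q₀ q₁ hN (h0.trans h1) hR).2
  have h6 := (HL N q₀ q hN h0 fun q' h7 h8 => hR q' h7 (h8.trans h1)).2
  have h5 : (0 : ℝ) ≤ (q₁ : ℝ) - q₀ := sub_nonneg.2 (h0.trans h1)
  calc Pr q₁ (WindS N) - Pr q₀ (WindS N) ≤ K * (((q₁ : ℝ) - q₀) * FT' N q₀) := h3
    _ ≤ K * (((q₁ : ℝ) - q₀) * (L * ((N : ℝ) ^ 2 * a4 q r))) := by
        have h7 : FT' N q₀ ≤ L * ((N : ℝ) ^ 2 * a4 q r) :=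
          h6.trans (mul_le_mul_of_nonneg_left h2 hL.le)
        gcongr
    _ = _ := by ring

/-- Upper regularity of the four-arm probability. -/
theorem a4_up (hGL : GLTorus) (hBL : BlockLow) (hBU : BlockUp) : ∀ c : ℝ, 0 < c →
    ∃ C δ : ℝ, 0 < C ∧ 0 < δ ∧ δ ≤ 1 ∧ ∀ (m n : ℕ) (q : I), 1 ≤ m → m ≤ n →
      SReg c (64 * n) q → a4 q n ≤ C * ((m : ℝ) / n) ^ (1 + δ) * a4 q m := by
  intro c hc
  obtain ⟨C3, hC3, h3⟩ := a4_le_sT hGL hBL c hc
  obtain ⟨C2, δ0, hC2, hδ0, h2⟩ := hBU c hc
  obtain ⟨δ, hδ⟩ : ∃ δ, δ = min δ0 1 := ⟨_, rfl⟩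
  have hδpos : 0 < δ := by rw [hδ]; exact lt_min hδ0 one_pos
  have hδ1 : δ ≤ 1 := by rw [hδ]; exact min_le_right _ _
  have hδle : δ ≤ δ0 := by rw [hδ]; exact min_le_left _ _
  refine ⟨C3 * C2, δ, by positivity, hδpos, hδ1, fun m n q hm hmn hR => ?_⟩
  have hmpos : (0 : ℝ) < m := by exact_mod_cast hm
  have hnpos : (0 : ℝ) < n := by exact_mod_cast (by omega : 0 < n)
  have k1 := h3 (64 * n) q (by omega) hR
  have e64 : 64 * n / 64 = n := by omega
  rw [e64] at k1
  have k2 := sT_le_block q (N := 64 * n) (r := m) hm (by omega)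
  have k3 := h2 (64 * n) m q hm (by omega) hR
  have ha := a4_nonneg q m
  have k4 : ((m : ℝ) / ((64 * n : ℕ) : ℝ)) ^ (1 + δ0) ≤ ((m : ℝ) / n) ^ (1 + δ) := by
    have hx0 : 0 < (m : ℝ) / ((64 * n : ℕ) : ℝ) := by
      push_cast
      positivity
    have hx : (m : ℝ) / ((64 * n : ℕ) : ℝ) ≤ (m : ℝ) / n := by
      apply div_le_div_of_nonneg_left hmpos.le hnpos
      push_cast
      linarith only [hnpos]
    have hx1 : (m : ℝ) / n ≤ 1 := by
      rw [div_le_one hnpos]
      exact_mod_cast hmn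
    calc ((m : ℝ) / ((64 * n : ℕ) : ℝ)) ^ (1 + δ0) ≤ ((m : ℝ) / ((64 * n : ℕ) : ℝ)) ^ (1 + δ) :=
          Real.rpow_le_rpow_of_exponent_ge hx0 (hx.trans hx1) (by linarith only [hδle])
      _ ≤ _ := Real.rpow_le_rpow hx0.le hx (by linarith only [hδpos])
  calc a4 q n ≤ C3 * sT q (64 * n) := k1
    _ ≤ C3 * (a4 q m * Pr q (BlockPiv (64 * n) m)) := mul_le_mul_of_nonneg_left k2 hC3.le
    _ ≤ C3 * (a4 q m * (C2 * ((m : ℝ) / ((64 * n : ℕ) : ℝ)) ^ (1 + δ0))) := by gcongr
    _ ≤ C3 * (a4 q m * (C2 * ((m : ℝ) / n) ^ (1 + δ))) := by gcongr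
    _ = _ := by ring

/-- Stability of the four-arm probability in the window. -/
theorem a4_near (hGL : GLTorus) (hBL : BlockLow) : ∀ c : ℝ, 0 < c → ∃ C : ℝ, 0 < C ∧
    ∀ (n : ℕ) (q₀ q₁ : I), q₀ ≤ q₁ → (∀ q : I, q₀ ≤ q → q ≤ q₁ → SReg c (64 * n) q) →
      ∀ t : ℕ, 1 ≤ t → t ≤ n → a4 q₁ t ≤ C * a4 q₀ t ∧ a4 q₀ t ≤ C * a4 q₁ t := by
  intro c hc
  obtain ⟨C, hC, H⟩ := a4_le_sT hGL hBL c hc
  obtain ⟨K, hK, HK⟩ := near_critical hGL hBL c hc
  refine ⟨C * K, by positivity, fun n q₀ q₁ h01 hR t ht htn => ?_⟩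
  have hR' : ∀ q : I, q₀ ≤ q → q ≤ q₁ → SReg c (64 * t) q := fun q h1 h2 =>
    sreg_anti (hR q h1 h2) (by omega)
  have e64 : 64 * t / 64 = t := by omega
  obtain ⟨k1, k2⟩ := HK (64 * t) q₀ q₁ (by omega) h01 hR'
  rw [FT'_eq (by omega), FT'_eq (by omega)] at k1 k2
  have hpos : (0 : ℝ) < ((64 * t : ℕ) : ℝ) ^ 2 := by
    have : (0 : ℝ) < ((64 * t : ℕ) : ℝ) := by exact_mod_cast (by omega : 0 < 64 * t)
    positivity
  have k1' : sT q₁ (64 * t) ≤ K * sT q₀ (64 * t) := by
    refine le_of_mul_le_mul_left ?_ hpos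
    calc _ ≤ _ := k1
      _ = _ := by ring
  have k2' : sT q₀ (64 * t) ≤ K * sT q₁ (64 * t) := by
    refine le_of_mul_le_mul_left ?_ hpos
    calc _ ≤ _ := k2
      _ = _ := by ring
  have key : ∀ q : I, sT q (64 * t) ≤ a4 q t := fun q =>
    pivot_le_a4 q (cE_mem (by omega)) ht (by omega)
  have a1 := H (64 * t) q₁ (by omega) (hR' q₁ h01 le_rfl)
  have a0 := H (64 * t) q₀ (by omega) (hR' q₀ le_rfl h01)
  rw [e64] at a1 a0
  constructor
  · calc a4 q₁ t ≤ C * (K * a4 q₀ t) :=
        a1.trans (mul_le_mul_of_nonneg_left (k1'.trans (mul_le_mul_of_nonneg_left (key q₀) hK.le))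
          hC.le)
      _ = _ := by ring
  · calc a4 q₀ t ≤ C * (K * a4 q₁ t) :=
        a0.trans (mul_le_mul_of_nonneg_left (k2'.trans (mul_le_mul_of_nonneg_left (key q₁) hK.le))
          hC.le)
      _ = _ := by ring

end Pool.Agent.H92.SN

end

section

/-!
# Uniform decay of the four-arm probability
-/

set_option autoImplicit false

open MeasureTheory ProbabilityTheory unitInterval Filter Topology

namespace Pool.Agent.H92.SN

open Pool.Agent.H89.Perc
open Pool.Agent.H29.Sep (Circ eCirc mem_eCirc localOn_circ incr_circ circ_ring ann)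
open Pool.Agent.H83.SK (sv sit)

end Pool.Agent.H92.SN

end

section

/-!
# Pivotal sites of the connection event on the torus
-/

set_option autoImplicit false

open MeasureTheory ProbabilityTheory unitInterval

namespace Pool.Agent.H92.SN

open Pool.Agent.H89.Perc
open Pool.Agent.H61.NC (modE mid)
open Pool.Agent.H83.SK (sv sit)
open Pool.Agent.H90.AL (IsPer dT dT_self dT_comm dT_tri dT_le_half dT_le_of exists_of_dT_le notMem_of_lt modE_mem modE_eq mem_tEdges_iff src_modE conn_per isPer_per A2_of_cross A2_congr modE_mem_SR' mem_SR)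

/-! ### Events of annuli -/

/-! ### Pivotal sites -/

end Pool.Agent.H92.SN

end

section

/-!
# Probabilities of the corridor event and of the seals; locality
-/

set_option autoImplicit false

open MeasureTheory ProbabilityTheory unitInterval

namespace Pool.Agent.H83.PST

open Pool.Agent.H89.Perc
open Pool.Agent.H61.NC (modE)
open Pool.Agent.H83.SK (sv sit sit_true RSWreg)
open Pool.Agent.H59.EX (LocS inE touch clus closeS Side T Mouth Fence dom pb grid)
open Pool.Agent.H38.N59 (vE rv fillS Src Sep FX FY det Seal Four vE_mono sv_mem_vE)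
open Pool.Agent.H26.ST (Cor glu PerInv sh TD Rel1 In glu_per)
open Pool.Agent.H92.SN (WindS tSites)

end Pool.Agent.H83.PST

end

section

/-!
# Lower bounds for the influence of a site of the torus; small tori
-/

set_option autoImplicit false

open MeasureTheory ProbabilityTheory unitInterval

namespace Pool.Agent.H83.PST

open Pool.Agent.H89.Perc
open Pool.Agent.H61.NC (modE ctr mid)
open Pool.Agent.H83.SK (sv sit sit_true RSWreg sT sitT)
open Pool.Agent.H92.SN (WindS tSites mem_tSites localOn_WindS incr_WindS pivot_windS cE)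

/-! ### Small tori -/

end Pool.Agent.H83.PST

end

section

/-!
# The two forms of the four-arm probability of a site

`SK.a4` sums over two kinds of pairs of neighbours of the origin, `SN.a4` is the probability of the
union over all pairs.
-/

set_option autoImplicit false

open MeasureTheory ProbabilityTheory unitInterval

namespace Pool.Agent.H38.SKConv

open Pool.Agent.H89.Perc
open Pool.Agent.H59.EX (Gen closeS Four)
open Pool.Agent.H83.SK (s4 star0 IsAut isAut_swap isAut_reflX isAut_reflY sitT blkS)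
open Pool.Agent.H92.SN (closeV A4 Nb WindS)
open Pool.Agent.H61.NC (fill blk mid)

variable {q : I} {r : ℕ}

end Pool.Agent.H38.SKConv

end

end

section

/-! The parts of this file: H13.SK.BlockUpS, H13.SK.BlockLowS, H38.SK.Gap, H13.SK.Inst, H83.SK.PST.Closed, H83.SK.PST.Open, H83.SK.PST.Ext. -/

section

/-!
# Upper bound for the probability that a block is pivotal (sites, level-one inequality)
-/

open MeasureTheory ProbabilityTheory unitInterval

namespace Pool.Agent.H13.SK

open Pool.Agent.H89.Perc Pool.Agent.H85.Kes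
open Pool.Agent.H83.SK (sit sv sit_mono)
open Pool.Agent.H92.SN (tSites WindS blkS BlockPiv SReg)
open Pool.Agent.H83.SK.WG (mem_tSites localOn_windS incr_windS)
open Pool.Agent.H61.NC (Two Ring mid)
open Pool.Agent.H29.Sep (Circ circ_ring IsRing ann ring)
open Pool.Agent.H31.EX (bIdx bAll nB nB_spec bIdx_mem)

/-! ### Circuits and cuts around a block -/

theorem per_eq_on {N ρ : ℕ} {z : Vert} (h1 : (ρ : ℤ) ≤ z.1 ∧ z.1 + ρ < N)
    (h2 : (ρ : ℤ) ≤ z.2 ∧ z.2 + ρ < N) (ω : Config) {v : Vert} (hv : v ∈ ball z ρ) :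
    per N ω (sv v) = ω (sv v) := by
  rw [mem_ball] at hv
  simp only [per, sv]
  rw [Int.emod_eq_of_lt (by omega) (by omega), Int.emod_eq_of_lt (by omega) (by omega)]

theorem conn_per {N ρ : ℕ} {z : Vert} (h1 : (ρ : ℤ) ≤ z.1 ∧ z.1 + ρ < N)
    (h2 : (ρ : ℤ) ≤ z.2 ∧ z.2 + ρ < N) {ω : Config} {S : Set Vert} (hS : S ⊆ ball z ρ)
    {u v : Vert} : Conn (sit (per N ω)) S u v ↔ Conn (sit ω) S u v := by
  constructor
  · intro h
    refine h.congr fun e a b => ?_
    simp only [sit]
    rw [per_eq_on h1 h2 ω (hS a), per_eq_on h1 h2 ω (hS b)]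
  · intro h
    refine h.congr fun e a b => ?_
    simp only [sit]
    rw [per_eq_on h1 h2 ω (hS a), per_eq_on h1 h2 ω (hS b)]

theorem setB_false_le {B : Finset Edge} (ω : Config) (e : Edge) (h : setB B false ω e = true) :
    ω e = true := by
  unfold setB at h
  split_ifs at h with h1
  exact h

theorem setB_true_ge {B : Finset Edge} (ω : Config) (e : Edge) (h : ω e = true) :
    setB B true ω e = true := by
  unfold setB
  split_ifs with h1
  · rfl
  · exact h

theorem ann_subset_ring {z : Vert} {s : ℕ} (hs : 1 ≤ s) : ann z s (3 * s) ⊆ Ring z s (3 * s) := by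
  rintro v ⟨h1, h2⟩
  refine ⟨h1, fun h3 => h2 ?_⟩
  have ht1 : ((s - 1 : ℕ) : ℤ) = (s : ℤ) - 1 := by push_cast [Nat.cast_sub hs]; ring
  rw [mem_ball] at h3 ⊢
  rw [ht1] at h3
  omega

/-- An open circuit makes the block effectively open. -/
theorem open_circ {N r s : ℕ} {z : Vert} (hs : r + 1 ≤ s) (hN : r + 3 * s + 2 ≤ N)
    (h1 : 3 * (s : ℤ) ≤ z.1 ∧ z.1 + 3 * s < N) (h2 : 3 * (s : ℤ) ≤ z.2 ∧ z.2 + 3 * s < N)
    {ω : Config} (h : sit ω ∈ Circ z s) (ht : setB (zB z r) true ω ∈ WindS N) : ω ∈ WindS N := by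
  by_contra hne
  have hp : ω ∈ BPiv (zB z r) (WindS N) :=
    ⟨ht, fun h3 => hne (incr_windS N _ _ (setB_false_le ω) h3)⟩
  have hb1 : ((3 * s : ℕ) : ℤ) ≤ z.1 ∧ z.1 + (3 * s : ℕ) < N := by push_cast; exact h1
  have hb2 : ((3 * s : ℕ) : ℤ) ≤ z.2 ∧ z.2 + (3 * s : ℕ) < N := by push_cast; exact h2
  obtain ⟨u, u', hu, hu', ⟨w, hw, hc⟩, ⟨w', hw', hc'⟩, hno⟩ :=
    two_of_bpiv (t := s) (R' := 3 * s) hs (by omega) hN hp
  obtain ⟨-, hC, hmeet⟩ := circ_ring (by omega) h
  obtain ⟨a, ha, hua⟩ := hmeet _ _ _ _ hc (sphere_subset_ball hu) (Or.inl hw)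
  obtain ⟨a', ha', hua'⟩ := hmeet _ _ _ _ hc' (sphere_subset_ball hu') (Or.inl hw')
  have h3 := (hC a ha a' ha').mono_set (ann_subset_ring (z := z) (s := s) (by omega))
  have h4 := (conn_per hb1 hb2 (S := Ring z s (3 * s)) (fun x hx => hx.1)).2 h3
  exact hno ((hua.trans h4).trans hua'.symm)

/-- Absence of arms makes the block effectively closed. -/
theorem closed_circ {N r s : ℕ} {z : Vert} (hs : r + 1 ≤ s) (hN : r + 3 * s + 2 ≤ N)
    (h1 : 3 * (s : ℤ) ≤ z.1 ∧ z.1 + 3 * s < N) (h2 : 3 * (s : ℤ) ≤ z.2 ∧ z.2 + 3 * s < N)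
    {ω : Config} (h : sit ω ∉ ArmBox z s (3 * s)) (ht : ω ∈ WindS N) :
    setB (zB z r) false ω ∈ WindS N := by
  by_contra hne
  have hp : ω ∈ BPiv (zB z r) (WindS N) :=
    ⟨incr_windS N _ _ (setB_true_ge ω) ht, hne⟩
  have hb1 : ((3 * s : ℕ) : ℤ) ≤ z.1 ∧ z.1 + (3 * s : ℕ) < N := by push_cast; exact h1
  have hb2 : ((3 * s : ℕ) : ℤ) ≤ z.2 ∧ z.2 + (3 * s : ℕ) < N := by push_cast; exact h2
  obtain ⟨u, u', hu, hu', ⟨w, hw, hc⟩, -, -⟩ :=
    two_of_bpiv (t := s) (R' := 3 * s) hs (by omega) hN hp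
  apply h
  refine ⟨u, sphere_subset_ball hu, w, hw, ?_⟩
  exact (conn_per hb1 hb2 subset_rfl).1 (hc.mono_set fun x hx => hx.1)

/-! ### Locality -/

/-- Events depending on the edges inside a ball are local on its sites. -/
theorem localOn_sit_ball {A : Set Config} {z : Vert} {ρ : ℕ}
    (hA : ∀ η η' : Config, (∀ e, src e ∈ ball z ρ → tgt e ∈ ball z ρ → η e = η' e) →
      η ∈ A → η' ∈ A) : LocalOn (zB z ρ) {ω | sit ω ∈ A} := by
  intro ω ω' h hω
  refine hA _ _ (fun e h1 h2 => ?_) hω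
  have key : ∀ v ∈ ball z ρ, ω (sv v) = ω' (sv v) := by
    intro v hv
    refine h _ ?_
    rw [mem_ball] at hv
    rw [mem_zB]
    simp only [sv]
    exact ⟨trivial, by omega, by omega⟩
  simp only [sit]
  rw [key _ h1, key _ h2]

theorem localOn_circS (z : Vert) (s : ℕ) : LocalOn (zB z (3 * s)) {ω | sit ω ∈ Circ z s} := by
  refine localOn_sit_ball fun η η' h hη => ?_
  refine Pool.Agent.H29.Sep.localOn_circ z s _ _ (fun e he => ?_) hη
  rw [Pool.Agent.H29.Sep.mem_eCirc] at he
  exact h e he.1.1 he.2.1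

theorem localOn_noarmS (z : Vert) (s : ℕ) :
    LocalOn (zB z (3 * s)) {ω | sit ω ∉ ArmBox z s (3 * s)} := by
  refine localOn_sit_ball (A := (ArmBox z s (3 * s))ᶜ) fun η η' h hη hη' => hη ?_
  obtain ⟨w, hw, u, hu, hc⟩ := hη'
  exact ⟨w, hw, u, hu, hc.congr fun e h1 h2 => (h e h1 h2).symm⟩

/-! ### Blocks -/

/-- Centre of a block. -/
def bCtr (ρ : ℕ) (b : ℤ × ℤ) : Vert := (b.1 * (2 * ρ + 1) + ρ, b.2 * (2 * ρ + 1) + ρ)

theorem ediv_iff {ρ : ℕ} (x i : ℤ) :
    x / (2 * ρ + 1) = i ↔ (i * (2 * ρ + 1) ≤ x ∧ x ≤ i * (2 * ρ + 1) + 2 * ρ) := by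
  have hw : (0 : ℤ) < 2 * ρ + 1 := by positivity
  constructor
  · rintro rfl
    have h1 := Int.ediv_mul_le x hw.ne'
    have h2 := Int.lt_ediv_add_one_mul_self x hw
    have h3 : (x / (2 * ρ + 1) + 1) * (2 * (ρ : ℤ) + 1) =
        x / (2 * ρ + 1) * (2 * ρ + 1) + (2 * ρ + 1) := by ring
    rw [h3] at h2
    exact ⟨h1, by omega⟩
  · rintro ⟨h1, h2⟩
    apply le_antisymm
    · apply Int.lt_add_one_iff.1
      apply Int.ediv_lt_of_lt_mul hw
      have h3 : (i + 1) * (2 * (ρ : ℤ) + 1) = i * (2 * ρ + 1) + (2 * ρ + 1) := by ring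
      rw [h3]
      omega
    · exact (Int.le_ediv_iff_mul_le hw).2 h1

theorem mem_blkT {N ρ : ℕ} {b : ℤ × ℤ} {e : Edge} :
    e ∈ blk (tSites N) (bIdx ρ) b ↔ e ∈ tSites N ∧ src e ∈ ball (bCtr ρ b) ρ := by
  rw [mem_blk]
  unfold bIdx
  rw [Prod.ext_iff]
  simp only [ediv_iff, mem_ball, src, bCtr]
  constructor
  · rintro ⟨h1, h2, h3⟩
    exact ⟨h1, by omega⟩
  · rintro ⟨h1, h2⟩
    exact ⟨h1, by omega⟩

theorem zB_subset_blk {N ρ : ℕ} {b : ℤ × ℤ} (h1 : (ρ : ℤ) ≤ (bCtr ρ b).1 ∧ (bCtr ρ b).1 + ρ < N)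
    (h2 : (ρ : ℤ) ≤ (bCtr ρ b).2 ∧ (bCtr ρ b).2 + ρ < N) :
    zB (bCtr ρ b) ρ ⊆ blk (tSites N) (bIdx ρ) b := by
  intro e he
  rw [mem_blkT]
  refine ⟨zB_subset h1 h2 he, ?_⟩
  rw [mem_zB] at he
  rw [mem_ball]
  simp only [src]
  omega

/-- Upper bound for the influence of a block, for large tori. -/
theorem blockUp_large {c : ℝ} (hc : 0 < c) : ∃ C κ : ℝ, 0 < C ∧ 0 < κ ∧
    ∀ (N r M : ℕ) (q : I), 1 ≤ r → 1 ≤ M → 8 * M * (6 * r + 7) ≤ N → SReg c N q →
      Pr q (BlockPiv N r) ^ 2 ≤ C * (1 / (M : ℝ)) ^ (2 + κ) := by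
  classical
  obtain ⟨c1, hc1, H1⟩ := Pool.Agent.H83.SK.circ_lower c hc 1
  obtain ⟨c2, hc2, H2⟩ := Pool.Agent.H83.SK.noarm_lower c hc 1
  obtain ⟨C, κ, hC, hκ, H3⟩ := Pool.Agent.H83.SK.armBox_decay c hc 1
  set c' := min c1 c2 with hc'
  have hc'0 : 0 < c' := lt_min hc1 hc2
  refine ⟨2 / c' * C, κ, by positivity, hκ, ?_⟩
  intro N r M q hr hM hN hreg
  set s : ℕ := r + 1 with hs
  set ρ : ℕ := 3 * s with hρ
  have hk : 2 * ρ + 1 = 6 * r + 7 := by omega
  set k : ℕ := 2 * ρ + 1 with hkdef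
  rw [← hk] at hN
  have hMk : k ≤ M * k := Nat.le_mul_of_pos_left k hM
  have hN8 : 8 * (M * k) ≤ N := by
    calc 8 * (M * k) = 8 * M * k := by ring
      _ ≤ N := hN
  have hN1 : 1 ≤ N := by omega
  have hkz : (2 * (ρ : ℤ) + 1) = k := by rw [hkdef]; push_cast; ring
  set P : ℝ := Pr q (BlockPiv N r) with hP
  have hP0 : 0 ≤ P := Pr_nonneg
  have hP1 : P ≤ 1 := Pr_le_one
  -- the blocks in the middle
  set T : Finset (ℤ × ℤ) := Finset.Ico (2 * M : ℤ) (6 * M) ×ˢ Finset.Ico (2 * M : ℤ) (6 * M)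
    with hT
  have hTcard : (T.card : ℝ) = 16 * (M : ℝ) ^ 2 := by
    rw [hT, Finset.card_product, Int.card_Ico]
    have : ((6 * M - 2 * M : ℤ)).toNat = 4 * M := by omega
    rw [this]
    push_cast
    ring
  have hctr : ∀ x : ℤ, 2 * (M : ℤ) ≤ x → x < 6 * M →
      2 * ((M * k : ℕ) : ℤ) ≤ x * (2 * ρ + 1) ∧
        x * (2 * ρ + 1) + (M * k : ℕ) + (2 * ρ + 1) ≤ N := by
    intro x hx1 hx2
    rw [hkz]
    have hN8' : 8 * ((M * k : ℕ) : ℤ) ≤ N := by exact_mod_cast hN8
    have hk0 : (0 : ℤ) ≤ k := by positivity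
    have e1 : 2 * (M : ℤ) * k ≤ x * k := mul_le_mul_of_nonneg_right hx1 hk0
    have e2 : x * k ≤ (6 * M - 1) * k := mul_le_mul_of_nonneg_right (by omega) hk0
    have hMk0 : (0 : ℤ) ≤ M * k := by positivity
    push_cast at hN8' ⊢
    constructor
    · linarith only [e1]
    · nlinarith only [hr, hN, hk, hMk, e2]
  have hmemT : ∀ b ∈ T, (2 * (M : ℤ) ≤ b.1 ∧ b.1 < 6 * M) ∧ (2 * (M : ℤ) ≤ b.2 ∧ b.2 < 6 * M) := by
    intro b hb
    rw [hT, Finset.mem_product, Finset.mem_Ico, Finset.mem_Ico] at hb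
    exact hb
  have hMk' : (2 * (ρ : ℤ) + 1) ≤ (M * k : ℕ) := by rw [hkz]; exact_mod_cast hMk
  have hpos : ∀ b ∈ T, ((M * k : ℕ) : ℤ) < (bCtr ρ b).1 ∧ (bCtr ρ b).1 + (M * k : ℕ) < N ∧
      ((M * k : ℕ) : ℤ) < (bCtr ρ b).2 ∧ (bCtr ρ b).2 + (M * k : ℕ) < N := by
    intro b hb
    obtain ⟨⟨a1, a2⟩, ⟨a3, a4⟩⟩ := hmemT b hb
    have b1 := hctr b.1 a1 a2
    have b2 := hctr b.2 a3 a4
    simp only [bCtr]
    omega
  have hsR : r + 3 * s + 2 ≤ N := by omega
  have hρz : ((3 * s : ℕ) : ℤ) = 3 * (s : ℤ) := by push_cast; ring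
  have hK : ∀ e ∈ tSites N, bIdx ρ e ∈ bAll N ρ := fun e he => bIdx_mem hN1 (tSites_subset N he)
  have hTK : T ⊆ bAll N ρ := by
    intro b hb
    obtain ⟨⟨a1, a2⟩, ⟨a3, a4⟩⟩ := hmemT b hb
    obtain ⟨-, -, h3⟩ := nB_spec (r := ρ) hN1
    rw [hkz] at h3
    have h4 : (6 * M : ℤ) ≤ nB N ρ := by
      by_contra hlt
      push Not at hlt
      have h5 : (nB N ρ : ℤ) * k ≤ (6 * M) * k :=
        mul_le_mul_of_nonneg_right hlt.le (by positivity)
      have hN8' : 8 * ((M : ℤ) * k) ≤ N := by exact_mod_cast hN8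
      have h6 : (0 : ℤ) < M * k := by
        have : 0 < M * k := by omega
        exact_mod_cast this
      nlinarith only [hr, hN, hk, hMk, h3, h5]
    unfold bAll
    rw [Finset.mem_product, Finset.mem_Ico, Finset.mem_Ico]
    omega
  have hmain := block_l1_event (s := tSites N) (β := bIdx ρ) (R := tRule N (bIdx ρ))
    (localOn_windS hN1) (incr_windS N) hK (tRule_mem hK) hTK
    (tRule_det hN1 hK)
    (fun b => {ω | sit ω ∈ Circ (bCtr ρ b) s}) (fun b => {ω | sit ω ∉ ArmBox (bCtr ρ b) s (3 * s)})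
    (fun b => zB (bCtr ρ b) r)
    (fun b hb => by
      obtain ⟨p1, p2, p3, p4⟩ := hpos b hb
      exact (localOn_circS _ s).mono (zB_subset_blk (by omega) (by omega)))
    (fun b _ => Pool.Agent.H83.SK.incr_sit (Pool.Agent.H29.Sep.incr_circ _ s))
    (fun b hb => by
      obtain ⟨p1, p2, p3, p4⟩ := hpos b hb
      exact (localOn_noarmS _ s).mono (zB_subset_blk (by omega) (by omega)))
    (fun b _ => by
      have h := Pool.Agent.H83.SK.incr_sit (incr_armBox (bCtr ρ b) s (3 * s))
      have h2 : {ω : Config | sit ω ∉ ArmBox (bCtr ρ b) s (3 * s)}ᶜ =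
          {ω | sit ω ∈ ArmBox (bCtr ρ b) s (3 * s)} := by
        ext ω
        simp
      rw [h2]
      exact h)
    (fun b hb ω hω => by
      obtain ⟨p1, p2, p3, p4⟩ := hpos b hb
      exact open_circ (le_refl s) hsR (by omega) (by omega) hω)
    (fun b hb ω hω => by
      obtain ⟨p1, p2, p3, p4⟩ := hpos b hb
      exact closed_circ (le_refl s) hsR (by omega) (by omega) hω)
    q hc'0
    (fun b _ => (min_le_left c1 c2).trans (H1 N q hN1 hreg (bCtr ρ b) s (by omega) (by omega)))
    (fun b _ => (min_le_right c1 c2).trans (H2 N q hN1 hreg (bCtr ρ b) s (by omega) (by omega)))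
  have hleft : ∑ b ∈ T, Pr q (BPiv (zB (bCtr ρ b) r) (WindS N)) = T.card * P := by
    rw [Finset.sum_congr rfl fun b hb => Pr_bpiv_zB hr (by omega) q
      (by obtain ⟨p1, p2, p3, p4⟩ := hpos b hb; omega)
      (by obtain ⟨p1, p2, p3, p4⟩ := hpos b hb; omega), Finset.sum_const, nsmul_eq_mul]
  have hM0 : (0 : ℝ) < M := by exact_mod_cast hM
  have hrev : ∀ b ∈ T, Pr q {ω | b ∈ revealed (tSites N) (bIdx ρ) (tRule N (bIdx ρ)) ω
      (bAll N ρ).card} ≤ C * (1 / (M : ℝ)) ^ κ := by
    intro b hb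
    obtain ⟨p1, p2, p3, p4⟩ := hpos b hb
    have h1 : ρ + 1 ≤ M * k := by omega
    have h2 := tRule_arm (N := N) (β := bIdx ρ) (b := b) (z := bCtr ρ b) (ρ := ρ) (R := M * k)
      (fun e he => (mem_blkT.1 he).2) h1 ⟨p1, p2⟩ ⟨p3, p4⟩ (bAll N ρ).card
    refine (Pr_mono h2).trans ((H3 N q hN1 hreg (bCtr ρ b) (ρ + 1) (M * k) (by omega) h1
      (by omega)).trans ?_)
    refine mul_le_mul_of_nonneg_left (Real.rpow_le_rpow (by positivity) ?_ hκ.le) hC.le
    have hk0 : (0 : ℝ) < k := by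
      have : 0 < k := by omega
      exact_mod_cast this
    rw [div_le_div_iff₀ (by positivity) hM0]
    have h5 : (((ρ + 1 : ℕ) : ℝ)) ≤ k := by exact_mod_cast (by omega : ρ + 1 ≤ k)
    push_cast at h5 ⊢
    nlinarith only [h5]
  rw [hleft] at hmain
  have hsum : ∑ b ∈ T, Pr q {ω | b ∈ revealed (tSites N) (bIdx ρ) (tRule N (bIdx ρ)) ω
      (bAll N ρ).card} ≤ T.card * (C * (1 / (M : ℝ)) ^ κ) := by
    refine (Finset.sum_le_sum hrev).trans ?_
    rw [Finset.sum_const, nsmul_eq_mul]
  have hTpos : (0 : ℝ) < T.card := by rw [hTcard]; positivity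
  have hsq : (T.card * P) ^ 2 ≤ 2 / c' * (T.card * (C * (1 / (M : ℝ)) ^ κ)) :=
    hmain.trans (mul_le_mul_of_nonneg_left hsum (by positivity))
  have h7 : (T.card : ℝ) * P ^ 2 ≤ 2 / c' * (C * (1 / (M : ℝ)) ^ κ) := by
    have h8 : (T.card : ℝ) * ((T.card : ℝ) * P ^ 2) ≤
        T.card * (2 / c' * (C * (1 / (M : ℝ)) ^ κ)) := by
      calc (T.card : ℝ) * ((T.card : ℝ) * P ^ 2) = (T.card * P) ^ 2 := by ring
        _ ≤ _ := hsq
        _ = _ := by ring
    exact le_of_mul_le_mul_left h8 hTpos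
  have h9 : (M : ℝ) ^ 2 * P ^ 2 ≤ 2 / c' * (C * (1 / (M : ℝ)) ^ κ) := by
    refine le_trans ?_ h7
    rw [hTcard]
    have : 0 ≤ (M : ℝ) ^ 2 * P ^ 2 := by positivity
    linarith only [this]
  have h10 : (1 / (M : ℝ)) ^ (2 + κ) = (1 / (M : ℝ)) ^ κ / (M : ℝ) ^ 2 := by
    rw [Real.rpow_add (by positivity), Real.rpow_two]
    field_simp
  rw [h10, ← mul_div_assoc, le_div_iff₀ (by positivity)]
  calc P ^ 2 * (M : ℝ) ^ 2 = (M : ℝ) ^ 2 * P ^ 2 := by ring
    _ ≤ _ := h9
    _ = _ := by ring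

/-- **Level-one bound**: the probability that a block of radius `r` is pivotal for the winding of
the torus of side `N` is at most `C (r / N) ^ (1 + δ)`. -/
theorem blockUp : Pool.Agent.H92.SN.BlockUp := by
  intro c hc
  obtain ⟨C, κ, hC, hκ, H⟩ := blockUp_large hc
  refine ⟨(1 + C) * 208 ^ (1 + κ / 2), κ / 2, by positivity, by positivity, ?_⟩
  intro N r q hr h4 hreg
  have hr0 : (0 : ℝ) < r := by exact_mod_cast hr
  have hN0 : (0 : ℝ) < N := by exact_mod_cast (by omega : 0 < N)
  set P : ℝ := Pr q (BlockPiv N r) with hP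
  have hP0 : 0 ≤ P := Pr_nonneg
  have hP1 : P ≤ 1 := Pr_le_one
  set x : ℝ := 208 * ((r : ℝ) / N) with hx
  have hx0 : 0 < x := by positivity
  have hgoal : P ≤ (1 + C) * x ^ (1 + κ / 2) := by
    rcases lt_or_ge N (16 * (6 * r + 7)) with hlt | hge
    · have h1 : 1 ≤ x := by
        rw [hx, ← mul_div_assoc, one_le_div hN0]
        have : N ≤ 208 * r := by omega
        exact_mod_cast this
      have h2 : 1 ≤ x ^ (1 + κ / 2) := Real.one_le_rpow h1 (by positivity)
      nlinarith only [hC, hP1, h2]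
    · set k : ℕ := 6 * r + 7 with hk
      set M : ℕ := N / (8 * k) with hM
      have hk0 : 0 < 8 * k := by omega
      have h1 : M * (8 * k) ≤ N := Nat.div_mul_le_self _ _
      have h2 : N < (M + 1) * (8 * k) := by
        have h := Nat.lt_mul_div_succ N hk0
        calc N < 8 * k * (N / (8 * k) + 1) := h
          _ = _ := Nat.mul_comm _ _
      have hM2 : 2 ≤ M := by
        rw [hM, Nat.le_div_iff_mul_le hk0]
        omega
      have h3 := H N r M q hr (by omega) (by calc 8 * M * k = M * (8 * k) := by ring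
                                                _ ≤ N := h1) hreg
      have hM0 : (0 : ℝ) < M := by exact_mod_cast (by omega : 0 < M)
      have h5 : 1 / (M : ℝ) ≤ x := by
        have h6 : N ≤ M * (208 * r) := by
          have h7 : (M + 1) * (8 * k) ≤ M * (16 * k) := by nlinarith only [hge, h2]
          have h8 : M * (16 * k) ≤ M * (208 * r) := Nat.mul_le_mul_left _ (by omega)
          omega
        have h6' : (N : ℝ) ≤ M * (208 * r) := by exact_mod_cast h6
        rw [hx, div_le_iff₀ hM0]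
        have h9 : 208 * ((r : ℝ) / N) * M = M * (208 * r) / N := by ring
        rw [h9, le_div_iff₀ hN0]
        linarith only [h6']
      have h6 : (1 / (M : ℝ)) ^ (2 + κ) ≤ x ^ (2 + κ) :=
        Real.rpow_le_rpow (by positivity) h5 (by positivity)
      have h7 : x ^ (2 + κ) = (x ^ (1 + κ / 2)) ^ 2 := by
        rw [← Real.rpow_natCast, ← Real.rpow_mul hx0.le]
        congr 1
        push_cast
        ring
      have h8 : P ^ 2 ≤ ((1 + C) * x ^ (1 + κ / 2)) ^ 2 := by
        have h9 : P ^ 2 ≤ C * (x ^ (1 + κ / 2)) ^ 2 := by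
          rw [← h7]
          exact h3.trans (mul_le_mul_of_nonneg_left h6 hC.le)
        have h10 : 0 ≤ (x ^ (1 + κ / 2)) ^ 2 := by positivity
        rw [mul_pow]
        nlinarith only [h9, hC]
      exact le_of_sq_le_sq h8 (by positivity)
  rw [hx, Real.mul_rpow (by norm_num) (by positivity)] at hgoal
  calc P ≤ _ := hgoal
    _ = _ := by ring

end Pool.Agent.H13.SK

end

section

/-!
# Lower bound for the probability that a block is pivotal (sites, block OSSS)
-/

open MeasureTheory ProbabilityTheory unitInterval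

namespace Pool.Agent.H13.SK

open Pool.Agent.H89.Perc Pool.Agent.H85.Kes
open Pool.Agent.H83.SK (sit sv sit_mono)
open Pool.Agent.H92.SN (tSites WindS blkS BlockPiv SReg)
open Pool.Agent.H83.SK.WG (mem_tSites localOn_windS incr_windS)
open Pool.Agent.H61.NC (Two Ring mid)
open Pool.Agent.H31.EX (bIdx bAll nB nB_spec bIdx_mem sum_rpow_le sum_blocks_le)

/-- The blocks of the tiling have smaller influence than the block in the middle. -/
theorem Pr_blkT_le {N r : ℕ} (hr : 1 ≤ r) (h4 : 4 * r ≤ N) (q : I) (b : ℤ × ℤ) :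
    Pr q (BPiv (blk (tSites N) (bIdx r) b) (WindS N)) ≤ Pr q (BlockPiv N r) := by
  classical
  have hN : 1 ≤ N := by omega
  set z : Vert := (b.1 * (2 * r + 1) + r - mid N, b.2 * (2 * r + 1) + r - mid N) with hz
  rw [blockPiv_eq, ← Pr_bpiv_tau hN q (blkS_subset hr h4) z]
  refine Pr_mono (Pool.Agent.H31.EX.bpiv_mono ?_ (incr_windS N))
  intro e he
  rw [mem_blkT, mem_tSites] at he
  obtain ⟨⟨h0, h1, h2, h3, h5⟩, h6⟩ := he
  rw [mem_ball] at h6
  simp only [src, bCtr] at h6
  rw [Finset.mem_image]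
  refine ⟨(e.1 - z.1, e.2.1 - z.2, e.2.2), ?_, ?_⟩
  · rw [← zB_mid, mem_zB]
    simp only [hz]
    exact ⟨h0, by omega, by omega⟩
  · unfold torusSym_tau
    simp only [sub_add_cancel]
    rw [Int.emod_eq_of_lt h1 h2, Int.emod_eq_of_lt h3 h5]

/-- The influence of a block of radius `r` on the winding event is at least
`(r / N) ^ (2 - δ)` in the box-crossing regime. -/
theorem blockLow : Pool.Agent.H92.SN.BlockLow := by
  classical
  intro c hc
  obtain ⟨C, a, hC, ha, ha4, hdec⟩ := Pool.Agent.H83.SK.armBox_decay0 hc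
  set b : ℝ := a with hb
  have hb0 : 0 < b := ha
  have hb1 : b ≤ 1 / 2 := by linarith only [ha, ha4]
  set C1 : ℝ := 1 + 2 * C with hC1
  have hC1p : 1 ≤ C1 := by linarith only [hC]
  refine ⟨8 * C1 / c ^ 8, b, by positivity, hb0, ?_⟩
  intro N r q hr h4 hreg
  have hN4 : 4 ≤ N := by omega
  have hN1 : 1 ≤ N := by omega
  set P : ℝ := Pr q (BlockPiv N r) with hP
  have hP0 : 0 ≤ P := Pr_nonneg
  set K : ℕ := nB N r with hK
  obtain ⟨hK1, hK2, hK3⟩ := nB_spec (r := r) hN1
  rw [← hK] at hK1 hK2 hK3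
  have hKm : ∀ e ∈ tSites N, bIdx r e ∈ bAll N r := fun e he => bIdx_mem hN1 (tSites_subset N he)
  have hosss := block_osss (s := tSites N) (β := bIdx r) (R := tRule N (bIdx r))
    (localOn_windS hN1) (incr_windS N) hKm (tRule_mem hKm) (tRule_det hN1 hKm) q
  -- the revealment
  set G : ℕ → ℝ := fun d => C1 * ((d : ℝ) + 1) ^ (-b) with hG
  have hG0 : ∀ d, 0 ≤ G d := fun d => by
    have : (0 : ℝ) ≤ ((d : ℝ) + 1) ^ (-b) := by positivity
    exact mul_nonneg (by linarith only [hC, ha, ha4]) this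
  set g : ℤ × ℤ → ℝ := fun x =>
    Pr q {ω | x ∈ revealed (tSites N) (bIdx r) (tRule N (bIdx r)) ω (bAll N r).card} with hg
  have hgG : ∀ x ∈ Finset.Ico (0 : ℤ) K ×ˢ Finset.Ico (0 : ℤ) K, ∀ d : ℕ, (d : ℤ) ≤ x.1 →
      (d : ℤ) ≤ K - 1 - x.1 → (d : ℤ) ≤ x.2 → (d : ℤ) ≤ K - 1 - x.2 → g x ≤ G d := by
    intro x hx d d1 d2 d3 d4
    rcases Nat.eq_zero_or_pos d with h0 | hd
    · have : g x ≤ 1 := Pr_le_one
      have h5 : G d = C1 := by rw [hG, h0]; simp
      rw [h5]
      linarith only [hC, this]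
    · obtain ⟨R, hR⟩ : ∃ R : ℕ, R + r = d * (2 * r + 1) :=
        ⟨d * (2 * r + 1) - r, by
          have : r ≤ d * (2 * r + 1) := by nlinarith only [hd]
          omega⟩
      have hRr : (r + 1) * d ≤ R := by
        have : (r + 1) * d + r ≤ d * (2 * r + 1) := by nlinarith only [hd]
        omega
      have hRr1 : r + 1 ≤ R := by nlinarith only [hd, hR, hRr]
      have hRw : (R : ℤ) + r = d * (2 * r + 1) := by exact_mod_cast hR
      have hw0 : (0 : ℤ) < 2 * r + 1 := by positivity
      have g1 : (d : ℤ) * (2 * r + 1) ≤ x.1 * (2 * r + 1) :=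
        mul_le_mul_of_nonneg_right d1 hw0.le
      have g3 : (d : ℤ) * (2 * r + 1) ≤ x.2 * (2 * r + 1) :=
        mul_le_mul_of_nonneg_right d3 hw0.le
      have g2 : (d : ℤ) * (2 * r + 1) ≤ (K - 1) * (2 * r + 1) - x.1 * (2 * r + 1) := by
        have := mul_le_mul_of_nonneg_right d2 hw0.le
        linarith only [this, sub_mul ((K : ℤ) - 1) x.1 (2 * (r : ℤ) + 1)]
      have g4 : (d : ℤ) * (2 * r + 1) ≤ (K - 1) * (2 * r + 1) - x.2 * (2 * r + 1) := by
        have := mul_le_mul_of_nonneg_right d4 hw0.le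
        linarith only [this, sub_mul ((K : ℤ) - 1) x.2 (2 * (r : ℤ) + 1)]
      have hr1 : (1 : ℤ) ≤ r := by exact_mod_cast hr
      have q1 : (R : ℤ) < (bCtr r x).1 := by simp only [bCtr]; omega
      have q2 : (bCtr r x).1 + R < N := by simp only [bCtr]; omega
      have q3 : (R : ℤ) < (bCtr r x).2 := by simp only [bCtr]; omega
      have q4 : (bCtr r x).2 + R < N := by simp only [bCtr]; omega
      have hRN : R ≤ N := by omega
      have hsub := tRule_arm (N := N) (β := bIdx r) (b := x) (z := bCtr r x) (ρ := r) (R := R)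
        (fun e he => (mem_blkT.1 he).2) hRr1 ⟨q1, q2⟩ ⟨q3, q4⟩ (bAll N r).card
      have h10 : g x ≤ Pool.Agent.H83.SK.Pr q (ArmBox (bCtr r x) (r + 1) R) := Pr_mono hsub
      rw [Pool.Agent.H83.SK.Pr_armBox (p := q)] at h10
      have hR0 : (0 : ℝ) < R := by exact_mod_cast (by omega : 0 < R)
      have hd0 : (0 : ℝ) < d := by exact_mod_cast hd
      have hd1 : (1 : ℝ) ≤ d := by exact_mod_cast hd
      have hfrac : ((r + 1 : ℕ) : ℝ) / R ≤ 1 / d := by
        rw [div_le_div_iff₀ hR0 hd0, one_mul]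
        exact_mod_cast hRr
      have hx1 := hdec N (r + 1) R q hreg (by omega) hRr1 hRN
      have hy : C * (((r + 1 : ℕ) : ℝ) / R) ^ a ≤ C * (1 / (d : ℝ)) ^ a :=
        mul_le_mul_of_nonneg_left (Real.rpow_le_rpow (by positivity) hfrac ha.le) hC.le
      have h11 : g x ≤ C * (1 / (d : ℝ)) ^ b := h10.trans (hx1.trans hy)
      refine h11.trans ?_
      have h13 : (1 / (d : ℝ)) ^ b ≤ 2 * ((d : ℝ) + 1) ^ (-b) := by
        have h14 : (1 / (d : ℝ)) ≤ 2 / ((d : ℝ) + 1) := by
          rw [div_le_div_iff₀ hd0 (by positivity)]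
          linarith only [hd1]
        have h15 : (1 / (d : ℝ)) ^ b ≤ (2 / ((d : ℝ) + 1)) ^ b :=
          Real.rpow_le_rpow (by positivity) h14 hb0.le
        have h16 : (2 / ((d : ℝ) + 1)) ^ b = 2 ^ b * ((d : ℝ) + 1) ^ (-b) := by
          rw [Real.div_rpow (by norm_num) (by positivity), Real.rpow_neg (by positivity)]
          rfl
        have h17 : (2 : ℝ) ^ b ≤ 2 := by
          calc (2 : ℝ) ^ b ≤ 2 ^ (1 : ℝ) :=
                Real.rpow_le_rpow_of_exponent_le (by norm_num) (by linarith only [ha, ha4])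
            _ = 2 := by norm_num
        rw [h16] at h15
        refine h15.trans (mul_le_mul_of_nonneg_right h17 (by positivity))
      have h18 : (0 : ℝ) ≤ ((d : ℝ) + 1) ^ (-b) := by positivity
      calc C * (1 / (d : ℝ)) ^ b ≤ C * (2 * ((d : ℝ) + 1) ^ (-b)) :=
            mul_le_mul_of_nonneg_left h13 hC.le
        _ = (2 * C) * ((d : ℝ) + 1) ^ (-b) := by ring
        _ ≤ C1 * ((d : ℝ) + 1) ^ (-b) := mul_le_mul_of_nonneg_right (by linarith only [ha, ha4]) h18
  have hsum := sum_blocks_le hG0 hgG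
  have hsumG : ∑ d ∈ Finset.range K, G d ≤ C1 * (2 * (K : ℝ) ^ (1 - b)) := by
    rw [hG, ← Finset.mul_sum]
    exact mul_le_mul_of_nonneg_left (sum_rpow_le hb0.le hb1 K) (by linarith only [hC, ha, ha4])
  have hK0 : (0 : ℝ) < K := by exact_mod_cast hK1
  have hKpow : (K : ℝ) * (K : ℝ) ^ (1 - b) = (K : ℝ) ^ (2 - b) := by
    rw [show (2 - b : ℝ) = 1 + (1 - b) by ring, Real.rpow_add hK0, Real.rpow_one]
  have hfin : Pr q (WindS N) * (1 - Pr q (WindS N)) ≤ 8 * C1 * (K : ℝ) ^ (2 - b) * P := by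
    have h20 : Pr q (WindS N) * (1 - Pr q (WindS N)) ≤
        ∑ x ∈ Finset.Ico (0 : ℤ) K ×ˢ Finset.Ico (0 : ℤ) K, g x * P := by
      refine hosss.trans (Finset.sum_le_sum fun x _ => ?_)
      exact mul_le_mul_of_nonneg_left (Pr_blkT_le hr h4 q x) Pr_nonneg
    rw [← Finset.sum_mul] at h20
    refine h20.trans (mul_le_mul_of_nonneg_right ?_ hP0)
    refine hsum.trans ?_
    calc 4 * (K : ℝ) * ∑ d ∈ Finset.range K, G d ≤ 4 * K * (C1 * (2 * (K : ℝ) ^ (1 - b))) :=
          mul_le_mul_of_nonneg_left hsumG (by positivity)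
      _ = 8 * C1 * ((K : ℝ) * (K : ℝ) ^ (1 - b)) := by ring
      _ = _ := by rw [hKpow]
  have hlow : c ^ 8 ≤ Pr q (WindS N) * (1 - Pr q (WindS N)) := by
    have h21 := Pool.Agent.H83.SK.WG.wind_reg_lower hc hreg hN4
    have h22 := Pool.Agent.H83.SK.WG.wind_reg_upper hc hreg hN4
    calc c ^ 8 = c ^ 4 * c ^ 4 := by ring
      _ ≤ _ := mul_le_mul h21 h22 (by positivity) Pr_nonneg
  have hr0 : (0 : ℝ) < r := by exact_mod_cast hr
  have hNr : (0 : ℝ) < N := by exact_mod_cast hN1
  have hKN : (K : ℝ) ≤ (N : ℝ) / r := by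
    rw [le_div_iff₀ hr0]
    have h23 : K * (2 * r + 1) ≤ N + 2 * r := Nat.div_mul_le_self _ _
    have h24 : K * r ≤ N := by
      by_contra hlt
      push Not at hlt
      have : K * (2 * r + 1) = 2 * (K * r) + K := by ring
      nlinarith only [hr, h4, hK1, hK2, hlt]
    exact_mod_cast h24
  have hKN' : (K : ℝ) ^ (2 - b) ≤ ((N : ℝ) / r) ^ (2 - b) :=
    Real.rpow_le_rpow hK0.le hKN (by linarith only [ha, ha4])
  have hinv : ((r : ℝ) / N) ^ (2 - b) * ((N : ℝ) / r) ^ (2 - b) = 1 := by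
    rw [← Real.mul_rpow (by positivity) (by positivity)]
    have : (r : ℝ) / N * (N / r) = 1 := by field_simp
    rw [this, Real.one_rpow]
  have hx0 : 0 ≤ ((r : ℝ) / N) ^ (2 - b) := by positivity
  have hall : c ^ 8 ≤ 8 * C1 * ((N : ℝ) / r) ^ (2 - b) * P :=
    hlow.trans (hfin.trans (by gcongr))
  have hc8 : 0 < c ^ 8 := by positivity
  rw [div_mul_eq_mul_div, le_div_iff₀ hc8]
  calc ((r : ℝ) / N) ^ (2 - b) * c ^ 8
      ≤ ((r : ℝ) / N) ^ (2 - b) * (8 * C1 * ((N : ℝ) / r) ^ (2 - b) * P) :=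
        mul_le_mul_of_nonneg_left hall hx0
    _ = 8 * C1 * P * (((r : ℝ) / N) ^ (2 - b) * ((N : ℝ) / r) ^ (2 - b)) := by ring
    _ = 8 * C1 * P := by rw [hinv, mul_one]

end Pool.Agent.H13.SK

end

section

/-!
# The winding probability changes by a constant above the characteristic length
-/

set_option autoImplicit false

open MeasureTheory ProbabilityTheory unitInterval

namespace Pool.Agent.H83.SK.WG

open Pool.Agent.H89.Perc Pool.Agent.H83.Site Pool.Agent.H83.SK.Dict Pool.Agent.H13.SK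
open Pool.Agent.H92.SN (WindS tSites)

/-- The regime of the centred lattice is the regime of the induced bond configuration. -/
theorem rswreg_of_regT {c : ℝ} {n : ℕ} {q : I} (h : RegT 4 c n q) : RSWreg c n q :=
  rswreg_iff.2 fun m h1 h2 => by
    have := h m h1 h2
    push_cast at this
    exact this

/-- The winding probability has increased by a constant above a good scale of the open sites. -/
theorem gap_plus : ∃ δ > (0 : ℝ), ∃ c > (0 : ℝ), ∀ (p : I) (m : ℕ), 1 ≤ m →
    Good δ p false m →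
    c ≤ Pool.Agent.H89.Perc.Pr p (WindS (14 * m)) -
      Pool.Agent.H89.Perc.Pr pc (WindS (14 * m)) := by
  obtain ⟨δ, hδ, c, hc, h⟩ := wind_gap_plus
  exact ⟨δ, hδ, c, hc, fun p m hm hg => h p m (14 * m) hm (by omega) (by omega) hg⟩

/-- The winding probability has decreased by a constant above a good scale of the closed sites. -/
theorem gap_minus : ∃ δ > (0 : ℝ), ∃ c > (0 : ℝ), ∀ (p : I) (m : ℕ), 1 ≤ m →
    Good δ (σ p) true m →
    c ≤ Pool.Agent.H89.Perc.Pr pc (WindS (14 * m)) -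
      Pool.Agent.H89.Perc.Pr p (WindS (14 * m)) := by
  obtain ⟨δ, hδ, c, hc, h⟩ := wind_gap_minus
  exact ⟨δ, hδ, c, hc, fun p m hm hg => h p m (14 * m) hm (by omega) (by omega) hg⟩

end Pool.Agent.H83.SK.WG

end

section

/-!
# The near-critical facts of site percolation on the square lattice, from gluing on the torus
-/

set_option autoImplicit false

open MeasureTheory ProbabilityTheory unitInterval

namespace Pool.Agent.H13.SK

open Pool.Agent.H89.Perc Pool.Agent.H83.Site
open Pool.Agent.H92.SN (SReg WindS GLTorus)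

/-- The near-critical interface holds. -/
theorem nc_holds (hGL : GLTorus) :
    NC Pool.Agent.H92.SN.a4 (fun q N => Pool.Agent.H89.Perc.Pr q (WindS N)) SReg where
  dict := fun c hc => ⟨c, hc, fun _ _ h =>
    Pool.Agent.H83.SK.WG.rswreg_of_regT (h.mono_K (by norm_num))⟩
  up := fun c hc => by
    obtain ⟨C, hC, h⟩ := Pool.Agent.H92.SN.scale_upper' hGL blockLow c hc
    exact ⟨C, hC, h⟩
  lo := fun c hc => by
    obtain ⟨C, hC, h⟩ := Pool.Agent.H92.SN.scale_lower' hGL blockLow c hc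
    exact ⟨C, hC, h⟩
  low := fun c hc => by
    obtain ⟨C, δ, hC, hδ, hδ1, h⟩ := Pool.Agent.H92.SN.a4_low hGL blockLow c hc
    exact ⟨C, hC, δ, hδ, hδ1, h⟩
  high := fun c hc => by
    obtain ⟨C, δ, hC, hδ, hδ1, h⟩ := Pool.Agent.H92.SN.a4_up hGL blockLow blockUp c hc
    exact ⟨C, hC, δ, hδ, hδ1, h⟩
  nonneg := Pool.Agent.H92.SN.a4_nonneg
  anti := fun q _ _ h1 h => Pool.Agent.H92.SN.a4_anti q h1 h
  pos := Pool.Agent.H92.SN.a4_one_pos pc_lt_one
  gap := by
    obtain ⟨δ₁, hδ₁, c₁, hc₁, h1⟩ := Pool.Agent.H83.SK.WG.gap_plus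
    obtain ⟨δ₂, hδ₂, c₂, hc₂, h2⟩ := Pool.Agent.H83.SK.WG.gap_minus
    refine ⟨min δ₁ δ₂, lt_min hδ₁ hδ₂, min c₁ c₂, lt_min hc₁ hc₂, ?_, ?_⟩
    · intro p _ m hm hg
      exact (min_le_left _ _).trans (h1 p m hm (hg.mono (min_le_left _ _)))
    · intro p _ m hm hg
      exact (min_le_right _ _).trans (h2 p m hm (hg.mono (min_le_right _ _)))

end Pool.Agent.H13.SK

end

section

/-!
# With the source closed there is no winding path
-/

set_option autoImplicit false

open MeasureTheory ProbabilityTheory unitInterval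

namespace Pool.Agent.H83.PST

open Pool.Agent.H89.Perc
open Pool.Agent.H61.NC (modE)
open Pool.Agent.H83.SK (sv sit sit_true RSWreg)
open Pool.Agent.H59.EX (LocS inE touch clus closeS Side T Mouth Fence dom pb grid)
open Pool.Agent.H38.N59 (vE rv fillS Src Sep FX FY det Seal Four sv_mem_vE sit_joins)
open Pool.Agent.H26.ST (Cor glu PerInv sh TD Rel1 In joins_sh mulN mem_Cor conn_sh)
open Pool.Agent.H92.SN (WindS tSites)

end Pool.Agent.H83.PST

end

section

/-!
# With the source open there is a winding path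
-/

set_option autoImplicit false

open MeasureTheory ProbabilityTheory unitInterval

namespace Pool.Agent.H83.PST

open Pool.Agent.H89.Perc
open Pool.Agent.H61.NC (modE)
open Pool.Agent.H83.SK (sv sit sit_true RSWreg)
open Pool.Agent.H59.EX (LocS inE touch clus closeS Side T Mouth Fence dom pb grid)
open Pool.Agent.H38.N59 (vE rv fillS Src Sep FX FY det Seal Four)
open Pool.Agent.H26.ST (Cor glu PerInv sh TD Rel1 In)
open Pool.Agent.H92.SN (WindS tSites)

end Pool.Agent.H83.PST

end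

section

/-!
# A separated four-arm event costs at most a pivotal site of the torus
-/

set_option autoImplicit false

open MeasureTheory ProbabilityTheory unitInterval

namespace Pool.Agent.H83.PST

open Pool.Agent.H89.Perc
open Pool.Agent.H61.NC (modE)
open Pool.Agent.H83.SK (sv sit sit_true RSWreg sT)
open Pool.Agent.H59.EX (pb)
open Pool.Agent.H38.N59 (Src Sep FX FY det Seal)

end Pool.Agent.H83.PST

end

end
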