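import Pool.Agent.H94.BG.H31.PT.M31_1
import Pool.Agent.H94.BG.H31.PT.M31_4

/-! The parts of this file: H31.PT.M31_2, H31.PT.M33_1. -/

section

/-! The parts of this file: H85.Gamma.Window, H31.EX.PowerLaw, H56.EX.Pat, H56.EX.TL, H56.EX.Ins, H89.Link.Defs, H89.Link.Row, H56.EX.Defs, H89.Link.Potential, H12.QKZ.DivDiff, H12.QKZ.Support, H12.QKZ.Weights, H12.QKZ.Trig, H12.QKZ.RMat, H12.QKZ.Doeblin, H12.QKZ.Scatter, H12.QKZ.Dens, H96.EX.SSum, H34.Hom.Dvd, H34.Hom.Ext, H34.Hom.Lim, H34.Hom.Three, H34.Hom.Moments, H34.Hom.Wz, H34.Hom.Wz2, H34.Hom.Chu, H34.Hom.Alt, H34.Hom.SumId, H56.EX.Exch. -/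

section

/-!
# Stability of the one-arm probability below the critical point
-/

open MeasureTheory ProbabilityTheory unitInterval Filter Topology

namespace Pool.Agent.H85.Gamma

open Pool.Agent.H89.Perc

end Pool.Agent.H85.Gamma

end

section

/-!
# Power laws with `o(1)` in the exponent

`PL F a` means `F h = h ^ (a + o(1))` as `h ↓ 0`, `PN f a` means `f n = n ^ (-a + o(1))` as
`n → ∞`.
-/

namespace Pool.Agent.H31.EX

end Pool.Agent.H31.EX

end

section

/-! Link patterns on the half infinite cylinder (punctured disc), as involutions on the universal cover,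
and the periodic Temperley-Lieb moves `e_i` (contractible and noncontractible loops are dropped). -/

namespace H56.EX

namespace Pat

end Pat

section closure

end closure

end H56.EX

end

section

/-! Temperley-Lieb relations for the moves `E i` on link patterns. -/

namespace H56.EX

variable {L : ℕ}

namespace E

end E

/-! ### Finiteness -/

end H56.EX

end

section

/-! Insertion of a small arc at positions `i, i+1`: `ins i : Pat L → Pat (L+2)`. -/

namespace H56.EX

variable {L : ℕ}

end H56.EX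

end

section

/-!
# LINK: critical bond percolation on a cylinder and loops (definitions)

Medial lattice: the vertex `(c, r)` (column `c`, row `r`) lies on the edge `medge c r` of the square
lattice.  Faces of the medial lattice: `(c, r)` = the unit square between the columns `c`, `c + 1`
and between the rows `r - 1`, `r` (level `r`).  It is a primal vertex if `c + r` is odd, namely
`((c + r + 1) / 2, (r - c - 1) / 2)`, and a dual vertex (a face of the square lattice, named by its
lower left corner) if `c + r` is even, namely `((c + r) / 2, (r - c - 2) / 2)`.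
The primal vertex `(x, y)` lies at level `x + y`, the edge `e` lies in the row `e.1 + e.2.1`.
The seam is level `0`; the strand of the seam in column `c` lies between the primal vertex `pv c` and
the dual vertex `dv c`.  The period is `c → c + L`, `L = 2 n`, i.e. `(x, y) → (x + n, y - n)`.

At the vertex `(c, r)` the strands connect bottom - right and top - left if `tB ω c r = true`
(type B), and bottom - left and top - right if `tB ω c r = false` (type A).
-/

set_option autoImplicit false

open MeasureTheory ProbabilityTheory Filter Topology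

namespace Pool.Agent.H89.Link

open H56.EX
open Pool.Agent.H89.Perc (Vert Edge Config Pr half src tgt lowFace ball sphere)

variable {L : ℕ} {T : Type*}

/-! ### The row map -/

/-! ### Percolation -/

/-! ### The stationary vector -/

end Pool.Agent.H89.Link

end

section

/-!
# LINK module `Row`: colours are transported by the row map

Proof of `row_inv`.  All facts hold on the universal covers; colours are NOT assumed periodic.
1. (`cap_spec`) for `2 ≤ L`: `E i P` has a small arc at `i` (`E.self`), so `exists_ins` gives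
   `E i P = ins i (cap i P Q0)`.
2. (`E_inv`) if `f (P.m x) = f x` for all `x`, `g x = f x` for `x` not congruent to `i`, `i + 1`
   (mod `L`), and for every `y` congruent to `i`: `f y = f (y + 1)` and `g y = g (y + 1)`, then
   `g ((E i P).m x) = g x` (cases of `tl`, `H56.EX.tl_cases` or `E.of_i`, `E.of_succ`, `E.of_m`,
   `E.of_m_succ`, `E.other`, `E.mem_not`).
3. (`ins_inv`) if `f (phi L i y) = g y`, `g (P.m y) = g y` and `f y = f (y + 1)` for `y` congruent to `i`
   mod `L + 2`, then `f ((ins i P).m x) = f x`; conversely if `f ((ins i P).m x) = f x` for all `x` then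
   `f (phi L i (P.m y)) = f (phi L i y)`.
4. Colour of position `X = (L + 2) j + s`, `0 ≤ s < L + 2`, when the wire has passed the columns
   `0, …, k - 1`:  `s = 0`: `hor (j L - 1)`;  `1 ≤ s ≤ k`: `bot (j L + s - 1)`;  `s = k + 1`:
   `hor (j L + k - 1)`;  `k + 2 ≤ s ≤ L + 1`: `top (j L + s - 2)`.
   Step `k → k + 1` changes only the positions `s = k + 1, k + 2`: from `hor (j L + k - 1), top (j L + k)` to
   `bot (j L + k), hor (j L + k)`; if `t k = true` use `E_inv` with `i = k + 1`, if `t k = false` nothing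
   changes.  (`t (j L + k) = t k` by periodicity.)
5. At the end (`k = L`) the positions `(L+2) j - 1` and `(L+2) j` both have colour `hor (j L - 1)`; use
   `E_inv` with `i = -1`, then `cap_spec` and the second part of 3; the position `(L+2) j + c + 1`
   (`0 ≤ c < L`) is `phi L (-1) (j L + c - 1)`; finally `rot` shifts by one.
-/

set_option autoImplicit false

namespace Pool.Agent.H89.Link

open H56.EX

variable {L : ℕ} {T : Type*}

end Pool.Agent.H89.Link

end

section

/-! Common definitions of the EXACT project, loop part: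
the cube root of unity `q`, operators `eop i`, the list of properties `PsiProps` of the
polynomial qKZ solution, the leg relation of a pair of patterns and the leg sums. -/

namespace H56.EX

open scoped BigOperators

variable {L : ℕ}

/-! ### The leg relation

`Pt : Pat Lt` top pattern, `Pb : Pat Lb` bottom pattern, `kt, kb` = number of strands in the hole at
the top / bottom, `M` = number of glued strands; in all uses `Lt = kt + M`, `Lb = kb + M`.
Top hole ends: positions `0..kt-1`; glued top positions `kt..kt+M-1` (mod `Lt`); same at the bottom.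
Vertices of the composite graph: `inl x` top boundary points, `inr y` bottom boundary points
(on the universal covers). -/

section leg

variable {Lt Lb : ℕ}

end leg

end H56.EX

end

section

/-!
# LINK module `Potential`: parity potentials

`A : Edge → ZMod 2` supported in rows of absolute value `< H` (the row of `e` is `e.1 + e.2.1`).
Ray potential of the face with lower left corner `(a, b)`: the sum of `A` over the horizontal edges above,
  `pot A H (a, b) = ∑_{j = b + 1}^{H - a - 1} A (a, j, false)`   (all other terms vanish).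
* `pot_hor`: `pot (a, b - 1) + pot (a, b) = A (a, b, false)` (trivial), for all `(a, b)`;
* `pot_ver`: `pot (a - 1, b) + pot (a, b) = A (a, b, true) + ∑_{j > b} vsum A (a, j)` where the sum runs over the
  vertices `(a, j)` with `b < j` (finitely many non zero terms): telescoping of the vertical edges.
So if all vertices have even degree (`vsum A V = 0`) then `pot` is a potential on the whole plane; if the only
vertex with odd degree is `0`, then it is a potential except across the edges `(0, b, true)`, `b < 0`.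
A finite or periodic sum of open paths gives such an `A`: `pathSum` of a list of vertices.
-/

set_option autoImplicit false

namespace Pool.Agent.H89.Link

open Pool.Agent.H89.Perc (Vert Edge Config src tgt lowFace vsum)

end Pool.Agent.H89.Link

end

section

/-!
# Divided differences

For a polynomial `P` and two different variables `a, b` there is a polynomial `Q` with
`(X a - X b) Q = (q X b - q² X a) P(swap a b) - (q X a - q² X b) P`  (`q² + q + 1 = 0`), and the
exponents of `Q` lie between exponents of `P`.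
-/

namespace Pool.Agent.H12.QKZ

open MvPolynomial

set_option linter.unusedSectionVars false
set_option linter.unusedSimpArgs false

variable {σ K : Type*} [DecidableEq σ] [Field K]

end Pool.Agent.H12.QKZ

end

section

/-!
# Joint degree and joint order
-/

namespace Pool.Agent.H12.QKZ

open MvPolynomial

set_option linter.unusedSectionVars false
set_option linter.unusedSimpArgs false

variable {σ K : Type*} [DecidableEq σ] [Field K]

end Pool.Agent.H12.QKZ

end

section

/-!
# The weights of the R-matrix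

`bw q z w = (z - w) / (q w - q² z)` with `q² + q + 1 = 0` (so `q² = q⁻¹`), and its value on the unit
circle, where it is real.
-/

namespace Pool.Agent.H12.QKZ

section field

variable {K : Type*} [Field K]

end field

end Pool.Agent.H12.QKZ

end

section

/-!
# The weights on the unit circle
-/

namespace Pool.Agent.H12.QKZ

open Complex

end Pool.Agent.H12.QKZ

end

section

/-!
# The R-matrix of the dense O(1) loop model: algebra

`Rm u e = (1 - u) • 1 + u • e` in an algebra, with `e * e = e`; unitarity and the Yang-Baxter equation.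
-/

namespace Pool.Agent.H12.QKZ

section algebra

variable {K A : Type*} [CommRing K] [Ring A] [Algebra K A]

end algebra

end Pool.Agent.H12.QKZ

end

section

/-!
# Fixed vectors of a stochastic matrix with a common reachable state

`P` is a real square matrix with nonnegative entries and column sums `1`, and some power of `P` has a
strictly positive row.  Then `P` has exactly one fixed vector whose coordinates sum to `1`.
-/

namespace Pool.Agent.H12.QKZ

open Matrix Finset

variable {S : Type*} [Fintype S] [DecidableEq S]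

end Pool.Agent.H12.QKZ

end

section

/-!
# The scattering matrix of the line with the largest angle
-/

namespace Pool.Agent.H12.QKZ

open H56.EX Matrix

set_option linter.unusedSectionVars false

section mapMat

variable {S : Type*} [Fintype S] [DecidableEq S]

end mapMat

variable {L : ℕ}

end Pool.Agent.H12.QKZ

end

section

/-!
# Zariski density of the admissible points
-/

namespace Pool.Agent.H12.QKZ

open H56.EX

end Pool.Agent.H12.QKZ

end

section

/-!
# The explicit sum `S_M(c; z)` of the leg functions: recursion and uniqueness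

`q` is a primitive cube root of unity in a field `K`.  For a finite set `s` of indices, spectral
parameters `z : ι → K` (pairwise distinct), and a list `c` of leg parameters, `SG` is
`∑_{A ⊆ s} ∏_{j ∈ A} (u ∏_i (c_i - q z_j)) ∏_{j ∈ s \ A} (v ∏_i (c_i - q² z_j)) ∏_{j ∈ A, k ∈ s \ A} g (z_j, z_k)`.
-/

set_option autoImplicit false

namespace Pool.Agent.H96.EX

open Finset Polynomial

variable {K ι : Type*} [Field K] [DecidableEq ι]

end Pool.Agent.H96.EX

end

section

/-!
# Divisibility of antisymmetric polynomials by a Vandermonde product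
-/

namespace Pool.Agent.H34.Hom

open MvPolynomial

variable {σ : Type*}

end Pool.Agent.H34.Hom

end

section

/-!
# `∏_{j<k} (z_j² + z_j z_k + z_k²) · SG` is a polynomial
-/

namespace Pool.Agent.H34.Hom

open Finset MvPolynomial Pool.Agent.H96.EX

section poly

variable {κ : Type*}

end poly

end Pool.Agent.H34.Hom

end

section

/-!
# Homogeneous limits of the leg sums, and coefficientwise limits of polynomials
-/

namespace Pool.Agent.H34.Hom

open Finset Polynomial Pool.Agent.H96.EX Filter Topology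

/-! ### coefficientwise limits -/

lemma CT.add {F : Filter ℝ} {p r : ℝ → ℂ[X]} {P R : ℂ[X]} (h1 : CT F p P) (h2 : CT F r R) :
    CT F (fun t => p t + r t) (P + R) := by
  intro k
  simp only [coeff_add]
  exact (h1 k).add (h2 k)

end Pool.Agent.H34.Hom

end

section

/-!
# The three-term relation and the exponents modulo 3
-/

namespace Pool.Agent.H34.Hom

open Finset Polynomial Pool.Agent.H96.EX Filter Topology

/-- vanishing of the `0` part -/
lemma sec0_eval_eq_zero {q : ℂ} (hq : q ^ 2 + q + 1 = 0) (f : ℂ[X]) (x : ℂ)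
    (h0 : f.eval x = 0) (h1 : f.eval (q ^ 2 * x) + f.eval (q * x) = 0) :
    (sec 0 f).eval (x ^ 3) = 0 := by
  have q3 : q ^ 3 = 1 := by linear_combination (q - 1) * hq
  have e1 : (q * x) ^ 3 = x ^ 3 := by rw [mul_pow, q3, one_mul]
  have e2 : (q ^ 2 * x) ^ 3 = x ^ 3 := by
    rw [mul_pow]; have : (q ^ 2) ^ 3 = 1 := by rw [← pow_mul, mul_comm, pow_mul, q3, one_pow]
    rw [this, one_mul]
  rw [eval_decomp f x] at h0
  rw [eval_decomp f (q ^ 2 * x), eval_decomp f (q * x), e1, e2] at h1
  have h3 : (3 : ℂ) * (sec 0 f).eval (x ^ 3) = 0 := by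
    linear_combination h0 + h1 + (-(x * (sec 1 f).eval (x ^ 3)) -
      (x ^ 2 * (sec 2 f).eval (x ^ 3)) * (q ^ 2 - q + 1)) * hq
  rcases mul_eq_zero.1 h3 with h | h
  · norm_num at h
  · exact h

/-! ### three-term relation for the leg sums -/

end Pool.Agent.H34.Hom

end

section

/-!
# Moments of the coefficients of a polynomial with a high order zero at `1`
-/

namespace Pool.Agent.H34.Hom

open Finset Polynomial

variable {K : Type*} [Field K]

lemma mom_C (c : K) (f : K → K) : mom (C c) f = c * f 0 := by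
  rw [mom_eq_range _ _ 1 (by rw [natDegree_C]; omega)]
  simp

end Pool.Agent.H34.Hom

end

section

/-!
# A very-well-poised alternating sum (WZ proof)

`gN N i = ∏_{m<N} (3i-3m-1)(3i-3m-2)` and `A0 M = ∑_i (-1)^(M-i) C(M,i) gN (M+1) i`.
For even `M`: `A0 (M+2) * (m+2) = 36 (m+1)(2m+1)(2m+3)(3m+4)(3m+5) A0 M`, `M = 2m`.
-/

namespace Pool.Agent.H34.Hom

open Finset

/-- the very-well-poised sum -/
def Wsum (N : ℕ) : ℤ := ∑ i ∈ range (N + 1), (-1) ^ i * (N.choose i : ℤ) * (2 * i - N) * gN N i

lemma gN_succ (N : ℕ) (i : ℤ) : gN (N + 1) i = gN N i * ((3 * i - 3 * N - 1) * (3 * i - 3 * N - 2)) := by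
  unfold gN; rw [prod_range_succ]

lemma gN_shift (N : ℕ) (i : ℤ) : gN (N + 1) (i + 1) = gN N i * ((3 * i + 2) * (3 * i + 1)) := by
  unfold gN
  rw [prod_range_succ']
  congr 1
  · apply prod_congr rfl
    intro m _
    push_cast
    ring
  · push_cast; ring

/-- the WZ certificate polynomial times `N+3` -/
def Qz (N i : ℤ) : ℤ :=
  (-210 * N - 461 * N ^ 2 - 376 * N ^ 3 - 135 * N ^ 4 - 18 * N ^ 5) +
  (318 + 925 * N + 941 * N ^ 2 + 405 * N ^ 3 + 63 * N ^ 4) * i +
  (-234 - 477 * N - 306 * N ^ 2 - 63 * N ^ 3) * i ^ 2 +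
  (36 + 54 * N + 18 * N ^ 2) * i ^ 3

/-- term of the sum -/
def Fz (N : ℕ) (i : ℕ) : ℤ := (-1) ^ i * (N.choose i : ℤ) * (2 * i - N) * gN N i

def Gz (N : ℕ) (i : ℕ) : ℤ := (-1) ^ i * ((N + 2).choose i : ℤ) * i * gN (N + 1) i * Qz N i

lemma choose_rel1 (N i : ℕ) : ((N + 2).choose (i + 1) : ℤ) * (i + 1) = ((N + 2).choose i : ℤ) * (N + 2 - i) := by
  rcases le_or_gt i (N + 2) with h | h
  · have := Nat.choose_succ_right_eq (N + 2) i
    have h2 : ((N + 2 - i : ℕ) : ℤ) = N + 2 - i := by push_cast [Nat.cast_sub h]; ring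
    rw [← h2]
    exact_mod_cast this
  · rw [Nat.choose_eq_zero_of_lt h, Nat.choose_eq_zero_of_lt (by omega)]; simp

lemma choose_rel2 (N i : ℕ) : ((N : ℤ) + 2) * (N + 1) * (N.choose i : ℤ) =
    ((N + 2).choose i : ℤ) * (N + 2 - i) * (N + 1 - i) := by
  have key : ∀ n k : ℕ, ((n : ℤ) + 1) * (n.choose k : ℤ) = ((n + 1).choose k : ℤ) * (n + 1 - k) := by
    intro n k
    rcases le_or_gt k n with h | h
    · have := Nat.choose_mul_succ_eq n k
      have h2 : ((n + 1 - k : ℕ) : ℤ) = n + 1 - k := by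
        rw [Nat.cast_sub (by omega)]; push_cast; ring
      rw [← h2, mul_comm]
      exact_mod_cast this
    · rcases Nat.lt_or_ge (n + 1) k with h' | h'
      · rw [Nat.choose_eq_zero_of_lt h, Nat.choose_eq_zero_of_lt h']; simp
      · have : k = n + 1 := by omega
        subst this
        rw [Nat.choose_eq_zero_of_lt h]; simp
  have h1 := key N i
  have h2 := key (N + 1) i
  push_cast at h2
  linear_combination (N + 2 : ℤ) * h1 + (N + 1 - i : ℤ) * h2

lemma wz_step (N : ℕ) (hN : 1 ≤ N) (i : ℕ) :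
    ((N : ℤ) + 1) * (N + 2) * (N + 3) * Fz (N + 2) i -
      ((N : ℤ) + 1) * (N + 2) * (9 * (N + 1) * (N + 2) ^ 2 * (3 * N + 5) * (3 * N + 7)) * Fz N i =
    Gz N (i + 1) - Gz N i := by
  obtain ⟨K, rfl⟩ : ∃ K, N = K + 1 := ⟨N - 1, by omega⟩
  have e1 := choose_rel1 (K + 1) i
  have e2 := choose_rel2 (K + 1) i
  have g1 : gN (K + 1 + 2) i = gN K i * ((3 * i - 3 * K - 1) * (3 * i - 3 * K - 2)) *
      ((3 * i - 3 * (K + 1) - 1) * (3 * i - 3 * (K + 1) - 2)) *
      ((3 * i - 3 * (K + 2) - 1) * (3 * i - 3 * (K + 2) - 2)) := by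
    rw [gN_succ, gN_succ, gN_succ]; push_cast; ring
  have g2 : gN (K + 1) i = gN K i * ((3 * i - 3 * K - 1) * (3 * i - 3 * K - 2)) := gN_succ K i
  have g3 : gN (K + 1 + 1) i = gN K i * ((3 * i - 3 * K - 1) * (3 * i - 3 * K - 2)) *
      ((3 * i - 3 * (K + 1) - 1) * (3 * i - 3 * (K + 1) - 2)) := by
    rw [gN_succ, gN_succ]; push_cast; ring
  have g4 : gN (K + 1 + 1) ((i : ℤ) + 1) = gN K i * ((3 * i - 3 * K - 1) * (3 * i - 3 * K - 2)) *
      ((3 * i + 2) * (3 * i + 1)) := by
    rw [gN_shift, gN_succ]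
  unfold Fz Gz
  push_cast at e1 e2 ⊢
  rw [g1, g2, g3, g4, pow_succ (-1 : ℤ) i]
  unfold Qz
  generalize ((K + 1 + 2).choose i : ℤ) = X at *
  generalize ((K + 1 + 2).choose (i + 1) : ℤ) = X' at *
  generalize ((K + 1).choose i : ℤ) = Y at *
  generalize gN K (i : ℤ) = G at *
  generalize ((-1 : ℤ)) ^ i = s
  generalize (K : ℤ) = k at *
  generalize (i : ℤ) = x at *
  linear_combination (-(9 * (k + 1 + 1) * (k + 1 + 2) ^ 2 * (3 * (k + 1) + 5) * (3 * (k + 1) + 7)) * s *
    (2 * x - (k + 1)) * (G * ((3 * x - 3 * k - 1) * (3 * x - 3 * k - 2)))) * e2 +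
    (s * (G * ((3 * x - 3 * k - 1) * (3 * x - 3 * k - 2)) * ((3 * x + 2) * (3 * x + 1))) *
      ((-210 * (k + 1) - 461 * (k + 1) ^ 2 - 376 * (k + 1) ^ 3 - 135 * (k + 1) ^ 4 - 18 * (k + 1) ^ 5) +
  (318 + 925 * (k + 1) + 941 * (k + 1) ^ 2 + 405 * (k + 1) ^ 3 + 63 * (k + 1) ^ 4) * (x + 1) +
  (-234 - 477 * (k + 1) - 306 * (k + 1) ^ 2 - 63 * (k + 1) ^ 3) * (x + 1) ^ 2 +
  (36 + 54 * (k + 1) + 18 * (k + 1) ^ 2) * (x + 1) ^ 3)) * e1

lemma Wsum_rec (N : ℕ) (hN : 1 ≤ N) :
    ((N : ℤ) + 3) * Wsum (N + 2) =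
      9 * (N + 1) * (N + 2) ^ 2 * (3 * N + 5) * (3 * N + 7) * Wsum N := by
  have h1 : Wsum (N + 2) = ∑ i ∈ range (N + 3), Fz (N + 2) i := by
    unfold Wsum Fz; push_cast; rfl
  have h2 : Wsum N = ∑ i ∈ range (N + 3), Fz N i := by
    rw [sum_range_succ, sum_range_succ]
    unfold Wsum Fz
    rw [Nat.choose_eq_zero_of_lt (by omega : N < N + 2), Nat.choose_eq_zero_of_lt (by omega : N < N + 1)]
    simp
  have h3 : ∑ i ∈ range (N + 3), (Gz N (i + 1) - Gz N i) = 0 := by
    rw [sum_range_sub]
    unfold Gz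
    rw [Nat.choose_eq_zero_of_lt (by omega : N + 2 < N + 3)]
    simp
  have h4 : ∑ i ∈ range (N + 3), (((N : ℤ) + 1) * (N + 2) * (N + 3) * Fz (N + 2) i -
      ((N : ℤ) + 1) * (N + 2) * (9 * (N + 1) * (N + 2) ^ 2 * (3 * N + 5) * (3 * N + 7)) * Fz N i) = 0 := by
    rw [← h3]
    exact sum_congr rfl fun i _ => wz_step N hN i
  rw [sum_sub_distrib, ← mul_sum, ← mul_sum, ← h1, ← h2] at h4
  have h5 : ((N : ℤ) + 1) * (N + 2) ≠ 0 := by positivity
  apply mul_left_cancel₀ h5
  linear_combination h4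

lemma gN_reflect (N i : ℕ) (hi : i ≤ N) : gN N ((N - i : ℕ) : ℤ) = gN N i := by
  unfold gN
  rw [← prod_range_reflect]
  apply prod_congr rfl
  intro m hm
  rw [mem_range] at hm
  have h1 : ((N - 1 - m : ℕ) : ℤ) = N - 1 - m := by omega
  rw [h1, Nat.cast_sub hi]
  ring

lemma sum_choose_gN (N : ℕ) (hN : Odd N) :
    ∑ i ∈ range (N + 1), (-1) ^ i * (N.choose i : ℤ) * gN N i = 0 := by
  have h : ∑ i ∈ range (N + 1), (-1) ^ i * (N.choose i : ℤ) * gN N i =
      - ∑ i ∈ range (N + 1), (-1) ^ i * (N.choose i : ℤ) * gN N i := by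
    conv_lhs => rw [← sum_range_reflect]
    rw [← sum_neg_distrib]
    apply sum_congr rfl
    intro i hi
    rw [mem_range] at hi
    have h1 : N + 1 - 1 - i = N - i := by omega
    rw [h1, Nat.choose_symm (by omega), gN_reflect N i (by omega)]
    have h2 : (-1 : ℤ) ^ (N - i) * (-1) ^ i = -1 := by
      rw [← pow_add, Nat.sub_add_cancel (by omega)]
      exact hN.neg_one_pow
    have h3 : (-1 : ℤ) ^ i * (-1) ^ i = 1 := by rw [← pow_add]; exact (Even.add_self i).neg_one_pow
    have h4 : (-1 : ℤ) ^ (N - i) = - (-1) ^ i := by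
      linear_combination (-1 : ℤ) ^ i * h2 - (-1 : ℤ) ^ (N - i) * h3
    rw [h4]; ring
  linarith only [h]

lemma Wsum_eq (M : ℕ) (hM : Even M) : Wsum (M + 1) = -2 * (M + 1) * A0 M := by
  have h0 := sum_choose_gN (M + 1) hM.add_one
  have h1 : ((M : ℤ) + 1) * A0 M = ∑ i ∈ range (M + 1 + 1),
      (-1) ^ i * ((M + 1).choose i : ℤ) * (M + 1 - i) * gN (M + 1) i := by
    rw [sum_range_succ]
    unfold A0
    rw [mul_sum]
    have hlast : (-1 : ℤ) ^ (M + 1) * ((M + 1).choose (M + 1) : ℤ) * (M + 1 - ((M + 1 : ℕ) : ℤ)) *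
        gN (M + 1) ((M + 1 : ℕ) : ℤ) = 0 := by push_cast; ring
    rw [hlast, add_zero]
    apply sum_congr rfl
    intro i hi
    rw [mem_range] at hi
    have h2 : (-1 : ℤ) ^ (M - i) = (-1) ^ i := by
      have h3 : (-1 : ℤ) ^ (M - i) * (-1) ^ i = 1 := by
        rw [← pow_add, Nat.sub_add_cancel (by omega)]; exact hM.neg_one_pow
      have h4 : (-1 : ℤ) ^ i * (-1) ^ i = 1 := by
        rw [← pow_add]; exact (Even.add_self i).neg_one_pow
      linear_combination (-1 : ℤ) ^ i * h3 - (-1 : ℤ) ^ (M - i) * h4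
    have h3 : ((M : ℤ) + 1) * (M.choose i : ℤ) = ((M + 1).choose i : ℤ) * (M + 1 - i) := by
      have := Nat.choose_mul_succ_eq M i
      have h5 : ((M + 1 - i : ℕ) : ℤ) = M + 1 - i := by
        rw [Nat.cast_sub (by omega)]; push_cast; ring
      rw [← h5, mul_comm]
      exact_mod_cast this
    rw [h2]
    linear_combination (-1 : ℤ) ^ i * gN (M + 1) i * h3
  have h2 : ∑ i ∈ range (M + 1 + 1),
      (-1) ^ i * ((M + 1).choose i : ℤ) * (M + 1 - i) * gN (M + 1) i =
      ((M : ℤ) + 1) * ∑ i ∈ range (M + 1 + 1), (-1) ^ i * ((M + 1).choose i : ℤ) * gN (M + 1) i -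
      ∑ i ∈ range (M + 1 + 1), (-1) ^ i * ((M + 1).choose i : ℤ) * i * gN (M + 1) i := by
    rw [mul_sum, ← sum_sub_distrib]
    apply sum_congr rfl
    intro i _
    ring
  have h3 : Wsum (M + 1) =
      2 * ∑ i ∈ range (M + 1 + 1), (-1) ^ i * ((M + 1).choose i : ℤ) * i * gN (M + 1) i -
      ((M : ℤ) + 1) * ∑ i ∈ range (M + 1 + 1), (-1) ^ i * ((M + 1).choose i : ℤ) * gN (M + 1) i := by
    unfold Wsum
    rw [mul_sum, mul_sum, ← sum_sub_distrib]
    apply sum_congr rfl
    intro i _
    push_cast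
    ring
  rw [h3, h0]
  rw [h2, h0] at h1
  linear_combination 2 * h1

/-- the recursion of `A0` at even arguments -/
theorem A0_rec (m : ℕ) : ((m : ℤ) + 2) * A0 (2 * m + 2) =
    36 * (m + 1) * (2 * m + 1) * (2 * m + 3) * (3 * m + 4) * (3 * m + 5) * A0 (2 * m) := by
  have h1 := Wsum_rec (2 * m + 1) (by omega)
  rw [Wsum_eq (2 * m) (even_two_mul m), Wsum_eq (2 * m + 2) (by simp [parity_simps])] at h1
  push_cast at h1
  have h2 : (-4 : ℤ) * (2 * m + 3) ≠ 0 := by
    have : (0 : ℤ) ≤ m := by positivity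
    intro h; linarith only [h]
  apply mul_left_cancel₀ h2
  linear_combination h1

theorem A0_zero : A0 0 = 2 := by
  simp [A0, gN]

theorem A0_pos (m : ℕ) : 0 < A0 (2 * m) := by
  induction m with
  | zero => rw [mul_zero, A0_zero]; norm_num
  | succ m ih =>
    have h := A0_rec m
    have h2 : 0 < ((m : ℤ) + 2) * A0 (2 * m + 2) := by rw [h]; positivity
    have h3 : (0 : ℤ) < m + 2 := by positivity
    exact pos_of_mul_pos_right h2 h3.le

end Pool.Agent.H34.Hom

end

section

/-! Symmetry consequences for the sums with an extra factor `i`. -/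

namespace Pool.Agent.H34.Hom

open Finset

lemma neg_one_pow_sub {M i : ℕ} (hM : Even M) (hi : i ≤ M) : (-1 : ℤ) ^ (M - i) = (-1) ^ i := by
  have h3 : (-1 : ℤ) ^ (M - i) * (-1) ^ i = 1 := by
    rw [← pow_add, Nat.sub_add_cancel hi]; exact hM.neg_one_pow
  have h4 : (-1 : ℤ) ^ i * (-1) ^ i = 1 := by
    rw [← pow_add]; exact (Even.add_self i).neg_one_pow
  linear_combination (-1 : ℤ) ^ i * h3 - (-1 : ℤ) ^ (M - i) * h4

lemma A1_shift_eq (M : ℕ) (hM : Even M) :
    ∑ i ∈ range (M + 1), (-1) ^ (M - i) * (M.choose i : ℤ) * (i + 1) * gN (M + 1) (i + 1) =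
      (M + 1) * A0 M - ∑ i ∈ range (M + 1), (-1) ^ (M - i) * (M.choose i : ℤ) * i * gN (M + 1) i := by
  unfold A0
  rw [mul_sum, ← sum_sub_distrib, ← sum_range_reflect]
  apply sum_congr rfl
  intro i hi
  rw [mem_range] at hi
  have h1 : M + 1 - 1 - i = M - i := by omega
  rw [h1]
  have h2 : M - (M - i) = i := by omega
  rw [h2, Nat.choose_symm (by omega), neg_one_pow_sub hM (by omega)]
  have h3 := gN_reflect (M + 1) i (by omega)
  have h4 : ((M + 1 - i : ℕ) : ℤ) = ((M - i : ℕ) : ℤ) + 1 := by omega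
  rw [h4] at h3
  rw [h3]
  have h5 : ((M - i : ℕ) : ℤ) = M - i := by omega
  rw [h5]
  ring

lemma A1_zero (M : ℕ) (hM : Even M) :
    ∑ i ∈ range (M + 1), (-1) ^ (M - i) * (M.choose i : ℤ) * i * gN (M + 1) i = 0 := by
  rcases M with _ | M
  · simp
  set S := ∑ i ∈ range (M + 1 + 1), (-1) ^ (M + 1 - i) * ((M + 1).choose i : ℤ) * i * gN (M + 1 + 1) i with hS
  -- drop i = 0 and use i * C(M+1,i) = (M+1) C(M,i-1)
  have h1 : S = ∑ i ∈ range (M + 1), (-1) ^ (M - i) * ((M + 1 : ℤ) * (M.choose i : ℤ)) * gN (M + 1 + 1) (i + 1) := by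
    rw [hS, sum_range_succ']
    simp only [Nat.cast_zero, mul_zero, zero_mul, add_zero]
    apply sum_congr rfl
    intro i hi
    have h2 : M + 1 - (i + 1) = M - i := by omega
    have h3 : (((M + 1).choose (i + 1) : ℕ) : ℤ) * (i + 1) = (M + 1) * (M.choose i : ℤ) := by
      have := Nat.add_one_mul_choose_eq M i
      exact_mod_cast this.symm
    rw [h2, ← h3]
    push_cast
    ring
  have h2 : S = - S := by
    conv_lhs => rw [h1, ← sum_range_reflect]
    rw [h1, ← sum_neg_distrib]
    apply sum_congr rfl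
    intro i hi
    rw [mem_range] at hi
    have e1 : M + 1 - 1 - i = M - i := by omega
    rw [e1]
    have e2 : M - (M - i) = i := by omega
    rw [e2, Nat.choose_symm (by omega)]
    have e3 := gN_reflect (M + 1 + 1) (i + 1) (by omega)
    have e4 : ((M + 1 + 1 - (i + 1) : ℕ) : ℤ) = ((M - i : ℕ) : ℤ) + 1 := by omega
    rw [e4] at e3
    rw [e3]
    have e5 : (-1 : ℤ) ^ (M - i) = - (-1) ^ i := by
      have e6 : (-1 : ℤ) ^ (M - i) * (-1) ^ i = -1 := by
        rw [← pow_add, Nat.sub_add_cancel (by omega)]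
        have : Odd M := by
          rcases Nat.even_or_odd M with h | h
          · exfalso; exact (Nat.not_even_iff_odd.2 h.add_one) hM
          · exact h
        exact this.neg_one_pow
      have e7 : (-1 : ℤ) ^ i * (-1) ^ i = 1 := by
        rw [← pow_add]; exact (Even.add_self i).neg_one_pow
      linear_combination (-1 : ℤ) ^ i * e6 - (-1 : ℤ) ^ (M - i) * e7
    rw [e5]
    push_cast
    ring
  linarith only [h2]

lemma A1_shift (M : ℕ) (hM : Even M) :
    ∑ i ∈ range (M + 1), (-1) ^ (M - i) * (M.choose i : ℤ) * (i + 1) * gN (M + 1) (i + 1) =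
      (M + 1) * A0 M := by
  rw [A1_shift_eq M hM, A1_zero M hM, sub_zero]

end Pool.Agent.H34.Hom

end

section

/-!
# A Chu-Vandermonde sum (WZ proof)

`∑_k (-1)^k C(M,k) / ∏_{m≤M} (3(k-m)-1)` in closed form.
-/

namespace Pool.Agent.H34.Hom

open Finset

variable (K : Type*) [Field K] [CharZero K]

end Pool.Agent.H34.Hom

end

section

/-!
# Alternants, and the factorised sum rule

`alt e N z = det (z_i ^ e_j)`.  With `ex a = (0, a, 3, 3+a, 6, 6+a, …)` the product
`alt (ex 1) · alt (ex 2)` satisfies the recursion of the sum of the qKZ solution times the square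
of the Vandermonde determinant.
-/

set_option autoImplicit false

namespace Pool.Agent.H34.Hom

open Finset Polynomial

lemma ex_two_mul (a k : ℕ) : ex a (2 * k) = 3 * k := by
  induction k with
  | zero => rfl
  | succ k ih =>
    have : ex a (2 * (k + 1)) = ex a (2 * k) + 3 := rfl
    rw [this, ih]; ring

lemma ex_two_mul_add (a k : ℕ) : ex a (2 * k + 1) = 3 * k + a := by
  induction k with
  | zero => simp [ex]
  | succ k ih =>
    have : ex a (2 * (k + 1) + 1) = ex a (2 * k + 1) + 3 := rfl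
    rw [this, ih]; ring

section ring

variable {R : Type*} [CommRing R]

/-- alternant -/
def alt (e : ℕ → ℕ) (N : ℕ) (z : ℕ → R) : R :=
  Matrix.det (Matrix.of fun i j : Fin N => z i ^ e j)

lemma alt_congr (e : ℕ → ℕ) (N : ℕ) {z z' : ℕ → R} (h : ∀ i, i < N → z i = z' i) :
    alt e N z = alt e N z' := by
  unfold alt
  congr 2
  funext i j
  rw [h i i.2]

lemma alt_swap (e : ℕ → ℕ) {N : ℕ} (z : ℕ → R) {a b : ℕ} (ha : a < N) (hb : b < N) (hab : a ≠ b) :
    alt e N (z ∘ Equiv.swap a b) = - alt e N z := by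
  unfold alt
  set τ : Equiv.Perm (Fin N) := Equiv.swap ⟨a, ha⟩ ⟨b, hb⟩ with hτ
  have h1 : (Matrix.of fun i j : Fin N => (z ∘ Equiv.swap a b) i ^ e j) =
      (Matrix.of fun i j : Fin N => z i ^ e j).submatrix τ id := by
    ext i j
    simp only [Matrix.of_apply, Matrix.submatrix_apply, Function.comp, id]
    congr 2
    rw [hτ]
    rcases eq_or_ne (i : ℕ) a with h | h
    · have : i = ⟨a, ha⟩ := Fin.ext h
      rw [this]; simp
    · rcases eq_or_ne (i : ℕ) b with h' | h'
      · have : i = ⟨b, hb⟩ := Fin.ext h'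
        rw [this]; simp
      · rw [Equiv.swap_apply_of_ne_of_ne h h', Equiv.swap_apply_of_ne_of_ne]
        · intro e; exact h (congrArg Fin.val e)
        · intro e; exact h' (congrArg Fin.val e)
  rw [h1, Matrix.det_permute, hτ, Equiv.Perm.sign_swap]
  · simp
  · intro e; exact hab (congrArg Fin.val e)

lemma alt_eq_zero (e : ℕ → ℕ) {N : ℕ} (z : ℕ → R) {a b : ℕ} (ha : a < N) (hb : b < N)
    (hab : a ≠ b) (h : z a = z b) : alt e N z = 0 := by
  unfold alt
  apply Matrix.det_zero_of_row_eq (i := (⟨a, ha⟩ : Fin N)) (j := ⟨b, hb⟩)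
  · intro h; exact hab (congrArg Fin.val h)
  · funext j
    simp [h]

/-- Vandermonde -/
lemma alt_id (N : ℕ) (z : ℕ → R) :
    alt id N z = (Matrix.vandermonde (fun i : Fin N => z i)).det := by
  unfold alt
  congr 1

lemma alt_id_succ (N : ℕ) (z : ℕ → R) :
    alt id (N + 1) z = (∏ j : Fin N, (z (j + 1) - z 0)) * alt id N (fun k => z (k + 1)) := by
  rw [alt_id, alt_id, Matrix.det_vandermonde, Matrix.det_vandermonde, Fin.prod_univ_succ,
    Fin.prod_Ioi_zero]
  congr 1
  apply Finset.prod_congr rfl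
  intro i _
  rw [Fin.prod_Ioi_succ]
  rfl

/-- block recursion of the alternants `ex a` -/
lemma alt_ex_rec (a N : ℕ) (z : ℕ → R) (w : R) (h0 : z 0 ^ 3 = w ^ 3) (h1 : z 1 = w) :
    alt (ex a) (2 + N) z = (w ^ a - z 0 ^ a) * (∏ i : Fin N, (z (2 + i) ^ 3 - w ^ 3)) *
      alt (ex a) N (fun k => z (2 + k)) := by
  classical
  set A : Matrix (Fin (2 + N)) (Fin (2 + N)) R := Matrix.of fun i j => z i ^ ex a j with hA
  set T : Matrix (Fin (2 + N)) (Fin (2 + N)) R := Matrix.of fun j k =>
    if j = k then 1 else if (k : ℕ) = j + 2 then - w ^ 3 else 0 with hT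
  have hTdet : T.det = 1 := by
    rw [Matrix.det_of_isUpperTriangular]
    · simp [hT]
    · intro j k hjk
      simp only [id] at hjk
      simp only [hT, Matrix.of_apply]
      have h1 : j ≠ k := fun h => by rw [h] at hjk; exact lt_irrefl _ hjk
      have h2 : ¬ ((k : ℕ) = j + 2) := by
        have : (k : ℕ) < j := hjk
        omega
      rw [if_neg h1, if_neg h2]
  have hdet : A.det = (A * T).det := by rw [Matrix.det_mul, hTdet, mul_one]
  have hAT : ∀ i k, (A * T) i k = z i ^ ex a k - (if 2 ≤ (k : ℕ) then w ^ 3 * z i ^ ex a (k - 2) else 0) := by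
    intro i k
    rw [Matrix.mul_apply]
    by_cases hk : 2 ≤ (k : ℕ)
    · set k' : Fin (2 + N) := ⟨k - 2, by have := k.2; omega⟩ with hk'
      have hne : k ≠ k' := by
        intro h
        have := congrArg Fin.val h
        simp [hk'] at this
        omega
      rw [← Finset.sum_subset (Finset.subset_univ {k, k'})]
      · rw [Finset.sum_pair hne]
        simp only [hA, hT, Matrix.of_apply, if_pos hk]
        have hkk : (k : ℕ) = (k' : ℕ) + 2 := by
          show (k : ℕ) = (k : ℕ) - 2 + 2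
          omega
        have hkv : (k' : ℕ) = k - 2 := rfl
        rw [if_neg (Ne.symm hne), if_pos hkk, if_pos trivial, hkv]
        ring
      · intro x _ hx
        simp only [mem_insert, mem_singleton, not_or] at hx
        simp only [hT, Matrix.of_apply]
        rw [if_neg hx.1, if_neg, mul_zero]
        intro h
        apply hx.2
        apply Fin.ext
        simp [hk']
        omega
    · rw [Finset.sum_eq_single k]
      · simp [hA, hT, hk]
      · intro x _ hx
        simp only [hT, Matrix.of_apply]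
        rw [if_neg hx, if_neg (by omega), mul_zero]
      · simp
  -- block form
  have hblock : (A * T).submatrix (finSumFinEquiv (m := 2) (n := N)) finSumFinEquiv =
      Matrix.fromBlocks (Matrix.of fun i j : Fin 2 => z i ^ ex a j) 0
        (Matrix.of fun (i : Fin N) (j : Fin 2) => z (2 + i) ^ ex a j)
        (Matrix.of fun i j : Fin N => (z (2 + i) ^ 3 - w ^ 3) * z (2 + i) ^ ex a j) := by
    ext i j
    rw [Matrix.submatrix_apply, hAT]
    rcases i with i | i <;> rcases j with j | j
    · have hj : ¬ 2 ≤ ((finSumFinEquiv (m := 2) (n := N) (Sum.inl j) : Fin (2 + N)) : ℕ) := by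
        have := j.2
        simp
        omega
      rw [if_neg hj]
      simp
    · have hj : 2 ≤ ((finSumFinEquiv (m := 2) (n := N) (Sum.inr j) : Fin (2 + N)) : ℕ) := by
        simp
      rw [if_pos hj]
      simp only [finSumFinEquiv_apply_left, finSumFinEquiv_apply_right, Matrix.fromBlocks_apply₁₂,
        Matrix.zero_apply, Fin.val_castAdd, Fin.val_natAdd]
      have e1 : ex a (2 + (j : ℕ)) = ex a j + 3 := by rw [add_comm]; rfl
      have e2 : 2 + (j : ℕ) - 2 = j := by omega
      have e3 : z (i : ℕ) ^ 3 = w ^ 3 := by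
        fin_cases i
        · exact h0
        · simp [h1]
      rw [e1, e2, pow_add, e3]
      ring
    · have hj : ¬ 2 ≤ ((finSumFinEquiv (m := 2) (n := N) (Sum.inl j) : Fin (2 + N)) : ℕ) := by
        have := j.2
        simp
        omega
      rw [if_neg hj]
      simp
    · have hj : 2 ≤ ((finSumFinEquiv (m := 2) (n := N) (Sum.inr j) : Fin (2 + N)) : ℕ) := by
        simp
      rw [if_pos hj]
      simp only [finSumFinEquiv_apply_right, Matrix.fromBlocks_apply₂₂,
        Matrix.of_apply, Fin.val_natAdd]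
      have e1 : ex a (2 + (j : ℕ)) = ex a j + 3 := by rw [add_comm]; rfl
      have e2 : 2 + (j : ℕ) - 2 = j := by omega
      rw [e1, e2, pow_add]
      ring
  have hd2 : (Matrix.of fun i j : Fin 2 => z i ^ ex a j).det = w ^ a - z 0 ^ a := by
    rw [Matrix.det_fin_two]
    simp [ex, h1]
  unfold alt
  rw [hdet, ← Matrix.det_submatrix_equiv_self (finSumFinEquiv (m := 2) (n := N)), hblock,
    Matrix.det_fromBlocks_zero₁₂, hd2, Matrix.det_mul_column, mul_assoc]
  rfl

end ring

section poly

/-- polynomiality in the first variable -/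
lemma alt_poly (e : ℕ → ℕ) (n D : ℕ) (hD : ∀ j, j ≤ n → e j ≤ D) (z : ℕ → ℂ) :
    ∃ p : ℂ[X], p.natDegree ≤ D ∧ ∀ t, p.eval t = alt e (n + 1) (Function.update z 0 t) := by
  set A : Matrix (Fin (n + 1)) (Fin (n + 1)) ℂ[X] :=
    Matrix.of fun i j => (if i = 0 then X else C (z i)) ^ e j with hA
  refine ⟨A.det, ?_, fun t => ?_⟩
  · rw [Matrix.det_succ_row_zero]
    apply Polynomial.natDegree_sum_le_of_forall_le
    intro j _
    have h1 : (A.submatrix Fin.succ j.succAbove) =
        (C : ℂ →+* ℂ[X]).mapMatrix (Matrix.of fun (i k : Fin n) => z (i.succ) ^ e (j.succAbove k)) := by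
      ext1 i k
      simp only [hA, Matrix.submatrix_apply, Matrix.of_apply, RingHom.mapMatrix_apply,
        Matrix.map_apply]
      rw [if_neg (Fin.succ_ne_zero i), map_pow]
    rw [h1, ← RingHom.map_det]
    refine (natDegree_mul_C_le _ _).trans ?_
    have h2 : ((-1 : ℂ[X]) ^ (j : ℕ)) = C ((-1) ^ (j : ℕ)) := by simp
    rw [h2]
    refine (natDegree_C_mul_le _ _).trans ?_
    simp only [hA, Matrix.of_apply, if_true]
    rw [natDegree_X_pow]
    exact hD j (by have := j.2; omega)
  · unfold alt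
    rw [← Polynomial.coe_evalRingHom, RingHom.map_det]
    congr 1
    ext1 i j
    simp only [hA, RingHom.mapMatrix_apply, Matrix.map_apply, Matrix.of_apply, map_pow]
    congr 1
    by_cases hi : i = 0
    · rw [if_pos hi, hi]; simp
    · rw [if_neg hi]
      have : (i : ℕ) ≠ 0 := fun h => hi (Fin.ext h)
      rw [Function.update_of_ne this]
      simp

end poly

end Pool.Agent.H34.Hom

end

section

/-!
# The sum rule: `Z_{2n} · Δ² · 3^{n(n-1)} = alt (ex 1) · alt (ex 2)`
-/

set_option autoImplicit false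

namespace Pool.Agent.H34.Hom

open Finset Polynomial

variable {q : ℂ} {Z : ℕ → (ℕ → ℂ) → ℂ}

lemma SR.swap' (h : SR q Z) {L : ℕ} (z : ℕ → ℂ) {a b : ℕ} (hab : a < b) (hb : b < L) :
    Z L (z ∘ Equiv.swap a b) = Z L z := by
  induction b generalizing z with
  | zero => omega
  | succ b ih =>
    rcases Nat.lt_succ_iff_lt_or_eq.1 hab with h1 | h1
    · have e : (Equiv.swap a (b + 1) : Equiv.Perm ℕ) =
          Equiv.swap b (b + 1) * Equiv.swap a b * Equiv.swap b (b + 1) := by
        rw [Equiv.swap_mul_swap_mul_swap (by omega) (by omega), Equiv.swap_comm]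
      have e2 : z ∘ Equiv.swap a (b + 1) =
          ((z ∘ Equiv.swap b (b + 1)) ∘ Equiv.swap a b) ∘ Equiv.swap b (b + 1) := by
        rw [e]; rfl
      rw [e2, h.swap _ _ _ hb, ih _ h1 (by omega), h.swap _ _ _ hb]
    · subst h1
      exact h.swap _ _ _ hb

lemma SR.swap'' (h : SR q Z) {L : ℕ} (z : ℕ → ℂ) {a b : ℕ} (ha : a < L) (hb : b < L) :
    Z L (z ∘ Equiv.swap a b) = Z L z := by
  rcases lt_trichotomy a b with h1 | h1 | h1
  · exact h.swap' z h1 hb
  · subst h1; simp
  · rw [Equiv.swap_comm]; exact h.swap' z h1 ha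

/-- the factorised identity -/
def Idn (Z : ℕ → (ℕ → ℂ) → ℂ) (N : ℕ) (c : ℂ) (z : ℕ → ℂ) : Prop :=
  Z N z * alt id N z ^ 2 * c = alt (ex 1) N z * alt (ex 2) N z

lemma Idn_swap (h : SR q Z) {N : ℕ} (c : ℂ) (z : ℕ → ℂ) {a b : ℕ} (ha : a < N) (hb : b < N) :
    Idn Z N c (z ∘ Equiv.swap a b) ↔ Idn Z N c z := by
  rcases eq_or_ne a b with h1 | h1
  · subst h1; simp
  · unfold Idn
    rw [h.swap'' z ha hb, alt_swap id z ha hb h1, alt_swap (ex 1) z ha hb h1,
      alt_swap (ex 2) z ha hb h1]
    simp only [even_two, Even.neg_pow, neg_mul_neg]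

lemma node (hq : q ^ 2 + q + 1 = 0) (h : SR q Z) (n : ℕ) (z : ℕ → ℂ) (h0 : z 0 = q ^ 2 * z 1)
    (ih : Idn Z (2 * n + 2) (3 ^ ((n + 1) * n)) (fun k => z (k + 2))) :
    Idn Z (2 * n + 4) (3 ^ ((n + 2) * (n + 1))) z := by
  have q3 : q ^ 3 = 1 := by linear_combination (q - 1) * hq
  have hw : z 0 ^ 3 = z 1 ^ 3 := by rw [h0]; linear_combination (z 1 ^ 3) * (q ^ 3 + 1) * q3
  have e1 : alt (ex 1) (2 * n + 4) z = (z 1 ^ 1 - z 0 ^ 1) *
      (∏ i : Fin (2 * n + 2), (z (i + 2) ^ 3 - z 1 ^ 3)) * alt (ex 1) (2 * n + 2) (fun k => z (k + 2)) := by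
    have := alt_ex_rec 1 (2 * n + 2) z (z 1) hw rfl
    rw [show 2 * n + 4 = 2 + (2 * n + 2) by ring, this]
    simp only [add_comm 2]
  have e2 : alt (ex 2) (2 * n + 4) z = (z 1 ^ 2 - z 0 ^ 2) *
      (∏ i : Fin (2 * n + 2), (z (i + 2) ^ 3 - z 1 ^ 3)) * alt (ex 2) (2 * n + 2) (fun k => z (k + 2)) := by
    have := alt_ex_rec 2 (2 * n + 2) z (z 1) hw rfl
    rw [show 2 * n + 4 = 2 + (2 * n + 2) by ring, this]
    simp only [add_comm 2]
  have e3 : alt id (2 * n + 4) z = ((z 1 - z 0) * ∏ i : Fin (2 * n + 2), (z (i + 2) - z 0)) *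
      ((∏ i : Fin (2 * n + 2), (z (i + 2) - z 1)) * alt id (2 * n + 2) (fun k => z (k + 2))) := by
    rw [show 2 * n + 4 = (2 * n + 3) + 1 by ring, alt_id_succ,
      show 2 * n + 3 = (2 * n + 2) + 1 by ring, alt_id_succ, Fin.prod_univ_succ]
    rfl
  have e4 := h.recu (2 * n + 2) (by omega) z h0
  rw [Finset.prod_range] at e4
  unfold Idn at ih ⊢
  rw [show 2 * n + 4 = (2 * n + 2) + 2 by ring] at e1 e2 e3 ⊢
  rw [e1, e2, e3, e4]
  have e5 : (3 : ℂ) ^ ((n + 2) * (n + 1)) = 3 ^ (2 * n + 2) * 3 ^ ((n + 1) * n) := by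
    rw [← pow_add]; congr 1; ring
  rw [e5]
  have e6 : (∏ i : Fin (2 * n + 2), (z (i + 2) ^ 3 - z 1 ^ 3)) ^ 2 =
      (∏ i : Fin (2 * n + 2), (z (i + 2) - q * z 1) ^ 2) *
      (∏ i : Fin (2 * n + 2), (z (i + 2) - z 0)) ^ 2 *
      (∏ i : Fin (2 * n + 2), (z (i + 2) - z 1)) ^ 2 := by
    rw [← Finset.prod_pow, ← Finset.prod_pow, ← Finset.prod_pow, ← Finset.prod_mul_distrib,
      ← Finset.prod_mul_distrib]
    apply Finset.prod_congr rfl
    intro i _
    rw [← mul_pow, ← mul_pow]
    congr 1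
    rw [h0]
    have hq2 : q ^ 2 = -1 - q := by linear_combination hq
    generalize z (↑i + 2) = x
    have : (x - q * z 1) * (x - q ^ 2 * z 1) * (x - z 1) = x ^ 3 - z 1 ^ 3 := by
      linear_combination (x * z 1 ^ 2 - x ^ 2 * z 1 ) * hq +
        (x * z 1 ^ 2 - z 1 ^ 3) * q3
    rw [← this]
  generalize (∏ i : Fin (2 * n + 2), (z (i + 2) ^ 3 - z 1 ^ 3)) = P at *
  generalize (∏ i : Fin (2 * n + 2), (z (i + 2) - q * z 1) ^ 2) = P1 at *
  generalize (∏ i : Fin (2 * n + 2), (z (i + 2) - z 0)) = P2 at *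
  generalize (∏ i : Fin (2 * n + 2), (z (i + 2) - z 1)) = P3 at *
  generalize Z (2 * n + 2) (fun k => z (k + 2)) = Z' at *
  generalize alt id (2 * n + 2) (fun k => z (k + 2)) = V at *
  generalize alt (ex 1) (2 * n + 2) (fun k => z (k + 2)) = A at *
  generalize alt (ex 2) (2 * n + 2) (fun k => z (k + 2)) = B at *
  have h3 : (3 : ℂ) ^ (2 * n + 2) ≠ 0 := pow_ne_zero _ (by norm_num)
  generalize (3 : ℂ) ^ (2 * n + 2) = K at *
  generalize (3 : ℂ) ^ ((n + 1) * n) = K' at *
  have e7 : -q * z 1 * P1 / K * Z' * ((z 1 - z 0) * P2 * (P3 * V)) ^ 2 * (K * K') =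
      (-q * z 1 * (z 1 - z 0) ^ 2) * (P1 * P2 ^ 2 * P3 ^ 2) * (Z' * V ^ 2 * K') := by
    field_simp
  rw [e7, ih, ← e6, h0]
  linear_combination (-(P ^ 2 * A * B * z 1 ^ 3) * (q ^ 2 - 1) ^ 2) * hq

lemma dvd_prod_roots {m : ℕ} (f : Fin m → ℂ) (hf : Function.Injective f) (p : ℂ[X])
    (hp : ∀ j, p.eval (f j) = 0) : (∏ j : Fin m, (X - C (f j))) ∣ p := by
  apply Finset.prod_dvd_of_coprime
  · intro a _ b _ hab
    exact pairwise_coprime_X_sub_C hf hab
  · intro j _
    exact dvd_iff_isRoot.2 (hp j)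

lemma prod_monic {m : ℕ} (f : Fin m → ℂ) : (∏ j : Fin m, (X - C (f j))).Monic :=
  monic_prod_of_monic _ _ fun j _ => monic_X_sub_C (f j)

lemma prod_natDegree {m : ℕ} (f : Fin m → ℂ) : (∏ j : Fin m, (X - C (f j))).natDegree = m := by
  rw [natDegree_prod_of_monic _ _ fun j _ => monic_X_sub_C (f j)]
  simp

lemma quot_degree {m D : ℕ} (f : Fin m → ℂ) (p b : ℂ[X]) (hp : p.natDegree ≤ m + D)
    (h : p = (∏ j : Fin m, (X - C (f j))) * b) : b.natDegree ≤ D := by
  by_cases hb : b = 0
  · rw [hb]; simp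
  · rw [h, (prod_monic f).natDegree_mul' hb, prod_natDegree] at hp
    omega

lemma ex_mono (a : ℕ) (ha : a ≤ 3) : ∀ j k, j ≤ k → ex a j ≤ ex a k := by
  have h : ∀ j, ex a j ≤ ex a (j + 1) := by
    intro j
    rcases Nat.even_or_odd' j with ⟨k, rfl | rfl⟩
    · rw [ex_two_mul, ex_two_mul_add]; omega
    · rw [ex_two_mul_add, show 2 * k + 1 + 1 = 2 * (k + 1) by ring, ex_two_mul]; omega
  exact fun j k hjk => monotone_nat_of_le_succ h hjk

/-- the induction step -/
lemma stepI (hq : q ^ 2 + q + 1 = 0) (h : SR q Z) (n : ℕ)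
    (ih : ∀ z, TG (2 * n + 2) (2 * n + 2) z → Idn Z (2 * n + 2) (3 ^ ((n + 1) * n)) z)
    (z : ℕ → ℂ) (hz : TG (2 * n + 4) 0 z) (t : ℂ) :
    Idn Z (2 * n + 4) (3 ^ ((n + 2) * (n + 1))) (Function.update z 0 t) := by
  have q3 : q ^ 3 = 1 := by linear_combination (q - 1) * hq
  have hqne : q ≠ 0 := by
    intro h0; rw [h0] at hq; norm_num at hq
  have hq1 : q ≠ 1 := by
    intro h0; rw [h0] at hq; norm_num at hq
  -- nodes
  have nd1 : ∀ z : ℕ → ℂ, TG (2 * n + 4) 0 z → z 0 = q ^ 2 * z 1 →
      Idn Z (2 * n + 4) (3 ^ ((n + 2) * (n + 1))) z := by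
    intro z hz h0
    apply node hq h n z h0
    apply ih
    refine ⟨fun a ha _ => hz.1 _ (by omega) (by omega), fun a ha b hb hab _ _ =>
      hz.2 _ (by omega) _ (by omega) (by omega) (by omega) (by omega)⟩
  have nd2 : ∀ (z : ℕ → ℂ), TG (2 * n + 4) 0 z → ∀ j, 1 ≤ j → j < 2 * n + 4 → z 0 = q ^ 2 * z j →
      Idn Z (2 * n + 4) (3 ^ ((n + 2) * (n + 1))) z := by
    intro z hz j hj1 hj h0
    rw [← Idn_swap h _ z (a := 1) (b := j) (by omega) hj]
    have hz' := hz.swap (x := 1) (y := j) (by omega) hj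
    have e0 : Equiv.swap 1 j 0 = 0 := Equiv.swap_apply_of_ne_of_ne (by omega) (by omega)
    rw [e0] at hz'
    apply nd1 _ hz'
    simp only [Function.comp_apply, e0, Equiv.swap_apply_left]
    exact h0
  have nd3 : ∀ (z : ℕ → ℂ), TG (2 * n + 4) 0 z → ∀ j, 1 ≤ j → j < 2 * n + 4 → z 0 = q * z j →
      Idn Z (2 * n + 4) (3 ^ ((n + 2) * (n + 1))) z := by
    intro z hz j hj1 hj h0
    rw [← Idn_swap h _ z (a := 0) (b := j) (by omega) hj]
    have hc : z 0 ^ 3 = z j ^ 3 := by rw [h0]; linear_combination z j ^ 3 * q3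
    have hzj : TG (2 * n + 4) j z := by
      refine ⟨fun a ha h1 => ?_, fun a ha b hb hab h1 h2 => ?_⟩
      · rcases eq_or_ne a 0 with h3 | h3
        · rw [h3, h0]; exact mul_ne_zero hqne (hz.1 j hj (by omega))
        · exact hz.1 a ha h3
      · rcases eq_or_ne a 0 with h3 | h3
        · rw [h3, hc]
          exact hz.2 j hj b hb (Ne.symm h2) (by omega) (by omega)
        · rcases eq_or_ne b 0 with h4 | h4
          · rw [h4, hc]
            exact hz.2 a ha j hj h1 h3 (by omega)
          · exact hz.2 a ha b hb hab h3 h4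
    have hz' := hzj.swap (x := 0) (y := j) (by omega) hj
    rw [Equiv.swap_apply_right] at hz'
    apply nd2 _ hz' j hj1 hj
    simp only [Function.comp_apply, Equiv.swap_apply_left, Equiv.swap_apply_right]
    rw [h0]
    linear_combination (-(z j)) * q3
  -- polynomials
  obtain ⟨pZ, hpZ, heZ⟩ := h.poly (2 * n + 4) (by omega) z
  obtain ⟨p1, hp1, he1⟩ := alt_poly (ex 1) (2 * n + 3) (3 * (n + 1) + 1)
    (fun j hj => by
      rw [← ex_two_mul_add]
      exact ex_mono 1 (by omega) _ _ (by omega)) z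
  obtain ⟨p2, hp2, he2⟩ := alt_poly (ex 2) (2 * n + 3) (3 * (n + 1) + 2)
    (fun j hj => by
      rw [← ex_two_mul_add]
      exact ex_mono 2 (by omega) _ _ (by omega)) z
  set f : Fin (2 * n + 3) → ℂ := fun j => z (j + 1) with hf
  have hfinj : Function.Injective f := by
    intro a b hab
    by_contra hne
    have hne' : (a : ℕ) ≠ b := fun e => hne (Fin.ext e)
    exact hz.2 (a + 1) (by omega) (b + 1) (by omega) (by omega) (by omega) (by omega)
      (by rw [show z (a + 1) = z (b + 1) from hab])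
  have hroot : ∀ (e : ℕ → ℕ) (j : Fin (2 * n + 3)),
      alt e (2 * n + 3 + 1) (Function.update z 0 (f j)) = 0 := by
    intro e j
    apply alt_eq_zero e _ (a := 0) (b := j + 1) (by omega) (by omega) (by omega)
    rw [Function.update_self, Function.update_of_ne (by omega)]
  obtain ⟨b1, hb1⟩ := dvd_prod_roots f hfinj p1 (fun j => by rw [he1]; exact hroot _ j)
  obtain ⟨b2, hb2⟩ := dvd_prod_roots f hfinj p2 (fun j => by rw [he2]; exact hroot _ j)
  have hd1 : b1.natDegree ≤ n + 1 := quot_degree f p1 b1 (by omega) hb1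
  have hd2 : b2.natDegree ≤ n + 2 := quot_degree f p2 b2 (by omega) hb2
  set Q : ℂ[X] := ∏ j : Fin (2 * n + 3), (X - C (f j)) with hQ
  set κ : ℂ := alt id (2 * n + 3) (fun k => z (k + 1)) with hκ
  have hV : ∀ t, alt id (2 * n + 4) (Function.update z 0 t) ^ 2 = Q.eval t ^ 2 * κ ^ 2 := by
    intro t
    rw [show 2 * n + 4 = (2 * n + 3) + 1 by ring, alt_id_succ, mul_pow]
    have hk : alt id (2 * n + 3) (fun k => Function.update z 0 t (k + 1)) = κ := by
      apply alt_congr
      intro i _
      rw [Function.update_of_ne (by omega)]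
    rw [hk]
    congr 1
    rw [hQ, eval_prod, ← Finset.prod_pow, ← Finset.prod_pow]
    apply Finset.prod_congr rfl
    intro j _
    rw [Function.update_self, Function.update_of_ne (by omega)]
    simp only [eval_sub, eval_X, eval_C, hf]
    ring
  set D : ℂ[X] := pZ * C (κ ^ 2 * 3 ^ ((n + 2) * (n + 1))) - b1 * b2 with hD
  have hDdeg : D.natDegree ≤ 2 * n + 3 := by
    rw [hD]
    refine (natDegree_sub_le _ _).trans (max_le ?_ ?_)
    · exact (natDegree_mul_C_le _ _).trans (by omega)
    · exact natDegree_mul_le.trans (by omega)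
  have hId : ∀ t, Idn Z (2 * n + 4) (3 ^ ((n + 2) * (n + 1))) (Function.update z 0 t) ↔
      Q.eval t ^ 2 * D.eval t = 0 := by
    intro t
    unfold Idn
    rw [heZ, hV t]
    have e1 : alt (ex 1) (2 * n + 4) (Function.update z 0 t) = Q.eval t * b1.eval t := by
      rw [← eval_mul, ← hb1, he1]
    have e2 : alt (ex 2) (2 * n + 4) (Function.update z 0 t) = Q.eval t * b2.eval t := by
      rw [← eval_mul, ← hb2, he2]
    rw [e1, e2, hD]
    simp only [eval_sub, eval_mul, eval_C]
    constructor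
    · intro h; linear_combination h
    · intro h; linear_combination h
  have hupd : ∀ t, TG (2 * n + 4) 0 (Function.update z 0 t) := by
    intro t
    refine ⟨fun a ha h1 => ?_, fun a ha b hb hab h1 h2 => ?_⟩
    · rw [Function.update_of_ne h1]; exact hz.1 a ha h1
    · rw [Function.update_of_ne h1, Function.update_of_ne h2]; exact hz.2 a ha b hb hab h1 h2
  have hQne : ∀ (j : Fin (2 * n + 3)) (x : ℂ), x ^ 3 = f j ^ 3 → x ≠ f j → Q.eval x ≠ 0 := by
    intro j x hx hne
    rw [hQ, eval_prod, Finset.prod_ne_zero_iff]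
    intro k _
    simp only [eval_sub, eval_X, eval_C]
    rw [sub_ne_zero]
    intro hxk
    rcases eq_or_ne k j with h1 | h1
    · rw [h1] at hxk; exact hne hxk
    · have : (k : ℕ) ≠ j := fun e => h1 (Fin.ext e)
      apply hz.2 (k + 1) (by omega) (j + 1) (by omega) (by omega) (by omega) (by omega)
      show f k ^ 3 = f j ^ 3
      rw [← hxk, hx]
  have hf0 : ∀ j, f j ≠ 0 := fun j => hz.1 _ (by omega) (by omega)
  have hz1 : ∀ j : Fin (2 * n + 3), D.eval (q * f j) = 0 := by
    intro j
    have hI : Idn Z (2 * n + 4) (3 ^ ((n + 2) * (n + 1))) (Function.update z 0 (q * f j)) := by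
      apply nd3 _ (hupd _) (j + 1) (by omega) (by omega)
      rw [Function.update_self, Function.update_of_ne (by omega)]
    rw [hId] at hI
    rcases mul_eq_zero.1 hI with h1 | h1
    · exfalso
      refine hQne j (q * f j) (by linear_combination (f j ^ 3) * q3) ?_ (pow_eq_zero_iff (two_ne_zero) |>.1 h1)
      intro h2
      have : (q - 1) * f j = 0 := by linear_combination h2
      rcases mul_eq_zero.1 this with h3 | h3
      · exact hq1 (sub_eq_zero.1 h3)
      · exact hf0 j h3
    · exact h1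
  have hz2 : ∀ j : Fin (2 * n + 3), D.eval (q ^ 2 * f j) = 0 := by
    intro j
    have hI : Idn Z (2 * n + 4) (3 ^ ((n + 2) * (n + 1))) (Function.update z 0 (q ^ 2 * f j)) := by
      apply nd2 _ (hupd _) (j + 1) (by omega) (by omega)
      rw [Function.update_self, Function.update_of_ne (by omega)]
    rw [hId] at hI
    rcases mul_eq_zero.1 hI with h1 | h1
    · exfalso
      refine hQne j (q ^ 2 * f j) (by linear_combination (f j ^ 3) * (q ^ 3 + 1) * q3) ?_ (pow_eq_zero_iff (two_ne_zero) |>.1 h1)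
      intro h2
      have : (q - 1) * f j = 0 := by linear_combination (-q) * h2 + (f j) * q3
      rcases mul_eq_zero.1 this with h3 | h3
      · exact hq1 (sub_eq_zero.1 h3)
      · exact hf0 j h3
    · exact h1
  have hD0 : D = 0 := by
    apply eq_zero_of_natDegree_lt_card_of_eval_eq_zero D
      (f := Sum.elim (fun j : Fin (2 * n + 3) => q * f j) (fun j : Fin (2 * n + 3) => q ^ 2 * f j))
    · apply Function.Injective.sumElim
      · intro a b hab
        exact hfinj (mul_left_cancel₀ hqne hab)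
      · intro a b hab
        exact hfinj (mul_left_cancel₀ (pow_ne_zero 2 hqne) hab)
      · intro a b hab
        have h1 : f a = q * f b := by
          apply mul_left_cancel₀ hqne
          linear_combination hab
        rcases eq_or_ne a b with h2 | h2
        · rw [h2] at h1
          have : (q - 1) * f b = 0 := by linear_combination -h1
          rcases mul_eq_zero.1 this with h3 | h3
          · exact hq1 (sub_eq_zero.1 h3)
          · exact hf0 b h3
        · have h3 : (a : ℕ) ≠ b := fun e => h2 (Fin.ext e)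
          apply hz.2 (a + 1) (by omega) (b + 1) (by omega) (by omega) (by omega) (by omega)
          show f a ^ 3 = f b ^ 3
          rw [h1]
          linear_combination (f b ^ 3) * q3
    · rintro (j | j)
      · exact hz1 j
      · exact hz2 j
    · simp only [Fintype.card_sum, Fintype.card_fin]
      omega
  rw [hId, hD0]
  simp

/-- **The factorised sum rule.** -/
theorem sum_id (hq : q ^ 2 + q + 1 = 0) (h : SR q Z) (n : ℕ) :
    ∀ z, TG (2 * n + 2) (2 * n + 2) z → Idn Z (2 * n + 2) (3 ^ ((n + 1) * n)) z := by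
  induction n with
  | zero =>
    intro z _
    unfold Idn
    have e1 : ∀ e : ℕ → ℕ, e 0 = 0 → alt e 2 z = z 1 ^ e 1 - z 0 ^ e 1 := by
      intro e he
      unfold alt
      rw [Matrix.det_fin_two]
      simp [he]
    show Z 2 z * alt id 2 z ^ 2 * 3 ^ ((0 + 1) * 0) = alt (ex 1) 2 z * alt (ex 2) 2 z
    rw [h.two, e1 id rfl, e1 (ex 1) rfl, e1 (ex 2) rfl]
    simp only [ex, id]
    ring
  | succ n ih =>
    intro z hz
    have h1 := stepI hq h n ih z
      ⟨fun a ha h0 => hz.1 a (by omega) (by omega), fun a ha b hb hab h1 h2 =>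
        hz.2 a (by omega) b (by omega) hab (by omega) (by omega)⟩ (z 0)
    rw [Function.update_eq_self] at h1
    exact h1

end Pool.Agent.H34.Hom

end

section

/-! Exchange relations of leg sums. -/

namespace H56.EX

open scoped BigOperators Classical

variable {Lt Lb : ℕ}

section linear

variable (kt kb M : ℕ)

end linear

/-! ### top-bottom symmetry -/

/-! ### hole ends (LT2) -/


end H56.EX

end

end

section

/-! The parts of this file: H34.Hom.Struct, H34.Hom.Eval4, H34.Hom.Eval2, H34.Hom.Vals, H34.Hom.Asym, H34.Hom.SumVal. -/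

section

/-!
# Structure of the homogeneous limit polynomials
-/

namespace Pool.Agent.H34.Hom

open Finset Polynomial Pool.Agent.H96.EX Filter Topology

/-! ### limits -/

/-! ### top coefficient, value at zero, recursion at `q²` -/

end Pool.Agent.H34.Hom

end

section

/-!
# Evaluation of the four-leg and three-leg polynomials at `1`
-/

namespace Pool.Agent.H34.Hom

open Finset Polynomial

lemma mom_expand (R : ℂ[X]) (f : ℂ → ℂ) : mom (expand ℂ 3 R) f = mom R (fun x => f (3 * x)) := by
  have h1 := mom_eq_range R (fun x => f (3 * x)) (R.natDegree + 1) (by omega)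
  have h2 := mom_eq_range (expand ℂ 3 R) f (3 * (R.natDegree + 1)) (by
    rw [natDegree_expand]; omega)
  rw [h1, h2]
  have h3 : ∀ n : ℕ, ∑ e ∈ range (3 * n), (expand ℂ 3 R).coeff e * f e =
      ∑ k ∈ range n, R.coeff k * f (3 * k) := by
    intro n
    induction n with
    | zero => simp
    | succ n ih =>
      have e1 : 3 * (n + 1) = 3 * n + 1 + 1 + 1 := by ring
      rw [e1, sum_range_succ, sum_range_succ, sum_range_succ, sum_range_succ, ih]
      rw [coeff_expand (by norm_num), coeff_expand (by norm_num), coeff_expand (by norm_num),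
        if_pos (by omega), if_neg (by omega), if_neg (by omega), Nat.mul_div_cancel_left n (by norm_num)]
      push_cast
      ring
  exact h3 _

lemma mom_zero_of (R : ℂ[X]) (f : ℂ → ℂ) (M : ℕ) (hR : ∀ k, M < k → R.coeff k = 0)
    (hf : ∀ k : ℕ, k ≤ M → f k = 0) : mom R f = 0 := by
  rw [mom_eq_range R f (R.natDegree + 1) (by omega)]
  apply sum_eq_zero
  intro k _
  rcases le_or_gt k M with h | h
  · rw [hf k h, mul_zero]
  · rw [hR k h, zero_mul]

/-- `∏_{m ≤ M} (X - (3m+1)) (X - (3m+2))` -/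
noncomputable def gpoly (M : ℕ) : ℂ[X] :=
  ∏ m ∈ range (M + 1), ((X - C ((3 * m + 1 : ℕ) : ℂ)) * (X - C ((3 * m + 2 : ℕ) : ℂ)))

lemma gpoly_monic (M : ℕ) : (gpoly M).Monic := by
  unfold gpoly
  apply monic_prod_of_monic
  intro m _
  exact (monic_X_sub_C _).mul (monic_X_sub_C _)

lemma gpoly_natDegree (M : ℕ) : (gpoly M).natDegree = 2 * M + 2 := by
  unfold gpoly
  rw [natDegree_prod_of_monic]
  · have : ∀ m ∈ range (M + 1), ((X - C ((3 * m + 1 : ℕ) : ℂ)) * (X - C ((3 * m + 2 : ℕ) : ℂ))).natDegree = 2 := by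
      intro m _
      rw [(monic_X_sub_C _).natDegree_mul (monic_X_sub_C _), natDegree_X_sub_C, natDegree_X_sub_C]
    rw [sum_congr rfl this, sum_const, card_range]
    simp; ring
  · intro m _
    exact (monic_X_sub_C _).mul (monic_X_sub_C _)

lemma gpoly_eval (M : ℕ) (i : ℤ) : (gpoly M).eval (3 * (i : ℂ)) = ((gN (M + 1) i : ℤ) : ℂ) := by
  unfold gpoly gN
  rw [eval_prod, Int.cast_prod]
  apply prod_congr rfl
  intro m _
  simp only [eval_mul, eval_sub, eval_X, eval_C]
  push_cast
  ring

lemma gpoly_root1 (M k : ℕ) (hk : k ≤ M) : (gpoly M).eval (3 * (k : ℂ) + 1) = 0 := by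
  unfold gpoly
  rw [eval_prod]
  apply prod_eq_zero (mem_range.2 (Nat.lt_succ_of_le hk))
  simp

lemma gpoly_root2 (M k : ℕ) (hk : k ≤ M) : (gpoly M).eval (3 * (k : ℂ) + 2) = 0 := by
  unfold gpoly
  rw [eval_prod]
  apply prod_eq_zero (mem_range.2 (Nat.lt_succ_of_le hk))
  simp

end Pool.Agent.H34.Hom

end

section

/-!
# Evaluation of the two-leg, one-leg and zero-leg polynomials
-/

namespace Pool.Agent.H34.Hom

open Finset Polynomial

end Pool.Agent.H34.Hom

end

section

/-!
# The homogeneous values as products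
-/

namespace Pool.Agent.H34.Hom

open Finset Polynomial Pool.Agent.H96.EX Filter Topology

section

variable {q : ℂ} (hq : q ^ 2 + q + 1 = 0)
include hq

end

end Pool.Agent.H34.Hom

end

section

/-!
# Asymptotics of the product formulas
-/

namespace Pool.Agent.H34.Hom

open Finset Filter Topology Stirling

lemma fact_eq (n : ℕ) (hn : n ≠ 0) :
    (n.factorial : ℝ) = stirlingSeq n * (√(2 * n : ℝ) * (n / Real.exp 1) ^ n) := by
  unfold stirlingSeq
  have : (√(2 * n : ℝ) * (n / Real.exp 1) ^ n) ≠ 0 := by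
    have hn' : (0 : ℝ) < n := by exact_mod_cast Nat.pos_of_ne_zero hn
    positivity
  field_simp

lemma tail_bound (E : ℕ → ℝ) (h : ∀ k, 1 ≤ k → |E (k + 1) - E k| ≤ 1 / (k : ℝ) ^ 2 - 1 / ((k : ℝ) + 1) ^ 2)
    (h0 : Tendsto E atTop (𝓝 0)) (k : ℕ) (hk : 1 ≤ k) : |E k| ≤ 1 / (k : ℝ) ^ 2 := by
  have key : ∀ n : ℕ, |E (k + n) - E k| ≤ 1 / (k : ℝ) ^ 2 - 1 / ((k : ℝ) + n) ^ 2 := by
    intro n
    induction n with
    | zero => simp
    | succ n ih =>
      have h1 := h (k + n) (by omega)
      have h2 : E (k + (n + 1)) - E k = (E (k + n + 1) - E (k + n)) + (E (k + n) - E k) := by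
        rw [← add_assoc]; ring
      rw [h2]
      refine (abs_add_le _ _).trans ?_
      push_cast at h1 ⊢
      have : (k : ℝ) + (n + 1) = k + n + 1 := by ring
      rw [this]
      linarith only [ih, h1]
  have h3 : ∀ n : ℕ, |E (k + n) - E k| ≤ 1 / (k : ℝ) ^ 2 := by
    intro n
    refine (key n).trans ?_
    have : 0 ≤ 1 / ((k : ℝ) + n) ^ 2 := by positivity
    linarith only [this]
  have h4 : Tendsto (fun n => |E (k + n) - E k|) atTop (𝓝 |0 - E k|) := by
    apply Tendsto.abs
    apply Tendsto.sub_const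
    have := h0.comp (tendsto_add_atTop_nat k)
    refine this.congr ?_
    intro n
    simp [add_comm]
  have h5 := le_of_tendsto' h4 h3
  simpa using h5

/-- power law from the ratio asymptotics -/
theorem power_law (u : ℕ → ℝ) (hu : ∀ n, 1 ≤ n → 0 < u n) (a K : ℝ)
    (h : ∀ n : ℕ, 1 ≤ n → |Real.log (u (n + 1) / u n) + a / n| ≤ K / (n : ℝ) ^ 2) :
    ∃ c C : ℝ, 0 < c ∧ 0 < C ∧ ∀ n : ℕ, 1 ≤ n → c * (n : ℝ) ^ (-a) ≤ u n ∧ u n ≤ C * (n : ℝ) ^ (-a) := by
  set K' : ℝ := |K| + |a| with hK'
  have hK'0 : 0 ≤ K' := by positivity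
  set d : ℕ → ℝ := fun n => Real.log (u n) + a * Real.log n with hd
  have h1 : ∀ n : ℕ, 1 ≤ n → |d (n + 1) - d n| ≤ K' / (n : ℝ) ^ 2 := by
    intro n hn
    have hn' : (0 : ℝ) < n := by exact_mod_cast hn
    have e1 : d (n + 1) - d n = (Real.log (u (n + 1) / u n) + a / n) +
        a * (Real.log (1 + 1 / n) - 1 / n) := by
      rw [hd]
      simp only
      have : (1 + 1 / (n : ℝ)) = ((n + 1 : ℕ) : ℝ) / n := by push_cast; field_simp
      rw [this, Real.log_div (hu _ (by omega)).ne' (hu n hn).ne', Real.log_div (by positivity) hn'.ne']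
      ring
    have h2 : |Real.log (1 + 1 / (n : ℝ)) - 1 / n| ≤ 1 / (n : ℝ) ^ 2 := by
      set y : ℝ := 1 / (n : ℝ) with hy
      have hy0 : 0 ≤ y := by positivity
      have h3 : Real.log (1 + y) ≤ y := by
        have := Real.log_le_sub_one_of_pos (show 0 < 1 + y by positivity)
        linarith only [this]
      have h4 := Real.le_log_one_add_of_nonneg hy0
      have h5 : y - y ^ 2 ≤ 2 * y / (y + 2) := by
        rw [le_div_iff₀ (by positivity)]
        nlinarith only [hy0, pow_nonneg hy0 3, sq_nonneg y]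
      have h6 : 1 / (n : ℝ) ^ 2 = y ^ 2 := by rw [hy]; field_simp
      rw [h6, abs_le]
      constructor <;> nlinarith only [h4, h5, h3, sq_nonneg y]
    rw [e1]
    refine (abs_add_le _ _).trans ?_
    rw [abs_mul]
    have h7 : K / (n : ℝ) ^ 2 ≤ |K| / (n : ℝ) ^ 2 := by gcongr; exact le_abs_self K
    have h8 : |a| * |Real.log (1 + 1 / (n : ℝ)) - 1 / n| ≤ |a| * (1 / (n : ℝ) ^ 2) := by gcongr
    have h9 : K' / (n : ℝ) ^ 2 = |K| / (n : ℝ) ^ 2 + |a| * (1 / (n : ℝ) ^ 2) := by rw [hK']; ring
    rw [h9]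
    have := h n hn
    linarith only [h7, h8, this]
  have h2 : ∀ n : ℕ, 1 ≤ n → |d n - d 1| ≤ 2 * K' * (1 - 1 / n) := by
    intro n hn
    induction n, hn using Nat.le_induction with
    | base => simp
    | succ n hn ih =>
      have hn' : (1 : ℝ) ≤ n := by exact_mod_cast hn
      have e : d (n + 1) - d 1 = (d (n + 1) - d n) + (d n - d 1) := by ring
      rw [e]
      refine (abs_add_le _ _).trans ?_
      have h3 := h1 n hn
      have h4 : K' / (n : ℝ) ^ 2 ≤ 2 * K' * (1 / n - 1 / (n + 1)) := by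
        have h5 : 1 / (n : ℝ) - 1 / (n + 1) = 1 / (n * (n + 1)) := by field_simp; ring
        rw [h5, mul_one_div, div_le_div_iff₀ (by positivity) (by positivity)]
        nlinarith [mul_nonneg hK'0 (sub_nonneg.2 hn'), mul_nonneg (mul_nonneg hK'0 (show (0:ℝ) ≤ n by linarith)) (sub_nonneg.2 hn')]
      push_cast
      linarith only [ih, h3, h4]
  have h3 : ∀ n : ℕ, 1 ≤ n → |d n - d 1| ≤ 2 * K' := by
    intro n hn
    refine (h2 n hn).trans ?_
    have : 0 ≤ 1 / (n : ℝ) := by positivity
    nlinarith only [hK'0, this]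
  refine ⟨Real.exp (d 1 - 2 * K'), Real.exp (d 1 + 2 * K'), Real.exp_pos _, Real.exp_pos _, ?_⟩
  intro n hn
  have hn' : (0 : ℝ) < n := by exact_mod_cast hn
  have h4 := abs_le.1 (h3 n hn)
  have e1 : u n = Real.exp (d n) * (n : ℝ) ^ (-a) := by
    rw [Real.rpow_def_of_pos hn', ← Real.exp_add, hd]
    simp only
    have : Real.log (u n) + a * Real.log n + Real.log n * -a = Real.log (u n) := by ring
    rw [this, Real.exp_log (hu n hn)]
  rw [e1]
  have hp : 0 < (n : ℝ) ^ (-a) := Real.rpow_pos_of_pos hn' _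
  constructor
  · apply mul_le_mul_of_nonneg_right _ hp.le
    exact Real.exp_le_exp.2 (by linarith)
  · apply mul_le_mul_of_nonneg_right _ hp.le
    exact Real.exp_le_exp.2 (by linarith)

/-! ### the four-leg law -/

end Pool.Agent.H34.Hom

end

section

/-!
# The value of the sum rule at the homogeneous point: `A_HT(2n)`
-/

set_option autoImplicit false

namespace Pool.Agent.H34.Hom

open Finset Polynomial

lemma pp_fin {R : Type*} [CommMonoid R] (N : ℕ) (F : ℕ → ℕ → R) :
    ∏ i : Fin N, ∏ j ∈ Ioi i, F i j = pp N F := by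
  rw [Finset.prod_comm' (t' := Finset.univ) (s' := fun j => Finset.Iio j)
    (by intro i j; simp)]
  unfold pp
  rw [Finset.prod_range]
  apply prod_congr rfl
  intro k _
  have h := Fin.map_valEmbedding_Iio k
  rw [← Nat.Iio_eq_range, ← h, prod_map]
  rfl

lemma pow_sub_pow' (r : ℂ) {a b : ℕ} (h : a ≤ b) :
    r ^ b - r ^ a = (r - 1) * (r ^ a * ∑ k ∈ range (b - a), r ^ k) := by
  have h1 := mul_geom_sum r (b - a)
  have h2 : r ^ b = r ^ a * r ^ (b - a) := by rw [← pow_add]; congr 1; omega
  rw [h2]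
  linear_combination (-(r ^ a)) * h1

/-- the regularised alternant -/
noncomputable def ralt (e : ℕ → ℕ) (N : ℕ) (r : ℂ) : ℂ :=
  pp N (fun i j => r ^ e i * ∑ k ∈ range (e j - e i), r ^ k)

lemma ralt_cont (e : ℕ → ℕ) (N : ℕ) : Continuous (ralt e N) := by
  unfold ralt pp
  fun_prop

/-- product of the differences of the exponents -/
noncomputable def PD (e : ℕ → ℕ) (N : ℕ) : ℝ := pp N (fun i j => ((e j : ℝ) - e i))

lemma ralt_one (e : ℕ → ℕ) (he : ∀ i j, i ≤ j → e i ≤ e j) (N : ℕ) :
    ralt e N 1 = ((PD e N : ℝ) : ℂ) := by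
  unfold ralt PD pp
  push_cast
  apply Finset.prod_congr rfl
  intro j _
  apply Finset.prod_congr rfl
  intro i hi
  have hij : e i ≤ e j := he i j (mem_range.1 hi).le
  simp only [one_pow, sum_const, card_range, nsmul_eq_mul, mul_one, one_mul]
  push_cast [Nat.cast_sub hij]
  ring

variable {q : ℂ} {Z : ℕ → (ℕ → ℂ) → ℂ}

/-! ### the products -/

lemma prod_range_two_mul (F : ℕ → ℝ) (n : ℕ) :
    ∏ i ∈ range (2 * n), F i = ∏ k ∈ range n, F (2 * k) * F (2 * k + 1) := by
  induction n with
  | zero => simp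
  | succ n ih =>
    rw [show 2 * (n + 1) = 2 * n + 1 + 1 by ring, prod_range_succ, prod_range_succ, ih,
      prod_range_succ]
    ring

lemma PD_succ_succ (e : ℕ → ℕ) (n : ℕ) : PD e (2 * n + 2) = PD e (2 * n) *
    ((∏ i ∈ range (2 * n), (((e (2 * n) : ℝ)) - e i)) *
      ∏ i ∈ range (2 * n + 1), (((e (2 * n + 1) : ℝ)) - e i)) := by
  unfold PD pp
  rw [show 2 * n + 2 = 2 * n + 1 + 1 by ring, prod_range_succ, prod_range_succ]
  ring

lemma PD_id_succ (n : ℕ) : PD id (2 * n + 2) = PD id (2 * n) *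
    (((2 * n).factorial : ℝ) * ((2 * n + 1).factorial : ℝ)) := by
  have h : ∀ m : ℕ, ∏ i ∈ range m, (((id m : ℕ) : ℝ) - (id i : ℕ)) = (m.factorial : ℝ) := by
    intro m
    rw [← Finset.prod_range_reflect, ← Finset.prod_range_add_one_eq_factorial]
    push_cast
    apply Finset.prod_congr rfl
    intro i hi
    have hi := mem_range.1 hi
    simp only [id]
    have : m - 1 - i + (i + 1) = m := by omega
    have h2 : ((m - 1 - i : ℕ) : ℝ) + (i + 1) = m := by exact_mod_cast this
    linarith only [h2]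
  rw [PD_succ_succ, h, h]

lemma P1_eq (n : ℕ) : (((1 : ℕ) : ℝ) * ∏ j ∈ range n,
    ((3 * (j + 1)) ^ 2 * (3 * (j + 1) - (1 : ℕ)) * (3 * (j + 1) + (1 : ℕ)) : ℝ)) =
      3 ^ n * n.factorial * (3 * n + 1).factorial := by
  induction n with
  | zero => simp
  | succ n ih =>
    rw [prod_range_succ, ← mul_assoc, ih, show 3 * (n + 1) + 1 = 3 * n + 1 + 1 + 1 + 1 by ring]
    simp only [Nat.factorial_succ]
    push_cast
    ring

lemma P2_eq (n : ℕ) : (((2 : ℕ) : ℝ) * ∏ j ∈ range n,
    ((3 * (j + 1)) ^ 2 * (3 * (j + 1) - (2 : ℕ)) * (3 * (j + 1) + (2 : ℕ)) : ℝ)) =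
      3 ^ n * n.factorial * ((3 * n).factorial * (3 * n + 2)) := by
  induction n with
  | zero => simp
  | succ n ih =>
    rw [prod_range_succ, ← mul_assoc, ih, show 3 * (n + 1) = 3 * n + 1 + 1 + 1 by ring]
    simp only [Nat.factorial_succ]
    push_cast
    ring

lemma PD_id_pos (n : ℕ) : 0 < PD id n := by
  unfold PD pp
  apply Finset.prod_pos
  intro j _
  apply Finset.prod_pos
  intro i hi
  have : (i : ℝ) < j := by exact_mod_cast mem_range.1 hi
  simp only [id]
  linarith

end Pool.Agent.H34.Hom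

end

end
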