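import Pool.Agent.H94.BG.H31.PT.M31_4
import Pool.Agent.H94.BG.H31.PT.M32_3
import Pool.Agent.H94.BG.H31.PT.M32_5
import Pool.Agent.H94.BG.H31.PT.M34_2
import Pool.Agent.H94.BG.H31.PT.M36

/-! The parts of this file: H31.PT.M34_1, H31.PT.M36_3. -/

section

/-! The parts of this file: H89.Perc.ArmExt, H85.Gamma.Bounds, H57.LF.Final, H83.EX.SigmaUpper, H83.EX.Scale, H90.NC.ArmDet, H90.NC.ArmExt, H90.NC.ArmGlue, H83.EX.WeakRSW, H12.QKZ.Tri, H12.QKZ.Num, H12.QKZ.Lam, H12.QKZ.Exist, H12.QKZ.Main, H56.EX.Base, H96.EX.SMa, H96.EX.SMb, H96.EX.SM, H96.EX.STM, H89.Link.Diag. -/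

section

/-!
# Regularity of the one-arm probability
-/

open MeasureTheory ProbabilityTheory unitInterval

namespace Pool.Agent.H89.Perc

end Pool.Agent.H89.Perc

end

section

/-!
# Bounds for the arms of an edge and for the derivative of the one-arm probability
-/

open MeasureTheory ProbabilityTheory unitInterval

namespace Pool.Agent.H85.Gamma

open Pool.Agent.H89.Perc

theorem arm_half_pos (k : ℕ) : 0 < arm half k := by
  obtain ⟨c, hc, h⟩ := armBox_lower
  rcases Nat.eq_zero_or_pos k with hk | hk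
  · subst hk; rw [arm_zero]; norm_num
  · have h1 := h 0 k hk (Nat.zero_le k)
    have h2 : Pr half (ArmBox 0 0 k) ≤ arm half k := by
      refine Pr_mono ?_
      rintro ω ⟨w, hw, u, hu, hc⟩
      have hw0 : w = 0 := by
        simp only [mem_ball, Prod.fst_zero, Prod.snd_zero, Nat.cast_zero] at hw
        ext
        · simp only [Prod.fst_zero]; omega
        · simp only [Prod.snd_zero]; omega
      subst hw0
      exact ⟨u, hu, hc⟩
    have h3 : 0 < c * Real.sqrt (((0 : ℕ) + 1) / k) := by
      have : (0 : ℝ) < k := by exact_mod_cast hk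
      positivity
    linarith only [h1, h2, h3]

end Pool.Agent.H85.Gamma

end

section

/-!
# The lower bound `θ(p) ≥ c √(p - 1/2)`
-/

open MeasureTheory ProbabilityTheory unitInterval Filter Topology

namespace Pool.Agent.H57.LF

open Pool.Agent.H89.Perc

end Pool.Agent.H57.LF

end

section

/-! # Upper bound for the mean cluster size -/

open MeasureTheory ProbabilityTheory unitInterval
open scoped ENNReal

namespace Pool.Agent.H83.EX

open Pool.Agent.H89.Perc

end Pool.Agent.H83.EX

end

section

/-! # Good scales: percolation probability and mean cluster size -/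

open MeasureTheory ProbabilityTheory unitInterval
open scoped ENNReal

namespace Pool.Agent.H83.EX

open Pool.Agent.H89.Perc

/-- The square of side `4 m` is crossed with probability at least `1 - δ`. -/
def Good (δ : ℝ) (p : I) (m : ℕ) : Prop := 1 - δ ≤ Pr p {ω | HCross ω 0 (4 * m) 0 (4 * m)}

end Pool.Agent.H83.EX

end

section

/-!
# A pivotal edge for the event `W0`
-/

open MeasureTheory ProbabilityTheory unitInterval

namespace Pool.Agent.H61.NC

open Pool.Agent.H89.Perc

end Pool.Agent.H61.NC

end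

section

/-!
# Extension of one-arm events in the box-crossing regime
-/

open MeasureTheory ProbabilityTheory unitInterval

namespace Pool.Agent.H61.NC

open Pool.Agent.H89.Perc

/-! ### Finite energy -/

/-! ### One step of the extension -/

end Pool.Agent.H61.NC

end

section

/-!
# Gluing of the arm of the middle vertex and the outer event
-/

open MeasureTheory ProbabilityTheory unitInterval

namespace Pool.Agent.H61.NC

open Pool.Agent.H89.Perc

end Pool.Agent.H61.NC

end

section

/-! # Box crossing property at general densities -/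

open MeasureTheory ProbabilityTheory unitInterval

namespace Pool.Agent.H83.EX

open Pool.Agent.H89.Perc

end Pool.Agent.H83.EX

end

section

/-!
# Triangularity
-/

namespace Pool.Agent.H12.QKZ

open H56.EX

end Pool.Agent.H12.QKZ

end

section

/-!
# The normalised fixed vector for admissible angles
-/

namespace Pool.Agent.H12.QKZ

open H56.EX Matrix

set_option linter.unusedSectionVars false

variable {L : ℕ}

end Pool.Agent.H12.QKZ

end

section

/-!
# Normalisation by the base component
-/

namespace Pool.Agent.H12.QKZ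

open H56.EX Matrix

variable {L : ℕ}

/-! ### Base patterns -/

/-! ### Closure under rotations -/

/-! ### The base component does not vanish -/

end Pool.Agent.H12.QKZ

end

section

/-!
# The renormalised vector and its polynomiality
-/

namespace Pool.Agent.H12.QKZ

open H56.EX Matrix MvPolynomial

variable {L : ℕ}

end Pool.Agent.H12.QKZ

end

section

/-!
# The polynomial qKZ solution
-/

namespace Pool.Agent.H12.QKZ

open H56.EX Matrix MvPolynomial

variable {L : ℕ}

end Pool.Agent.H12.QKZ

end

section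

/-! The base case of the leg formula: `F22` with no glued strand. -/

namespace H56.EX

open scoped BigOperators Classical

/-- The base pattern on two strands. -/
def base2 : Pat 2 where
  m := fun x => if x % 2 = 0 then x - 1 else x + 1
  inv := fun x => by
    by_cases h : x % 2 = 0
    · have h' : (x - 1) % 2 ≠ 0 := by omega
      simp only [h, if_true, h', if_false]; ring
    · have h' : (x + 1) % 2 = 0 := by omega
      simp only [h, if_false, h', if_true]; ring
  per := fun x => by
    by_cases h : x % 2 = 0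
    · have h' : (x + (2 : ℕ)) % 2 = 0 := by push_cast; omega
      simp only [h, if_true, h']; push_cast; ring
    · have h' : (x + (2 : ℕ)) % 2 ≠ 0 := by push_cast; omega
      simp only [h, if_false, h']; push_cast; ring
  ne := fun x => by
    by_cases h : x % 2 = 0 <;> simp [h]
  short := fun x => by
    by_cases h : x % 2 = 0 <;> simp [h]
  nc := fun x y h1 h2 => by
    by_cases h : x % 2 = 0
    · simp only [h, if_true] at h2; omega
    · simp only [h, if_false] at h2; omega

lemma eq_base2 (P : Pat 2) (h : P.m 0 ≠ 1) : P = base2 := by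
  have h0 := P.short' 0
  have h1 := P.ne 0
  have h2 : P.m 0 = -1 := by
    have a1 := h0.1
    have a2 := h0.2
    push_cast at a1 a2
    omega
  have h3 : P.m 1 = 2 := by
    have := P.inv 0
    rw [h2] at this
    have h4 := P.per (-1)
    rw [this] at h4
    simpa using h4
  apply Pat.ext_Ico
  intro x hx0 hx2
  have : x = 0 ∨ x = 1 := by push_cast at hx2; omega
  rcases this with rfl | rfl
  · rw [h2]; rfl
  · rw [h3]; rfl

lemma isBase_base2 : IsBase base2 := by
  intro x h1 h2
  push_cast at h1 h2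
  have : x = 0 ∨ x = -1 := by omega
  rcases this with rfl | rfl <;> rfl

section psi

variable {Ψ : ∀ L : ℕ, Pat L → (ℤ → ℂ) → ℂ} (hΨ : PsiProps Ψ)

include hΨ

lemma psi_base2 (s : ℕ → ℂ) : Ψ 2 base2 (par 2 s) = (q * s 1 - q⁻¹ * s 0) / (q - q⁻¹) := by
  rw [hΨ.base 2 base2 _ isBase_base2]
  have e0 : par 2 s ((0 : ℕ) : ℤ) = s 0 := par_nat _ (by norm_num)
  have e1 : par 2 s ((1 : ℕ) : ℤ) = s 1 := par_nat _ (by norm_num)
  rw [Finset.prod_range_succ, Finset.prod_range_succ, Finset.prod_range_zero,
    Finset.prod_range_zero, Finset.prod_range_one, e0, e1]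
  ring

end psi

end H56.EX

end

section

/-!
# The explicit sum in the form of the leg functions, for any number of legs

`SGen k M u v c z` is the sum over `ε ∈ {q, q²}^M`; `SM M = SGen 4 M q (q²)`.
Recursions, symmetry in `c` and `z`, degree in each `c l`.
-/

set_option autoImplicit false

namespace Pool.Agent.H96.EX

open Finset H56.EX

end Pool.Agent.H96.EX

end

section

/-!
# The polynomial `S` extending the explicit sum `SGen` to all values of the parameters

* `SPoly k M u v : MvPolynomial (Fin k ⊕ Fin M) ℂ`, `S k M u v c z` = its value;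
* `S_eq_SGen` : `S = SGen` for pairwise distinct `z`;
* `S_continuous`, `S_symm_c`, `S_symm_z`, `S_poly` (degree `≤ M` in each leg), `S_rec1`, `S_rec2`
  (recursions, for ALL values), `S_zero`.
-/

set_option autoImplicit false

namespace Pool.Agent.H96.EX

open Finset H56.EX

/-! ### Vandermonde product -/

/-! ### numerators -/

/-! ### continuity along a line -/

/-! ### divisibility -/

section dvd

open MvPolynomial

variable {σ : Type*} [DecidableEq σ]

end dvd

/-! ### degree in a leg parameter -/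

end Pool.Agent.H96.EX

end

section

/-!
# Interface for `H56.EX.SM`

`SM_S` : `SM M c z = S 4 M q (q²) c z` for pairwise distinct `z`;
`SM_zero`, `SM_symm_c`, `SM_symm_z`, `SM_poly`, `SM_rec1`, `SM_rec2`, `SM_unique`.
For all values of the parameters (also coinciding strands) use `S 4 M q (q²)` of `SMb.lean`.
-/

set_option autoImplicit false

namespace Pool.Agent.H96.EX

open Finset H56.EX

end Pool.Agent.H96.EX

end

section

/-!
# Bridge: `S` and the sum `SG` over `range M` with a list of legs (helper56's `TM`)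
-/

set_option autoImplicit false

namespace Pool.Agent.H96.EX

open Finset H56.EX

end Pool.Agent.H96.EX

end

section

/-!
# LINK module `Diag`: four arms at a diagonal pair of vertices and four arms of an edge

`x = (0, 0)`, `y = (1, -1)`, `z = (1, 0)`, `w = (0, -1)`: the corners of the face `q = (0, -1)`;
`e = (0, 0, false)` joins `x, z`; `g = (1, -1, true)` joins `y, z`; `f = (0, -1, true)` joins `w, x`.
Clusters `C(v)` are taken in `ball 0 k` (all four points are in it for `k ≥ 1`).

`fourD_le_a4`.  Let `ω ∈ FourD k`.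
* `z ∈ C(y)`: `e` is closed, `ω ∈ A4 e k`.
* `z ∈ C(x)`: `g` is closed; restricted to `ball (1, -1) (k - 1) ⊆ ball 0 k` this is `A4 g (k - 1)` (`src g = y`; the
  path from `z` goes through `x` to the sphere; cut it at `sphere y (k-1)`).
* otherwise: `Function.update ω g true ∈ A4 e k` (now `z ∈ C(y)`, `x` is not joined to it).
  `Pr p {ω | update ω g true ∈ A} ≤ Pr p A / p` (independence of the edge `g`).
Then `Pr_A4` and `a4_anti`.

`a4_le_fourD`.  Let `ω ∈ A4 e k`, `ω₀ = close e ω` (the clusters are now those of `ω₀`).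
* `y ∈ C(z)`: `ω₀ ∈ FourD k`.
* `y ∉ C(z)`, `y ∉ C(x)`: `update ω₀ g true ∈ FourD k`.
* `y ∈ C(x)`, `w ∈ C(x)`: the reflection `(a, b) ↦ (1 - a, b)` of `ω₀` is in `FourD (k - 1)`
  (`z ↦ x`, `w ↦ y`; `ball (1, 0) (k - 1) ⊆ ball 0 k`).
* `y ∈ C(x)`, `w ∉ C(x)`, `w ∉ C(z)`: the same for `update ω₀ f true`.
* `y ∈ C(x)`, `w ∈ C(z)`: impossible (planarity).  Let `c` be a path sum (`exists_pathSum` of `Link/Potential.lean`) of an
  open path from `x` to `y` in `ball 0 k`, `A = c + 1_e + 1_g` (all degrees even, finite support), `G = pot A H`,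
  `G (lowFace e') + G (src e') = A e'` (`pot_even`).  `A` has no edge at any vertex of `C(z)` except `z` (its edges join
  vertices of `C(x)`, or are `e`, `g`).  So around every vertex `v ∈ C(z)`, `v ≠ z`, the four faces have the same colour
  `G`, and neighbours in `C(z) \ {z}` share a face, so this colour is constant along an open path from `w` to the last
  vertex `v` before `z`; around `w` it is `G q` (`q = (0, -1)` is a face at `w`).  `v ∈ {(2, 0), (1, 1)}` (`v ≠ x, y`), and the
  face `(1, 0)` contains both; so `G (1, 0) = G q`.  But from `q` to the face `(0, 0)` one crosses `e` (`A e = 1`,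
  because `c e = 0`), and from `(0, 0)` to `(1, 0)` one crosses `(1, 0, true)` (`A = 0`, it joins `z` and `(1, 1)`, not
  in `C(x)`; if it is closed also `c = 0`).  So `G (1, 0) = G q + 1`, contradiction.
  (Take the path from `w` to `z` with `z` only at the end: `Conn` in `ball 0 k \ {z}` to a neighbour of `z`.)
-/

set_option autoImplicit false

open MeasureTheory ProbabilityTheory unitInterval

namespace Pool.Agent.H89.Link

open Pool.Agent.H89.Perc (Vert Edge Config Pr half)
open Pool.Agent.H61.NC (a4)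
open Pool.Agent.H89.Perc (src tgt lowFace ball sphere)

/-! ### Clusters -/

/-! ### Probabilities -/

/-! ### The first inequality -/

/-! ### The second inequality -/

end Pool.Agent.H89.Link

end

end

section

/-! The parts of this file: H83.EX.WindNear, H31.EX.Scaling, H47.EX.CylGeo, H47.EX.SepD, H89.Link.Fc, H89.Link.Fc2, H89.Link.CylArm, H56.EX.TMx, H56.EX.Alg, H26.ST.Piv. -/

section

/-! # The winding probability above the characteristic length -/

open MeasureTheory ProbabilityTheory unitInterval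

namespace Pool.Agent.H83.EX

open Pool.Agent.H89.Perc

lemma wn_fkg4_decr {q : I} {s1 s2 s3 s4 : Finset Edge} {A B C D : Set Config}
    (lA : LocalOn s1 A) (lB : LocalOn s2 B) (lC : LocalOn s3 C) (lD : LocalOn s4 D)
    (iA : Incr Aᶜ) (iB : Incr Bᶜ) (iC : Incr Cᶜ) (iD : Incr Dᶜ) :
    (Pr q A * Pr q B) * (Pr q C * Pr q D) ≤ Pr q ((A ∩ B) ∩ (C ∩ D)) := by
  classical
  have h1 := fkg_decr (p := q) lA lB iA iB
  have h2 := fkg_decr (p := q) lC lD iC iD
  have h3 := fkg_decr (p := q) (lA.inter' lB) (lC.inter' lD) (wn_decr_inter iA iB)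
    (wn_decr_inter iC iD)
  calc (Pr q A * Pr q B) * (Pr q C * Pr q D)
      ≤ Pr q (A ∩ B) * Pr q (C ∩ D) :=
        mul_le_mul h1 h2 (mul_nonneg Pr_nonneg Pr_nonneg) Pr_nonneg
    _ ≤ _ := h3

end Pool.Agent.H83.EX

end

section

/-!
# Exponents of bond percolation on the square lattice from the scaling relations

`L p` is a characteristic length.  From `(p - 1/2) (L p) ^ (s + o(1)) ≍ 1`,
`θ(p) ≍ π₁(L p)`, `σ(1 - p) ≍ (L p)² π₁(L p)²` and `π₁(n) = n ^ (-a + o(1))` we obtain
`β = a / s` and `γ = (2 - 2 a) / s`.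
-/

open MeasureTheory ProbabilityTheory unitInterval
open scoped ENNReal

namespace Pool.Agent.H31.EX

open Pool.Agent.H89.Perc

end Pool.Agent.H31.EX

end

section

/-!
# Geometry of the corridors on the cylinder

`n ≥ 256 k`.  The corridor of `x` goes from the east mouth of the box around `0` to the right and then
down to the east mouth of the copy of the box at `(n, -n)`; the corridor of `y` is its image under
`v ↦ -v`.
-/

set_option autoImplicit false

open MeasureTheory ProbabilityTheory unitInterval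

namespace Pool.Agent.H47.EX

open Pool.Agent.H89.Perc
open Pool.Agent.H59.EX
open Pool.Agent.H89.Link (per)

/-! ### Periods -/

/-! ### The window -/

/-! ### The corridors -/

variable {n k : ℕ}

theorem mem_dom {v : Vert} : v ∈ dom .E .W k ↔
    (-(32 * k : ℤ) ≤ v.1 ∧ v.1 ≤ 32 * k ∧ -(32 * k : ℤ) ≤ v.2 ∧ v.2 ≤ 32 * k) ∨
    ((28 * k : ℤ) ≤ v.1 ∧ v.1 ≤ 36 * k ∧ -(3 * k : ℤ) ≤ v.2 ∧ v.2 ≤ 3 * k) ∨
    (-(36 * k : ℤ) ≤ v.1 ∧ v.1 ≤ -(28 * k) ∧ -(3 * k : ℤ) ≤ v.2 ∧ v.2 ≤ 3 * k) := by
  simp only [dom, T, Set.mem_union, rect, Set.mem_ofPred_eq]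
  rw [mem_ball]
  simp only [Prod.fst_zero, Prod.snd_zero, zero_sub, zero_add]
  push_cast
  rfl

theorem mem_TE {v : Vert} : v ∈ T .E k ↔
    ((28 * k : ℤ) ≤ v.1 ∧ v.1 ≤ 36 * k ∧ -(3 * k : ℤ) ≤ v.2 ∧ v.2 ≤ 3 * k) := Iff.rfl

theorem mem_ME {v : Vert} : v ∈ Mouth .E k ↔
    ((32 * k : ℤ) ≤ v.1 ∧ v.1 ≤ 32 * k ∧ -(4 * k : ℤ) ≤ v.2 ∧ v.2 ≤ 4 * k) := Iff.rfl

/-- The two corridors (with the mouths) are far from each other, on all sheets. -/
theorem far_XY (hk : 1 ≤ k) (hn : 256 * k ≤ n) {a b z : Vert} (ha : a ∈ Mouth .E k ∪ XX n k)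
    (hz : z ∈ gam n) (hb : b + z ∈ Mouth .W k ∪ YY n k) : b ∉ ball a (4 * k) := by
  intro hab
  obtain ⟨h2, hc⟩ := gam_cases hz
  rw [mem_ball] at hab
  push_cast at hab
  rw [Set.mem_union, mem_ME, mem_XX] at ha
  rw [Set.mem_union, mem_MW, mem_YY, Prod.fst_add, Prod.snd_add, h2] at hb
  have hk' : (1 : ℤ) ≤ k := by exact_mod_cast hk
  have hn' : 256 * (k : ℤ) ≤ n := by exact_mod_cast hn
  have hc' : z.1 = 0 ∨ z.1 = n ∨ z.1 = -n ∨ z.1 = 2 * n ∨ z.1 = -(2 * n) ∨ 3 * n ≤ z.1 ∨
      z.1 ≤ -(3 * n) := by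
    rcases hc with h | h
    · left; rw [h]; rfl
    · right; exact h
  clear hc hz
  generalize z.1 = m at *
  obtain ⟨a1, a2⟩ := a
  obtain ⟨b1, b2⟩ := b
  simp only at *
  generalize (k : ℤ) = K at *
  generalize (n : ℤ) = N at *
  rcases ha with ha | ha | ha <;> rcases hb with hb | hb | hb <;> omega

/-- The box meets only one sheet. -/
theorem one_sheet (hk : 1 ≤ k) (hn : 256 * k ≤ n) {a b z : Vert}
    (ha : a ∈ dom .E .W k ∪ (XX n k ∪ YY n k)) (hz : z ∈ gam n) (hb : b + z ∈ dom .E .W k)
    (hab : b ∈ ball a 1) : z = 0 := by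
  obtain ⟨h2, hc⟩ := gam_cases hz
  rw [mem_ball] at hab
  push_cast at hab
  rw [Set.mem_union, Set.mem_union, mem_dom, mem_XX, mem_YY] at ha
  rw [mem_dom, Prod.fst_add, Prod.snd_add, h2] at hb
  have hk' : (1 : ℤ) ≤ k := by exact_mod_cast hk
  have hn' : 256 * (k : ℤ) ≤ n := by exact_mod_cast hn
  rcases hc with h | hc
  · exact h
  · exfalso
    clear hz h2
    generalize z.1 = m at *
    obtain ⟨a1, a2⟩ := a
    obtain ⟨b1, b2⟩ := b
    simp only at *
    generalize (k : ℤ) = K at *
    generalize (n : ℤ) = N at *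
    have hb' : -(36 * K) ≤ b1 + m ∧ b1 + m ≤ 36 * K ∧ -(32 * K) ≤ b2 + -m ∧ b2 + -m ≤ 32 * K := by
      omega
    clear hb
    rcases ha with ha | ha | ha
    · have ha' : -(36 * K) ≤ a1 ∧ a1 ≤ 36 * K := by omega
      clear ha
      omega
    · rcases ha with ha | ha <;> omega
    · rcases ha with ha | ha <;> omega

theorem XX_dom (hk : 1 ≤ k) (hn : 256 * k ≤ n) {a : Vert} (ha : a ∈ XX n k)
    (hd : a ∈ dom .E .W k) : a ∈ T .E k := by
  rw [mem_XX] at ha
  rw [mem_dom] at hd
  rw [mem_TE]
  have hk' : (1 : ℤ) ≤ k := by exact_mod_cast hk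
  have hn' : 256 * (k : ℤ) ≤ n := by exact_mod_cast hn
  omega

theorem YY_dom (hk : 1 ≤ k) (hn : 256 * k ≤ n) {a : Vert} (ha : a ∈ YY n k)
    (hd : a ∈ dom .E .W k) : a ∈ T .W k := by
  rw [mem_YY] at ha
  rw [mem_dom] at hd
  rw [mem_TW]
  have hk' : (1 : ℤ) ≤ k := by exact_mod_cast hk
  have hn' : 256 * (k : ℤ) ≤ n := by exact_mod_cast hn
  omega

theorem TE_XX (hk : 1 ≤ k) (hn : 256 * k ≤ n) : T .E k ⊆ XX n k := by
  intro a ha
  rw [mem_TE] at ha
  rw [mem_XX]
  have hk' : (1 : ℤ) ≤ k := by exact_mod_cast hk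
  have hn' : 256 * (k : ℤ) ≤ n := by exact_mod_cast hn
  omega

theorem dom_win (hk : 1 ≤ k) (hn : 256 * k ≤ n) : dom .E .W k ⊆ Win n := by
  intro a ha
  rw [mem_dom] at ha
  simp only [Win, Set.mem_ofPred_eq]
  have hk' : (1 : ℤ) ≤ k := by exact_mod_cast hk
  have hn' : 256 * (k : ℤ) ≤ n := by exact_mod_cast hn
  omega

end Pool.Agent.H47.EX

end

section

/-!
# The separated event of the diagonal source is not empty
-/

set_option autoImplicit false

open MeasureTheory ProbabilityTheory unitInterval

namespace Pool.Agent.H47.EX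

open Pool.Agent.H89.Perc
open Pool.Agent.H59.EX
open Pool.Agent.H89.Link (xx yy)

variable {k : ℕ}

def AY (k : ℕ) : Set Vert := {v | v.2 = -1 ∧ 1 ≤ v.1 ∧ v.1 ≤ (36 * k : ℤ)} ∪ T .E k

noncomputable def et (k : ℕ) : Config := fun e => by
  classical exact decide (e ∈ inE (AX k) ∨ e ∈ inE (AY k))

theorem et_true {e : Edge} : et k e = true ↔ e ∈ inE (AX k) ∨ e ∈ inE (AY k) := by
  simp [et]

theorem mem_dom' {v : Vert} : v ∈ dom .W .E k ↔
    (-(32 * k : ℤ) ≤ v.1 ∧ v.1 ≤ 32 * k ∧ -(32 * k : ℤ) ≤ v.2 ∧ v.2 ≤ 32 * k) ∨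
    (-(36 * k : ℤ) ≤ v.1 ∧ v.1 ≤ -(28 * k) ∧ -(3 * k : ℤ) ≤ v.2 ∧ v.2 ≤ 3 * k) ∨
    ((28 * k : ℤ) ≤ v.1 ∧ v.1 ≤ 36 * k ∧ -(3 * k : ℤ) ≤ v.2 ∧ v.2 ≤ 3 * k) := by
  simp only [dom, T, Set.mem_union, rect, Set.mem_ofPred_eq]
  rw [mem_ball]
  simp only [Prod.fst_zero, Prod.snd_zero, zero_sub, zero_add]
  push_cast
  rfl

theorem mem_AY {v : Vert} : v ∈ AY k ↔
    (v.2 = -1 ∧ 1 ≤ v.1 ∧ v.1 ≤ (36 * k : ℤ)) ∨
    ((28 * k : ℤ) ≤ v.1 ∧ v.1 ≤ 36 * k ∧ -(3 * k : ℤ) ≤ v.2 ∧ v.2 ≤ 3 * k) := Iff.rfl

theorem A_disj (hk : 1 ≤ k) {v : Vert} (h1 : v ∈ AX k) (h2 : v ∈ AY k) : False := by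
  rw [mem_AX] at h1
  rw [mem_AY] at h2
  have hk' : (1 : ℤ) ≤ k := by exact_mod_cast hk
  omega

end Pool.Agent.H47.EX

end

section

/-!
# LINK module `Fc`: the event `Fc` implies the four-leg event

`η = per n ω`, `Conn η univ` is an equivalence relation; it is invariant under the translation by `(n, -n)`.
Clusters `C_k` = cluster of `y + k (n, -n)`; `y` is joined to `(n, -n) = x + (n, -n)`, so
`C_k` = cluster of `x + (k+1) (n, -n)`.
(1) `C_i ≠ C_j` for `i ≠ j`: by translation take `i = 0`; `j = -1`: `C_{-1}` = cluster of `x` (not joined to `y`);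
`j = 1`: by translation; `|j| ≥ 2`: `y + j (n, -n)` has `v.1 - v.2 = 2 + 2 n j`, which is not in `(-n, 3n)`.
(2) Primal colours: `F v` = cluster of `v` (type `Set Vert`, `F v = {u | Conn η univ v u}`), constant along open edges,
so `F (pv c)` is invariant under the steps of the composite graph (for `inl c` and `inr c`).
The home columns are `c = L a` (`pv c = x + a (n, -n)`) and `c = L a + 1` (`pv c = y + a (n, -n)`).
(3) Dual colours: path sum `c` of the path from `y` to `(n, -n)` in the strip, plus the edges `(0, 0, false)` and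
`(1, -1, true)` shifted by `(n, -n)`, (so that it becomes a path sum from `y` to `y + (n, -n)`), periodised by
`exists_perSum`: `A`, all degrees even, supported in the strip `H` (`H ≥ 2` because `n ≥ 2`), and open edges
except the gates `(0, 0, false) + k (n, -n)`, `(1, -1, true) + k (n, -n)`.  `G' = pot A H` (periodic).
`Gu f = G' f + 1` if `f = q + k (n, -n)` for some `k` (`q = (0, -1)`), else `G' f`; `Gd = G'`.
For closed `e` in rows `≥ 0`: `Gu (lowFace e) = Gu (src e)` (the edges of rows `≥ 0` around `q` are the gates); for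
closed `e` in rows `< 0`: `Gd (lowFace e) = Gd (src e)`.  `Gu = 0` on level `h ≥ H`, `Gd` constant on level `-h`.
So `inl c ↦ Gu (dv c)`, `inr c ↦ Gd (dv c)` is invariant under the steps (for `c` not home `dv c` is not a translate of
`q`); all `inl` home nodes have colour `G' q + 1` and all `inr` home nodes have colour `G' q`.
(4) `Leg`: if `hpos u a` and `hpos v b` are connected then `u`, `v` are both `inl` or both `inr` by (3), and by (1), (2)
`a - 1 = b - 1` (`u = v` = strand 0), `a = b` (`u = v` = strand 1), or `a - 1 = b`, or `a = b - 1`.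
-/

set_option autoImplicit false

namespace H56.EX

end H56.EX

namespace Pool.Agent.H89.Link

open H56.EX
open Pool.Agent.H89.Perc (Vert Edge Config src tgt lowFace vsum)

variable {L n : ℕ}

lemma pot_sh {n : ℕ} {A : Edge → ZMod 2} (hA : ∀ (e : Edge) (k : ℤ), A (she n k e) = A e) (H : ℕ)
    (f : Vert) (k : ℤ) : pot A H (sh n k f) = pot A H f := by
  unfold pot sh
  simp only
  symm
  apply Finset.sum_bij' (fun j _ => j - n * k) (fun j _ => j + n * k)
  · intro j hj
    rw [Finset.mem_Ioo] at hj ⊢
    constructor <;> linarith only [hj, hj.1, hj.2]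
  · intro j hj
    rw [Finset.mem_Ioo] at hj ⊢
    constructor <;> linarith only [hj, hj.1, hj.2]
  · intro j _; ring
  · intro j _; ring
  · intro j _
    rw [← hA (f.1, j, false) k]
    rfl

lemma comp_const {α : Type*} {kt kb M : ℕ} {P Q : Pat L} {f : ℤ ⊕ ℤ → α}
    (hf : ∀ x y, Step kt kb M P Q x y → f x = f y) {x y : ℤ ⊕ ℤ} (h : Conn kt kb M P Q x y) :
    f x = f y := by
  induction h with
  | rel x y h => exact hf x y h
  | refl x => rfl
  | symm x y _ ih => exact ih.symm
  | trans x y z _ _ ih1 ih2 => exact ih1.trans ih2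

end Pool.Agent.H89.Link

end

section

/-!
# LINK module `Fc2`: two disjoint winding clusters at the pair `x`, `y` imply the four-leg event

`Fc2 n H`: `x` is joined to `x + (n, -n)` and `y` to `y + (n, -n)` in the strip, and `x` is not joined
to `y`.  `leg_of_wind`: `per n ω ∈ Fc2 n H` implies `Leg 2 2 (L - 2) (up s n h ω) (dn s n h ω)`.
-/

set_option autoImplicit false

open MeasureTheory ProbabilityTheory Filter Topology

namespace H56.EX

end H56.EX

namespace Pool.Agent.H89.Link

open H56.EX
open Pool.Agent.H89.Perc (Vert Edge Config Pr half src tgt lowFace vsum)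

variable {L n : ℕ}

/-- the half sum of a path from `u` to `u + (n, -n)` has odd degree at `u` only -/
lemma halfS_vsum_path {n : ℕ} (hn : 1 ≤ n) {c : Edge → ZMod 2} (hc : {e | c e ≠ 0}.Finite)
    {u : Vert} (hv : ∀ V : Vert, vsum c V = (if V = u then 1 else 0) +
      (if V = sh n 1 u then 1 else 0)) (V : Vert) :
    vsum (halfS n c) V = if V = u then 1 else 0 := by
  classical
  rw [halfS_vsum hn hc, finsum_congr (fun k : ℕ => hv (sh n (-(k : ℤ)) V)),
    finsum_add_distrib (hfs_half hn _ _) (hfs_half hn _ _), finsum_ind_half hn, finsum_ind_half hn]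
  have key : ∀ (k : ℤ) (w : Vert), sh n (-k) V = w ↔ V = sh n k w := by
    intro k w
    constructor
    · rintro rfl
      rw [sh_sh, show k + -k = 0 by ring, sh_zero]
    · rintro rfl
      rw [sh_sh, show -k + k = 0 by ring, sh_zero]
  by_cases h : ∃ k : ℕ, sh n (-(k : ℤ)) V = u
  · obtain ⟨k, hk⟩ := h
    rw [if_pos ⟨k, hk⟩]
    have hk' := (key k u).1 hk
    rcases Nat.eq_zero_or_pos k with h0 | hpos
    · subst h0
      rw [Nat.cast_zero, sh_zero] at hk'
      rw [if_pos hk', if_neg, add_zero]
      rintro ⟨l, hl⟩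
      have hl' := (key l _).1 hl
      rw [sh_sh, hk'] at hl'
      have h3 : (fun k : ℤ => sh n k u) 0 = (fun k : ℤ => sh n k u) ((l : ℤ) + 1) := by
        simp only [sh_zero]; exact hl'
      have h4 := sh_inj hn u h3
      omega
    · rw [if_pos, if_neg, Perc.z2_add_self]
      · intro h5
        rw [h5] at hk'
        have h3 : (fun k : ℤ => sh n k u) 0 = (fun k : ℤ => sh n k u) (k : ℤ) := by
          simp only [sh_zero]; exact hk'
        have h4 := sh_inj hn u h3
        omega
      · refine ⟨k - 1, ?_⟩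
        rw [key, hk', sh_sh]
        congr 1
        omega
  · rw [if_neg h, if_neg, if_neg, add_zero]
    · intro h5
      exact h ⟨0, by rw [key, Nat.cast_zero, sh_zero]; exact h5⟩
    · rintro ⟨l, hl⟩
      apply h
      refine ⟨l + 1, ?_⟩
      rw [key] at hl ⊢
      rw [hl, sh_sh]
      push_cast
      rfl

/-- supports of the sums in the strip -/
lemma halfS_strip {n : ℕ} {c : Edge → ZMod 2} {H : ℕ}
    (hs : ∀ e, c e ≠ 0 → -(H : ℤ) < e.1 + e.2.1 ∧ e.1 + e.2.1 + 1 < H) (e : Edge)
    (he : ¬ (-(H : ℤ) < e.1 + e.2.1 ∧ e.1 + e.2.1 + 1 < H)) : halfS n c e = 0 := by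
  apply halfS_eq_zero
  intro k
  by_contra h
  have h1 := hs _ h
  have h2 : (she n (-(k : ℤ)) e).1 + (she n (-(k : ℤ)) e).2.1 = e.1 + e.2.1 := by
    simp only [she]; ring
  rw [h2] at h1
  exact he h1

lemma pot_congr {A B : Edge → ZMod 2} {H : ℕ} {f : Vert}
    (h : ∀ j, A (f.1, j, false) = B (f.1, j, false)) : pot A H f = pot B H f := by
  unfold pot
  exact Finset.sum_congr rfl (fun j _ => h j)

lemma pot_zero {A : Edge → ZMod 2} {H : ℕ} {f : Vert}
    (h : ∀ j, A (f.1, j, false) = 0) : pot A H f = 0 := by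
  unfold pot
  exact Finset.sum_eq_zero (fun j _ => h j)

lemma pot_add {A B : Edge → ZMod 2} {H : ℕ} (f : Vert) :
    pot (fun e => A e + B e) H f = pot A H f + pot B H f := by
  unfold pot
  exact Finset.sum_add_distrib

/-- the potential of the periodic sum of a path from `0` to `(n, -n)` is `1` at the bottom -/
lemma bottom_one0 {n : ℕ} (hn : 1 ≤ n) {c : Edge → ZMod 2} (hc : {e | c e ≠ 0}.Finite) {H : ℕ}
    (hs : ∀ e, c e ≠ 0 → -(H : ℤ) < e.1 + e.2.1 ∧ e.1 + e.2.1 + 1 < H)
    (hv : ∀ V : Vert, vsum c V = (if V = 0 then 1 else 0) +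
      (if V = sh n 1 0 then 1 else 0)) (f : Vert) (hf : f.1 + f.2 + 1 = -(H : ℤ)) :
    pot (perS n c) H f = 1 := by
  obtain ⟨hi, hhi⟩ := (hc.image Prod.fst).bddAbove
  obtain ⟨lo, hlo⟩ := (hc.image Prod.fst).bddBelow
  have hhi' : ∀ e, c e ≠ 0 → e.1 ≤ hi := fun e he => hhi ⟨e, he, rfl⟩
  have hlo' : ∀ e, c e ≠ 0 → lo ≤ e.1 := fun e he => hlo ⟨e, he, rfl⟩
  have hpo := pot_odd (A := halfS n c) (H := H) (halfS_strip hs)
    (fun V hV => by rw [halfS_vsum_path hn hc hv, if_neg hV])
    (by rw [halfS_vsum_path hn hc hv, if_pos rfl])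
  set G := pot (halfS n c) H with hG
  have hA0 : ∀ e : Edge, e.1 + e.2.1 = -(H : ℤ) - 1 → halfS n c e = 0 := by
    intro e he
    exact halfS_strip hs e (by omega)
  have hstep : ∀ a : ℤ, G (a + 1, -(H : ℤ) - 1 - (a + 1)) = G (a, -(H : ℤ) - 1 - a) +
      if a + 1 = 0 then 1 else 0 := by
    intro a
    have e1 := hpo (a, -(H : ℤ) - 1 - a, false)
    rw [hA0 _ (by simp only; ring), zero_add, if_neg (by simp)] at e1
    have e1' : G (a, -(H : ℤ) - 1 - a - 1) + G (a, -(H : ℤ) - 1 - a) = 0 := e1
    have e2 := hpo (a + 1, -(H : ℤ) - 1 - a - 1, true)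
    rw [hA0 _ (by simp only; ring), zero_add] at e2
    have e2' : G (a + 1 - 1, -(H : ℤ) - 1 - a - 1) + G (a + 1, -(H : ℤ) - 1 - a - 1) =
        if a + 1 = 0 then 1 else 0 := by
      rw [show (if a + 1 = 0 then (1 : ZMod 2) else 0) =
        if (a + 1, -(H : ℤ) - 1 - a - 1, true).2.2 = true ∧
          (a + 1, -(H : ℤ) - 1 - a - 1, true).1 = 0 ∧
          (a + 1, -(H : ℤ) - 1 - a - 1, true).2.1 < 0 then 1 else 0 from ?_]
      · exact e2
      · by_cases ha : a + 1 = 0
        · rw [if_pos ha, if_pos ⟨rfl, ha, by simp only; omega⟩]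
        · rw [if_neg ha, if_neg (by rintro ⟨_, h2, _⟩; exact ha h2)]
    rw [show a + 1 - 1 = a by ring] at e2'
    rw [show -(H : ℤ) - 1 - (a + 1) = -(H : ℤ) - 1 - a - 1 by ring]
    have z1 := Perc.z2_add_self (G (a, -(H : ℤ) - 1 - a - 1))
    have z2 := Perc.z2_add_self (G (a, -(H : ℤ) - 1 - a))
    linear_combination e2' + e1' - z1 - z2
  -- value 0 on the left
  have hleft : ∀ a : ℤ, a < lo → G (a, -(H : ℤ) - 1 - a) = 0 := by
    intro a ha
    rw [hG]
    exact pot_zero (fun j => halfS_left hlo' ha)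
  have hneg : ∀ k : ℕ, ∀ a : ℤ, a < 0 → a < lo + k → G (a, -(H : ℤ) - 1 - a) = 0 := by
    intro k
    induction k with
    | zero => intro a _ h2; exact hleft a (by simpa using h2)
    | succ k ih =>
      intro a h1 h2
      have h3 := hstep (a - 1)
      rw [show a - 1 + 1 = a by ring, if_neg h1.ne, add_zero] at h3
      rw [h3]
      exact ih (a - 1) (by omega) (by push_cast at h2; omega)
  have hneg' : ∀ a : ℤ, a < 0 → G (a, -(H : ℤ) - 1 - a) = 0 := by
    intro a ha
    exact hneg (a - lo + 1).toNat a ha (by omega)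
  have hpos : ∀ k : ℕ, G ((k : ℤ), -(H : ℤ) - 1 - k) = 1 := by
    intro k
    induction k with
    | zero =>
      have h3 := hstep (-1)
      rw [show (-1 : ℤ) + 1 = 0 by ring, if_pos rfl, hneg' (-1) (by norm_num), zero_add] at h3
      exact h3
    | succ k ih =>
      have h3 := hstep k
      rw [if_neg (by omega), add_zero, ih] at h3
      push_cast
      exact h3
  -- compare with the periodic sum on a column far to the right
  set N : ℕ := (max hi 0).toNat + 1 with hN
  have hNhi : hi < (N : ℤ) := by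
    have := le_max_left hi 0
    have := le_max_right hi 0
    omega
  have h1 : pot (perS n c) H ((N : ℤ), -(H : ℤ) - 1 - N) = 1 := by
    rw [← hpos N, hG]
    exact pot_congr (fun j => (halfS_right hhi' hNhi).symm)
  have hpe := pot_even (A := perS n c) (H := H) (perS_strip hs) (perS_vsum_path hn hc hv)
  have hb := bot_const (G := pot (perS n c) H) H (by
    intro e he
    have h3 := hpe e
    rw [perS_strip hs e (by omega)] at h3
    exact Perc.z2_add_eq_zero.1 h3)
  rw [hb f hf, ← hb ((N : ℤ), -(H : ℤ) - 1 - N) (by simp only; ring)]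
  exact h1

/-- the same for a path from `(m, -m)` to `(m + n, -m - n)` -/
lemma bottom_one {n : ℕ} (hn : 1 ≤ n) {c : Edge → ZMod 2} (hc : {e | c e ≠ 0}.Finite) {H : ℕ}
    (hs : ∀ e, c e ≠ 0 → -(H : ℤ) < e.1 + e.2.1 ∧ e.1 + e.2.1 + 1 < H) (m : ℤ)
    (hv : ∀ V : Vert, vsum c V = (if V = (m, -m) then 1 else 0) +
      (if V = sh n 1 (m, -m) then 1 else 0)) (f : Vert) (hf : f.1 + f.2 + 1 = -(H : ℤ)) :
    pot (perS n c) H f = 1 := by
  set T : Edge → Edge := fun e => (e.1 + m, e.2.1 - m, e.2.2) with hT
  have hTi : Function.Injective T := by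
    rintro ⟨a, b, t⟩ ⟨a', b', t'⟩ h
    simp only [hT, Prod.mk.injEq] at h
    obtain ⟨h1, h2, h3⟩ := h
    ext
    · simp only; linarith only [h1]
    · simp only; linarith only [h2]
    · simp only; rw [h3]
  have hc0 : {e | c (T e) ≠ 0}.Finite := Set.Finite.preimage (f := T) (hTi.injOn) hc
  have hs0 : ∀ e, c (T e) ≠ 0 → -(H : ℤ) < e.1 + e.2.1 ∧ e.1 + e.2.1 + 1 < H := by
    intro e he
    have h1 := hs _ he
    simp only [hT] at h1
    rw [show e.1 + m + (e.2.1 - m) = e.1 + e.2.1 by ring] at h1
    exact h1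
  have hv0 : ∀ V : Vert, vsum (fun e => c (T e)) V = (if V = 0 then 1 else 0) +
      (if V = sh n 1 0 then 1 else 0) := by
    intro V
    have e1 : vsum (fun e => c (T e)) V = vsum c (V.1 + m, V.2 - m) := by
      unfold vsum
      simp only [hT]
      rw [show V.1 + m - 1 = V.1 - 1 + m by ring, show V.2 - m - 1 = V.2 - 1 - m by ring]
    rw [e1, hv]
    have h1 : ((V.1 + m, V.2 - m) : Vert) = (m, -m) ↔ V = 0 := by
      constructor
      · intro h
        have h2 := congrArg Prod.fst h
        have h3 := congrArg Prod.snd h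
        simp only at h2 h3
        ext
        · show V.1 = 0; linarith
        · show V.2 = 0; linarith only [h3]
      · rintro rfl
        ext
        · show (0 : ℤ) + m = m; ring
        · show (0 : ℤ) - m = -m; ring
    have h2 : ((V.1 + m, V.2 - m) : Vert) = sh n 1 (m, -m) ↔ V = sh n 1 0 := by
      unfold sh
      constructor
      · intro h
        have h2 := congrArg Prod.fst h
        have h3 := congrArg Prod.snd h
        simp only at h2 h3
        ext
        · show V.1 = 0 + n * 1; linarith only [h2]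
        · show V.2 = 0 - n * 1; linarith only [h3]
      · rintro rfl
        ext
        · show (0 : ℤ) + n * 1 + m = m + n * 1; ring
        · show (0 : ℤ) - n * 1 - m = -m - n * 1; ring
    simp only [h1, h2]
  have h1 := bottom_one0 hn hc0 hs0 hv0 (f.1 - m, f.2 + m) (by simp only; linarith only [hf])
  rw [← h1]
  have hper : ∀ e, perS n (fun e => c (T e)) e = perS n c (T e) := by
    intro e
    unfold perS
    apply finsum_congr
    intro k
    have e1 : T (she n k e) = she n k (T e) := by
      simp only [hT, she]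
      ext
      · simp only; ring
      · simp only; ring
      · rfl
    show c (T (she n k e)) = _
    rw [e1]
  unfold pot
  symm
  apply Finset.sum_bij' (fun j _ => j - m) (fun j _ => j + m)
  · intro j hj
    rw [Finset.mem_Ioo] at hj ⊢
    constructor <;> linarith only [hj, hj.1, hj.2]
  · intro j hj
    rw [Finset.mem_Ioo] at hj ⊢
    constructor <;> linarith [hj.1, hj.2]
  · intro j _; ring
  · intro j _; ring
  · intro j _
    rw [hper]
    show perS n c (f.1 - m + m, j - m, false) = perS n c (f.1, j - m, false)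
    rw [sub_add_cancel]

end Pool.Agent.H89.Link

end

section

/-!
# LINK module `CylArm`: an arm of the plane can be completed to a winding path on the cylinder

`n = 16 m`, `η = per n ω`.  Events for `η`, all increasing and local:
* `A = Arm 0 (2 m)`;
* `T` = `HCross η (-2m) (2m) m (2m)`, `B` = `HCross η (-2m) (2m) (-2m) (-m)`, `Le` = `VCross η (-2m) (-m) (-2m) (2m)`,
  `Ri` = `VCross η m (2m) (-2m) (2m)` (four `4 : 1` rectangles around `ball 0 m`);
* `R1` = `HCross η (-2m) (18m) (-m) m`, `R2` = `VCross η (15m) (17m) (-18m) (2m)`.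
Determinism.  An open path from `0` to `sphere 0 (2m)` in `ball 0 (2m)` ends on one of the four sides; by `hv_meet` (or
`Conn.cross_x/cross_y` + `cross`) it meets the crossing of the corresponding rectangle.  The four crossings meet pairwise
in the corners (`hv_meet`), `Le` meets `R1`, `R1` meets `R2`.  `R2` meets the translate by `(n, -n)` of `B`
(`HCross η (14m) (18m) (-18m) (-17m)`), which exists because `η` has period `(n, -n)` (`conn_sh` in `Link/Fc.lean`); the
translate of the whole picture joins it to `(n, -n)`.  Everything is in `strip (64 m)`.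
Probability.  `Pr half {ω | per n ω ∈ E} = Pr half E` for each of the seven events (`pr_per`: `base n` is injective on
`eRect a b c d` if `b - a < n` or `d - c < n`, because `base n e = base n e'` forces
`e' = (e.1 + n k, e.2.1 - n k, e.2.2)`).  `ω ↦ per n ω` is monotone and local, so FKG (`Perc.fkg`) holds for these events;
`rsw` and `long_rsw` bound the crossing probabilities from below (translate, reflect: `Pr_hcross_translate`,
`Pr_vcross_eq_hcross`); the `20m x 2m` rectangles have aspect ratio 10.
-/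

set_option autoImplicit false

open MeasureTheory ProbabilityTheory

namespace Pool.Agent.H89.Link

open Pool.Agent.H89.Perc (Vert Edge Config Pr half)

end Pool.Agent.H89.Link

end

section

/-! The function `TM M c z`: the explicit sum times the product over pairs; its recursions. -/

namespace H56.EX

open Finset

end H56.EX

end

section

/-! The explicit right hand sides of the leg formulas and their recursions. -/

namespace H56.EX

open Finset

lemma qi : q⁻¹ = q ^ 2 := q_inv

lemma inv_sub_sq {x y : ℂ} (hx : x ≠ 0) (hy : y ≠ 0) :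
    (x⁻¹ - q * y⁻¹) ^ 2 = q ^ 2 * (x - q ^ 2 * y) ^ 2 / (x * y) ^ 2 := by
  field_simp
  linear_combination (2 * q * x * y - q ^ 3 * y ^ 2 - y ^ 2) * q_cube

end H56.EX

end

section

/-!
# Lower bounds for the influence of an edge of the torus
-/

open MeasureTheory ProbabilityTheory unitInterval

namespace Pool.Agent.H26.ST

open Pool.Agent.H89.Perc

end Pool.Agent.H26.ST

end

end
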