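import Pool.Agent.H94.BG.H31.PT.M10
import Pool.Agent.H94.BG.H31.PT.M13
import Pool.Agent.H94.BG.H31.PT.M31_3
import Pool.Agent.H94.BG.H31.PT.M34_4
import Pool.Agent.H94.BG.H31.PT.M36

/-! The parts of this file: H31.PT.M34_6, H31.PT.M36_2. -/

section

/-! The parts of this file: H89.Perc.ArmExt, H85.Gamma.Bounds, H57.LF.Final, H83.EX.SigmaUpper, H83.EX.Scale, H90.NC.ArmDet, H90.NC.ArmExt, H90.NC.ArmGlue, H83.EX.WeakRSW, H12.QKZ.Tri, H12.QKZ.Num, H12.QKZ.Lam, H12.QKZ.Exist, H12.QKZ.Main, H56.EX.Base, H96.EX.SMa, H96.EX.SMb, H96.EX.SM, H96.EX.STM, H89.Link.Diag. -/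

section

/-!
# Regularity of the one-arm probability
-/

open MeasureTheory ProbabilityTheory unitInterval

namespace Pool.Agent.H89.Perc

end Pool.Agent.H89.Perc

end

section

/-!
# Bounds for the arms of an edge and for the derivative of the one-arm probability
-/

open MeasureTheory ProbabilityTheory unitInterval

namespace Pool.Agent.H85.Gamma

open Pool.Agent.H89.Perc

end Pool.Agent.H85.Gamma

end

section

/-!
# The lower bound `θ(p) ≥ c √(p - 1/2)`
-/

open MeasureTheory ProbabilityTheory unitInterval Filter Topology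

namespace Pool.Agent.H57.LF

open Pool.Agent.H89.Perc

end Pool.Agent.H57.LF

end

section

/-! # Upper bound for the mean cluster size -/

open MeasureTheory ProbabilityTheory unitInterval
open scoped ENNReal

namespace Pool.Agent.H83.EX

open Pool.Agent.H89.Perc

end Pool.Agent.H83.EX

end

section

/-! # Good scales: percolation probability and mean cluster size -/

open MeasureTheory ProbabilityTheory unitInterval
open scoped ENNReal

namespace Pool.Agent.H83.EX

open Pool.Agent.H89.Perc

end Pool.Agent.H83.EX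

end

section

/-!
# A pivotal edge for the event `W0`
-/

open MeasureTheory ProbabilityTheory unitInterval

namespace Pool.Agent.H61.NC

open Pool.Agent.H89.Perc

/-- Translates of the middle vertex are far from the edge. -/
private lemma armDet_far {N : ℕ} {e : Edge} (he : e ∈ tEdges N) {r : ℕ} (hN : 2 * r + 2 ≤ N)
    (hd : r < dist0 N e) (a b : ℤ) :
    ¬ (|(m0 N).1 - a * N - e.1| ≤ r ∧ |(m0 N).2 - b * N - e.2.1| ≤ r) := by
  have hte : 0 ≤ e.1 ∧ e.1 < N ∧ 0 ≤ e.2.1 ∧ e.2.1 < N := by
    simp only [tEdges, Finset.mem_product, Finset.mem_Ico, Finset.mem_univ, and_true] at he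
    tauto
  have hN' : (2 * r + 2 : ℤ) ≤ N := by exact_mod_cast hN
  have key : ∀ a x : ℤ, 0 ≤ x → x < N → |(m0 N).1 - a * N - x| ≤ r → a = 0 := by
    intro a x hx1 hx2 hx
    by_contra h0
    rw [abs_le] at hx
    simp only [m0, mid] at hx
    rcases lt_or_gt_of_ne h0 with h1 | h1
    · have : a * N ≤ -1 * N := mul_le_mul_of_nonneg_right (by omega) (by omega)
      omega
    · have : 1 * N ≤ a * N := mul_le_mul_of_nonneg_right (by omega) (by omega)
      omega
  rintro ⟨h1, h2⟩
  have ha := key a e.1 hte.1 hte.2.1 h1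
  have hb := key b e.2.1 hte.2.2.1 hte.2.2.2 h2
  subst ha hb
  rw [abs_le] at h1 h2
  simp only [m0] at h1 h2
  unfold dist0 at hd
  omega

/-- If the edge `e` is pivotal for `W0` and is at distance more than `r` from the middle vertex then
the four-arm event of `e` occurs. -/
theorem A4T_of_pivot_W0 {N : ℕ} {e : Edge} (he : e ∈ tEdges N) {r : ℕ} (hr : 1 ≤ r)
    (hN : 2 * r + 2 ≤ N) (hd : r < dist0 N e) {ω : Config}
    (h1 : Function.update ω e true ∈ W0 N)
    (h2 : Function.update ω e false ∉ W0 N) : ω ∈ A4T N e r := by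
  have hN' : (2 * r + 2 : ℤ) ≤ N := by exact_mod_cast hN
  have hte : 0 ≤ e.1 ∧ e.1 < N ∧ 0 ≤ e.2.1 ∧ e.2.1 < N := by
    simp only [tEdges, Finset.mem_product, Finset.mem_Ico, Finset.mem_univ, and_true] at he
    tauto
  have hmod : modE N e = e := by
    obtain ⟨x, y, c⟩ := e
    simp only [modE]
    simp only at hte
    rw [Int.emod_eq_of_lt hte.1 hte.2.1, Int.emod_eq_of_lt hte.2.2.1 hte.2.2.2]
  obtain ⟨η0, hη0⟩ : ∃ η0, η0 = per N (Function.update ω e false) := ⟨_, rfl⟩
  obtain ⟨η1, hη1⟩ : ∃ η1, η1 = per N (Function.update ω e true) := ⟨_, rfl⟩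
  -- edges which are translates of `e`
  have htr : ∀ f : Edge, modE N f = e → ∃ a b : ℤ, f = shiftE (a * N, b * N) e := by
    intro f hf
    refine ⟨f.1 / N, f.2.1 / N, ?_⟩
    rw [← hf]
    obtain ⟨x, y, c⟩ := f
    simp only [modE, shiftE]
    rw [Int.emod_add_ediv_mul, Int.emod_add_ediv_mul]
  have hη0f : ∀ f : Edge, η0 f = if modE N f = e then false else per N ω f := by
    intro f
    rw [hη0]
    unfold per
    rw [Function.update_apply]
    rfl
  have hη1f : ∀ f : Edge, η1 f = if modE N f = e then true else per N ω f := by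
    intro f
    rw [hη1]
    unfold per
    rw [Function.update_apply]
    rfl
  have hper : ∀ (a b : ℤ) (u v : Vert), Conn η0 Set.univ u v →
      Conn η0 Set.univ (u.1 + a * N, u.2 + b * N) (v.1 + a * N, v.2 + b * N) := by
    intro a b u v h
    rw [hη0] at h ⊢
    exact armDet_per_shift _ a b h
  have hstep : ∀ v v' : Vert, Step η1 Set.univ v v' → Step η0 Set.univ v v' ∨ ∃ a b : ℤ,
      (v = ((src e).1 + a * N, (src e).2 + b * N) ∧ v' = ((tgt e).1 + a * N, (tgt e).2 + b * N)) ∨
      (v = ((tgt e).1 + a * N, (tgt e).2 + b * N) ∧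
        v' = ((src e).1 + a * N, (src e).2 + b * N)) := by
    rintro v v' ⟨-, -, f, hf, hfo⟩
    by_cases hfe : modE N f = e
    · right
      obtain ⟨a, b, hab⟩ := htr f hfe
      refine ⟨a, b, ?_⟩
      have h3 := joins_shift (a * N, b * N) (joins_src_tgt e)
      rw [← hab] at h3
      rcases hf with ⟨g1, g2⟩ | ⟨g1, g2⟩ <;> rcases h3 with ⟨g3, g4⟩ | ⟨g3, g4⟩
      · left
        exact ⟨g1.trans g3.symm, g2.trans g4.symm⟩
      · right
        exact ⟨g1.trans g4.symm, g2.trans g3.symm⟩
      · right
        exact ⟨g1.trans g4.symm, g2.trans g3.symm⟩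
      · left
        exact ⟨g1.trans g3.symm, g2.trans g4.symm⟩
    · left
      refine ⟨Set.mem_univ _, Set.mem_univ _, f, hf, ?_⟩
      rw [hη1f, if_neg hfe] at hfo
      rw [hη0f, if_neg hfe]
      exact hfo
  -- the configurations agree inside the ball
  have hball : ∀ f : Edge, src f ∈ ball (src e) r → tgt f ∈ ball (src e) r →
      close e (per N ω) f = η0 f := by
    intro f hf _
    rw [hη0f]
    unfold close
    by_cases hfe : f = e
    · rw [hfe, Function.update_self, hmod, if_pos rfl]
    · rw [Function.update_of_ne hfe]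
      have h3 : modE N f ≠ e := by
        intro h
        obtain ⟨a, b, hab⟩ := htr f h
        apply hfe
        rw [hab] at hf ⊢
        obtain ⟨x, y, c⟩ := e
        simp only [mem_ball, src, shiftE] at hf ⊢
        have ha : a = 0 := by
          by_contra h0
          rcases lt_or_gt_of_ne h0 with h0 | h0
          · have : a * N ≤ -1 * N := mul_le_mul_of_nonneg_right (by omega) (by omega)
            omega
          · have : 1 * N ≤ a * N := mul_le_mul_of_nonneg_right (by omega) (by omega)
            omega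
        have hb : b = 0 := by
          by_contra h0
          rcases lt_or_gt_of_ne h0 with h0 | h0
          · have : b * N ≤ -1 * N := mul_le_mul_of_nonneg_right (by omega) (by omega)
            omega
          · have : 1 * N ≤ b * N := mul_le_mul_of_nonneg_right (by omega) (by omega)
            omega
        rw [ha, hb]
        simp
      rw [if_neg h3]
  obtain ⟨a, b, ha, hu⟩ := h1
  rw [← hη1] at hu
  have hnot : ¬ Conn η0 Set.univ (m0 N) ((m0 N).1 + a * N, (m0 N).2 + b * N) := by
    intro h
    rw [hη0] at h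
    exact h2 ⟨a, b, ha, h⟩
  have hfar : ∀ a b : ℤ, ¬ (|(m0 N).1 - a * N - (src e).1| ≤ r ∧
      |(m0 N).2 - b * N - (src e).2| ≤ r) := by
    intro a b hab
    exact armDet_far he hN hd a b (by simpa [src] using hab)
  -- the two ends are not joined
  have hxy : ¬ Conn η0 Set.univ (src e) (tgt e) := by
    intro h
    apply hnot
    refine hu.induction_right (P := fun v => Conn η0 Set.univ (m0 N) v)
      (Conn.refl (Set.mem_univ _)) ?_
    intro v v' _ hvv hv
    rcases hstep v v' hvv with h3 | ⟨c, d, h3 | h3⟩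
    · exact hv.tail h3
    · rw [h3.1] at hv
      rw [h3.2]
      exact hv.trans (hper c d _ _ h)
    · rw [h3.1] at hv
      rw [h3.2]
      exact hv.trans (hper c d _ _ h.symm)
  have htgt : |(tgt e).1 - (src e).1| ≤ 1 ∧ |(tgt e).2 - (src e).2| ≤ 1 := by
    obtain ⟨x, y, c⟩ := e
    cases c
    · simp [src, tgt]
    · simp [src, tgt]
  have htb : tgt e ∈ ball (src e) r := by
    have h3 := abs_le.1 htgt.1
    have h4 := abs_le.1 htgt.2
    rw [mem_ball]
    omega
  -- a point of the ball with no arm has a small cluster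
  have hsmall : ∀ p : Vert, p ∈ ball (src e) r →
      (¬ ∃ u ∈ sphere (src e) r, Conn (close e (per N ω)) (ball (src e) r) p u) →
      ∀ v : Vert, Conn η0 Set.univ p v → |v.1 - (src e).1| ≤ r ∧ |v.2 - (src e).2| ≤ r := by
    intro p hp hno v hv
    by_contra hcon
    have h3 : v ∉ ball (src e) r := by
      intro h
      apply hcon
      rw [mem_ball] at h
      rw [abs_le, abs_le]
      omega
    obtain ⟨w, hw, hc⟩ := hv.to_sphere hp (Or.inl h3)
    apply hno
    refine ⟨w, hw, ?_⟩
    have h4 := hc.mono_set (T := ball (src e) r) Set.inter_subset_right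
    exact h4.congr fun f hf1 hf2 => (hball f hf1 hf2).symm
  refine ⟨?_, ?_, ?_⟩
  · by_contra hno
    have hs := hsmall (src e) self_mem_ball hno
    exact hnot (armDet_core hN (src e) (src e) (tgt e) η0 η1 hper hstep htgt hxy hs
      (m0 N) (fun a b h => hfar a b (hs _ h)) a b hu)
  · by_contra hno
    have hs := hsmall (tgt e) htb hno
    exact hnot (armDet_core hN (src e) (tgt e) (src e) η0 η1 hper
      (fun v v' h => by
        rcases hstep v v' h with h3 | ⟨c, d, h3 | h3⟩
        · exact Or.inl h3
        · exact Or.inr ⟨c, d, Or.inr h3⟩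
        · exact Or.inr ⟨c, d, Or.inl h3⟩)
      (by simp) (fun h => hxy h.symm) hs
      (m0 N) (fun a b h => hfar a b (hs _ h)) a b hu)
  · intro h
    exact hxy ((h.congr hball).mono_set (Set.subset_univ _))

/-- The cluster of the middle vertex reaches distance `r`. -/
theorem ArmT_of_pivot_W0 {N : ℕ} {e : Edge} (he : e ∈ tEdges N) {r : ℕ}
    (hN : 2 * r + 2 ≤ N) (hd : r < dist0 N e) {ω : Config}
    (h1 : Function.update ω e true ∈ W0 N) : ω ∈ ArmT N r := by
  have hN' : (2 * r + 2 : ℤ) ≤ N := by exact_mod_cast hN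
  obtain ⟨a, b, ha, hu⟩ := h1
  have h2 : per N (Function.update ω e true) ∈ Arm (m0 N) r := by
    refine hu.mem_arm (Or.inl ?_)
    have h3 : 1 ≤ |a| := Int.one_le_abs ha
    have h4 : (m0 N).1 + a * N - (m0 N).1 = a * N := by ring
    simp only
    rw [h4, abs_mul, abs_of_nonneg (by omega : (0 : ℤ) ≤ N)]
    nlinarith only [hN, h3]
  obtain ⟨u, hu1, hu2⟩ := h2
  refine ⟨u, hu1, hu2.congr ?_⟩
  intro f hf1 _
  unfold per
  have h3 : (f.1 % N, f.2.1 % N, f.2.2) ≠ e := by
    intro h
    have h4 : e.1 = f.1 % N := by rw [← h]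
    have h5 : e.2.1 = f.2.1 % N := by rw [← h]
    have h6 := Int.emod_add_ediv_mul f.1 N
    have h7 := Int.emod_add_ediv_mul f.2.1 N
    rw [← h4] at h6
    rw [← h5] at h7
    refine armDet_far he hN hd (f.1 / N) (f.2.1 / N) ?_
    rw [mem_ball] at hf1
    simp only [src] at hf1
    obtain ⟨p, hp⟩ : ∃ p, p = f.1 / N * N := ⟨_, rfl⟩
    obtain ⟨p', hp'⟩ : ∃ p', p' = f.2.1 / N * N := ⟨_, rfl⟩
    rw [← hp] at h6
    rw [← hp'] at h7
    rw [← hp, ← hp', abs_le, abs_le]
    omega
  rw [Function.update_of_ne h3]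

theorem mem_blk_iff {N R : ℕ} {f : Edge} : f ∈ blk N R ↔ dist0 N f ≤ R := by
  unfold blk dist0
  rw [mem_eRect]
  simp only [src, rect, Set.mem_ofPred_eq]
  omega

theorem OutArm_of_pivot_W0 {N R : ℕ} {e : Edge} (he : dist0 N e ≤ R) {ω : Config}
    (h1 : Function.update ω e true ∈ W0 N) : ω ∈ OutArm N R := by
  classical
  refine incr_W0 N _ _ (fun f hf => ?_) h1
  unfold fill
  by_cases h2 : f ∈ blk N R
  · simp only [h2, if_true]
  · simp only [h2, if_false]
    rwa [Function.update_of_ne] at hf
    rintro rfl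
    exact h2 (mem_blk_iff.2 he)

theorem dist0_le_half {N : ℕ} {f : Edge} (hf : f ∈ tEdges N) : 2 * dist0 N f ≤ N := by
  simp only [tEdges, Finset.mem_product, Finset.mem_Ico, Finset.mem_univ, and_true] at hf
  unfold dist0 mid
  omega

private lemma armDet_modE {N R : ℕ} (hR : 2 * R + 2 ≤ N) {f : Edge} (hf : dist0 N f ≤ R) :
    modE N f = f := by
  obtain ⟨x, y, d⟩ := f
  unfold dist0 mid at hf
  simp only [modE]
  simp only at hf
  rw [Int.emod_eq_of_lt (by omega) (by omega), Int.emod_eq_of_lt (by omega) (by omega)]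

private lemma armDet_disj {N ρ ρ' : ℕ} {f : Edge} (hf : f ∈ tEdges N) (h2 : ρ + ρ' < dist0 N f) :
    Disjoint ((eRect (f.1 - ρ) (f.1 + ρ) (f.2.1 - ρ) (f.2.1 + ρ)).image (modE N))
      ((eRect ((m0 N).1 - ρ') ((m0 N).1 + ρ') ((m0 N).2 - ρ') ((m0 N).2 + ρ')).image
        (modE N)) := by
  rw [Finset.disjoint_left]
  intro g hg hg'
  rw [Finset.mem_image] at hg hg'
  obtain ⟨e, he, heg⟩ := hg
  obtain ⟨e', he', heg'⟩ := hg'
  have hd := dist0_le_half hf
  rw [mem_eRect] at he he'
  simp only [src, rect, Set.mem_ofPred_eq] at he he'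
  rw [← heg'] at heg
  simp only [modE, Prod.mk.injEq] at heg
  obtain ⟨k1, k2, -⟩ := heg
  have hte : 0 ≤ f.1 ∧ f.1 < N ∧ 0 ≤ f.2.1 ∧ f.2.1 < N := by
    simp only [tEdges, Finset.mem_product, Finset.mem_Ico, Finset.mem_univ, and_true] at hf
    tauto
  have key : ∀ x x' y : ℤ, x % N = x' % N → 0 ≤ y → y < N → y - ρ ≤ x → x ≤ y + ρ →
      (m0 N).1 - ρ' ≤ x' → x' ≤ (m0 N).1 + ρ' → x = x' := by
    intro x x' y h1 h3 h4 h5 h6 h7 h8
    have h9 : (N : ℤ) ∣ x - x' := Int.ModEq.dvd (show x' ≡ x [ZMOD N] from h1.symm)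
    have h10 : |x - x'| < N := by
      rw [abs_lt]
      simp only [m0, mid] at h7 h8
      constructor <;> omega
    have h11 := Int.eq_zero_of_abs_lt_dvd h9 h10
    omega
  have e1 := key e.1 e'.1 f.1 k1 hte.1 hte.2.1 he.1 he.2.1 he'.1 he'.2.1
  have e2 := key e.2.1 e'.2.1 f.2.1 k2 hte.2.2.1 hte.2.2.2 he.2.2.1 he.2.2.2 he'.2.2.1 he'.2.2.2
  simp only [m0] at he'
  unfold dist0 at h2
  omega

/-- Influence of an edge which is close to the middle, compared with the size of the torus. -/
theorem pivot_W0_near (q : I) {N ρ ρ' R : ℕ} {f : Edge} (hf : f ∈ tEdges N) (h1 : 1 ≤ ρ)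
    (h2 : ρ + ρ' < dist0 N f) (h3 : dist0 N f + ρ ≤ R) (h4 : 2 * R + 2 ≤ N) :
    pivot q (W0 N) f ≤ a4 q ρ * (arm q ρ' * Pr q (OutArm N R)) := by
  classical
  have hN : 1 ≤ N := by omega
  have hle : pivot q (W0 N) f ≤ Pr q (A4T N f ρ ∩ (ArmT N ρ' ∩ OutArm N R)) := by
    refine pivot_le_of (localOn_W0 hN) (incr_W0 N) f fun ω g1 g2 => ⟨?_, ?_, ?_⟩
    · exact A4T_of_pivot_W0 hf h1 (by omega) (by omega) g1 g2
    · exact ArmT_of_pivot_W0 hf (by omega) (by omega) g1
    · exact OutArm_of_pivot_W0 (by omega) g1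
  have hd1 : Disjoint ((eRect ((m0 N).1 - ρ') ((m0 N).1 + ρ') ((m0 N).2 - ρ')
      ((m0 N).2 + ρ')).image (modE N)) (tEdges N \ blk N R) := by
    rw [Finset.disjoint_left]
    intro g hg hg'
    rw [Finset.mem_image] at hg
    obtain ⟨e, he, heg⟩ := hg
    have h5 : dist0 N e ≤ R := by
      rw [mem_eRect] at he
      simp only [src, rect, Set.mem_ofPred_eq, m0] at he
      unfold dist0
      omega
    rw [armDet_modE h4 h5] at heg
    rw [← heg] at hg'
    exact (Finset.mem_sdiff.1 hg').2 (mem_blk_iff.2 h5)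
  have hd2 : Disjoint ((eRect (f.1 - ρ) (f.1 + ρ) (f.2.1 - ρ) (f.2.1 + ρ)).image (modE N))
      (((eRect ((m0 N).1 - ρ') ((m0 N).1 + ρ') ((m0 N).2 - ρ') ((m0 N).2 + ρ')).image
        (modE N)) ∪ (tEdges N \ blk N R)) := by
    rw [Finset.disjoint_union_right]
    refine ⟨armDet_disj hf h2, ?_⟩
    rw [Finset.disjoint_left]
    intro g hg hg'
    rw [Finset.mem_image] at hg
    obtain ⟨e, he, heg⟩ := hg
    have h5 : dist0 N e ≤ R := by
      rw [mem_eRect] at he
      simp only [src, rect, Set.mem_ofPred_eq] at he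
      unfold dist0 at h3 ⊢
      omega
    rw [armDet_modE h4 h5] at heg
    rw [← heg] at hg'
    exact (Finset.mem_sdiff.1 hg').2 (mem_blk_iff.2 h5)
  refine hle.trans (le_of_eq ?_)
  rw [Pr_inter_of_disjoint (localOn_A4T N f ρ)
    ((armDet_localArm N ρ').inter' (localOn_OutArm hN R)) hd2,
    Pr_inter_of_disjoint (armDet_localArm N ρ') (localOn_OutArm hN R) hd1,
    Pr_A4T q hf (by omega), Pr_ArmT (by omega)]

theorem pivot_W0_far (q : I) {N ρ ρ' : ℕ} {f : Edge} (hf : f ∈ tEdges N) (h1 : 1 ≤ ρ)
    (h2 : ρ + ρ' < dist0 N f) : pivot q (W0 N) f ≤ a4 q ρ * arm q ρ' := by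
  classical
  have hd := dist0_le_half hf
  have hN : 1 ≤ N := by omega
  have hle : pivot q (W0 N) f ≤ Pr q (A4T N f ρ ∩ ArmT N ρ') := by
    refine pivot_le_of (localOn_W0 hN) (incr_W0 N) f fun ω g1 g2 => ⟨?_, ?_⟩
    · exact A4T_of_pivot_W0 hf h1 (by omega) (by omega) g1 g2
    · exact ArmT_of_pivot_W0 hf (by omega) (by omega) g1
  refine hle.trans (le_of_eq ?_)
  rw [Pr_inter_of_disjoint (localOn_A4T N f ρ) (armDet_localArm N ρ') (armDet_disj hf h2),
    Pr_A4T q hf (by omega), Pr_ArmT (by omega)]

end Pool.Agent.H61.NC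

end

section

/-!
# Extension of one-arm events in the box-crossing regime
-/

open MeasureTheory ProbabilityTheory unitInterval

namespace Pool.Agent.H61.NC

open Pool.Agent.H89.Perc Pool.Agent.H85.Strict

/-! ### Finite energy -/

/-! ### One step of the extension -/

end Pool.Agent.H61.NC

end

section

/-!
# Gluing of the arm of the middle vertex and the outer event
-/

open MeasureTheory ProbabilityTheory unitInterval

namespace Pool.Agent.H61.NC

open Pool.Agent.H89.Perc

end Pool.Agent.H61.NC

end

section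

/-! # Box crossing property at general densities -/

open MeasureTheory ProbabilityTheory unitInterval

namespace Pool.Agent.H83.EX

open Pool.Agent.H89.Perc

end Pool.Agent.H83.EX

end

section

/-!
# Triangularity
-/

namespace Pool.Agent.H12.QKZ

open H56.EX

end Pool.Agent.H12.QKZ

end

section

/-!
# The normalised fixed vector for admissible angles
-/

namespace Pool.Agent.H12.QKZ

open H56.EX Matrix

set_option linter.unusedSectionVars false

variable {L : ℕ}

end Pool.Agent.H12.QKZ

end

section

/-!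
# Normalisation by the base component
-/

namespace Pool.Agent.H12.QKZ

open H56.EX Matrix

variable {L : ℕ}

/-! ### Base patterns -/

/-! ### Closure under rotations -/

/-! ### The base component does not vanish -/

end Pool.Agent.H12.QKZ

end

section

/-!
# The renormalised vector and its polynomiality
-/

namespace Pool.Agent.H12.QKZ

open H56.EX Matrix MvPolynomial

variable {L : ℕ}

end Pool.Agent.H12.QKZ

end

section

/-!
# The polynomial qKZ solution
-/

namespace Pool.Agent.H12.QKZ

open H56.EX Matrix MvPolynomial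

variable {L : ℕ}

end Pool.Agent.H12.QKZ

end

section

/-! The base case of the leg formula: `F22` with no glued strand. -/

namespace H56.EX

open scoped BigOperators Classical


end H56.EX

end

section

/-!
# The explicit sum in the form of the leg functions, for any number of legs

`SGen k M u v c z` is the sum over `ε ∈ {q, q²}^M`; `SM M = SGen 4 M q (q²)`.
Recursions, symmetry in `c` and `z`, degree in each `c l`.
-/

set_option autoImplicit false

namespace Pool.Agent.H96.EX

open Finset H56.EX

end Pool.Agent.H96.EX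

end

section

/-!
# The polynomial `S` extending the explicit sum `SGen` to all values of the parameters

* `SPoly k M u v : MvPolynomial (Fin k ⊕ Fin M) ℂ`, `S k M u v c z` = its value;
* `S_eq_SGen` : `S = SGen` for pairwise distinct `z`;
* `S_continuous`, `S_symm_c`, `S_symm_z`, `S_poly` (degree `≤ M` in each leg), `S_rec1`, `S_rec2`
  (recursions, for ALL values), `S_zero`.
-/

set_option autoImplicit false

namespace Pool.Agent.H96.EX

open Finset H56.EX

/-! ### Vandermonde product -/

/-! ### numerators -/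

/-! ### continuity along a line -/

/-! ### divisibility -/

section dvd

open MvPolynomial

variable {σ : Type*} [DecidableEq σ]

end dvd

/-! ### degree in a leg parameter -/

end Pool.Agent.H96.EX

end

section

/-!
# Interface for `H56.EX.SM`

`SM_S` : `SM M c z = S 4 M q (q²) c z` for pairwise distinct `z`;
`SM_zero`, `SM_symm_c`, `SM_symm_z`, `SM_poly`, `SM_rec1`, `SM_rec2`, `SM_unique`.
For all values of the parameters (also coinciding strands) use `S 4 M q (q²)` of `SMb.lean`.
-/

set_option autoImplicit false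

namespace Pool.Agent.H96.EX

open Finset H56.EX

end Pool.Agent.H96.EX

end

section

/-!
# Bridge: `S` and the sum `SG` over `range M` with a list of legs (helper56's `TM`)
-/

set_option autoImplicit false

namespace Pool.Agent.H96.EX

open Finset H56.EX

end Pool.Agent.H96.EX

end

section

/-!
# LINK module `Diag`: four arms at a diagonal pair of vertices and four arms of an edge

`x = (0, 0)`, `y = (1, -1)`, `z = (1, 0)`, `w = (0, -1)`: the corners of the face `q = (0, -1)`;
`e = (0, 0, false)` joins `x, z`; `g = (1, -1, true)` joins `y, z`; `f = (0, -1, true)` joins `w, x`.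
Clusters `C(v)` are taken in `ball 0 k` (all four points are in it for `k ≥ 1`).

`fourD_le_a4`.  Let `ω ∈ FourD k`.
* `z ∈ C(y)`: `e` is closed, `ω ∈ A4 e k`.
* `z ∈ C(x)`: `g` is closed; restricted to `ball (1, -1) (k - 1) ⊆ ball 0 k` this is `A4 g (k - 1)` (`src g = y`; the
  path from `z` goes through `x` to the sphere; cut it at `sphere y (k-1)`).
* otherwise: `Function.update ω g true ∈ A4 e k` (now `z ∈ C(y)`, `x` is not joined to it).
  `Pr p {ω | update ω g true ∈ A} ≤ Pr p A / p` (independence of the edge `g`).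
Then `Pr_A4` and `a4_anti`.

`a4_le_fourD`.  Let `ω ∈ A4 e k`, `ω₀ = close e ω` (the clusters are now those of `ω₀`).
* `y ∈ C(z)`: `ω₀ ∈ FourD k`.
* `y ∉ C(z)`, `y ∉ C(x)`: `update ω₀ g true ∈ FourD k`.
* `y ∈ C(x)`, `w ∈ C(x)`: the reflection `(a, b) ↦ (1 - a, b)` of `ω₀` is in `FourD (k - 1)`
  (`z ↦ x`, `w ↦ y`; `ball (1, 0) (k - 1) ⊆ ball 0 k`).
* `y ∈ C(x)`, `w ∉ C(x)`, `w ∉ C(z)`: the same for `update ω₀ f true`.
* `y ∈ C(x)`, `w ∈ C(z)`: impossible (planarity).  Let `c` be a path sum (`exists_pathSum` of `Link/Potential.lean`) of an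
  open path from `x` to `y` in `ball 0 k`, `A = c + 1_e + 1_g` (all degrees even, finite support), `G = pot A H`,
  `G (lowFace e') + G (src e') = A e'` (`pot_even`).  `A` has no edge at any vertex of `C(z)` except `z` (its edges join
  vertices of `C(x)`, or are `e`, `g`).  So around every vertex `v ∈ C(z)`, `v ≠ z`, the four faces have the same colour
  `G`, and neighbours in `C(z) \ {z}` share a face, so this colour is constant along an open path from `w` to the last
  vertex `v` before `z`; around `w` it is `G q` (`q = (0, -1)` is a face at `w`).  `v ∈ {(2, 0), (1, 1)}` (`v ≠ x, y`), and the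
  face `(1, 0)` contains both; so `G (1, 0) = G q`.  But from `q` to the face `(0, 0)` one crosses `e` (`A e = 1`,
  because `c e = 0`), and from `(0, 0)` to `(1, 0)` one crosses `(1, 0, true)` (`A = 0`, it joins `z` and `(1, 1)`, not
  in `C(x)`; if it is closed also `c = 0`).  So `G (1, 0) = G q + 1`, contradiction.
  (Take the path from `w` to `z` with `z` only at the end: `Conn` in `ball 0 k \ {z}` to a neighbour of `z`.)
-/

set_option autoImplicit false

open MeasureTheory ProbabilityTheory unitInterval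

namespace Pool.Agent.H89.Link

open Pool.Agent.H89.Perc (Vert Edge Config Pr half)
open Pool.Agent.H61.NC (a4)
open Pool.Agent.H89.Perc (src tgt lowFace ball sphere)

/-! ### Clusters -/

/-! ### Probabilities -/

/-! ### The first inequality -/

/-! ### The second inequality -/

end Pool.Agent.H89.Link

end

end

section

/-! The parts of this file: H83.EX.WindNear, H31.EX.Scaling, H47.EX.CylGeo, H47.EX.SepD, H89.Link.Fc, H89.Link.Fc2, H89.Link.CylArm, H56.EX.TMx, H56.EX.Alg, H26.ST.Piv. -/

section

/-! # The winding probability above the characteristic length -/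

open MeasureTheory ProbabilityTheory unitInterval

namespace Pool.Agent.H83.EX

open Pool.Agent.H89.Perc

end Pool.Agent.H83.EX

end

section

/-!
# Exponents of bond percolation on the square lattice from the scaling relations

`L p` is a characteristic length.  From `(p - 1/2) (L p) ^ (s + o(1)) ≍ 1`,
`θ(p) ≍ π₁(L p)`, `σ(1 - p) ≍ (L p)² π₁(L p)²` and `π₁(n) = n ^ (-a + o(1))` we obtain
`β = a / s` and `γ = (2 - 2 a) / s`.
-/

open MeasureTheory ProbabilityTheory unitInterval
open scoped ENNReal

namespace Pool.Agent.H31.EX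

open Pool.Agent.H89.Perc

/-- The characteristic length is `(p - 1/2) ^ (-1/s + o(1))`. -/
theorem length_exponent {L : I → ℕ} {s : ℝ} (hs : 0 < s)
    (hup : ∀ ε > (0 : ℝ), ∃ C > (0 : ℝ), ∃ δ > (0 : ℝ), ∀ p : I, (1 / 2 : ℝ) < p →
      (p : ℝ) < 1 / 2 + δ → ((p : ℝ) - 1 / 2) * (L p : ℝ) ^ (s - ε) ≤ C)
    (hlow : ∀ ε > (0 : ℝ), ∃ c > (0 : ℝ), ∃ δ > (0 : ℝ), ∀ p : I, (1 / 2 : ℝ) < p →
      (p : ℝ) < 1 / 2 + δ → c ≤ ((p : ℝ) - 1 / 2) * (L p : ℝ) ^ (s + ε)) :
    PL (fun x => (L (pOf x) : ℝ)) (-(1 / s)) := by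
  refine PL.of_window (L := fun x => L (pOf x)) hs ?_ ?_
  · intro ε hε
    obtain ⟨C, hC, δ, hδ, h⟩ := hup ε hε
    obtain ⟨δ', hδ', h'⟩ := transfer (P := fun p x => x * (L p : ℝ) ^ (s - ε) ≤ C) hδ h
    exact ⟨C, hC, δ', hδ', h'⟩
  · intro ε hε
    obtain ⟨C, hC, δ, hδ, h⟩ := hlow ε hε
    obtain ⟨δ', hδ', h'⟩ := transfer (P := fun p x => C ≤ x * (L p : ℝ) ^ (s + ε)) hδ h
    exact ⟨C, hC, δ', hδ', h'⟩

/-- `β = a / s`. -/
theorem beta_of_scaling {L : I → ℕ} {a s : ℝ} (ha : 0 < a) (hs : 0 < s)
    (hπ : PN (arm half) a) (hL : PL (fun x => (L (pOf x) : ℝ)) (-(1 / s)))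
    (hθ : ∃ c > (0 : ℝ), ∃ C > (0 : ℝ), ∃ δ > (0 : ℝ), ∀ p : I, (1 / 2 : ℝ) < p →
      (p : ℝ) < 1 / 2 + δ → c * arm half (L p) ≤ theta p ∧ theta p ≤ C * arm half (L p)) :
    HasBeta (a / s) := by
  obtain ⟨c, hc, C, hC, δ, hδ, h⟩ := hθ
  obtain ⟨δ', hδ', h'⟩ := transfer
    (P := fun p _ => c * arm half (L p) ≤ theta p ∧ theta p ≤ C * arm half (L p)) hδ h
  have h1 : PL (fun x => arm half (L (pOf x))) (a * (1 / s)) :=
    PL.comp (L := fun x => L (pOf x)) ha (by positivity) hπ hL
  have h2 : PL (fun x => theta (pOf x)) (a * (1 / s)) := h1.of_between hc hC hδ' h'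
  intro ε hε
  obtain ⟨δ₁, hδ₁, h3⟩ := h2 ε hε
  refine ⟨min δ₁ (1 / 2), lt_min hδ₁ (by norm_num), fun p hp hp1 => ?_⟩
  have hp2 : (p : ℝ) - 1 / 2 < δ₁ := by
    have := min_le_left δ₁ (1 / 2 : ℝ)
    linarith only [hp1, this]
  have hp3 : (p : ℝ) < 1 := by
    have := min_le_right δ₁ (1 / 2 : ℝ)
    linarith only [hp1, this]
  have h4 := h3 ((p : ℝ) - 1 / 2) (by linarith only [hp]) hp2
  simp only [pOf_sub hp hp3] at h4
  rw [mul_one_div] at h4
  exact h4

end Pool.Agent.H31.EX

end

section

/-!
# Geometry of the corridors on the cylinder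

`n ≥ 256 k`.  The corridor of `x` goes from the east mouth of the box around `0` to the right and then
down to the east mouth of the copy of the box at `(n, -n)`; the corridor of `y` is its image under
`v ↦ -v`.
-/

set_option autoImplicit false

open MeasureTheory ProbabilityTheory unitInterval

namespace Pool.Agent.H47.EX

open Pool.Agent.H89.Perc hiding per
open Pool.Agent.H59.EX
open Pool.Agent.H89.Link (per)

/-! ### Periods -/

/-! ### The window -/

/-! ### The corridors -/

variable {n k : ℕ}

end Pool.Agent.H47.EX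

end

section

/-!
# The separated event of the diagonal source is not empty
-/

set_option autoImplicit false

open MeasureTheory ProbabilityTheory unitInterval

namespace Pool.Agent.H47.EX

open Pool.Agent.H89.Perc
open Pool.Agent.H59.EX
open Pool.Agent.H89.Link (xx yy)

variable {k : ℕ}

end Pool.Agent.H47.EX

end

section

/-!
# LINK module `Fc`: the event `Fc` implies the four-leg event

`η = per n ω`, `Conn η univ` is an equivalence relation; it is invariant under the translation by `(n, -n)`.
Clusters `C_k` = cluster of `y + k (n, -n)`; `y` is joined to `(n, -n) = x + (n, -n)`, so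
`C_k` = cluster of `x + (k+1) (n, -n)`.
(1) `C_i ≠ C_j` for `i ≠ j`: by translation take `i = 0`; `j = -1`: `C_{-1}` = cluster of `x` (not joined to `y`);
`j = 1`: by translation; `|j| ≥ 2`: `y + j (n, -n)` has `v.1 - v.2 = 2 + 2 n j`, which is not in `(-n, 3n)`.
(2) Primal colours: `F v` = cluster of `v` (type `Set Vert`, `F v = {u | Conn η univ v u}`), constant along open edges,
so `F (pv c)` is invariant under the steps of the composite graph (for `inl c` and `inr c`).
The home columns are `c = L a` (`pv c = x + a (n, -n)`) and `c = L a + 1` (`pv c = y + a (n, -n)`).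
(3) Dual colours: path sum `c` of the path from `y` to `(n, -n)` in the strip, plus the edges `(0, 0, false)` and
`(1, -1, true)` shifted by `(n, -n)`, (so that it becomes a path sum from `y` to `y + (n, -n)`), periodised by
`exists_perSum`: `A`, all degrees even, supported in the strip `H` (`H ≥ 2` because `n ≥ 2`), and open edges
except the gates `(0, 0, false) + k (n, -n)`, `(1, -1, true) + k (n, -n)`.  `G' = pot A H` (periodic).
`Gu f = G' f + 1` if `f = q + k (n, -n)` for some `k` (`q = (0, -1)`), else `G' f`; `Gd = G'`.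
For closed `e` in rows `≥ 0`: `Gu (lowFace e) = Gu (src e)` (the edges of rows `≥ 0` around `q` are the gates); for
closed `e` in rows `< 0`: `Gd (lowFace e) = Gd (src e)`.  `Gu = 0` on level `h ≥ H`, `Gd` constant on level `-h`.
So `inl c ↦ Gu (dv c)`, `inr c ↦ Gd (dv c)` is invariant under the steps (for `c` not home `dv c` is not a translate of
`q`); all `inl` home nodes have colour `G' q + 1` and all `inr` home nodes have colour `G' q`.
(4) `Leg`: if `hpos u a` and `hpos v b` are connected then `u`, `v` are both `inl` or both `inr` by (3), and by (1), (2)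
`a - 1 = b - 1` (`u = v` = strand 0), `a = b` (`u = v` = strand 1), or `a - 1 = b`, or `a = b - 1`.
-/

set_option autoImplicit false

namespace H56.EX

end H56.EX

namespace Pool.Agent.H89.Link

open H56.EX
open Pool.Agent.H89.Perc (Vert Edge Config src tgt lowFace vsum)

variable {L n : ℕ}

end Pool.Agent.H89.Link

end

section

/-!
# LINK module `Fc2`: two disjoint winding clusters at the pair `x`, `y` imply the four-leg event

`Fc2 n H`: `x` is joined to `x + (n, -n)` and `y` to `y + (n, -n)` in the strip, and `x` is not joined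
to `y`.  `leg_of_wind`: `per n ω ∈ Fc2 n H` implies `Leg 2 2 (L - 2) (up s n h ω) (dn s n h ω)`.
-/

set_option autoImplicit false

open MeasureTheory ProbabilityTheory Filter Topology

namespace H56.EX

end H56.EX

namespace Pool.Agent.H89.Link

open H56.EX
open Pool.Agent.H89.Perc (Vert Edge Config Pr half src tgt lowFace vsum)

variable {L n : ℕ}

/-- Two different winding clusters at `x` and `y`. -/
def Fc2 (n H : ℕ) : Set Config :=
  {ω | Perc.Conn ω (strip H) xx (n, -n) ∧ Perc.Conn ω (strip H) yy (n + 1, -n - 1) ∧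
    ¬ Perc.Conn ω Set.univ xx yy}

end Pool.Agent.H89.Link

end

section

/-!
# LINK module `CylArm`: an arm of the plane can be completed to a winding path on the cylinder

`n = 16 m`, `η = per n ω`.  Events for `η`, all increasing and local:
* `A = Arm 0 (2 m)`;
* `T` = `HCross η (-2m) (2m) m (2m)`, `B` = `HCross η (-2m) (2m) (-2m) (-m)`, `Le` = `VCross η (-2m) (-m) (-2m) (2m)`,
  `Ri` = `VCross η m (2m) (-2m) (2m)` (four `4 : 1` rectangles around `ball 0 m`);
* `R1` = `HCross η (-2m) (18m) (-m) m`, `R2` = `VCross η (15m) (17m) (-18m) (2m)`.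
Determinism.  An open path from `0` to `sphere 0 (2m)` in `ball 0 (2m)` ends on one of the four sides; by `hv_meet` (or
`Conn.cross_x/cross_y` + `cross`) it meets the crossing of the corresponding rectangle.  The four crossings meet pairwise
in the corners (`hv_meet`), `Le` meets `R1`, `R1` meets `R2`.  `R2` meets the translate by `(n, -n)` of `B`
(`HCross η (14m) (18m) (-18m) (-17m)`), which exists because `η` has period `(n, -n)` (`conn_sh` in `Link/Fc.lean`); the
translate of the whole picture joins it to `(n, -n)`.  Everything is in `strip (64 m)`.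
Probability.  `Pr half {ω | per n ω ∈ E} = Pr half E` for each of the seven events (`pr_per`: `base n` is injective on
`eRect a b c d` if `b - a < n` or `d - c < n`, because `base n e = base n e'` forces
`e' = (e.1 + n k, e.2.1 - n k, e.2.2)`).  `ω ↦ per n ω` is monotone and local, so FKG (`Perc.fkg`) holds for these events;
`rsw` and `long_rsw` bound the crossing probabilities from below (translate, reflect: `Pr_hcross_translate`,
`Pr_vcross_eq_hcross`); the `20m x 2m` rectangles have aspect ratio 10.
-/

set_option autoImplicit false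

open MeasureTheory ProbabilityTheory

namespace Pool.Agent.H89.Link

open Pool.Agent.H89.Perc (Vert Edge Config Pr half)

end Pool.Agent.H89.Link

end

section

/-! The function `TM M c z`: the explicit sum times the product over pairs; its recursions. -/

namespace H56.EX

open Finset Pool.Agent.H96.EX

/-- relabelling of the explicit sum -/
lemma SG_map {K ι κ : Type*} [Field K] [DecidableEq ι] [DecidableEq κ] (q u v : K) (e : ι ↪ κ)
    (s : Finset ι) (c : List K) (z : κ → K) :
    SG q u v (s.map e) c z = SG q u v s c (z ∘ e) := by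
  unfold SG
  symm
  refine Finset.sum_bij (fun A _ => A.map e) ?_ ?_ ?_ ?_
  · intro A hA
    rw [mem_powerset] at hA ⊢
    exact map_subset_map.2 hA
  · intro A _ B _ h
    exact map_injective e h
  · intro B hB
    rw [mem_powerset] at hB
    obtain ⟨A, hA, rfl⟩ := subset_map_iff.1 hB
    exact ⟨A, mem_powerset.2 hA, rfl⟩
  · intro A _
    rw [← Finset.map_sdiff]
    simp only [Finset.prod_map, Function.comp_apply]

/-- `S_M(c;z)` at generic points -/
noncomputable def TM (M : ℕ) (c : List ℂ) (z : ℕ → ℂ) : ℂ :=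
  prp M z * SG q q (q ^ 2) (range M) c z

lemma TM_perm {M : ℕ} {c c' : List ℂ} (h : c.Perm c') (z : ℕ → ℂ) : TM M c z = TM M c' z := by
  unfold TM
  rw [SG_perm h]

lemma TM_zero (c : List ℂ) (z : ℕ → ℂ) : TM 0 c z = 1 := by
  simp [TM, prp, SG_empty]

lemma TM_swap (M : ℕ) (c : List ℂ) (z : ℕ → ℂ) (j : ℕ) (hj : j + 1 < M) :
    TM M c (z ∘ Equiv.swap j (j + 1)) = TM M c z := by
  unfold TM
  rw [prp_swap M z j hj]
  have := SG_map q q (q ^ 2) (Equiv.swap j (j + 1)).toEmbedding (range M) c z
  have hm : (range M).map (Equiv.swap j (j + 1)).toEmbedding = range M := by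
    ext x
    simp only [mem_map, mem_range, Equiv.coe_toEmbedding]
    constructor
    · rintro ⟨k, hk, rfl⟩
      by_cases h1 : k = j
      · subst h1; simp; omega
      by_cases h2 : k = j + 1
      · subst h2; simp; omega
      rw [Equiv.swap_apply_of_ne_of_ne h1 h2]; exact hk
    · intro hx
      refine ⟨Equiv.swap j (j + 1) x, ?_, by simp⟩
      by_cases h1 : x = j
      · subst h1; simp; omega
      by_cases h2 : x = j + 1
      · subst h2; simp; omega
      rw [Equiv.swap_apply_of_ne_of_ne h1 h2]; exact hx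
  rw [hm] at this
  rw [this]
  rfl

lemma TM_congr {M : ℕ} {c : List ℂ} {z z' : ℕ → ℂ} (h : ∀ j, j < M → z j = z' j) :
    TM M c z = TM M c z' := by
  have hp : ∀ (M : ℕ) (z z' : ℕ → ℂ), (∀ j, j < M → z j = z' j) → prp M z = prp M z' := by
    intro M
    induction M with
    | zero => intro _ _ _; rfl
    | succ M ih =>
      intro z z' h
      simp only [prp]
      rw [ih _ _ (fun j hj => h (j + 1) (by omega)), h 0 (by omega)]
      congr 1
      refine Finset.prod_congr rfl fun k hk => ?_
      rw [h (k + 1) (by have := mem_range.1 hk; omega)]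
  unfold TM
  rw [hp M z z' h]
  congr 1
  unfold SG
  refine Finset.sum_congr rfl fun A hA => ?_
  rw [mem_powerset] at hA
  congr 1
  · congr 1
    · refine Finset.prod_congr rfl fun j hj => ?_
      rw [h j (mem_range.1 (hA hj))]
    · refine Finset.prod_congr rfl fun j hj => ?_
      rw [h j (mem_range.1 (mem_sdiff.1 hj).1)]
  · refine Finset.prod_congr rfl fun j hj => Finset.prod_congr rfl fun k hk => ?_
    rw [h j (mem_range.1 (hA hj)), h k (mem_range.1 (mem_sdiff.1 hk).1)]

/-- polynomial in the first leg -/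
theorem TM_poly (M : ℕ) (c : List ℂ) (z : ℕ → ℂ) :
    ∃ p : Polynomial ℂ, p.natDegree ≤ M ∧ ∀ t, TM M (t :: c) z = p.eval t := by
  refine ⟨Polynomial.C (prp M z) * SGpoly q q (q ^ 2) (range M) c z, ?_, fun t => ?_⟩
  · refine (Polynomial.natDegree_C_mul_le _ _).trans ?_
    have := SGpoly_natDegree q q (q ^ 2) (range M) c z
    rwa [card_range] at this
  · rw [Polynomial.eval_mul, Polynomial.eval_C, SGpoly_eval]
    rfl

end H56.EX

end

section

/-! The explicit right hand sides of the leg formulas and their recursions. -/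

namespace H56.EX

open Finset Pool.Agent.H96.EX

/-- the explicit (2,2) leg function -/
noncomputable def R22 (M : ℕ) (a0 a1 b0 b1 : ℂ) (z : ℕ → ℂ) : ℂ :=
  -((q * a1 - q⁻¹ * a0) * (q * b0 - q⁻¹ * b1) * TM M [a1, a0, b0, b1] z) /
    (3 ^ (ee M) * (b0 * b1 * ∏ k ∈ range M, z k) ^ (M + 1))

/-- the explicit (1,3) leg function -/
noncomputable def R13 (M : ℕ) (a b0 b1 b2 : ℂ) (z : ℕ → ℂ) : ℂ :=
  -((q ^ 2 - q) * ((q * b0 - q⁻¹ * b1) * (q * b0 - q⁻¹ * b2) * (q * b1 - q⁻¹ * b2)) *
    TM M [b2, a, b0, b1] z) / (3 ^ (ee M + 1) * (b0 * b1 * b2 * ∏ k ∈ range M, z k) ^ (M + 2))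

end H56.EX

end

section

/-!
# Lower bounds for the influence of an edge of the torus
-/

open MeasureTheory ProbabilityTheory unitInterval

namespace Pool.Agent.H26.ST

open Pool.Agent.H89.Perc Pool.Agent.H61.NC

end Pool.Agent.H26.ST

end

end
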