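import Pool.Agent.H94.BG.H31.PT.M10_1
import Pool.Agent.H94.BG.H31.PT.M15_2
import Pool.Agent.H94.BG.H31.PT.M32_2
import Pool.Agent.H94.BG.H31.PT.M33
import Pool.Agent.H94.BG.H31.PT.M34_5
import Pool.Agent.H94.BG.M07
import Pool.Agent.H94.BG.M08
import Pool.Agent.H94.BG.M09
import Pool.Agent.H94.BG.M10

/-! The parts of this file: H31.PT.M35, H31.PT.M37. -/

section

/-! The parts of this file: H61.NC.Main, H61.NC.Final, H29.Sep.BlockAnn, H29.Sep.QM, H56.EX.SumRule, H56.EX.Stat, H26.ST.Small. -/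

section

/-!
# Near-critical stability on the torus
-/

open MeasureTheory ProbabilityTheory unitInterval

namespace Pool.Agent.H61.NC

open Pool.Agent.H89.Perc

/-- The derivative of the winding probability. -/
noncomputable def FT' (N : ℕ) (q : I) : ℝ := ∑ e ∈ tEdges N, pivot q (Wind N) e

theorem FT'_eq {N : ℕ} (hN : 1 ≤ N) (q : I) :
    FT' N q = (N : ℝ) ^ 2 * (sT q N false + sT q N true) := sum_pivot hN q

/-- The influences are positive. -/
theorem sT_pos (hGL : GLTorus) (hBL : BlockLow) {c : ℝ} (hc : 0 < c) {N : ℕ} {q : I} {d : Bool}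
    (hN : 64 ≤ N) (h1 : 1 / 4 ≤ (q : ℝ)) (h2 : (q : ℝ) ≤ 3 / 4) (hR : RSWreg c N q) :
    0 < sT q N d := by
  obtain ⟨C, hC, H⟩ := sum_a4 hGL hBL c hc
  have h3 := H N q d hN hR
  have h4 : (1 : ℝ) * a4 q 1 ≤ ∑ t ∈ Finset.Icc 1 N, (t : ℝ) * a4 q t := by
    have := Finset.single_le_sum (f := fun t : ℕ => (t : ℝ) * a4 q t)
      (fun t _ => mul_nonneg (Nat.cast_nonneg t) (a4_nonneg q t))
      (Finset.mem_Icc.2 ⟨le_rfl, by omega⟩ : 1 ∈ Finset.Icc 1 N)
    simpa using this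
  have h5 := a4_one q h1 h2
  have h6 : 0 < C * ((N : ℝ) ^ 2 * sT q N d) := by
    have : (0 : ℝ) < (1 / 4) ^ 24 := by positivity
    linarith only [h3, h4, h5]
  have h7 : 0 < (N : ℝ) ^ 2 * sT q N d := by
    by_contra h
    push Not at h
    have := mul_nonpos_of_nonneg_of_nonpos hC.le h
    linarith only [h6, this]
  have hN2 : (0 : ℝ) < (N : ℝ) ^ 2 := by
    have : (0 : ℝ) < N := by exact_mod_cast (by omega : 0 < N)
    positivity
  exact (pos_iff_pos_of_mul_pos h7).1 hN2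

/-- Second derivative against the square of the first one. -/
theorem second_le (hGL : GLTorus) (hBL : BlockLow) : ∀ c : ℝ, 0 < c → ∃ C : ℝ, 0 < C ∧
    ∀ (N : ℕ) (q : I), 64 ≤ N → 1 / 4 ≤ (q : ℝ) → (q : ℝ) ≤ 3 / 4 → RSWreg c N q →
      ∑ e ∈ tEdges N, ∑ f ∈ (tEdges N).erase e, Pr q (Joint (Wind N) e f) ≤
        C * FT' N q ^ 2 := by
  intro c hc
  obtain ⟨C, hC, H⟩ := sum_joint_ctr hGL hBL c hc
  refine ⟨C, hC, fun N q hN h1 h2 hR => ?_⟩
  have hN1 : 1 ≤ N := by omega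
  rw [sum_joint hN1, FT'_eq hN1]
  have ha := H N q false hN h1 h2 hR
  have hb := H N q true hN h1 h2 hR
  have hsa : 0 ≤ sT q N false := sT_nonneg q N false
  have hsb : 0 ≤ sT q N true := sT_nonneg q N true
  have hN2 : (0 : ℝ) ≤ (N : ℝ) ^ 2 := by positivity
  rw [Fintype.sum_bool]
  calc (N : ℝ) ^ 2 * (∑ f ∈ (tEdges N).erase (ctr N true), Pr q (Joint (Wind N) (ctr N true) f) +
        ∑ f ∈ (tEdges N).erase (ctr N false), Pr q (Joint (Wind N) (ctr N false) f))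
      ≤ (N : ℝ) ^ 2 * (C * ((N : ℝ) ^ 2 * sT q N true ^ 2) +
          C * ((N : ℝ) ^ 2 * sT q N false ^ 2)) :=
        mul_le_mul_of_nonneg_left (add_le_add hb ha) hN2
    _ = C * ((N : ℝ) ^ 2) ^ 2 * (sT q N false ^ 2 + sT q N true ^ 2) := by ring
    _ ≤ C * ((N : ℝ) ^ 2) ^ 2 * (sT q N false + sT q N true) ^ 2 := by
        apply mul_le_mul_of_nonneg_left _ (by positivity)
        nlinarith only [hsa, hsb, mul_nonneg hsa hsb]
    _ = C * ((N : ℝ) ^ 2 * (sT q N false + sT q N true)) ^ 2 := by ring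

/-- Kesten's stability theorem on the torus. -/
theorem near_critical (hGL : GLTorus) (hBL : BlockLow) : ∀ c : ℝ, 0 < c → ∃ K : ℝ, 0 < K ∧
    ∀ (N : ℕ) (q₀ q₁ : I), 64 ≤ N → q₀ ≤ q₁ → 1 / 4 ≤ (q₀ : ℝ) → (q₁ : ℝ) ≤ 3 / 4 →
      (∀ q : I, q₀ ≤ q → q ≤ q₁ → RSWreg c N q) →
      FT' N q₁ ≤ K * FT' N q₀ ∧ FT' N q₀ ≤ K * FT' N q₁ := by
  intro c hc
  obtain ⟨C, hC, H⟩ := second_le hGL hBL c hc
  refine ⟨Real.exp C, Real.exp_pos _, fun N q₀ q₁ hN h01 h0 h1 hR => ?_⟩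
  have hN1 : 1 ≤ N := by omega
  have hloc := localOn_wind hN1
  have hmem : ∀ x ∈ Set.Icc (q₀ : ℝ) q₁, ∃ q : I, (q : ℝ) = x ∧ q₀ ≤ q ∧ q ≤ q₁ := by
    intro x hx
    exact ⟨⟨x, q₀.2.1.trans hx.1, hx.2.trans q₁.2.2⟩, rfl, hx.1, hx.2⟩
  have key := stability (F := PrR (tEdges N) (Wind N)) (F' := PrR' (tEdges N) (Wind N))
    (F'' := fun x => if hx : x ∈ I then
      ∑ e ∈ tEdges N, ∑ f ∈ tEdges N, (pivot ⟨x, hx⟩ (upd (Wind N) e true) f -
        pivot ⟨x, hx⟩ (upd (Wind N) e false) f) else 0)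
    (a := q₀) (b := q₁) (K := C) h01 hC.le ?_ ?_ ?_ ?_ ?_
  · rw [PrR'_eq hloc, PrR'_eq hloc] at key
    exact key
  · intro x hx
    obtain ⟨q, rfl, hq0, hq1⟩ := hmem x hx
    exact hasDerivAt_PrR_eq hloc q
  · intro x hx
    obtain ⟨q, rfl, hq0, hq1⟩ := hmem x hx
    have := hasDerivAt_PrR' hloc q
    simp only [Subtype.coe_prop, dite_true, Subtype.coe_eta]
    exact this
  · intro x hx
    obtain ⟨q, rfl, hq0, hq1⟩ := hmem x hx
    rw [PrR'_eq hloc]
    have hq0' : 1 / 4 ≤ (q : ℝ) := h0.trans hq0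
    have hq1' : (q : ℝ) ≤ 3 / 4 := le_trans hq1 h1
    have e := FT'_eq hN1 q
    unfold FT' at e
    rw [e]
    have p1 := sT_pos hGL hBL hc (d := false) hN hq0' hq1' (hR q hq0 hq1)
    have p2 := sT_pos hGL hBL hc (d := true) hN hq0' hq1' (hR q hq0 hq1)
    have hN2 : (0 : ℝ) < (N : ℝ) ^ 2 := by
      have : (0 : ℝ) < N := by exact_mod_cast (by omega : 0 < N)
      positivity
    positivity
  · intro x hx
    obtain ⟨q, rfl, hq0, hq1⟩ := hmem x hx
    have hq0' : 1 / 4 ≤ (q : ℝ) := h0.trans hq0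
    have hq1' : (q : ℝ) ≤ 3 / 4 := le_trans hq1 h1
    simp only [Subtype.coe_prop, dite_true, Subtype.coe_eta]
    rw [PrR'_eq hloc]
    refine (abs_second_le hloc (incr_wind N) q).trans ?_
    exact H N q hN hq0' hq1' (hR q hq0 hq1)
  · intro x hx
    obtain ⟨q, rfl, hq0, hq1⟩ := hmem x hx
    rw [← Pr_eq_PrR hloc]
    exact ⟨Pr_nonneg, Pr_le_one⟩

/-- The derivative against the four-arm probability, upper bound. -/
theorem FT'_le {N r : ℕ} (hN : 1 ≤ N) (q : I) (hr : 1 ≤ r) (h : 2 * r + 2 ≤ N) :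
    FT' N q ≤ 2 * (N : ℝ) ^ 2 * a4 q r := by
  rw [FT'_eq hN]
  have h1 := pivot_le_a4 q (ctr_mem hN false) hr h
  have h2 := pivot_le_a4 q (ctr_mem hN true) hr h
  have h3 : sT q N false + sT q N true ≤ 2 * a4 q r := by
    unfold sT
    linarith only [h1, h2]
  calc (N : ℝ) ^ 2 * (sT q N false + sT q N true) ≤ (N : ℝ) ^ 2 * (2 * a4 q r) :=
        mul_le_mul_of_nonneg_left h3 (by positivity)
    _ = _ := by ring

/-- The derivative against the four-arm probability, lower bound. -/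
theorem le_FT' (hGL : GLTorus) (hBL : BlockLow) : ∀ c : ℝ, 0 < c → ∃ C : ℝ, 0 < C ∧
    ∀ (N : ℕ) (q : I), 64 ≤ N → RSWreg c N q → (N : ℝ) ^ 2 * a4 q (N / 64) ≤ C * FT' N q := by
  intro c hc
  obtain ⟨C, hC, H⟩ := a4_le_sT hGL hBL c hc
  refine ⟨C, hC, fun N q hN hR => ?_⟩
  rw [FT'_eq (by omega)]
  have h1 := H N q false hN hR
  have h2 := sT_nonneg q N true
  have h3 : a4 q (N / 64) ≤ C * (sT q N false + sT q N true) := by
    nlinarith only [h1, hC, h2]
  calc (N : ℝ) ^ 2 * a4 q (N / 64) ≤ (N : ℝ) ^ 2 * (C * (sT q N false + sT q N true)) :=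
        mul_le_mul_of_nonneg_left h3 (by positivity)
    _ = _ := by ring

/-- Change of the winding probability on a stable interval: two-sided bounds by the derivative at
an arbitrary point of the interval. -/
theorem window (hGL : GLTorus) (hBL : BlockLow) : ∀ c : ℝ, 0 < c → ∃ K : ℝ, 0 < K ∧
    ∀ (N : ℕ) (q₀ q₁ : I), 64 ≤ N → q₀ ≤ q₁ → 1 / 4 ≤ (q₀ : ℝ) → (q₁ : ℝ) ≤ 3 / 4 →
      (∀ q : I, q₀ ≤ q → q ≤ q₁ → RSWreg c N q) →
      ((q₁ : ℝ) - q₀) * FT' N q₀ ≤ K * (Pr q₁ (Wind N) - Pr q₀ (Wind N)) ∧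
      Pr q₁ (Wind N) - Pr q₀ (Wind N) ≤ K * (((q₁ : ℝ) - q₀) * FT' N q₀) := by
  intro c hc
  obtain ⟨K, hK, H⟩ := near_critical hGL hBL c hc
  refine ⟨K, hK, fun N q₀ q₁ hN h01 h0 h1 hR => ?_⟩
  have hN1 : 1 ≤ N := by omega
  have hloc := localOn_wind hN1
  have h01' : (q₀ : ℝ) ≤ q₁ := h01
  have hder : ∀ q : I, q₀ ≤ q → q ≤ q₁ →
      HasDerivAt (PrR (tEdges N) (Wind N)) (FT' N q) (q : ℝ) := by
    intro q _ _
    exact hasDerivAt_PrR hloc q
  have hst : ∀ q : I, q₀ ≤ q → q ≤ q₁ → FT' N q ≤ K * FT' N q₀ ∧ FT' N q₀ ≤ K * FT' N q := by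
    intro q hq0 hq1
    exact H N q₀ q hN hq0 h0 (le_trans (show (q : ℝ) ≤ q₁ from hq1) h1)
      fun q' h2 h3 => hR q' h2 (h3.trans hq1)
  rw [Pr_eq_PrR hloc, Pr_eq_PrR hloc]
  have hmem : ∀ x ∈ Set.Icc (q₀ : ℝ) q₁, ∃ q : I, (q : ℝ) = x ∧ q₀ ≤ q ∧ q ≤ q₁ := by
    intro x hx
    exact ⟨⟨x, q₀.2.1.trans hx.1, hx.2.trans q₁.2.2⟩, rfl, hx.1, hx.2⟩
  have hcont : ContinuousOn (PrR (tEdges N) (Wind N)) (Set.Icc (q₀ : ℝ) q₁) := by
    intro x hx
    obtain ⟨q, rfl, hq0, hq1⟩ := hmem x hx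
    exact (hder q hq0 hq1).continuousAt.continuousWithinAt
  constructor
  · have h2 := Convex.mul_sub_le_image_sub_of_le_deriv (convex_Icc (q₀ : ℝ) q₁)
      (f := PrR (tEdges N) (Wind N)) hcont ?_ (C := FT' N q₀ / K) ?_ (q₀ : ℝ) ⟨le_rfl, h01'⟩
      (q₁ : ℝ) ⟨h01', le_rfl⟩ h01'
    · calc ((q₁ : ℝ) - q₀) * FT' N q₀ = K * (FT' N q₀ / K * ((q₁ : ℝ) - q₀)) := by
            field_simp
        _ ≤ _ := mul_le_mul_of_nonneg_left h2 hK.le
    · intro x hx
      rw [interior_Icc] at hx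
      obtain ⟨q, rfl, hq0, hq1⟩ := hmem x ⟨hx.1.le, hx.2.le⟩
      exact (hder q hq0 hq1).differentiableAt.differentiableWithinAt
    · intro x hx
      rw [interior_Icc] at hx
      obtain ⟨q, rfl, hq0, hq1⟩ := hmem x ⟨hx.1.le, hx.2.le⟩
      rw [(hder q hq0 hq1).deriv, div_le_iff₀ hK]
      linarith only [hst, hq0, hq1, (hst q hq0 hq1).2]
  · have h2 := Convex.image_sub_le_mul_sub_of_deriv_le (convex_Icc (q₀ : ℝ) q₁)
      (f := PrR (tEdges N) (Wind N)) hcont ?_ (C := K * FT' N q₀) ?_ (q₀ : ℝ) ⟨le_rfl, h01'⟩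
      (q₁ : ℝ) ⟨h01', le_rfl⟩ h01'
    · refine h2.trans (le_of_eq (by ring))
    · intro x hx
      rw [interior_Icc] at hx
      obtain ⟨q, rfl, hq0, hq1⟩ := hmem x ⟨hx.1.le, hx.2.le⟩
      exact (hder q hq0 hq1).differentiableAt.differentiableWithinAt
    · intro x hx
      rw [interior_Icc] at hx
      obtain ⟨q, rfl, hq0, hq1⟩ := hmem x ⟨hx.1.le, hx.2.le⟩
      rw [(hder q hq0 hq1).deriv]
      exact (hst q hq0 hq1).1

end Pool.Agent.H61.NC

end

section

/-!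
# The scale relation
-/

open MeasureTheory ProbabilityTheory unitInterval

namespace Pool.Agent.H61.NC

open Pool.Agent.H89.Perc

/-- Scale relation, upper bound. -/
theorem scale_upper (hGL : GLTorus) (hBL : BlockLow) : ∀ c : ℝ, 0 < c → ∃ C : ℝ, 0 < C ∧
    ∀ (N : ℕ) (q₀ q₁ : I), 64 ≤ N → q₀ ≤ q₁ → 1 / 4 ≤ (q₀ : ℝ) → (q₁ : ℝ) ≤ 3 / 4 →
      (∀ q : I, q₀ ≤ q → q ≤ q₁ → RSWreg c N q) →
      ((q₁ : ℝ) - q₀) * ((N : ℝ) ^ 2 * a4 q₀ (N / 64)) ≤ C := by
  intro c hc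
  obtain ⟨C, hC, H⟩ := le_FT' hGL hBL c hc
  obtain ⟨K, hK, HK⟩ := window hGL hBL c hc
  refine ⟨C * K, by positivity, fun N q₀ q₁ hN h01 h0 h1 hR => ?_⟩
  have h2 := H N q₀ hN (hR q₀ le_rfl h01)
  have h3 := (HK N q₀ q₁ hN h01 h0 h1 hR).1
  have h4 : Pr q₁ (Wind N) - Pr q₀ (Wind N) ≤ 1 := by
    have ha : Pr q₁ (Wind N) ≤ 1 := Pr_le_one
    have hb : 0 ≤ Pr q₀ (Wind N) := Pr_nonneg
    linarith only [ha, hb]
  have h5 : (0 : ℝ) ≤ (q₁ : ℝ) - q₀ := sub_nonneg.2 h01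
  calc ((q₁ : ℝ) - q₀) * ((N : ℝ) ^ 2 * a4 q₀ (N / 64))
      ≤ ((q₁ : ℝ) - q₀) * (C * FT' N q₀) := mul_le_mul_of_nonneg_left h2 h5
    _ = C * (((q₁ : ℝ) - q₀) * FT' N q₀) := by ring
    _ ≤ C * (K * (Pr q₁ (Wind N) - Pr q₀ (Wind N))) := mul_le_mul_of_nonneg_left h3 hC.le
    _ ≤ C * (K * 1) := by gcongr
    _ = C * K := by ring

/-- Scale relation, lower bound. -/
theorem scale_lower (hGL : GLTorus) (hBL : BlockLow) : ∀ c : ℝ, 0 < c → ∃ C : ℝ, 0 < C ∧
    ∀ (N r : ℕ) (q₀ q₁ : I), 64 ≤ N → 1 ≤ r → 2 * r + 2 ≤ N → q₀ ≤ q₁ →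
      1 / 4 ≤ (q₀ : ℝ) → (q₁ : ℝ) ≤ 3 / 4 →
      (∀ q : I, q₀ ≤ q → q ≤ q₁ → RSWreg c N q) →
      Pr q₁ (Wind N) - Pr q₀ (Wind N) ≤ C * (((q₁ : ℝ) - q₀) * ((N : ℝ) ^ 2 * a4 q₀ r)) := by
  intro c hc
  obtain ⟨K, hK, HK⟩ := window hGL hBL c hc
  refine ⟨K * 2, by positivity, fun N r q₀ q₁ hN hr hrN h01 h0 h1 hR => ?_⟩
  have h2 := FT'_le (N := N) (r := r) (by omega) q₀ hr hrN
  have h3 := (HK N q₀ q₁ hN h01 h0 h1 hR).2
  have h5 : (0 : ℝ) ≤ (q₁ : ℝ) - q₀ := sub_nonneg.2 h01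
  calc Pr q₁ (Wind N) - Pr q₀ (Wind N) ≤ K * (((q₁ : ℝ) - q₀) * FT' N q₀) := h3
    _ ≤ K * (((q₁ : ℝ) - q₀) * (2 * (N : ℝ) ^ 2 * a4 q₀ r)) := by gcongr
    _ = _ := by ring

end Pool.Agent.H61.NC

end

section

/-!
# A pivotal block of the torus is surrounded by two distinct crossing clusters
-/

open MeasureTheory ProbabilityTheory unitInterval

namespace Pool.Agent.H29.Sep

open Pool.Agent.H89.Perc Pool.Agent.H61.NC

end Pool.Agent.H29.Sep

end

section

/-!
# Quasi-multiplicativity for the planar annulus and the gluing inequality on the torus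
-/

open MeasureTheory ProbabilityTheory unitInterval

namespace Pool.Agent.H29.Sep

open Pool.Agent.H89.Perc Pool.Agent.H61.NC

end Pool.Agent.H29.Sep

end

section

/-! The sum of the components of the qKZ solution. -/

namespace H56.EX

open Finset


end H56.EX

end

section

/-! Stationarity of the homogeneous qKZ vector under the random row map of helper89. -/

namespace H56.EX

open Finset Pool.Agent.H89.Link

variable {L : ℕ}


end H56.EX

end

section

/-!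
# Small tori
-/

open MeasureTheory ProbabilityTheory unitInterval

namespace Pool.Agent.H26.ST

open Pool.Agent.H89.Perc Pool.Agent.H61.NC

end Pool.Agent.H26.ST

end

end

section

/-! The parts of this file: H90.NC.ArmMain, H83.EX.Exit, H47.EX.CylDet, H47.EX.CylProb, H56.EX.Recs, H56.EX.Main, H56.EX.Top, H56.EX.All, H34.Hom.P4, H34.Hom.Final, H89.EX.FourExp, H47.EX.CylMain, H47.EX.UpA4, H26.ST.Prob, H26.ST.Ext, H26.ST.Final. -/

section

/-!
# Stability of the one-arm probability in the near-critical window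
-/

open MeasureTheory ProbabilityTheory unitInterval

namespace Pool.Agent.H61.NC

open Pool.Agent.H89.Perc

theorem pivot_nonneg_of {q : I} {A : Set Config} (iA : Incr A) (e : Edge) : 0 ≤ pivot q A e := by
  unfold pivot
  refine sub_nonneg.2 (Pr_mono fun ω hω => iA _ _ (fun x hx => ?_) hω)
  by_cases hxe : x = e
  · subst hxe; simp
  · rw [Function.update_of_ne hxe] at hx ⊢; exact hx

/-- The derivative of the probability of `W0` is bounded by this probability times a sum of four-arm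
probabilities. -/
theorem deriv_W0 : ∀ c : ℝ, 0 < c → ∃ C : ℝ, 0 < C ∧
    ∀ (N : ℕ) (q : I) (S : ℝ), 64 ≤ N → 1 / 4 ≤ (q : ℝ) → RSWreg c N q → 1 ≤ S →
      ∑ t ∈ Finset.Icc 1 N, (t : ℝ) * a4 q t ≤ S → (N : ℝ) ^ 2 * a4 q (N / 64) ≤ S →
      ∑ f ∈ tEdges N, pivot q (W0 N) f ≤ C * Pr q (W0 N) * S := by
  classical
  intro c hc
  obtain ⟨E, hE, hext⟩ := arm_ext_reg c hc 64
  refine ⟨1800 + 1920 * (E * c⁻¹ ^ 4) + 2 * (E * c⁻¹ ^ 5),
    by positivity, fun N q S hN hq1 hR hS1 hsum hS2 => ?_⟩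
  have hNpos : (0 : ℝ) < N := by exact_mod_cast (by omega : 0 < N)
  have hN1 : 1 ≤ N := by omega
  obtain ⟨P, hP⟩ : ∃ P, P = Pr q (W0 N) := ⟨_, rfl⟩
  have hP0 : 0 ≤ P := by rw [hP]; exact Pr_nonneg
  rw [← hP]
  obtain ⟨g, hg⟩ : ∃ g, g = a4 q (N / 64) := ⟨_, rfl⟩
  have hg0 : 0 ≤ g := by rw [hg]; exact a4_nonneg _ _
  rw [← hg] at hS2
  have hcinv : ∀ (k : ℕ) (x y : ℝ), x * c ^ k ≤ y → x ≤ c⁻¹ ^ k * y := by
    intro k x y h
    rw [inv_pow, ← div_eq_inv_mul, le_div_iff₀ (by positivity)]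
    exact h
  -- bound of one term
  have hterm : ∀ f ∈ tEdges N, pivot q (W0 N) f ≤
      (if dist0 N f < 8 then 4 * P else 0) +
      (if 8 ≤ dist0 N f then E * c⁻¹ ^ 4 * P * a4 q (dist0 N f / 8) else 0) +
        E * c⁻¹ ^ 5 * P * g := by
    intro f hf
    have ha := a4_nonneg q (dist0 N f / 8)
    have hz : 0 ≤ E * c⁻¹ ^ 5 * P * g := by positivity
    by_cases h8 : dist0 N f < 8
    · rw [if_pos h8, if_neg (by omega)]
      have k1 := pivot_W0_small hN1 hq1 f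
      rw [← hP] at k1
      linarith only [hz, k1]
    · rw [if_neg h8, if_pos (by omega)]
      obtain ⟨t, ht⟩ : ∃ t, t = dist0 N f := ⟨_, rfl⟩
      rw [← ht] at ha h8 ⊢
      by_cases hnear : 8 * t < N
      · have k1 := pivot_W0_near q (ρ := t / 8) (ρ' := t / 8) (R := 2 * t - 1) hf (by omega)
          (by omega) (by omega) (by omega)
        have k2 := armGlue (q := q) hc.le (m := 2 * t) (R := 2 * t - 1) hR (by omega) (by omega)
        have k3 := hext N q (t / 8) (2 * (2 * t)) hR hq1 (by omega) (by omega) (by omega)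
        rw [← hP] at k2
        have k4 := hcinv 4 _ _ k2
        have k5 : arm q (t / 8) * Pr q (OutArm N (2 * t - 1)) ≤ E * c⁻¹ ^ 4 * P := by
          calc arm q (t / 8) * Pr q (OutArm N (2 * t - 1))
              ≤ E * arm q (2 * (2 * t)) * Pr q (OutArm N (2 * t - 1)) :=
                mul_le_mul_of_nonneg_right k3 Pr_nonneg
            _ = E * (arm q (2 * (2 * t)) * Pr q (OutArm N (2 * t - 1))) := by ring
            _ ≤ E * (c⁻¹ ^ 4 * P) := mul_le_mul_of_nonneg_left k4 hE.le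
            _ = _ := by ring
        have k6 := mul_le_mul_of_nonneg_left k5 ha
        have k7 : a4 q (t / 8) * (E * c⁻¹ ^ 4 * P) = E * c⁻¹ ^ 4 * P * a4 q (t / 8) := by ring
        linarith only [hz, k1, k6]
      · have k1 := pivot_W0_far q (ρ := N / 64) (ρ' := N / 64) hf (by omega) (by omega)
        have k3 := W0_lower (q := q) hc.le (m := (N - 1) / 4) hR (by omega) (by omega) (by omega)
        have k4 := hext N q (N / 64) (2 * ((N - 1) / 4)) hR hq1 (by omega) (by omega) (by omega)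
        rw [← hP] at k3
        rw [← hg] at k1
        have k5 := hcinv 5 _ _ k3
        have k6 : arm q (N / 64) ≤ E * c⁻¹ ^ 5 * P := by
          calc arm q (N / 64) ≤ E * arm q (2 * ((N - 1) / 4)) := k4
            _ ≤ E * (c⁻¹ ^ 5 * P) := mul_le_mul_of_nonneg_left k5 hE.le
            _ = _ := by ring
        have k7 : g * arm q (N / 64) ≤ g * (E * c⁻¹ ^ 5 * P) :=
          mul_le_mul_of_nonneg_left k6 hg0
        have k8 : 0 ≤ E * c⁻¹ ^ 4 * P * a4 q (t / 8) := by positivity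
        have k9 : g * (E * c⁻¹ ^ 5 * P) = E * c⁻¹ ^ 5 * P * g := by ring
        linarith only [k1, k7, k8]
  have p1 : ∑ f ∈ tEdges N, (if dist0 N f < 8 then 4 * P else 0) ≤ 1800 * P := by
    rw [← Finset.sum_filter, Finset.sum_const, nsmul_eq_mul]
    have k := Sum_card_small N
    nlinarith only [hP0, k]
  have p2 : ∑ f ∈ tEdges N, (if 8 ≤ dist0 N f then
      E * c⁻¹ ^ 4 * P * a4 q (dist0 N f / 8) else 0) ≤
      1920 * (E * c⁻¹ ^ 4) * P * S := by
    rw [← Finset.sum_filter, ← Finset.mul_sum]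
    have k1 := Sum_by_dist N (fun t => a4 q (t / 8)) (fun t => a4_nonneg q _)
    have k2 := Sum_eight N (fun t => a4 q t) (fun t => a4_nonneg q _)
    have k3 : ∑ t ∈ Finset.Icc 8 N, 16 * (t : ℝ) * a4 q (t / 8) =
        16 * ∑ t ∈ Finset.Icc 8 N, (t : ℝ) * a4 q (t / 8) := by
      rw [Finset.mul_sum]
      exact Finset.sum_congr rfl fun t _ => by ring
    have k4 : ∑ f ∈ (tEdges N).filter (fun f => 8 ≤ dist0 N f), a4 q (dist0 N f / 8) ≤
        1920 * S := by
      refine k1.trans ?_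
      rw [k3]
      linarith only [hsum, k2]
    calc E * c⁻¹ ^ 4 * P * ∑ f ∈ (tEdges N).filter (fun f => 8 ≤ dist0 N f), a4 q (dist0 N f / 8)
        ≤ E * c⁻¹ ^ 4 * P * (1920 * S) :=
          mul_le_mul_of_nonneg_left k4 (by positivity)
      _ = _ := by ring
  have p3 : ∑ _f ∈ tEdges N, E * c⁻¹ ^ 5 * P * g = 2 * (E * c⁻¹ ^ 5) * P * ((N : ℝ) ^ 2 * g) := by
    rw [Finset.sum_const, nsmul_eq_mul, Sum_card_tEdges]
    ring
  have p3' : 2 * (E * c⁻¹ ^ 5) * P * ((N : ℝ) ^ 2 * g) ≤ 2 * (E * c⁻¹ ^ 5) * P * S :=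
    mul_le_mul_of_nonneg_left hS2 (by positivity)
  have p4 : 1800 * P ≤ 1800 * P * S := le_mul_of_one_le_right (by positivity) hS1
  calc ∑ f ∈ tEdges N, pivot q (W0 N) f
      ≤ ∑ f ∈ tEdges N, ((if dist0 N f < 8 then 4 * P else 0) +
        (if 8 ≤ dist0 N f then E * c⁻¹ ^ 4 * P * a4 q (dist0 N f / 8) else 0) +
        E * c⁻¹ ^ 5 * P * g) := Finset.sum_le_sum hterm
    _ = ∑ f ∈ tEdges N, (if dist0 N f < 8 then 4 * P else 0) +
        ∑ f ∈ tEdges N, (if 8 ≤ dist0 N f then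
          E * c⁻¹ ^ 4 * P * a4 q (dist0 N f / 8) else 0) +
        ∑ _f ∈ tEdges N, E * c⁻¹ ^ 5 * P * g := by
        rw [Finset.sum_add_distrib, Finset.sum_add_distrib]
    _ ≤ 1800 * P * S + 1920 * (E * c⁻¹ ^ 4) * P * S + 2 * (E * c⁻¹ ^ 5) * P * S := by
        rw [p3]
        linarith only [p1, p2, p3', p4]
    _ = _ := by ring

/-- A lower bound shows that the probability of `W0` is positive. -/
theorem W0_pos {c : ℝ} (hc : 0 < c) {q : I} {N : ℕ} (hN : 64 ≤ N) (hq : 1 / 4 ≤ (q : ℝ))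
    (hR : RSWreg c N q) : 0 < Pr q (W0 N) := by
  have k1 := W0_lower (q := q) hc.le (m := (N - 1) / 4) hR (by omega) (by omega)
    (by omega)
  have k2 := arm_ge_pow (q := q) hq (le_refl (2 * ((N - 1) / 4)))
  have k3 : 0 < arm q (2 * ((N - 1) / 4)) := lt_of_lt_of_le (by positivity) k2
  exact lt_of_lt_of_le (by positivity) k1

/-- Stability of the probability of `W0`, abstract form: `F` is a function with values in `[0, 1]`
whose derivative dominates the sums of four-arm probabilities. -/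
theorem W0_stability : ∀ c : ℝ, 0 < c → ∃ C : ℝ, 0 < C ∧
    ∀ (N : ℕ) (q₀ q₁ : I) (F F' : ℝ → ℝ), 64 ≤ N → q₀ ≤ q₁ → 1 / 4 ≤ (q₀ : ℝ) →
      (∀ x ∈ Set.Icc (q₀ : ℝ) q₁, HasDerivAt F (F' x) x) →
      (∀ x ∈ Set.Icc (q₀ : ℝ) q₁, 0 ≤ F x ∧ F x ≤ 1) → ∀ B : ℝ, 0 < B →
      (∀ q : I, q₀ ≤ q → q ≤ q₁ → RSWreg c N q ∧ 1 ≤ B * F' q ∧
        ∑ t ∈ Finset.Icc 1 N, (t : ℝ) * a4 q t ≤ B * F' q ∧
        (N : ℝ) ^ 2 * a4 q (N / 64) ≤ B * F' q) →
      Pr q₁ (W0 N) ≤ Real.exp (C * B) * Pr q₀ (W0 N) := by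
  intro c hc
  obtain ⟨C, hC, H⟩ := deriv_W0 c hc
  refine ⟨C, hC, fun N q₀ q₁ F F' hN h01 h0 hF hF01 B hB hR => ?_⟩
  have hN1 : 1 ≤ N := by omega
  have hloc0 := localOn_W0 hN1
  have hle : (q₀ : ℝ) ≤ q₁ := h01
  have hmem : ∀ x ∈ Set.Icc (q₀ : ℝ) q₁, ∃ q : I, (q : ℝ) = x ∧ q₀ ≤ q ∧ q ≤ q₁ ∧
      1 / 4 ≤ (q : ℝ) := by
    intro x hx
    refine ⟨⟨x, q₀.2.1.trans hx.1, hx.2.trans q₁.2.2⟩, rfl, hx.1, hx.2, ?_⟩
    exact h0.trans hx.1
  have key := log_stability (F := F) (F' := F')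
    (G := PrR (tEdges N) (W0 N)) (G' := PrR' (tEdges N) (W0 N)) (K := C * B) hle
    (mul_nonneg hC.le hB.le) hF ?_ ?_ ?_ hF01
  · rw [Pr_eq_PrR hloc0, Pr_eq_PrR hloc0]
    exact key.1
  · intro x hx
    obtain ⟨q, rfl, -⟩ := hmem x hx
    exact hasDerivAt_PrR_eq hloc0 q
  · intro x hx
    obtain ⟨q, rfl, g1, g2, g3⟩ := hmem x hx
    rw [← Pr_eq_PrR hloc0]
    exact W0_pos hc hN g3 (hR q g1 g2).1
  · intro x hx
    obtain ⟨q, rfl, g1, g2, g3⟩ := hmem x hx
    obtain ⟨j1, j2, j3, j4⟩ := hR q g1 g2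
    rw [PrR'_eq hloc0, ← Pr_eq_PrR hloc0,
      abs_of_nonneg (Finset.sum_nonneg fun e _ => pivot_nonneg_of (incr_W0 N) e)]
    refine (H N q _ hN g3 j1 j2 j3 j4).trans (le_of_eq ?_)
    ring

/-- From the stability of `W0` to the stability of the one-arm probability. -/
theorem arm_of_W0 : ∀ c : ℝ, 0 < c → ∃ C : ℝ, 0 < C ∧ ∀ (N : ℕ) (q₀ q₁ : I) (K : ℝ), 0 ≤ K →
    1 / 4 ≤ (q₀ : ℝ) → RSWreg c N q₀ → RSWreg c N q₁ →
    (64 ≤ N → Pr q₁ (W0 N) ≤ K * Pr q₀ (W0 N)) → arm q₁ N ≤ (C * (K + 1)) * arm q₀ N := by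
  intro c hc
  obtain ⟨E, hE, hext⟩ := arm_ext_reg c hc 64
  refine ⟨c⁻¹ ^ 5 * E + 4 ^ 64, by positivity, fun N q₀ q₁ K hK h0 hR0 hR1 H => ?_⟩
  have ha : 0 ≤ arm q₀ N := arm_nonneg
  have e1 : (c⁻¹ ^ 5 * E + 4 ^ 64) * (K + 1) * arm q₀ N =
      c⁻¹ ^ 5 * K * E * arm q₀ N + c⁻¹ ^ 5 * E * arm q₀ N + K * (4 ^ 64 * arm q₀ N) +
        4 ^ 64 * arm q₀ N := by ring
  have e2 : 0 ≤ c⁻¹ ^ 5 * K * E * arm q₀ N := by positivity
  have e3 : 0 ≤ c⁻¹ ^ 5 * E * arm q₀ N := by positivity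
  have e4 : 0 ≤ K * (4 ^ 64 * arm q₀ N) := by positivity
  have e5 : 0 ≤ 4 ^ 64 * arm q₀ N := by positivity
  by_cases hN : N < 64
  · have k1 := arm_ge_pow (q := q₀) h0 hN.le
    have k2 : 1 ≤ 4 ^ 64 * arm q₀ N := by
      calc (1 : ℝ) = 4 ^ 64 * (1 / 4 : ℝ) ^ 64 := by norm_num
        _ ≤ _ := mul_le_mul_of_nonneg_left k1 (by positivity)
    have k3 := arm_le_one (p := q₁) (r := N)
    linarith only [e2, e3, e4, k1, k3]
  · push Not at hN
    have k1 := W0_lower (q := q₁) hc.le (m := (N - 1) / 4) hR1 (by omega) (by omega) (by omega)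
    have k2 : arm q₁ (2 * ((N - 1) / 4)) ≤ c⁻¹ ^ 5 * Pr q₁ (W0 N) := by
      rw [inv_pow, ← div_eq_inv_mul, le_div_iff₀ (by positivity)]
      exact k1
    have k3 : arm q₁ N ≤ arm q₁ (2 * ((N - 1) / 4)) := arm_antitone (by omega)
    have k4 := H hN
    have k5 : Pr q₀ (W0 N) ≤ arm q₀ ((N - 1) / 2) := W0_upper (by omega)
    have k6 := hext N q₀ ((N - 1) / 2) N hR0 h0 (by omega) (by omega) le_rfl
    have k7 : arm q₁ N ≤ c⁻¹ ^ 5 * K * E * arm q₀ N := by
      calc arm q₁ N ≤ c⁻¹ ^ 5 * Pr q₁ (W0 N) := k3.trans k2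
        _ ≤ c⁻¹ ^ 5 * (K * Pr q₀ (W0 N)) := by gcongr
        _ ≤ c⁻¹ ^ 5 * (K * arm q₀ ((N - 1) / 2)) := by gcongr
        _ ≤ c⁻¹ ^ 5 * (K * (E * arm q₀ N)) := by gcongr
        _ = c⁻¹ ^ 5 * K * E * arm q₀ N := by ring
    linarith only [ha, e3, e4, k7]

end Pool.Agent.H61.NC

end

section

/-!
# The characteristic length

`Len δ p` is the first scale `m` at which the square of side `4 m` is crossed with probability at
least `1 - δ`.  Up to a multiple of this length the box-crossing property holds for all densities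
between `1 - p` and `p`, and beyond it the percolation probability and the mean cluster size are
computed by the one-arm probability at `1 / 2`.
-/

open MeasureTheory ProbabilityTheory unitInterval Filter Topology
open scoped ENNReal

namespace Pool.Agent.H83.EX

open Pool.Agent.H89.Perc Pool.Agent.H61.NC Pool.Agent.H31.EX

lemma half_val : ((half : I) : ℝ) = 1 / 2 := rfl

lemma Good.mono {δ δ' : ℝ} (h : δ ≤ δ') {p : I} {m : ℕ} (hg : Good δ p m) : Good δ' p m := by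
  unfold Good at hg ⊢
  linarith

/-- The characteristic length. -/
noncomputable def Len (δ : ℝ) (p : I) : ℕ := sInf {m : ℕ | 1 ≤ m ∧ Good δ p m}

lemma Len_spec {δ : ℝ} {p : I} (h : ∃ m : ℕ, 1 ≤ m ∧ Good δ p m) :
    1 ≤ Len δ p ∧ Good δ p (Len δ p) := Nat.sInf_mem h

lemma not_good_of_lt {δ : ℝ} {p : I} {m : ℕ} (hm : 1 ≤ m) (h : m < Len δ p) : ¬ Good δ p m :=
  fun hg => Nat.notMem_of_lt_sInf h ⟨hm, hg⟩

lemma le_Len {δ : ℝ} {p : I} {m₀ : ℕ} (h : ∃ m : ℕ, 1 ≤ m ∧ Good δ p m)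
    (hb : ∀ m : ℕ, 1 ≤ m → m < m₀ → ¬ Good δ p m) : m₀ ≤ Len δ p := by
  by_contra hlt
  push Not at hlt
  exact hb _ (Len_spec h).1 hlt (Len_spec h).2

lemma rsw_anti {c : ℝ} {n m : ℕ} {q : I} (h : RSWreg c n q) (hm : m ≤ n) : RSWreg c m q :=
  fun k hk hkm => h k hk (hkm.trans hm)

lemma sigma_le_half {p : I} (hp : half ≤ p) : σ p ≤ half := by
  have h : ((half : I) : ℝ) ≤ (p : ℝ) := hp
  change (1 - (p : ℝ)) ≤ ((half : I) : ℝ)
  rw [half_val] at h ⊢
  linarith only [h]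

/-- The box-crossing property up to a multiple of the first good scale. -/
theorem reg_of_bad : ∀ δ > (0 : ℝ), ∀ K : ℕ, ∃ c > (0 : ℝ), ∀ p : I, half ≤ p → ∀ n : ℕ, 2 ≤ n →
    (∀ m : ℕ, 1 ≤ m → m < n → ¬ Good δ p m) → ∀ q : I, σ p ≤ q → q ≤ p → RSWreg c (K * n) q := by
  intro δ hδ K
  obtain ⟨c, hc, H⟩ := rswreg_of_bad δ hδ (2 * K)
  refine ⟨c, hc, fun p hp n hn hb q h1 h2 => ?_⟩
  have h3 := H p hp (n - 1) (by omega) (fun m hm hmn => by
    have := hb m hm (by omega)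
    unfold Good at this
    linarith only [this]) q h1 h2
  refine rsw_anti h3 ?_
  obtain ⟨k, rfl⟩ : ∃ k, n = k + 2 := ⟨n - 2, by omega⟩
  have : k + 2 - 1 = k + 1 := by omega
  rw [this]
  nlinarith only

/-- Continuity: small scales are bad near `1 / 2`. -/
theorem bad_near {δ : ℝ} (hbad : ∀ m : ℕ, 1 ≤ m → ¬ Good δ half m) (m₀ : ℕ) :
    ∃ η > (0 : ℝ), ∀ p : I, half ≤ p → (p : ℝ) < 1 / 2 + η → ∀ m : ℕ, 1 ≤ m → m < m₀ →
      ¬ Good δ p m := by
  induction m₀ with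
  | zero => exact ⟨1, one_pos, fun p _ _ m _ hm => absurd hm (by omega)⟩
  | succ k ih =>
    obtain ⟨η, hη, H⟩ := ih
    by_cases hk : 1 ≤ k
    · have hl := localOn_hcross 0 (4 * (k : ℤ)) 0 (4 * (k : ℤ))
      have h1 : Pr half {ω | HCross ω 0 (4 * k) 0 (4 * k)} < 1 - δ := by
        have := hbad k hk
        unfold Good at this
        linarith only [this]
      have h2 : ContinuousAt (PrR (eRect 0 (4 * (k : ℤ)) 0 (4 * (k : ℤ)))
          {ω | HCross ω 0 (4 * k) 0 (4 * k)}) ((half : I) : ℝ) :=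
        (hasDerivAt_PrR_eq hl half).continuousAt
      rw [Pr_eq_PrR hl] at h1
      have h3 := h2.eventually_lt_const h1
      rw [Metric.eventually_nhds_iff] at h3
      obtain ⟨η', hη', h3⟩ := h3
      refine ⟨min η η', lt_min hη hη', fun p hp hp1 m hm hmk => ?_⟩
      rcases Nat.lt_succ_iff_lt_or_eq.1 hmk with h | h
      · exact H p hp (hp1.trans_le (by linarith only [min_le_left η η'])) m hm h
      · subst h
        have h4 := h3 (y := (p : ℝ)) (by
          rw [Real.dist_eq, half_val]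
          have : ((half : I) : ℝ) ≤ (p : ℝ) := hp
          rw [half_val] at this
          rw [abs_of_nonneg (by linarith only [this])]
          linarith only [hp1, min_le_right η η'])
        rw [← Pr_eq_PrR hl] at h4
        unfold Good
        linarith only [h4]
    · exact ⟨η, hη, fun p hp hp1 m hm hmk => H p hp hp1 m hm (by omega)⟩

theorem theta_le_arm (p : I) (n : ℕ) : theta p ≤ arm p n :=
  le_of_tendsto (tendsto_arm p) (by
    filter_upwards [eventually_ge_atTop n] with r hr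
    exact arm_antitone hr)

lemma half_le {p : I} (hp : (1 / 2 : ℝ) < p) : half ≤ p := by
  change ((half : I) : ℝ) ≤ (p : ℝ)
  rw [half_val]
  exact hp.le

end Pool.Agent.H83.EX

end

section

/-!
# From the separated event to two winding clusters: deterministic part
-/

set_option autoImplicit false

open MeasureTheory ProbabilityTheory unitInterval

namespace Pool.Agent.H47.EX

open Pool.Agent.H89.Perc hiding per
open Pool.Agent.H59.EX
open Pool.Agent.H89.Link (per base strip xx yy)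

/-! ### The crossing event -/

/-! ### Clusters -/

/-! ### Winding -/

end Pool.Agent.H47.EX

end

section

/-!
# From the separated event to two winding clusters: probability
-/

set_option autoImplicit false

open MeasureTheory ProbabilityTheory unitInterval

namespace Pool.Agent.H47.EX

open Pool.Agent.H89.Perc hiding per
open Pool.Agent.H59.EX
open Pool.Agent.H61.NC (RSWreg)
open Pool.Agent.H89.Link (per base)

end Pool.Agent.H47.EX

end

section

/-! Recursions of `F22`, `F13`. -/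

namespace H56.EX

open scoped BigOperators Classical


end H56.EX

end

section

/-! Main theorem: the explicit leg functions. -/

namespace H56.EX

open Finset Pool.Agent.H96.EX


end H56.EX

end

section

/-! The topological lemmas collected. -/

namespace H56.EX

end H56.EX

end

section

/-! The leg formula for all nonzero parameters, in terms of the polynomial `S4`. -/

namespace H56.EX

open Finset Filter Topology


end H56.EX

end

section

/-!
# The homogeneous four-leg function is `f4`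
-/

namespace Pool.Agent.H34.Hom

open Finset Pool.Agent.H96.EX Filter Topology

end Pool.Agent.H34.Hom

end

section

/-!
# The homogeneous values: sum of the components and four-leg function
-/

set_option autoImplicit false

namespace Pool.Agent.H34.Hom

open Finset

end Pool.Agent.H34.Hom

end

section

/-!
# The four-arm exponent of the square lattice at `1 / 2`

The four-leg sum of the stationary vector of the cylinder of circumference `2 n` gives the
probability of four arms up to constants.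
-/

set_option autoImplicit false

open MeasureTheory ProbabilityTheory unitInterval Filter Topology

namespace Pool.Agent.H89.EX

open H56.EX
open Pool.Agent.H89.Link
open Pool.Agent.H89.Perc (Vert Edge Config Pr half)
open Pool.Agent.H61.NC (a4 a4_nonneg)
open Pool.Agent.H31.EX (PN)
open Pool.Agent.H34.Hom (p4)

end Pool.Agent.H89.EX

end

section

/-!
# Four arms of the plane can be continued to the four-leg event of the cylinder
-/

set_option autoImplicit false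

open MeasureTheory ProbabilityTheory unitInterval

namespace Pool.Agent.H47.EX

open Pool.Agent.H89.Perc hiding per
open Pool.Agent.H59.EX
open Pool.Agent.H61.NC (a4 RSWreg)
open Pool.Agent.H89.Link (per FourD)

end Pool.Agent.H47.EX

end

section

/-!
# The upper bound `UpA4` on the four-arm probability of the plane by that of the cylinder
-/

set_option autoImplicit false

open MeasureTheory ProbabilityTheory unitInterval

namespace Pool.Agent.H47.EX

open Pool.Agent.H89.Perc hiding per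
open Pool.Agent.H59.EX
open Pool.Agent.H29.Sep (BadIn)

end Pool.Agent.H47.EX

end

section

/-!
# Probabilities of the corridor event and of the seals; locality
-/

open MeasureTheory ProbabilityTheory unitInterval

namespace Pool.Agent.H26.ST

open Pool.Agent.H89.Perc Pool.Agent.H61.NC Pool.Agent.H59.EX

end Pool.Agent.H26.ST

end

section

/-!
# A separated four-arm event costs at most a pivotal edge of the torus
-/

open MeasureTheory ProbabilityTheory unitInterval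

namespace Pool.Agent.H26.ST

open Pool.Agent.H89.Perc Pool.Agent.H61.NC Pool.Agent.H59.EX

end Pool.Agent.H26.ST

end

section

/-!
# `SepTorus`
-/

open MeasureTheory ProbabilityTheory unitInterval

namespace Pool.Agent.H26.ST

open Pool.Agent.H89.Perc Pool.Agent.H61.NC Pool.Agent.H59.EX
open Pool.Agent.H29.Sep (BadIn SepTorus)

end Pool.Agent.H26.ST

end

end
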