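import Pool.Agent.H94.BG.H31.PT.M05
import Pool.Agent.H94.BG.H31.PT.M16_3
import Pool.Agent.H94.BG.H31.PT.M38_2
import Pool.Agent.H94.BG.M03

/-! The parts of this file: H31.PT.M38_6, H31.PT.M38_3. -/

section

/-! The parts of this file: H29.Kap.Analysis, H29.Kap.Rem, H29.Kap.Analysis3, H29.Kap.DerivBound, H29.Kap.TupleSum, H29.Kap.ExpMom, H29.Kap.EdgeDuality, H29.Kap.Pivot, H29.Kap.TupleSum3, H89.Perc.EdgeDual, H29.Kap.ThreeArms, H29.Kap.CrossMom, H29.Kap.SecondDiff, H29.Kap.StabA, H29.Kap.StabB, H29.Kap.Count, H29.Kap.Tilt, H29.Kap.Sens, H29.Kap.Invar, H29.Kap.Euler, H29.Kap.EulerExp, H29.Kap.Geo, H29.Kap.ArmRatio, H31.AL.Defs. -/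

section

/-! # Analysis of the scale decomposition -/

set_option autoImplicit false

namespace Pool.Agent.H29.Kap

end Pool.Agent.H29.Kap

end

section

/-! # The remainder of the second order expansion at `1/2` -/

set_option autoImplicit false

namespace Pool.Agent.H29.Kap

end Pool.Agent.H29.Kap

end

section

/-! # Analysis of the scale decomposition, without logarithms -/

set_option autoImplicit false

namespace Pool.Agent.H29.Kap

end Pool.Agent.H29.Kap

end

section

/-! # Derivative of an expectation with respect to the density -/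

set_option autoImplicit false

namespace Pool.Agent.H29.Kap

open Pool.Agent.Perc

variable {ι : Type*} [DecidableEq ι]

end Pool.Agent.H29.Kap

end

section

/-! # A sum over tuples of edges -/

set_option autoImplicit false

namespace Pool.Agent.H29.Kap

open Pool.Agent.H89.Perc

/-! ### The abstract inequality -/

section abstract_part

variable {α : Type*} [DecidableEq α]

end abstract_part

/-! ### One dimensional sums -/

/-! ### Sums over the edges of a rectangle -/

end Pool.Agent.H29.Kap

end

section

/-! # Exponential moments of the size of `R` -/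

set_option autoImplicit false

namespace Pool.Agent.H29.Kap

open Pool.Agent.H89.Perc Pool.Agent.Perc

end Pool.Agent.H29.Kap

end

section

/-! # Duality for a single edge in a rectangle -/

set_option autoImplicit false

namespace Pool.Agent.H29.Kap

open Pool.Agent.H89.Perc

end Pool.Agent.H29.Kap

end

section

/-! # Edges which matter outside `D` but not inside `D` have two arms in `D` -/

set_option autoImplicit false

namespace Pool.Agent.H29.Kap

open Pool.Agent.H89.Perc

end Pool.Agent.H29.Kap

end

section

/-! # A sum over tuples of edges, exponent `2/3` -/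

set_option autoImplicit false

namespace Pool.Agent.H29.Kap

open Pool.Agent.H89.Perc

end Pool.Agent.H29.Kap

end

section

/-!
# Pivotal edges and closed dual paths
-/

namespace Pool.Agent.H89.Perc

end Pool.Agent.H89.Perc

end

section

/-! # Two disjoint open arms and one closed dual arm on a line -/

set_option autoImplicit false

namespace Pool.Agent.H29.Kap

open Pool.Agent.H89.Perc

/-- Step (2). -/
lemma threearms_two {ω : Config} {W : ℤ} (hW : 4 ≤ W)
    (h2 : HCross (dual ω) (-W - 1) W (-W) (-2))
    (h3 : VCross (dual ω) (-W) (W - 1) (-3 * W - 1) (-2)) :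
    ¬ HCross (threearms_w ω (-W - 1)) (-W) W (-3 * W) (3 * W) := by
  intro hcon
  refine not_hcross_and_dual_vcross (by omega) hcon ?_
  obtain ⟨φ, ψ, hφ, hψ, hc⟩ := h3
  obtain ⟨φ', ψ', hφ', hψ', hc1, hc2, -⟩ := hc.cross_y (a := -W) (b := -2) (by omega) (by omega)
    (by omega)
  obtain ⟨u, v, hu, hv, hd⟩ := h2
  obtain ⟨u', v', hu', hv', hd1, -, -⟩ := hd.cross_x (a := -W) (b := W - 1) (by omega) (by omega)
    (by omega)
  have e1 : Conn (dual ω) (rect (-W) (W - 1) (-W) (-2)) φ' ψ' := by
    refine hc1.mono_set ?_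
    rintro ⟨a, b⟩ ⟨hab, hab'⟩
    simp only [rect, Set.mem_ofPred_eq] at hab hab' ⊢
    omega
  have e2 : Conn (dual ω) (rect (-W) (W - 1) (-W) (-2)) u' v' := by
    refine hd1.mono_set ?_
    rintro ⟨a, b⟩ ⟨hab, hab'⟩
    simp only [rect, Set.mem_ofPred_eq] at hab hab' ⊢
    omega
  obtain ⟨w0, k1, k2⟩ := cross e2 hu' hv' e1 hφ' hψ'
  obtain ⟨w1, w2, hw1, -, -, k3, -⟩ := e2.cross_x (a := -1) (b := -1) (by omega) (by omega) le_rfl
  have k4 : Conn (dual ω) (rect (-W) (W - 1) (-W) (-2)) φ' w1 :=
    k2.trans (k1.symm.trans k3)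
  have hw1m := k4.mem_right
  simp only [rect, Set.mem_ofPred_eq] at hw1m
  have k5 : Conn (dual ω) (rect (-W) (W - 1) (-3 * W - 1) (3 * W)) φ w1 := by
    refine Conn.trans (hc2.mono_set ?_) (k4.mono_set ?_)
    · rintro ⟨a, b⟩ hab
      simp only [rect, Set.mem_ofPred_eq] at hab ⊢
      omega
    · rintro ⟨a, b⟩ hab
      simp only [rect, Set.mem_ofPred_eq] at hab ⊢
      omega
  have k6 : Conn (dual (threearms_w ω (-W - 1))) (rect (-W) (W - 1) (-3 * W - 1) (3 * W)) φ w1 := by
    refine k5.mono (le_refl _) ?_
    intro e he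
    simp only [dual, Bool.not_eq_true'] at he ⊢
    by_contra hne
    rw [Bool.not_eq_false] at hne
    rw [threearms_le hne] at he
    exact absurd he (by decide)
  have hw1' : w1 = (-1, w1.2) := Prod.ext hw1 rfl
  rw [hw1'] at k6
  exact ⟨φ, _, hφ, rfl, k6.trans (threearms_up hW (by omega) (by omega) (by omega))⟩

end Pool.Agent.H29.Kap

end

section

/-! # Second moment of the number of crossing clusters for `p ≤ 1/2` -/

set_option autoImplicit false

namespace Pool.Agent.H29.Kap

open Pool.Agent.H89.Perc Pool.Agent.Perc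

/-- Gluing of two horizontal crossings with a vertical crossing of the overlap. -/
theorem crossmom_glue {ω : Config} {a a' b b' c d : ℤ} (h1 : a ≤ a') (h2 : a' ≤ b) (h3 : b ≤ b')
    (hA : HCross ω a b c d) (hB : HCross ω a' b' c d) (hV : VCross ω a' b c d) :
    HCross ω a b' c d := by
  obtain ⟨u, v, hu, hv, hc⟩ := hA
  obtain ⟨x, y, hx, hy, hc'⟩ := hB
  obtain ⟨p, q, hp, hq, hw⟩ := hV
  obtain ⟨u1, v1, hu1, hv1, k1, k2, k3⟩ := hc.cross_x (a := a') (b := b) (by omega) (by omega) h2
  obtain ⟨x1, y1, hx1, hy1, l1, l2, l3⟩ := hc'.cross_x (a := a') (b := b) (by omega) (by omega) h2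
  have s1 : rect a b c d ∩ {w | a' ≤ w.1 ∧ w.1 ≤ b} ⊆ rect a' b c d := by
    rintro w ⟨m1, m2⟩
    simp only [rect, Set.mem_ofPred_eq] at m1 m2 ⊢
    omega
  have s2 : rect a' b' c d ∩ {w | a' ≤ w.1 ∧ w.1 ≤ b} ⊆ rect a' b c d := by
    rintro w ⟨m1, m2⟩
    simp only [rect, Set.mem_ofPred_eq] at m1 m2 ⊢
    omega
  obtain ⟨w1, n1, n2⟩ := cross (k1.mono_set s1) hu1 hv1 hw hp hq
  obtain ⟨w2, n3, n4⟩ := cross (l1.mono_set s2) hx1 hy1 hw hp hq
  have t1 : rect a b c d ⊆ rect a b' c d := by
    intro w m1
    simp only [rect, Set.mem_ofPred_eq] at m1 ⊢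
    omega
  have t2 : rect a' b' c d ⊆ rect a b' c d := by
    intro w m1
    simp only [rect, Set.mem_ofPred_eq] at m1 ⊢
    omega
  have t3 : rect a' b c d ⊆ rect a b' c d := by
    intro w m1
    simp only [rect, Set.mem_ofPred_eq] at m1 ⊢
    omega
  refine ⟨u, y, hu, hy, ?_⟩
  have r1 : Conn ω (rect a b' c d) u w1 := (k2.mono_set t1).trans (n1.mono_set t3)
  have r2 : Conn ω (rect a b' c d) w1 w2 := ((n2.mono_set t3).symm).trans (n4.mono_set t3)
  have r3 : Conn ω (rect a b' c d) w2 x1 := (n3.mono_set t3).symm
  have r4 : Conn ω (rect a b' c d) x1 y := ((l2.mono_set t2).symm).trans (hc'.mono_set t2)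
  exact ((r1.trans r2).trans r3).trans r4

end Pool.Agent.H29.Kap

end

section

/-! # Second differences of cluster counts are bounded by the number of crossing clusters -/

set_option autoImplicit false

namespace Pool.Agent.H29.Kap

open Pool.Agent.H89.Perc

end Pool.Agent.H29.Kap

end

section

/-! # Stability of the set `R` under changes of an edge without open arm -/

set_option autoImplicit false

namespace Pool.Agent.H29.Kap

open Pool.Agent.H89.Perc

end Pool.Agent.H29.Kap

end

section

/-! # Stability of the set `R` under changes of an edge without closed dual arm -/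

set_option autoImplicit false

namespace Pool.Agent.H29.Kap

open Pool.Agent.H89.Perc

end Pool.Agent.H29.Kap

end

section

/-! # Cluster counts: effect of one edge, locality, simple bounds -/

set_option autoImplicit false

namespace Pool.Agent.H29.Kap

open Pool.Agent.H89.Perc

end Pool.Agent.H29.Kap

end

section

/-! # Tilting on a stable random set -/

set_option autoImplicit false

namespace Pool.Agent.H29.Kap

open Pool.Agent.Perc

variable {ι : Type*} [DecidableEq ι]

end Pool.Agent.H29.Kap

end

section

/-! # The second difference `X` does not change when an edge outside `R` is flipped -/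

set_option autoImplicit false

namespace Pool.Agent.H29.Kap

open Pool.Agent.H89.Perc

end Pool.Agent.H29.Kap

end

section

/-! # Expected cluster counts: invariance and limit -/

set_option autoImplicit false

namespace Pool.Agent.H29.Kap

open Pool.Agent.H89.Perc Pool.Agent.Perc

theorem invar_ofS_inter {S : Finset Edge} {G : Finset Edge} {e : Edge} (he : e ∈ G) :
    ofS S e = ofS (S ∩ G) e := by
  rw [ofS_apply, ofS_apply, decide_eq_decide, Finset.mem_inter]
  exact ⟨fun x => ⟨x, he⟩, fun x => x.1⟩

theorem invar_ofS_image {S : Finset Edge} {φ : Edge → Edge} (hφ : Function.Injective φ) :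
    (fun e => ofS (S.image φ) (φ e)) = ofS S := by
  funext e
  rw [ofS_apply, ofS_apply, decide_eq_decide, Finset.mem_image]
  constructor
  · rintro ⟨x, hx, hxe⟩
    rwa [← hφ hxe]
  · intro h; exact ⟨e, h, rfl⟩

end Pool.Agent.H29.Kap

end

section

/-! # Euler's formula for the clusters of a rectangle -/

set_option autoImplicit false

namespace Pool.Agent.H29.Kap

open Pool.Agent.H89.Perc

end Pool.Agent.H29.Kap

end

section

/-! # Euler's formula for the expected number of clusters and duality of the cluster density -/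

set_option autoImplicit false

namespace Pool.Agent.H29.Kap

open Pool.Agent.H89.Perc Pool.Agent.Perc

end Pool.Agent.H29.Kap

end

section

/-! # Uniform control of the expected second differences -/

set_option autoImplicit false

namespace Pool.Agent.H29.Kap

open Pool.Agent.H89.Perc Pool.Agent.Perc

lemma geo_ofS_inter {F G : Finset Edge} (hGF : G ⊆ F) (S : Finset Edge) :
    ∀ e ∈ G, ofS S e = ofS (S ∩ G) e := by
  intro e he
  rw [ofS_apply, ofS_apply, decide_eq_decide, Finset.mem_inter]
  exact ⟨fun h => ⟨h, he⟩, fun h => h.1⟩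

end Pool.Agent.H29.Kap

end

section

/-! # Comparison of one-arm probabilities at different scales -/

set_option autoImplicit false

namespace Pool.Agent.H29.Kap

open Pool.Agent.H89.Perc

end Pool.Agent.H29.Kap

end

section

/-!
# The probability that the endpoints of an edge are connected off the edge: definitions
-/

open MeasureTheory ProbabilityTheory unitInterval

namespace Pool.Agent.H31.AL

open Pool.Agent.H89.Perc

end Pool.Agent.H31.AL

end

end

section

/-! The parts of this file: H29.Kap.Analysis, H29.Kap.Rem, H29.Kap.Analysis3, H29.Kap.DerivBound, H29.Kap.TupleSum, H29.Kap.ExpMom, H29.Kap.EdgeDuality, H29.Kap.Pivot, H29.Kap.TupleSum3, H89.Perc.EdgeDual, H29.Kap.ThreeArms, H29.Kap.CrossMom, H29.Kap.SecondDiff, H29.Kap.StabA, H29.Kap.StabB, H29.Kap.Count, H29.Kap.Tilt, H29.Kap.Sens, H29.Kap.Invar, H29.Kap.Euler, H29.Kap.EulerExp, H29.Kap.Geo, H29.Kap.ArmRatio, H31.AL.Defs. -/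

section

/-! # Analysis of the scale decomposition -/

set_option autoImplicit false

namespace Pool.Agent.H29.Kap

/-- the two bounds for the even remainder of a scale -/
theorem analysis_evR_two {y : ℕ → ℝ} {D : ℕ} {C r p : ℝ} (hyD : ∀ j, D ≤ j → y j = 0)
    (hr : 0 < r) (hC : ∀ j, |y j| * r ^ j ≤ C)
    (hb1 : |analysis_P y D p| ≤ C) (hb2 : |analysis_P y D (1 - p)| ≤ C) :
    |analysis_evR y D (2 * p - 1)| ≤ 9 * C * ((2 * p - 1) ^ 2 * (1 / r ^ 2)) ∧
    |analysis_evR y D (2 * p - 1)| ≤ 36 * C * ((2 * p - 1) ^ 2 * (1 / r ^ 2)) ^ 2 := by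
  have hC0 : 0 ≤ C := le_trans (by positivity) (hC 0)
  set z := 2 * p - 1 with hz
  set u := z ^ 2 * (1 / r ^ 2) with hu
  have hu0 : 0 ≤ u := by positivity
  have hur : u = (|z| / r) ^ 2 := by
    rw [hu, div_pow, sq_abs]
    ring
  rcases le_or_gt |z| (r / 2) with h | h
  · have h1 := analysis_evR_le (D := D) hr hC h
    have h2 : (|z| / r) ^ 4 = u ^ 2 := by rw [hur]; ring
    rw [h2] at h1
    have hq : |z| / r ≤ 1 / 2 := by
      rw [div_le_iff₀ hr]
      linarith only [h]
    have hu1 : u ≤ 1 / 4 := by
      rw [hur]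
      have := pow_le_pow_left₀ (by positivity : 0 ≤ |z| / r) hq 2
      norm_num at this ⊢
      exact this
    constructor
    · refine h1.trans ?_
      have : 2 * C * u ^ 2 ≤ 2 * C * u := by
        apply mul_le_mul_of_nonneg_left _ (by positivity)
        nlinarith only [hu0, hur, h2, hu1]
      nlinarith only [this, hC0, hu0, mul_nonneg hC0 hu0]
    · refine h1.trans ?_
      have : 0 ≤ C * u ^ 2 := by positivity
      linarith only [this]
  · have hq : 1 / 2 < |z| / r := by
      rw [lt_div_iff₀ hr]
      linarith only [h]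
    have hu1 : 1 / 4 < u := by
      rw [hur]
      have := pow_lt_pow_left₀ hq (by norm_num) (by norm_num : 2 ≠ 0)
      norm_num at this ⊢
      exact this
    have he := analysis_even hyD z
    have hp2 : analysis_P y D (1 - p) = ∑ j ∈ Finset.range D, y j * (-z) ^ j := by
      unfold analysis_P
      apply Finset.sum_congr rfl
      intro j _
      congr 2
      rw [hz]
      ring
    have hp1 : analysis_P y D p = ∑ j ∈ Finset.range D, y j * z ^ j := rfl
    rw [← hp1, ← hp2] at he
    have h0 : |y 0| ≤ C := by
      have := hC 0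
      rwa [pow_zero, mul_one] at this
    have h2 : |y 2 * z ^ 2| ≤ C * u := by
      have h3 := hC 2
      rw [abs_mul, abs_of_nonneg (sq_nonneg z)]
      have h4 : |y 2| * z ^ 2 = |y 2| * r ^ 2 * u := by
        rw [hu]
        field_simp
      rw [h4]
      exact mul_le_mul_of_nonneg_right h3 hu0
    have h5 : analysis_evR y D z
        = (analysis_P y D p + analysis_P y D (1 - p)) / 2 - y 0 - y 2 * z ^ 2 := by
      rw [he]
      ring
    have h6 : |analysis_evR y D z| ≤ 9 * C * u := by
      rw [h5]
      have a1 := abs_le.1 hb1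
      have a2 := abs_le.1 hb2
      have a3 := abs_le.1 h0
      have a4 := abs_le.1 h2
      have a5 : C ≤ 4 * (C * u) := by nlinarith only [hC0, hu1]
      rw [abs_le]
      constructor <;> linarith only [a1, a2, a3, a4, a5, a1.1, a1.2, a2.1, a2.2, a3.1, a3.2, a4.1, a4.2]
    refine ⟨h6, h6.trans ?_⟩
    have h7 : 9 * C * u ≤ 9 * C * u * (4 * u) := by
      have : 0 ≤ 9 * C * u := by positivity
      nlinarith only [hu1, this]
    refine h7.trans (le_of_eq ?_)
    ring

end Pool.Agent.H29.Kap

end

section

/-! # The remainder of the second order expansion at `1/2` -/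

set_option autoImplicit false

namespace Pool.Agent.H29.Kap

end Pool.Agent.H29.Kap

end

section

/-! # Analysis of the scale decomposition, without logarithms -/

set_option autoImplicit false

namespace Pool.Agent.H29.Kap

end Pool.Agent.H29.Kap

end

section

/-! # Derivative of an expectation with respect to the density -/

set_option autoImplicit false

namespace Pool.Agent.H29.Kap

open Pool.Agent.Perc

variable {ι : Type*} [DecidableEq ι]

end Pool.Agent.H29.Kap

end

section

/-! # A sum over tuples of edges -/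

set_option autoImplicit false

namespace Pool.Agent.H29.Kap

open Pool.Agent.H89.Perc

/-! ### The abstract inequality -/

section abstract_part

variable {α : Type*} [DecidableEq α]

end abstract_part

/-! ### One dimensional sums -/

/-! ### Sums over the edges of a rectangle -/

end Pool.Agent.H29.Kap

end

section

/-! # Exponential moments of the size of `R` -/

set_option autoImplicit false

namespace Pool.Agent.H29.Kap

open Pool.Agent.H89.Perc Pool.Agent.Perc

end Pool.Agent.H29.Kap

end

section

/-! # Duality for a single edge in a rectangle -/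

set_option autoImplicit false

namespace Pool.Agent.H29.Kap

open Pool.Agent.H89.Perc

/-- The main step of the converse direction. -/
theorem edgeduality_aux {ω : Config} {a b c d : ℤ} {e : Edge} (he : e ∈ redges a b c d)
    (hno : ¬ Conn (Function.update ω e false) (rect a b c d) (src e) (tgt e)) {G₀ G₁ : Vert}
    (hG : (G₀ = lowFace e ∧ G₁ = src e) ∨ (G₀ = src e ∧ G₁ = lowFace e))
    (h01 : ¬ Conn (dual (Function.update ω e true)) (rect (a - 1) b (c - 1) d) G₀ G₁)
    (hbd : ∀ v ∈ bd (a - 1) b (c - 1) d,
      ¬ Conn (dual (Function.update ω e true)) (rect (a - 1) b (c - 1) d) G₀ v) : False := by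
  classical
  obtain ⟨hx, hy⟩ := mem_redges.1 he
  set ω₀ := Function.update ω e false with hω₀
  set ω₁ := Function.update ω e true with hω₁
  set χ : Vert → ZMod 2 := fun v => if Conn ω₀ (rect a b c d) (src e) v then 1 else 0 with hχ
  set z : Edge → ZMod 2 := fun f =>
    if src f ∈ rect a b c d ∧ tgt f ∈ rect a b c d then χ (src f) + χ (tgt f) else 0 with hz
  have hze : z e = 1 := by
    simp only [hz, hχ]
    rw [if_pos ⟨hx, hy⟩, if_pos (Conn.refl hx), if_neg hno, add_zero]
  have hface : ∀ f : Edge, src f ∈ rect a b c d → tgt f ∈ rect a b c d →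
      lowFace f ∈ rect (a - 1) b (c - 1) d ∧ src f ∈ rect (a - 1) b (c - 1) d := by
    rintro ⟨x, y, t⟩ k1 k2
    cases t <;>
    · simp only [src, tgt, lowFace, rect, Set.mem_ofPred_eq, if_true, Bool.false_eq_true,
        if_false] at k1 k2 ⊢
      omega
  have hzclosed : ∀ f, z f ≠ 0 → (src f ∈ rect a b c d ∧ tgt f ∈ rect a b c d) ∧
      ω₀ f = false := by
    intro f hf
    simp only [hz] at hf
    split_ifs at hf with hin
    · refine ⟨hin, ?_⟩
      by_contra ho
      rw [Bool.not_eq_false] at ho
      apply hf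
      rw [z2_add_eq_zero]
      have : Conn ω₀ (rect a b c d) (src e) (src f) ↔ Conn ω₀ (rect a b c d) (src e) (tgt f) :=
        ⟨fun h => h.tail ⟨hin.1, hin.2, f, joins_src_tgt f, ho⟩,
          fun h => h.tail ⟨hin.2, hin.1, f, (joins_src_tgt f).symm, ho⟩⟩
      simp only [hχ, this]
    · exact absurd rfl hf
  set Q : Set Vert := {G | Conn (dual ω₁) (rect (a - 1) b (c - 1) d) G₀ G} with hQ
  have hG₀T : G₀ ∈ rect (a - 1) b (c - 1) d := by
    obtain ⟨k1, k2⟩ := hface e hx hy
    rcases hG with ⟨h, _⟩ | ⟨h, _⟩
    · rw [h]; exact k1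
    · rw [h]; exact k2
  have hG₀Q : G₀ ∈ Q := Conn.refl hG₀T
  have hG₁Q : G₁ ∉ Q := h01
  have hQin : ∀ G ∈ Q, G ∈ rect a (b - 1) c (d - 1) := by
    intro G hGQ
    have k1 : G ∈ rect (a - 1) b (c - 1) d := Conn.mem_right hGQ
    have k2 : ¬ (G.1 = a - 1 ∨ G.1 = b ∨ G.2 = c - 1 ∨ G.2 = d) := fun h => hbd G ⟨k1, h⟩ hGQ
    simp only [rect, Set.mem_ofPred_eq] at k1 ⊢
    omega
  -- closed edges different from `e` have both or no faces in `Q`
  have hstep : ∀ f : Edge, f ≠ e → z f ≠ 0 → (lowFace f ∈ Q ↔ src f ∈ Q) := by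
    intro f hfe hf
    obtain ⟨hin, hcl⟩ := hzclosed f hf
    obtain ⟨k1, k2⟩ := hface f hin.1 hin.2
    have k3 : ω₁ f = false := by
      rw [hω₀, Function.update_of_ne hfe] at hcl
      rw [hω₁, Function.update_of_ne hfe]
      exact hcl
    have k4 := dual_step k3 k1 k2
    exact ⟨fun h => Conn.tail h k4, fun h => Conn.tail h k4.symm⟩
  set k : Edge → ZMod 2 := fun f =>
    if f ≠ e ∧ (lowFace f ∈ Q ∨ src f ∈ Q) then z f else 0 with hk
  have hkfin : (Function.support k).Finite := by
    refine (redges a b c d).finite_toSet.subset ?_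
    intro f hf
    rw [Function.mem_support] at hf
    simp only [hk] at hf
    split_ifs at hf with h
    · exact mem_redges.2 (hzclosed f hf).1
    · exact absurd rfl hf
  -- the value near a face
  have hkin : ∀ f : Edge, (lowFace f ∈ Q ∨ src f ∈ Q) → k f = z f + one e f := by
    intro f hf
    by_cases hfe : f = e
    · have h1 : k e = 0 := by
        simp only [hk]
        rw [if_neg (by tauto)]
      have h2 : one e e = 1 := by simp [one]
      rw [hfe, h1, hze, h2, z2_add_self]
    · simp only [hk, one]
      rw [if_pos ⟨hfe, hf⟩, if_neg hfe, add_zero]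
  have hkout : ∀ f : Edge, (lowFace f ∉ Q ∨ src f ∉ Q) → k f = 0 := by
    intro f hf
    by_contra hne
    simp only [hk] at hne
    split_ifs at hne with h
    · have := hstep f h.1 hne
      tauto
    · exact hne rfl
  have hfs : ∀ G : Vert, fsum k G = if G = G₀ then 1 else 0 := by
    intro G
    have s1 : G = src (G.1, G.2, false) := rfl
    have s2 : G = lowFace (G.1 + 1, G.2, true) := by simp [lowFace]
    have s3 : G = lowFace (G.1, G.2 + 1, false) := by simp [lowFace]
    have s4 : G = src (G.1, G.2, true) := rfl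
    by_cases hGQ : G ∈ Q
    · have h1 : fsum k G = fsum z G + fsum (one e) G := by
        rw [← fsum_add]
        unfold fsum
        rw [hkin _ (Or.inr (s1 ▸ hGQ)), hkin _ (Or.inl (s2 ▸ hGQ)), hkin _ (Or.inl (s3 ▸ hGQ)),
          hkin _ (Or.inr (s4 ▸ hGQ))]
      have h2 : fsum z G = 0 := by
        have h3 := hQin G hGQ
        simp only [rect, Set.mem_ofPred_eq] at h3
        have z1 : z (G.1, G.2, false) = χ (G.1, G.2) + χ (G.1 + 1, G.2) := by
          simp only [hz]
          rw [if_pos]
          · rfl
          · simp only [src, tgt, rect, Set.mem_ofPred_eq, Bool.false_eq_true, if_false]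
            omega
        have z2 : z (G.1 + 1, G.2, true) = χ (G.1 + 1, G.2) + χ (G.1 + 1, G.2 + 1) := by
          simp only [hz]
          rw [if_pos]
          · rfl
          · simp only [src, tgt, rect, Set.mem_ofPred_eq, if_true]
            omega
        have z3 : z (G.1, G.2 + 1, false) = χ (G.1, G.2 + 1) + χ (G.1 + 1, G.2 + 1) := by
          simp only [hz]
          rw [if_pos]
          · rfl
          · simp only [src, tgt, rect, Set.mem_ofPred_eq, Bool.false_eq_true, if_false]
            omega
        have z4 : z (G.1, G.2, true) = χ (G.1, G.2) + χ (G.1, G.2 + 1) := by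
          simp only [hz]
          rw [if_pos]
          · rfl
          · simp only [src, tgt, rect, Set.mem_ofPred_eq, if_true]
            omega
        unfold fsum
        rw [z1, z2, z3, z4]
        linear_combination z2_add_self (χ (G.1, G.2)) + z2_add_self (χ (G.1 + 1, G.2)) +
          z2_add_self (χ (G.1, G.2 + 1)) + z2_add_self (χ (G.1 + 1, G.2 + 1))
      rw [h1, h2, zero_add, edgeduality_fsum_one]
      have h4 : G ≠ G₁ := fun h => hG₁Q (h ▸ hGQ)
      rcases hG with ⟨h5, h6⟩ | ⟨h5, h6⟩
      · rw [← h5, ← h6, if_neg h4, add_zero]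
      · rw [← h5, ← h6, if_neg h4, zero_add]
    · have h1 : fsum k G = 0 := by
        unfold fsum
        rw [hkout _ (Or.inr (s1 ▸ hGQ)), hkout _ (Or.inl (s2 ▸ hGQ)), hkout _ (Or.inl (s3 ▸ hGQ)),
          hkout _ (Or.inr (s4 ▸ hGQ))]
        simp
      have h2 : G ≠ G₀ := by
        intro h
        rw [h] at hGQ
        exact hGQ hG₀Q
      rw [h1, if_neg h2]
  have htot := edgeduality_total k hkfin
  rw [finsum_congr hfs, finsum_eq_single _ G₀ (fun G hG' => if_neg hG'), if_pos rfl] at htot
  exact one_ne_zero htot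

end Pool.Agent.H29.Kap

end

section

/-! # Edges which matter outside `D` but not inside `D` have two arms in `D` -/

set_option autoImplicit false

namespace Pool.Agent.H29.Kap

open Pool.Agent.H89.Perc

/-- If the ring edges are open then every boundary vertex is joined to the corner `(b, d)`. -/
lemma pivot_ring {ω : Config} {a b c d : ℤ} (hab : a ≤ b) (hcd : c ≤ d)
    (h1 : ∀ x, a ≤ x → x < b → ω (x, c, false) = true)
    (h2 : ∀ x, a ≤ x → x < b → ω (x, d, false) = true)
    (h3 : ∀ y, c ≤ y → y < d → ω (a, y, true) = true)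
    (h4 : ∀ y, c ≤ y → y < d → ω (b, y, true) = true) {u : Vert} (hu : u ∈ bd a b c d) :
    Conn ω (rect a b c d) u (b, d) := by
  obtain ⟨x, y⟩ := u
  obtain ⟨⟨k1, k2, k3, k4⟩, k5⟩ := hu
  simp only at k1 k2 k3 k4 k5
  have right : ∀ y, c ≤ y → y ≤ d → Conn ω (rect a b c d) (b, y) (b, d) := by
    intro y hy1 hy2
    exact pivot_line_y hy2 (fun z l1 l2 => ⟨hab, le_rfl, by simp only; omega, l2⟩)
      (fun z l1 l2 => h4 z (by omega) l2)
  have top : ∀ x, a ≤ x → x ≤ b → Conn ω (rect a b c d) (x, d) (b, d) := by
    intro x hx1 hx2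
    exact pivot_line_x hx2 (fun z l1 l2 => ⟨by simp only; omega, l2, hcd, le_rfl⟩)
      (fun z l1 l2 => h2 z (by omega) l2)
  rcases k5 with k5 | k5 | k5 | k5
  · subst k5
    have l := pivot_line_y (ω := ω) (S := rect x b c d) (x := x) k4
      (fun z l1 l2 => ⟨le_rfl, hab, by simp only; omega, l2⟩)
      (fun z l1 l2 => h3 z (by omega) l2)
    exact l.trans (top _ le_rfl hab)
  · subst k5
    exact right y k3 k4
  · subst k5
    have l := pivot_line_x (ω := ω) (S := rect a b y d) (y := y) k2
      (fun z l1 l2 => ⟨by simp only; omega, l2, le_rfl, hcd⟩)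
      (fun z l1 l2 => h1 z (by omega) l2)
    exact l.trans (right _ le_rfl hcd)
  · subst k5
    exact top x k1 k2

end Pool.Agent.H29.Kap

end

section

/-! # A sum over tuples of edges, exponent `2/3` -/

set_option autoImplicit false

namespace Pool.Agent.H29.Kap

open Pool.Agent.H89.Perc

end Pool.Agent.H29.Kap

end

section

/-!
# Pivotal edges and closed dual paths
-/

namespace Pool.Agent.H89.Perc

end Pool.Agent.H89.Perc

end

section

/-! # Two disjoint open arms and one closed dual arm on a line -/

set_option autoImplicit false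

namespace Pool.Agent.H29.Kap

open Pool.Agent.H89.Perc

end Pool.Agent.H29.Kap

end

section

/-! # Second moment of the number of crossing clusters for `p ≤ 1/2` -/

set_option autoImplicit false

namespace Pool.Agent.H29.Kap

open Pool.Agent.H89.Perc Pool.Agent.Perc

theorem crossmom_disjK {S : Finset Edge} {x1 x2 c d : ℤ} {k : ℕ} (hk : k ≤ NC (ofS S) x1 x2 c d) :
    DisjK (fun T => HCross (ofS T) x1 x2 c d) k S := by
  classical
  set T : Set (Set Vert) := {C | C ∈ clusters (ofS S) (rect x1 x2 c d) ∧ (∃ u ∈ C, u.1 = x1) ∧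
    ∃ v ∈ C, v.1 = x2} with hT
  have hfin : T.Finite := (clusters_finite (ofS S) (rect_finite x1 x2 c d)).subset fun C hC => hC.1
  obtain ⟨T', hT'1, hT'2⟩ := Set.exists_subset_card_eq (s := T) (n := k) hk
  have hfin' : T'.Finite := hfin.subset hT'1
  have hcard : hfin'.toFinset.card = k := by
    rw [← Set.ncard_eq_toFinset_card T' hfin']; exact hT'2
  set e := hfin'.toFinset.equivFinOfCardEq hcard with he
  -- the clusters
  set Cl : ℕ → Set Vert := fun i => if h : i < k then ((e.symm ⟨i, h⟩ : hfin'.toFinset) : Set Vert)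
    else ∅ with hCl
  have hmem : ∀ i < k, Cl i ∈ T := by
    intro i hi
    have : Cl i = ((e.symm ⟨i, hi⟩ : hfin'.toFinset) : Set Vert) := by
      simp only [hCl]; rw [dif_pos hi]
    rw [this]
    exact hT'1 (hfin'.mem_toFinset.1 (e.symm ⟨i, hi⟩).2)
  have hne : ∀ i < k, ∀ j < k, i ≠ j → Cl i ≠ Cl j := by
    intro i hi j hj hij h
    have e1 : Cl i = ((e.symm ⟨i, hi⟩ : hfin'.toFinset) : Set Vert) := by
      simp only [hCl]; rw [dif_pos hi]
    have e2 : Cl j = ((e.symm ⟨j, hj⟩ : hfin'.toFinset) : Set Vert) := by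
      simp only [hCl]; rw [dif_pos hj]
    rw [e1, e2] at h
    have h2 := e.symm.injective (Subtype.ext h)
    exact hij (by simpa using h2)
  refine DisjK_of_family _ k (fun i => S.filter (fun f => src f ∈ Cl i ∧ tgt f ∈ Cl i)) S
    (fun i _ => Finset.filter_subset _ _) ?_ ?_
  · intro i hi j hj hij
    rw [Finset.disjoint_left]
    intro f hf hf'
    rw [Finset.mem_filter] at hf hf'
    have a1 := mem_cluster_iff (hmem i hi).1 hf.2.1
    have a2 := mem_cluster_iff (hmem j hj).1 hf'.2.1
    exact hne i hi j hj hij (a1.trans a2.symm)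
  · intro i hi
    obtain ⟨h1, ⟨u, hu, hu1⟩, ⟨v, hv, hv1⟩⟩ := hmem i hi
    refine ⟨u, v, hu1, hv1, ?_⟩
    have a1 := mem_cluster_iff h1 hu
    have hc : Conn (ofS S) (rect x1 x2 c d) u v := by
      have := hv
      rw [a1] at this
      exact this
    refine hc.induction_right (P := fun w => Conn _ (rect x1 x2 c d) u w)
      (Conn.refl hc.mem_left) ?_
    intro a b hab hst ih
    obtain ⟨ha, hb, f, hf, ho⟩ := hst
    refine ih.tail ⟨ha, hb, f, hf, ?_⟩
    rw [ofS_eq_true, Finset.mem_filter]
    refine ⟨ofS_eq_true.1 ho, ?_⟩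
    have ha' : a ∈ Cl i := by rw [a1]; exact hab
    have hb' : b ∈ Cl i := by rw [a1]; exact hab.tail ⟨ha, hb, f, hf, ho⟩
    rcases hf with ⟨r1, r2⟩ | ⟨r1, r2⟩
    · rw [← r1, ← r2]; exact ⟨ha', hb'⟩
    · rw [← r1, ← r2]; exact ⟨hb', ha'⟩

end Pool.Agent.H29.Kap

end

section

/-! # Second differences of cluster counts are bounded by the number of crossing clusters -/

set_option autoImplicit false

namespace Pool.Agent.H29.Kap

open Pool.Agent.H89.Perc

end Pool.Agent.H29.Kap

end

section

/-! # Stability of the set `R` under changes of an edge without open arm -/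

set_option autoImplicit false

namespace Pool.Agent.H29.Kap

open Pool.Agent.H89.Perc

end Pool.Agent.H29.Kap

end

section

/-! # Stability of the set `R` under changes of an edge without closed dual arm -/

set_option autoImplicit false

namespace Pool.Agent.H29.Kap

open Pool.Agent.H89.Perc

end Pool.Agent.H29.Kap

end

section

/-! # Cluster counts: effect of one edge, locality, simple bounds -/

set_option autoImplicit false

namespace Pool.Agent.H29.Kap

open Pool.Agent.H89.Perc

lemma count_clusters_eq (ω : Config) (S : Set Vert) : clusters ω S = count_cl ω S '' S := by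
  ext C
  constructor
  · rintro ⟨v, hv, rfl⟩; exact ⟨v, hv, rfl⟩
  · rintro ⟨v, hv, rfl⟩; exact ⟨v, hv, rfl⟩

lemma count_cl_mem {ω : Config} {S : Set Vert} {v : Vert} (hv : v ∈ S) :
    count_cl ω S v ∈ clusters ω S := ⟨v, hv, rfl⟩

/-- The counts depend only on the edges with both endpoints in `S`. -/
theorem J_congr {ω ω' : Config} {S : Set Vert} (B : Set Vert)
    (h : ∀ e, src e ∈ S → tgt e ∈ S → ω e = ω' e) : J ω S B = J ω' S B := by
  have : clusters ω S = clusters ω' S := by
    rw [count_clusters_eq, count_clusters_eq]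
    refine Set.image_congr fun v _ => ?_
    ext w
    exact ⟨fun h' => Conn.congr h h', fun h' => Conn.congr (fun e h1 h2 => (h e h1 h2).symm) h'⟩
  unfold J
  rw [this]

theorem K_congr {ω ω' : Config} {S : Set Vert}
    (h : ∀ e, src e ∈ S → tgt e ∈ S → ω e = ω' e) : K ω S = K ω' S := by
  rw [K_eq_J, K_eq_J, J_congr ∅ h]

theorem K_le_ncard {ω : Config} {S : Set Vert} (hS : S.Finite) : K ω S ≤ S.ncard := by
  unfold K
  rw [count_clusters_eq]
  exact Set.ncard_image_le hS

theorem K_le_J_add {ω : Config} {S B : Set Vert} (hS : S.Finite) (hB : B.Finite) :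
    K ω S ≤ J ω S B + B.ncard := by
  have hsub : clusters ω S ⊆ {C | C ∈ clusters ω S ∧ Disjoint C B} ∪ count_cl ω S '' B := by
    intro C hC
    by_cases hd : Disjoint C B
    · exact Or.inl ⟨hC, hd⟩
    · rw [Set.not_disjoint_iff] at hd
      obtain ⟨z, hz, hzB⟩ := hd
      exact Or.inr ⟨z, hzB, (mem_cluster_iff hC hz).symm⟩
  have hfin : ({C | C ∈ clusters ω S ∧ Disjoint C B} ∪ count_cl ω S '' B).Finite :=
    ((clusters_finite ω hS).subset fun _ hC => hC.1).union (hB.image _)
  calc K ω S ≤ ({C | C ∈ clusters ω S ∧ Disjoint C B} ∪ count_cl ω S '' B).ncard :=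
        Set.ncard_le_ncard hsub hfin
    _ ≤ {C | C ∈ clusters ω S ∧ Disjoint C B}.ncard + (count_cl ω S '' B).ncard :=
        Set.ncard_union_le _ _
    _ ≤ J ω S B + B.ncard := Nat.add_le_add le_rfl (Set.ncard_image_le hB)

/-- Subadditivity. -/
theorem K_union_le {ω : Config} {S T : Set Vert} (hS : S.Finite) (hT : T.Finite) :
    K ω (S ∪ T) ≤ K ω S + K ω T := by
  set g : Set Vert → Set Vert := fun C => {w | ∃ u ∈ C, Conn ω (S ∪ T) u w} with hg
  have hgS : ∀ v ∈ S, g (count_cl ω S v) = count_cl ω (S ∪ T) v := by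
    intro v hv
    ext w
    constructor
    · rintro ⟨u, hu, huw⟩
      exact Conn.trans (Conn.mono_set Set.subset_union_left hu) huw
    · intro hw
      exact ⟨v, Conn.refl hv, hw⟩
  have hgT : ∀ v ∈ T, g (count_cl ω T v) = count_cl ω (S ∪ T) v := by
    intro v hv
    ext w
    constructor
    · rintro ⟨u, hu, huw⟩
      exact Conn.trans (Conn.mono_set Set.subset_union_right hu) huw
    · intro hw
      exact ⟨v, Conn.refl hv, hw⟩
  have hsub : clusters ω (S ∪ T) ⊆ g '' clusters ω S ∪ g '' clusters ω T := by
    rintro C ⟨v, hv | hv, rfl⟩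
    · exact Or.inl ⟨_, count_cl_mem hv, hgS v hv⟩
    · exact Or.inr ⟨_, count_cl_mem hv, hgT v hv⟩
  have hf1 := clusters_finite ω hS
  have hf2 := clusters_finite ω hT
  calc K ω (S ∪ T) ≤ (g '' clusters ω S ∪ g '' clusters ω T).ncard :=
        Set.ncard_le_ncard hsub ((hf1.image _).union (hf2.image _))
    _ ≤ (g '' clusters ω S).ncard + (g '' clusters ω T).ncard := Set.ncard_union_le _ _
    _ ≤ _ := Nat.add_le_add (Set.ncard_image_le hf1) (Set.ncard_image_le hf2)

/-- close the edges of `F` -/
def count_close (ω : Config) (F : Finset Edge) : Config := fun e => if e ∈ F then false else ω e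

end Pool.Agent.H29.Kap

end

section

/-! # Tilting on a stable random set -/

set_option autoImplicit false

namespace Pool.Agent.H29.Kap

open Pool.Agent.Perc

variable {ι : Type*} [DecidableEq ι]

end Pool.Agent.H29.Kap

end

section

/-! # The second difference `X` does not change when an edge outside `R` is flipped -/

set_option autoImplicit false

namespace Pool.Agent.H29.Kap

open Pool.Agent.H89.Perc

/-- The number of clusters does not notice edges that are not inside. -/
theorem sens_K_out {ω : Config} {S : Set Vert} {e : Edge} (h : ¬ (src e ∈ S ∧ tgt e ∈ S)) :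
    K (Function.update ω e false) S = K (Function.update ω e true) S := by
  refine K_congr fun e' h1 h2 => ?_
  have hne : e' ≠ e := by
    rintro rfl
    exact h ⟨h1, h2⟩
  rw [Function.update_of_ne hne, Function.update_of_ne hne]

end Pool.Agent.H29.Kap

end

section

/-! # Expected cluster counts: invariance and limit -/

set_option autoImplicit false

namespace Pool.Agent.H29.Kap

open Pool.Agent.H89.Perc Pool.Agent.Perc

/-- The expectation may be computed on any larger finite set of edges. -/
theorem EK_of_subset {p : ℝ} {a b c d : ℤ} {F : Finset Edge} (h : redges a b c d ⊆ F) :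
    Ex p F (fun S => (K (ofS S) (rect a b c d) : ℝ)) = EK p a b c d := by
  refine Ex_restrict h (fun S _ => ?_) p
  rw [K_congr (ω := ofS S) (ω' := ofS (S ∩ redges a b c d))]
  intro e h1 h2
  exact invar_ofS_inter (mem_redges.2 ⟨h1, h2⟩)

theorem EJ_of_subset {p : ℝ} {a b c d : ℤ} {F : Finset Edge} (h : redges a b c d ⊆ F) :
    Ex p F (fun S => (J (ofS S) (rect a b c d) (bd a b c d) : ℝ)) = EJ p a b c d := by
  refine Ex_restrict h (fun S _ => ?_) p
  rw [J_congr (ω := ofS S) (ω' := ofS (S ∩ redges a b c d))]
  intro e h1 h2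
  exact invar_ofS_inter (mem_redges.2 ⟨h1, h2⟩)

theorem EK_nonneg_le {p : ℝ} (h0 : 0 ≤ p) (h1 : p ≤ 1) {a b c d : ℤ} (hab : a ≤ b)
    (hcd : c ≤ d) : 0 ≤ EK p a b c d ∧ EK p a b c d ≤ (b - a + 1) * (d - c + 1) := by
  constructor
  · exact Ex_nonneg h0 h1 fun S _ => Nat.cast_nonneg _
  · rw [← invar_ncard_rect (a := a) (b := b) (c := c) (d := d) (by omega) (by omega)]
    have h3 : Ex p (redges a b c d) (fun _ => ((rect a b c d).ncard : ℝ))
        = ((rect a b c d).ncard : ℝ) := Ex_const _ _ _
    rw [← h3]
    unfold EK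
    refine Ex_mono h0 h1 fun S _ => ?_
    exact_mod_cast K_le_ncard (rect_finite _ _ _ _)

end Pool.Agent.H29.Kap

end

section

/-! # Euler's formula for the clusters of a rectangle -/

set_option autoImplicit false

namespace Pool.Agent.H29.Kap

open Pool.Agent.H89.Perc

end Pool.Agent.H29.Kap

end

section

/-! # Euler's formula for the expected number of clusters and duality of the cluster density -/

set_option autoImplicit false

namespace Pool.Agent.H29.Kap

open Pool.Agent.H89.Perc Pool.Agent.Perc

end Pool.Agent.H29.Kap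

end

section

/-! # Uniform control of the expected second differences -/

set_option autoImplicit false

namespace Pool.Agent.H29.Kap

open Pool.Agent.H89.Perc Pool.Agent.Perc

end Pool.Agent.H29.Kap

end

section

/-! # Comparison of one-arm probabilities at different scales -/

set_option autoImplicit false

namespace Pool.Agent.H29.Kap

open Pool.Agent.H89.Perc

end Pool.Agent.H29.Kap

end

section

/-!
# The probability that the endpoints of an edge are connected off the edge: definitions
-/

open MeasureTheory ProbabilityTheory unitInterval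

namespace Pool.Agent.H31.AL

open Pool.Agent.H89.Perc Pool.Agent.H61.NC

/-- The same event on the torus (in the periodic extension the first endpoint is joined to a
translate of the second one; the edge in the middle of the torus and all its translates are
closed). -/
def DT (N : ℕ) (d : Bool) : Set Config :=
  {ω | ∃ a b : ℤ, Conn (per N (close (ctr N d) ω)) Set.univ (src (ctr N d))
    ((tgt (ctr N d)).1 + a * N, (tgt (ctr N d)).2 + b * N)}

/-- The probability of `DT`. -/
noncomputable def tauT (N : ℕ) (q : I) : ℝ := Pr q (DT N false)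

end Pool.Agent.H31.AL

end

end
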