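import Pool.Agent.H94.BG.H31.PT.M13
import Pool.Agent.H94.BG.H31.PT.M16_2
import Pool.Agent.H94.BG.H31.PT.M32_3
import Pool.Agent.H94.BG.H31.PT.M38_1
import Pool.Agent.H94.BG.H31.PT.M38_5
import Pool.Agent.H94.BG.M14

/-! The parts of this file: H31.PT.M39, H31.PT.M39_1. -/

section

/-! The parts of this file: H29.Kap.ArmBox3, H29.Kap.ArmExt3, H29.Kap.TupleProb, H29.Kap.TupleProb3, H29.Kap.ExpMom3, H29.Kap.GoodX, H29.Kap.Main, H31.AL.KapDeriv, H90.AL.Piv, H90.AL.Est, H31.AL.TorusDer. -/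

section

/-! # Lower bound for annulus crossing probabilities, exponent `1/3` -/

set_option autoImplicit false

open MeasureTheory ProbabilityTheory unitInterval

namespace Pool.Agent.H29.Kap

open Pool.Agent.H89.Perc

/-- Two disjoint annulus crossings. -/
def armbox3_two (v : Vert) (s R : ℕ) : Set Config :=
  {ω | ∃ ω₁ ω₂ : Config, (∀ e, ω₁ e = true → ω e = true) ∧ (∀ e, ω₂ e = true → ω e = true) ∧
    (∀ e, ω₁ e = true → ω₂ e = false) ∧ ω₁ ∈ ArmBox v s R ∧ ω₂ ∈ ArmBox v s R}

/-- Restriction of a configuration to a finite set of edges. -/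
def armbox3_res (F : Finset Edge) (ω : Config) : Config := fun e => ω e && decide (e ∈ F)

theorem armbox3_res_true {F : Finset Edge} {ω : Config} {e : Edge} :
    armbox3_res F ω e = true ↔ ω e = true ∧ e ∈ F := by
  simp [armbox3_res]

theorem armbox3_res_mem {v : Vert} {s R : ℕ} {ω : Config} (h : ω ∈ ArmBox v s R) :
    armbox3_res (eRect (v.1 - R) (v.1 + R) (v.2 - R) (v.2 + R)) ω ∈ ArmBox v s R := by
  refine localOn_armBox v s R ω _ (fun e he => ?_) h
  simp only [armbox3_res, he, decide_true, Bool.and_true]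

theorem armbox3_localOn_two (v : Vert) (s R : ℕ) :
    LocalOn (eRect (v.1 - R) (v.1 + R) (v.2 - R) (v.2 + R)) (armbox3_two v s R) := by
  rintro ω ω' h ⟨ω₁, ω₂, h1, h2, h3, h4, h5⟩
  refine ⟨armbox3_res (eRect (v.1 - R) (v.1 + R) (v.2 - R) (v.2 + R)) ω₁,
    armbox3_res (eRect (v.1 - R) (v.1 + R) (v.2 - R) (v.2 + R)) ω₂, ?_, ?_, ?_,
    armbox3_res_mem h4, armbox3_res_mem h5⟩
  · intro e he
    rw [armbox3_res_true] at he
    rw [← h e he.2]
    exact h1 e he.1
  · intro e he
    rw [armbox3_res_true] at he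
    rw [← h e he.2]
    exact h2 e he.1
  · intro e he
    rw [armbox3_res_true] at he
    rw [armbox3_res, h3 e he.1, Bool.false_and]

theorem armbox3_incr_two (v : Vert) (s R : ℕ) : Incr (armbox3_two v s R) := by
  rintro ω ω' h ⟨ω₁, ω₂, h1, h2, h3, h4, h5⟩
  exact ⟨ω₁, ω₂, fun e he => h e (h1 e he), fun e he => h e (h2 e he), h3, h4, h5⟩

theorem armbox3_Pr_two (p : I) (v : Vert) (s R : ℕ) :
    Pr p (armbox3_two v s R) ≤ Pr p (ArmBox 0 s R) ^ 2 := by
  classical
  have hup : Pool.Agent.Perc.UpOn (eRect (v.1 - R) (v.1 + R) (v.2 - R) (v.2 + R))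
      (fun S => ofS S ∈ ArmBox v s R) :=
    fun S T hST _ h => incr_armBox v s R _ _ (ofS_mono hST) h
  have key := Pool.Agent.Perc.bk (p := (p : ℝ))
    (F := eRect (v.1 - R) (v.1 + R) (v.2 - R) (v.2 + R)) p.2.1 p.2.2 hup hup
  have h0 : Pr p (ArmBox 0 s R) = Pr p (ArmBox v s R) := (Pr_armBox v s R).symm
  rw [h0, sq, Pr_eq_Ex (armbox3_localOn_two v s R), Pr_eq_Ex (localOn_armBox v s R)]
  refine le_trans ?_ key
  unfold Pool.Agent.Perc.Pr
  refine Pool.Agent.Perc.Ex_mono p.2.1 p.2.2 fun S _ => Pool.Agent.Perc.ind_le_ind ?_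
  rintro ⟨ω₁, ω₂, h1, h2, h3, h4, h5⟩
  have hof : ∀ ω' : Config, (∀ e, ω' e = true → ofS S e = true) →
      ofS (S.filter fun e => ω' e = true) = ω' := by
    intro ω' h
    funext e
    rw [Bool.eq_iff_iff, ofS_eq_true, Finset.mem_filter]
    exact ⟨fun h' => h'.2, fun h' => ⟨ofS_eq_true.1 (h e h'), h'⟩⟩
  refine ⟨S.filter fun e => ω₁ e = true, S.filter fun e => ω₂ e = true,
    Finset.filter_subset _ _, Finset.filter_subset _ _, ?_, ?_, ?_⟩
  · rw [Finset.disjoint_left]
    intro e he he'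
    have h6 := h3 e (Finset.mem_filter.1 he).2
    rw [(Finset.mem_filter.1 he').2] at h6
    exact absurd h6 (by decide)
  · rw [hof ω₁ h1]
    exact h4
  · rw [hof ω₂ h2]
    exact h5

/-- The three crossings. -/
theorem armbox3_cross : ∃ c > (0 : ℝ), ∀ R : ℕ, c ≤ Pr half
    ({ω | HCross ω (-(2 * R + 8 : ℤ)) (2 * R + 8) 0 (2 * (2 * R + 8))} ∩
      {ω | dual ω ∈ {η | HCross η (-(2 * R + 8 : ℤ) - 1) (2 * R + 8) (-(2 * R + 8 : ℤ)) (-2)} ∩
        {η | VCross η (-(2 * R + 8 : ℤ)) (2 * R + 8 - 1) (-3 * (2 * R + 8) - 1) (-2)}}) := by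
  obtain ⟨c, hc, hrsw⟩ := rsw
  refine ⟨1 / 2 * (c * c), by positivity, fun R => ?_⟩
  set W : ℤ := 2 * R + 8 with hW
  set E1 : Set Config := {ω | HCross ω (-W) W 0 (2 * W)} with hE1
  set F2 : Set Config := {η | HCross η (-W - 1) W (-W) (-2)} with hF2
  set F3 : Set Config := {η | VCross η (-W) (W - 1) (-3 * W - 1) (-2)} with hF3
  have hl1 : LocalOn (eRect (-W) W 0 (2 * W)) E1 := localOn_hcross _ _ _ _
  have hl2 : LocalOn (eRect (-W - 1) W (-W) (-2)) F2 := localOn_hcross _ _ _ _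
  have hl3 : LocalOn (eRect (-W) (W - 1) (-3 * W - 1) (-2)) F3 := localOn_vcross _ _ _ _
  have hl23 : LocalOn (eRect (-W - 1) W (-W) (-2) ∪ eRect (-W) (W - 1) (-3 * W - 1) (-2))
      (F2 ∩ F3) :=
    (hl2.mono Finset.subset_union_left).inter (hl3.mono Finset.subset_union_right)
  have hdis : Disjoint (eRect (-W) W 0 (2 * W))
      ((eRect (-W - 1) W (-W) (-2) ∪ eRect (-W) (W - 1) (-3 * W - 1) (-2)).image crossed) := by
    rw [Finset.disjoint_left]
    intro e he he'
    rw [Finset.mem_image] at he'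
    obtain ⟨e', he', rfl⟩ := he'
    rw [Finset.mem_union, mem_eRect, mem_eRect] at he'
    rw [mem_eRect] at he
    obtain ⟨x, y, o⟩ := e'
    cases o <;> simp only [src, crossed, rect, Set.mem_ofPred_eq, if_true, if_false,
      Bool.false_eq_true] at he he' <;> omega
  have hp1 : 1 / 2 ≤ Pr half E1 := by
    have h1 := Pr_hcross_translate (p := half) (a := 0) (b := ((4 * R + 16 : ℕ) : ℤ)) (c := 0)
      (d := ((4 * R + 16 : ℕ) : ℤ)) (-W) 0
    have h2 := half_le_hcross (4 * R + 16)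
    rw [← h1] at h2
    have e1 : (0 : ℤ) + -W = -W := by ring
    have e2 : ((4 * R + 16 : ℕ) : ℤ) + -W = W := by rw [hW]; push_cast; ring
    have e3 : (0 : ℤ) + 0 = 0 := rfl
    have e4 : ((4 * R + 16 : ℕ) : ℤ) + 0 = 2 * W := by rw [hW]; push_cast; ring
    rw [e1, e2, e3, e4] at h2
    exact h2
  have hp2 : c ≤ Pr half F2 := by
    have h1 := Pr_hcross_translate (p := half) (a := 0) (b := 4 * ((2 * R + 6 : ℕ) : ℤ)) (c := 0)
      (d := ((2 * R + 6 : ℕ) : ℤ)) (-W - 1) (-W)
    have h2 := hrsw (2 * R + 6) (by omega)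
    rw [← h1] at h2
    refine h2.trans (Pr_mono ?_)
    intro ω hω
    refine HCross.mono (hω : HCross ω _ _ _ _) ?_ ?_ ?_ ?_ ?_ <;> push_cast <;> omega
  have hp3 : c ≤ Pr half F3 := by
    have h1 := Pr_vcross_translate (p := half) (c := 0) (d := 4 * ((4 * R + 15 : ℕ) : ℤ)) (a := 0)
      (b := ((4 * R + 15 : ℕ) : ℤ)) (-W) (-3 * W - 1)
    have h2 := hrsw (4 * R + 15) (by omega)
    rw [← Pr_vcross_eq_hcross, ← h1] at h2
    refine h2.trans (Pr_mono ?_)
    intro ω hω
    refine VCross.mono (hω : VCross ω _ _ _ _) ?_ ?_ ?_ ?_ ?_ <;> push_cast <;> omega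
  have hp23 : c * c ≤ Pr half {ω | dual ω ∈ F2 ∩ F3} := by
    rw [Pr_dual hl23, ArmBoxLower.sigma_half]
    refine le_trans ?_ (fkg hl2 hl3 (incr_hcross _ _ _ _) (incr_vcross _ _ _ _))
    exact mul_le_mul hp2 hp3 hc.le Pr_nonneg
  rw [Pr_inter_of_disjoint hl1 hl23.dual' hdis]
  exact mul_le_mul hp1 hp23 (by positivity) Pr_nonneg

end Pool.Agent.H29.Kap

end

section

/-! # Regularity of the one-arm probability, exponent `1/3` -/

set_option autoImplicit false

namespace Pool.Agent.H29.Kap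

open Pool.Agent.H89.Perc

lemma armext3_box_zero (R : ℕ) : ArmBox 0 0 R ⊆ Arm 0 R := by
  rintro ω ⟨w, hw, u, hu, hc⟩
  have hw0 : w = 0 := by
    have h0 : ((0 : Vert).1) = 0 := rfl
    have h1 : ((0 : Vert).2) = 0 := rfl
    simp only [mem_ball, h0, h1] at hw
    ext
    · rw [h0]; omega
    · rw [h1]; omega
  subst hw0
  exact ⟨u, hu, hc⟩

end Pool.Agent.H29.Kap

end

section

/-! # Probability that a tuple of edges lies in `R` -/

set_option autoImplicit false

namespace Pool.Agent.H29.Kap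

open Pool.Agent.H89.Perc

/-- The edges near `src e`. -/
noncomputable def tupleprob_box (e : Edge) (m : ℕ) : Finset Edge :=
  eRect ((src e).1 - m) ((src e).1 + m) ((src e).2 - m) ((src e).2 + m)

theorem tupleprob_mem_box {e f : Edge} {m : ℕ} :
    f ∈ tupleprob_box e m ↔ e.1 - m ≤ f.1 ∧ f.1 ≤ e.1 + m ∧ e.2.1 - m ≤ f.2.1 ∧
      f.2.1 ≤ e.2.1 + m := by
  unfold tupleprob_box
  rw [mem_eRect]
  exact Iff.rfl

/-- The open arm event. -/
def tupleprob_E (e : Edge) (r : ℕ) : Set Config := Arm (src e) r ∪ Arm (tgt e) r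

/-- The closed dual arm event. -/
def tupleprob_F (e : Edge) (r : ℕ) : Set Config :=
  {ω | dual ω ∈ Arm (src e) r ∪ Arm (lowFace e) r}

theorem tupleprob_local_E (e : Edge) (r : ℕ) :
    LocalOn (tupleprob_box e (r + 2)) (tupleprob_E e r) := by
  apply LocalOn.union
  · refine (localOn_arm (src e) r).mono ?_
    intro f hf
    rw [tupleprob_mem_box]
    rw [mem_eRect] at hf
    obtain ⟨h1, h2, h3, h4⟩ := hf
    simp only [src] at h1 h2 h3 h4
    push_cast
    omega
  · refine (localOn_arm (tgt e) r).mono ?_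
    intro f hf
    rw [tupleprob_mem_box]
    rw [mem_eRect] at hf
    obtain ⟨h1, h2, h3, h4⟩ := hf
    obtain ⟨x, y, t⟩ := e
    cases t
    · simp only [src, tgt, Bool.false_eq_true, if_false] at h1 h2 h3 h4
      push_cast
      omega
    · simp only [src, tgt, if_true] at h1 h2 h3 h4
      push_cast
      omega

theorem tupleprob_local_F (e : Edge) (r : ℕ) :
    LocalOn (tupleprob_box e (r + 2)) (tupleprob_F e r) := by
  have key : ∀ v : Vert, (v = src e ∨ v = lowFace e) →
      LocalOn (tupleprob_box e (r + 2)) {ω | dual ω ∈ Arm v r} := by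
    intro v hv
    refine (localOn_arm v r).dual'.mono ?_
    intro f hf
    rw [Finset.mem_image] at hf
    obtain ⟨g, hg, rfl⟩ := hf
    rw [mem_eRect] at hg
    obtain ⟨h1, h2, h3, h4⟩ := hg
    rw [tupleprob_mem_box]
    obtain ⟨x, y, t⟩ := e
    obtain ⟨x', y', t'⟩ := g
    rcases hv with rfl | rfl
    · cases t' <;>
      · simp only [src, crossed, Bool.false_eq_true, if_false, if_true] at h1 h2 h3 h4 ⊢
        push_cast
        omega
    · cases t <;> cases t' <;>
      · simp only [src, crossed, lowFace, Bool.false_eq_true, if_false, if_true] at h1 h2 h3 h4 ⊢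
        push_cast
        omega
  have h1 := (key _ (Or.inl rfl)).union (key _ (Or.inr rfl))
  exact h1

theorem tupleprob_incr_E (e : Edge) (r : ℕ) : Incr (tupleprob_E e r) :=
  (incr_arm _ _).union (incr_arm _ _)

theorem tupleprob_incr_F (e : Edge) (r : ℕ) : Incr (tupleprob_F e r)ᶜ :=
  Incr.dual_compl ((incr_arm _ _).union (incr_arm _ _))

theorem tupleprob_Pr (e : Edge) (r : ℕ) :
    Pr half (tupleprob_E e r ∩ tupleprob_F e r) ≤ 4 * arm half r ^ 2 := by
  have h1 := fkg_mixed (p := half) (tupleprob_local_E e r) (tupleprob_local_F e r)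
    (tupleprob_incr_E e r) (tupleprob_incr_F e r)
  have h2 : Pr half (tupleprob_E e r) ≤ 2 * arm half r := by
    refine Pr_union_le.trans ?_
    rw [Pr_arm, Pr_arm]
    linarith
  have h3 : Pr half (tupleprob_F e r) ≤ 2 * arm half r := by
    have hs : tupleprob_F e r = {ω | dual ω ∈ Arm (src e) r} ∪ {ω | dual ω ∈ Arm (lowFace e) r} :=
      rfl
    rw [hs]
    refine Pr_union_le.trans ?_
    rw [Pr_dual (localOn_arm _ _), Pr_dual (localOn_arm _ _), ArmBoxLower.sigma_half, Pr_arm,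
      Pr_arm]
    linarith
  have h4 : (0 : ℝ) ≤ arm half r := arm_nonneg
  calc _ ≤ Pr half (tupleprob_E e r) * Pr half (tupleprob_F e r) := h1
    _ ≤ (2 * arm half r) * (2 * arm half r) :=
        mul_le_mul h2 h3 Pr_nonneg (by positivity)
    _ = _ := by ring

/-- Independence of finitely many events which depend on pairwise disjoint sets of edges. -/
theorem tupleprob_indep {ι : Type*} (T : Finset ι) (B : ι → Set Config) (L : ι → Finset Edge)
    (hB : ∀ i ∈ T, LocalOn (L i) (B i))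
    (hL : ∀ i ∈ T, ∀ k ∈ T, i ≠ k → Disjoint (L i) (L k)) :
    Pr half {ω | ∀ i ∈ T, ω ∈ B i} = ∏ i ∈ T, Pr half (B i) := by
  classical
  induction T using Finset.induction_on with
  | empty =>
    simp only [Finset.notMem_empty, IsEmpty.forall_iff, implies_true, Finset.prod_empty]
    exact Pr_univ
  | insert i T hi ih =>
    rw [Finset.prod_insert hi, ← ih (fun k hk => hB k (Finset.mem_insert_of_mem hk))
      (fun k hk l hl => hL k (Finset.mem_insert_of_mem hk) l (Finset.mem_insert_of_mem hl))]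
    have hloc : LocalOn (T.biUnion L) {ω | ∀ k ∈ T, ω ∈ B k} := by
      intro ω ω' h hω k hk
      refine hB k (Finset.mem_insert_of_mem hk) ω ω' (fun f hf => h f ?_) (hω k hk)
      exact Finset.mem_biUnion.2 ⟨k, hk, hf⟩
    rw [← Pr_inter_of_disjoint (hB i (Finset.mem_insert_self i T)) hloc]
    · congr 1
      ext ω
      constructor
      · intro h
        exact ⟨h i (Finset.mem_insert_self i T), fun k hk => h k (Finset.mem_insert_of_mem hk)⟩
      · rintro ⟨h1, h2⟩ k hk
        rcases Finset.mem_insert.1 hk with rfl | hk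
        · exact h1
        · exact h2 k hk
    · rw [Finset.disjoint_biUnion_right]
      intro k hk
      refine hL i (Finset.mem_insert_self i T) k (Finset.mem_insert_of_mem hk) ?_
      rintro rfl
      exact hi hk

theorem tupleprob_arm_lower : ∃ c > (0 : ℝ), ∀ n : ℕ, 1 ≤ n → c ≤ arm half n ^ 2 * n := by
  obtain ⟨c, hc, H⟩ := armBox_lower
  refine ⟨c ^ 2, by positivity, ?_⟩
  intro n hn
  have h1 := H 0 n hn (Nat.zero_le n)
  have h2 : Pr half (ArmBox 0 0 n) ≤ arm half n := by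
    refine Pr_mono ?_
    rintro ω ⟨w, hw, u, hu, hc⟩
    have hw0 : w = 0 := by
      have h0 : ((0 : Vert).1) = 0 := rfl
      have h1 : ((0 : Vert).2) = 0 := rfl
      simp only [mem_ball, h0, h1] at hw
      ext
      · rw [h0]; omega
      · rw [h1]; omega
    subst hw0
    exact ⟨u, hu, hc⟩
  have hn' : (0 : ℝ) < n := by exact_mod_cast hn
  have h3 : c * Real.sqrt (1 / n) ≤ arm half n := by
    have h4 := h1.trans h2
    simpa using h4
  have h5 : (c * Real.sqrt (1 / n)) ^ 2 ≤ arm half n ^ 2 :=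
    pow_le_pow_left₀ (by positivity) h3 2
  rw [mul_pow, Real.sq_sqrt (by positivity)] at h5
  calc c ^ 2 = c ^ 2 * (1 / n) * n := by field_simp
    _ ≤ arm half n ^ 2 * n := mul_le_mul_of_nonneg_right h5 hn'.le

end Pool.Agent.H29.Kap

end

section

/-! # Probability that a tuple of edges lies in `R`, exponent `2/3` -/

set_option autoImplicit false

namespace Pool.Agent.H29.Kap

open Pool.Agent.H89.Perc

end Pool.Agent.H29.Kap

end

section

/-! # Exponential moments of the size of `R`, without logarithm -/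

set_option autoImplicit false

namespace Pool.Agent.H29.Kap

open Pool.Agent.H89.Perc Pool.Agent.Perc

end Pool.Agent.H29.Kap

end

section

/-! # Uniform control of the expected second differences, continued -/

set_option autoImplicit false

namespace Pool.Agent.H29.Kap

open Pool.Agent.H89.Perc Pool.Agent.Perc

lemma goodx_sq_le {p C : ℝ} (h0 : 0 ≤ p) (h1 : p ≤ 1) {F : Finset Edge} {f g : Finset Edge → ℝ}
    (h : ∀ S, S ⊆ F → |f S| ≤ g S) (hg : Ex p F (fun S => g S ^ 2) ≤ C) :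
    Ex p F (fun S => f S ^ 2) ≤ C := by
  refine (Ex_mono h0 h1 fun S hS => ?_).trans hg
  have h2 := h S hS
  have h3 := abs_nonneg (f S)
  have h4 : f S ^ 2 = |f S| ^ 2 := (sq_abs _).symm
  rw [h4]
  exact pow_le_pow_left₀ h3 h2 2

lemma goodx_abs_le {p C : ℝ} (h0 : 0 ≤ p) (h1 : p ≤ 1) {F : Finset Edge} {f : Finset Edge → ℝ}
    (hf : Ex p F (fun S => f S ^ 2) ≤ C) : |Ex p F f| ≤ 1 + C := by
  have h2 : Ex p F (fun S => |f S|) ≤ Ex p F (fun S => 1 + f S ^ 2) := by
    refine Ex_mono h0 h1 fun S _ => ?_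
    have h3 := sq_abs (f S)
    have h4 := abs_nonneg (f S)
    nlinarith only [h3, sq_nonneg (|f S| - 1)]
  have h5 : Ex p F (fun S => 1 + f S ^ 2) = 1 + Ex p F (fun S => f S ^ 2) := by
    rw [Ex_add, Ex_const]
  have h6 := abs_Ex_le (F := F) h0 h1 f
  linarith

lemma goodx_deriv {p C : ℝ} (h0 : 1 / 4 ≤ p) (h1 : p ≤ 3 / 4) {F : Finset Edge}
    {f : Finset Edge → ℝ} (hC : 0 ≤ C) (hf : Ex p F (fun S => f S ^ 2) ≤ C) {n : ℕ}
    (hF : F.card ≤ 168 * n ^ 2) : |deriv (fun q => Ex q F f) p| ≤ 30 * (1 + C) * n := by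
  have hp : 3 / 16 ≤ p * (1 - p) := by nlinarith only [h0, h1]
  have h2 := deriv_Ex_bound F f (p := p) (by linarith only [h0]) (by linarith only [h1])
  have hn : (0 : ℝ) ≤ n := Nat.cast_nonneg n
  have h3 : Real.sqrt (F.card / (p * (1 - p))) ≤ 30 * n := by
    rw [Real.sqrt_le_left (by positivity), div_le_iff₀ (by linarith only [hp])]
    have h4 : (F.card : ℝ) ≤ 168 * (n : ℝ) ^ 2 := by exact_mod_cast hF
    have h5 : 0 ≤ (n : ℝ) ^ 2 := sq_nonneg _
    nlinarith only [h4, hp]
  have h6 : Real.sqrt (Ex p F (fun S => f S ^ 2)) ≤ 1 + C := by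
    rw [Real.sqrt_le_left (by linarith only [hC])]
    nlinarith only [hf, hC]
  calc _ ≤ _ := h2
    _ ≤ (30 * n) * (1 + C) := mul_le_mul h3 h6 (Real.sqrt_nonneg _) (by positivity)
    _ = 30 * (1 + C) * n := by ring

lemma goodx_amgm {x y z : ℝ} (hx : 0 ≤ x) (hy : 0 ≤ y) (hz : 0 ≤ z) :
    x * y * z ≤ 1 / 3 * (x ^ 3 + y ^ 3 + z ^ 3) := by
  nlinarith only [hx, hy, hz, mul_nonneg (add_nonneg (add_nonneg hx hy) hz)
    (add_nonneg (add_nonneg (sq_nonneg (x - y)) (sq_nonneg (y - z))) (sq_nonneg (z - x)))]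

open Classical in
/-- The size of `R` for one rectangle. -/
noncomputable def rc (a b c d : ℤ) (S : Finset Edge) : ℕ :=
  ((redges a b c d).filter (fun e => InR (ofS S) a b c d e)).card

end Pool.Agent.H29.Kap

end

section

/-! # Main estimate -/

set_option autoImplicit false

open Filter Topology

namespace Pool.Agent.H29.Kap

open Pool.Agent.H89.Perc Pool.Agent.Perc

/-- Mixed first difference at scale `n`. -/
noncomputable def GG (n : ℕ) (p : ℝ) : ℝ :=
  EK p 0 (2 * n) 0 (2 * n) - 2 * EK p 0 (2 * n) 0 n + EK p 0 n 0 n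

/-- Second difference at scale `n`, with middle width `w` and height `b`. -/
noncomputable def DX (n w b : ℕ) (p : ℝ) : ℝ :=
  EK p 0 (n + w + n) 0 b - EK p 0 (n + w) 0 b - EK p n (n + w + n) 0 b + EK p n (n + w) 0 b

/-- An expectation is a polynomial in `2p - 1`. -/
lemma EK_poly (a b c d : ℤ) : ∃ (y : ℕ → ℝ) (D : ℕ),
    (∀ p, EK p a b c d = ∑ j ∈ Finset.range D, y j * (2 * p - 1) ^ j) ∧
      ∀ j, D ≤ j → y j = 0 := by
  obtain ⟨y, h1, h2, -⟩ := tilt (redges a b c d)
    (fun S => (K (ofS S) (rect a b c d) : ℝ)) (fun _ => redges a b c d)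
    (fun S _ => Finset.Subset.refl _) (fun S _ g _ _ => rfl) (fun S _ g h1 h2 => absurd h1 h2)
  exact ⟨y, (redges a b c d).card + 1, h1, fun j hj => h2 j (by omega)⟩

lemma GG_poly (n : ℕ) : ∃ (y : ℕ → ℝ) (D : ℕ),
    ∀ p, GG n p = ∑ j ∈ Finset.range D, y j * (2 * p - 1) ^ j := by
  obtain ⟨y1, D1, h1, h1'⟩ := EK_poly 0 (2 * n) 0 (2 * n)
  obtain ⟨y2, D2, h2, h2'⟩ := EK_poly 0 (2 * n) 0 n
  obtain ⟨y3, D3, h3, h3'⟩ := EK_poly 0 n 0 n
  refine ⟨fun j => y1 j - 2 * y2 j + y3 j, max D1 (max D2 D3), fun p => ?_⟩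
  unfold GG
  rw [h1, h2, h3, geo_sum_extend (le_max_left D1 (max D2 D3)) h1',
    geo_sum_extend ((le_max_left D2 D3).trans (le_max_right D1 (max D2 D3))) h2',
    geo_sum_extend ((le_max_right D2 D3).trans (le_max_right D1 (max D2 D3))) h3',
    Finset.mul_sum, ← Finset.sum_sub_distrib, ← Finset.sum_add_distrib]
  exact Finset.sum_congr rfl fun j _ => by ring

/-- The scale `k` term. -/
noncomputable def YY (k : ℕ) (p : ℝ) : ℝ := GG (2 ^ (k + 1)) p - 4 * GG (2 ^ k) p

lemma YY_partial (p : ℝ) (K : ℕ) :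
    ∑ k ∈ Finset.range K, YY k p / 4 ^ (k + 1) = GG (2 ^ K) p / 4 ^ K - GG 1 p := by
  induction K with
  | zero => simp
  | succ K ih =>
    rw [Finset.sum_range_succ, ih]
    unfold YY
    field_simp
    ring

end Pool.Agent.H29.Kap

end

section

/-!
# The derivative of the cluster density
-/

open MeasureTheory ProbabilityTheory unitInterval Filter Topology

namespace Pool.Agent.H31.AL

open Pool.Agent.H89.Perc Pool.Agent.H61.NC

theorem close_mono {e : Edge} {ω ω' : Config} (h : ∀ f, ω f = true → ω' f = true) :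
    ∀ f, close e ω f = true → close e ω' f = true := by
  intro f hf
  by_cases hfe : f = e
  · subst hfe
    unfold close at hf
    rw [Function.update_self] at hf
    exact absurd hf (by decide)
  · unfold close at hf ⊢
    rw [Function.update_of_ne hfe] at hf ⊢
    exact h f hf

theorem close_congr {e f : Edge} {ω ω' : Config} (h : ω f = ω' f) :
    close e ω f = close e ω' f := by
  by_cases hfe : f = e
  · subst hfe
    unfold close
    rw [Function.update_self, Function.update_self]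
  · unfold close
    rw [Function.update_of_ne hfe, Function.update_of_ne hfe, h]

theorem kd_conn {ω : Config} {u v : Vert} (z : Vert) (h : Conn ω Set.univ u v) :
    ∃ m : ℕ, Conn ω (ball z m) u v := by
  refine h.induction_right (P := fun w => ∃ m : ℕ, Conn ω (ball z m) u w) ?_ ?_
  · refine ⟨(u.1 - z.1).natAbs + (u.2 - z.2).natAbs, Conn.refl ?_⟩
    rw [mem_ball]
    omega
  · rintro a b _ hs ⟨m, hm⟩
    have hb : ball z m ⊆ ball z (m + 1) := by
      intro w hw
      rw [mem_ball] at hw ⊢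
      omega
    have ha := hm.mem_right
    have h1 := hs.fst_le
    have h2 := hs.symm.fst_le
    have h3 := hs.snd_le
    obtain ⟨-, -, f, hf, ho⟩ := hs
    refine ⟨m + 1, (hm.mono_set hb).tail ⟨hb ha, ?_, f, hf, ho⟩⟩
    rw [mem_ball] at ha ⊢
    omega

/-! ### The derivative of the number of clusters -/

open Pool.Agent.H29.Kap

theorem kd_card (n : ℕ) : ((redges 0 ((n : ℤ) + 1 - 1) 0 ((n : ℤ) + 1 - 1)).card : ℝ) =
    2 * n * (n + 1) := by
  unfold redges
  rw [Finset.card_union_of_disjoint]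
  · simp only [Finset.card_product, Int.card_Icc, Finset.card_singleton]
    have e1 : ((n : ℤ) + 1 - 1 - 1 + 1 - 0).toNat = n := by omega
    have e2 : ((n : ℤ) + 1 - 1 + 1 - 0).toNat = n + 1 := by omega
    rw [e1, e2]
    push_cast
    ring
  · rw [Finset.disjoint_left]
    intro e h1 h2
    simp only [Finset.mem_product, Finset.mem_singleton] at h1 h2
    rw [h1.2.2] at h2
    exact absurd h2.2.2 (by decide)

end Pool.Agent.H31.AL

end

section

/-!
# Pivotal edges of the connection event on the torus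
-/

open MeasureTheory ProbabilityTheory unitInterval

namespace Pool.Agent.H90.AL

open Pool.Agent.H89.Perc Pool.Agent.H61.NC Pool.Agent.H31.AL

variable {N : ℕ} {d : Bool}

/-- The periodic configuration with the middle edge closed. -/
def cfg (N : ℕ) (d : Bool) (ω : Config) : Config := per N (close (ctr N d) ω)

lemma isPer_cfg (N : ℕ) (d : Bool) (ω : Config) : IsPer N (cfg N d ω) := isPer_per N _

lemma ctr_mem' (hN : 1 ≤ N) (d : Bool) : ctr N d ∈ tEdges N := by
  rw [mem_tEdges_iff]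
  simp only [ctr, mid]
  omega

lemma cfg_apply (N : ℕ) (d : Bool) (ω : Config) (g : Edge) :
    cfg N d ω g = if modE N g = ctr N d then false else ω (modE N g) := by
  unfold cfg per close
  rw [Function.update_apply]
  rfl

lemma cfg_update (N : ℕ) (d : Bool) (ω : Config) (f g : Edge) (b : Bool) :
    cfg N d (Function.update ω f b) g =
      if modE N g = ctr N d then false else if modE N g = f then b else ω (modE N g) := by
  rw [cfg_apply, Function.update_apply]

lemma addEdge_cfg {f : Edge} (hf : f ∈ tEdges N) (ω : Config) :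
    AddEdge N f (cfg N d (Function.update ω f false)) (cfg N d (Function.update ω f true)) := by
  rintro v v' ⟨-, -, g, hg, hgo⟩
  by_cases hge : modE N g = f
  · right
    obtain ⟨a, b, hab⟩ := modE_shift (N := N) g
    rw [hge] at hab
    refine ⟨a, b, ?_⟩
    have h3 := joins_shift (a * N, b * N) (joins_src_tgt f)
    rw [← hab] at h3
    rcases hg with ⟨g1, g2⟩ | ⟨g1, g2⟩ <;> rcases h3 with ⟨g3, g4⟩ | ⟨g3, g4⟩
    · left
      exact ⟨g1.trans g3.symm, g2.trans g4.symm⟩
    · right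
      exact ⟨g1.trans g4.symm, g2.trans g3.symm⟩
    · right
      exact ⟨g1.trans g4.symm, g2.trans g3.symm⟩
    · left
      exact ⟨g1.trans g3.symm, g2.trans g4.symm⟩
  · left
    refine ⟨Set.mem_univ _, Set.mem_univ _, g, hg, ?_⟩
    rw [cfg_update, if_neg hge] at hgo ⊢
    exact hgo

/-- Vertices at distance more than `r + 1` from the first endpoint: no translate of an endpoint of
`f` is in the ball. -/
lemma far_ends (hN : 1 ≤ N) {f : Edge} {c : Vert} {r : ℕ} (h : r + 1 < dT N (src f) c) (a b : ℤ) :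
    ((src f).1 - a * N, (src f).2 - b * N) ∉ ball c r ∧
    ((tgt f).1 - a * N, (tgt f).2 - b * N) ∉ ball c r := by
  have h1 := notMem_of_lt hN h a b
  have h2 := abs_le.1 (tgt_near f).1
  have h3 := abs_le.1 (tgt_near f).2
  rw [mem_ball] at h1
  simp only at h1
  push_cast at h1
  constructor
  · intro h4
    rw [mem_ball] at h4
    simp only at h4
    apply h1
    omega
  · intro h4
    rw [mem_ball] at h4
    simp only at h4
    apply h1
    omega

/-- In a ball which contains no translate of `e`, except possibly `e` itself. -/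
lemma modE_ball (hN : 1 ≤ N) {f g : Edge} {r : ℕ} (hr : 2 * r < N)
    (hg : src g ∈ ball (src f) r) (h : modE N g = f) : g = f := by
  obtain ⟨a, b, hab⟩ := modE_shift (N := N) g
  rw [h] at hab
  rw [hab] at hg ⊢
  obtain ⟨x, y, c⟩ := f
  simp only [mem_ball, src, shiftE] at hg ⊢
  have ha : a = 0 := by
    by_contra h0
    rcases lt_or_gt_of_ne h0 with h0 | h0
    · have : a * N ≤ -1 * N := mul_le_mul_of_nonneg_right (by omega) (by omega)
      omega
    · have : 1 * N ≤ a * N := mul_le_mul_of_nonneg_right (by omega) (by omega)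
      omega
  have hb : b = 0 := by
    by_contra h0
    rcases lt_or_gt_of_ne h0 with h0 | h0
    · have : b * N ≤ -1 * N := mul_le_mul_of_nonneg_right (by omega) (by omega)
      omega
    · have : 1 * N ≤ b * N := mul_le_mul_of_nonneg_right (by omega) (by omega)
      omega
  rw [ha, hb]
  simp

/-- In a ball far from `f` there is no translate of `f`. -/
lemma modE_far (hN : 1 ≤ N) {f g : Edge} {c : Vert} {r : ℕ} (hr : r < dT N (src f) c)
    (hg : src g ∈ ball c r) : modE N g ≠ f := by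
  intro h
  have h1 := modE_mem_SR (N := N) hN hg
  rw [mem_SR, h] at h1
  omega

end Pool.Agent.H90.AL

end

section

/-!
# Joint influences of two edges on the connection event
-/

open MeasureTheory ProbabilityTheory unitInterval

namespace Pool.Agent.H90.AL

open Pool.Agent.H89.Perc Pool.Agent.H61.NC Pool.Agent.H31.AL Pool.Agent.H29.Sep

variable {N : ℕ} {d : Bool} {J : Set Config} {u v w : Edge}

/-- The event `J` implies arms of `u`, `v`, `w`, where `u` and `v` are the closest edges. -/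
structure Role (N : ℕ) (J : Set Config) (u v w : Edge) : Prop where
  near : ∀ r : ℕ, 1 ≤ r → 2 * r + 2 ≤ N → r + 1 < dT N (src u) (src v) →
    r + 1 < dT N (src u) (src w) → r + 1 < dT N (src v) (src w) →
    J ⊆ A4T N u r ∩ A4T N v r
  far : ∀ r : ℕ, 1 ≤ r → 2 * r + 2 ≤ N → r + 1 < dT N (src u) (src w) →
    r + 1 < dT N (src v) (src w) → J ⊆ A4T N w r
  ann : ∀ t R : ℕ, 1 ≤ t → t ≤ R → 2 * R < N → dT N (src u) (src v) + 1 ≤ t →
    R + 1 < dT N (src u) (src w) → J ⊆ A2T N (src u) t R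

/-- Changing an edge far from `f`. -/
lemma a4_update (hN : 1 ≤ N) {f g : Edge} {r : ℕ} {b : Bool} {ω : Config}
    (h : r < dT N (src g) (src f)) (h' : Function.update ω g b ∈ A4T N f r) : ω ∈ A4T N f r := by
  refine localOn_A4T' hN f r _ _ (fun e he => ?_) h'
  rw [Function.update_of_ne]
  rintro rfl
  rw [mem_SR] at he
  omega

lemma a2_update (hN : 1 ≤ N) {g : Edge} {c : Vert} {t R : ℕ} {b : Bool} {ω : Config} (ht : 1 ≤ t)
    (hR : t + R ≤ N) (h : dT N (src g) c < t ∨ R < dT N (src g) c)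
    (h' : Function.update ω g b ∈ A2T N c t R) : ω ∈ A2T N c t R := by
  refine localOn_A2T hN c ht hR _ _ (fun e he => ?_) h'
  rw [Function.update_of_ne]
  rintro rfl
  rw [mem_SR] at he
  omega

/-! ### Probabilities -/

lemma disj_SR (hN : 1 ≤ N) {c c' : Vert} {t R t' R' : ℕ}
    (h : R + R' < dT N c c' ∨ dT N c c' + R' < t) : Disjoint (SR N c t R) (SR N c' t' R') := by
  rw [Finset.disjoint_left]
  intro g hg hg'
  rw [mem_SR] at hg hg'
  have h1 := dT_tri hN c (src g) c'
  have h2 := dT_tri hN (src g) c' c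
  rw [dT_comm hN c (src g)] at h1
  rw [dT_comm hN c' c] at h2
  rcases h with h | h <;> omega

theorem Pr_role_A (q : I) (hu : u ∈ tEdges N) (hv : v ∈ tEdges N) (hw : w ∈ tEdges N)
    (hJ : Role N J u v w) {r t R r' : ℕ} (hN : 1 ≤ N) (h1 : 1 ≤ r) (h2 : 2 * r < dT N (src u) (src v))
    (h3 : dT N (src u) (src v) + r < t) (h4 : t ≤ R) (h5 : 1 ≤ r')
    (h6 : R + r' + 1 < dT N (src u) (src w)) (h7 : r + r' + 1 < dT N (src v) (src w)) :
    Pr q J ≤ a4 q r * a4 q r * (Pr q (A2 t R) * a4 q r') := by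
  classical
  have b1 := dT_le_half hN (src u) (src w)
  have b2 := dT_le_half hN (src u) (src v)
  have hsub : J ⊆ (A4T N u r ∩ A4T N v r) ∩ (A2T N (src u) t R ∩ A4T N w r') := by
    intro ω hω
    exact ⟨hJ.near r h1 (by omega) (by omega) (by omega) (by omega) hω,
      hJ.ann t R (by omega) h4 (by omega) (by omega) (by omega) hω,
      hJ.far r' h5 (by omega) (by omega) (by omega) hω⟩
  refine (Pr_mono hsub).trans (le_of_eq ?_)
  rw [Pr_inter_of_disjoint ((localOn_A4T' hN u r).inter' (localOn_A4T' hN v r))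
      ((localOn_A2T hN (src u) (by omega : 1 ≤ t) (by omega : t + R ≤ N)).inter'
        (localOn_A4T' hN w r')) ?_,
    Pr_inter_of_disjoint (localOn_A4T' hN u r) (localOn_A4T' hN v r)
      (disj_SR hN (Or.inl (by omega))),
    Pr_inter_of_disjoint (localOn_A2T hN (src u) (by omega : 1 ≤ t) (by omega : t + R ≤ N))
      (localOn_A4T' hN w r') (disj_SR hN (Or.inl (by omega))),
    Pr_A4T q hu (by omega), Pr_A4T q hv (by omega), Pr_A4T q hw (by omega),
    Pr_A2T q _ (by omega)]
  rw [Finset.disjoint_union_left, Finset.disjoint_union_right, Finset.disjoint_union_right]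
  refine ⟨⟨?_, disj_SR hN (Or.inl (by omega))⟩, ⟨?_, disj_SR hN (Or.inl (by omega))⟩⟩
  · exact (disj_SR hN (Or.inr (by rw [dT_self]; omega))).symm
  · exact (disj_SR hN (Or.inr (by omega))).symm

theorem Pr_role_B (q : I) (hu : u ∈ tEdges N) (hv : v ∈ tEdges N) (hw : w ∈ tEdges N)
    (hJ : Role N J u v w) {r r' : ℕ} (hN : 1 ≤ N) (h1 : 1 ≤ r) (h2 : 2 * r < dT N (src u) (src v))
    (h5 : 1 ≤ r') (h6 : r + r' + 1 < dT N (src u) (src w))
    (h7 : r + r' + 1 < dT N (src v) (src w)) :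
    Pr q J ≤ a4 q r * a4 q r * a4 q r' := by
  classical
  have b1 := dT_le_half hN (src u) (src w)
  have b2 := dT_le_half hN (src u) (src v)
  have hsub : J ⊆ (A4T N u r ∩ A4T N v r) ∩ A4T N w r' := by
    intro ω hω
    exact ⟨hJ.near r h1 (by omega) (by omega) (by omega) (by omega) hω,
      hJ.far r' h5 (by omega) (by omega) (by omega) hω⟩
  refine (Pr_mono hsub).trans (le_of_eq ?_)
  rw [Pr_inter_of_disjoint ((localOn_A4T' hN u r).inter' (localOn_A4T' hN v r))
      (localOn_A4T' hN w r') ?_,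
    Pr_inter_of_disjoint (localOn_A4T' hN u r) (localOn_A4T' hN v r)
      (disj_SR hN (Or.inl (by omega))),
    Pr_A4T q hu (by omega), Pr_A4T q hv (by omega), Pr_A4T q hw (by omega)]
  rw [Finset.disjoint_union_left]
  exact ⟨disj_SR hN (Or.inl (by omega)), disj_SR hN (Or.inl (by omega))⟩

theorem Pr_role_C (q : I) (hw : w ∈ tEdges N)
    (hJ : Role N J u v w) {t R r' : ℕ} (hN : 1 ≤ N) (h3 : dT N (src u) (src v) < t) (h4 : t ≤ R)
    (h5 : 1 ≤ r') (h6 : R + r' + 1 < dT N (src u) (src w)) (h7 : r' + 1 < dT N (src v) (src w)) :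
    Pr q J ≤ Pr q (A2 t R) * a4 q r' := by
  classical
  have b1 := dT_le_half hN (src u) (src w)
  have hsub : J ⊆ A2T N (src u) t R ∩ A4T N w r' := by
    intro ω hω
    exact ⟨hJ.ann t R (by omega) h4 (by omega) (by omega) (by omega) hω,
      hJ.far r' h5 (by omega) (by omega) (by omega) hω⟩
  refine (Pr_mono hsub).trans (le_of_eq ?_)
  rw [Pr_inter_of_disjoint (localOn_A2T hN (src u) (by omega : 1 ≤ t) (by omega : t + R ≤ N))
      (localOn_A4T' hN w r') (disj_SR hN (Or.inl (by omega))), Pr_A4T q hw (by omega),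
    Pr_A2T q _ (by omega)]

/-- Comparison of powers. -/
lemma pow_cmp {s : ℝ} (hs : 0 ≤ s) {k x y : ℕ} (hx : 1 ≤ x) (h : y + 1 ≤ k * x) :
    (x : ℝ) ^ (-s) ≤ (k : ℝ) ^ s * ((y : ℝ) + 1) ^ (-s) := by
  have hx0 : (0 : ℝ) < x := by exact_mod_cast hx
  have hk : 1 ≤ k := by
    rcases Nat.eq_zero_or_pos k with h0 | h0
    · rw [h0, zero_mul] at h; omega
    · exact h0
  have hk0 : (0 : ℝ) < k := by exact_mod_cast hk
  have hy : ((y : ℝ) + 1) ≤ k * x := by exact_mod_cast h
  have hy0 : (0 : ℝ) < (y : ℝ) + 1 := by positivity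
  have h1 : ((y : ℝ) + 1) ^ s ≤ (k : ℝ) ^ s * (x : ℝ) ^ s := by
    rw [← Real.mul_rpow hk0.le hx0.le]
    exact Real.rpow_le_rpow hy0.le hy hs
  rw [Real.rpow_neg hx0.le, Real.rpow_neg hy0.le, ← div_eq_mul_inv, le_div_iff₀ (by positivity),
    inv_mul_le_iff₀ (by positivity)]
  rw [mul_comm] at h1
  exact h1

/-- The basic estimate. -/
theorem estimate (hQM : QMann) : ∀ c A s : ℝ, 0 < c → 0 < A → 0 < s →
    ∃ C : ℝ, 0 < C ∧ ∀ (N : ℕ) (q : I) (J : Set Config) (u v w : Edge) (d₁ d₂ : ℕ), 1 ≤ N →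
      1 / 4 ≤ (q : ℝ) → (q : ℝ) ≤ 3 / 4 → RSWreg c (64 * N) q →
      (∀ t : ℕ, 1 ≤ t → t ≤ N → a4 q t ≤ A * (t : ℝ) ^ (-s)) →
      u ∈ tEdges N → v ∈ tEdges N → w ∈ tEdges N → Role N J u v w →
      dT N (src u) (src v) = d₁ → d₁ ≤ d₂ → d₂ ≤ dT N (src u) (src w) →
      d₂ ≤ dT N (src v) (src w) →
      Pr q J ≤ C * (((d₁ : ℝ) + 1) ^ (-s) * (((d₂ : ℝ) + 1) ^ (-s) * ((d₂ : ℝ) + 1) ^ (-s))) := by
  intro c A s hc hA hs
  obtain ⟨C₁, hC₁, hQ⟩ := hQM c hc
  obtain ⟨K8, hK8⟩ : ∃ K8 : ℝ, K8 = (8 : ℝ) ^ s := ⟨_, rfl⟩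
  obtain ⟨K32, hK32⟩ : ∃ K32 : ℝ, K32 = (32 : ℝ) ^ s := ⟨_, rfl⟩
  obtain ⟨K64, hK64⟩ : ∃ K64 : ℝ, K64 = (64 : ℝ) ^ s := ⟨_, rfl⟩
  have p8 : 0 < K8 := by rw [hK8]; positivity
  have p32 : 0 < K32 := by rw [hK32]; positivity
  have p64 : 0 < K64 := by rw [hK64]; positivity
  refine ⟨C₁ * A ^ 3 * K8 ^ 3 + A ^ 3 * K8 ^ 2 * K32 + C₁ * 4 ^ 24 * A ^ 2 * K8 ^ 3 + K8 * K64 ^ 2,
    by positivity, ?_⟩
  intro N q J u v w d₁ d₂ hN hq1 hq2 hR ha hu hv hw hJ e1 e2 e3 e4
  have b1 := dT_le_half hN (src u) (src w)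
  have b2 := dT_le_half hN (src u) (src v)
  obtain ⟨X, hX⟩ : ∃ X : ℝ, X = ((d₁ : ℝ) + 1) ^ (-s) := ⟨_, rfl⟩
  obtain ⟨Y, hY⟩ : ∃ Y : ℝ, Y = ((d₂ : ℝ) + 1) ^ (-s) := ⟨_, rfl⟩
  have hX0 : 0 < X := by rw [hX]; positivity
  have hY0 : 0 < Y := by rw [hY]; positivity
  rw [← hX, ← hY]
  have z1 : 0 ≤ C₁ * A ^ 3 * K8 ^ 3 * (X * (Y * Y)) := by positivity
  have z2 : 0 ≤ A ^ 3 * K8 ^ 2 * K32 * (X * (Y * Y)) := by positivity
  have z3 : 0 ≤ C₁ * 4 ^ 24 * A ^ 2 * K8 ^ 3 * (X * (Y * Y)) := by positivity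
  have z4 : 0 ≤ K8 * K64 ^ 2 * (X * (Y * Y)) := by positivity
  have hexp : (C₁ * A ^ 3 * K8 ^ 3 + A ^ 3 * K8 ^ 2 * K32 + C₁ * 4 ^ 24 * A ^ 2 * K8 ^ 3 +
      K8 * K64 ^ 2) * (X * (Y * Y)) = C₁ * A ^ 3 * K8 ^ 3 * (X * (Y * Y)) +
      A ^ 3 * K8 ^ 2 * K32 * (X * (Y * Y)) + C₁ * 4 ^ 24 * A ^ 2 * K8 ^ 3 * (X * (Y * Y)) +
      K8 * K64 ^ 2 * (X * (Y * Y)) := by ring
  rw [hexp]
  obtain ⟨g, hg⟩ : ∃ g : ℕ → ℝ, g = fun r => a4 q r := ⟨_, rfl⟩
  have hg0 : ∀ r, 0 ≤ g r := fun r => by rw [hg]; exact a4_nonneg q r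
  have hgr : ∀ r, a4 q r = g r := fun r => by rw [hg]
  -- power bounds
  have hpow : ∀ (r y k : ℕ) (K Z : ℝ), 1 ≤ r → r ≤ N → y + 1 ≤ k * r → K = (k : ℝ) ^ s →
      Z = ((y : ℝ) + 1) ^ (-s) → g r ≤ A * K * Z := by
    intro r y k K Z h1 h2 h3 h4 h5
    rw [← hgr, h4, h5, mul_assoc]
    exact (ha r h1 h2).trans (mul_le_mul_of_nonneg_left (pow_cmp hs.le h1 h3) hA.le)
  by_cases hd1 : 8 ≤ d₁
  · by_cases hcase : 16 * (d₁ / 4) ≤ d₂ / 2
    · -- annulus
      have h1 := Pr_role_A q hu hv hw hJ (r := d₁ / 4) (t := 16 * (d₁ / 4)) (R := d₂ / 2)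
        (r' := d₂ / 4) hN (by omega) (by omega) (by omega) hcase (by omega) (by omega) (by omega)
      have h2 := hQ (64 * N) (d₁ / 4) (d₂ / 2) q (by omega) hcase (by omega) hR
      have h3 := hpow (d₁ / 4) d₁ 8 K8 X (by omega) (by omega) (by omega) hK8 hX
      have h4 := hpow (d₂ / 4) d₂ 8 K8 Y (by omega) (by omega) (by omega) hK8 hY
      have h5 := hpow (d₂ / 2) d₂ 8 K8 Y (by omega) (by omega) (by omega) hK8 hY
      rw [hgr, hgr] at h1
      rw [hgr, hgr] at h2
      have hA20 : 0 ≤ Pr q (A2 (16 * (d₁ / 4)) (d₂ / 2)) := Pr_nonneg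
      have h6 : g (d₁ / 4) * g (d₁ / 4) * (Pr q (A2 (16 * (d₁ / 4)) (d₂ / 2)) * g (d₂ / 4)) ≤
          C₁ * A ^ 3 * K8 ^ 3 * (X * (Y * Y)) := by
        calc g (d₁ / 4) * g (d₁ / 4) * (Pr q (A2 (16 * (d₁ / 4)) (d₂ / 2)) * g (d₂ / 4))
            = g (d₁ / 4) * (g (d₁ / 4) * Pr q (A2 (16 * (d₁ / 4)) (d₂ / 2))) * g (d₂ / 4) := by
              ring
          _ ≤ (A * K8 * X) * (C₁ * (A * K8 * Y)) * (A * K8 * Y) := by
              refine mul_le_mul (mul_le_mul h3 (h2.trans ?_) (mul_nonneg (hg0 _) hA20)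
                (by positivity)) h4 (hg0 _) (by positivity)
              exact mul_le_mul_of_nonneg_left h5 hC₁.le
          _ = _ := by ring
      linarith only [z2, z3, z4, h1, h6]
    · -- comparable distances
      have h1 := Pr_role_B q hu hv hw hJ (r := d₁ / 4) (r' := d₂ / 4) hN (by omega) (by omega)
        (by omega) (by omega) (by omega)
      have h3 := hpow (d₁ / 4) d₁ 8 K8 X (by omega) (by omega) (by omega) hK8 hX
      have h3' := hpow (d₁ / 4) d₂ 32 K32 Y (by omega) (by omega) (by omega) hK32 hY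
      have h4 := hpow (d₂ / 4) d₂ 8 K8 Y (by omega) (by omega) (by omega) hK8 hY
      rw [hgr, hgr] at h1
      have h6 : g (d₁ / 4) * g (d₁ / 4) * g (d₂ / 4) ≤ A ^ 3 * K8 ^ 2 * K32 * (X * (Y * Y)) := by
        calc g (d₁ / 4) * g (d₁ / 4) * g (d₂ / 4) ≤ (A * K8 * X) * (A * K32 * Y) * (A * K8 * Y) :=
              mul_le_mul (mul_le_mul h3 h3' (hg0 _) (by positivity)) h4 (hg0 _) (by positivity)
          _ = _ := by ring
      linarith only [z1, z3, z4, h1, h6]
  · push Not at hd1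
    have hXone : 1 ≤ K8 * X := by
      have h1 := pow_cmp hs.le (k := 8) (x := 1) (y := d₁) le_rfl (by omega)
      rw [Nat.cast_one, Real.one_rpow] at h1
      rw [hK8, hX]
      exact_mod_cast h1
    by_cases hd2 : 64 ≤ d₂
    · have h1 := Pr_role_C q hw hJ (t := 16) (R := d₂ / 2) (r' := d₂ / 4) hN (by omega) (by omega)
        (by omega) (by omega) (by omega)
      have h2 := hQ (64 * N) 1 (d₂ / 2) q le_rfl (by omega) (by omega) hR
      have h4 := hpow (d₂ / 4) d₂ 8 K8 Y (by omega) (by omega) (by omega) hK8 hY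
      have h5 := hpow (d₂ / 2) d₂ 8 K8 Y (by omega) (by omega) (by omega) hK8 hY
      have h7 := a4_one q hq1 hq2
      rw [hgr] at h1
      rw [mul_one, hgr (d₂ / 2)] at h2
      have hA20 : 0 ≤ Pr q (A2 16 (d₂ / 2)) := Pr_nonneg
      have h8 : Pr q (A2 16 (d₂ / 2)) ≤ C₁ * 4 ^ 24 * (A * K8 * Y) := by
        have h9 : (1 / 4 : ℝ) ^ 24 * Pr q (A2 16 (d₂ / 2)) ≤ C₁ * (A * K8 * Y) :=
          (mul_le_mul_of_nonneg_right h7 hA20).trans
            (h2.trans (mul_le_mul_of_nonneg_left h5 hC₁.le))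
        calc Pr q (A2 16 (d₂ / 2)) = 4 ^ 24 * ((1 / 4 : ℝ) ^ 24 * Pr q (A2 16 (d₂ / 2))) := by
              rw [← mul_assoc, ← mul_pow]; norm_num
          _ ≤ 4 ^ 24 * (C₁ * (A * K8 * Y)) := mul_le_mul_of_nonneg_left h9 (by positivity)
          _ = _ := by ring
      have h6 : Pr q (A2 16 (d₂ / 2)) * g (d₂ / 4) ≤
          C₁ * 4 ^ 24 * A ^ 2 * K8 ^ 3 * (X * (Y * Y)) := by
        calc Pr q (A2 16 (d₂ / 2)) * g (d₂ / 4) ≤ (C₁ * 4 ^ 24 * (A * K8 * Y)) * (A * K8 * Y) :=
              mul_le_mul h8 h4 (hg0 _) (by positivity)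
          _ = C₁ * 4 ^ 24 * A ^ 2 * K8 ^ 2 * (Y * Y) * 1 := by ring
          _ ≤ C₁ * 4 ^ 24 * A ^ 2 * K8 ^ 2 * (Y * Y) * (K8 * X) :=
              mul_le_mul_of_nonneg_left hXone (by positivity)
          _ = _ := by ring
      linarith only [z1, z2, z4, h1, h6]
    · push Not at hd2
      have hYone : 1 ≤ K64 * Y := by
        have h1 := pow_cmp hs.le (k := 64) (x := 1) (y := d₂) le_rfl (by omega)
        rw [Nat.cast_one, Real.one_rpow] at h1
        rw [hK64, hY]
        exact_mod_cast h1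
      have h1 : Pr q J ≤ 1 := Pr_le_one
      have h2 : (1 : ℝ) ≤ K8 * K64 ^ 2 * (X * (Y * Y)) := by
        calc (1 : ℝ) = 1 * (1 * 1) := by ring
          _ ≤ (K8 * X) * ((K64 * Y) * (K64 * Y)) :=
              mul_le_mul hXone (mul_le_mul hYone hYone zero_le_one (by positivity)) (by norm_num)
                (by positivity)
          _ = _ := by ring
      linarith only [z1, z2, z3, h1, h2]

end Pool.Agent.H90.AL

end

section

/-!
# Second derivative of the connection probability on the torus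
-/

open MeasureTheory ProbabilityTheory unitInterval

namespace Pool.Agent.H31.AL

open Pool.Agent.H89.Perc Pool.Agent.H61.NC Pool.Agent.H29.Sep Pool.Agent.H90.AL

/-- Connection inside a ball. -/
def B0 (e : Edge) (r : ℕ) : Set Config :=
  {ω | Conn (close e ω) (ball (src e) r) (src e) (tgt e)}

theorem localOn_B0 (e : Edge) (r : ℕ) :
    LocalOn (eRect (e.1 - r) (e.1 + r) (e.2.1 - r) (e.2.1 + r)) (B0 e r) := by
  intro ω ω' h hc
  refine Conn.congr (fun f hf _ => ?_) hc
  have h1 := h f (mem_eRect.2 hf)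
  unfold close
  by_cases hfe : f = e
  · subst hfe
    rw [Function.update_self, Function.update_self]
  · rw [Function.update_of_ne hfe, Function.update_of_ne hfe, h1]

theorem Pr_B0 (q : I) (v : Vert) (d : Bool) (r : ℕ) :
    Pr q (B0 (v.1, v.2, d) r) = Pr q (B0 (0, 0, d) r) := by
  have hcl : ∀ ω : Config, close (0, 0, d) (fun f => ω (shiftE v f)) =
      fun f => close (v.1, v.2, d) ω (shiftE v f) := by
    intro ω
    funext f
    unfold close
    by_cases hf : f = (0, 0, d)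
    · subst hf
      have : shiftE v (0, 0, d) = (v.1, v.2, d) := by simp [shiftE]
      rw [this, Function.update_self, Function.update_self]
    · have : shiftE v f ≠ (v.1, v.2, d) := by
        intro h
        apply hf
        apply shiftE_injective v
        rw [h]
        simp [shiftE]
      rw [Function.update_of_ne hf, Function.update_of_ne this]
  have hb : {w : Vert | (w.1 - v.1, w.2 - v.2) ∈ ball (src (0, 0, d)) r} =
      ball (src (v.1, v.2, d)) r := by
    ext w
    simp only [Set.mem_ofPred_eq, mem_ball, src]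
    omega
  have hs : (((src ((0 : ℤ), (0 : ℤ), d)).1 + v.1, (src ((0 : ℤ), (0 : ℤ), d)).2 + v.2) : Vert) =
      src (v.1, v.2, d) := by simp [src]
  have ht : (((tgt ((0 : ℤ), (0 : ℤ), d)).1 + v.1, (tgt ((0 : ℤ), (0 : ℤ), d)).2 + v.2) : Vert) =
      tgt (v.1, v.2, d) := by
    cases d <;> simp [tgt, add_comm]
  have key : {ω : Config | (fun f => ω (shiftE v f)) ∈ B0 (0, 0, d) r} = B0 (v.1, v.2, d) r := by
    ext ω
    simp only [B0, Set.mem_ofPred_eq]
    rw [hcl, conn_shift, hb, hs, ht]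
  rw [← key]
  exact Pr_comp (localOn_B0 (0, 0, d) r) (shiftE_injective v).injOn

/-- A connection between two vertices of a ball which is not realised inside the ball. -/
lemma reach_sphere {ω : Config} {z : Vert} {r : ℕ} {u v : Vert} (h : Conn ω Set.univ u v)
    (hu : u ∈ ball z r) (hn : ¬ Conn ω (ball z r) u v) :
    ∃ x ∈ sphere z r, Conn ω (ball z r) u x := by
  obtain ⟨w, w', h1, h2, h3, -⟩ := h.exists_exit (T := {w | Conn ω (ball z r) u w})
    (Conn.refl hu) hn
  have h4 : Conn ω (ball z r) u w := h1.mem_right.2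
  have h5 : w' ∉ ball z r := by
    intro h6
    apply h3
    obtain ⟨-, -, g, g1, g2⟩ := h2
    exact h4.tail ⟨h4.mem_right, h6, g, g1, g2⟩
  have h6 : Conn ω Set.univ u w' := (h1.mono_set (Set.subset_univ _)).tail h2
  obtain ⟨x, hx, hc⟩ := h6.to_sphere hu (Or.inl h5)
  exact ⟨x, hx, hc.mono_set Set.inter_subset_right⟩

lemma tgt_mem_ball (e : Edge) {r : ℕ} (hr : 1 ≤ r) : tgt e ∈ ball (src e) r := by
  have h3 := abs_le.1 (tgt_near e).1
  have h4 := abs_le.1 (tgt_near e).2
  rw [mem_ball]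
  omega

lemma cfg_ball {N : ℕ} (hN : 1 ≤ N) (d : Bool) {r : ℕ} (hr : 2 * r < N) (ω : Config) (g : Edge)
    (hg : src g ∈ ball (src (ctr N d)) r) : cfg N d ω g = close (ctr N d) (per N ω) g := by
  rw [cfg_apply]
  unfold close
  by_cases g2 : modE N g = ctr N d
  · rw [if_pos g2, modE_ball hN hr hg g2, Function.update_self]
  · rw [if_neg g2, Function.update_of_ne]
    · rfl
    · rintro rfl
      exact g2 (modE_eq (ctr_mem' hN d))

end Pool.Agent.H31.AL

end

end

section

/-! The parts of this file: H29.Kap.ArmBox3, H29.Kap.ArmExt3, H29.Kap.TupleProb, H29.Kap.TupleProb3, H29.Kap.ExpMom3, H29.Kap.GoodX, H29.Kap.Main, H31.AL.KapDeriv, H90.AL.Piv, H90.AL.Est, H31.AL.TorusDer. -/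

section

/-! # Lower bound for annulus crossing probabilities, exponent `1/3` -/

set_option autoImplicit false

open MeasureTheory ProbabilityTheory unitInterval

namespace Pool.Agent.H29.Kap

open Pool.Agent.H89.Perc

end Pool.Agent.H29.Kap

end

section

/-! # Regularity of the one-arm probability, exponent `1/3` -/

set_option autoImplicit false

namespace Pool.Agent.H29.Kap

open Pool.Agent.H89.Perc

end Pool.Agent.H29.Kap

end

section

/-! # Probability that a tuple of edges lies in `R` -/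

set_option autoImplicit false

namespace Pool.Agent.H29.Kap

open Pool.Agent.H89.Perc

end Pool.Agent.H29.Kap

end

section

/-! # Probability that a tuple of edges lies in `R`, exponent `2/3` -/

set_option autoImplicit false

namespace Pool.Agent.H29.Kap

open Pool.Agent.H89.Perc

end Pool.Agent.H29.Kap

end

section

/-! # Exponential moments of the size of `R`, without logarithm -/

set_option autoImplicit false

namespace Pool.Agent.H29.Kap

open Pool.Agent.H89.Perc Pool.Agent.Perc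

open Classical in
/-- The moments. -/
theorem expmom3_moment {C C' : ℝ} (hC0 : 0 < C)
    (hC : ∀ n : ℕ, 1 ≤ n → ∀ a b c d : ℤ, b - a ≤ 4 * n →
    d - c ≤ 4 * n → ∀ (j : ℕ) (e : Fin j → Edge) (ρ : Fin j → ℕ),
      (∀ i, ρ i ≤ dbd a b c d (e i)) → (∀ i k, k ≠ i → ρ i ≤ dist2 (e i) (e k)) →
      H89.Perc.Pr half {ω | ∀ i, InR ω a b c d (e i)} ≤
        ∏ i, (C * arm half n ^ 2 * (((4 * n : ℕ) : ℝ) / max (ρ i : ℝ) 1) ^ (2 / 3 : ℝ)))
    (hC' : ∀ M : ℕ, 1 ≤ M → ∀ a b c d : ℤ, b - a ≤ M → d - c ≤ M →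
    ∀ (j : ℕ) (ρ : (Fin j → Edge) → Fin j → ℕ),
      (∀ e i, ρ e i = dbd a b c d (e i) ∨ ∃ k, k ≠ i ∧ ρ e i = dist2 (e i) (e k)) →
      ∑ e ∈ Fintype.piFinset (fun _ : Fin j => redges a b c d),
          ∏ i, ((M : ℝ) / max (ρ e i : ℝ) 1) ^ (2 / 3 : ℝ) ≤
        (j + 1).factorial * (C' * (M : ℝ) ^ 2) ^ j)
    {n : ℕ} (hn : 1 ≤ n) {a b c d : ℤ} (hab : b - a ≤ 4 * n) (hcd : d - c ≤ 4 * n) (j : ℕ) :
    Ex (1 / 2) (redges a b c d)
        (fun S => (((redges a b c d).filter (fun e => InR (ofS S) a b c d e)).card : ℝ) ^ j) ≤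
      (C * arm half n ^ 2) ^ j * ((j + 1).factorial *
        (C' * ((4 * n : ℕ) : ℝ) ^ 2) ^ j) := by
  have e1 : ∀ S : Finset Edge,
      (((redges a b c d).filter (fun e => InR (ofS S) a b c d e)).card : ℝ) ^ j =
      ∑ e ∈ Fintype.piFinset (fun _ : Fin j => redges a b c d),
        ind (fun S => ofS S ∈ {ω | ∀ i, InR ω a b c d (e i)}) S := by
    intro S
    rw [Finset.card_filter]
    push_cast
    have : (∑ x ∈ redges a b c d, if InR (ofS S) a b c d x then (1 : ℝ) else 0) ^ j =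
        ∏ _i : Fin j, ∑ x ∈ redges a b c d, if InR (ofS S) a b c d x then (1 : ℝ) else 0 := by
      rw [Finset.prod_const, Finset.card_univ, Fintype.card_fin]
    rw [this, Finset.prod_univ_sum]
    refine Finset.sum_congr rfl fun e _ => ?_
    by_cases h : ∀ i, InR (ofS S) a b c d (e i)
    · rw [ind_of (A := fun S => ofS S ∈ {ω | ∀ i, InR ω a b c d (e i)}) (a := S) h]
      exact Finset.prod_eq_one fun i _ => if_pos (h i)
    · rw [ind_of_not (A := fun S => ofS S ∈ {ω | ∀ i, InR ω a b c d (e i)}) (a := S) h]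
      push Not at h
      obtain ⟨i, hi⟩ := h
      exact Finset.prod_eq_zero (Finset.mem_univ i) (if_neg hi)
  simp only [e1]
  rw [Ex_sum]
  have e2 : ∀ e : Fin j → Edge,
      Ex (1 / 2) (redges a b c d) (ind (fun S => ofS S ∈ {ω | ∀ i, InR ω a b c d (e i)})) =
        H89.Perc.Pr half {ω | ∀ i, InR ω a b c d (e i)} := by
    intro e
    have hl : LocalOn (redges a b c d) {ω | ∀ i, InR ω a b c d (e i)} := by
      intro ω ω' hω h i
      exact (inR_congr hω (e i)).1 (h i)
    rw [Pr_eq_Ex hl half]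
    rfl
  calc ∑ e ∈ Fintype.piFinset (fun _ : Fin j => redges a b c d),
        Ex (1 / 2) (redges a b c d) (ind (fun S => ofS S ∈ {ω | ∀ i, InR ω a b c d (e i)}))
      = ∑ e ∈ Fintype.piFinset (fun _ : Fin j => redges a b c d),
          H89.Perc.Pr half {ω | ∀ i, InR ω a b c d (e i)} :=
        Finset.sum_congr rfl fun e _ => e2 e
    _ ≤ ∑ e ∈ Fintype.piFinset (fun _ : Fin j => redges a b c d),
          (C * arm half n ^ 2) ^ j *
            ∏ i, (((4 * n : ℕ) : ℝ) / max (expmomRho a b c d e i : ℝ) 1) ^ (2 / 3 : ℝ) := by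
        refine Finset.sum_le_sum fun e _ => ?_
        refine (hC n hn a b c d hab hcd j e (expmomRho a b c d e) (expmomRho_le a b c d e)
          (expmomRho_le' a b c d e)).trans (le_of_eq ?_)
        rw [Finset.prod_mul_distrib, Finset.prod_const, Finset.card_univ, Fintype.card_fin]
    _ = (C * arm half n ^ 2) ^ j * ∑ e ∈ Fintype.piFinset (fun _ : Fin j => redges a b c d),
            ∏ i, (((4 * n : ℕ) : ℝ) / max (expmomRho a b c d e i : ℝ) 1) ^ (2 / 3 : ℝ) := by
        rw [Finset.mul_sum]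
    _ ≤ _ := by
        refine mul_le_mul_of_nonneg_left ?_ (by positivity)
        exact hC' (4 * n) (by omega) a b c d (by push_cast; exact hab) (by push_cast; exact hcd) j
          (fun e i => expmomRho a b c d e i) (fun e i => expmomRho_mem a b c d e i)

end Pool.Agent.H29.Kap

end

section

/-! # Uniform control of the expected second differences, continued -/

set_option autoImplicit false

namespace Pool.Agent.H29.Kap

open Pool.Agent.H89.Perc Pool.Agent.Perc

lemma RU_card_le {x0 x1 x2 x3 c d : ℤ} (S : Finset Edge) :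
    (RU x0 x1 x2 x3 c d S).card ≤ rc x0 x1 c d S + rc x1 x2 c d S + rc x2 x3 c d S := by
  classical
  unfold rc
  refine le_trans (Finset.card_le_card (t :=
    ((redges x0 x1 c d).filter (fun e => InR (ofS S) x0 x1 c d e) ∪
      (redges x1 x2 c d).filter (fun e => InR (ofS S) x1 x2 c d e)) ∪
      (redges x2 x3 c d).filter (fun e => InR (ofS S) x2 x3 c d e)) ?_) ?_
  · intro e he
    unfold RU at he
    rw [Finset.mem_filter] at he
    simp only [Finset.mem_union, Finset.mem_filter]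
    rcases he.2 with h | h | h
    · exact Or.inl (Or.inl ⟨h.1, h⟩)
    · exact Or.inl (Or.inr ⟨h.1, h⟩)
    · exact Or.inr ⟨h.1, h⟩
  · refine (Finset.card_union_le _ _).trans ?_
    have := Finset.card_union_le ((redges x0 x1 c d).filter (fun e => InR (ofS S) x0 x1 c d e))
      ((redges x1 x2 c d).filter (fun e => InR (ofS S) x1 x2 c d e))
    convert Nat.add_le_add_right this _

lemma rc_congr {a b c d : ℤ} {F : Finset Edge} (h : redges a b c d ⊆ F) (S : Finset Edge) :
    rc a b c d S = rc a b c d (S ∩ redges a b c d) := by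
  classical
  unfold rc
  congr 1
  refine Finset.filter_congr fun e _ => ?_
  exact inR_congr (geo_ofS_inter h S) e

end Pool.Agent.H29.Kap

end

section

/-! # Main estimate -/

set_option autoImplicit false

open Filter Topology

namespace Pool.Agent.H29.Kap

open Pool.Agent.H89.Perc Pool.Agent.Perc

end Pool.Agent.H29.Kap

end

section

/-!
# The derivative of the cluster density
-/

open MeasureTheory ProbabilityTheory unitInterval Filter Topology

namespace Pool.Agent.H31.AL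

open Pool.Agent.H89.Perc Pool.Agent.H61.NC

/-! ### The derivative of the number of clusters -/

open Pool.Agent.H29.Kap

end Pool.Agent.H31.AL

end

section

/-!
# Pivotal edges of the connection event on the torus
-/

open MeasureTheory ProbabilityTheory unitInterval

namespace Pool.Agent.H90.AL

open Pool.Agent.H89.Perc Pool.Agent.H61.NC Pool.Agent.H31.AL

variable {N : ℕ} {d : Bool}

/-- The edge `f` is pivotal. -/
def Piv (N : ℕ) (d : Bool) (f : Edge) (ω : Config) : Prop :=
  Function.update ω f true ∈ DT N d ∧ Function.update ω f false ∉ DT N d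

lemma Piv.conn {f : Edge} {ω : Config} (h : Piv N d f ω) :
    (∃ a b : ℤ, Conn (cfg N d (Function.update ω f true)) Set.univ (src (ctr N d))
      ((tgt (ctr N d)).1 + a * N, (tgt (ctr N d)).2 + b * N)) ∧
    ∀ a b : ℤ, ¬ Conn (cfg N d (Function.update ω f false)) Set.univ (src (ctr N d))
      ((tgt (ctr N d)).1 + a * N, (tgt (ctr N d)).2 + b * N) :=
  ⟨h.1, fun a b hc => h.2 ⟨a, b, hc⟩⟩

/-- Both endpoints of the middle edge are joined to translates of endpoints of `f`. -/
lemma Piv.touch {f : Edge} (hf : f ∈ tEdges N) {ω : Config} (h : Piv N d f ω) :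
    (∃ a b : ℤ, Conn (cfg N d (Function.update ω f false)) Set.univ (src (ctr N d))
        ((src f).1 + a * N, (src f).2 + b * N) ∨
      Conn (cfg N d (Function.update ω f false)) Set.univ (src (ctr N d))
        ((tgt f).1 + a * N, (tgt f).2 + b * N)) ∧
    (∃ a b : ℤ, Conn (cfg N d (Function.update ω f false)) Set.univ (tgt (ctr N d))
        ((src f).1 + a * N, (src f).2 + b * N) ∨
      Conn (cfg N d (Function.update ω f false)) Set.univ (tgt (ctr N d))
        ((tgt f).1 + a * N, (tgt f).2 + b * N)) := by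
  obtain ⟨⟨a, b, h1⟩, h0⟩ := h.conn
  refine ⟨touch_of_added (addEdge_cfg hf ω) h1 (h0 a b), ?_⟩
  obtain ⟨a', b', h2⟩ := touch_of_added (addEdge_cfg hf ω) h1.symm (fun hc => h0 a b hc.symm)
  refine ⟨a' - a, b' - b, ?_⟩
  have hp := isPer_cfg N d (Function.update ω f false)
  have e1 : ((((tgt (ctr N d)).1 + a * N) + -a * N, ((tgt (ctr N d)).2 + b * N) + -b * N) : Vert) =
      tgt (ctr N d) := by
    ext <;> (simp only; ring)
  have e2 : ∀ w : Vert, (((w.1 + a' * N) + -a * N, (w.2 + b' * N) + -b * N) : Vert) =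
      (w.1 + (a' - a) * N, w.2 + (b' - b) * N) := by
    intro w
    ext <;> (simp only; ring)
  rcases h2 with h2 | h2
  · left
    have h3 := conn_per hp (-a) (-b) h2
    simp only at h3
    rw [e1, e2] at h3
    exact h3
  · right
    have h3 := conn_per hp (-a) (-b) h2
    simp only at h3
    rw [e1, e2] at h3
    exact h3

/-- Four arms of the pivotal edge. -/
theorem Piv.a4_self {f : Edge} (hf : f ∈ tEdges N) {ω : Config} (h : Piv N d f ω) {r : ℕ}
    (hr : 1 ≤ r) (hN : 2 * r + 2 ≤ N) (hd : r + 1 < dT N (src (ctr N d)) (src f)) :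
    ω ∈ A4T N f r := by
  have hN1 : 1 ≤ N := by omega
  obtain ⟨⟨a, b, h1⟩, h0⟩ := h.conn
  have hp := isPer_cfg N d (Function.update ω f false)
  have hball : ∀ g : Edge, src g ∈ ball (src f) r → tgt g ∈ ball (src f) r →
      cfg N d (Function.update ω f false) g = close f (per N ω) g := by
    intro g hg _
    rw [cfg_update]
    have g1 : modE N g ≠ ctr N d := modE_far hN1 (by omega) hg
    rw [if_neg g1]
    unfold close
    by_cases g2 : modE N g = f
    · rw [if_pos g2, modE_ball hN1 (by omega) hg g2, Function.update_self]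
    · rw [if_neg g2, Function.update_of_ne]
      · rfl
      · rintro rfl
        exact g2 (modE_eq hf)
  have hfar := far_ends hN1 hd
  obtain ⟨k1, k2, k3⟩ := arms_of_added hr hN hp (addEdge_cfg hf ω)
    (X := src (ctr N d)) (Y := ((tgt (ctr N d)).1 + a * N, (tgt (ctr N d)).2 + b * N))
    (fun a' b' => (hfar a' b').1) (fun a' b' => by
      have := (hfar (a' - a) (b' - b)).2
      have e : (((tgt (ctr N d)).1 + a * N - a' * N, (tgt (ctr N d)).2 + b * N - b' * N) : Vert) =
          ((tgt (ctr N d)).1 - (a' - a) * N, (tgt (ctr N d)).2 - (b' - b) * N) := by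
        ext <;> (simp only; ring)
      simp only
      rw [e]
      exact this) h1 (h0 a b)
  obtain ⟨u, hu, hc⟩ := k1
  obtain ⟨u', hu', hc'⟩ := k2
  refine ⟨⟨u, hu, hc.congr hball⟩, ⟨u', hu', hc'.congr hball⟩, fun hcon => k3 ?_⟩
  exact (hcon.congr fun g g1 g2 => (hball g g1 g2).symm).mono_set (Set.subset_univ _)

/-- Four arms of the middle edge. -/
theorem Piv.a4_ctr {f : Edge} (hf : f ∈ tEdges N) {ω : Config} (h : Piv N d f ω) {r : ℕ}
    (hr : 1 ≤ r) (hN : 2 * r + 2 ≤ N) (hd : r + 1 < dT N (src f) (src (ctr N d))) :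
    ω ∈ A4T N (ctr N d) r := by
  have hN1 : 1 ≤ N := by omega
  obtain ⟨-, h0⟩ := h.conn
  obtain ⟨⟨a, b, t1⟩, ⟨a', b', t2⟩⟩ := h.touch hf
  have hball : ∀ g : Edge, src g ∈ ball (src (ctr N d)) r → tgt g ∈ ball (src (ctr N d)) r →
      cfg N d (Function.update ω f false) g = close (ctr N d) (per N ω) g := by
    intro g hg _
    rw [cfg_update]
    have g1 : modE N g ≠ f := modE_far hN1 (by omega) hg
    rw [if_neg g1]
    unfold close
    by_cases g2 : modE N g = ctr N d
    · rw [if_pos g2, modE_ball hN1 (by omega) hg g2, Function.update_self]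
    · rw [if_neg g2, Function.update_of_ne]
      · rfl
      · rintro rfl
        exact g2 (modE_eq (ctr_mem' hN1 d))
  have hfar := far_ends hN1 hd
  have htb : tgt (ctr N d) ∈ ball (src (ctr N d)) r := by
    have h3 := abs_le.1 (tgt_near (ctr N d)).1
    have h4 := abs_le.1 (tgt_near (ctr N d)).2
    rw [mem_ball]
    omega
  have harm : ∀ p : Vert, p ∈ ball (src (ctr N d)) r → ∀ a b : ℤ,
      (Conn (cfg N d (Function.update ω f false)) Set.univ p
        ((src f).1 + a * N, (src f).2 + b * N) ∨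
      Conn (cfg N d (Function.update ω f false)) Set.univ p
        ((tgt f).1 + a * N, (tgt f).2 + b * N)) →
      ∃ u ∈ sphere (src (ctr N d)) r,
        Conn (close (ctr N d) (per N ω)) (ball (src (ctr N d)) r) p u := by
    intro p hp a b t
    have hf' := hfar (-a) (-b)
    rw [neg_mul, neg_mul, sub_neg_eq_add, sub_neg_eq_add, sub_neg_eq_add, sub_neg_eq_add] at hf'
    rcases t with t | t
    · obtain ⟨u, hu, hc⟩ := t.to_sphere hp (Or.inl hf'.1)
      exact ⟨u, hu, (hc.mono_set Set.inter_subset_right).congr hball⟩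
    · obtain ⟨u, hu, hc⟩ := t.to_sphere hp (Or.inl hf'.2)
      exact ⟨u, hu, (hc.mono_set Set.inter_subset_right).congr hball⟩
  refine ⟨harm _ self_mem_ball a b t1, harm _ htb a' b' t2, fun hcon => h0 0 0 ?_⟩
  simp only [zero_mul, add_zero]
  exact (hcon.congr fun g g1 g2 => (hball g g1 g2).symm).mono_set (Set.subset_univ _)

end Pool.Agent.H90.AL

end

section

/-!
# Joint influences of two edges on the connection event
-/

open MeasureTheory ProbabilityTheory unitInterval

namespace Pool.Agent.H90.AL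

open Pool.Agent.H89.Perc Pool.Agent.H61.NC Pool.Agent.H31.AL Pool.Agent.H29.Sep

variable {N : ℕ} {d : Bool} {J : Set Config} {u v w : Edge}

lemma joint_piv {f g : Edge} (hi : Incr (DT N d)) (hfg : f ≠ g) {ω : Config}
    (h : ω ∈ Joint (DT N d) f g) :
    (∃ b, Piv N d f (Function.update ω g b)) ∧ ∃ b, Piv N d g (Function.update ω f b) := by
  obtain ⟨⟨b, h1, h2⟩, ⟨b', h3, h4⟩⟩ := Joint_piv hi hfg h
  exact ⟨⟨b, h1, h2⟩, ⟨b', h3, h4⟩⟩

/-! ### Probabilities -/

end Pool.Agent.H90.AL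

end

section

/-!
# Second derivative of the connection probability on the torus
-/

open MeasureTheory ProbabilityTheory unitInterval

namespace Pool.Agent.H31.AL

open Pool.Agent.H89.Perc Pool.Agent.H61.NC Pool.Agent.H29.Sep Pool.Agent.H90.AL

theorem localOn_DT {N : ℕ} (hN : 1 ≤ N) (d : Bool) : LocalOn (tEdges N) (DT N d) := by
  intro ω ω' h hω
  have e : cfg N d ω = cfg N d ω' := by
    funext g
    rw [cfg_apply, cfg_apply, h _ (modE_mem hN g)]
  obtain ⟨a, b, hc⟩ := hω
  refine ⟨a, b, ?_⟩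
  change Conn (cfg N d ω) _ _ _ at hc
  change Conn (cfg N d ω') _ _ _
  rw [← e]
  exact hc

theorem incr_DT (N : ℕ) (d : Bool) : Incr (DT N d) := by
  rintro ω ω' h ⟨a, b, hc⟩
  refine ⟨a, b, Conn.mono le_rfl (fun e he => ?_) hc⟩
  change cfg N d ω e = true at he
  change cfg N d ω' e = true
  rw [cfg_apply] at he ⊢
  split_ifs at he ⊢
  exact h _ he

theorem B0T_sub {N r : ℕ} (d : Bool) (hN : 2 * r + 2 ≤ N) :
    {ω | per N ω ∈ B0 (ctr N d) r} ⊆ DT N d := by
  intro ω hω
  refine ⟨0, 0, ?_⟩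
  change Conn (cfg N d ω) _ _ _
  simp only [zero_mul, add_zero]
  refine (Conn.congr (fun g g1 _ => ?_) hω).mono_set (Set.subset_univ _)
  exact (cfg_ball (by omega) d (by omega) ω g g1).symm

theorem DT_sub {N r : ℕ} (d : Bool) (hr : 1 ≤ r) (hN : 2 * r + 2 ≤ N) :
    DT N d ⊆ {ω | per N ω ∈ B0 (ctr N d) r} ∪ A4T N (ctr N d) r := by
  intro ω hω
  by_cases h0 : per N ω ∈ B0 (ctr N d) r
  · exact Or.inl h0
  right
  have hN1 : 1 ≤ N := by omega
  obtain ⟨a, b, hc⟩ := hω
  change Conn (cfg N d ω) _ _ _ at hc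
  have hcf := cfg_ball hN1 d (by omega : 2 * r < N) ω
  have h0' : ¬ Conn (cfg N d ω) (ball (src (ctr N d)) r) (src (ctr N d)) (tgt (ctr N d)) :=
    fun h => h0 (Conn.congr (fun g g1 _ => hcf g g1) h)
  have hp := isPer_cfg N d ω
  have e1 : ((((tgt (ctr N d)).1 + a * N) + -a * N, ((tgt (ctr N d)).2 + b * N) + -b * N) : Vert) =
      tgt (ctr N d) := by
    ext <;> (simp only; ring)
  have hc2 := conn_per hp (-a) (-b) hc
  simp only at hc2
  rw [e1] at hc2
  have hout : a ≠ 0 ∨ b ≠ 0 → ((tgt (ctr N d)).1 + a * N, (tgt (ctr N d)).2 + b * N) ∉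
      ball (src (ctr N d)) r ∧ ((src (ctr N d)).1 + -a * N, (src (ctr N d)).2 + -b * N) ∉
      ball (src (ctr N d)) r := by
    intro hab
    have h3 := abs_le.1 (tgt_near (ctr N d)).1
    have h4 := abs_le.1 (tgt_near (ctr N d)).2
    have key : ∀ x : ℤ, x ≠ 0 → x * N ≤ -N ∨ N ≤ x * N := by
      intro x hx
      rcases lt_or_gt_of_ne hx with h | h
      · left
        have : x * N ≤ -1 * N := mul_le_mul_of_nonneg_right (by omega) (by omega)
        omega
      · right
        have : 1 * N ≤ x * N := mul_le_mul_of_nonneg_right (by omega) (by omega)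
        omega
    simp only [mem_ball, neg_mul]
    rcases hab with h | h
    · have := key _ h
      constructor <;> omega
    · have := key _ h
      constructor <;> omega
  have conv : ∀ p : Vert, (∃ x ∈ sphere (src (ctr N d)) r,
      Conn (cfg N d ω) (ball (src (ctr N d)) r) p x) → ∃ x ∈ sphere (src (ctr N d)) r,
      Conn (close (ctr N d) (per N ω)) (ball (src (ctr N d)) r) p x := by
    rintro p ⟨x, hx, hc⟩
    exact ⟨x, hx, Conn.congr (fun g g1 _ => hcf g g1) hc⟩
  refine ⟨conv _ ?_, conv _ ?_, h0⟩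
  · by_cases hab : a ≠ 0 ∨ b ≠ 0
    · obtain ⟨x, hx, hcx⟩ := hc.to_sphere self_mem_ball (Or.inl (hout hab).1)
      exact ⟨x, hx, hcx.mono_set Set.inter_subset_right⟩
    · push Not at hab
      rw [hab.1, hab.2] at hc
      simp only [zero_mul, add_zero] at hc
      exact reach_sphere hc self_mem_ball h0'
  · by_cases hab : a ≠ 0 ∨ b ≠ 0
    · obtain ⟨x, hx, hcx⟩ := hc2.symm.to_sphere (tgt_mem_ball _ hr) (Or.inl (hout hab).2)
      exact ⟨x, hx, hcx.mono_set Set.inter_subset_right⟩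
    · push Not at hab
      rw [hab.1, hab.2] at hc
      simp only [zero_mul, add_zero] at hc
      exact reach_sphere hc.symm (tgt_mem_ball _ hr) fun h => h0' h.symm

end Pool.Agent.H31.AL

end

end
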