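import Pool.Agent.H94.BG.H31.PT.M16
import Pool.Agent.H94.BG.H31.PT.M37_1
import Pool.Agent.H94.BG.H31.PT.M38_5

/-! The parts of this file: H31.PT.M40, H31.PT.M40_1. -/

section

/-! The parts of this file: H31.AL.Window, H31.AL.Alpha. -/

section

/-!
# The window around the critical density at a given scale
-/

open MeasureTheory ProbabilityTheory unitInterval Filter Topology

namespace Pool.Agent.H31.AL

open Pool.Agent.H89.Perc Pool.Agent.H61.NC Pool.Agent.H31.EX Pool.Agent.H29.Sep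

theorem ex_I {x : ℝ} (h : |x - 1 / 2| ≤ 1 / 4) :
    ∃ q : I, (q : ℝ) = x ∧ 1 / 4 ≤ (q : ℝ) ∧ (q : ℝ) ≤ 3 / 4 := by
  have h1 := abs_le.1 h
  exact ⟨⟨x, by linarith, by linarith⟩, rfl, by linarith, by linarith⟩

/-- Stability of the four-arm probability. -/
theorem a4_near (hGL : GLTorus) {c : ℝ} (hc : 0 < c) : ∃ C > (0 : ℝ), ∀ (M : ℕ) (x : ℝ),
    x ≤ 1 / 4 → (∀ q : I, |(q : ℝ) - 1 / 2| ≤ x → RSWreg c (64 * M) q) →
      ∀ q : I, |(q : ℝ) - 1 / 2| ≤ x → ∀ t : ℕ, 1 ≤ t → t ≤ M → a4 q t ≤ C * a4 half t := by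
  obtain ⟨C₁, hC₁, H1⟩ := le_FT' hGL blockLow c hc
  obtain ⟨K, hK, H2⟩ := near_critical hGL blockLow c hc
  refine ⟨C₁ * (K * 2), by positivity, fun M x hx hreg q hq t ht htM => ?_⟩
  have hqx := abs_le.1 hq
  have hx0 : 0 ≤ x := (abs_nonneg _).trans hq
  have hreg' : ∀ q : I, |(q : ℝ) - 1 / 2| ≤ x → RSWreg c (64 * t) q := fun q hq =>
    Pool.Agent.H83.EX.rsw_anti (hreg q hq) (by omega)
  have hh : ((half : I) : ℝ) = 1 / 2 := rfl
  have e1 := H1 (64 * t) q (by omega) (hreg' q hq)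
  have e2 : FT' (64 * t) q ≤ K * FT' (64 * t) half := by
    rcases le_total q half with h | h
    · have h' : (q : ℝ) ≤ 1 / 2 := h
      refine (H2 (64 * t) q half (by omega) h (by linarith) (by rw [hh]; norm_num) ?_).2
      intro q' hq1 hq2
      have h1 : (q : ℝ) ≤ q' := hq1
      have h2 : (q' : ℝ) ≤ 1 / 2 := hq2
      exact hreg' q' (abs_le.2 ⟨by linarith, by linarith⟩)
    · have h' : 1 / 2 ≤ (q : ℝ) := h
      refine (H2 (64 * t) half q (by omega) h (by rw [hh]; norm_num) (by linarith) ?_).1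
      intro q' hq1 hq2
      have h1 : 1 / 2 ≤ (q' : ℝ) := hq1
      have h2 : (q' : ℝ) ≤ q := hq2
      exact hreg' q' (abs_le.2 ⟨by linarith, by linarith⟩)
  have e3 := FT'_le (N := 64 * t) (r := t) (by omega) half ht (by omega)
  rw [show 64 * t / 64 = t by omega] at e1
  have hN : (0 : ℝ) < ((64 * t : ℕ) : ℝ) ^ 2 := by
    have : 0 < 64 * t := by omega
    positivity
  have e4 : ((64 * t : ℕ) : ℝ) ^ 2 * a4 q t ≤
      ((64 * t : ℕ) : ℝ) ^ 2 * (C₁ * (K * 2) * a4 half t) := by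
    calc ((64 * t : ℕ) : ℝ) ^ 2 * a4 q t ≤ C₁ * FT' (64 * t) q := e1
      _ ≤ C₁ * (K * FT' (64 * t) half) := mul_le_mul_of_nonneg_left e2 hC₁.le
      _ ≤ C₁ * (K * (2 * ((64 * t : ℕ) : ℝ) ^ 2 * a4 half t)) := by gcongr
      _ = _ := by ring
  exact le_of_mul_le_mul_left e4 hN

theorem PN_le {f : ℕ → ℝ} (hf : ∀ n, f n ≤ 1) {a s : ℝ} (h : PN f a) (hs : s < a) (hs0 : 0 ≤ s) :
    ∃ A > (0 : ℝ), ∀ t : ℕ, 1 ≤ t → f t ≤ A * (t : ℝ) ^ (-s) := by
  obtain ⟨n₀, hn₀⟩ := h (a - s) (by linarith)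
  refine ⟨((n₀ : ℝ) + 1) ^ s, by positivity, fun t ht => ?_⟩
  have ht0 : (0 : ℝ) < t := by exact_mod_cast ht
  rcases le_or_gt n₀ t with h1 | h1
  · have h2 := (hn₀ t h1).2
    have e : -a + (a - s) = -s := by ring
    rw [e] at h2
    have h3 : (1 : ℝ) ≤ ((n₀ : ℝ) + 1) ^ s :=
      Real.one_le_rpow (by linarith [Nat.cast_nonneg (α := ℝ) n₀]) hs0
    have h4 : 0 < (t : ℝ) ^ (-s) := Real.rpow_pos_of_pos ht0 _
    nlinarith
  · have h2 : (t : ℝ) ≤ (n₀ : ℝ) + 1 := by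
      have : (t : ℝ) < n₀ := by exact_mod_cast h1
      linarith
    have h3 : (t : ℝ) ^ s ≤ ((n₀ : ℝ) + 1) ^ s := Real.rpow_le_rpow ht0.le h2 hs0
    rw [Real.rpow_neg ht0.le, ← div_eq_mul_inv, le_div_iff₀ (Real.rpow_pos_of_pos ht0 _)]
    have h4 : 0 < (t : ℝ) ^ s := Real.rpow_pos_of_pos ht0 _
    nlinarith [hf t]

end Pool.Agent.H31.AL

end

section

/-!
# The second-order expansion of the cluster density at the critical point
-/

open MeasureTheory ProbabilityTheory unitInterval Filter Topology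

namespace Pool.Agent.H31.AL

open Pool.Agent.H89.Perc Pool.Agent.H61.NC Pool.Agent.H31.EX Pool.Agent.H29.Sep
open Pool.Agent.H29.Kap

/-- Bounds for the remainder give a bound for the exponent. -/
theorem alpha_le {κ : ℝ → ℝ} {v₀ α₀ : ℝ}
    (h : ∀ v < v₀, ∃ C > (0 : ℝ), ∃ δ > (0 : ℝ), ∀ p : ℝ, |p - 1 / 2| ≤ δ →
      |Rem κ p| ≤ C * |p - 1 / 2| ^ v) (hα : HasAlpha κ α₀) : α₀ ≤ 2 - v₀ := by
  by_contra hcon
  push Not at hcon
  obtain ⟨v, hv1, hv2⟩ := exists_between (show 2 - α₀ < v₀ by linarith)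
  obtain ⟨C', -, δ, hδ, hC'⟩ := h v hv2
  set ε : ℝ := (v - (2 - α₀)) / 2 with hε
  have hε0 : 0 < ε := by rw [hε]; linarith
  obtain ⟨δ', hδ', hα'⟩ := hα ε hε0
  set s : ℝ := 2 - α₀ + ε with hs
  have hst : v - s = ε := by rw [hs, hε]; ring
  have key : ∀ x : ℝ, 0 < x → x < min (min δ δ') (1 / 2) → 1 ≤ C' * x ^ ε := by
    intro x hx0 hx
    have hxδ : x < δ := hx.trans_le ((min_le_left _ _).trans (min_le_left _ _))
    have hxδ' : x < δ' := hx.trans_le ((min_le_left _ _).trans (min_le_right _ _))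
    have hx2 : x < 1 / 2 := hx.trans_le (min_le_right _ _)
    have e2 : |1 / 2 + x - 1 / 2| = x := by
      rw [add_sub_cancel_left, abs_of_pos hx0]
    have g1 := hC' (1 / 2 + x) (by rw [e2]; exact hxδ.le)
    have g2 := (hα' (1 / 2 + x) (by linarith) (by linarith) (by linarith)
      (by rw [e2]; exact hxδ')).1
    rw [e2] at g1 g2
    have g3 : x ^ s ≤ C' * x ^ v := g2.trans g1
    have e3 : x ^ v = x ^ s * x ^ ε := by
      rw [← Real.rpow_add hx0]; congr 1; linarith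
    rw [e3] at g3
    have hxs : 0 < x ^ s := Real.rpow_pos_of_pos hx0 s
    have g4 : x ^ s * 1 ≤ x ^ s * (C' * x ^ ε) := by linarith
    exact le_of_mul_le_mul_left g4 hxs
  have hlim : Tendsto (fun x : ℝ => C' * x ^ ε) (nhdsWithin 0 (Set.Ioi 0)) (nhds 0) := by
    have h1 : Tendsto (fun x : ℝ => x ^ ε) (nhdsWithin 0 (Set.Ioi 0)) (nhds 0) := by
      have h2 := (Real.continuousAt_rpow_const 0 ε (Or.inr hε0.le)).tendsto
      rw [Real.zero_rpow hε0.ne'] at h2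
      exact h2.mono_left nhdsWithin_le_nhds
    simpa using h1.const_mul C'
  have hm : 0 < min (min δ δ') (1 / 2) := by positivity
  have hev2 := (hlim.eventually (gt_mem_nhds (one_pos))).and (Ioo_mem_nhdsGT hm)
  obtain ⟨x, hx1, hx2⟩ := hev2.exists
  have := key x hx2.1 hx2.2
  linarith

end Pool.Agent.H31.AL

end

end

section

/-! The parts of this file: H31.AL.Window, H31.AL.Alpha. -/

section

/-!
# The window around the critical density at a given scale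
-/

open MeasureTheory ProbabilityTheory unitInterval Filter Topology

namespace Pool.Agent.H31.AL

open Pool.Agent.H89.Perc Pool.Agent.H61.NC Pool.Agent.H31.EX Pool.Agent.H29.Sep

/-- The box-crossing regime at scale `2 ^ k`. -/
theorem window_reg (hGL : GLTorus) {a : ℝ} (ha : a < 2) (h4 : PN (a4 half) a) (K : ℕ) {ε : ℝ}
    (hε : 0 < ε) : ∃ c > (0 : ℝ), ∃ c' > (0 : ℝ), ∃ k₀ : ℕ, ∀ k : ℕ, k₀ ≤ k →
      c' * (2 : ℝ) ^ (-(((2 - a) + ε) * k)) ≤ 1 / 4 ∧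
      ∀ q : I, |(q : ℝ) - 1 / 2| ≤ c' * (2 : ℝ) ^ (-(((2 - a) + ε) * k)) →
        RSWreg c (K * 2 ^ k) q := by
  obtain ⟨δ₀, -, -, h2, -, h4', -, -⟩ := Pool.Agent.H83.EX.length_facts hGL ha h4
  obtain ⟨c, hc, η₁, hη₁, H1⟩ := h2 K
  obtain ⟨c₁, hc₁, η₂, hη₂, H2⟩ := h4' ε hε
  set w : ℝ := (2 - a) + ε with hw
  have hw0 : 0 < w := by rw [hw]; linarith
  have hlim : Tendsto (fun k : ℕ => c₁ * (2 : ℝ) ^ (-(w * k))) atTop (𝓝 (c₁ * 0)) := by
    refine Tendsto.const_mul c₁ ?_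
    have hr : (2 : ℝ) ^ (-w) < 1 :=
      Real.rpow_lt_one_of_one_lt_of_neg (by norm_num) (by linarith)
    refine (tendsto_pow_atTop_nhds_zero_of_lt_one
      (Real.rpow_pos_of_pos (by norm_num) (-w)).le hr).congr fun n => ?_
    rw [← Real.rpow_natCast, ← Real.rpow_mul (by norm_num)]
    congr 1
    ring
  rw [mul_zero] at hlim
  have hm : 0 < min (1 / 4) (min η₁ η₂) := lt_min (by norm_num) (lt_min hη₁ hη₂)
  obtain ⟨k₀, hk₀⟩ := eventually_atTop.1 (hlim.eventually (gt_mem_nhds hm))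
  refine ⟨c, hc, c₁, hc₁, k₀, fun k hk => ?_⟩
  have h5 := hk₀ k hk
  set x : ℝ := c₁ * (2 : ℝ) ^ (-(w * k)) with hx
  have hx0 : 0 < x := mul_pos hc₁ (Real.rpow_pos_of_pos (by norm_num) _)
  have hx1 : x < 1 / 4 := h5.trans_le (min_le_left _ _)
  have hx2 : x < η₁ := h5.trans_le ((min_le_right _ _).trans (min_le_left _ _))
  have hx3 : x < η₂ := h5.trans_le ((min_le_right _ _).trans (min_le_right _ _))
  refine ⟨hx1.le, fun q hq => ?_⟩
  set p : I := ⟨1 / 2 + x, by linarith, by linarith⟩ with hp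
  have hpv : (p : ℝ) = 1 / 2 + x := rfl
  have hp1 : (1 / 2 : ℝ) < p := by rw [hpv]; linarith
  have e1 := H2 p hp1 (by rw [hpv]; linarith)
  have e2 := H1 p hp1 (by rw [hpv]; linarith) q
  have hq' := abs_le.1 hq
  have e3 : RSWreg c (K * Pool.Agent.H83.EX.Len δ₀ p) q := by
    refine e2 ?_ ?_
    · change (1 - (p : ℝ)) ≤ (q : ℝ)
      rw [hpv]
      linarith
    · change (q : ℝ) ≤ (p : ℝ)
      rw [hpv]
      linarith
  refine Pool.Agent.H83.EX.rsw_anti e3 (Nat.mul_le_mul_left K ?_)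
  -- `2 ^ k ≤ Len`
  rw [hpv, add_sub_cancel_left, hx, mul_assoc] at e1
  have e4 : 1 ≤ (2 : ℝ) ^ (-(w * k)) * (Pool.Agent.H83.EX.Len δ₀ p : ℝ) ^ w := by
    have : c₁ * 1 ≤ c₁ * ((2 : ℝ) ^ (-(w * k)) * (Pool.Agent.H83.EX.Len δ₀ p : ℝ) ^ w) := by
      rw [mul_one]; exact e1
    exact le_of_mul_le_mul_left this hc₁
  by_contra hcon
  push Not at hcon
  have e5 : (Pool.Agent.H83.EX.Len δ₀ p : ℝ) < (2 : ℝ) ^ k := by exact_mod_cast hcon
  have e6 : (Pool.Agent.H83.EX.Len δ₀ p : ℝ) ^ w < ((2 : ℝ) ^ k) ^ w :=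
    Real.rpow_lt_rpow (Nat.cast_nonneg _) e5 hw0
  have e7 : (2 : ℝ) ^ (-(w * k)) * ((2 : ℝ) ^ k) ^ w = 1 := by
    rw [← Real.rpow_natCast, ← Real.rpow_mul (by norm_num), ← Real.rpow_add (by norm_num)]
    have : -(w * k) + k * w = 0 := by ring
    rw [this, Real.rpow_zero]
  have e8 : (2 : ℝ) ^ (-(w * k)) * (Pool.Agent.H83.EX.Len δ₀ p : ℝ) ^ w <
      (2 : ℝ) ^ (-(w * k)) * ((2 : ℝ) ^ k) ^ w :=
    mul_lt_mul_of_pos_left e6 (Real.rpow_pos_of_pos (by norm_num) _)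
  linarith

end Pool.Agent.H31.AL

end

section

/-!
# The second-order expansion of the cluster density at the critical point
-/

open MeasureTheory ProbabilityTheory unitInterval Filter Topology

namespace Pool.Agent.H31.AL

open Pool.Agent.H89.Perc Pool.Agent.H61.NC Pool.Agent.H31.EX Pool.Agent.H29.Sep
open Pool.Agent.H29.Kap

end Pool.Agent.H31.AL

end

end
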