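import Pool.Agent.H94.BG.H31.PT.M31_1
import Pool.Agent.H94.BG.H31.PT.M41_2
import Pool.Agent.H94.BG.H31.PT.M41_4

/-! The parts of this file: H31.PT.M41_3, H31.PT.M41_1. -/

section

/-! The parts of this file: H89.Perc.FinalAnalysis, H15.Exact.Form, H66.OneArm.Defs, H66.OneArm.Ode, H66.OneArm.MaxPrin, H66.OneArm.Ratio, H66.OneArm.RatioMain, H66.OneArm.QuasiA, H66.OneArm.QuasiB, H66.OneArm.Convex, H66.OneArm.LowerA, H66.OneArm.Eigen, H66.OneArm.Trace, H66.OneArm.Spectral, H66.OneArm.Squeeze. -/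

section

/-!
# The real analysis behind the lower bound for the percolation probability
-/

open Filter Topology

namespace Pool.Agent.H89.Perc

namespace FinalHyp

variable {ce Cd cd h θ : ℝ} {a b d : ℕ → ℝ}

/-- Polynomially small upper bound for the sum. -/
lemma S_upper2 (H : FinalHyp ce Cd cd h θ a b d) {m : ℕ} (hm : 1 ≤ m) :
    ∑ k ∈ Finset.range (4 * m ^ 2), a k * b k ≤ m + 4 * m ^ 2 * (Cd * (m : ℝ) ^ (-cd)) := by
  have hm' : (1 : ℝ) ≤ m := by exact_mod_cast hm
  have hle : ∀ k, a k * b k ≤ b k := by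
    intro k
    have := H.a_le_one k
    have h3 := H.b_nonneg k
    nlinarith only [this, h3]
  have hone : ∀ k, b k ≤ 1 := fun k => (H.b_le_a k).trans (H.a_le_one k)
  have h1 : ∑ k ∈ Finset.range (4 * m ^ 2), a k * b k ≤
      ∑ k ∈ Finset.range (4 * m ^ 2), ((if k < m then (1 : ℝ) else 0) + Cd * (m : ℝ) ^ (-cd)) := by
    apply Finset.sum_le_sum
    intro k _
    have hpos : 0 ≤ Cd * (m : ℝ) ^ (-cd) := mul_nonneg H.Cd0.le (by positivity)
    split_ifs with hk
    · have := (hle k).trans (hone k)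
      linarith only [hpos, this]
    · push Not at hk
      have hk1 : 1 ≤ k := hm.trans hk
      have h2 := H.b_dec k hk1
      have h3 : (k : ℝ) ^ (-cd) ≤ (m : ℝ) ^ (-cd) := by
        apply Real.rpow_le_rpow_of_nonpos (by linarith only [hm']) (by exact_mod_cast hk)
        linarith only [H, H.cd0]
      have h4 := mul_le_mul_of_nonneg_left h3 H.Cd0.le
      linarith only [h2, h4, hle, hle k]
  refine h1.trans ?_
  rw [Finset.sum_add_distrib]
  simp only [Finset.sum_const, Finset.card_range, nsmul_eq_mul]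
  have h2 : ∑ k ∈ Finset.range (4 * m ^ 2), (if k < m then (1 : ℝ) else 0) ≤ m := by
    rw [← Finset.sum_filter]
    simp only [Finset.sum_const, nsmul_eq_mul, mul_one]
    have : (Finset.filter (fun k => k < m) (Finset.range (4 * m ^ 2))).card ≤ (Finset.range m).card := by
      apply Finset.card_le_card
      intro k hk
      simp only [Finset.mem_filter, Finset.mem_range] at hk ⊢
      exact hk.2
    rw [Finset.card_range] at this
    exact_mod_cast this
  push_cast
  linarith only [h2]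

lemma exists_scale (hCd : 0 < Cd) (hcd : 0 < cd) {A : ℝ} (hA : 1 ≤ A) :
    ∃ C2 > (0 : ℝ), ∀ (ce h θ : ℝ) (a b d : ℕ → ℝ), FinalHyp ce Cd cd h θ a b d →
      ∃ m : ℕ, 1 ≤ m ∧
        A * Real.log ((m ^ 2 : ℕ) + 1) * ∑ k ∈ Finset.range (4 * m ^ 2), a k * b k ≤
          h * (m ^ 2 : ℕ) ∧
        Real.log ((m ^ 2 : ℕ) + 1) ≤ C2 * Real.log (2 + 1 / h) := by
  set c1 : ℝ := min 1 cd with hc1def
  have hc1 : 0 < c1 := lt_min one_pos hcd
  have hc11 : c1 ≤ 1 := min_le_left _ _
  have hc1d : c1 ≤ cd := min_le_right _ _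
  set K2 : ℝ := A * (8 / c1) * (1 + 4 * Cd) with hK2
  have h8 : 8 ≤ 8 / c1 := by rw [le_div_iff₀ hc1]; linarith only [hc11]
  have hK21 : 1 ≤ K2 := by
    rw [hK2]
    have : 1 ≤ A * (8 / c1) := by nlinarith only [hA, h8]
    nlinarith only [hCd, this]
  refine ⟨Real.log 8 + 4 / c1 * Real.log K2 + 4 / c1, ?_, ?_⟩
  · have h1 : 0 < Real.log 8 := Real.log_pos (by norm_num)
    have h2 : 0 ≤ Real.log K2 := Real.log_nonneg hK21
    positivity
  intro ce h θ a b d H
  have hh := H.h0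
  have hh1 := H.h1
  have hx1 : 1 ≤ K2 / h := by rw [le_div_iff₀ hh]; linarith only [hK21, hh, hh1]
  set X : ℝ := (K2 / h) ^ (2 / c1) with hX
  have hX1 : 1 ≤ X := Real.one_le_rpow hx1 (by positivity)
  have hmX : X ≤ ⌈X⌉₊ := Nat.le_ceil X
  have hmX2 : (⌈X⌉₊ : ℝ) < X + 1 := Nat.ceil_lt_add_one (by linarith only [hh, hh1, hX1])
  set m := ⌈X⌉₊ with hm
  have hm1' : (1 : ℝ) ≤ m := hX1.trans hmX
  have hm1 : 1 ≤ m := by exact_mod_cast hm1'
  have hm0 : (0 : ℝ) < m := by linarith only [hh, hh1, hX1, hmX]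
  refine ⟨m, hm1, ?_, ?_⟩
  · have hS := H.S_upper2 hm1
    have hS2 : (m : ℝ) + 4 * m ^ 2 * (Cd * (m : ℝ) ^ (-cd)) ≤ (1 + 4 * Cd) * (m ^ 2 * (m : ℝ) ^ (-c1)) := by
      have h1 : (m : ℝ) ^ (-cd) ≤ (m : ℝ) ^ (-c1) :=
        Real.rpow_le_rpow_of_exponent_le hm1' (by linarith only [hc1d])
      have h2 : (m : ℝ) ≤ m ^ 2 * (m : ℝ) ^ (-c1) := by
        have h3 : (m : ℝ) ^ (-1 : ℝ) ≤ (m : ℝ) ^ (-c1) :=
          Real.rpow_le_rpow_of_exponent_le hm1' (by linarith only [hc11])
        rw [Real.rpow_neg_one] at h3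
        have h4 : (m : ℝ) = m ^ 2 * (m : ℝ)⁻¹ := by field_simp
        calc (m : ℝ) = m ^ 2 * (m : ℝ)⁻¹ := h4
          _ ≤ _ := by gcongr
      have h5 : 4 * (m : ℝ) ^ 2 * (Cd * (m : ℝ) ^ (-cd)) ≤ 4 * (m : ℝ) ^ 2 * (Cd * (m : ℝ) ^ (-c1)) := by
        gcongr
      calc (m : ℝ) + 4 * m ^ 2 * (Cd * (m : ℝ) ^ (-cd))
          ≤ m ^ 2 * (m : ℝ) ^ (-c1) + 4 * (m : ℝ) ^ 2 * (Cd * (m : ℝ) ^ (-c1)) := add_le_add h2 h5
        _ = _ := by ring
    have hlog : Real.log ((m ^ 2 : ℕ) + 1) ≤ 8 / c1 * (m : ℝ) ^ (c1 / 2) := by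
      have h1 := Real.log_le_rpow_div (x := ((m ^ 2 : ℕ) : ℝ) + 1) (by positivity) (show 0 < c1 / 4 by positivity)
      refine h1.trans ?_
      have h2 : (((m ^ 2 : ℕ) : ℝ) + 1) ^ (c1 / 4) ≤ (2 * (m : ℝ) ^ (2 : ℝ)) ^ (c1 / 4) := by
        apply Real.rpow_le_rpow (by positivity) _ (by positivity)
        rw [Real.rpow_two]
        push_cast
        nlinarith only [hX1, hmX]
      have h3 : (2 * (m : ℝ) ^ (2 : ℝ)) ^ (c1 / 4) = 2 ^ (c1 / 4) * (m : ℝ) ^ (c1 / 2) := by
        rw [Real.mul_rpow (by norm_num) (by positivity), ← Real.rpow_mul hm0.le]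
        congr 2
        ring
      have h4 : (2 : ℝ) ^ (c1 / 4) ≤ 2 := by
        calc (2 : ℝ) ^ (c1 / 4) ≤ 2 ^ (1 : ℝ) :=
              Real.rpow_le_rpow_of_exponent_le (by norm_num) (by linarith only [hc11, hh, hh1])
          _ = 2 := by norm_num
      rw [h3] at h2
      have h5 : (2 : ℝ) ^ (c1 / 4) * (m : ℝ) ^ (c1 / 2) ≤ 2 * (m : ℝ) ^ (c1 / 2) := by gcongr
      calc (((m ^ 2 : ℕ) : ℝ) + 1) ^ (c1 / 4) / (c1 / 4)
          ≤ (2 * (m : ℝ) ^ (c1 / 2)) / (c1 / 4) := by
            apply div_le_div_of_nonneg_right (h2.trans h5) (by positivity)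
        _ = _ := by field_simp; norm_num
    have hlog0 : 0 ≤ Real.log ((m ^ 2 : ℕ) + 1) := Real.log_nonneg (by
      have : (0 : ℝ) ≤ (m ^ 2 : ℕ) := by positivity
      linarith only)
    have hSS := hS.trans hS2
    have hSn : 0 ≤ ∑ k ∈ Finset.range (4 * m ^ 2), a k * b k :=
      Finset.sum_nonneg fun k _ => mul_nonneg (H.a_nonneg k) (H.b_nonneg k)
    have hmain : A * Real.log ((m ^ 2 : ℕ) + 1) * ∑ k ∈ Finset.range (4 * m ^ 2), a k * b k ≤
        A * (8 / c1 * (m : ℝ) ^ (c1 / 2)) * ((1 + 4 * Cd) * (m ^ 2 * (m : ℝ) ^ (-c1))) := by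
      gcongr
    refine hmain.trans ?_
    have h6 : A * (8 / c1 * (m : ℝ) ^ (c1 / 2)) * ((1 + 4 * Cd) * (m ^ 2 * (m : ℝ) ^ (-c1))) =
        K2 * ((m : ℝ) ^ (c1 / 2) * (m : ℝ) ^ (-c1)) * m ^ 2 := by
      rw [hK2]; ring
    rw [h6, ← Real.rpow_add hm0]
    have h7 : c1 / 2 + -c1 = -(c1 / 2) := by ring
    rw [h7]
    have h9 : K2 / h ≤ (m : ℝ) ^ (c1 / 2) := by
      have : K2 / h = X ^ (c1 / 2) := by
        rw [hX, ← Real.rpow_mul (by positivity)]
        have : 2 / c1 * (c1 / 2) = 1 := by field_simp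
        rw [this, Real.rpow_one]
      rw [this]
      exact Real.rpow_le_rpow (by positivity) hmX (by positivity)
    have h10 : K2 * (m : ℝ) ^ (-(c1 / 2)) ≤ h := by
      rw [Real.rpow_neg hm0.le, ← div_eq_mul_inv, div_le_iff₀ (by positivity)]
      rw [div_le_iff₀ hh] at h9
      linarith only [h9]
    push_cast
    exact mul_le_mul_of_nonneg_right h10 (by positivity)
  · have hL : 1 ≤ Real.log (2 + 1 / h) := by
      rw [Real.le_log_iff_exp_le (by positivity)]
      have : 4 ≤ 1 / h := by rw [le_div_iff₀ hh]; linarith only [hh1]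
      have := Real.exp_one_lt_d9
      linarith
    have h1 : (((m ^ 2 : ℕ) : ℝ) + 1) ≤ 8 * (K2 / h) ^ (4 / c1) := by
      have h2 : (K2 / h) ^ (4 / c1) = X ^ 2 := by
        rw [hX, ← Real.rpow_natCast, ← Real.rpow_mul (by positivity)]
        congr 1
        push_cast
        ring
      rw [h2]
      push_cast
      nlinarith only [hh1, hX1, hmX2, hh]
    have h2 : Real.log (((m ^ 2 : ℕ) : ℝ) + 1) ≤ Real.log (8 * (K2 / h) ^ (4 / c1)) :=
      Real.log_le_log (by positivity) h1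
    rw [Real.log_mul (by norm_num) (by positivity), Real.log_rpow (by positivity),
      Real.log_div (by positivity) (by positivity)] at h2
    have h3 : -Real.log h ≤ Real.log (2 + 1 / h) := by
      rw [← Real.log_inv]
      apply Real.log_le_log (by positivity)
      rw [one_div]; linarith only [hh, hh1]
    have h4 : 0 ≤ Real.log K2 := Real.log_nonneg hK21
    have h5 : 0 ≤ Real.log 8 := Real.log_nonneg (by norm_num)
    have h6 : 0 < 4 / c1 := by positivity
    calc Real.log (((m ^ 2 : ℕ) : ℝ) + 1) ≤ Real.log 8 + 4 / c1 * (Real.log K2 - Real.log h) := h2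
      _ ≤ Real.log 8 + 4 / c1 * (Real.log K2 + Real.log (2 + 1 / h)) := by gcongr; linarith only [h3]
      _ = (Real.log 8 + 4 / c1 * Real.log K2) * 1 + 4 / c1 * Real.log (2 + 1 / h) := by ring
      _ ≤ (Real.log 8 + 4 / c1 * Real.log K2) * Real.log (2 + 1 / h) + 4 / c1 * Real.log (2 + 1 / h) := by
          gcongr
      _ = _ := by ring

theorem final_core (hce : 0 < ce) (hCd : 0 < Cd) (hcd : 0 < cd) :
    ∃ c > (0 : ℝ), ∀ (h θ : ℝ) (a b d : ℕ → ℝ), FinalHyp ce Cd cd h θ a b d →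
      c * Real.sqrt h / Real.log (2 + 1 / h) ≤ θ := by
  obtain ⟨K, hK⟩ := pow_unbounded_of_one_lt (8192 / ce ^ 2) (one_lt_two : (1 : ℝ) < 2)
  set A : ℝ := 10 * ((K + 6 : ℕ) : ℝ) with hA
  have hA1 : 1 ≤ A := by
    rw [hA]; push_cast
    have : (0 : ℝ) ≤ K := by positivity
    linarith only
  obtain ⟨C2, hC2, hsc⟩ := exists_scale hCd hcd hA1
  refine ⟨min (ce / 12) (ce / (80 * A * C2)), lt_min (by positivity) (by positivity), ?_⟩
  intro h θ a b d H
  have hh := H.h0
  have hh1 := H.h1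
  obtain ⟨m, hm1, hm2, hm3⟩ := hsc ce h θ a b d H
  have hex : ∃ r : ℕ, 1 ≤ r ∧
      A * Real.log (r + 1) * ∑ k ∈ Finset.range (4 * r), a k * b k ≤ h * r :=
    ⟨m ^ 2, Nat.one_le_pow _ _ hm1, hm2⟩
  classical
  obtain ⟨hr1, hr2⟩ := Nat.find_spec hex
  have hrm : Nat.find hex ≤ m ^ 2 := Nat.find_min' hex ⟨Nat.one_le_pow _ _ hm1, hm2⟩
  have hmin : ∀ n, n < Nat.find hex → ¬ (1 ≤ n ∧
      A * Real.log (n + 1) * ∑ k ∈ Finset.range (4 * n), a k * b k ≤ h * n) :=
    fun n hn => Nat.find_min hex hn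
  set r := Nat.find hex with hr
  have hθ := H.a_le_two_θ hr1 hK.le hr2
  have hL : 1 ≤ Real.log (2 + 1 / h) := by
    rw [Real.le_log_iff_exp_le (by positivity)]
    have : 4 ≤ 1 / h := by rw [le_div_iff₀ hh]; linarith only [hh1]
    have := Real.exp_one_lt_d9
    linarith
  set L := Real.log (2 + 1 / h) with hLdef
  have hsq : Real.sqrt h ≤ 1 := Real.sqrt_le_iff.2 ⟨by norm_num, by linarith only [hh, hh1]⟩
  have hsq0 : 0 ≤ Real.sqrt h := Real.sqrt_nonneg h
  have hθ0 : 0 ≤ θ := by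
    have := H.a_nonneg (2 * (r + 1))
    linarith only [hθ, this]
  rw [div_le_iff₀ (by linarith only [hh, hh1, hL])]
  by_cases hr3 : r ≤ 2
  · have h1 : ce / 6 ≤ 2 * θ := by
      have h2 := (H.b_low' (N := 6) (by norm_num)).trans (H.b_le_a 6)
      have h3 : a 6 ≤ a (2 * (r + 1)) := H.a_anti (by omega)
      push_cast at h2
      linarith only [hθ, h2, h3]
    calc min (ce / 12) (ce / (80 * A * C2)) * Real.sqrt h ≤ ce / 12 * 1 := by
          apply mul_le_mul (min_le_left _ _) hsq hsq0 (by positivity)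
      _ ≤ θ * 1 := by linarith only [h1]
      _ ≤ θ * L := by gcongr
  · push Not at hr3
    obtain ⟨n, hn⟩ : ∃ n, r = n + 1 := ⟨r - 1, by omega⟩
    have hn2 : 2 ≤ n := by omega
    have h1 := hmin n (by omega)
    push Not at h1
    have h2 := h1 (by omega)
    have h3 := H.S_upper (N := 4 * n) (by omega)
    have hn' : (2 : ℝ) ≤ n := by exact_mod_cast hn2
    have hlog1 : 0 < Real.log ((n : ℝ) + 1) := Real.log_pos (by linarith only [hh, hh1, hn'])
    have h4 : a (4 * n) ≤ 2 * θ := (H.a_anti (by omega)).trans hθ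
    have h5 := H.a_nonneg (4 * n)
    set ℓ := Real.log ((n : ℝ) + 2) with hℓ
    have hℓ1 : 1 ≤ ℓ := by
      rw [hℓ, Real.le_log_iff_exp_le (by linarith only [hh, hh1, hn'])]
      have := Real.exp_one_lt_d9
      linarith only [hh, hh1, hn', this]
    have hℓ2 : Real.log ((n : ℝ) + 1) ≤ ℓ := Real.log_le_log (by linarith only [hh, hh1, hn']) (by linarith only [hh, hh1])
    have hℓ3 : 2 + Real.log ((4 * n : ℕ) : ℝ) ≤ 5 * ℓ := by
      push_cast
      rw [Real.log_mul (by norm_num) (by linarith only [hh, hh1, hn'])]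
      have h6 : Real.log 4 ≤ 2 := by
        have : Real.log 4 = 2 * Real.log 2 := by
          rw [show (4 : ℝ) = 2 ^ 2 by norm_num, Real.log_pow]; push_cast; ring
        rw [this]
        have := Real.log_two_lt_d9
        linarith only [hh, hh1, this]
      have h7 : Real.log (n : ℝ) ≤ ℓ := Real.log_le_log (by linarith only [hh, hh1, hn']) (by linarith only [hh, hh1])
      linarith only [hℓ1, h6, h7]
    have hℓ4 : ℓ ≤ C2 * L := by
      refine le_trans ?_ hm3
      apply Real.log_le_log (by linarith only [hh, hh1, hn'])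
      have : n + 1 ≤ m ^ 2 := by omega
      have : ((n : ℝ) + 1) ≤ ((m ^ 2 : ℕ) : ℝ) := by exact_mod_cast this
      linarith only [this]
    have h6 : h * n < A * ℓ * ((4 * n : ℕ) * (2 * θ) ^ 2 / ce ^ 2 * (5 * ℓ)) := by
      refine lt_of_lt_of_le h2 ?_
      have hlogn : 0 ≤ 2 + Real.log ((4 * n : ℕ) : ℝ) := by
        have : 0 ≤ Real.log ((4 * n : ℕ) : ℝ) := Real.log_nonneg (by push_cast; linarith only [hh, hh1, hn'])
        linarith only [hh, hh1, this]
      have h31 : ∑ k ∈ Finset.range (4 * n), a k * b k ≤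
          (4 * n : ℕ) * (2 * θ) ^ 2 / ce ^ 2 * (5 * ℓ) := by
        refine h3.trans ?_
        gcongr
      have h32 : 0 ≤ ∑ k ∈ Finset.range (4 * n), a k * b k :=
        Finset.sum_nonneg fun k _ => mul_nonneg (H.a_nonneg k) (H.b_nonneg k)
      gcongr
    have h7 : h < 80 * A / ce ^ 2 * (ℓ * θ) ^ 2 := by
      have h8 : A * ℓ * ((4 * n : ℕ) * (2 * θ) ^ 2 / ce ^ 2 * (5 * ℓ)) =
          80 * A / ce ^ 2 * (ℓ * θ) ^ 2 * n := by
        push_cast
        field_simp
        ring
      rw [h8] at h6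
      exact lt_of_mul_lt_mul_right h6 (by linarith only [hh, hh1, hn'])
    have h9 : Real.sqrt h ≤ 80 * A / ce * (ℓ * θ) := by
      apply Real.sqrt_le_iff.2 ⟨by positivity, ?_⟩
      refine h7.le.trans ?_
      have h10 : (80 * A / ce * (ℓ * θ)) ^ 2 = (80 * A) * (80 * A / ce ^ 2 * (ℓ * θ) ^ 2) := by
        field_simp
      rw [h10]
      have h11 : 0 ≤ 80 * A / ce ^ 2 * (ℓ * θ) ^ 2 := by positivity
      nlinarith only [hh, h10, hA1, h7]
    calc min (ce / 12) (ce / (80 * A * C2)) * Real.sqrt h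
        ≤ ce / (80 * A * C2) * (80 * A / ce * (ℓ * θ)) := by
          apply mul_le_mul (min_le_right _ _) h9 hsq0 (by positivity)
      _ = ℓ / C2 * θ := by field_simp
      _ ≤ (C2 * L) / C2 * θ := by gcongr
      _ = θ * L := by field_simp

end FinalHyp

end Pool.Agent.H89.Perc

end

section

/-!
# Project EXACT, one-arm formula: the form of a pair of patterns with a marked gap

The marked gap lies between strand `-1` and strand `0`.
-/

set_option autoImplicit false

open Finset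

namespace Pool.Agent.H15.Exact

open H56.EX

variable {L : ℕ}

theorem surr_comm {P Q : Pat L} : Surr P Q ↔ Surr Q P := by
  constructor
  · rintro ⟨S, h1, h2, h3⟩
    exact ⟨S, h2, h1, h3⟩
  · rintro ⟨S, h1, h2, h3⟩
    exact ⟨S, h2, h1, h3⟩

theorem neg_iff_of_cg {i x : ℤ} (h0 : 0 ≤ i) (h1 : i + 1 < L) (h : Cg L x i) :
    x < 0 ↔ x + 1 < 0 := by
  obtain ⟨k, hk⟩ := h
  constructor
  · intro hx
    have hk0 : k < 0 := by
      by_contra hc
      rw [not_lt] at hc
      have : (0 : ℤ) ≤ L * k := mul_nonneg (by omega) hc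
      omega
    have : (L : ℤ) * k ≤ -L := by nlinarith only [hk0]
    omega
  · intro hx
    omega

theorem pair_even {i : ℤ} (h0 : 0 ≤ i) (h1 : i + 1 < L) (U : Finset ℤ)
    (hpr : ∀ x ∈ U, Cg L x i ∨ Cg L x (i + 1)) (hs : ∀ x ∈ U, Cg L x i → x + 1 ∈ U)
    (hp : ∀ x ∈ U, Cg L x (i + 1) → x - 1 ∈ U) : Even (U.filter (· < 0)).card := by
  classical
  have hL : 2 ≤ L := by omega
  set U1 := U.filter (fun x => Cg L x i ∧ x < 0) with hU1
  set U2 := U.filter (fun x => Cg L x (i + 1) ∧ x < 0) with hU2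
  have hdisj : Disjoint U1 U2 := by
    rw [Finset.disjoint_left]
    intro x hx1 hx2
    have a1 := (mem_filter.mp hx1).2.1
    have a2 := (mem_filter.mp hx2).2.1
    exact not_Cg_succ hL i (Cg.trans' (Cg.symm' a1) a2)
  have hun : U.filter (· < 0) = U1 ∪ U2 := by
    ext x
    simp only [hU1, hU2, mem_filter, mem_union]
    constructor
    · rintro ⟨hx, hx0⟩
      rcases hpr x hx with h | h
      · left; exact ⟨hx, h, hx0⟩
      · right; exact ⟨hx, h, hx0⟩
    · rintro (⟨hx, _, hx0⟩ | ⟨hx, _, hx0⟩) <;> exact ⟨hx, hx0⟩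
  have him : U2 = U1.image (· + 1) := by
    ext x
    simp only [hU1, hU2, mem_filter, mem_image]
    constructor
    · rintro ⟨hx, hc, hx0⟩
      have hc' : Cg L (x - 1) i := by
        have := Cg.sub 1 hc
        simpa using this
      refine ⟨x - 1, ⟨hp x hx hc, hc', ?_⟩, by ring⟩
      rw [neg_iff_of_cg h0 h1 hc']
      simpa using hx0
    · rintro ⟨y, ⟨hy, hc, hy0⟩, rfl⟩
      exact ⟨hs y hy hc, Cg.add 1 hc, (neg_iff_of_cg h0 h1 hc).mp hy0⟩
  have hcard : U2.card = U1.card := by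
    rw [him]
    exact card_image_of_injective _ (fun a b h => by simpa using h)
  rw [hun, card_union_of_disjoint hdisj, hcard]
  exact ⟨_, rfl⟩

theorem surr_E_aux {i : ℤ} (h0 : 0 ≤ i) (h1 : i + 1 < L) {P Q : Pat L} (h : Surr (E i P) Q) :
    Surr P (E i Q) := by
  classical
  obtain ⟨S, hP, hQ, hodd⟩ := h
  set R := S.filter (fun x => ¬ (Cg L x i ∨ Cg L x (i + 1))) with hR
  set T := (R.image P.m).filter (fun x => Cg L x i ∨ Cg L x (i + 1)) with hT
  have memT : ∀ x, x ∈ T ↔ (P.m x ∈ R ∧ (Cg L x i ∨ Cg L x (i + 1))) := by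
    intro x
    rw [hT, mem_filter, mem_image]
    constructor
    · rintro ⟨⟨y, hy, rfl⟩, hx⟩
      rw [P.inv]
      exact ⟨hy, hx⟩
    · rintro ⟨hx, hx'⟩
      exact ⟨⟨P.m x, hx, P.inv x⟩, hx'⟩
  have memR : ∀ x, x ∈ R ↔ (x ∈ S ∧ ¬ Cg L x i ∧ ¬ Cg L x (i + 1)) := by
    intro x
    rw [hR, mem_filter, not_or]
  -- the partners of `z` and `z + 1`
  have ha : ∀ z, Cg L z i → P.m z ∈ R → P.m (z + 1) ∈ R := by
    intro z hz hw
    obtain ⟨hw1, hw2, hw3⟩ := (memR _).mp hw
    have e := E.of_m P i hw2 hw3 (by rw [P.inv]; exact hz)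
    rw [P.inv] at e
    have hn := E.mem_not P i hw2 hw3
    have hin := hP _ hw1
    rw [e] at hn hin
    exact (memR _).mpr ⟨hin, hn.1, hn.2⟩
  have hb : ∀ z, Cg L z (i + 1) → P.m z ∈ R → P.m (z - 1) ∈ R := by
    intro z hz hw
    obtain ⟨hw1, hw2, hw3⟩ := (memR _).mp hw
    have e := E.of_m_succ P i hw2 hw3 (by rw [P.inv]; exact hz)
    rw [P.inv] at e
    have hn := E.mem_not P i hw2 hw3
    have hin := hP _ hw1
    rw [e] at hn hin
    exact (memR _).mpr ⟨hin, hn.1, hn.2⟩
  have hTs : ∀ x ∈ T, Cg L x i → x + 1 ∈ T := by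
    intro x hx hc
    rw [memT] at hx ⊢
    exact ⟨ha x hc hx.1, Or.inr (Cg.add 1 hc)⟩
  have hTp : ∀ x ∈ T, Cg L x (i + 1) → x - 1 ∈ T := by
    intro x hx hc
    rw [memT] at hx ⊢
    refine ⟨hb x hc hx.1, Or.inl ?_⟩
    have := Cg.sub 1 hc
    simpa using this
  have hdisj : Disjoint R T := by
    rw [Finset.disjoint_left]
    intro x hx1 hx2
    obtain ⟨_, h2, h3⟩ := (memR x).mp hx1
    rcases ((memT x).mp hx2).2 with h | h
    · exact h2 h
    · exact h3 h
  refine ⟨R ∪ T, ?_, ?_, ?_⟩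
  · intro x hx
    rcases mem_union.mp hx with hx | hx
    · obtain ⟨hxS, hx1, hx2⟩ := (memR x).mp hx
      by_cases hpr : Cg L (P.m x) i ∨ Cg L (P.m x) (i + 1)
      · refine mem_union_right _ ((memT _).mpr ⟨?_, hpr⟩)
        rw [P.inv]
        exact hx
      · rw [not_or] at hpr
        refine mem_union_left _ ((memR _).mpr ⟨?_, hpr.1, hpr.2⟩)
        have := hP x hxS
        rwa [E.other P i hx1 hx2 hpr.1 hpr.2] at this
    · exact mem_union_left _ ((memT x).mp hx).1
  · intro x hx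
    rcases mem_union.mp hx with hx | hx
    · obtain ⟨hxS, hx1, hx2⟩ := (memR x).mp hx
      have hn := E.mem_not Q i hx1 hx2
      refine mem_union_left _ ((memR _).mpr ⟨?_, hn.1, hn.2⟩)
      have hQx := hQ x hxS
      by_cases c1 : Cg L (Q.m x) i
      · rw [E.of_m Q i hx1 hx2 c1]
        refine hQ _ ?_
        have := hP _ hQx
        rwa [E.of_i P i c1] at this
      by_cases c2 : Cg L (Q.m x) (i + 1)
      · rw [E.of_m_succ Q i hx1 hx2 c2]
        refine hQ _ ?_
        have := hP _ hQx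
        rwa [E.of_succ P i c2] at this
      rw [E.other Q i hx1 hx2 c1 c2]
      exact hQx
    · rcases ((memT x).mp hx).2 with h | h
      · rw [E.of_i Q i h]
        exact mem_union_right _ (hTs x hx h)
      · rw [E.of_succ Q i h]
        exact mem_union_right _ (hTp x hx h)
  · -- parity
    have e1 : Even (T.filter (· < 0)).card :=
      pair_even h0 h1 T (fun x hx => ((memT x).mp hx).2) hTs hTp
    set U := S.filter (fun x => Cg L x i ∨ Cg L x (i + 1)) with hU
    have e2 : Even (U.filter (· < 0)).card := by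
      refine pair_even h0 h1 U (fun x hx => (mem_filter.mp hx).2) ?_ ?_
      · intro x hx hc
        refine mem_filter.mpr ⟨?_, Or.inr (Cg.add 1 hc)⟩
        have := hP x (mem_filter.mp hx).1
        rwa [E.of_i P i hc] at this
      · intro x hx hc
        refine mem_filter.mpr ⟨?_, Or.inl ?_⟩
        · have := hP x (mem_filter.mp hx).1
          rwa [E.of_succ P i hc] at this
        · have := Cg.sub 1 hc
          simpa using this
    have c1 : ((R ∪ T).filter (· < 0)).card = (R.filter (· < 0)).card + (T.filter (· < 0)).card := by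
      rw [filter_union, card_union_of_disjoint (disjoint_filter_filter hdisj)]
    have c2 : (S.filter (· < 0)).card = (U.filter (· < 0)).card + (R.filter (· < 0)).card := by
      have : S.filter (· < 0) = U.filter (· < 0) ∪ R.filter (· < 0) := by
        ext x
        simp only [hU, hR, mem_filter, mem_union]
        tauto
      rw [this, card_union_of_disjoint]
      rw [Finset.disjoint_left]
      intro x hx1 hx2
      exact (mem_filter.mp (mem_filter.mp hx2).1).2 (mem_filter.mp (mem_filter.mp hx1).1).2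
    rw [c1]
    rw [c2] at hodd
    have hR : Odd (R.filter (· < 0)).card := by
      rcases Nat.odd_add.mp hodd with h
      by_contra hc
      rw [Nat.not_odd_iff_even] at hc
      have := h.mpr hc
      exact (Nat.not_odd_iff_even.mpr e2) this
    exact hR.add_even e1

theorem surr_E {i : ℤ} (h0 : 0 ≤ i) (h1 : i + 1 < L) (P Q : Pat L) :
    Surr (E i P) Q ↔ Surr P (E i Q) := by
  constructor
  · exact surr_E_aux h0 h1
  · intro h
    rw [surr_comm] at h ⊢
    exact surr_E_aux h0 h1 h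

theorem surr_ins0 (P Q : Pat L) : Surr (ins 0 P) (ins 0 Q) ↔ Surr P Q := by
  classical
  have hL : 1 ≤ L := le_trans (by norm_num) P.two_le
  have hinj : Function.Injective (phi L 0) := fun x y h => phi_inj hL h
  constructor
  · rintro ⟨S, hP, hQ, hodd⟩
    refine ⟨S.preimage (phi L 0) hinj.injOn, ?_, ?_, ?_⟩
    · intro x hx
      rw [mem_preimage] at hx ⊢
      rw [← ins_phi]
      exact hP _ hx
    · intro x hx
      rw [mem_preimage] at hx ⊢
      rw [← ins_phi]
      exact hQ _ hx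
    · set U := S.filter (fun x => Cg (L + 2) x 0 ∨ Cg (L + 2) x (0 + 1)) with hU
      have e2 : Even (U.filter (· < 0)).card := by
        refine pair_even (i := 0) le_rfl (by push_cast; omega) U (fun x hx => (mem_filter.mp hx).2) ?_ ?_
        · intro x hx hc
          refine mem_filter.mpr ⟨?_, Or.inr (Cg.add 1 hc)⟩
          have := hP x (mem_filter.mp hx).1
          rwa [ins_i 0 P hc] at this
        · intro x hx hc
          refine mem_filter.mpr ⟨?_, Or.inl ?_⟩
          · have := hP x (mem_filter.mp hx).1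
            rwa [ins_succ 0 P hc] at this
          · have := Cg.sub 1 hc
            simpa using this
      set R := S.filter (fun x => ¬ (Cg (L + 2) x 0 ∨ Cg (L + 2) x (0 + 1))) with hR
      have c2 : (S.filter (· < 0)).card = (U.filter (· < 0)).card + (R.filter (· < 0)).card := by
        have : S.filter (· < 0) = U.filter (· < 0) ∪ R.filter (· < 0) := by
          ext x
          simp only [hU, hR, mem_filter, mem_union]
          tauto
        rw [this, card_union_of_disjoint]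
        rw [Finset.disjoint_left]
        intro x hx1 hx2
        exact (mem_filter.mp (mem_filter.mp hx2).1).2 (mem_filter.mp (mem_filter.mp hx1).1).2
      have c3 : (R.filter (· < 0)) =
          ((S.preimage (phi L 0) hinj.injOn).filter (· < 0)).image (phi L 0) := by
        ext x
        simp only [hR, mem_filter, mem_image, mem_preimage]
        constructor
        · rintro ⟨⟨hx, hn⟩, hx0⟩
          rw [not_or] at hn
          rcases pos_cases hL 0 x with h | h | ⟨y, rfl⟩
          · exact absurd h hn.1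
          · exact absurd h hn.2
          · exact ⟨y, ⟨hx, (phi_zero_neg hL y).mp hx0⟩, rfl⟩
        · rintro ⟨y, ⟨hy, hy0⟩, rfl⟩
          have := phi_not hL 0 y
          exact ⟨⟨hy, by rw [not_or]; exact this⟩, (phi_zero_neg hL y).mpr hy0⟩
      rw [c2, c3, card_image_of_injective _ hinj] at hodd
      by_contra hc
      rw [Nat.not_odd_iff_even] at hc
      exact (Nat.not_odd_iff_even.mpr (e2.add hc)) hodd
  · rintro ⟨S, hP, hQ, hodd⟩
    refine ⟨S.image (phi L 0), ?_, ?_, ?_⟩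
    · intro x hx
      obtain ⟨y, hy, rfl⟩ := mem_image.mp hx
      rw [ins_phi]
      exact mem_image_of_mem _ (hP y hy)
    · intro x hx
      obtain ⟨y, hy, rfl⟩ := mem_image.mp hx
      rw [ins_phi]
      exact mem_image_of_mem _ (hQ y hy)
    · have : (S.image (phi L 0)).filter (· < 0) = (S.filter (· < 0)).image (phi L 0) := by
        ext x
        simp only [mem_filter, mem_image]
        constructor
        · rintro ⟨⟨y, hy, rfl⟩, hx0⟩
          exact ⟨y, ⟨hy, (phi_zero_neg hL y).mp hx0⟩, rfl⟩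
        · rintro ⟨y, ⟨hy, hy0⟩, rfl⟩
          exact ⟨⟨y, hy, rfl⟩, (phi_zero_neg hL y).mpr hy0⟩
      rw [this, card_image_of_injective _ hinj]
      exact hodd

theorem not_surr_two {P Q : Pat 2} (hP : P.m 0 = 1) : ¬ Surr P Q := by
  rintro ⟨S, h1, _, h3⟩
  have h0 : ∀ x : ℤ, Cg 2 x 0 → P.m x = x + 1 := by
    intro x hx
    rw [P.per_dvd hx, hP]
    ring
  have h0' : ∀ x : ℤ, Cg 2 x (0 + 1) → P.m x = x - 1 := by
    intro x hx
    have := P.per_dvd hx
    have h5 : P.m (0 + 1) = 0 := by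
      have := P.inv 0
      rw [hP] at this
      simpa using this
    rw [this, h5]
    ring
  have : Even (S.filter (· < 0)).card := by
    refine pair_even (L := 2) (i := 0) le_rfl (by norm_num) S ?_ ?_ ?_
    · intro x _
      unfold Cg
      push_cast
      omega
    · intro x hx hc
      rw [← h0 x hc]
      exact h1 x hx
    · intro x hx hc
      rw [← h0' x hc]
      exact h1 x hx
  exact (Nat.not_odd_iff_even.mpr this) h3

end Pool.Agent.H15.Exact

end

section

/-!
# The Pascal matrix and the commuting tridiagonal matrix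
-/

open Matrix

namespace Pool.Agent.H66.OneArm

end Pool.Agent.H66.OneArm

end

section

/-!
# The differential equation of the eigenvectors
-/

open Matrix Finset

namespace Pool.Agent.H66.OneArm

variable {n : ℕ}

end Pool.Agent.H66.OneArm

end

section

/-!
# A maximum principle on the unit interval
-/

open Set Filter Topology

namespace Pool.Agent.H66.OneArm

/-- One-sided maximum principle. -/
lemma max_principle_aux {z z1 z2 q P A Bf F : ℝ → ℝ} {ε b f : ℝ}
    (hz : ∀ t ∈ Icc (0 : ℝ) 1, HasDerivAt z (z1 t) t)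
    (hz1 : ∀ t ∈ Icc (0 : ℝ) 1, HasDerivAt z1 (z2 t) t)
    (hq : ∀ t ∈ Icc (0 : ℝ) 1, 3 / 4 ≤ q t) (hP : ∀ t ∈ Icc (0 : ℝ) 1, 0 ≤ P t)
    (hP0 : P 0 = 0) (hP1 : P 1 = 0) (hA0 : A 0 = 0) (hA1 : A 1 = 0)
    (hB : ∀ t ∈ Icc (0 : ℝ) 1, |Bf t| ≤ b) (hF : ∀ t ∈ Icc (0 : ℝ) 1, |F t| ≤ f)
    (hε : 0 ≤ ε) (hεb : ε * b ≤ 1 / 4)
    (heq : ∀ t ∈ Icc (0 : ℝ) 1, q t * z t = ε * (P t * z2 t + A t * z1 t + Bf t * z t + F t)) :
    ∀ t ∈ Icc (0 : ℝ) 1, z t ≤ 2 * ε * f := by
  have hcont : ContinuousOn z (Icc 0 1) := fun t ht => (hz t ht).continuousAt.continuousWithinAt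
  obtain ⟨t₀, ht₀, hmax⟩ := isCompact_Icc.exists_isMaxOn (nonempty_Icc.mpr zero_le_one) hcont
  have hmax' : ∀ s ∈ Icc (0 : ℝ) 1, z s ≤ z t₀ := fun s hs => hmax hs
  have hf0 : 0 ≤ f := (abs_nonneg _).trans (hF 0 ⟨le_rfl, zero_le_one⟩)
  suffices h : z t₀ ≤ 2 * ε * f from fun t ht => (hmax' t ht).trans h
  by_contra hcon
  push Not at hcon
  have hpos : 0 < z t₀ := lt_of_le_of_lt (by positivity) hcon
  have key : q t₀ * z t₀ ≤ ε * (Bf t₀ * z t₀ + F t₀) := by
    rw [heq t₀ ht₀]
    refine mul_le_mul_of_nonneg_left ?_ hε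
    rcases eq_or_lt_of_le ht₀.1 with h0 | h0
    · rw [← h0, hP0, hA0]
      linarith only
    rcases eq_or_lt_of_le ht₀.2 with h1 | h1
    · rw [h1, hP1, hA1]
      linarith only
    obtain ⟨h2, h3⟩ := second_deriv_nonpos
      (fun s hs => hz s ⟨hs.1.le, hs.2.le⟩) (hz1 t₀ ht₀) ⟨h0, h1⟩ hmax'
    rw [h2]
    have := mul_nonpos_of_nonneg_of_nonpos (hP t₀ ht₀) h3
    linarith only [this]
  have h1 : Bf t₀ * z t₀ ≤ b * z t₀ :=
    mul_le_mul_of_nonneg_right ((le_abs_self _).trans (hB t₀ ht₀)) hpos.le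
  have h2 : F t₀ ≤ f := (le_abs_self _).trans (hF t₀ ht₀)
  have h3 : q t₀ * z t₀ ≤ ε * (b * z t₀ + f) :=
    key.trans (mul_le_mul_of_nonneg_left (add_le_add h1 h2) hε)
  have h4 := mul_le_mul_of_nonneg_right (hq t₀ ht₀) hpos.le
  have h5 : ε * (b * z t₀) ≤ 1 / 4 * z t₀ := by
    rw [← mul_assoc]
    exact mul_le_mul_of_nonneg_right hεb hpos.le
  nlinarith only [hcon, h3, h4, h5]

/-- **Maximum principle.** -/
theorem max_principle {z z1 z2 q P A Bf F : ℝ → ℝ} {ε b f : ℝ}
    (hz : ∀ t ∈ Icc (0 : ℝ) 1, HasDerivAt z (z1 t) t)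
    (hz1 : ∀ t ∈ Icc (0 : ℝ) 1, HasDerivAt z1 (z2 t) t)
    (hq : ∀ t ∈ Icc (0 : ℝ) 1, 3 / 4 ≤ q t) (hP : ∀ t ∈ Icc (0 : ℝ) 1, 0 ≤ P t)
    (hP0 : P 0 = 0) (hP1 : P 1 = 0) (hA0 : A 0 = 0) (hA1 : A 1 = 0)
    (hB : ∀ t ∈ Icc (0 : ℝ) 1, |Bf t| ≤ b) (hF : ∀ t ∈ Icc (0 : ℝ) 1, |F t| ≤ f)
    (hε : 0 ≤ ε) (hεb : ε * b ≤ 1 / 4)
    (heq : ∀ t ∈ Icc (0 : ℝ) 1, q t * z t = ε * (P t * z2 t + A t * z1 t + Bf t * z t + F t)) :
    ∀ t ∈ Icc (0 : ℝ) 1, |z t| ≤ 2 * ε * f := by
  intro t ht
  rw [abs_le]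
  constructor
  · have h := max_principle_aux (z := fun s => -z s) (z1 := fun s => -z1 s) (z2 := fun s => -z2 s)
      (F := fun s => -F s) (fun s hs => (hz s hs).neg) (fun s hs => (hz1 s hs).neg) hq hP hP0 hP1
      hA0 hA1 hB (fun s hs => by rw [abs_neg]; exact hF s hs) hε hεb
      (fun s hs => by have := heq s hs; linear_combination -this) t ht
    linarith only [h]
  · exact max_principle_aux hz hz1 hq hP hP0 hP1 hA0 hA1 hB hF hε hεb heq t ht

end Pool.Agent.H66.OneArm

end

section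

/-!
# The eigenvalues of the Pascal matrix in terms of those of the tridiagonal matrix
-/

open Matrix Finset Real Set

namespace Pool.Agent.H66.OneArm

variable {n : ℕ}

/-- The defect `V' - ρ V` of an eigenvector is of size `1 / n ^ 2`. -/
lemma defect_bound {c K b M : ℝ} (hn : 1 ≤ n) (v : Fin n → ℝ)
    (hv : trid n *ᵥ v = ((n : ℝ) ^ 2 * c) • v) (hc : |c| ≤ K)
    (hb : ∀ c t : ℝ, |c| ≤ K → t ∈ Icc (0 : ℝ) 1 → |coefB c t| ≤ b ∧ |coefF c t| ≤ b)
    (hnb : b / (n : ℝ) ^ 2 ≤ 1 / 4) (hM : ∀ t ∈ Icc (0 : ℝ) 1, |V0 v t| ≤ M) :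
    ∀ t ∈ Icc (0 : ℝ) 1, |V1 v t - rho c t * V0 v t| ≤ 2 * b * M / (n : ℝ) ^ 2 := by
  have hn0 : (0 : ℝ) < (n : ℝ) ^ 2 := by positivity
  have hb0 : 0 ≤ b := (abs_nonneg _).trans (hb c 0 hc ⟨le_rfl, zero_le_one⟩).1
  have h := max_principle (z := fun t => V1 v t - rho c t * V0 v t)
    (z1 := fun t => V2 v t - (rho1 c t * V0 v t + rho c t * V1 v t))
    (z2 := fun t => V3 v t - ((rho2 c t * V0 v t + rho1 c t * V1 v t) +
      (rho1 c t * V1 v t + rho c t * V2 v t)))
    (q := qf) (P := fun t => t ^ 2 * (1 - t) ^ 2) (A := coefA c) (Bf := coefB c)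
    (F := fun t => coefF c t * V0 v t) (ε := 1 / (n : ℝ) ^ 2) (b := b) (f := b * M)
    (fun t _ => (hasDerivAt_V1 v t).sub ((hasDerivAt_rho c t).mul (hasDerivAt_V0 v t)))
    (fun t _ => (hasDerivAt_V2 v t).sub (((hasDerivAt_rho1 c t).mul (hasDerivAt_V0 v t)).add
      ((hasDerivAt_rho c t).mul (hasDerivAt_V1 v t))))
    (fun t _ => qf_ge t) (fun t _ => by positivity) (by simp) (by simp)
    (by simp [coefA]) (by simp [coefA]) (fun t ht => (hb c t hc ht).1)
    (fun t ht => by
      rw [abs_mul]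
      exact mul_le_mul (hb c t hc ht).2 (hM t ht) (abs_nonneg _) hb0)
    (by positivity) (by rw [one_div, inv_mul_eq_div]; exact hnb)
    (fun t _ => by
      have hode := ode v hv t
      have hq : rho c t * qf t = c - t := by
        unfold rho
        rw [div_mul_cancel₀ _ (qf_pos t).ne']
      have hqf : t ^ 2 - t + 1 = qf t := rfl
      rw [hqf] at hode
      rw [one_div, eq_inv_mul_iff_mul_eq₀ hn0.ne']
      unfold coefA coefB coefF
      linear_combination hode - (n : ℝ) ^ 2 * V0 v t * hq)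
  intro t ht
  have h1 := h t ht
  calc |V1 v t - rho c t * V0 v t| ≤ 2 * (1 / (n : ℝ) ^ 2) * (b * M) := h1
    _ = 2 * b * M / (n : ℝ) ^ 2 := by ring

/-- The phase. -/
noncomputable def psi (x t : ℝ) : ℝ :=
  -(1 / 2) * log (qf t) + 2 * x * arctan ((2 * t - 1) / √3)

lemma hasDerivAt_psi (x t : ℝ) : HasDerivAt (psi x) (rho (1 / 2 + √3 * x) t) t := by
  have hq := (qf_pos t).ne'
  have h3 : √3 ≠ 0 := by positivity
  have h33 : √3 ^ 2 = 3 := Real.sq_sqrt (by norm_num)
  have h1 : HasDerivAt (fun s => (2 * s - 1) / √3) (2 / √3) t := by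
    simpa using (((hasDerivAt_id' t).const_mul 2).sub_const 1).div_const (√3)
  have h := (((hasDerivAt_qf t).log hq).const_mul (-(1 / 2))).add (h1.arctan.const_mul (2 * x))
  refine h.congr_deriv ?_
  have e : 1 + ((2 * t - 1) / √3) ^ 2 = 4 / 3 * qf t := by
    rw [div_pow, h33]
    unfold qf
    ring
  rw [e]
  unfold rho
  field_simp
  linear_combination (-8 * x) * h33

lemma psi_one_sub_zero (x : ℝ) : psi x 1 - psi x 0 = 2 * π * x / 3 := by
  have h6 : arctan (1 / √3) = π / 6 := by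
    rw [← tan_pi_div_six]
    exact arctan_tan (by linarith [pi_pos]) (by linarith [pi_pos])
  unfold psi qf
  have e1 : (2 * (1 : ℝ) - 1) / √3 = 1 / √3 := by norm_num
  have e0 : (2 * (0 : ℝ) - 1) / √3 = -(1 / √3) := by rw [← neg_div]; norm_num
  rw [e1, e0, arctan_neg, h6]
  norm_num
  ring

end Pool.Agent.H66.OneArm

end

section

/-!
# The eigenvalues of the Pascal matrix in terms of those of the tridiagonal matrix, main result
-/

open Matrix Finset Real Set

namespace Pool.Agent.H66.OneArm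

lemma abs_psi_le {x X t : ℝ} (hx : |x| ≤ X) (ht : t ∈ Icc (0 : ℝ) 1) : |psi x t| ≤ 1 / 2 + π * X := by
  unfold psi
  have hX : 0 ≤ X := (abs_nonneg x).trans hx
  refine (abs_add_le _ _).trans (add_le_add ?_ ?_)
  · rw [abs_mul, abs_neg, abs_of_pos (show (0 : ℝ) < 1 / 2 by norm_num)]
    have h1 : qf t ≤ 1 := by
      unfold qf
      nlinarith only [ht, ht.1, ht.2]
    have h2 : log (qf t) ≤ 0 := log_nonpos (qf_pos t).le h1
    have h3 : 1 - (qf t)⁻¹ ≤ log (qf t) := one_sub_inv_le_log_of_pos (qf_pos t)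
    have h4 : (qf t)⁻¹ ≤ 4 / 3 := by
      rw [inv_le_comm₀ (qf_pos t) (by norm_num)]
      have := qf_ge t
      norm_num
      linarith only [this]
    rw [abs_of_nonpos h2]
    linarith only [h3, h4]
  · rw [abs_mul, abs_mul, abs_two]
    have h1 : |arctan ((2 * t - 1) / √3)| ≤ π / 2 := (abs_arctan_lt_pi_div_two' _).le
    have h2 : 2 * |x| * |arctan ((2 * t - 1) / √3)| ≤ 2 * X * (π / 2) := by gcongr
    linarith only [h2]
where
  abs_arctan_lt_pi_div_two' (y : ℝ) : |arctan y| < π / 2 := by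
    rw [abs_lt]
    exact ⟨neg_pi_div_two_lt_arctan y, arctan_lt_pi_div_two y⟩

/-- The eigenvalue of the Pascal matrix is close to `exp (2 π x / 3)`. -/
theorem ratio_bound (X : ℝ) : ∃ C : ℝ, 0 < C ∧ ∀ (n : ℕ) (x : ℝ) (v : Fin n → ℝ),
    C ≤ (n : ℝ) ^ 2 → |x| ≤ X → trid n *ᵥ v = ((n : ℝ) ^ 2 * (1 / 2 + √3 * x)) • v →
    ext v 0 ≠ 0 → |(∑ j, v j) / ext v 0 * exp (-(2 * π * x / 3)) - 1| ≤ C / (n : ℝ) ^ 2 := by
  obtain ⟨b, hb0, hb⟩ := exists_coef_bound (1 / 2 + √3 * |X|)
  set E := exp (1 / 2 + π * |X|) with hE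
  have hE1 : 1 ≤ E := by
    rw [hE]
    exact one_le_exp (by positivity)
  refine ⟨4 * b * E ^ 2, by positivity, fun n x v hn hx hv hv0 => ?_⟩
  have hn1 : 1 ≤ n := by
    by_contra hcon
    have : n = 0 := by omega
    rw [this] at hn
    have h4 : 0 < 4 * b * E ^ 2 := by positivity
    norm_num at hn
    linarith only [h4, hn]
  have hn0 : (0 : ℝ) < (n : ℝ) ^ 2 := by positivity
  have hx' : |x| ≤ |X| := hx.trans (le_abs_self X)
  set c := 1 / 2 + √3 * x with hc
  have hcK : |c| ≤ 1 / 2 + √3 * |X| := by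
    rw [hc]
    refine (abs_add_le _ _).trans ?_
    rw [abs_mul, abs_of_nonneg (sqrt_nonneg 3), abs_of_pos (show (0 : ℝ) < 1 / 2 by norm_num)]
    gcongr
  have hE2 : 1 ≤ E ^ 2 := one_le_pow₀ hE1
  have hnb : b / (n : ℝ) ^ 2 ≤ 1 / 4 := by
    rw [div_le_iff₀ hn0]
    nlinarith only [hn, hb0, hE2]
  have hexp : ∀ t ∈ Icc (0 : ℝ) 1, exp (psi x t) ≤ E ∧ exp (-psi x t) ≤ E := by
    intro t ht
    have h1 := abs_le.mp (abs_psi_le hx' ht)
    rw [hE]
    constructor
    · exact exp_le_exp.mpr h1.2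
    · exact exp_le_exp.mpr (by linarith only [h1])
  -- the normalised solution
  set W : ℝ → ℝ := fun t => exp (-psi x t) * V0 v t with hW
  have hWd : ∀ t, HasDerivAt W (exp (-psi x t) * (V1 v t - rho c t * V0 v t)) t := by
    intro t
    have h := ((hasDerivAt_psi x t).neg.exp).mul (hasDerivAt_V0 v t)
    refine h.congr_deriv ?_
    simp only [Pi.neg_apply]
    rw [hc]
    ring
  have hWc : Continuous W := continuous_iff_continuousAt.mpr fun t => (hWd t).continuousAt
  obtain ⟨ts, hts, hmax⟩ := isCompact_Icc.exists_isMaxOn (nonempty_Icc.mpr zero_le_one)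
    (hWc.abs.continuousOn (s := Icc (0 : ℝ) 1))
  set M := |W ts| with hM
  have hmax' : ∀ t ∈ Icc (0 : ℝ) 1, |W t| ≤ M := fun t ht => hmax ht
  have hM0 : 0 ≤ M := abs_nonneg _
  have hV : ∀ t ∈ Icc (0 : ℝ) 1, |V0 v t| ≤ E * M := by
    intro t ht
    have h1 : V0 v t = exp (psi x t) * W t := by
      rw [hW]
      simp only
      rw [← mul_assoc, ← exp_add, add_neg_cancel, exp_zero, one_mul]
    rw [h1, abs_mul, abs_of_pos (exp_pos _)]
    exact mul_le_mul (hexp t ht).1 (hmax' t ht) (abs_nonneg _) (by positivity)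
  have hdef := defect_bound hn1 v hv hcK hb hnb hV
  set κ := 2 * b * E ^ 2 / (n : ℝ) ^ 2 with hκ
  have hκ1 : κ ≤ 1 / 2 := by
    rw [hκ, div_le_iff₀ hn0]
    linarith only [hn]
  have hκ0 : 0 ≤ κ := by positivity
  have hWd' : ∀ t ∈ Icc (0 : ℝ) 1, ‖exp (-psi x t) * (V1 v t - rho c t * V0 v t)‖ ≤ κ * M := by
    intro t ht
    rw [Real.norm_eq_abs, abs_mul, abs_of_pos (exp_pos _)]
    calc exp (-psi x t) * |V1 v t - rho c t * V0 v t|
        ≤ E * (2 * b * (E * M) / (n : ℝ) ^ 2) :=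
          mul_le_mul (hexp t ht).2 (hdef t ht) (abs_nonneg _) (by positivity)
      _ = κ * M := by rw [hκ]; ring
  have hdiff : ∀ t ∈ Icc (0 : ℝ) 1, |W t - W 0| ≤ κ * M := by
    intro t ht
    have h := (convex_Icc (0 : ℝ) 1).norm_image_sub_le_of_norm_hasDerivWithin_le
      (fun s _ => (hWd s).hasDerivWithinAt) hWd' (x := 0) (y := t) ⟨le_rfl, zero_le_one⟩ ht
    rw [Real.norm_eq_abs, Real.norm_eq_abs, sub_zero, abs_of_nonneg ht.1] at h
    refine h.trans ?_
    have := mul_le_mul_of_nonneg_left ht.2 (mul_nonneg hκ0 hM0)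
    linarith only [this]
  have hM2 : M ≤ 2 * |W 0| := by
    have h1 := hdiff ts hts
    have h2 : M ≤ |W 0| + |W ts - W 0| := by
      rw [hM]
      have := abs_add_le (W 0) (W ts - W 0)
      rwa [add_sub_cancel] at this
    nlinarith only [h1, h2, hM0, hκ1]
  have h1 := hdiff 1 ⟨zero_le_one, le_rfl⟩
  have h2 : |W 1 - W 0| ≤ 2 * κ * |W 0| := h1.trans (by nlinarith only [hκ0, hM2])
  have hW0 : W 0 = exp (-psi x 0) * ext v 0 := by
    rw [hW]
    simp only
    rw [V0_zero]
  have hW1 : W 1 = exp (-psi x 1) * ∑ j, v j := by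
    rw [hW]
    simp only
    rw [V0_one]
  have hW0' : W 0 ≠ 0 := by
    rw [hW0]
    exact mul_ne_zero (exp_pos _).ne' hv0
  have h3 : (∑ j, v j) / ext v 0 * exp (-(2 * π * x / 3)) - 1 = (W 1 - W 0) / W 0 := by
    rw [sub_div, div_self hW0', hW0, hW1, ← psi_one_sub_zero x, neg_sub, sub_eq_add_neg,
      sub_eq_add_neg, exp_add]
    have he : exp (-psi x 0) ≠ 0 := (exp_pos _).ne'
    have he' : exp (psi x 0) * exp (-psi x 0) = 1 := by rw [← exp_add, add_neg_cancel, exp_zero]
    field_simp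
    linear_combination (exp (-psi x 1) * ∑ j, v j) * he'
  rw [h3, abs_div, div_le_iff₀ (abs_pos.mpr hW0')]
  refine h2.trans (le_of_eq ?_)
  rw [hκ]
  ring

end Pool.Agent.H66.OneArm

end

section

/-!
# The phases of the quasi-modes
-/

open Matrix Finset Real

namespace Pool.Agent.H66.OneArm

end Pool.Agent.H66.OneArm

end

section

/-!
# Sums of `cos (γ log s) / s`
-/

open Finset Real Set

namespace Pool.Agent.H66.OneArm

end Pool.Agent.H66.OneArm

end

section

/-!
# Two facts of elementary calculus about `1 / (c + cosh x)`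
-/

set_option autoImplicit false

open Real Set

namespace Pool.Agent.H66.OneArm

private lemma conv_antitone {c : ℝ} (hc : -1 < c) (hc' : c ≤ 1) :
    AntitoneOn (fun x : ℝ => sinh x / (x * (c + cosh x) ^ 2)) (Ioi 0) := by
  have hpos : ∀ x : ℝ, 0 < c + cosh x := fun x => by linarith [Real.one_le_cosh x]
  have hder : ∀ x : ℝ, 0 < x → HasDerivAt (fun x : ℝ => sinh x / (x * (c + cosh x) ^ 2))
      ((cosh x * (x * (c + cosh x) ^ 2) - sinh x * (1 * (c + cosh x) ^ 2 +
        x * (2 * (c + cosh x) * sinh x))) / (x * (c + cosh x) ^ 2) ^ 2) x := by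
    intro x hx
    have h1 : HasDerivAt (fun x : ℝ => (c + cosh x) ^ 2) (2 * (c + cosh x) * sinh x) x := by
      have h0 := ((Real.hasDerivAt_cosh x).const_add c).pow 2
      refine (h0.congr_deriv (by simp)).congr_of_eventuallyEq ?_
      filter_upwards with y
      rfl
    have h2 : HasDerivAt (fun x : ℝ => x * (c + cosh x) ^ 2)
        (1 * (c + cosh x) ^ 2 + x * (2 * (c + cosh x) * sinh x)) x := (hasDerivAt_id x).mul h1
    exact (Real.hasDerivAt_sinh x).div h2 (mul_pos hx (pow_pos (hpos x) 2)).ne'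
  apply antitoneOn_of_deriv_nonpos (convex_Ioi 0)
  · intro x hx
    exact (hder x hx).continuousAt.continuousWithinAt
  · rw [interior_Ioi]
    intro x hx
    exact (hder x hx).differentiableAt.differentiableWithinAt
  · rw [interior_Ioi]
    intro x hx
    rw [(hder x hx).deriv]
    apply div_nonpos_of_nonpos_of_nonneg _ (sq_nonneg _)
    have h1 := conv_num hc hc' hx
    have h2 : cosh x * (x * (c + cosh x) ^ 2) - sinh x * (1 * (c + cosh x) ^ 2 +
        x * (2 * (c + cosh x) * sinh x)) =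
        (c + cosh x) * ((x * cosh x - sinh x) * (c + cosh x) - 2 * x * sinh x ^ 2) := by ring
    rw [h2]
    exact mul_nonpos_of_nonneg_of_nonpos (hpos x).le h1

theorem convexOn_inv_cosh {c : ℝ} (hc : -1 < c) (hc' : c ≤ 1) {a : ℝ} (ha : 0 ≤ a) : ConvexOn ℝ (Set.Ici 0) fun E : ℝ => 1 / (c + cosh (a * √E)) := by
  have hpos : ∀ x : ℝ, 0 < c + cosh x := fun x => by linarith [Real.one_le_cosh x]
  rcases ha.eq_or_lt with rfl | ha
  · simp only [zero_mul]
    exact convexOn_const _ (convex_Ici 0)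
  have hder : ∀ E : ℝ, 0 < E → HasDerivAt (fun E : ℝ => 1 / (c + cosh (a * √E)))
      (-(a ^ 2 / 2) * (sinh (a * √E) / (a * √E * (c + cosh (a * √E)) ^ 2))) E := by
    intro E hE
    have hs : 0 < √E := Real.sqrt_pos.2 hE
    have h1 : HasDerivAt (fun E : ℝ => a * √E) (a * (1 / (2 * √E))) E :=
      (Real.hasDerivAt_sqrt hE.ne').const_mul a
    have h2 : HasDerivAt (fun E : ℝ => c + cosh (a * √E))
        (sinh (a * √E) * (a * (1 / (2 * √E)))) E := by
      have := (Real.hasDerivAt_cosh (a * √E)).comp E h1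
      exact this.const_add c
    have h3 := h2.inv (hpos _).ne'
    simp only [one_div]
    refine h3.congr_deriv ?_
    have h4 := (hpos (a * √E)).ne'
    field_simp
  have hcont : ContinuousOn (fun E : ℝ => 1 / (c + cosh (a * √E))) (Set.Ici 0) := by
    apply Continuous.continuousOn
    apply Continuous.div continuous_const
    · exact continuous_const.add (Real.continuous_cosh.comp
        (continuous_const.mul Real.continuous_sqrt))
    · intro E
      exact (hpos _).ne'
  apply MonotoneOn.convexOn_of_deriv (convex_Ici 0) hcont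
  · rw [interior_Ici]
    intro E hE
    exact (hder E hE).differentiableAt.differentiableWithinAt
  · rw [interior_Ici]
    intro E hE F hF hEF
    rw [(hder E hE).deriv, (hder F hF).deriv]
    have hE' : (0 : ℝ) < E := hE
    have hF' : (0 : ℝ) < F := hF
    have h1 := conv_antitone hc hc' (show a * √E ∈ Ioi 0 from mul_pos ha (Real.sqrt_pos.2 hE'))
      (show a * √F ∈ Ioi 0 from mul_pos ha (Real.sqrt_pos.2 hF'))
      (mul_le_mul_of_nonneg_left (Real.sqrt_le_sqrt hEF) ha.le)
    simp only at h1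
    nlinarith only [h1, ha, sq_nonneg a, mul_le_mul_of_nonneg_left h1 (show (0 : ℝ) ≤ a ^ 2 / 2 by positivity)]

end Pool.Agent.H66.OneArm

end

section

/-!
# The functions `h` and `H`
-/

open Filter Topology Real

namespace Pool.Agent.H66.OneArm

/-- The truncated function of the energy. -/
noncomputable def HH (t X E : ℝ) : ℝ := max (hh t (2 * π / 3 * √(E / 3)) - hh t (2 * π * X / 3)) 0

lemma HH_nonneg (t X E : ℝ) : 0 ≤ HH t X E := le_max_right _ _

lemma HH_anti {t X : ℝ} (h0 : 0 < t) (h1 : t < π) {E E' : ℝ} (h : E ≤ E') :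
    HH t X E' ≤ HH t X E := by
  unfold HH
  apply max_le_max _ le_rfl
  have h2 : √(E / 3) ≤ √(E' / 3) := Real.sqrt_le_sqrt (by linarith only [h])
  have h3 : hh t (2 * π / 3 * √(E' / 3)) ≤ hh t (2 * π / 3 * √(E / 3)) := by
    apply hh_anti h0 h1
    have := pi_pos
    rw [abs_of_nonneg (by positivity), abs_of_nonneg (by positivity)]
    exact mul_le_mul_of_nonneg_left h2 (by positivity)
  linarith only [h3]

lemma HH_convex {t X : ℝ} (h0 : 0 < t) (h1 : t < π) : ConvexOn ℝ (Set.Ici 0) (HH t X) := by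
  have hπ := pi_pos
  have h2 := convexOn_inv_cosh (c := cos t) (neg_one_lt_cos h0 h1) (cos_le_one t)
    (a := 2 * π / 3 / √3) (by positivity)
  have h3 := (h2.smul (sin_pos_of_pos_of_lt_pi h0 h1).le).add
    (convexOn_const (-hh t (2 * π * X / 3)) (convex_Ici (0 : ℝ)))
  have h4 := h3.sup (convexOn_const (0 : ℝ) (convex_Ici (0 : ℝ)))
  have e : HH t X = ((sin t • (fun E : ℝ => 1 / (cos t + cosh (2 * π / 3 / √3 * √E)))) +
      fun _ => -hh t (2 * π * X / 3)) ⊔ fun _ => 0 := by
    funext E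
    simp only [Pi.sup_apply, Pi.add_apply, Pi.smul_apply, smul_eq_mul]
    unfold HH
    have h5 : 2 * π / 3 * √(E / 3) = 2 * π / 3 / √3 * √E := by
      rw [Real.sqrt_div' E (by norm_num)]
      ring
    rw [h5]
    unfold hh
    rw [mul_one_div, ← sub_eq_add_neg]
  rw [e]
  exact h4

lemma HH_ge {t X : ℝ} {a : ℝ} (ha : 0 ≤ a) :
    hh t (2 * π / 3 * a) - hh t (2 * π * X / 3) ≤ HH t X (3 * a ^ 2) := by
  unfold HH
  have : 3 * a ^ 2 / 3 = a ^ 2 := by ring
  rw [this, Real.sqrt_sq ha]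
  exact le_max_left _ _

/-! ### The hyperbolic tangent -/

end Pool.Agent.H66.OneArm

end

section

/-!
# The tridiagonal matrix commutes with the Pascal matrix, and common eigenvectors
-/

open Matrix

namespace Pool.Agent.H66.OneArm

lemma rowS_symm (n i j : ℕ) : rowS n i j = rowS n j i := by
  rcases Nat.eq_zero_or_pos (i + j) with h | h
  · have hi : i = 0 := by omega
    have hj : j = 0 := by omega
    rw [hi, hj]
  · have hpos : ((i : ℝ) + j) ≠ 0 := by
      have : (0 : ℝ) < ((i + j : ℕ) : ℝ) := by exact_mod_cast h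
      push_cast at this
      exact this.ne'
    apply mul_left_cancel₀ hpos
    have e : ((i : ℝ) + j) * rowS n j i = ((j : ℝ) + i) * rowS n j i := by ring
    rw [e, rowS_eq, rowS_eq, add_comm j i, Nat.choose_symm_add]
    unfold diag
    ring

/-- The tridiagonal matrix commutes with the Pascal matrix. -/
theorem trid_comm (n : ℕ) : trid n * pasc n = pasc n * trid n := by
  have h : (trid n * pasc n)ᵀ = pasc n * trid n := by
    rw [transpose_mul, (trid_isSymm n).eq, (pasc_isSymm n).eq]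
  rw [← h]
  ext i j
  rw [transpose_apply, trid_mul_pasc_apply, trid_mul_pasc_apply, rowS_symm]

/-- An eigenvector of the tridiagonal matrix is an eigenvector of the Pascal matrix. -/
theorem pasc_mulVec {n : ℕ} (v : Fin n → ℝ) (τ : ℝ) (hv : trid n *ᵥ v = τ • v) (hv0 : v ≠ 0) :
    ext v 0 ≠ 0 ∧ pasc n *ᵥ v = ((∑ j, v j) / ext v 0) • v := by
  have h0 : ext v 0 ≠ 0 := fun h => hv0 (eq_zero_of_first v τ hv h)
  refine ⟨h0, ?_⟩
  have hn : 0 < n := by
    by_contra hcon
    exact h0 (ext_of_le v (by omega))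
  set w : Fin n → ℝ := pasc n *ᵥ v - ((∑ j, v j) / ext v 0) • v with hw
  have h1 : trid n *ᵥ w = τ • w := by
    rw [hw, mulVec_sub, mulVec_smul, mulVec_mulVec, trid_comm, ← mulVec_mulVec, hv, mulVec_smul,
      smul_sub, smul_comm]
  have h2 : ext w 0 = 0 := by
    rw [ext_of_lt w hn, hw]
    simp only [Pi.sub_apply, Pi.smul_apply, smul_eq_mul]
    have h3 : (pasc n *ᵥ v) ⟨0, hn⟩ = ∑ j, v j := by
      simp only [mulVec, dotProduct, pasc]
      exact Finset.sum_congr rfl fun j _ => by simp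
    rw [h3, ← ext_of_lt v hn, div_mul_cancel₀ _ h0, sub_self]
  have h3 := eq_zero_of_first w τ h1 h2
  rw [hw] at h3
  exact sub_eq_zero.mp h3

/-- The eigenvalues of the Pascal matrix are positive. -/
lemma eigenvalue_pos {n : ℕ} (v : Fin n → ℝ) (lam : ℝ) (hv : pasc n *ᵥ v = lam • v)
    (hv0 : v ≠ 0) : 0 < lam := by
  have h1 : v ⬝ᵥ (pasc n *ᵥ v) = ((lowp n)ᵀ *ᵥ v) ⬝ᵥ ((lowp n)ᵀ *ᵥ v) := by
    rw [pasc_eq, ← mulVec_mulVec, dotProduct_mulVec, mulVec_transpose]
  rw [hv, dotProduct_smul, smul_eq_mul] at h1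
  have hpos : 0 < v ⬝ᵥ v := by
    refine lt_of_le_of_ne (dot_self_nonneg v) fun h => hv0 ?_
    exact (dotProduct_self_eq_zero.mp h.symm)
  have hpos2 : 0 < ((lowp n)ᵀ *ᵥ v) ⬝ᵥ ((lowp n)ᵀ *ᵥ v) := by
    refine lt_of_le_of_ne (dot_self_nonneg _) fun h => hv0 ?_
    have h2 := dotProduct_self_eq_zero.mp h.symm
    have hdet : IsUnit ((lowp n)ᵀ).det := by
      rw [det_transpose, det_lowp]
      exact isUnit_one
    exact (Matrix.mulVec_injective_iff_isUnit.mpr ((Matrix.isUnit_iff_isUnit_det _).mpr hdet))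
      (by rw [h2, mulVec_zero])
  rw [← h1] at hpos2
  exact (pos_iff_pos_of_mul_pos hpos2).mpr hpos

end Pool.Agent.H66.OneArm

end

section

/-!
# A trace inequality

If the vectors `u i` are nearly orthonormal and `H` is convex, then the sum of `H` over the squared
distances of the eigenvalues of a symmetric matrix from `c` is at least about the sum of `H` over the
squared errors of the quasi-modes `u i`.
-/

open Matrix Finset

namespace Pool.Agent.H66.OneArm

variable {n : ℕ}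

/-- **Trace inequality.** -/
theorem trace_lower (T : Matrix (Fin n) (Fin n) ℝ) (hT : T.IsHermitian) {ι : Type} [Fintype ι]
    (u : ι → Fin n → ℝ) {A : ℝ} (hA : 0 ≤ A)
    (hbessel : ∀ v : Fin n → ℝ, ∑ i, (u i ⬝ᵥ v) ^ 2 ≤ A * (v ⬝ᵥ v))
    (H : ℝ → ℝ) (hH : ConvexOn ℝ (Set.Ici 0) H) (hH0 : ∀ E, 0 ≤ E → 0 ≤ H E) (c : ℝ)
    (hu : ∀ i, 0 < u i ⬝ᵥ u i) :
    ∑ i, (u i ⬝ᵥ u i) * H (((T *ᵥ u i - c • u i) ⬝ᵥ (T *ᵥ u i - c • u i)) / (u i ⬝ᵥ u i)) ≤
      A * ∑ k, H ((hT.eigenvalues k - c) ^ 2) := by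
  set b := hT.eigenvectorBasis with hb
  have hbT : ∀ k, T *ᵥ (b k : Fin n → ℝ) = hT.eigenvalues k • (b k : Fin n → ℝ) := by
    intro k
    exact hT.mulVec_eigenvectorBasis k
  have hsym : ∀ x y : Fin n → ℝ, (T *ᵥ x) ⬝ᵥ y = x ⬝ᵥ (T *ᵥ y) := by
    intro x y
    have hTt : Tᵀ = T := by
      have := hT.eq
      rwa [conjTranspose_eq_transpose_of_trivial] at this
    rw [dotProduct_mulVec, ← mulVec_transpose, hTt]
  have hparseval : ∀ x : Fin n → ℝ, ∑ k, (x ⬝ᵥ (b k : Fin n → ℝ)) ^ 2 = x ⬝ᵥ x := by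
    intro x
    have h1 := b.sum_sq_norm_inner_right (WithLp.toLp 2 x)
    rw [← real_inner_self_eq_norm_sq, dot_eq_inner] at h1
    simp only [dot_eq_inner, Real.norm_eq_abs, sq_abs] at h1
    rw [← h1]
    refine sum_congr rfl fun k _ => ?_
    rw [dotProduct_comm]
  have hcoef : ∀ (x : Fin n → ℝ) (k), (T *ᵥ x - c • x) ⬝ᵥ (b k : Fin n → ℝ) =
      (hT.eigenvalues k - c) * (x ⬝ᵥ (b k : Fin n → ℝ)) := by
    intro x k
    rw [sub_dotProduct, hsym, hbT, dotProduct_smul, smul_dotProduct, smul_eq_mul, smul_eq_mul]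
    ring
  have hjensen : ∀ i, (u i ⬝ᵥ u i) *
      H (((T *ᵥ u i - c • u i) ⬝ᵥ (T *ᵥ u i - c • u i)) / (u i ⬝ᵥ u i)) ≤
        ∑ k, (u i ⬝ᵥ (b k : Fin n → ℝ)) ^ 2 * H ((hT.eigenvalues k - c) ^ 2) := by
    intro i
    have hpos := hu i
    have h1 := hH.map_sum_le (t := univ) (w := fun k => (u i ⬝ᵥ (b k : Fin n → ℝ)) ^ 2 / (u i ⬝ᵥ u i))
      (p := fun k => (hT.eigenvalues k - c) ^ 2) (fun k _ => by positivity)
      (by rw [← sum_div, hparseval, div_self hpos.ne']) (fun k _ => Set.mem_Ici.mpr (sq_nonneg _))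
    have h2 : ∑ k, ((u i ⬝ᵥ (b k : Fin n → ℝ)) ^ 2 / (u i ⬝ᵥ u i)) • (hT.eigenvalues k - c) ^ 2 =
        ((T *ᵥ u i - c • u i) ⬝ᵥ (T *ᵥ u i - c • u i)) / (u i ⬝ᵥ u i) := by
      rw [← hparseval (T *ᵥ u i - c • u i), sum_div]
      refine sum_congr rfl fun k _ => ?_
      rw [hcoef, smul_eq_mul]
      ring
    rw [h2] at h1
    have h3 := mul_le_mul_of_nonneg_left h1 hpos.le
    refine h3.trans (le_of_eq ?_)
    rw [mul_sum]
    refine sum_congr rfl fun k _ => ?_
    rw [smul_eq_mul]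
    field_simp
  calc ∑ i, (u i ⬝ᵥ u i) * H (((T *ᵥ u i - c • u i) ⬝ᵥ (T *ᵥ u i - c • u i)) / (u i ⬝ᵥ u i))
      ≤ ∑ i, ∑ k, (u i ⬝ᵥ (b k : Fin n → ℝ)) ^ 2 * H ((hT.eigenvalues k - c) ^ 2) :=
        sum_le_sum fun i _ => hjensen i
    _ = ∑ k, (∑ i, (u i ⬝ᵥ (b k : Fin n → ℝ)) ^ 2) * H ((hT.eigenvalues k - c) ^ 2) := by
        rw [sum_comm]
        exact sum_congr rfl fun k _ => by rw [sum_mul]
    _ ≤ ∑ k, A * H ((hT.eigenvalues k - c) ^ 2) := by
        refine sum_le_sum fun k _ => mul_le_mul_of_nonneg_right ?_ (hH0 _ (sq_nonneg _))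
        refine (hbessel _).trans (le_of_eq ?_)
        have : (b k : Fin n → ℝ) ⬝ᵥ (b k : Fin n → ℝ) = 1 := by
          rw [← dot_eq_inner, real_inner_self_eq_norm_sq, b.norm_eq_one]
          norm_num
        rw [this, mul_one]
    _ = A * ∑ k, H ((hT.eigenvalues k - c) ^ 2) := by rw [mul_sum]

end Pool.Agent.H66.OneArm

end

section

/-!
# Spectral description of the Pascal matrix
-/

open Matrix Finset Real

namespace Pool.Agent.H66.OneArm

lemma pasc_mulVec_evec (n : ℕ) (k : Fin n) :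
    ext (evec n k) 0 ≠ 0 ∧ pasc n *ᵥ evec n k = lam n k • evec n k :=
  pasc_mulVec (evec n k) _ (trid_mulVec_evec n k) (evec_ne_zero n k)

lemma lam_pos (n : ℕ) (k : Fin n) : 0 < lam n k :=
  eigenvalue_pos (evec n k) _ (pasc_mulVec_evec n k).2 (evec_ne_zero n k)

lemma exp_mu (n : ℕ) (k : Fin n) : exp (mu n k) = lam n k := Real.exp_log (lam_pos n k)

lemma pasc_mul_UU (n : ℕ) : pasc n * UU n = UU n * diagonal (lam n) := by
  ext i k
  rw [mul_diagonal]
  have h := congrFun (pasc_mulVec_evec n k).2 i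
  rw [Pi.smul_apply, smul_eq_mul] at h
  have h2 : (pasc n * UU n) i k = (pasc n *ᵥ evec n k) i := rfl
  rw [h2, h, mul_comm]
  rfl

/-- The characteristic determinant. -/
theorem det_eq_prod (n : ℕ) (w : ℝ) :
    (1 + w • pasc n + pasc n ^ 2).det = ∏ k, (1 + w * lam n k + lam n k ^ 2) := by
  have h1 : (1 + w • pasc n + pasc n ^ 2) * UU n =
      UU n * diagonal (fun k => 1 + w * lam n k + lam n k ^ 2) := by
    have h2 : pasc n ^ 2 * UU n = UU n * diagonal (fun k => lam n k ^ 2) := by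
      rw [pow_two, mul_assoc, pasc_mul_UU, ← mul_assoc, pasc_mul_UU, mul_assoc, diagonal_mul_diagonal]
      simp only [pow_two]
    have h3 : (diagonal (fun k => 1 + w * lam n k + lam n k ^ 2) : Matrix (Fin n) (Fin n) ℝ) =
        1 + w • diagonal (lam n) + diagonal (fun k => lam n k ^ 2) := by
      ext i j
      by_cases hij : i = j
      · subst hij
        simp
      · simp [hij]
    rw [h3, add_mul, add_mul, one_mul, smul_mul_assoc, pasc_mul_UU, h2, mul_add, mul_add, mul_one,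
      mul_smul_comm]
  have h4 := congrArg det h1
  rw [det_mul, det_mul, mul_comm, det_diagonal] at h4
  exact mul_left_cancel₀ (det_UU_ne n) h4

lemma prod_lam (n : ℕ) : ∏ k, lam n k = 1 := by
  have h4 := congrArg det (pasc_mul_UU n)
  rw [det_mul, det_mul, mul_comm, det_diagonal, det_pasc] at h4
  exact (mul_left_cancel₀ (det_UU_ne n) h4).symm

theorem det_eq_prod_cosh (n : ℕ) (w : ℝ) :
    (1 + w • pasc n + pasc n ^ 2).det = ∏ k, (w + 2 * cosh (mu n k)) := by
  rw [det_eq_prod]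
  have h : ∀ k ∈ (univ : Finset (Fin n)), 1 + w * lam n k + lam n k ^ 2 =
      lam n k * (w + 2 * cosh (mu n k)) := by
    intro k _
    rw [cosh_eq, exp_neg, exp_mu]
    have := (lam_pos n k).ne'
    field_simp
    ring
  rw [Finset.prod_congr rfl h, Finset.prod_mul_distrib, prod_lam, one_mul]

end Pool.Agent.H66.OneArm

end

section

/-!
# A squeeze argument for sums over a spectrum
-/

set_option autoImplicit false

open Real Filter Topology

namespace Pool.Agent.H66.OneArm

end Pool.Agent.H66.OneArm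

end

end

section

/-! The parts of this file: H89.Perc.FinalAnalysis, H15.Exact.Form, H66.OneArm.Defs, H66.OneArm.Ode, H66.OneArm.MaxPrin, H66.OneArm.Ratio, H66.OneArm.RatioMain, H66.OneArm.QuasiA, H66.OneArm.QuasiB, H66.OneArm.Convex, H66.OneArm.LowerA, H66.OneArm.Eigen, H66.OneArm.Trace, H66.OneArm.Spectral, H66.OneArm.Squeeze. -/

section

/-!
# The real analysis behind the lower bound for the percolation probability
-/

open Filter Topology

namespace Pool.Agent.H89.Perc

namespace FinalHyp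

variable {ce Cd cd h θ : ℝ} {a b d : ℕ → ℝ}

end FinalHyp

end Pool.Agent.H89.Perc

end

section

/-!
# Project EXACT, one-arm formula: the form of a pair of patterns with a marked gap

The marked gap lies between strand `-1` and strand `0`.
-/

set_option autoImplicit false

open Finset

namespace Pool.Agent.H15.Exact

open H56.EX

variable {L : ℕ}

theorem formProps_zero : FormProps 0 W0 where
  adj := fun L i h0 h1 P Q => by
    by_cases h : Surr (E i P) Q
    · rw [W0_of h, W0_of ((surr_E h0 h1 P Q).mp h)]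
    · rw [W0_of_not h, W0_of_not (fun h' => h ((surr_E h0 h1 P Q).mpr h'))]
  ins0 := fun L P Q => by
    by_cases h : Surr P Q
    · rw [W0_of h, W0_of ((surr_ins0 P Q).mpr h)]
    · rw [W0_of_not h, W0_of_not (fun h' => h ((surr_ins0 P Q).mp h'))]
  insm := fun L P Q => by
    have : Surr (ins (-1) P) (ins (-1) Q) :=
      surr_of_m (by rw [ins_self]; norm_num) (by rw [ins_self]; norm_num)
    rw [zero_mul, W0, if_pos this]
  two_left := fun P Q h => by
    rw [W0, if_neg (not_surr_two h)]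
  two_right := fun P Q h => by
    rw [W0, if_neg]
    rw [surr_comm]
    exact not_surr_two h
  two_base := fun P Q hP hQ => by
    have : Surr P Q := by
      refine surr_of_m ?_ ?_
      · rw [← hP, P.inv]
      · rw [← hQ, Q.inv]
    rw [W0, if_pos this]

end Pool.Agent.H15.Exact

end

section

/-!
# The Pascal matrix and the commuting tridiagonal matrix
-/

open Matrix

namespace Pool.Agent.H66.OneArm

end Pool.Agent.H66.OneArm

end

section

/-!
# The differential equation of the eigenvectors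
-/

open Matrix Finset

namespace Pool.Agent.H66.OneArm

variable {n : ℕ}

end Pool.Agent.H66.OneArm

end

section

/-!
# A maximum principle on the unit interval
-/

open Set Filter Topology

namespace Pool.Agent.H66.OneArm

end Pool.Agent.H66.OneArm

end

section

/-!
# The eigenvalues of the Pascal matrix in terms of those of the tridiagonal matrix
-/

open Matrix Finset Real Set

namespace Pool.Agent.H66.OneArm

variable {n : ℕ}

end Pool.Agent.H66.OneArm

end

section

/-!
# The eigenvalues of the Pascal matrix in terms of those of the tridiagonal matrix, main result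
-/

open Matrix Finset Real Set

namespace Pool.Agent.H66.OneArm

end Pool.Agent.H66.OneArm

end

section

/-!
# The phases of the quasi-modes
-/

open Matrix Finset Real

namespace Pool.Agent.H66.OneArm

end Pool.Agent.H66.OneArm

end

section

/-!
# Sums of `cos (γ log s) / s`
-/

open Finset Real Set

namespace Pool.Agent.H66.OneArm

end Pool.Agent.H66.OneArm

end

section

/-!
# Two facts of elementary calculus about `1 / (c + cosh x)`
-/

set_option autoImplicit false

open Real Set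

namespace Pool.Agent.H66.OneArm

end Pool.Agent.H66.OneArm

end

section

/-!
# The functions `h` and `H`
-/

open Filter Topology Real

namespace Pool.Agent.H66.OneArm

/-! ### The hyperbolic tangent -/

end Pool.Agent.H66.OneArm

end

section

/-!
# The tridiagonal matrix commutes with the Pascal matrix, and common eigenvectors
-/

open Matrix

namespace Pool.Agent.H66.OneArm

end Pool.Agent.H66.OneArm

end

section

/-!
# A trace inequality

If the vectors `u i` are nearly orthonormal and `H` is convex, then the sum of `H` over the squared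
distances of the eigenvalues of a symmetric matrix from `c` is at least about the sum of `H` over the
squared errors of the quasi-modes `u i`.
-/

open Matrix Finset

namespace Pool.Agent.H66.OneArm

variable {n : ℕ}

end Pool.Agent.H66.OneArm

end

section

/-!
# Spectral description of the Pascal matrix
-/

open Matrix Finset Real

namespace Pool.Agent.H66.OneArm

end Pool.Agent.H66.OneArm

end

section

/-!
# A squeeze argument for sums over a spectrum
-/

set_option autoImplicit false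

open Real Filter Topology

namespace Pool.Agent.H66.OneArm

end Pool.Agent.H66.OneArm

end

end
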